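import Pool.Agent.Lib.MP_b6945b_al.Kx.VFin
import Pool.Agent.Lib.MP_b6945b_al.FinalA

set_option autoImplicit false

/-!
Summation over the blocks: from the blockwise alternating sums to the sum for the group.
-/

namespace Pool.Agent.Lib.MP_b6945b_al.Kx

open St Bi IsLocalRing Finset

lemma gsum_n {H : Type} [Group H] [Fintype H] (J : IrrData H) :
    Nat.card (ConjClasses H) * Nat.card H = Nat.card H * J.n := by
  classical
  have h1 := J.comm_count 1
  simp only [inv_one, J.χ_one, div_self (J.d_ne _), Finset.sum_const, card_univ, Fintype.card_fin,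
    nsmul_eq_mul, mul_one] at h1
  rw [← card_comm_eq_card_conjClasses_mul_card, Nat.card_eq_fintype_card, Fintype.card_subtype,
    Finset.card_filter, Fintype.sum_prod_type, Nat.card_eq_fintype_card]
  refine Nat.cast_injective (R := ℂ) ?_
  push_cast
  rw [← h1]
  refine Finset.sum_congr rfl fun a _ => Finset.sum_congr rfl fun b _ => if_congr ?_ rfl rfl
  rw [mul_inv_eq_one, mul_inv_eq_iff_eq_mul]
  rfl

variable {G : Type} [Group G] [Fintype G] {V : ValuationSubring ℂ} {p : ℕ} [Fact p.Prime]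
  {M : Ideal (integralClosure ℤ ℂ)}

lemma gsum_blocks (hM : CoefB p M V) (I : IrrData G) {r : Fin I.n → Fin I.n}
    (h1 : ∀ j, I.Bl V j (r j)) (h2 : ∀ j k, I.Bl V j k → r j = r k) {P L : Subgroup G}
    (hP : IsPGroup p P) (hPL : P ≤ L) (hL : L ≤ Nz P)
    (hC : ∀ g, (∀ u ∈ P, u * g = g * u) → g ∈ L) :
    ∑ i ∈ univ.filter (fun i => r i = i), wfB M (I.χ i) L =
      Nat.card (ConjClasses L) * Nat.card L := by
  classical
  let _ : Fintype L := Fintype.ofFinite L
  obtain ⟨J⟩ := exists_irrData L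
  have h3 : ∀ j, ∃ k, IndV V I k J j := fun j => by
    obtain ⟨k, hk⟩ := I.exists_induced hM.nonunit L J j P hP hPL hL hC
    refine ⟨k, fun x => ?_⟩
    have hcf : IsCF (ind (IsConj x)) := isCF_ind (isConj_conj_iff x)
    have h2 := hk _ (I.om_mem_Lam hcf fun g => ind_mem V _ g)
    rwa [I.zf_om hcf] at h2
  choose k hk using h3
  have h4 := Finset.card_eq_sum_card_fiberwise (s := univ) (f := fun j => r (k j))
    (t := univ.filter fun i => r i = i) fun j _ =>
      mem_filter.2 ⟨mem_univ _, (h2 _ _ (h1 (k j))).symm⟩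
  rw [card_univ, Fintype.card_fin] at h4
  rw [gsum_n J, h4, Finset.mul_sum]
  refine Finset.sum_congr rfl fun i hi => ?_
  rw [wfB, kInd_eq_card hM.iff I i L J]
  refine congrArg _ (congrArg _ (Finset.filter_congr fun j _ => ?_))
  rw [kr1b_ind_bl (hk j)]
  exact ⟨fun e => (h2 _ _ e).trans (mem_filter.1 hi).2, fun e => e ▸ h1 (k j)⟩

open Classical in
lemma gsum_normal [Fintype (Finset (Subgroup G))] (F : Subgroup G → ℤ) :
    ∑ σ : Finset (Subgroup G), (if IsPChain p σ then sgn σ * F (stab σ) else 0) =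
      ∑ σ : Finset (Subgroup G), if IsPChain p σ ∧ IsNC σ then sgn σ * F (stab σ) else 0 := by
  refine Int.cast_injective (α := ℂ) ?_
  push_cast
  simp only [ite_and]
  convert sum_normal p fun L => (F L : ℂ)

lemma gsum_dz (hM : CoefB p M V) (I : IrrData G) {i : Fin I.n}
    (hi : p ^ (Nat.card G).factorization p ∣ I.d i) : KS p M (I.χ i) = Nat.card G := by
  classical
  let _ : Fintype (Finset (Subgroup G)) := Fintype.ofFinite _
  have hp := hM.nonunit
  obtain ⟨e, he⟩ := St.exists_blockIdem (V := V) I i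
  rw [KS_eq, gsum_normal fun L => (wfB M (I.χ i) L : ℤ), Finset.sum_eq_single ∅ (fun σ _ h0 => ?_)
    fun h => absurd (mem_univ _) h, if_pos ⟨⟨by simp, by simp⟩, bot_le⟩, stab_empty, wfB,
    kInd_top_eq_card hM.iff, Finset.card_eq_one.2 ⟨i, Finset.ext fun j => ?_⟩, Subgroup.card_top,
    sgn, card_empty, pow_zero, one_mul, mul_one]
  · rw [mem_filter, mem_singleton]
    exact ⟨fun h => wdz_bl hp hi h.2, fun h => ⟨mem_univ _, by rw [h]; exact wdz_refl I i⟩⟩
  split_ifs with h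
  · obtain ⟨h3, h4, h5⟩ := top_spec h.1
    rw [wfB, kInd_eq_sum_kL hM he h3 h.2 h4 h5, Finset.sum_eq_zero fun β hβ => ?_, mul_zero,
      Nat.cast_zero, mul_zero]
    obtain ⟨R, hR⟩ := Finset.nonempty_iff_ne_empty.2 h0
    have h6 := wdz_bot hp hi he h3 ((mem_filter.1 hβ).2.bb_ne (mem_blk.1 (mem_filter.1 hβ).1).res_ne)
    exact absurd (le_bot_iff.1 ((Finset.le_sup (f := id) hR).trans h6.le)) (h.1.2 R hR).2
  · rfl

theorem nn_one_of_blocks (hM : CoefB p M V) (I : IrrData G)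
    (h : ∀ i, ¬ p ^ (Nat.card G).factorization p ∣ I.d i → KS p M (I.χ i) = 0) :
    nn p (1 : G) = Nat.card G *
      (univ.filter (fun i => p ^ (Nat.card G).factorization p ∣ I.d i)).card := by
  classical
  let _ : Fintype (Finset (Subgroup G)) := Fintype.ofFinite _
  obtain ⟨r, h1, h2⟩ := kr1b_rep V I
  have h3 : nn p (1 : G) = ∑ i ∈ univ.filter (fun i => r i = i), KS p M (I.χ i) := by
    rw [nn_one_eq]
    simp only [card_comm_sub, KS_eq]
    rw [gsum_normal fun L => ((Nat.card (ConjClasses L) * Nat.card L : ℕ) : ℤ),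
      Finset.sum_congr rfl fun i _ => gsum_normal fun L => (wfB M (I.χ i) L : ℤ), Finset.sum_comm]
    refine Finset.sum_congr rfl fun σ _ => ?_
    split_ifs with e
    · obtain ⟨h3, h4, h5⟩ := top_spec e.1
      rw [← Finset.mul_sum, ← Nat.cast_sum, gsum_blocks hM I h1 h2 h3 e.2 h4 h5]
    · exact Finset.sum_const_zero.symm
  rw [h3, ← Finset.sum_filter_add_sum_filter_not _
    fun i => p ^ (Nat.card G).factorization p ∣ I.d i,
    Finset.sum_eq_zero (s := filter (fun i => ¬ _) _) fun i hi => h i (mem_filter.1 hi).2, add_zero,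
    Finset.sum_congr rfl fun i hi => gsum_dz hM I (mem_filter.1 hi).2, Finset.sum_const,
    nsmul_eq_mul, mul_comm, Finset.filter_comm, Finset.filter_true_of_mem
      fun i hi => wdz_bl hM.nonunit (mem_filter.1 hi).2 (h1 i)]

theorem exists_max_ideal (p : ℕ) (hp : p.Prime) : ∃ M : Ideal (integralClosure ℤ ℂ),
    M.IsMaximal ∧ (p : integralClosure ℤ ℂ) ∈ M := by
  have : Fact p.Prime := ⟨hp⟩
  obtain ⟨V₀, hV₀⟩ := exists_val p
  obtain ⟨M, hM, hpM⟩ := Ideal.exists_le_maximal (Ideal.span {(p : integralClosure ℤ ℂ)}) fun e => by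
    obtain ⟨a, ha⟩ := Ideal.mem_span_singleton.1 ((Ideal.eq_top_iff_one _).1 e)
    refine one_not_mem_nonunits V₀ ?_
    rw [show (1 : ℂ) = p * a from congrArg Subtype.val ha]
    exact mul_mem_nonunits hV₀ (mem_of_isIntegral V₀ a.2)
  exact ⟨M, hM, hpM (Ideal.mem_span_singleton_self _)⟩

/-- The identity for the group follows from the vanishing of the alternating sums of all blocks
with a nontrivial defect group. -/
theorem krc_of_blocks (p : ℕ) (hp : p.Prime) (G : Type) [Group G] [Finite G]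
    (M : Ideal (integralClosure ℤ ℂ)) (hM : M.IsMaximal) (hpM : (p : integralClosure ℤ ℂ) ∈ M)
    (h : ∀ χ : G → ℂ, IsIrrChar χ → ∀ D : Subgroup G, IsDefectGroup p M χ D → D ≠ ⊥ →
      KS p M χ = 0) :
    (∑ᶠ (σ : Finset (Subgroup G))
        (_ : σ.Nonempty ∧ IsChain (· ≤ ·) (σ : Set (Subgroup G)) ∧
              ∀ P ∈ σ, IsPGroup p P ∧ P ≠ ⊥),
        (-1 : ℤ) ^ (σ.card - 1) *
          (Nat.card {x : G × G // x.1 * x.2 = x.2 * x.1 ∧
              ∀ P ∈ σ, x.1 ∈ Subgroup.normalizer (P : Set G) ∧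
                x.2 ∈ Subgroup.normalizer (P : Set G)} : ℤ))
      = (Nat.card G : ℤ) *
        ((Nat.card (ConjClasses G) : ℤ) -
          (Nat.card {f : G → ℂ // ∃ n : ℕ, ∃ ρ : G →* Matrix (Fin n) (Fin n) ℂ,
              0 < n ∧ p ^ ((Nat.card G).factorization p) ∣ n ∧
              (∀ W : Submodule ℂ (Fin n → ℂ),
                  (∀ g : G, ∀ v ∈ W, (ρ g).mulVec v ∈ W) → W = ⊥ ∨ W = ⊤) ∧
              f = fun g => (ρ g).trace} : ℤ)) := by
  classical
  have : Fact p.Prime := ⟨hp⟩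
  let _ : Fintype G := Fintype.ofFinite G
  let _ : Fintype (Finset (Subgroup G)) := Fintype.ofFinite _
  obtain ⟨I⟩ := exists_irrData G
  obtain ⟨V, hV⟩ := exists_val_of_maximal M hM
  have hB : CoefB p M V := ⟨hp, hM, hpM, hV⟩
  have h1 := nn_one_of_blocks hB I fun i hi => by
    have hχ := (isIrrChar_iff I).2 ⟨i, rfl⟩
    obtain ⟨D, hD⟩ := exists_defectGroup (M := M) hp hM hχ
    refine h _ hχ D hD ?_
    rintro rfl
    obtain ⟨c, hc, he⟩ := exists_rt hB I i hD fun x hx y _ => by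
      rw [Subgroup.mem_bot.1 hx, one_mul, mul_one]
    exact hi (wdz_of_max hB.nonunit he hc.max)
  have h2 := I.card_irr (fun n _ => p ^ (Nat.card G).factorization p ∣ n)
  have h3 : ∀ σ : Finset (Subgroup G), Nat.card {x : G × G // x.1 * x.2 = x.2 * x.1 ∧
      ∀ P ∈ σ, x.1 ∈ Subgroup.normalizer (P : Set G) ∧ x.2 ∈ Subgroup.normalizer (P : Set G)} =
      Nat.card {x : G × G // x.1 * x.2 = x.2 * x.1 ∧ x.1 ∈ stab σ ∧ x.2 ∈ stab σ} := by
    intro σ
    refine Nat.card_congr (Equiv.subtypeEquivRight (fun x => and_congr_right (fun _ => ?_)))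
    simp only [mem_stab]
    exact ⟨fun h => ⟨fun P hP => (h P hP).1, fun P hP => (h P hP).2⟩,
      fun h P hP => ⟨h.1 P hP, h.2 P hP⟩⟩
  have h4 : Nat.card {x : G × G // x.1 * x.2 = x.2 * x.1 ∧ x.1 ∈ stab (∅ : Finset (Subgroup G)) ∧
      x.2 ∈ stab (∅ : Finset (Subgroup G))} = Nat.card (ConjClasses G) * Nat.card G := by
    rw [← card_comm_eq_card_conjClasses_mul_card]
    refine Nat.card_congr (Equiv.subtypeEquivRight (fun x => ?_))
    simp [stab_empty, commute_iff_eq]
  simp only [h3]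
  rw [finsum_chains, ← nn_one_eq, h4]
  unfold MatIrr at h2
  rw [h2, h1]
  push_cast
  ring

omit [Fact p.Prime] in
lemma gsum_om1 {D S : Subgroup G} (h : D ≤ S) : om1 p D ≤ om1 p S :=
  Nat.card_le_card_of_injective (fun x => ⟨Subgroup.inclusion h x.1, by rw [← map_pow, x.2, map_one]⟩)
    fun _ _ e => Subtype.ext (Subgroup.inclusion_injective h (congrArg Subtype.val e))

/-- Defect groups inherit commutativity and the bound for the rank from a Sylow subgroup. -/
lemma defect_of_sylow {p : ℕ} (hp : p.Prime) {G : Type} [Group G] [Finite G] (P : Sylow p G)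
    (hc : ∀ x ∈ (P : Subgroup G), ∀ y ∈ (P : Subgroup G), x * y = y * x) {n : ℕ}
    (hn : Group.rank (P : Subgroup G) ≤ n) {M : Ideal (integralClosure ℤ ℂ)} {χ : G → ℂ}
    {D : Subgroup G} (hD : IsDefectGroup p M χ D) :
    (∀ x ∈ D, ∀ y ∈ D, x * y = y * x) ∧ om1 p D ≤ p ^ n := by
  have : Fact p.Prime := ⟨hp⟩
  let _ : Fintype G := Fintype.ofFinite G
  obtain ⟨⟨x, -, S, rfl⟩, -⟩ := hD
  obtain ⟨Q, hQ⟩ := (S.isPGroup'.map (Subgroup.centralizer {x}).subtype).exists_le_sylow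
  have e := Sylow.equiv Q P
  refine ⟨fun a ha b hb => ?_, (gsum_om1 hQ).trans ((om1_congr e).trans_le
    (om1_le_of_rank hp.pos _ hc hn))⟩
  have h1 : e (⟨a, hQ ha⟩ * ⟨b, hQ hb⟩) = e (⟨b, hQ hb⟩ * ⟨a, hQ ha⟩) := by
    rw [map_mul, map_mul]
    exact Subtype.ext (hc _ (e _).2 _ (e _).2)
  exact congrArg Subtype.val (e.injective h1)

end Pool.Agent.Lib.MP_b6945b_al.Kx
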