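import Pool.Agent.Lib.MP_b6945b_al.Kx.ABasic

set_option autoImplicit false

/-!
Atoms up to commensurability.
-/

namespace Pool.Agent.Lib.MP_b6945b_al.Bi

open Finset Filter Topology Pointwise
open scoped RealInnerProductSpace Matrix

namespace HSys

variable {E K X H : Type} [Group E] [Fintype E] [AddCommGroup K] [DistribMulAction E K]
  [NormedAddCommGroup H] [InnerProductSpace ℝ H] {F : K → X → X → ℤ} {S : HSys E H F}

lemma At.le_stab {L : AddSubgroup K} {x : H} (hx : S.At L x) : L ≤ S.stab x := hx.2.1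

lemma At.cov {L : AddSubgroup K} {x : H} (hx : S.At L x) (h0 : x ≠ 0) : Cov (S.stab x) L := by
  obtain ⟨T, hT⟩ := hx.2.2 x hx.1
  exact ⟨T, fun l hl => hT l (by rw [S.mem_stab.1 hl]; exact inner_self_ne_zero.2 h0)⟩

lemma At.of_cov {L L' : AddSubgroup K} {x : H} (hx : S.At L x) (h1 : L' ≤ S.stab x)
    (h2 : Cov L L') : S.At L' x := by
  classical
  obtain ⟨T', hT'⟩ := h2
  refine ⟨hx.1, h1, fun y hy => ?_⟩
  obtain ⟨T, hT⟩ := hx.2.2 y hy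
  refine ⟨T + T', fun l hl => ?_⟩
  obtain ⟨t, a1, a2⟩ := hT l hl
  obtain ⟨t', a3, a4⟩ := hT' _ a2
  exact ⟨t + t', add_mem_add a1 a3, by rwa [← sub_sub]⟩

lemma KAt.lat {Λ : AddSubgroup K} {x : H} (hx : S.KAt Λ x) : S.Lat x := hx.choose_spec.1.1

lemma KAt.zero (S : HSys E H F) (Λ : AddSubgroup K) : S.KAt Λ 0 :=
  ⟨Λ, At.zero S Λ, le_rfl, le_hull Λ⟩

lemma KAt.at_stab {Λ : AddSubgroup K} {x : H} (hx : S.KAt Λ x) : S.At (S.stab x) x := by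
  obtain ⟨L, h1, -, -⟩ := hx
  exact h1.of_cov le_rfl (Cov.of_le h1.le_stab)

lemma KAt.le_hull {Λ : AddSubgroup K} {x : H} (hx : S.KAt Λ x) : Λ ≤ hull (S.stab x) := by
  obtain ⟨L, h1, -, h3⟩ := hx
  exact h3.trans (hull_mono h1.le_stab)

lemma KAt.stab_le {Λ : AddSubgroup K} {x : H} (hx : S.KAt Λ x) (h0 : x ≠ 0) :
    S.stab x ≤ hull Λ := by
  obtain ⟨L, h1, h2, -⟩ := hx
  exact (h1.cov h0).le_hull.trans (hull_mono h2)

lemma KAt.hull_stab {Λ : AddSubgroup K} {x : H} (hx : S.KAt Λ x) (hΛ : ZPure Λ) (h0 : x ≠ 0) :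
    hull (S.stab x) = Λ :=
  le_antisymm ((hull_le_of_le (hx.stab_le h0)).trans hΛ.hull_le) hx.le_hull

lemma KAt.supp {Λ : AddSubgroup K} {x y : H} (hx : S.KAt Λ x) (hy : S.Lat y) :
    ∃ T : Finset K, ∀ l, ⟪S.U l x, y⟫ ≠ 0 → ∃ t ∈ T, l - t ∈ Λ := by
  obtain ⟨L, h1, h2, -⟩ := hx
  obtain ⟨T, hT⟩ := h1.2.2 y hy
  exact ⟨T, fun l hl => (hT l hl).imp fun t ht => ⟨ht.1, h2 ht.2⟩⟩

lemma KAt.add (hf : S.KFin) {Λ : AddSubgroup K} {x y : H} (hx : S.KAt Λ x) (hy : S.KAt Λ y) :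
    S.KAt Λ (x + y) := by
  by_cases hx0 : x = 0
  · rwa [hx0, zero_add]
  by_cases hy0 : y = 0
  · rwa [hy0, add_zero]
  have a1 := hf x y hx.lat hy.lat ((hx.stab_le hx0).trans (hull_le_of_le hy.le_hull))
  have a2 := hf y x hy.lat hx.lat ((hy.stab_le hy0).trans (hull_le_of_le hx.le_hull))
  obtain ⟨L, h1, h2, h3⟩ := hx
  obtain ⟨L', h1', h2', h3'⟩ := hy
  have b1 : Cov L (L ⊓ L') := ((a1.trans (h1'.cov hy0)).mono h1.le_stab le_rfl).inf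
  have b2 : Cov L' (L ⊓ L') := by
    rw [inf_comm]
    exact ((a2.trans (h1.cov hx0)).mono h1'.le_stab le_rfl).inf
  exact ⟨L ⊓ L', (h1.of_cov (inf_le_left.trans h1.le_stab) b1).add
    (h1'.of_cov (inf_le_right.trans h1'.le_stab) b2), inf_le_left.trans h2,
    (le_inf h3 h3').trans (hull_inf L L')⟩

lemma KAt.neg {Λ : AddSubgroup K} {x : H} (hx : S.KAt Λ x) : S.KAt Λ (-x) :=
  hx.imp fun _ h => ⟨h.1.neg, h.2⟩

lemma KAt.U {Λ : AddSubgroup K} {x : H} (hx : S.KAt Λ x) (l : K) : S.KAt Λ (S.U l x) :=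
  hx.imp fun _ h => ⟨h.1.U l, h.2⟩

lemma KAt.R {Λ : AddSubgroup K} {x : H} (hx : S.KAt Λ x) (g : E) : S.KAt (g • Λ) (S.R g x) := by
  obtain ⟨L, h1, h2, h3⟩ := hx
  refine ⟨g • L, h1.R g, fun l hl => mem_smul_sub.2 (h2 (mem_smul_sub.1 hl)), fun l hl => ?_⟩
  rw [hull_smul]
  exact mem_smul_sub.2 (h3 (mem_smul_sub.1 hl))

lemma KAt.eventually_zero {Λ : AddSubgroup K} {x y : H} (hx : S.KAt Λ x) (hL : ZPure Λ)
    (hy : S.Lat y) {q : K} (hq : q ∉ Λ) : ∀ᶠ n : ℕ in atTop, ⟪S.U (n • q) x, y⟫ = 0 := by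
  obtain ⟨T, hT⟩ := hx.supp hy
  refine (hL.eventually_notMem hq T).mono fun n hn => by_contra fun h => ?_
  obtain ⟨t, ht, h2⟩ := hT _ h
  exact hn t ht h2

lemma KAt.orth_fixed {Λ : AddSubgroup K} {x y : H} (hx : S.KAt Λ x) (hL : ZPure Λ) (hy : S.Lat y)
    {q : K} (hq : q ∉ Λ) (hqy : q ∈ hull (S.stab y)) : ⟪x, y⟫ = 0 := by
  obtain ⟨m, hm, h1⟩ := hqy
  obtain ⟨n, hn⟩ := (hx.eventually_zero hL hy fun e => hq (hL m hm q e)).exists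
  rwa [S.inner_U, S.mem_stab.1 ((S.stab y).neg_mem ((S.stab y).nsmul_mem h1 n))] at hn

lemma KAt.orth {Λ Λ' : AddSubgroup K} {x y : H} (hx : S.KAt Λ x) (hy : S.KAt Λ' y)
    (hL : ZPure Λ) (hL' : ZPure Λ') (hne : Λ ≠ Λ') : ⟪x, y⟫ = 0 := by
  by_cases h : Λ' ≤ Λ
  · obtain ⟨q, h1, h2⟩ := SetLike.not_le_iff_exists.1 fun h' => hne (le_antisymm h' h)
    rw [real_inner_comm]
    exact hy.orth_fixed hL' hx.lat h2 (hx.le_hull h1)
  · obtain ⟨q, h1, h2⟩ := SetLike.not_le_iff_exists.1 h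
    exact hx.orth_fixed hL hy.lat h2 (hy.le_hull h1)

variable [CompleteSpace H]

/-- The projection to the vectors fixed by a suitable subgroup of finite index preserves the
lattice. -/
theorem kx_fix (hf : S.KFin) {a x : H} (ha : S.Lat a) (hx : S.Lat x) :
    ∃ (M : AddSubgroup K) (x₁ : H), M ≤ S.stab a ∧ Cov (S.stab a) M ∧ S.Lat x₁ ∧
      (∀ l ∈ M, S.U l x₁ = x₁) ∧ ∀ y, (∀ l ∈ M, S.U l y = y) → ⟪x₁, y⟫ = ⟪x, y⟫ := by
  obtain ⟨x₁, ⟨u, hu, h1⟩, hm⟩ := exists_min_norm (S := S)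
    {w | ∃ u : Ultrafilter K, (S.stab a : Set K) ∈ u ∧ S.WLim u x w}
    (fun w ⟨u, _, h⟩ => hx.lim u h) ⟨x, pure 0, (S.stab a).zero_mem, S.wlim_pure x⟩
  have h2 := hx.lim u h1
  have h3 : S.stab a ≤ hull (S.stab x₁) := fun q hq => by
    obtain ⟨w, hw⟩ := S.exists_wlim ((hyperfilter ℕ).map (· • q)) x₁
    obtain ⟨u', h3, h4⟩ := h1.trans hw
    have h5 : {n : ℕ | S.U (n • q) x₁ = w} ∈ hyperfilter ℕ := hw.eventually_eq h2
      (hm w ⟨u', h4 _ hu (univ_mem' (f := hyperfilter ℕ) fun n => (S.stab a).nsmul_mem hq n), h3⟩)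
    obtain ⟨n, hn, n', hn', h6⟩ :=
      Set.Infinite.nontrivial fun hf => Set.Finite.notMem_hyperfilter hf h5
    refine (zpure_hull _).of_zsmul (n := (n : ℤ) - n') (by omega) (le_hull _ ?_)
    rw [sub_smul, natCast_zsmul, natCast_zsmul]
    exact aatom_sub (hn.trans hn'.symm)
  have h4 := (hf a x₁ ha h2 h3).inf
  obtain ⟨T, hT⟩ := h4
  have h5 : ∀ᶠ l in u, ∃ t ∈ (T : Set K), l - t ∈ S.stab a ⊓ S.stab x₁ :=
    mem_of_superset hu fun l hl => hT l hl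
  obtain ⟨t, -, ht⟩ := (Ultrafilter.eventually_exists_mem_iff T.finite_toSet).1 h5
  refine ⟨S.stab a ⊓ S.stab x₁, S.U (-t) x₁, inf_le_left, ⟨T, hT⟩, h2.U _, fun l hl => ?_,
    fun y hy => ?_⟩
  · rw [S.U_comm, S.mem_stab.1 hl.2]
  · rw [S.inner_U, neg_neg]
    refine aatom_lim h1 (ht.mono fun l hl => ?_)
    rw [S.inner_U_U, S.inner_U, hy _ (neg_mem hl)]

/-- A lattice vector which is not an atom splits. -/
theorem kx_split (hf : S.KFin) {x : H} (hx : S.Lat x) (h : ¬ S.At (S.stab x) x) :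
    ∃ x₁, S.Lat x₁ ∧ x₁ ≠ 0 ∧ x₁ ≠ x ∧ ⟪x - x₁, x₁⟫ = 0 := by
  obtain ⟨u, w, hu, h0, -, h1⟩ := exists_escape hx h
  obtain ⟨u', a, hu', ha0, ha⟩ := exists_atom (hx.lim u hu) h0
  obtain ⟨M, x₁, m1, m2, h2, h3, h4⟩ := kx_fix hf ha.1 hx
  have ha' := ha.of_cov m1 m2
  refine ⟨x₁, h2, ?_, ?_, by rw [inner_sub_left, h4 x₁ h3, sub_self]⟩
  · rintro rfl
    obtain ⟨u'', h5, -⟩ := hu.trans hu'
    refine ha0 (inner_self_eq_zero.1 (aatom_lim h5 (Eventually.of_forall fun l => ?_)))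
    rw [S.inner_U, ← h4 _ (ha'.U (-l)).2.1, inner_zero_left]
  · rintro rfl
    obtain ⟨T, hT⟩ := ha'.2.2 x₁ hx
    refine ha0 (inner_self_eq_zero.1 (aatom_lim hu' (Eventually.of_forall fun m => ?_)))
    rw [S.inner_U]
    refine aatom_lim hu (((eventually_all_finset T).2 fun t _ => h1 (-m - t)).mono
      fun l hl => by_contra fun h5 => ?_)
    rw [real_inner_comm, S.inner_U_U] at h5
    obtain ⟨t, ht, h6⟩ := hT _ h5
    refine hl t ht ?_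
    rw [show l - (-m - t) = -(-m - l - t) by abel]
    exact (S.stab x₁).neg_mem (h3 _ h6)

end HSys

end Pool.Agent.Lib.MP_b6945b_al.Bi
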