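import Pool.Agent.Lib.MP_b6945b_al.Kx.ADefs

set_option autoImplicit false

/-!
Hulls, coverings by finitely many cosets.
-/

namespace Pool.Agent.Lib.MP_b6945b_al.Bi

open Finset Filter Topology Pointwise
open scoped RealInnerProductSpace Matrix

variable {K : Type} [AddCommGroup K] {L L' L'' : AddSubgroup K}

lemma le_hull (L : AddSubgroup K) : L ≤ hull L := fun x hx =>
  ⟨1, one_ne_zero, by rwa [one_smul]⟩

lemma hull_mono (h : L ≤ L') : hull L ≤ hull L' := fun _ ⟨n, hn, hx⟩ => ⟨n, hn, h hx⟩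

lemma zpure_hull (L : AddSubgroup K) : ZPure (hull L) := fun n hn x ⟨m, hm, hx⟩ =>
  ⟨m * n, mul_ne_zero hm hn, by rwa [mul_smul]⟩

lemma ZPure.hull_le (h : ZPure L) : hull L ≤ L := fun x ⟨n, hn, hx⟩ => h n hn x hx

lemma ZPure.hull_eq (h : ZPure L) : hull L = L := le_antisymm h.hull_le (le_hull L)

lemma hull_le_of_le (h : L ≤ hull L') : hull L ≤ hull L' :=
  (hull_mono h).trans (zpure_hull L').hull_le

lemma hull_inf (L L' : AddSubgroup K) : hull L ⊓ hull L' ≤ hull (L ⊓ L') :=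
  fun x ⟨⟨m, hm, h⟩, ⟨n, hn, h'⟩⟩ => ⟨m * n, mul_ne_zero hm hn, by
    rw [mul_comm, mul_smul]; exact L.nsmul_mem h n, by rw [mul_smul]; exact L'.nsmul_mem h' m⟩

lemma hull_smul {E : Type} [Group E] [DistribMulAction E K] (g : E) (L : AddSubgroup K) :
    hull (g • L) = g • hull L := by
  ext x
  simp only [mem_hull, mem_smul_sub, smul_comm g⁻¹]

lemma ZPure.smul {E : Type} [Group E] [DistribMulAction E K] (h : ZPure L) (g : E) :
    ZPure (g • L) := fun n hn x hx => by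
  rw [mem_smul_sub] at hx ⊢
  exact h n hn _ (by rwa [smul_comm])

lemma ZPure.of_zsmul (h : ZPure L) {n : ℤ} (hn : n ≠ 0) {x : K} (hx : n • x ∈ L) : x ∈ L := by
  refine h n.natAbs (Int.natAbs_ne_zero.2 hn) x ?_
  rcases Int.natAbs_eq n with e | e
  · rwa [← natCast_zsmul, ← e]
  · rw [← natCast_zsmul, ← neg_neg (n.natAbs : ℤ), ← e, neg_smul]
    exact L.neg_mem hx

/-- Multiples of an element outside a pure subgroup meet each coset at most once. -/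
lemma ZPure.eventually_notMem (h : ZPure L) {q : K} (hq : q ∉ L) (T : Finset K) :
    ∀ᶠ n : ℕ in atTop, ∀ t ∈ T, n • q - t ∉ L := by
  rw [eventually_all_finset]
  intro t _
  by_cases e : ∃ n : ℕ, n • q - t ∈ L
  · obtain ⟨n, hn⟩ := e
    refine (eventually_gt_atTop n).mono fun k hk hk' => hq ?_
    refine h.of_zsmul (n := (k : ℤ) - n) (by omega) ?_
    have := L.sub_mem hk' hn
    rwa [sub_sub_sub_cancel_right, ← natCast_zsmul, ← natCast_zsmul, ← sub_smul] at this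
  · exact Eventually.of_forall fun n hn => e ⟨n, hn⟩

lemma Cov.of_le (h : L ≤ L') : Cov L L' :=
  ⟨{0}, fun x hx => ⟨0, mem_singleton_self 0, by rw [sub_zero]; exact h hx⟩⟩

lemma Cov.mono {L₁ L₂ : AddSubgroup K} (h : Cov L L') (h1 : L₁ ≤ L) (h2 : L' ≤ L₂) :
    Cov L₁ L₂ := by
  obtain ⟨T, hT⟩ := h
  exact ⟨T, fun x hx => (hT x (h1 hx)).imp fun t ht => ⟨ht.1, h2 ht.2⟩⟩

lemma Cov.trans (h : Cov L L') (h' : Cov L' L'') : Cov L L'' := by
  classical
  obtain ⟨T, hT⟩ := h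
  obtain ⟨T', hT'⟩ := h'
  refine ⟨T + T', fun x hx => ?_⟩
  obtain ⟨t, h1, h2⟩ := hT x hx
  obtain ⟨t', h3, h4⟩ := hT' _ h2
  exact ⟨t + t', add_mem_add h1 h3, by rwa [← sub_sub]⟩

lemma Cov.inf (h : Cov L L') : Cov L (L ⊓ L') := by
  classical
  obtain ⟨T, hT⟩ := h
  have h1 : ∀ t : K, ∃ s : K, (∃ x ∈ L, x - t ∈ L') → s ∈ L ∧ s - t ∈ L' := fun t => by
    by_cases e : ∃ x ∈ L, x - t ∈ L'
    · exact ⟨e.choose, fun _ => e.choose_spec⟩
    · exact ⟨0, fun e' => absurd e' e⟩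
  choose s hs using h1
  refine ⟨T.image s, fun x hx => ?_⟩
  obtain ⟨t, h1, h2⟩ := hT x hx
  obtain ⟨h3, h4⟩ := hs t ⟨x, hx, h2⟩
  refine ⟨s t, mem_image_of_mem s h1, L.sub_mem hx h3, ?_⟩
  simpa using L'.sub_mem h2 h4

lemma Cov.le_hull (h : Cov L L') : L ≤ hull L' := by
  obtain ⟨T, hT⟩ := h
  intro q hq
  by_contra e
  obtain ⟨n, hn⟩ := ((zpure_hull L').eventually_notMem e T).exists
  obtain ⟨t, h1, h2⟩ := hT _ (L.nsmul_mem hq n)
  exact hn t h1 (Bi.le_hull L' h2)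

lemma Quo.cov (h : Quo L) {m : ℕ} (hm : m ≠ 0) (hx : ∀ x ∈ L, m • x ∈ L') : Cov L L' := by
  obtain ⟨T, hT⟩ := h m hm
  refine ⟨T, fun x h1 => ?_⟩
  obtain ⟨t, h2, y, h3, rfl⟩ := hT x h1
  exact ⟨t, h2, by rw [add_sub_cancel_left]; exact hx y h3⟩

lemma Tor.fibre (ht : Tor K) {m : ℕ} (hm : m ≠ 0) (t : K) : {x : K | m • x = t}.Finite := by
  rcases Set.eq_empty_or_nonempty {x : K | m • x = t} with e | ⟨a, ha⟩
  · rw [e]
    exact Set.finite_empty
  · refine ((ht m hm).image (· + a)).subset fun x hx => ⟨x - a, ?_, sub_add_cancel x a⟩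
    have h1 : m • x = t := hx
    have h2 : m • a = t := ha
    show m • (x - a) = 0
    rw [smul_sub, h1, h2, sub_self]

/-- The elements with `m • x ∈ L` are covered by finitely many cosets of `L`. -/
lemma Quo.cov_div (ht : Tor K) (h : Quo L) {m : ℕ} (hm : m ≠ 0) :
    ∃ Z : Finset K, ∀ x, m • x ∈ L → ∃ z ∈ Z, x - z ∈ L := by
  obtain ⟨T, hT⟩ := h m hm
  have h1 : (⋃ t ∈ (T : Set K), {x : K | m • x = t}).Finite :=
    T.finite_toSet.biUnion fun t _ => ht.fibre hm t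
  refine ⟨h1.toFinset, fun x hx => ?_⟩
  obtain ⟨t, h2, y, h3, h4⟩ := hT _ hx
  refine ⟨x - y, h1.mem_toFinset.2 (Set.mem_biUnion h2 ?_), by rwa [sub_sub_cancel]⟩
  show m • (x - y) = t
  rw [smul_sub, h4, add_sub_cancel_right]

lemma exists_count (ht : Tor K) (h : Quo L) : ∃ Z : Set K, Z.Countable ∧
    (∀ x ∈ hull L, ∃ z ∈ Z, x - z ∈ L) ∧
    ∀ m : ℕ, m ≠ 0 → ∀ x ∈ L, ∃ z ∈ Z, ∃ y ∈ L, x = z + m • y := by
  choose T hT using fun m : ℕ => h (m + 1) m.succ_ne_zero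
  choose Z hZ using fun m : ℕ => h.cov_div ht (m := m + 1) m.succ_ne_zero
  refine ⟨⋃ m, (T m : Set K) ∪ Z m, Set.countable_iUnion fun m =>
    (T m).countable_toSet.union (Z m).countable_toSet, ?_, fun m hm x hx => ?_⟩
  · rintro x ⟨n, hn, hx⟩
    obtain ⟨m, rfl⟩ := Nat.exists_eq_succ_of_ne_zero hn
    obtain ⟨z, h1, h2⟩ := hZ m x hx
    exact ⟨z, Set.mem_iUnion.2 ⟨m, Or.inr h1⟩, h2⟩
  · obtain ⟨m, rfl⟩ := Nat.exists_eq_succ_of_ne_zero hm
    obtain ⟨t, h1, h2⟩ := hT m x hx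
    exact ⟨t, Set.mem_iUnion.2 ⟨m, Or.inl h1⟩, h2⟩

/-- Only countably many internal subgroups have a given hull.  Fix one, `L₀`.  Each other `L`
has `m L₀ ≤ L` and `m L ≤ L₀` for some `m ≠ 0`; the set `W = {x | m • x ∈ L₀}` is covered by the
cosets of `m L₀` of a finite set `Z`, and `L` is determined by `Z ∩ L`. -/
lemma countable_class (ht : Tor K) {Int : AddSubgroup K → Prop} (hq : ∀ L, Int L → Quo L)
    (hs : ∀ L L', Int L → Int L' → L ≤ hull L' → ∃ m : ℕ, m ≠ 0 ∧ ∀ x ∈ L, m • x ∈ L')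
    (Λ : AddSubgroup K) : {L | Int L ∧ hull L = Λ}.Countable := by
  classical
  rcases Set.eq_empty_or_nonempty {L | Int L ∧ hull L = Λ} with e | ⟨L₀, h0, h0'⟩
  · rw [e]
    exact Set.countable_empty
  have h1 : ∀ m : ℕ, {L : AddSubgroup K | (∀ x ∈ L₀, (m + 1) • x ∈ L) ∧
      ∀ x ∈ L, (m + 1) • x ∈ L₀}.Finite := fun m => by
    obtain ⟨Z, hZ⟩ := (hq L₀ h0).cov_div ht (m := m + 1) m.succ_ne_zero
    obtain ⟨T, hT⟩ := hq L₀ h0 (m + 1) m.succ_ne_zero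
    have h2 : ∀ L L' : AddSubgroup K, (∀ x ∈ L₀, (m + 1) • x ∈ L) → (∀ x ∈ L, (m + 1) • x ∈ L₀) →
        (∀ x ∈ L₀, (m + 1) • x ∈ L') →
        (Z + T).filter (· ∈ L) = (Z + T).filter (· ∈ L') → L ≤ L' := by
      intro L L' a1 a2 a3 a4 x hx
      obtain ⟨z, b1, b2⟩ := hZ x (a2 x hx)
      obtain ⟨t, b3, y, b4, b5⟩ := hT _ b2
      have b6 : x = z + t + (m + 1) • y := by rw [add_assoc, ← b5, add_sub_cancel]
      have b7 : z + t ∈ (Z + T).filter (· ∈ L) := mem_filter.2 ⟨add_mem_add b1 b3, by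
        have := L.sub_mem hx (a1 y b4)
        rwa [b6, add_sub_cancel_right] at this⟩
      rw [a4] at b7
      rw [b6]
      exact L'.add_mem (mem_filter.1 b7).2 (a3 y b4)
    refine Set.Finite.of_finite_image (f := fun L => (Z + T).filter (· ∈ L))
      ((Z + T).powerset.finite_toSet.subset ?_) fun L hL L' hL' e =>
        le_antisymm (h2 L L' hL.1 hL.2 hL'.1 e) (h2 L' L hL'.1 hL'.2 hL.1 e.symm)
    rintro _ ⟨L, -, rfl⟩
    exact mem_coe.2 (mem_powerset.2 (filter_subset _ _))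
  refine (Set.countable_iUnion fun m => (h1 m).countable).mono fun L hL => ?_
  obtain ⟨a, ha, h2⟩ := hs L₀ L h0 hL.1 (by rw [hL.2, ← h0']; exact le_hull L₀)
  obtain ⟨b, hb, h3⟩ := hs L L₀ hL.1 h0 (by rw [h0', ← hL.2]; exact le_hull L)
  obtain ⟨m, hm⟩ := Nat.exists_eq_succ_of_ne_zero (mul_ne_zero ha hb)
  refine Set.mem_iUnion.2 ⟨m, fun x hx => ?_, fun x hx => ?_⟩
  · rw [← Nat.succ_eq_add_one, ← hm, mul_comm, mul_smul]
    exact L.nsmul_mem (h2 x hx) b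
  · rw [← Nat.succ_eq_add_one, ← hm, mul_smul]
    exact L₀.nsmul_mem (h3 x hx) a

/-- Finitely many proper pure subgroups do not cover a group. -/
lemma exists_avoid {ι : Type} (Y : AddSubgroup K) (s : Finset ι) (f : ι → K →+ K)
    (Λ : ι → AddSubgroup K) (hp : ∀ i ∈ s, ZPure (Λ i)) (h : ∀ i ∈ s, ∃ y ∈ Y, f i y ∉ Λ i) :
    ∃ y ∈ Y, ∀ i ∈ s, f i y ∉ Λ i := by
  classical
  induction s using Finset.induction_on with
  | empty => exact ⟨0, Y.zero_mem, fun i hi => absurd hi (notMem_empty i)⟩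
  | insert j s _ ih =>
    obtain ⟨y, hy, h1⟩ := ih (fun i hi => hp i (mem_insert_of_mem hi))
      fun i hi => h i (mem_insert_of_mem hi)
    by_cases e : f j y ∈ Λ j
    · obtain ⟨q, hq, h2⟩ := h j (mem_insert_self j s)
      obtain ⟨n, hn⟩ := ((eventually_all_finset s).2 fun i hi =>
        (hp i (mem_insert_of_mem hi)).eventually_notMem (h1 i hi) {-f i q}).exists
      refine ⟨n • y + q, Y.add_mem (Y.nsmul_mem hy n) hq, fun i hi => ?_⟩
      rw [map_add, map_nsmul]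
      rcases mem_insert.1 hi with rfl | hi
      · exact fun e' => h2 (((Λ i).add_mem_cancel_left ((Λ i).nsmul_mem e n)).1 e')
      · have := hn i hi _ (mem_singleton_self _)
        rwa [sub_neg_eq_add] at this
    · exact ⟨y, hy, fun i hi => (mem_insert.1 hi).elim (fun e' => e' ▸ e) (h1 i)⟩

end Pool.Agent.Lib.MP_b6945b_al.Bi
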