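import Pool.Agent.Lib.MP_b6945b_al.Kx.APos
import Pool.Agent.Lib.MP_b6945b_al.Kx.AVs

set_option autoImplicit false

/-!
Nonstandard vectors live in the standard proper strata.
-/

namespace Pool.Agent.Lib.MP_b6945b_al.Bi

open Finset Filter Topology Pointwise
open scoped RealInnerProductSpace Matrix

namespace HSys

variable {E K X H : Type} [Group E] [Fintype E] [AddCommGroup K] [DistribMulAction E K]
  [NormedAddCommGroup H] [InnerProductSpace ℝ H] {F : K → X → X → ℤ} {S : HSys E H F}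
  {c : X → AddSubgroup K → H} {T : X → Finset (AddSubgroup K)} {X₀ : Set X} {K₀ : AddSubgroup K}

lemma kclaim_orth (h : S.KStrat c T) {L L' : AddSubgroup K} (hne : L ≠ L') {x x' : H}
    (hx : x ∈ S.Vs c X₀ K₀ L) (hx' : x' ∈ S.Vs c X₀ K₀ L') : ⟪x, x'⟫ = 0 := by
  have := kVs_orth h hne hx hx' 0
  rwa [S.U_zero] at this

/-- Suppose `c₁ = c ψ L₁ ≠ 0`.  Take `l₀ p₀ A` from `exists_kpoint`, `y` from `exists_kyy`,
`z = ∑ L ∈ T ψ, y L l₀ ≠ 0` (orthogonal sum, `y L l = 0` off `T ψ` by `Pos.mem`),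
`R g z = ∑ L ∈ T ψ, y (g • L) (g • l₀)`, `= z` for `g ∈ A` (reindex, `Strat.smul_mem`).
(1) `Z = U l₀ z`, `w = v ψ - c₁`, `⟪w,w⟫ ≤ e - 1`.  `R g Z = U (g • l₀) (R g z)`.
For `g ∉ A`, `⟪R g Z, Z⟫ = ∑ ⟪U (g • l₀ - l₀) (y (g • L') _), y L l₀⟫ = 0` (`kVs_orth`,
`kVs_orth_shift`).  `⟪v ψ, R g Z⟫ = ⟪v ψ, Z⟫ = ⟪U (-l₀) (v ψ), z⟫ = ⟪z, z⟫`, and
`⟪c₁, U l (y L l')⟫ = 0` always (`kVs_orth_c` if `L ≠ L₁`; if `L = L₁` then `y L l' = 0`, because
`Pos ψ L₁ l'` is false: `Pos.notMem` for `⊤`, `Pos.mem` otherwise).  `norm_bound` gives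
`e ⟪z,z⟫ ≤ |A| (e - 1)`, so `|A| ⟪z,z⟫ < |A|²`.
(2) `x n = U (n • p₀) z`.  For `ψ' ∉ X₀`, `⟪x n, v ψ'⟫ = 0` (`Vs_U`, `kVs_orth_v`).  For
`ψ' ∈ X₀`, `⟪x n, v ψ'⟫ = ∑ L' ∈ T ψ', ⟪z, U (-(n • p₀)) (c ψ' L')⟫` and each term equals
`⟪U (-l₀) (v ψ), U (-(n • p₀)) (c ψ' L')⟫` (both sides see only `y L' l₀`, which is `0` if
`L' ∉ T ψ`), so the sum is `F (n • p₀ - l₀) ψ ψ' ∈ |A| ℤ` by `Ker.dvd`.
(3) `⟪∑ g, R g (x n), x n⟫ = ∑ g, ⟪U (n • (g • p₀ - p₀)) (R g z), z⟫ → |A| ⟪z,z⟫` (`kVs_orth`,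
`kVs_mix`).  For large `n` it is `< |A|²`, hence `0` by `sum_R_eq_zero`; so `⟪z,z⟫ = 0`. -/
theorem kclaimA [CompleteSpace H] (hk : Ker E F)
    (hdiv : ∀ (A : Subgroup E) (x : K), ∃ y, Nat.card A • y = x)
    (h : S.KStrat c T) (hc : S.KClosed c T X₀ K₀) {ψ : X} (hψ : ψ ∉ X₀) {L₁ : AddSubgroup K}
    (hL : L₁ = ⊤ ∨ ∀ χ ∈ X₀, L₁ ∉ T χ) : c ψ L₁ = 0 := by
  classical
  by_contra hc1
  obtain ⟨l₀, p₀, A, hl, hp₀, hK, ⟨L₀, hL₀⟩, hg⟩ := exists_kpoint hk hdiv h hc hψ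
  obtain ⟨y, y1, y2, y3, y4⟩ := exists_kyy h hc ψ
  obtain ⟨z, hz⟩ : ∃ z, z = ∑ L ∈ T ψ, y L l₀ := ⟨_, rfl⟩
  have z1 : ∀ L, ∀ x ∈ S.Vs c X₀ K₀ L, ⟪z, x⟫ = ⟪S.U (-l₀) (S.v ψ), x⟫ := by
    intro L x hx
    rw [hz, sum_inner, sum_eq_single L (fun L' _ hne => kclaim_orth h hne (y1 _ _) hx), y2 L _ x hx]
    intro hn
    rw [not_not.1 fun h0 => hn (((y4 _ _).1 h0).kmem h).1, inner_zero_left]
  have z2 : ⟪z, S.U (-l₀) (S.v ψ)⟫ = ⟪z, z⟫ := by
    have : ∀ w : H, ⟪w, z⟫ = ∑ L ∈ T ψ, ⟪w, y L l₀⟫ := fun w => by rw [hz, inner_sum]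
    rw [real_inner_comm, this, this]
    exact sum_congr rfl fun L _ => (z1 L _ (y1 _ _)).symm
  have z3 : 0 < ⟪z, z⟫ := by
    refine real_inner_self_pos.2 fun h0 => (y4 _ _).2 hL₀ ?_
    have := z1 L₀ _ (y1 L₀ l₀)
    rw [h0, inner_zero_left, ← y2 L₀ _ _ (y1 L₀ l₀)] at this
    exact inner_self_eq_zero.1 this.symm
  have z4 : ∀ g : E, S.R g z = ∑ L ∈ T ψ, y (g • L) (g • l₀) := fun g => by
    rw [hz, map_sum]
    exact sum_congr rfl fun L _ => y3 g L l₀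
  have z5 : ∀ g ∈ A, S.R g z = z := fun g hA => by
    rw [z4, hl g hA, hz]
    exact sum_equiv (MulAction.toPerm g) (fun L => (h.smul_mem g).symm) fun _ _ => rfl
  have z6 : ∀ (g : E) (m : K), ⟪S.U m (S.R g z), z⟫ =
      ∑ L' ∈ T ψ, ∑ L ∈ T ψ, ⟪S.U m (y (g • L') (g • l₀)), y L l₀⟫ := fun g m => by
    rw [z4, map_sum, sum_inner, hz]
    exact sum_congr rfl fun L' _ => inner_sum _ _ _
  have c1 : ∀ L l l', ⟪c ψ L₁, S.U l (y L l')⟫ = 0 := by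
    intro L l l'
    rcases eq_or_ne L L₁ with rfl | hne
    · have : y L l' = 0 := by
        by_contra h0
        have hP := (y4 _ _).1 h0
        rcases hL with rfl | hL
        · exact hP.knotMem h hc hψ (AddSubgroup.mem_sup_right (AddSubgroup.mem_top _))
        · obtain ⟨χ, h1, h2⟩ := (hP.kmem h).2
          exact hL χ h1 h2
      rw [this, map_zero, inner_zero_right]
    · rw [real_inner_comm, kVs_orth_c h hne (y1 _ _)]
  have hA : (0 : ℝ) < Nat.card A := Nat.cast_pos.2 Nat.card_pos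
  have b1 : ⟪z, z⟫ < Nat.card A := by
    have he : (0 : ℝ) < Fintype.card E := Nat.cast_pos.2 Fintype.card_pos
    have k1 := norm_bound (S := S) (Z := S.U l₀ z) (w := S.v ψ - c ψ L₁) A
      (fun g hA => by rw [S.RU, hl g hA, z5 g hA]) (fun g hA => ?_) fun g => ?_
    · have k2 : 1 ≤ ⟪c ψ L₁, c ψ L₁⟫ := by
        have := (h.lat ψ L₁).one_le_abs (h.lat ψ L₁) (inner_self_ne_zero.2 hc1)
        rwa [abs_of_nonneg real_inner_self_nonneg] at this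
      rw [(S.U l₀).inner_map_map, real_inner_sub_sub_self, S.inner_vv hk, real_inner_comm,
        real_inner_comm (c ψ L₁), h.inner_cv] at k1
      refine lt_of_mul_lt_mul_left (a := (Fintype.card E : ℝ)) (k1.trans_lt ?_) he.le
      nlinarith
    · rw [S.RU, S.inner_U_U, z6]
      refine sum_eq_zero fun L' _ => sum_eq_zero fun L _ => ?_
      rcases eq_or_ne (g • L') L with e | hne
      · by_cases h0 : y L l₀ = 0
        · rw [h0, inner_zero_right]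
        · exact kVs_orth_shift hc (hg g hA L ((y4 _ _).1 h0)).1 (e ▸ y1 _ _) (y1 _ _)
      · exact kVs_orth h hne (y1 _ _) (y1 _ _) _
    · rw [inner_sub_left, real_inner_comm, S.inner_R_v, S.inner_U, z2, (S.U l₀).inner_map_map,
        S.RU, z4, map_sum, inner_sum, sum_eq_zero fun L _ => c1 _ _ _, sub_zero]
  have x1 : ∀ (n : ℕ) ψ', ∃ k : ℤ, ⟪S.U (n • p₀) z, S.v ψ'⟫ = (Nat.card A : ℝ) * k := by
    intro n ψ'
    have hn : n • p₀ ∈ K₀ := K₀.nsmul_mem hK n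
    by_cases h' : ψ' ∈ X₀
    · obtain ⟨k, hk'⟩ := hk.dvd A (-l₀ - -(n • p₀)) (fun g hA => by
        rw [smul_sub, smul_neg, smul_neg, smul_comm, hl g hA, hp₀ g hA]) ψ ψ'
      refine ⟨k, ?_⟩
      have k1 : ⟪z, S.U (-(n • p₀)) (S.v ψ')⟫ =
          ⟪S.U (-l₀) (S.v ψ), S.U (-(n • p₀)) (S.v ψ')⟫ := by
        rw [h.sum ψ', map_sum, inner_sum, inner_sum]
        exact sum_congr rfl fun L _ => z1 L _ (Vs_gen h' (K₀.neg_mem hn))
      rw [S.inner_U, k1, S.inner_U_U, S.inner_v, hk']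
      push_cast
      rfl
    · refine ⟨0, ?_⟩
      rw [hz, map_sum, sum_inner, Int.cast_zero, mul_zero]
      exact sum_eq_zero fun L _ => kVs_orth_v hc (Vs_U hn (y1 _ _)) h'
  have x2 : Tendsto (fun n : ℕ => ⟪∑ g, S.R g (S.U (n • p₀) z), S.U (n • p₀) z⟫) atTop
      (𝓝 (Nat.card A * ⟪z, z⟫)) := by
    have k1 : ∀ (n : ℕ) (g : E), ⟪S.R g (S.U (n • p₀) z), S.U (n • p₀) z⟫ =
        ⟪S.U (n • (g • p₀ - p₀)) (S.R g z), z⟫ := fun n g => by
      rw [S.RU, S.inner_U_U, smul_comm, smul_sub]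
    simp only [sum_inner, k1]
    rw [← aclaim_ite]
    refine tendsto_finsetSum _ fun g _ => ?_
    split_ifs with hA
    · simp only [hp₀ g hA, sub_self, smul_zero, S.U_zero, z5 g hA]
      exact tendsto_const_nhds
    · simp only [z6]
      rw [← sum_const_zero (s := T ψ)]
      refine tendsto_finsetSum _ fun L' _ => ?_
      rw [← sum_const_zero (s := T ψ)]
      refine tendsto_finsetSum _ fun L hT => ?_
      rcases eq_or_ne (g • L') L with e | hne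
      · by_cases h0 : y L l₀ = 0
        · simp only [h0, inner_zero_right]
          exact tendsto_const_nhds
        · refine kVs_mix h (h.pure ψ L hT) (fun hq => (hg g hA L ((y4 _ _).1 h0)).2 ?_)
            (e ▸ y1 _ _) (y1 _ _)
          rw [← neg_sub]
          exact L.neg_mem hq
      · simp only [kVs_orth h hne (y1 _ _) (y1 _ _)]
        exact tendsto_const_nhds
  have x3 : (Nat.card A : ℝ) * ⟪z, z⟫ < (Nat.card A : ℝ) ^ 2 := by nlinarith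
  obtain ⟨n, k1, k2⟩ := ((x2.eventually (eventually_lt_nhds x3)).and
    (x2.eventually (eventually_gt_nhds (mul_pos hA z3)))).exists
  rw [sum_R_eq_zero hk (x1 n) k1, inner_zero_left] at k2
  exact lt_irrefl _ k2

end HSys

end Pool.Agent.Lib.MP_b6945b_al.Bi
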