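import Pool.Agent.Lib.MP_b6945b_al.Kx.AStrat

set_option autoImplicit false

/-!
Countable closed substructures.
-/

namespace Pool.Agent.Lib.MP_b6945b_al.Bi

open Finset Filter Topology Pointwise
open scoped RealInnerProductSpace Matrix

namespace HSys

variable {E K X H : Type} [Group E] [Fintype E] [AddCommGroup K] [DistribMulAction E K]
  [NormedAddCommGroup H] [InnerProductSpace ℝ H] {F : K → X → X → ℤ} {S : HSys E H F}

theorem exists_kclosed {c : X → AddSubgroup K → H} {T : X → Finset (AddSubgroup K)}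
    (hk : Ker E F) (h : S.KStrat c T) (ht : Tor K) (htop : Quo (⊤ : AddSubgroup K))
    (hquo : ∀ x, S.Lat x → Quo (S.stab x)) {r : ℕ}
    (hr : ∀ A : Finset X,
      (∀ χ ∈ A, ∀ ψ ∈ A, χ ≠ ψ → ∀ l, ⟪S.U l (c χ (hull ⊥)), c ψ (hull ⊥)⟫ = 0) → A.card ≤ r) :
    ∃ X₀ K₀, X₀.Countable ∧ S.KClosed c T X₀ K₀ := by
  classical
  choose Ts hTs using fun χ L ψ => (h.atom χ L).supp (h.lat ψ L)
  choose Z z1 z2 z3 using fun χ L => exists_count ht (hquo _ (h.lat χ L))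
  obtain ⟨Z₀, y1, -, y3⟩ := exists_count ht htop
  have hW : ∀ (L : AddSubgroup K) (p : Subgroup E × E), ∃ w : K,
      (∃ l : K, (∀ g ∈ p.1, g • l = l) ∧ l - p.2 • l ∉ L) →
        (∀ g ∈ p.1, g • w = w) ∧ w - p.2 • w ∉ L := fun L p =>
    ⟨Classical.epsilon _, Classical.epsilon_spec⟩
  choose W hW using hW
  obtain ⟨_, ⟨A, hA, rfl⟩, hmax⟩ := Set.exists_max_image {n | ∃ A : Finset X,
    (∀ χ ∈ A, ∀ ψ ∈ A, χ ≠ ψ → ∀ l, ⟪S.U l (c χ (hull ⊥)), c ψ (hull ⊥)⟫ = 0) ∧ A.card = n} id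
    ((Set.finite_Iic r).subset fun n ⟨A, hA, e⟩ => e ▸ hr A hA) ⟨0, ∅, by simp, rfl⟩
  let Φ : X ⊕ K → X ⊕ K → Set (X ⊕ K) := fun a b => match a, b with
    | .inl χ, .inl ψ => Sum.inr '' ⋃ L ∈ (T χ : Set (AddSubgroup K)),
        (Ts χ L ψ : Set K) ∪ (Set.range (W L) ∪ Z χ L)
    | .inl _, .inr _ => ∅
    | .inr l, .inl χ => Sum.inl '' ⋃ L ∈ (T χ : Set (AddSubgroup K)),
        {ψ | ⟪S.U l (c χ L), S.v ψ⟫ ≠ 0}
    | .inr l, .inr m => Sum.inr '' insert (l - m)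
        ((⋃ n : ℕ, {x | (n + 1) • x = l}) ∪ Set.range fun g : E => g • l)
  obtain ⟨B, hB, h0, hΦ⟩ := exists_countable_closed
    (Sum.inr '' insert 0 Z₀ ∪ Sum.inl '' (A : Set X))
    (((y1.insert _).image _).union (A.countable_toSet.image _)) Φ (by
      rintro (χ | l) (ψ | m)
      · exact ((T χ).countable_toSet.biUnion fun L _ =>
          (Ts χ L ψ).countable_toSet.union ((Set.countable_range _).union (z1 χ L))).image _
      · exact Set.countable_empty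
      · exact ((T ψ).countable_toSet.biUnion fun L _ =>
          (((h.lat ψ L).U l).finite_supp hk).countable).image _
      · exact (((Set.countable_iUnion fun n => (ht.fibre n.succ_ne_zero l).countable).union
          (Set.countable_range _)).insert _).image _)
  have hT : ∀ {χ L l} {y : H}, ⟪S.U l (c χ L), y⟫ ≠ 0 → L ∈ T χ := fun e =>
    h.mem_of_ne fun e' => e (by rw [e', map_zero, inner_zero_left])
  have b0 : Sum.inr 0 ∈ B := h0 (Or.inl ⟨0, Or.inl rfl, rfl⟩)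
  have b1 : ∀ {l m : K}, Sum.inr l ∈ B → Sum.inr m ∈ B → Sum.inr (l - m) ∈ B := fun hl hm =>
    hΦ _ hl _ hm ⟨_, Or.inl rfl, rfl⟩
  let K₀ : AddSubgroup K :=
    { carrier := {l | Sum.inr l ∈ B}
      zero_mem' := b0
      add_mem' := fun hl hm => by simpa using b1 hl (b1 b0 hm)
      neg_mem' := fun {l} hl => by simpa using b1 b0 hl }
  have hp : ZPure K₀ := fun n hn x hx => by
    obtain ⟨n, rfl⟩ := Nat.exists_eq_succ_of_ne_zero hn
    exact hΦ _ hx _ hx ⟨_, Or.inr (Or.inl (Set.mem_iUnion.2 ⟨n, rfl⟩)), rfl⟩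
  have hZ : ∀ χ, Sum.inl χ ∈ B → ∀ L ∈ T χ, ∀ z ∈ Z χ L, z ∈ K₀ := fun χ hχ L hL z hz =>
    hΦ _ hχ _ hχ ⟨_, Set.mem_biUnion hL (Or.inr (Or.inr hz)), rfl⟩
  have h6 : ∀ χ, Sum.inl χ ∈ B → ∀ L ∈ T χ, L ≤ K₀ ⊔ S.stab (c χ L) := fun χ hχ L hL x hx => by
    obtain ⟨z, a1, a2⟩ := z2 χ L x ((h.good hL).ge hx)
    rw [← add_sub_cancel z x]
    exact AddSubgroup.add_mem_sup (hZ χ hχ L hL z a1) a2
  refine ⟨{χ | Sum.inl χ ∈ B}, K₀, hB.preimage Sum.inl_injective,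
    fun l hl χ hχ L ψ e => hΦ _ hl _ hχ ⟨ψ, Set.mem_biUnion (hT e) e, rfl⟩,
    fun χ hχ ψ hψ L l e => ?_, hp, fun m hm x => ?_,
    fun g l hl => hΦ _ hl _ hl ⟨_, Or.inr (Or.inr ⟨g, rfl⟩), rfl⟩, fun ψ hψ => ?_,
    fun χ hχ L hL A' g e => ⟨W L (A', g),
      hΦ _ hχ _ hχ ⟨_, Set.mem_biUnion hL (Or.inr (Or.inl ⟨_, rfl⟩)), rfl⟩, hW L (A', g) e⟩,
    h6, fun χ hχ L hL n hn x hx => ?_⟩
  · obtain ⟨t, h1, h2⟩ := hTs χ L ψ l e
    rw [← add_sub_cancel t l]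
    exact AddSubgroup.add_mem_sup (hΦ _ hχ _ hψ ⟨t, Set.mem_biUnion (hT e) (Or.inl h1), rfl⟩) h2
  · obtain ⟨z, a1, y, -, rfl⟩ := y3 m hm x (AddSubgroup.mem_top x)
    refine ⟨y, ?_⟩
    rw [add_sub_cancel_right]
    exact h0 (Or.inl ⟨z, Or.inr a1, rfl⟩)
  · by_contra e
    have h1 : ∀ χ ∈ A, Sum.inl χ ∈ B := fun χ hχ => h0 (Or.inr ⟨χ, hχ, rfl⟩)
    have h2 : ∀ χ ∈ A, ∀ l, ⟪S.U l (c χ (hull ⊥)), c ψ (hull ⊥)⟫ = 0 := fun χ hχ l => by
      rw [← h.inner_v]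
      exact not_not.1 fun e' => e ⟨χ, h1 χ hχ, l, e'⟩
    have h3 := hmax _ ⟨insert ψ A, fun χ hχ χ' hχ' hne l => ?_, rfl⟩
    · rw [id, id, card_insert_of_notMem fun e' => hψ (h1 ψ e')] at h3
      omega
    · rcases mem_insert.1 hχ with rfl | k <;> rcases mem_insert.1 hχ' with rfl | k'
      · exact absurd rfl hne
      · rw [S.inner_U, real_inner_comm, h2 χ' k']
      · exact h2 χ k l
      · exact hA χ k χ' k' hne l
  · obtain ⟨k, a1, s, a2, a3⟩ :=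
      AddSubgroup.mem_sup.1 (sup_le le_sup_left (h6 χ hχ L hL) hx)
    obtain ⟨z, a4, y, a5, rfl⟩ := z3 χ L n hn s a2
    have a6 : x - y ∈ K₀ := hp n hn _ (by
      rw [smul_sub, ← a3, ← add_assoc, add_sub_cancel_right]
      exact K₀.add_mem a1 (hZ χ hχ L hL z a4))
    rw [← sub_add_cancel x y]
    exact AddSubgroup.add_mem_sup a6 ((h.good hL).le (le_hull _ a5))

end HSys

end Pool.Agent.Lib.MP_b6945b_al.Bi
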