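import Pool.Agent.Lib.MP_b6945b_al.Kx.ABasic

set_option autoImplicit false

/-!
Counting: the structure theorem bounds the mass at the identity.
-/

namespace Pool.Agent.Lib.MP_b6945b_al.Bi

open Finset Filter Topology Pointwise
open scoped RealInnerProductSpace Matrix

open Classical in
lemma kcount_ind {K ι : Type} [AddCommGroup K] [Fintype K] {p M : ℕ} (hp : 0 < p)
    (hM : 2 * M ^ 2 ≤ p) (a : ι → ℤ) (c : ι → K) (L : ι → AddSubgroup K)
    (ht : ∀ i j, L j ≠ L i → Nat.card (L j) ≤ Nat.card (L i) →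
      p * Nat.card (L i ⊓ L j : AddSubgroup K) ≤ Nat.card (L i))
    (ha : ∀ i, |a i| ≤ M) (s : Finset ι) : s.card ≤ M →
    (∀ l, ∑ j ∈ s, (if l - c j ∈ L j then a j else 0) = 0) ∨ ∃ i,
      |∑ l, ∑ j ∈ s, if l - c j ∈ L j then a j else 0| ≤ M ^ 2 * Nat.card (L i) ∧
      (Nat.card (L i) : ℤ) ≤ 2 * |∑ l, if l - c i ∈ L i then
        ∑ j ∈ s, (if l - c j ∈ L j then a j else 0) else 0| := by
  induction s using Finset.strongInduction with
  | H s ih =>
  intro hs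
  rcases s.eq_empty_or_nonempty with rfl | hne
  · exact Or.inl fun l => sum_empty
  obtain ⟨i, hi, hmax⟩ := exists_max_image s (fun j => Nat.card (L j)) hne
  obtain ⟨T, hT⟩ : ∃ T : ι → Prop, ∀ j, T j ↔ L j = L i ∧ c j - c i ∈ L i := ⟨_, fun _ => Iff.rfl⟩
  have e : ∀ l, ∑ j ∈ s, (if l - c j ∈ L j then a j else 0) =
      (if l - c i ∈ L i then ∑ j ∈ s.filter T, a j else 0) +
        ∑ j ∈ s.filter fun j => ¬ T j, if l - c j ∈ L j then a j else 0 := fun l => by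
    rw [← sum_filter_add_sum_filter_not s T]
    congr 1
    rw [sum_congr rfl (g := fun j => if l - c i ∈ L i then a j else 0) fun j hj => ?_]
    · split_ifs <;> simp
    · obtain ⟨h1, h2⟩ := (hT j).1 (mem_filter.1 hj).2
      refine if_congr ?_ rfl rfl
      rw [h1]
      exact ⟨fun h => by simpa using (L i).add_mem h h2,
        fun h => by simpa using (L i).sub_mem h h2⟩
  have hc := (card_filter_le s fun j => ¬ T j).trans hs
  by_cases h0 : ∑ j ∈ s.filter T, a j = 0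
  · simp only [e, h0, ite_self, zero_add]
    exact ih _ (filter_ssubset.2 ⟨i, hi, not_not.2 ((hT i).2 ⟨rfl, by simp⟩)⟩) hc
  have hM0 : (0 : ℤ) ≤ M := Nat.cast_nonneg _
  refine Or.inr ⟨i, ?_, ?_⟩
  · rw [sum_comm]
    refine (abs_sum_le_sum_abs _ _).trans ((sum_le_card_nsmul _ _ ((M : ℤ) * Nat.card (L i))
      fun j hj => ?_).trans ?_)
    · rw [← sum_filter, sum_const, acount_coset, nsmul_eq_mul, abs_mul, Nat.abs_cast, mul_comm]
      exact mul_le_mul (ha j) (by exact_mod_cast hmax j hj) (Nat.cast_nonneg _) hM0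
    · rw [nsmul_eq_mul, sq, mul_assoc]
      exact mul_le_mul_of_nonneg_right (by exact_mod_cast hs) (by positivity)
  · have e1 : (∑ l, if l - c i ∈ L i then
        ∑ j ∈ s, (if l - c j ∈ L j then a j else 0) else 0) =
        Nat.card (L i) * ∑ j ∈ s.filter T, a j + ∑ j ∈ s.filter fun j => ¬ T j,
          ((univ.filter fun l => l - c i ∈ L i ∧ l - c j ∈ L j).card : ℤ) * a j := by
      rw [← sum_filter, sum_congr rfl fun l hl => (e l).trans
        (by rw [if_pos (mem_filter.1 hl).2]), sum_add_distrib, sum_const, acount_coset,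
        nsmul_eq_mul, sum_comm]
      congr 1
      refine sum_congr rfl fun j _ => ?_
      rw [← sum_filter, filter_filter, sum_const, nsmul_eq_mul]
    have e2 : ∀ j ∈ s.filter fun j => ¬ T j,
        p * (univ.filter fun l => l - c i ∈ L i ∧ l - c j ∈ L j).card ≤ Nat.card (L i) := by
      intro j hj
      obtain ⟨h1, h2⟩ := mem_filter.1 hj
      by_cases h3 : L j = L i
      · rw [filter_eq_empty_iff.2 fun l _ hl => h2 ((hT j).2 ⟨h3, by
          rw [← sub_sub_sub_cancel_left (c i) (c j) l]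
          exact (L i).sub_mem hl.1 (h3 ▸ hl.2)⟩)]
        simp
      · exact (Nat.mul_le_mul_left p (acount_inter _ _ _ _)).trans (ht i j h3 (hmax j h1))
    have e3 : p * |∑ j ∈ s.filter fun j => ¬ T j,
        ((univ.filter fun l => l - c i ∈ L i ∧ l - c j ∈ L j).card : ℤ) * a j| ≤
        M * (Nat.card (L i) * M) := by
      refine (mul_le_mul_of_nonneg_left (abs_sum_le_sum_abs _ _) (Nat.cast_nonneg p)).trans ?_
      rw [mul_sum]
      refine (sum_le_card_nsmul _ _ ((Nat.card (L i) : ℤ) * M) fun j hj => ?_).trans ?_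
      · rw [abs_mul, Nat.abs_cast, ← mul_assoc]
        exact mul_le_mul (by exact_mod_cast e2 j hj) (ha j) (abs_nonneg _) (Nat.cast_nonneg _)
      · rw [nsmul_eq_mul]
        exact mul_le_mul_of_nonneg_right (by exact_mod_cast hc) (by positivity)
    rw [e1]
    generalize (∑ j ∈ s.filter fun j => ¬ T j,
      ((univ.filter fun l => l - c i ∈ L i ∧ l - c j ∈ L j).card : ℤ) * a j) = y at e3 ⊢
    have h1 : 1 ≤ |∑ j ∈ s.filter T, a j| := Int.one_le_abs h0
    have h2 := abs_sub (Nat.card (L i) * ∑ j ∈ s.filter T, a j + y) y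
    rw [add_sub_cancel_right, abs_mul, Nat.abs_cast] at h2
    have h3 : (0 : ℤ) ≤ Nat.card (L i) := Nat.cast_nonneg _
    have h4 : (2 * M ^ 2 : ℤ) ≤ p := by exact_mod_cast hM
    have h5 : (0 : ℤ) < p := by exact_mod_cast hp
    have h6 : 2 * |y| ≤ Nat.card (L i) := le_of_mul_le_mul_left (a := (p : ℤ))
      (by nlinarith [mul_le_mul_of_nonneg_right h4 h3]) h5
    nlinarith [mul_le_mul_of_nonneg_left h1 h3]

/-- The largest stratum. -/
lemma Rep.big {K : Type} [AddCommGroup K] [Fintype K] {M : ℕ} {𝓛 𝓗 : Finset (AddSubgroup K)}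
    (hs : ∀ L ∈ 𝓛, L ∈ 𝓗) (ht : ∀ L ∈ 𝓛, ∀ L' ∈ 𝓛, L' ≠ L → Nat.card L' ≤ Nat.card L →
      (2 * M ^ 2 + 1) * Nat.card (L ⊓ L' : AddSubgroup K) ≤ Nat.card L)
    {f : K → ℤ} (h : Rep (fun L => L ∈ 𝓛) M f) : Big 𝓗 M f := by
  obtain ⟨m, a, c, L, h1, h2, h3, h4⟩ := h
  unfold Big
  simp only [h4]
  exact (kcount_ind (Nat.succ_pos _) (Nat.le_succ _) a c L
    (fun i j => ht _ (h3 i) _ (h3 j)) h2 univ (by simpa using h1)).imp_right
    fun ⟨i, hi⟩ => ⟨L i, hs _ (h3 i), c i, hi⟩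

lemma Big.mono {K : Type} [AddCommGroup K] [Fintype K] {M M' : ℕ} {𝓗 : Finset (AddSubgroup K)}
    {f : K → ℤ} (h : Big 𝓗 M f) (hM : M ≤ M') : Big 𝓗 M' f := by
  refine h.imp_right fun ⟨L, h1, c, h2, h3⟩ => ⟨L, h1, c, h2.trans ?_, h3⟩
  have h4 : (M : ℤ) ≤ M' := by exact_mod_cast hM
  gcongr

open Classical in
/-- One character.  By `sum_mul_neg` at `0`, `|A| w 0 = ∑ l, f l`; by `sum_coset`,
`∑ l ∈ c + L, f l = |L| ∑ d ∈ L^⊥, w d * c d` has absolute value at most `|L| ∑ d ∈ L^⊥, w d`.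
So `1 ≤ 2 ∑ d ∈ L^⊥, w d` and `|A| w 0 ≤ M² |L|`. -/
lemma kcount_one {A : Type} [AddCommGroup A] [Fintype A] {M : ℕ}
    (𝓗 : Finset (AddSubgroup (AddChar A ℂ))) (w : A → ℝ) (hw : ∀ d, 0 ≤ w d)
    (f : AddChar A ℂ → ℤ) (hf : ∀ l, (f l : ℂ) = ∑ d, (w d : ℂ) * l d)
    (h : Big 𝓗 M f) :
    Fintype.card A * w 0 ≤ ∑ L ∈ 𝓗, 2 * M ^ 2 * (Nat.card L : ℝ) *
      ∑ d ∈ univ.filter (fun d : A => ∀ l ∈ L, l d = 1), w d := by
  have h0 : ∀ L ∈ 𝓗, 0 ≤ 2 * M ^ 2 * (Nat.card L : ℝ) *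
      ∑ d ∈ univ.filter (fun d : A => ∀ l ∈ L, l d = 1), w d :=
    fun L _ => mul_nonneg (by positivity) (sum_nonneg fun d _ => hw d)
  have e0 : ((∑ l, f l : ℤ) : ℝ) = Fintype.card A * w 0 := by
    have h1 := sum_mul_neg (fun d => (w d : ℂ)) 0
    simp only [neg_zero, AddChar.map_zero_eq_one, mul_one, ← hf] at h1
    apply Complex.ofReal_injective
    push_cast
    exact h1
  rw [← e0]
  rcases h with h1 | ⟨L, hL, c, h1, h2⟩
  · simp only [h1, sum_const_zero, Int.cast_zero]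
    exact sum_nonneg h0
  refine le_trans ?_ (single_le_sum h0 hL)
  have e1 : ((∑ l, if l - c ∈ L then f l else 0 : ℤ) : ℂ) =
      ∑ d ∈ univ.filter (fun d : A => ∀ l ∈ L, l d = 1), (w d : ℂ) * (Nat.card L * c d) := by
    rw [sum_filter, sum_congr rfl (g := fun d => ∑ l : AddChar A ℂ,
      if l - c ∈ L then (w d : ℂ) * l d else 0) fun d _ => ?_, sum_comm, Int.cast_sum]
    · refine sum_congr rfl fun l _ => ?_
      split_ifs <;> simp [hf]
    · have h3 := congrArg ((w d : ℂ) * ·) (sum_coset L c d)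
      simpa only [mul_sum, mul_ite, mul_zero] using h3.symm
  have e2 : ((|∑ l, if l - c ∈ L then f l else 0| : ℤ) : ℝ) ≤
      Nat.card L * ∑ d ∈ univ.filter (fun d : A => ∀ l ∈ L, l d = 1), w d := by
    rw [Int.cast_abs, ← Complex.norm_intCast, e1, mul_sum]
    refine norm_sum_le_of_le _ fun d _ => le_of_eq ?_
    rw [norm_mul, norm_mul, AddChar.norm_apply, Complex.norm_natCast, Complex.norm_real,
      Real.norm_of_nonneg (hw d), mul_one, mul_comm]
  have h3 : ((∑ l, f l : ℤ) : ℝ) ≤ M ^ 2 * Nat.card L := by exact_mod_cast (le_abs_self _).trans h1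
  have h4 : (Nat.card L : ℝ) ≤ 2 * ((|∑ l, if l - c ∈ L then f l else 0| : ℤ) : ℝ) := by
    exact_mod_cast h2
  nlinarith [mul_le_mul_of_nonneg_left (h4.trans (mul_le_mul_of_nonneg_left e2 zero_le_two))
    (sq_nonneg (M : ℝ))]

/-- Sum `kcount_one` over `χ ∉ A₀`: with `W = ∑ χ, w 0 χ`,
`|A| W ≤ |A| e M + ∑ L, 2 M² |L| (W + R |L^⊥|) ≤ |A| (e M + 2 M³ W / p + 2 M³ R)`
with `p = 4 M³ + 1`. -/
theorem kcount {A X : Type} [AddCommGroup A] [Fintype A] [Fintype X] {M : ℕ}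
    (w : A → X → ℝ) (hw : ∀ d χ, 0 ≤ w d χ) (F : AddChar A ℂ → X → X → ℤ)
    (hF : ∀ l χ, (F l χ χ : ℂ) = ∑ d, (w d χ : ℂ) * l d) (e R : ℝ) (hR0 : 0 ≤ R)
    (he0 : 0 ≤ e) (he : ∀ χ, w 0 χ ≤ e) (hR : ∀ d, d ≠ 0 → ∑ χ, w d χ ≤ R) (h : KStruct M F) :
    ∑ χ, w 0 χ ≤ 2 * e * M + 4 * M ^ 3 * R := by
  classical
  obtain ⟨𝓗, A₀, h1, h2, ht, h3⟩ := h
  obtain ⟨p, hp⟩ : ∃ p, p = 4 * M ^ 3 + 1 := ⟨_, rfl⟩
  rw [← hp] at ht
  obtain ⟨W, hW⟩ : ∃ W, W = ∑ χ, w 0 χ := ⟨_, rfl⟩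
  have hW0 : 0 ≤ W := hW ▸ sum_nonneg fun χ _ => hw 0 χ
  have hA : (0 : ℝ) < Fintype.card A := by exact_mod_cast Fintype.card_pos
  have hp0 : (0 : ℝ) < p := by exact_mod_cast (by omega : 0 < p)
  have k1 : ∑ χ ∈ A₀, Fintype.card A * w 0 χ ≤ M * (Fintype.card A * e) := by
    refine (sum_le_card_nsmul _ _ _ fun χ _ => mul_le_mul_of_nonneg_left (he χ) hA.le).trans ?_
    rw [nsmul_eq_mul]
    exact mul_le_mul_of_nonneg_right (by exact_mod_cast h2) (by positivity)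
  have k2 : ∑ χ ∈ A₀ᶜ, Fintype.card A * w 0 χ ≤
      M * (2 * M ^ 2 * (Fintype.card A * R + Fintype.card A / p * W)) := by
    refine (sum_le_sum fun χ hχ => kcount_one 𝓗 (fun d => w d χ)
      (fun d => hw d χ) (fun l => F l χ χ) (fun l => hF l χ) (h3 χ (mem_compl.1 hχ))).trans ?_
    rw [sum_comm]
    refine (sum_le_card_nsmul _ _ (2 * M ^ 2 * (Fintype.card A * R + Fintype.card A / p * W))
      fun L hL => ?_).trans ?_
    · rw [← mul_sum, sum_comm, mul_assoc]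
      refine mul_le_mul_of_nonneg_left ?_ (by positivity)
      have k3 : ∑ d ∈ univ.filter (fun d : A => ∀ l ∈ L, l d = 1), ∑ χ ∈ A₀ᶜ, w d χ ≤
          (univ.filter fun d : A => ∀ l ∈ L, l d = 1).card * R + W := by
        refine (sum_le_sum (g := fun d => R + if d = 0 then W else 0) fun d _ =>
          (sum_le_sum_of_subset_of_nonneg (subset_univ _) fun χ _ _ => hw d χ).trans ?_).trans ?_
        · split_ifs with hd
          · rw [hd, ← hW]
            linarith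
          · linarith [hR d hd]
        · rw [sum_add_distrib, sum_const, nsmul_eq_mul, sum_ite_eq']
          split_ifs <;> linarith
      have k4 : ((univ.filter fun d : A => ∀ l ∈ L, l d = 1).card : ℝ) * Nat.card L =
          Fintype.card A := by exact_mod_cast card_perp L
      have k5 : (Nat.card L : ℝ) ≤ Fintype.card A / p := by
        have k6 := ht L hL
        rw [Nat.card_eq_fintype_card (α := AddChar A ℂ), AddChar.card_eq] at k6
        rw [le_div_iff₀' hp0]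
        exact_mod_cast k6
      refine (mul_le_mul_of_nonneg_left k3 (Nat.cast_nonneg _)).trans ?_
      rw [mul_add, ← mul_assoc, mul_comm (Nat.card L : ℝ), k4]
      gcongr
    · rw [nsmul_eq_mul]
      exact mul_le_mul_of_nonneg_right (by exact_mod_cast h1) (by positivity)
  have k3 : Fintype.card A * W ≤ M * (Fintype.card A * e) +
      M * (2 * M ^ 2 * (Fintype.card A * R + Fintype.card A / p * W)) := by
    rw [hW, mul_sum, ← sum_add_sum_compl A₀, ← hW]
    exact add_le_add k1 k2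
  have k4 : (4 * M ^ 3 : ℝ) * (Fintype.card A / p) ≤ Fintype.card A := by
    rw [← mul_div_assoc, div_le_iff₀' hp0]
    exact mul_le_mul_of_nonneg_right (by exact_mod_cast (by omega : 4 * M ^ 3 ≤ p)) hA.le
  rw [← hW]
  refine le_of_mul_le_mul_left ?_ hA
  nlinarith [mul_le_mul_of_nonneg_right k4 hW0]

end Pool.Agent.Lib.MP_b6945b_al.Bi
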