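import Pool.Agent.Lib.MP_b6945b_al.Bi.AFinal

set_option autoImplicit false

/-!
Definitions for the rank bound at a fixed prime and bounded rank.
-/

namespace Pool.Agent.Lib.MP_b6945b_al.Bi

open Finset Filter Topology Pointwise
open scoped RealInnerProductSpace Matrix

section
variable {K : Type} [AddCommGroup K]

/-- The elements having a nonzero multiple in `L`. -/
def hull (L : AddSubgroup K) : AddSubgroup K where
  carrier := {x | ∃ n : ℕ, n ≠ 0 ∧ n • x ∈ L}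
  zero_mem' := ⟨1, one_ne_zero, by rw [smul_zero]; exact L.zero_mem⟩
  add_mem' := by
    rintro a b ⟨m, hm, ha⟩ ⟨n, hn, hb⟩
    refine ⟨m * n, mul_ne_zero hm hn, ?_⟩
    rw [smul_add, mul_smul m n b, mul_comm, mul_smul n m a]
    exact L.add_mem (L.nsmul_mem ha n) (L.nsmul_mem hb m)
  neg_mem' := by
    rintro a ⟨m, hm, ha⟩
    exact ⟨m, hm, by rw [smul_neg]; exact L.neg_mem ha⟩

lemma mem_hull {L : AddSubgroup K} {x : K} : x ∈ hull L ↔ ∃ n : ℕ, n ≠ 0 ∧ n • x ∈ L := Iff.rfl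

/-- The quotient by `L` is torsion free. -/
def ZPure (L : AddSubgroup K) : Prop := ∀ n : ℕ, n ≠ 0 → ∀ x, n • x ∈ L → x ∈ L

/-- `L` is covered by finitely many cosets of `L'`. -/
def Cov (L L' : AddSubgroup K) : Prop := ∃ T : Finset K, ∀ x ∈ L, ∃ t ∈ T, x - t ∈ L'

/-- All multiples of `L` have finite index in `L`. -/
def Quo (L : AddSubgroup K) : Prop :=
  ∀ m : ℕ, m ≠ 0 → ∃ T : Finset K, ∀ x ∈ L, ∃ t ∈ T, ∃ y ∈ L, x = t + m • y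

variable (K) in
/-- The elements killed by a nonzero integer form a finite set. -/
def Tor : Prop := ∀ m : ℕ, m ≠ 0 → {x : K | m • x = 0}.Finite

open Classical in
/-- The function vanishes, or its total sum is controlled by its sum over a coset of a member
of `𝓗`. -/
def Big [Fintype K] (𝓗 : Finset (AddSubgroup K)) (M : ℕ) (f : K → ℤ) : Prop :=
  (∀ l, f l = 0) ∨ ∃ L ∈ 𝓗, ∃ c, |∑ l, f l| ≤ M ^ 2 * Nat.card L ∧
    (Nat.card L : ℤ) ≤ 2 * |∑ l, if l - c ∈ L then f l else 0|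

/-- Outside a bounded set the diagonal of the kernel is controlled by boundedly many subgroups
of large index. -/
def KStruct [Fintype K] {X : Type} (M : ℕ) (F : K → X → X → ℤ) : Prop :=
  ∃ (𝓗 : Finset (AddSubgroup K)) (A : Finset X), 𝓗.card ≤ M ∧ A.card ≤ M ∧
    (∀ L ∈ 𝓗, (4 * M ^ 3 + 1) * Nat.card L ≤ Nat.card K) ∧
    ∀ χ, χ ∉ A → Big 𝓗 M (fun l => F l χ χ)

end

/-- The conditions on a finite system. -/
structure KFAx (E : Type) (b : ℕ → ℕ) (r : ℕ) {K X : Type} [Group E] [Fintype E] [AddCommGroup K]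
    [Fintype K] [DistribMulAction E K] (F : K → X → X → ℤ) : Prop where
  ker : Ker E F
  tor : ∀ m : ℕ, m ≠ 0 → Nat.card {x : K // m • x = 0} ≤ b m
  div : ∀ (A : Subgroup E) (x : K), ∃ y, Nat.card A • y = x
  orth : ∀ (S : Finset X) (M : ℕ),
    (∀ χ ∈ S, ∀ ψ ∈ S, χ ≠ ψ → Rep (fun L => S.card ^ 2 * M < Nat.card L) M (fun l => F l χ ψ)) →
      S.card ≤ r

/-- The conditions on a limit system; `Int` is the class of internal subgroups. -/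
structure KLAx (E : Type) (r : ℕ) {K X : Type} [Group E] [Fintype E] [AddCommGroup K]
    [DistribMulAction E K] (F : K → X → X → ℤ) (Int : AddSubgroup K → Prop) : Prop where
  ker : Ker E F
  thr : ∀ (L : AddSubgroup K) (m : ℕ) (a : Fin m → ℝ) (l : Fin m → K) (χ : Fin m → X) (t : ℝ),
    (∀ x, x ∈ L ↔ t < ∑ i, ∑ j, a i * a j * (F (x + l i - l j) (χ i) (χ j) : ℝ)) → Int L
  tor : Tor K
  top : Quo (⊤ : AddSubgroup K)
  quo : ∀ L, Int L → Quo L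
  sat : ∀ L L', Int L → Int L' → L ≤ hull L' → ∃ m : ℕ, m ≠ 0 ∧ ∀ x ∈ L, m • x ∈ L'
  div : ∀ (A : Subgroup E) (x : K), ∃ y, Nat.card A • y = x
  orth : ∀ (S : Finset X) (M : ℕ),
    (∀ χ ∈ S, ∀ ψ ∈ S, χ ≠ ψ → Rep (fun L => Int L ∧ ¬ L ≤ hull ⊥) M (fun l => F l χ ψ)) →
      S.card ≤ r

namespace HSys

variable {E K X H : Type} [Group E] [Fintype E] [AddCommGroup K] [DistribMulAction E K]
  [NormedAddCommGroup H] [InnerProductSpace ℝ H] {F : K → X → X → ℤ} (S : HSys E H F)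

/-- Torsion quotients of stabilisers of lattice vectors are finite. -/
def KFin : Prop :=
  ∀ x y, S.Lat x → S.Lat y → S.stab x ≤ hull (S.stab y) → Cov (S.stab x) (S.stab y)

/-- `x` is an atom for a subgroup whose hull is that of `Λ`. -/
def KAt (Λ : AddSubgroup K) (x : H) : Prop := ∃ L, S.At L x ∧ L ≤ Λ ∧ Λ ≤ hull L

/-- Decomposition of the distinguished vectors into strata. -/
structure KStrat (c : X → AddSubgroup K → H) (T : X → Finset (AddSubgroup K)) : Prop where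
  atom : ∀ χ L, S.KAt L (c χ L)
  off : ∀ χ L, L ∉ T χ → c χ L = 0
  ne : ∀ χ, ∀ L ∈ T χ, c χ L ≠ 0
  pure : ∀ χ, ∀ L ∈ T χ, ZPure L
  sum : ∀ χ, S.v χ = ∑ L ∈ T χ, c χ L
  equiv : ∀ (g : E) χ L, S.R g (c χ L) = c χ (g • L)
  orth : ∀ χ ψ L L' l, L ≠ L' → ⟪S.U l (c χ L), c ψ L'⟫ = 0

/-- A closed substructure. -/
structure KClosed (c : X → AddSubgroup K → H) (T : X → Finset (AddSubgroup K))
    (X₀ : Set X) (K₀ : AddSubgroup K) : Prop where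
  c1 : ∀ l ∈ K₀, ∀ χ ∈ X₀, ∀ L ψ, ⟪S.U l (c χ L), S.v ψ⟫ ≠ 0 → ψ ∈ X₀
  c2 : ∀ χ ∈ X₀, ∀ ψ ∈ X₀, ∀ L l, ⟪S.U l (c χ L), c ψ L⟫ ≠ 0 → l ∈ K₀ ⊔ L
  pure : ZPure K₀
  dv : ∀ m : ℕ, m ≠ 0 → ∀ x : K, ∃ y, x - m • y ∈ K₀
  inv : ∀ g : E, ∀ l ∈ K₀, g • l ∈ K₀
  c4 : ∀ ψ, ψ ∉ X₀ → ∃ χ ∈ X₀, ∃ l, ⟪S.U l (c χ (hull ⊥)), S.v ψ⟫ ≠ 0
  c5 : ∀ χ ∈ X₀, ∀ L ∈ T χ, ∀ (A : Subgroup E) (g : E),
    (∃ l : K, (∀ h ∈ A, h • l = l) ∧ l - g • l ∉ L) →
      ∃ l ∈ K₀, (∀ h ∈ A, h • l = l) ∧ l - g • l ∉ L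
  c6 : ∀ χ ∈ X₀, ∀ L ∈ T χ, L ≤ K₀ ⊔ S.stab (c χ L)
  c7 : ∀ χ ∈ X₀, ∀ L ∈ T χ, ZPure (K₀ ⊔ L)

end HSys

end Pool.Agent.Lib.MP_b6945b_al.Bi
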