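import Pool.Agent.Lib.MP_b6945b_al.Kx.ABasic

set_option autoImplicit false

/-!
A system of projections gives a finite system.
-/

namespace Pool.Agent.Lib.MP_b6945b_al.Bi

open Finset Filter Topology Pointwise
open scoped RealInnerProductSpace Matrix

lemma kx_generic {A : Type} [AddCommGroup A] [Fintype A] [Nontrivial A]
    (𝓛 : Finset (AddSubgroup (AddChar A ℂ))) {N : ℕ} (h : ∀ L ∈ 𝓛, N < Nat.card L)
    (hc : 𝓛.card ≤ N) : ∃ d : A, d ≠ 0 ∧ ∀ L ∈ 𝓛, ∃ l ∈ L, l d ≠ 1 := by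
  classical
  rcases 𝓛.eq_empty_or_nonempty with rfl | ⟨L₀, h0⟩
  · obtain ⟨a, ha⟩ := exists_ne (0 : A)
    exact ⟨a, ha, fun L hL => absurd hL (notMem_empty L)⟩
  by_contra hcon
  push Not at hcon
  have h2 : (univ : Finset A) ⊆
      𝓛.biUnion fun L => univ.filter fun d : A => ∀ l ∈ L, l d = 1 := fun d _ => by
    by_cases hd : d = 0
    · exact Finset.mem_biUnion.2 ⟨L₀, h0, Finset.mem_filter.2 ⟨Finset.mem_univ _, fun l _ => by
        rw [hd, AddChar.map_zero_eq_one]⟩⟩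
    · obtain ⟨L, hL, h3⟩ := hcon d hd
      exact Finset.mem_biUnion.2 ⟨L, hL, Finset.mem_filter.2 ⟨Finset.mem_univ _, h3⟩⟩
  have h3 := (Finset.card_le_card h2).trans Finset.card_biUnion_le
  have h4 : (∑ L ∈ 𝓛, (univ.filter fun d : A => ∀ l ∈ L, l d = 1).card) * (N + 1) ≤
      𝓛.card * Fintype.card A := by
    rw [Finset.sum_mul, ← smul_eq_mul, ← Finset.sum_const]
    refine Finset.sum_le_sum fun L hL => ?_
    rw [← card_perp L]
    exact Nat.mul_le_mul_left _ (h L hL)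
  rw [Finset.card_univ] at h3
  have h5 := Nat.mul_le_mul_right (N + 1) h3
  have h6 := Nat.mul_le_mul_right (Fintype.card A) hc
  have h7 := Fintype.card_pos (α := A)
  nlinarith

open Classical in
lemma kfour_dual {D : Type} [CommGroup D] [Fintype D] (m : ℕ) :
    Nat.card {l : AddChar (Additive D) ℂ // m • l = 0} ≤ Nat.card {x : D // x ^ m = 1} := by
  let f : D →* D := powMonoidHom m
  let L : AddSubgroup (AddChar (Additive D) ℂ) := (nsmulAddMonoidHom m).ker
  have h1 := card_perp L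
  rw [← Fintype.card_subtype, ← Nat.card_eq_fintype_card] at h1
  have h2 : Nat.card f.range ≤ Nat.card {d : Additive D // ∀ l ∈ L, l d = 1} := by
    refine Nat.card_le_card_of_injective (fun x => ⟨Additive.ofMul x.1, fun l hl => ?_⟩)
      fun x y e => Subtype.ext (Additive.ofMul.injective (Subtype.mk.inj e))
    obtain ⟨y, hy⟩ := x.2
    have h3 : m • l = 0 := hl
    rw [← hy]
    change l (m • Additive.ofMul y) = 1
    rw [AddChar.map_nsmul_eq_pow, ← AddChar.nsmul_apply, h3, AddChar.zero_apply]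
  have h3 := Subgroup.card_eq_card_quotient_mul_card_subgroup f.ker
  rw [Nat.card_congr (QuotientGroup.quotientKerEquivRange f).toEquiv,
    Nat.card_eq_fintype_card (α := D), ← Fintype.card_additive, ← h1] at h3
  change Nat.card L ≤ Nat.card f.ker
  exact Nat.le_of_mul_le_mul_left ((Nat.mul_le_mul_right _ h2).trans h3.le) Nat.card_pos

lemma kfour_pow {D : Type} [CommGroup D] [Finite D] (p k : ℕ) :
    Nat.card {x : D // x ^ p ^ k = 1} ≤ Nat.card {x : D // x ^ p = 1} ^ k := by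
  induction k with
  | zero =>
    rw [pow_zero, pow_zero]
    refine Finite.card_le_one_iff_subsingleton.2 ⟨fun x y => Subtype.ext ?_⟩
    rw [← pow_one x.1, x.2, ← pow_one y.1, y.2]
  | succ k ih =>
    let A : Subgroup D := (powMonoidHom (p ^ (k + 1)) : D →* D).ker
    let f : A →* D := (powMonoidHom p).comp A.subtype
    have h1 := Subgroup.card_eq_card_quotient_mul_card_subgroup f.ker
    rw [Nat.card_congr (QuotientGroup.quotientKerEquivRange f).toEquiv] at h1
    have h2 : Nat.card f.range ≤ Nat.card {x : D // x ^ p ^ k = 1} := by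
      refine Nat.card_le_card_of_injective (fun x => ⟨x.1, ?_⟩)
        fun x y e => Subtype.ext (Subtype.mk.inj e)
      obtain ⟨y, hy⟩ := x.2
      rw [← hy]
      change (y.1 ^ p) ^ p ^ k = 1
      rw [← pow_mul, ← pow_succ']
      exact y.2
    have h3 : Nat.card f.ker ≤ Nat.card {x : D // x ^ p = 1} :=
      Nat.card_le_card_of_injective (fun x => ⟨x.1.1, x.2⟩)
        fun x y e => Subtype.ext (Subtype.ext (Subtype.mk.inj e))
    change Nat.card A ≤ _
    rw [h1, pow_succ]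
    exact Nat.mul_le_mul (h2.trans ih) h3

lemma kfour_tor {p b m : ℕ} (hp : p.Prime) {D : Type} [CommGroup D] [Finite D]
    (hD : IsPGroup p D) (hb : Nat.card {x : D // x ^ p = 1} ≤ b) (hm : m ≠ 0) :
    Nat.card {x : D // x ^ m = 1} ≤ b ^ m := by
  have := Fact.mk hp
  have : Nonempty {x : D // x ^ p = 1} := ⟨⟨1, one_pow p⟩⟩
  have h0 : 0 < b := Nat.card_pos.trans_le hb
  have h1 : Nat.card {x : D // x ^ m = 1} ≤ Nat.card {x : D // x ^ p ^ m = 1} := by
    refine Nat.card_le_card_of_injective (fun x => ⟨x.1, ?_⟩)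
      fun x y e => Subtype.ext (Subtype.mk.inj e)
    obtain ⟨k, hk⟩ := IsPGroup.iff_orderOf.1 hD x.1
    have h2 := Nat.le_of_dvd (Nat.pos_of_ne_zero hm) (hk ▸ orderOf_dvd_of_pow_eq_one x.2)
    exact orderOf_dvd_iff_pow_eq_one.1
      (hk ▸ pow_dvd_pow p ((Nat.lt_pow_self hp.one_lt).le.trans h2))
  exact h1.trans ((kfour_pow p m).trans (Nat.pow_le_pow_left hb m))

theorem MSys.kfax {p r b : ℕ} (hp : p.Prime) {E D X : Type} [Group E] [Fintype E] [CommGroup D]
    [Fintype D] [Fintype X] [DecidableEq X] {φ : E →* MulAut D} {P : D → Matrix X X ℂ}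
    (h : MSys p r φ P) {F : AddChar (Additive D) ℂ → X → X → ℤ}
    (hF : ∀ l χ ψ, (F l χ ψ : ℂ) = ∑ d, (stb φ d : ℂ) * l (Additive.ofMul d) * P d χ ψ)
    (hk : letI := dualAct φ; Ker E F) (hE : ¬ p ∣ Fintype.card E)
    (hb : Nat.card {x : D // x ^ p = 1} ≤ b) :
    letI := dualAct φ; KFAx E (fun m => b ^ m) r F := by
  classical
  let _ := dualAct φ
  have ht : ∀ x : AddChar (Additive D) ℂ, ∃ k : ℕ, p ^ k • x = 0 := fun x => by
    have := Fact.mk hp
    obtain ⟨k, hk'⟩ := IsPGroup.iff_card.1 h.pD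
    refine ⟨k, ?_⟩
    rw [← hk', Nat.card_eq_fintype_card, ← Fintype.card_additive, ← AddChar.card_eq]
    exact card_nsmul_eq_zero
  refine ⟨hk, fun m hm => (kfour_dual m).trans (kfour_tor hp h.pD hb hm), fun A x => ?_,
    fun S M hS => ?_⟩
  · obtain ⟨k, hk'⟩ := ht x
    have h1 : (Nat.card A).Coprime (p ^ k) := Nat.Coprime.pow_right k
      ((Nat.Prime.coprime_iff_not_dvd hp).2 fun e => hE (e.trans (by
        rw [← Nat.card_eq_fintype_card]; exact A.card_subgroup_dvd_card))).symm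
    obtain ⟨m, hm⟩ := exists_nsmul_eq_self_of_coprime
      (h1.coprime_dvd_right (addOrderOf_dvd_of_nsmul_eq_zero hk'))
    exact ⟨m • x, by rwa [smul_comm]⟩
  have h1 : ∀ x : X × X, ∃ T : Finset (AddSubgroup (AddChar (Additive D) ℂ)), T.card ≤ M ∧
      (∀ L ∈ T, S.card ^ 2 * M < Nat.card L) ∧ (x.1 ∈ S → x.2 ∈ S → x.1 ≠ x.2 → ∀ d, (∀ L ∈ T, ∃ l ∈ L, l d ≠ 1) →
        ∑ l : AddChar (Additive D) ℂ, (F l x.1 x.2 : ℂ) * l d = 0) := fun x => by
    by_cases hx : x.1 ∈ S ∧ x.2 ∈ S ∧ x.1 ≠ x.2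
    · obtain ⟨m, a, c, L, h2, -, h3, h4⟩ := hS _ hx.1 _ hx.2.1 hx.2.2
      refine ⟨univ.image L, Finset.card_image_le.trans (by simpa using h2), fun L' hL' => ?_,
        fun _ _ _ d hd => ?_⟩
      · obtain ⟨i, -, rfl⟩ := Finset.mem_image.1 hL'
        exact h3 i
      · simp only [h4, Int.cast_sum, Finset.sum_mul]
        rw [Finset.sum_comm]
        refine Finset.sum_eq_zero fun i _ => ?_
        obtain ⟨l, hl, h5⟩ := hd _ (Finset.mem_image_of_mem L (Finset.mem_univ i))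
        have h6 := sum_coset (L i) (c i) d
        rw [if_neg fun h7 => h5 (h7 l hl)] at h6
        rw [← mul_zero (a i : ℂ), ← h6, Finset.mul_sum]
        refine Finset.sum_congr rfl fun l' _ => ?_
        split_ifs <;> simp
    · exact ⟨∅, Nat.zero_le _, fun _ hL => absurd hL (Finset.notMem_empty _),
        fun a b c => absurd ⟨a, b, c⟩ hx⟩
  choose T h2 h3 h4 using h1
  have := h.nontriv
  obtain ⟨d, hd, h5⟩ := kx_generic ((S ×ˢ S).biUnion T) (fun L hL => by
      obtain ⟨x, -, hx⟩ := Finset.mem_biUnion.1 hL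
      exact h3 x L hx) (by
      have h5 := Finset.card_biUnion_le_card_mul (S ×ˢ S) T M fun x _ => h2 x
      rwa [Finset.card_product, ← sq] at h5)
  refine (card_le_rank (P (-d).toMul) S (fun χ _ => h.diag _ χ) fun χ hχ ψ hψ hne => ?_).trans
    (h.rank _ fun e => hd (neg_eq_zero.1 e))
  have h6 := h4 (χ, ψ) hχ hψ hne d fun L hL =>
    h5 L (Finset.mem_biUnion.2 ⟨(χ, ψ), Finset.mem_product.2 ⟨hχ, hψ⟩, hL⟩)
  have h7 := sum_mul_neg (fun x : Additive D => (stb φ x.toMul : ℂ) * P x.toMul χ ψ) (-d)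
  have h8 : ∀ l : AddChar (Additive D) ℂ,
      ∑ x : Additive D, (stb φ x.toMul : ℂ) * P x.toMul χ ψ * l x = F l χ ψ := fun l => by
    rw [hF]
    exact Fintype.sum_equiv Additive.toMul _ _ fun x => mul_right_comm _ _ _
  simp only [neg_neg, h8] at h7
  rw [h6] at h7
  exact (mul_eq_zero.1 ((mul_eq_zero.1 h7.symm).resolve_left
    (Nat.cast_ne_zero.2 Fintype.card_ne_zero))).resolve_left (Nat.cast_ne_zero.2 (stb_pos φ _).ne')

end Pool.Agent.Lib.MP_b6945b_al.Bi
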