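import Pool.Agent.Lib.MP_b6945b_al.Kx.AUl2
import Pool.Agent.Lib.MP_b6945b_al.Kx.AFour

set_option autoImplicit false

/-!
The abstract rank bound at a fixed prime.
-/

namespace Pool.Agent.Lib.MP_b6945b_al.Bi

open Finset Filter Topology Pointwise
open scoped RealInnerProductSpace Matrix

lemma kfinal_comm (E : Type) [Group E] [Fintype E] (r b : ℕ) :
    ∃ C : ℕ, ∀ p : ℕ, p.Prime → ¬ p ∣ Fintype.card E → ∀ (D X : Type) [CommGroup D] [Fintype D]
      [Fintype X] [DecidableEq X] (φ : E →* MulAut D) (P : D → Matrix X X ℂ),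
      Nat.card {x : D // x ^ p = 1} ≤ b → MSys p r φ P → (P 1).rank ≤ C := by
  obtain ⟨M₀, hM⟩ := uniform_kstruct E (fun m => b ^ m) r
  refine ⟨2 * M₀ + 4 * M₀ ^ 3 * r, ?_⟩
  intro p hp hE D X _ _ _ _ φ P hb h
  obtain ⟨F, hF, hk⟩ := h.exists_ker
  let := dualAct φ
  obtain ⟨M, hM0, hM1⟩ := hM _ X F (h.kfax hp hF hk hE hb)
  have hd := fun d χ => afinal_diag (P d) (h.herm d) (h.idem d) χ
  have he : (0 : ℝ) < Fintype.card E := by exact_mod_cast Fintype.card_pos
  have key := kcount (A := Additive D) (M := M)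
    (fun d χ => stb φ d.toMul * (P d.toMul χ χ).re)
    (fun d χ => mul_nonneg (Nat.cast_nonneg _) (hd _ χ).2.1) F
    (fun l χ => by
      rw [hF]
      refine Fintype.sum_equiv Additive.ofMul _ _ fun d => ?_
      rw [toMul_ofMul, Complex.ofReal_mul, (hd d χ).1, Complex.ofReal_natCast]
      ring)
    (Fintype.card E) (Fintype.card E * r) (by positivity) he.le
    (fun χ => by
      rw [toMul_zero, afinal_stb_one]
      exact mul_le_of_le_one_right he.le (hd 1 χ).2.2)
    (fun d hd0 => by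
      rw [← mul_sum, afinal_sum _ (h.idem _)]
      exact_mod_cast Nat.mul_le_mul (afinal_stb_le φ _) (h.rank _ hd0))
    hM1
  rw [← mul_sum, toMul_zero, afinal_sum _ (h.idem _), afinal_stb_one] at key
  have h2 : ((P 1).rank : ℝ) ≤ 2 * M + 4 * M ^ 3 * r := by
    refine le_of_mul_le_mul_left (key.trans (le_of_eq ?_)) he
    ring
  have h3 : (P 1).rank ≤ 2 * M + 4 * M ^ 3 * r := by exact_mod_cast h2
  refine h3.trans ?_
  gcongr

theorem krank_bound (m r b : ℕ) :
    ∃ C : ℕ, ∀ p : ℕ, p.Prime → ∀ (E D X : Type) [Group E] [Fintype E] [CommGroup D]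
      [Fintype D] [Fintype X] [DecidableEq X] (φ : E →* MulAut D) (P : D → Matrix X X ℂ),
      Fintype.card E ≤ m → ¬ p ∣ Fintype.card E → Nat.card {x : D // x ^ p = 1} ≤ b →
      MSys p r φ P → (P 1).rank ≤ C := by
  classical
  choose C hC using fun (e : ℕ) (H : Subgroup (Equiv.Perm (Fin e))) =>
    @kfinal_comm H _ (Fintype.ofFinite H) r b
  refine ⟨(range (m + 1)).sup fun e => univ.sup (C e), ?_⟩
  intro p hp E D X _ _ _ _ _ _ φ P hm hE hb h
  let f : E →* Equiv.Perm (Fin (Fintype.card E)) :=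
    (Fintype.equivFin E).permCongrHom.toMonoidHom.comp (MulAction.toPermHom E E)
  have hf : Function.Injective f :=
    (Fintype.equivFin E).permCongrHom.injective.comp MulAction.toPerm_injective
  have hle : C _ f.range ≤ (range (m + 1)).sup fun e => univ.sup (C e) :=
    (le_sup (f := C _) (mem_univ _)).trans
      (le_sup (f := fun e => univ.sup (C e)) (mem_range.2 (Nat.lt_succ_of_le hm)))
  let := Fintype.ofFinite f.range
  exact (hC _ f.range p hp
    (by rwa [← Fintype.card_congr (MonoidHom.ofInjective hf).toEquiv]) D X _ P hb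
    (h.comp (MonoidHom.ofInjective hf).symm)).trans hle

end Pool.Agent.Lib.MP_b6945b_al.Bi
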