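import Pool.Agent.Lib.MP_b6945b_al.Kx.AClos
import Pool.Agent.Lib.MP_b6945b_al.Kx.AClaim

set_option autoImplicit false

/-!
The structure theorem for limit systems.
-/

namespace Pool.Agent.Lib.MP_b6945b_al.Bi

open Finset Filter Topology Pointwise
open scoped RealInnerProductSpace Matrix

namespace HSys

variable {E K X H : Type} [Group E] [Fintype E] [AddCommGroup K] [DistribMulAction E K]
  [NormedAddCommGroup H] [InnerProductSpace ℝ H] {F : K → X → X → ℤ} {S : HSys E H F}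

theorem Lat.kint_stab {r : ℕ} {Int : AddSubgroup K → Prop} (hL : KLAx E r F Int)
    {x : H} (hx : S.Lat x) : Int (S.stab x) := by
  obtain ⟨N, hN⟩ := hx.exists_nat
  have hx0 := norm_nonneg x
  have hpos : (0 : ℝ) < 1 / (4 * ‖x‖ + 4) := by positivity
  obtain ⟨m, a, lv, χ, hy⟩ := S.approx x _ hpos
  set y : H := ∑ i, a i • S.U (lv i) (S.v (χ i)) with hydef
  have hexp : ∀ l, ⟪S.U l y, y⟫ =
      ∑ i, ∑ j, a i * a j * (F (l + lv i - lv j) (χ i) (χ j) : ℝ) := fun l => by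
    rw [hydef, map_sum, sum_inner]
    refine Finset.sum_congr rfl fun i _ => ?_
    rw [inner_sum]
    refine Finset.sum_congr rfl fun j _ => ?_
    rw [map_smul, real_inner_smul_left, real_inner_smul_right, ← S.U_add, S.inner_U_U,
      S.inner_v, mul_assoc]
  have hclose : ∀ l, |⟪S.U l x, x⟫ - ⟪S.U l y, y⟫| < 1 / 2 := fun l => by
    have e1 : ⟪S.U l x, x⟫ - ⟪S.U l y, y⟫ = ⟪S.U l (x - y), x⟫ + ⟪S.U l y, x - y⟫ := by
      rw [map_sub, inner_sub_left, inner_sub_right]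
      ring
    have e2 := abs_real_inner_le_norm (S.U l (x - y)) x
    have e3 := abs_real_inner_le_norm (S.U l y) (x - y)
    rw [LinearIsometry.norm_map] at e2 e3
    have e4 : ‖y‖ ≤ ‖x‖ + ‖x - y‖ := by
      have := norm_sub_le x (x - y)
      rwa [sub_sub_cancel] at this
    have e5 := norm_nonneg (x - y)
    have e6 : ‖x - y‖ * (4 * ‖x‖ + 4) < 1 := by
      rwa [lt_div_iff₀ (by positivity)] at hy
    have e7 : ‖y‖ * ‖x - y‖ ≤ (‖x‖ + ‖x - y‖) * ‖x - y‖ := mul_le_mul_of_nonneg_right e4 e5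
    have e8 : ‖x - y‖ ≤ 1 / 4 := by nlinarith [mul_nonneg e5 hx0]
    have e9 : ‖x - y‖ * ‖x - y‖ ≤ 1 / 4 * ‖x - y‖ := mul_le_mul_of_nonneg_right e8 e5
    rw [e1]
    refine (abs_add_le _ _).trans_lt ?_
    nlinarith
  refine hL.thr (S.stab x) m a lv χ ((N : ℝ) - 1 / 2) fun l => ?_
  rw [← hexp, mem_stab]
  have hc := abs_lt.1 (hclose l)
  constructor
  · intro e
    rw [e, hN] at hc
    linarith [hc.2]
  · intro e
    obtain ⟨z, hz⟩ := (hx.U l).inner_int hx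
    have h1 : (N : ℝ) - 1 < z := by rw [hz] at hc; linarith [hc.1]
    have h2 : (N : ℤ) - 1 < z := by exact_mod_cast h1
    have h3 : (N : ℤ) ≤ z := by omega
    have h4 : (N : ℝ) ≤ z := by exact_mod_cast h3
    have h5 : ‖S.U l x - x‖ ^ 2 ≤ 0 := by
      rw [norm_sub_sq_real, LinearIsometry.norm_map, ← real_inner_self_eq_norm_sq, hN, hz]
      linarith
    have h6 : ‖S.U l x - x‖ ^ 2 = 0 := le_antisymm h5 (sq_nonneg _)
    exact sub_eq_zero.1 (norm_eq_zero.1 (pow_eq_zero_iff two_ne_zero |>.1 h6))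

end HSys

theorem KLAx.limit {E K X : Type} [Group E] [Fintype E] [AddCommGroup K]
    [DistribMulAction E K] {F : K → X → X → ℤ} {r : ℕ} {Int : AddSubgroup K → Prop}
    (h : KLAx E r F Int) :
    ∃ (X₀ : Set X) (𝓗 : Set (AddSubgroup K)), X₀.Countable ∧ 𝓗.Countable ∧
      (∀ L ∈ 𝓗, Int L ∧ hull L ≠ ⊤) ∧
      ∀ ψ, ψ ∉ X₀ → ∃ (𝓛 : Finset (AddSubgroup K)) (M : ℕ), (∀ L ∈ 𝓛, L ∈ 𝓗) ∧
        (∀ L ∈ 𝓛, ∀ L' ∈ 𝓛, hull L = hull L' → L = L') ∧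
        Rep (fun L => L ∈ 𝓛) M (fun l => F l ψ ψ) := by
  classical
  obtain ⟨H, _, _, _, ⟨S⟩⟩ := h.ker.exists_hsys
  have hint : ∀ x, S.Lat x → Int (S.stab x) := fun x hx => hx.kint_stab h
  have hf : S.KFin := fun x y hx hy e => by
    obtain ⟨m, h1, h2⟩ := h.sat _ _ (hint x hx) (hint y hy) e
    exact (h.quo _ (hint x hx)).cov h1 h2
  obtain ⟨c, T, hs⟩ := HSys.exists_kstrat hf
  have hr : ∀ A : Finset X, (∀ χ ∈ A, ∀ ψ ∈ A, χ ≠ ψ →
      ∀ l, ⟪S.U l (c χ (hull ⊥)), c ψ (hull ⊥)⟫ = 0) → A.card ≤ r := by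
    intro A hA
    have h1 : ∀ χ ψ, ∃ M, χ ∈ A → ψ ∈ A → χ ≠ ψ →
        Rep (fun L => Int L ∧ ¬ L ≤ hull ⊥) M (fun l => F l χ ψ) := by
      intro χ ψ
      by_cases e : χ ∈ A ∧ ψ ∈ A ∧ χ ≠ ψ
      · obtain ⟨M, hM⟩ := hs.rep χ ψ (fun L => Int L ∧ ¬ L ≤ hull ⊥) fun L hL ⟨l, hl⟩ =>
          ⟨hint _ (hs.lat χ L), fun e' => hl (by
            have e'' : L = hull ⊥ := (hs.good hL).symm.trans
              (le_antisymm (hull_le_of_le e') (hull_mono bot_le))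
            subst e''
            exact hA χ e.1 ψ e.2.1 e.2.2 l)⟩
        exact ⟨M, fun _ _ _ => hM⟩
      · exact ⟨0, fun h1 h2 h3 => absurd ⟨h1, h2, h3⟩ e⟩
    choose M hM using h1
    refine h.orth A ((A ×ˢ A).sup fun q => M q.1 q.2) fun χ hχ ψ hψ hne =>
      (hM χ ψ hχ hψ hne).mono (fun _ hL => hL) ?_
    exact Finset.le_sup (f := fun q : X × X => M q.1 q.2) (b := (χ, ψ))
      (Finset.mem_product.2 ⟨hχ, hψ⟩)
  obtain ⟨X₀, K₀, hX, hc⟩ := HSys.exists_kclosed h.ker hs h.tor h.top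
    (fun x hx => h.quo _ (hint x hx)) hr
  refine ⟨X₀, {L | hull L ≠ ⊤} ∩ ⋃ χ ∈ X₀, ⋃ Λ ∈ (T χ : Set (AddSubgroup K)),
    {L | Int L ∧ hull L = Λ}, hX, (hX.biUnion fun χ _ => (T χ).countable_toSet.biUnion
      fun Λ _ => countable_class h.tor h.quo h.sat Λ).mono Set.inter_subset_right, ?_,
    fun ψ hψ => ?_⟩
  · intro L hL
    obtain ⟨χ, _, hχ⟩ := Set.mem_iUnion₂.1 hL.2
    obtain ⟨Λ, _, hΛ⟩ := Set.mem_iUnion₂.1 hχ
    exact ⟨hΛ.1, hL.1⟩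
  · obtain ⟨M, hM⟩ := hs.rep ψ ψ (fun L => L ∈ (T ψ).image fun Λ => S.stab (c ψ Λ))
      fun L hL _ => mem_image_of_mem _ hL
    refine ⟨_, M, fun L hL => ?_, fun L hL L' hL' e => ?_, hM⟩
    · obtain ⟨Λ, h1, rfl⟩ := mem_image.1 hL
      have h0 := hs.ne ψ Λ h1
      refine ⟨fun e => h0 (HSys.kclaimA h.ker h.div hs hc hψ
        (Or.inl ((hs.good h1).symm.trans e))), ?_⟩
      by_contra hn
      exact h0 (HSys.kclaimA h.ker h.div hs hc hψ (Or.inr fun χ hχ hT => hn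
        (Set.mem_iUnion₂.2 ⟨χ, hχ, Set.mem_iUnion₂.2 ⟨Λ, hT, hint _ (hs.lat ψ Λ), hs.good h1⟩⟩)))
    · obtain ⟨Λ, h1, rfl⟩ := mem_image.1 hL
      obtain ⟨Λ', h2, rfl⟩ := mem_image.1 hL'
      rw [hs.good h1, hs.good h2] at e
      rw [e]

end Pool.Agent.Lib.MP_b6945b_al.Bi
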