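import Pool.Agent.Lib.MP_b6945b_al.Kx.ABasic

set_option autoImplicit false

/-!
Points of least norm, through the rational quotient.
-/

namespace Pool.Agent.Lib.MP_b6945b_al.Bi

open Finset Filter Topology Pointwise
open scoped RealInnerProductSpace Matrix

theorem kx_min {E K : Type} [Group E] [Fintype E] [AddCommGroup K] [DistribMulAction E K]
    (K₀ : AddSubgroup K) (hp : ZPure K₀) (hd : ∀ m : ℕ, m ≠ 0 → ∀ x : K, ∃ y, x - m • y ∈ K₀)
    (hi : ∀ g : E, ∀ l ∈ K₀, g • l ∈ K₀)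
    (hdiv : ∀ (A : Subgroup E) (x : K), ∃ y, Nat.card A • y = x)
    (Pos : AddSubgroup K → K → Prop) (hpure : ∀ L l, Pos L l → ZPure (K₀ ⊔ L))
    (hT : ∀ L l l', Pos L l → l' - l ∈ K₀ ⊔ L → Pos L l')
    (hfin : ∃ J : Finset (AddSubgroup K × K), ∀ L l, Pos L l →
      ∃ j ∈ J, j.1 = L ∧ l - j.2 ∈ K₀ ⊔ L)
    (hne : ∃ L l, Pos L l) :
    ∃ (l₀ : K) (A : Subgroup E), (∀ h ∈ A, h • l₀ = l₀) ∧ (∃ L, Pos L l₀) ∧
      ∀ g, g ∉ A → ∀ L, Pos L l₀ → g • l₀ - l₀ ∉ K₀ ⊔ L := by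
  classical
  have hS := QuotientAddGroup.mk'_surjective K₀
  have hN : ∀ l, QuotientAddGroup.mk' K₀ l = 0 ↔ l ∈ K₀ := fun l => QuotientAddGroup.eq_zero_iff l
  let T : E → (K ⧸ K₀) →+ (K ⧸ K₀) := fun g =>
    QuotientAddGroup.map K₀ K₀ (DistribSMul.toAddMonoidHom _ g) fun l hl => hi g l hl
  have hT' : ∀ g l, T g (QuotientAddGroup.mk' K₀ l) = QuotientAddGroup.mk' K₀ (g • l) :=
    fun _ _ => rfl
  let act : DistribMulAction E (K ⧸ K₀) :=
    { smul := fun g x => T g x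
      one_smul := fun x => by
        obtain ⟨l, rfl⟩ := hS x
        exact (hT' 1 l).trans (by rw [one_smul])
      mul_smul := fun g g' x => by
        obtain ⟨l, rfl⟩ := hS x
        exact (hT' _ l).trans (by rw [mul_smul]; rfl)
      smul_zero := fun g => (T g).map_zero
      smul_add := fun g => (T g).map_add }
  have hs : ∀ (g : E) l, g • QuotientAddGroup.mk' K₀ l = QuotientAddGroup.mk' K₀ (g • l) := hT'
  obtain ⟨mod⟩ := nonempty_module_rat (K ⧸ K₀) fun m hm => by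
    constructor
    · refine (injective_iff_map_eq_zero (nsmulAddMonoidHom (α := K ⧸ K₀) m)).2 fun x hx => ?_
      obtain ⟨l, rfl⟩ := hS x
      rw [nsmulAddMonoidHom_apply, ← map_nsmul, hN] at hx
      exact (hN l).2 (hp m hm l hx)
    · intro x
      obtain ⟨l, rfl⟩ := hS x
      obtain ⟨y, hy⟩ := hd m hm l
      refine ⟨QuotientAddGroup.mk' K₀ y, ?_⟩
      change m • QuotientAddGroup.mk' K₀ y = _
      rw [← map_nsmul, eq_comm, ← sub_eq_zero, ← map_sub, hN]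
      exact hy
  obtain ⟨π, hπ⟩ : ∃ π, π = QuotientAddGroup.mk' K₀ := ⟨_, rfl⟩
  rw [← hπ] at hS hN hs
  have hm : ∀ (L : AddSubgroup K) x, π x ∈ L.map π ↔ x ∈ K₀ ⊔ L := fun L x => by
    constructor
    · rintro ⟨y, hy, e⟩
      rw [← sub_add_cancel x y]
      exact AddSubgroup.add_mem_sup ((hN _).1 (by rw [map_sub, e, sub_self])) hy
    · intro hx
      obtain ⟨a, ha, b, hb, rfl⟩ := AddSubgroup.mem_sup.1 hx
      exact ⟨b, hb, by rw [map_add, (hN a).2 ha, zero_add]⟩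
  obtain ⟨v, A, hA, ⟨_, L₁, l₁, -, rfl, hP⟩, hg⟩ := exists_min (E := E) (⊥ : AddSubgroup (K ⧸ K₀))
    (fun q x hx => by rw [AddSubgroup.mem_bot.1 hx, smul_zero]; exact zero_mem _)
    (fun g x hx => by rw [AddSubgroup.mem_bot.1 hx, smul_zero]; exact zero_mem _)
    (fun L' v => ∃ L l, L' = L.map π ∧ v = π l ∧ Pos L l)
    (by
      rintro _ _ ⟨L, l, rfl, rfl, hP⟩ q x hx
      obtain ⟨y, hy⟩ := hS (q • x)
      obtain ⟨x, rfl⟩ := hS x
      rw [← hy, hm]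
      refine hpure L l hP q.den q.den_nz y ?_
      rw [← hm, map_nsmul, hy, ← Nat.cast_smul_eq_nsmul ℚ, smul_smul, Rat.den_mul_eq_num,
        Int.cast_smul_eq_zsmul]
      exact zsmul_mem hx _)
    (by
      rintro _ _ v' ⟨L, l, rfl, rfl, hP⟩ hv
      obtain ⟨l', rfl⟩ := hS v'
      rw [bot_sup_eq, ← map_sub, hm] at hv
      exact ⟨L, l', rfl, rfl, hT L l l' hP hv⟩)
    (by
      obtain ⟨J, hJ⟩ := hfin
      refine ⟨J.image fun j => (j.1.map π, π j.2), ?_⟩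
      rintro _ _ ⟨L, l, rfl, rfl, hP⟩
      obtain ⟨j, h1, rfl, h2⟩ := hJ L l hP
      exact ⟨_, mem_image_of_mem _ h1, rfl, by rwa [bot_sup_eq, ← map_sub, hm]⟩)
    (by
      obtain ⟨L, l, hP⟩ := hne
      exact ⟨_, _, L, l, rfl, rfl, hP⟩)
  obtain ⟨y, rfl⟩ := hdiv A l₁
  have : Fintype A := Fintype.ofFinite A
  have h1 : ∀ h : A, (h : E) • y - y ∈ K₀ := fun h => hp _ (Nat.card_pos (α := A)).ne' _ (by
    rw [smul_sub, smul_comm, ← hN, map_sub, ← hs, hA h h.2, sub_self])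
  have h2 : ∑ h : A, (h : E) • y - Nat.card A • y ∈ K₀ := by
    rw [Nat.card_eq_fintype_card, ← card_univ, ← sum_const, ← sum_sub_distrib]
    exact K₀.sum_mem fun h _ => h1 h
  have h3 : π (∑ h : A, (h : E) • y) = π (Nat.card A • y) := by
    rw [← sub_eq_zero, ← map_sub, hN]
    exact h2
  refine ⟨∑ h : A, (h : E) • y, A, fun g hg => ?_,
    ⟨L₁, hT _ _ _ hP (AddSubgroup.mem_sup_left h2)⟩, fun g hgA L hL e => ?_⟩
  · rw [smul_sum]
    exact Fintype.sum_equiv (Equiv.mulLeft (⟨g, hg⟩ : A)) _ _ fun h => (mul_smul g h y).symm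
  · refine hg g hgA _ ⟨L, _, rfl, h3.symm, hL⟩ ?_
    rwa [bot_sup_eq, ← h3, hs, ← map_sub, hm]

end Pool.Agent.Lib.MP_b6945b_al.Bi
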