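import Pool.Agent.Lib.MP_b6945b_al.Kx.AStrat
import Pool.Agent.Lib.MP_b6945b_al.Kx.AMin

set_option autoImplicit false

/-!
Positions of a nonstandard vector.
-/

namespace Pool.Agent.Lib.MP_b6945b_al.Bi

open Finset Filter Topology Pointwise
open scoped RealInnerProductSpace Matrix

namespace HSys

variable {E K X H : Type} [Group E] [Fintype E] [AddCommGroup K] [DistribMulAction E K]
  [NormedAddCommGroup H] [InnerProductSpace ℝ H] {F : K → X → X → ℤ} {S : HSys E H F}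
  {c : X → AddSubgroup K → H} {T : X → Finset (AddSubgroup K)} {X₀ : Set X} {K₀ : AddSubgroup K}

lemma Pos.kmem (h : S.KStrat c T) {ψ : X} {L : AddSubgroup K} {l : K}
    (hP : S.Pos c X₀ K₀ ψ L l) : L ∈ T ψ ∧ ∃ χ ∈ X₀, L ∈ T χ := by
  obtain ⟨χ, hχ, κ, -, hne⟩ := hP
  rw [h.inner_v] at hne
  refine ⟨h.mem_of_ne fun e => hne ?_, χ, hχ, h.mem_of_ne fun e => hne ?_⟩
  · rw [e, inner_zero_right]
  · rw [e, map_zero, inner_zero_left]

lemma Pos.kshift (h : S.KStrat c T) (hc : S.KClosed c T X₀ K₀) {ψ : X} {L : AddSubgroup K}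
    {l l' : K} (hP : S.Pos c X₀ K₀ ψ L l) (hl : l' - l ∈ K₀ ⊔ L) : S.Pos c X₀ K₀ ψ L l' := by
  obtain ⟨χ, hχ, κ, hκ, hne⟩ := hP
  have hL : L ∈ T χ := h.mem_of_ne fun e => hne (by rw [e, map_zero, inner_zero_left])
  obtain ⟨a, ha, b, hb, hab⟩ :=
    AddSubgroup.mem_sup.1 (sup_le le_sup_left (hc.c6 χ hχ L hL) hl)
  refine ⟨χ, hχ, κ - a, K₀.sub_mem hκ ha, ?_⟩
  have e : l' + (κ - a) = l + κ + b := by
    rw [eq_add_of_sub_eq hab.symm]; abel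
  rwa [e, S.U_add, S.mem_stab.1 hb]

lemma Pos.knotMem (h : S.KStrat c T) (hc : S.KClosed c T X₀ K₀) {ψ : X} (hψ : ψ ∉ X₀)
    {L : AddSubgroup K} {l : K} (hP : S.Pos c X₀ K₀ ψ L l) : l ∉ K₀ ⊔ L := by
  intro hl
  obtain ⟨χ, hχ, κ, hκ, hne⟩ := hP.kshift h hc (l' := 0) (by
    rw [zero_sub]; exact (K₀ ⊔ L).neg_mem hl)
  rw [zero_add] at hne
  exact hψ (hc.c1 κ hκ χ hχ L ψ hne)

lemma kpos_card (hk : Ker E F) (h : S.KStrat c T) (hc : S.KClosed c T X₀ K₀) (ψ : X)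
    (L : AddSubgroup K) (s : Finset K) (h1 : ∀ l ∈ s, S.Pos c X₀ K₀ ψ L l)
    (h2 : ∀ l ∈ s, ∀ l' ∈ s, l ≠ l' → l - l' ∉ K₀ ⊔ L) :
    s.card ≤ Fintype.card E * Fintype.card E := by
  have : Nonempty X := ⟨ψ⟩
  choose! χ hχ κ hκ hne using h1
  have := bessel_count s (fun l => S.U (l + κ l) (c (χ l) L)) (S.v ψ) (Fintype.card E)
    (Fintype.card E) (Nat.cast_nonneg _)
    (fun l _ => by rw [LinearIsometry.inner_map_map]; exact h.norm_le hk _ _)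
    (S.inner_vv hk ψ).le
    (fun l hl l' hl' hll => by
      by_contra e
      rw [S.inner_U_U] at e
      have h3 := hc.c2 _ (hχ l hl) _ (hχ l' hl') L _ e
      have h4 : κ l - κ l' ∈ K₀ ⊔ L :=
        AddSubgroup.mem_sup_left (K₀.sub_mem (hκ l hl) (hκ l' hl'))
      refine h2 l hl l' hl' hll ?_
      have h5 := (K₀ ⊔ L).sub_mem h3 h4
      rwa [add_sub_add_comm, add_sub_cancel_right] at h5)
    (fun l hl => ((h.lat _ _).U _).one_le_abs (Lat.v ψ) (hne l hl))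
  exact_mod_cast this

lemma kpos_cover (hk : Ker E F) (h : S.KStrat c T) (hc : S.KClosed c T X₀ K₀) (ψ : X)
    (L : AddSubgroup K) :
    ∃ J : Finset K, ∀ l, S.Pos c X₀ K₀ ψ L l → ∃ j ∈ J, l - j ∈ K₀ ⊔ L := by
  classical
  by_contra hn
  push Not at hn
  have key : ∀ n : ℕ, ∃ s : Finset K, s.card = n ∧ (∀ l ∈ s, S.Pos c X₀ K₀ ψ L l) ∧
      ∀ l ∈ s, ∀ l' ∈ s, l ≠ l' → l - l' ∉ K₀ ⊔ L := by
    intro n
    induction n with
    | zero => exact ⟨∅, rfl, by simp, by simp⟩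
    | succ n ih =>
      obtain ⟨s, hs, h1, h2⟩ := ih
      obtain ⟨a, ha, ha'⟩ := hn s
      have hna : a ∉ s := fun e => ha' a e (by rw [sub_self]; exact zero_mem _)
      refine ⟨insert a s, by rw [Finset.card_insert_of_notMem hna, hs], ?_, ?_⟩
      · intro l hl
        rcases Finset.mem_insert.1 hl with rfl | hl
        exacts [ha, h1 l hl]
      · intro l hl l' hl' hll
        rcases Finset.mem_insert.1 hl with rfl | hm <;>
          rcases Finset.mem_insert.1 hl' with rfl | hm'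
        · exact absurd rfl hll
        · exact ha' l' hm'
        · intro e
          exact ha' l hm (by rw [← neg_sub]; exact neg_mem e)
        · exact h2 l hm l' hm' hll
  obtain ⟨s, hs, h1, h2⟩ := key (Fintype.card E * Fintype.card E + 1)
  have := kpos_card hk h hc ψ L s h1 h2
  omega

/-- For fixed `L`, positions `l i` that are pairwise incongruent modulo `K₀ ⊔ L` give pairwise
orthogonal (`c2`) vectors `U (l i + κ i) (c (χ i) L)` of square norm `≤ e` with integer nonzero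
inner product with `v ψ`, so there are at most `e²` (`bessel_count`); take a family of maximal
cardinality for each `L ∈ T ψ`. -/
lemma kpos_finite (hk : Ker E F) (h : S.KStrat c T) (hc : S.KClosed c T X₀ K₀) (ψ : X) :
    ∃ J : Finset (AddSubgroup K × K), ∀ L l, S.Pos c X₀ K₀ ψ L l →
      ∃ j ∈ J, j.1 = L ∧ l - j.2 ∈ K₀ ⊔ L := by
  classical
  choose J hJ using kpos_cover hk h hc ψ
  refine ⟨(T ψ).biUnion fun L => (J L).image fun l => (L, l), fun L l hP => ?_⟩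
  obtain ⟨j, hj, hl⟩ := hJ L l hP
  exact ⟨(L, j), Finset.mem_biUnion.2 ⟨L, (hP.kmem h).1, Finset.mem_image_of_mem _ hj⟩, rfl, hl⟩

theorem exists_kpoint (hk : Ker E F)
    (hdiv : ∀ (A : Subgroup E) (x : K), ∃ y, Nat.card A • y = x) (h : S.KStrat c T)
    (hc : S.KClosed c T X₀ K₀) {ψ : X} (hψ : ψ ∉ X₀) :
    ∃ (l₀ p₀ : K) (A : Subgroup E), (∀ g ∈ A, g • l₀ = l₀) ∧ (∀ g ∈ A, g • p₀ = p₀) ∧ p₀ ∈ K₀ ∧
      (∃ L, S.Pos c X₀ K₀ ψ L l₀) ∧
      ∀ g, g ∉ A → ∀ L, S.Pos c X₀ K₀ ψ L l₀ → g • l₀ - l₀ ∉ K₀ ⊔ L ∧ p₀ - g • p₀ ∉ L := by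
  classical
  obtain ⟨l₀, A, hA, hex, hg⟩ := kx_min K₀ hc.pure hc.dv hc.inv hdiv (S.Pos c X₀ K₀ ψ)
    (fun L l hP => by
      obtain ⟨χ, h1, h2⟩ := (hP.kmem h).2
      exact hc.c7 χ h1 L h2)
    (fun L l l' hP hl => hP.kshift h hc hl) (kpos_finite hk h hc ψ) (by
      obtain ⟨χ, hχ, l, hl⟩ := hc.c4 ψ hψ
      exact ⟨_, l, χ, hχ, 0, K₀.zero_mem, by rwa [add_zero]⟩)
  let Y : AddSubgroup K :=
    { carrier := {p | p ∈ K₀ ∧ ∀ g ∈ A, g • p = p}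
      add_mem' := fun ha hb => ⟨K₀.add_mem ha.1 hb.1, fun g hgA => by
        rw [smul_add, ha.2 g hgA, hb.2 g hgA]⟩
      zero_mem' := ⟨K₀.zero_mem, fun g _ => smul_zero g⟩
      neg_mem' := fun hx => ⟨K₀.neg_mem hx.1, fun g hgA => by rw [smul_neg, hx.2 g hgA]⟩ }
  obtain ⟨p₀, h1, h2⟩ := exists_avoid Y
    (((univ : Finset E) ×ˢ T ψ).filter fun t => t.1 ∉ A ∧ S.Pos c X₀ K₀ ψ t.2 l₀)
    (fun t => AddMonoidHom.id K - DistribSMul.toAddMonoidHom K t.1) (fun t => t.2)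
    (fun t ht => h.pure ψ _ ((mem_filter.1 ht).2.2.kmem h).1) (by
      rintro ⟨g, L⟩ ht
      obtain ⟨hgA, hP⟩ := (mem_filter.1 ht).2
      obtain ⟨χ, hχ, hL⟩ := (hP.kmem h).2
      obtain ⟨l, hl, hlA, hlL⟩ := hc.c5 χ hχ L hL A g ⟨l₀, hA, fun hm => hg g hgA L hP (by
        rw [← neg_sub]
        exact (K₀ ⊔ L).neg_mem (AddSubgroup.mem_sup_right hm))⟩
      exact ⟨l, ⟨hl, hlA⟩, hlL⟩)
  exact ⟨l₀, p₀, A, hA, h1.2, h1.1, hex, fun g hgA L hP => ⟨hg g hgA L hP,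
    h2 (g, L) (mem_filter.2 ⟨mem_product.2 ⟨mem_univ _, (hP.kmem h).1⟩, hgA, hP⟩)⟩⟩

end HSys

end Pool.Agent.Lib.MP_b6945b_al.Bi
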