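import Pool.Agent.Lib.MP_b6945b_al.Bi.ADefs

set_option autoImplicit false

/-!
Systems of projections without a rank condition.
-/

namespace Pool.Agent.Lib.MP_b6945b_al.Kx

open Bi Finset
open scoped Matrix

/-- The number of elements killed by `p`. -/
noncomputable def om1 (p : ℕ) (D : Type) [Group D] : ℕ := Nat.card {x : D // x ^ p = 1}

/-- `MSys` without `nontriv` and `rank`. -/
structure MS0 (p : ℕ) {E D X : Type} [Group E] [Fintype E] [Group D] [Fintype D] [Fintype X]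
    [DecidableEq X] (φ : E →* MulAut D) (P : D → Matrix X X ℂ) : Prop where
  comm : ∀ a b : D, a * b = b * a
  pD : IsPGroup p D
  herm : ∀ d, (P d)ᴴ = P d
  idem : ∀ d, P d * P d = P d
  orth : ∀ d d', (∀ g, φ g d ≠ d') → P d * P d' = 0
  inv : ∀ g d, P (φ g d) = P d
  sum : ∑ d, (stb φ d : ℂ) • P d = (Fintype.card E : ℂ) • (1 : Matrix X X ℂ)
  int : ∀ (m : ℕ) (lam : Fin m → D →* ℂ), (∀ g d, ∑ i, lam i (φ g d) = ∑ i, lam i d) →
    ∀ χ ψ, ∃ z : ℤ, ∑ d, (stb φ d : ℂ) * (∑ i, lam i d) * P d χ ψ = Fintype.card E * z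
  diag : ∀ d χ, P d χ χ ≠ 0

end Pool.Agent.Lib.MP_b6945b_al.Kx
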