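import Pool.Agent.Lib.MP_b6945b_al.Bi.AFinal
import Pool.Agent.Lib.MP_b6945b_al.Kx.Defs0

set_option autoImplicit false

/-!
The operators attached to invariant functions; invariant linear characters act freely.
-/

namespace Pool.Agent.Lib.MP_b6945b_al.Kx

open Bi Finset
open scoped Matrix

variable {p : ℕ} {E D X : Type} [Group E] [Fintype E] [Group D] [Fintype D] [Fintype X]
  [DecidableEq X] {φ : E →* MulAut D} {P : D → Matrix X X ℂ}

/-- The operator attached to a function on `D`. -/
noncomputable def opr (φ : E →* MulAut D) (P : D → Matrix X X ℂ) (f : D → ℂ) : Matrix X X ℂ :=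
  (Fintype.card E : ℂ)⁻¹ • ∑ d, ((stb φ d : ℂ) * f d) • P d

omit [Fintype X] [DecidableEq X] in
lemma opr_apply (f : D → ℂ) (χ ψ : X) :
    opr φ P f χ ψ = (Fintype.card E : ℂ)⁻¹ * ∑ d, (stb φ d : ℂ) * f d * P d χ ψ := by
  simp only [opr, Matrix.smul_apply, Matrix.sum_apply, smul_eq_mul]

lemma card_ne (E : Type) [Group E] [Fintype E] : (Fintype.card E : ℂ) ≠ 0 :=
  Nat.cast_ne_zero.2 Fintype.card_ne_zero

lemma MS0.fiber (h : MS0 p φ P) (f : D → ℂ) (d : D) :
    ∑ d', ((stb φ d' : ℂ) * f d') • (P d * P d') = (∑ g, f (φ g d)) • P d := by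
  classical
  rw [Finset.sum_smul, ← Finset.sum_fiberwise Finset.univ fun g => φ g d]
  refine Finset.sum_congr rfl fun d' _ => ?_
  by_cases e : ∃ g, φ g d = d'
  · obtain ⟨g0, rfl⟩ := e
    rw [Finset.sum_congr rfl fun g hg => by rw [(Finset.mem_filter.1 hg).2], Finset.sum_const,
      h.inv, h.idem, mul_smul, Nat.cast_smul_eq_nsmul]
    congr 1
    rw [← Fintype.card_subtype, ← Nat.card_eq_fintype_card]
    refine Nat.card_congr (Equiv.subtypeEquiv (Equiv.mulRight g0) fun x => ?_)
    rw [Equiv.coe_mulRight, map_mul, MulAut.mul_apply]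
  · rw [h.orth d d' fun g hg => e ⟨g, hg⟩, smul_zero]
    exact (Finset.sum_eq_zero fun g hg => absurd ⟨g, (Finset.mem_filter.1 hg).2⟩ e).symm

lemma MS0.mul_opr (h : MS0 p φ P) {f : D → ℂ} (hf : ∀ g d, f (φ g d) = f d) (d : D) :
    P d * opr φ P f = f d • P d := by
  rw [opr, Matrix.mul_smul, Matrix.mul_sum]
  simp only [Matrix.mul_smul]
  rw [h.fiber]
  simp only [hf]
  rw [sum_const, card_univ, nsmul_eq_mul, smul_smul, inv_mul_cancel_left₀ (card_ne E)]

lemma MS0.opr_star (h : MS0 p φ P) (f : D → ℂ) :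
    (opr φ P f)ᴴ = opr φ P fun d => star (f d) := by
  simp only [opr, Matrix.conjTranspose_smul, Matrix.conjTranspose_sum, h.herm, star_mul',
    star_natCast, star_inv₀]

lemma MS0.opr_mul (h : MS0 p φ P) {f : D → ℂ} (hf : ∀ g d, f (φ g d) = f d) (d : D) :
    opr φ P f * P d = f d • P d := by
  have h1 := congrArg Matrix.conjTranspose
    (h.mul_opr (f := fun d => star (f d)) (fun g d => by rw [hf]) d)
  simpa only [Matrix.conjTranspose_mul, h.opr_star, star_star, h.herm,
    Matrix.conjTranspose_smul] using h1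

lemma MS0.opr_opr (h : MS0 p φ P) (f : D → ℂ) {f' : D → ℂ} (hf : ∀ g d, f' (φ g d) = f' d) :
    opr φ P f * opr φ P f' = opr φ P fun d => f d * f' d := by
  have h1 := h.mul_opr hf
  generalize opr φ P f' = B at h1
  rw [opr, Matrix.smul_mul, Matrix.sum_mul, opr]
  simp only [Matrix.smul_mul, h1, smul_smul, mul_assoc]

lemma MS0.opr_one (h : MS0 p φ P) : opr φ P (fun _ => 1) = 1 := by
  simp only [opr, mul_one, h.sum, smul_smul, inv_mul_cancel₀ (card_ne E), one_smul]

lemma MS0.opr_int (h : MS0 p φ P) {ι : Type} [Fintype ι] (lam : ι → D →* ℂ)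
    (hl : ∀ g d, ∑ i, lam i (φ g d) = ∑ i, lam i d) (χ ψ : X) :
    ∃ z : ℤ, opr φ P (fun d => ∑ i, lam i d) χ ψ = z := by
  let e := (Fintype.equivFin ι).symm
  obtain ⟨z, hz⟩ := h.int _ (fun i => lam (e i)) (fun g d => by
    rw [e.sum_comp fun q => lam q (φ g d), e.sum_comp fun q => lam q d, hl]) χ ψ
  refine ⟨z, ?_⟩
  simp only [fun d => e.sum_comp fun q => lam q d] at hz
  rw [opr_apply, hz, inv_mul_cancel_left₀ (card_ne E)]

lemma MS0.free (h : MS0 p φ P) (lam : D →* ℂ) (hl : ∀ g d, lam (φ g d) = lam d)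
    (h1 : ∃ d, lam d ≠ 1) (χ : X) : opr φ P lam χ χ = 0 := by
  choose z hz using fun ψ => h.opr_int (fun _ : Unit => lam) (fun g d => by simp only [hl]) χ ψ
  simp only [univ_unique, sum_singleton] at hz
  have h2 : ∀ d, lam d * star (lam d) = 1 := fun d => by
    have h3 : ‖lam d‖ = 1 := Complex.norm_eq_one_of_pow_eq_one
      (by rw [← map_pow, pow_card_eq_one, map_one]) (Fintype.card_ne_zero (α := D))
    rw [Complex.star_def, Complex.mul_conj', h3]
    simp
  have h3 := h.opr_opr lam (f' := fun d => star (lam d)) fun g d => by rw [hl]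
  simp only [h2, h.opr_one, ← h.opr_star] at h3
  have h4 := congrFun (congrFun h3 χ) χ
  simp only [Matrix.mul_apply, Matrix.conjTranspose_apply, Matrix.one_apply_eq] at h4
  have hz' : ∀ ψ, opr φ P lam χ ψ = z ψ := hz
  simp only [hz', star_intCast] at h4
  have h5 : ∑ ψ, z ψ * z ψ = 1 := by exact_mod_cast h4
  by_contra h0
  have h6 : z χ ≠ 0 := fun e => h0 (by rw [hz', e, Int.cast_zero])
  have h7 : ∀ ψ, ψ ≠ χ → z ψ = 0 := fun ψ hψ => by
    have h8 := sum_le_sum_of_subset_of_nonneg (subset_univ {χ, ψ})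
      fun x _ _ => mul_self_nonneg (z x)
    rw [sum_pair hψ.symm, h5] at h8
    have h9 := mul_self_pos.2 h6
    exact mul_self_eq_zero.1 (le_antisymm (by omega) (mul_self_nonneg _))
  have h8 : ∀ d, lam d = z χ := fun d => by
    have h9 := congrFun (congrFun (h.opr_mul hl d) χ) χ
    rw [Matrix.mul_apply, sum_eq_single χ (fun ψ _ e => by rw [hz', h7 ψ e, Int.cast_zero, zero_mul])
      fun e => absurd (mem_univ χ) e, hz', Matrix.smul_apply, smul_eq_mul] at h9
    exact (mul_right_cancel₀ (h.diag d χ) h9).symm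
  obtain ⟨d, hd⟩ := h1
  exact hd (by rw [h8 d, ← h8 1, map_one])

/-- A character of a quotient. -/
def chr {Q : Type} [CommGroup Q] (π : D →* Q) (l : AddChar (Additive Q) ℂ) : D →* ℂ where
  toFun d := l (Additive.ofMul (π d))
  map_one' := by rw [map_one, ofMul_one, AddChar.map_zero_eq_one]
  map_mul' a b := by rw [map_mul, ofMul_mul, AddChar.map_add_eq_mul]

omit [Fintype D] in
open Classical in
lemma sum_chr {Q : Type} [CommGroup Q] [Fintype Q] (π : D →* Q) (q : Q) (d : D) :
    ∑ l, chr π l d * l (-Additive.ofMul q) = if π d = q then (Fintype.card Q : ℂ) else 0 := by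
  change ∑ l : AddChar (Additive Q) ℂ, l (Additive.ofMul (π d)) * l (-Additive.ofMul q) = _
  simp only [← AddChar.map_add_eq_mul, AddChar.sum_apply_eq_ite, add_neg_eq_zero,
    EmbeddingLike.apply_eq_iff_eq, Fintype.card_additive]

open Classical in
lemma MS0.diag_fibre (h : MS0 p φ P) {Q : Type} [CommGroup Q] [Fintype Q] (π : D →* Q)
    (hs : Function.Surjective π) (hi : ∀ g d, π (φ g d) = π d) (q : Q) (χ : X) :
    opr φ P (fun d => if π d = q then (Fintype.card Q : ℂ) else 0) χ χ = 1 := by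
  have h1 : opr φ P (fun d => if π d = q then (Fintype.card Q : ℂ) else 0) χ χ =
      ∑ l, opr φ P (chr π l) χ χ * l (-Additive.ofMul q) := by
    simp only [← sum_chr, opr_apply, mul_sum, sum_mul]
    rw [sum_comm]
    exact sum_congr rfl fun l _ => sum_congr rfl fun d _ => by ring
  rw [h1, sum_eq_single 0 (fun l _ e => ?_) fun e => absurd (mem_univ _) e, AddChar.zero_apply,
    mul_one]
  · exact (congrFun (congrFun h.opr_one χ) χ).trans (Matrix.one_apply_eq χ)
  · rw [h.free (chr π l) (fun g d => congrArg (fun x => l (Additive.ofMul x)) (hi g d)) ?_, zero_mul]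
    by_contra k
    push Not at k
    refine e (AddChar.ext _ _ fun a => ?_)
    obtain ⟨d, hd⟩ := hs a.toMul
    have := k d
    change l (Additive.ofMul (π d)) = 1 at this
    rwa [hd] at this

theorem rank_eq_of_trivial {p : ℕ} (_hp : p.Prime) {E D X : Type} [Group E] [Fintype E] [iD : Group D]
    [Fintype D] [Fintype X] [DecidableEq X] {φ : E →* MulAut D} {P : D → Matrix X X ℂ}
    (h : MS0 p φ P) (ht : ∀ g d, φ g d = d) (d : D) : (P d).rank = (P 1).rank := by
  classical
  let : CommGroup D := { iD with mul_comm := h.comm }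
  have h1 : ∀ d χ, P d χ χ = (Fintype.card D : ℂ)⁻¹ := fun d χ => by
    have h2 := h.diag_fibre (MonoidHom.id D) Function.surjective_id ht d χ
    have h3 : stb φ d = Fintype.card E := by
      rw [← Nat.card_eq_fintype_card]
      exact Nat.card_congr (Equiv.subtypeUnivEquiv fun g => ht g d)
    simp only [MonoidHom.id_apply] at h2
    rw [opr_apply, sum_eq_single d (fun x _ e => by rw [if_neg e, mul_zero, zero_mul])
      fun e => absurd (mem_univ _) e, if_pos rfl, h3, mul_assoc,
      inv_mul_cancel_left₀ (card_ne E)] at h2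
    exact eq_inv_of_mul_eq_one_right h2
  have h2 : ((P d).rank : ℂ) = (P 1).rank := by
    rw [← trace_eq_rank _ (h.idem d), ← trace_eq_rank _ (h.idem 1)]
    simp only [Matrix.trace, Matrix.diag_apply, h1]
  exact_mod_cast h2

end Pool.Agent.Lib.MP_b6945b_al.Kx
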