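import Pool.Agent.Lib.MP_b6945b_al.Kx.ARed1
import Pool.Agent.Lib.MP_b6945b_al.Kx.AFinal

set_option autoImplicit false

/-!
Reduction to the commutator subgroup of the action.
-/

namespace Pool.Agent.Lib.MP_b6945b_al.Kx

open Bi Finset
open scoped Matrix

lemma row_eq {X : Type} [Fintype X] {Q : Matrix X X ℂ} {N : ℕ}
    (hz : ∀ a b, ∃ z : ℤ, Q a b = z) (hs : Qᴴ = Q) (hq : Q * Q = (N : ℂ) • Q) (hd : ∀ a, Q a a = 1)
    {a x : X} (h0 : Q a x ≠ 0) (y : X) : Q a y = Q a x * Q x y := by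
  choose z hz using hz
  have h1 : ∀ a b, z b a = z a b := fun a b => by
    have := congrFun (congrFun hs a) b
    rw [Matrix.conjTranspose_apply, hz, hz, star_intCast] at this
    exact_mod_cast this
  have h2 : ∀ a b, ∑ y, z a y * z b y = N * z a b := fun a b => by
    have := congrFun (congrFun hq a) b
    simp only [Matrix.mul_apply, Matrix.smul_apply, smul_eq_mul, hz] at this
    simp only [fun y => h1 y b]
    exact_mod_cast this
  have h3 : ∀ a, z a a = 1 := fun a => by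
    have := hd a
    rw [hz] at this
    exact_mod_cast this
  have h4 : z a x ≠ 0 := fun e => h0 (by rw [hz, e, Int.cast_zero])
  have h5 : ∑ y, (z a y - z a x * z x y) ^ 2 = N * (1 - z a x ^ 2) := by
    have : ∀ y, (z a y - z a x * z x y) ^ 2 =
        z a y * z a y - 2 * z a x * (z a y * z x y) + z a x ^ 2 * (z x y * z x y) :=
      fun y => by ring
    simp only [this, sum_add_distrib, sum_sub_distrib, ← mul_sum, h2, h3]
    ring
  have h6 : 1 ≤ z a x ^ 2 := by
    have := sq_pos_of_ne_zero h4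
    omega
  have h7 : ∑ y, (z a y - z a x * z x y) ^ 2 = 0 :=
    le_antisymm (h5 ▸ mul_nonpos_of_nonneg_of_nonpos (Nat.cast_nonneg N) (by omega))
      (sum_nonneg fun _ _ => sq_nonneg _)
  have h8 := (sum_eq_zero_iff_of_nonneg fun _ _ => sq_nonneg _).1 h7 y (mem_univ y)
  rw [hz, hz, hz, sub_eq_zero.1 (pow_eq_zero_iff two_ne_zero |>.1 h8), Int.cast_mul]

lemma exists_reps {X : Type} [Fintype X] [DecidableEq X] {Q : Matrix X X ℂ} {N : ℕ}
    (hz : ∀ a b, ∃ z : ℤ, Q a b = z) (hs : Qᴴ = Q) (hq : Q * Q = (N : ℂ) • Q)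
    (hd : ∀ a, Q a a = 1) : ∃ Y : Finset X, Q.submatrix ((↑) : Y → X) ((↑) : Y → X) = 1 ∧
      Q.submatrix id ((↑) : Y → X) * Q.submatrix ((↑) : Y → X) id = Q := by
  classical
  obtain ⟨Y, h1, h2⟩ := exists_max_image
    (univ.filter fun Y : Finset X => ∀ x ∈ Y, ∀ y ∈ Y, x ≠ y → Q x y = 0) card
    ⟨∅, mem_filter.2 ⟨mem_univ _, by simp⟩⟩
  have h3 := (mem_filter.1 h1).2
  have h4 : ∀ a, ∃ x ∈ Y, Q a x ≠ 0 := fun a => by
    by_contra k
    push Not at k
    have k1 : a ∉ Y := fun e => one_ne_zero ((hd a).symm.trans (k a e))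
    have k2 := h2 (insert a Y) (mem_filter.2 ⟨mem_univ _, fun x hx y hy hne => ?_⟩)
    · rw [card_insert_of_notMem k1] at k2
      omega
    · rcases mem_insert.1 hx with rfl | hx' <;> rcases mem_insert.1 hy with rfl | hy'
      · exact absurd rfl hne
      · exact k y hy'
      · rw [← hs, Matrix.conjTranspose_apply, k x hx', star_zero]
      · exact h3 x hx' y hy' hne
  refine ⟨Y, ?_, ?_⟩
  · ext x y
    by_cases e : x = y
    · rw [e, Matrix.one_apply_eq, Matrix.submatrix_apply, hd]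
    · rw [Matrix.one_apply_ne e]
      exact h3 x x.2 y y.2 fun e' => e (Subtype.ext e')
  · ext a b
    obtain ⟨x, k1, k2⟩ := h4 a
    rw [Matrix.mul_apply, sum_eq_single ⟨x, k1⟩ (fun y _ e => ?_) fun e => absurd (mem_univ _) e]
    · exact (row_eq hz hs hq hd k2 b).symm
    · change Q a y * _ = 0
      rw [row_eq hz hs hq hd k2 y, h3 x k1 y y.2 fun e' => e (Subtype.ext e'.symm), mul_zero,
        zero_mul]

lemma sub_mul_sub {X Y α β : Type} [Fintype X] [Fintype Y] {Q A B : Matrix X X ℂ} {N : ℂ}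
    (hN : N ≠ 0) (ι : Y → X) (hQ : Q.submatrix id ι * Q.submatrix ι id = Q) (hA : A * Q = N • A)
    (hB : Q * B = N • B) (f : α → X) (g : β → X) :
    N • (A.submatrix f ι * B.submatrix ι g) = (A * B).submatrix f g := by
  have h1 : A.submatrix f id * Q.submatrix id ι = N • A.submatrix f ι := by
    rw [← Matrix.submatrix_mul _ _ _ _ _ Function.bijective_id, hA]
    rfl
  have h2 : Q.submatrix ι id * B.submatrix id g = N • B.submatrix ι g := by
    rw [← Matrix.submatrix_mul _ _ _ _ _ Function.bijective_id, hB]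
    rfl
  have h3 : A.submatrix f id * Q * B.submatrix id g = N • (A * B).submatrix f g := by
    rw [← Q.submatrix_id_id, ← Matrix.submatrix_mul _ _ _ _ _ Function.bijective_id,
      ← Matrix.submatrix_mul _ _ _ _ _ Function.bijective_id, hA, Matrix.smul_mul]
    rfl
  refine smul_right_injective _ hN ?_
  dsimp only
  rw [← h3, ← hQ, ← Matrix.mul_assoc, Matrix.mul_assoc, h1, h2, Matrix.smul_mul, Matrix.mul_smul]

variable {p : ℕ} {E D X : Type} [Group E] [Fintype E] [CommGroup D] [Fintype D] [Fintype X]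
  [DecidableEq X] {φ : E →* MulAut D} {P : D → Matrix X X ℂ}

/-- The restriction of the action to an invariant subgroup. -/
def resAct (φ : E →* MulAut D) (A : Subgroup D) (h : ∀ g, ∀ d ∈ A, φ g d ∈ A) :
    E →* MulAut A where
  toFun g :=
    { toFun := fun d => ⟨φ g d, h g d d.2⟩
      invFun := fun d => ⟨φ g⁻¹ d, h g⁻¹ d d.2⟩
      left_inv := fun d => Subtype.ext (by simp)
      right_inv := fun d => Subtype.ext (by simp)
      map_mul' := fun a b => Subtype.ext (map_mul (φ g) a.1 b.1) }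
  map_one' := MulEquiv.ext fun d => Subtype.ext (by simp)
  map_mul' a b := MulEquiv.ext fun d => Subtype.ext (by simp)

theorem MS0.reduce (h : MS0 p φ P) {Q : Type} [CommGroup Q] [Fintype Q] (π : D →* Q)
    (hs : Function.Surjective π) (hi : ∀ g d, π (φ g d) = π d) (ρ : D →* π.ker)
    (hρ : ∀ d : π.ker, ρ d = d) [Fintype π.ker] :
    ∃ (Y : Finset X) (φ' : E →* MulAut π.ker) (P' : π.ker → Matrix Y Y ℂ), MS0 p φ' P' ∧
      (∀ d, (P' d).rank ≤ (P d).rank) ∧ (P 1).rank ≤ (P' 1).rank := by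
  classical
  have hA : ∀ g, ∀ d ∈ π.ker, φ g d ∈ π.ker := fun g d hd => (hi g d).trans hd
  obtain ⟨N, hN⟩ : ∃ N, N = Fintype.card Q := ⟨_, rfl⟩
  have hN0 : 0 < N := hN ▸ Fintype.card_pos
  have hN1 : (N : ℂ) ≠ 0 := Nat.cast_ne_zero.2 hN0.ne'
  have c1 : ∀ d, ∑ l, chr π l d = if π d = 1 then (N : ℂ) else 0 := fun d => by
    simpa only [ofMul_one, neg_zero, AddChar.map_zero_eq_one, mul_one, ← hN] using sum_chr π 1 d
  have c2 : ∀ g d, (if π (φ g d) = 1 then (N : ℂ) else 0) = if π d = 1 then (N : ℂ) else 0 :=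
    fun g d => by rw [hi]
  obtain ⟨W, hW⟩ : ∃ W, W = opr φ P fun d => if π d = 1 then (N : ℂ) else 0 := ⟨_, rfl⟩
  have c3 : ∀ (f : D → ℂ) χ ψ, opr φ P (fun d => f d * if π d = 1 then (N : ℂ) else 0) χ ψ =
      (Fintype.card E : ℂ)⁻¹ * ∑ d : π.ker, (stb φ d : ℂ) * f d * (N * P d χ ψ) := fun f χ ψ => by
    rw [opr_apply, ← sum_subtype (univ.filter fun d => π d = 1) (by simp)
      fun d => (stb φ d : ℂ) * f d * (N * P d χ ψ), sum_filter]
    congr 1
    refine sum_congr rfl fun d _ => ?_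
    split_ifs <;> ring
  obtain ⟨Y, y1, y2⟩ := exists_reps (Q := W) (N := N) (fun a b => by
      have := h.opr_int (chr π) (fun g d => by rw [c1, c1, c2]) a b
      simpa only [c1, ← hW] using this)
    (by
      rw [hW, h.opr_star]
      congr 1
      funext d
      split_ifs <;> simp)
    (by
      rw [hW, h.opr_opr _ c2]
      ext a b
      simp only [Matrix.smul_apply, opr_apply, smul_eq_mul, mul_sum]
      refine sum_congr rfl fun d _ => ?_
      split_ifs <;> ring)
    (fun a => by rw [hW, hN]; exact h.diag_fibre π hs hi 1 a)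
  have w1 : ∀ d : π.ker, P d * W = (N : ℂ) • P d := fun d => by
    rw [hW, h.mul_opr c2, if_pos (MonoidHom.mem_ker.1 d.2)]
  have w2 : ∀ d : π.ker, W * P d = (N : ℂ) • P d := fun d => by
    rw [hW, h.opr_mul c2, if_pos (MonoidHom.mem_ker.1 d.2)]
  have w3 : ∀ d d' : π.ker, ((N : ℂ) • (P d).submatrix ((↑) : Y → X) ((↑) : Y → X)) *
      ((N : ℂ) • (P d').submatrix ((↑) : Y → X) ((↑) : Y → X)) =
      (N : ℂ) • (P d * P d').submatrix ((↑) : Y → X) ((↑) : Y → X) := fun d d' => by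
    rw [Matrix.smul_mul, Matrix.mul_smul, sub_mul_sub hN1 _ y2 (w1 d) (w2 d')]
  have s1 : ∀ d : π.ker, stb (resAct φ π.ker hA) d = stb φ d := fun d =>
    Nat.card_congr (Equiv.subtypeEquivRight fun g => Subtype.ext_iff)
  refine ⟨Y, resAct φ π.ker hA, fun d => (N : ℂ) • (P d).submatrix (↑) (↑),
    ⟨fun a b => mul_comm a b, h.pD.to_subgroup _, fun d => ?_, fun d => ?_, fun d d' e => ?_,
      fun g d => ?_, ?_, fun m lam hl χ ψ => ?_, fun d χ => ?_⟩,
    fun d => ?_, ?_⟩
  · rw [Matrix.conjTranspose_smul, Matrix.conjTranspose_submatrix, h.herm, star_natCast]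
  · rw [w3, h.idem]
  · rw [w3, h.orth d d' fun g e' => e g (Subtype.ext e'), Matrix.submatrix_zero]
    exact smul_zero _
  · exact congrArg (fun B : Matrix X X ℂ => (N : ℂ) • B.submatrix ((↑) : Y → X) ((↑) : Y → X))
      (h.inv g d)
  · rw [← y1]
    ext a b
    have k := c3 (fun _ => 1) a b
    simp only [one_mul, mul_one, ← hW] at k
    simp only [Matrix.sum_apply, Matrix.smul_apply, Matrix.submatrix_apply, smul_eq_mul, s1, k,
      mul_inv_cancel_left₀ (card_ne E)]
  · have k1 : ∀ d, ∑ x : Fin m × AddChar (Additive Q) ℂ, ((lam x.1).comp ρ * chr π x.2) d =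
        (∑ i, lam i (ρ d)) * if π d = 1 then (N : ℂ) else 0 := fun d => by
      rw [← c1, sum_mul_sum, Fintype.sum_prod_type]
      rfl
    obtain ⟨z, hz⟩ := h.opr_int (fun x : Fin m × AddChar (Additive Q) ℂ =>
      (lam x.1).comp ρ * chr π x.2) (fun g d => by
        rw [k1, k1, c2]
        split_ifs with e
        · rw [hρ ⟨d, e⟩, hρ ⟨φ g d, hA g d e⟩, ← hl g ⟨d, e⟩]
          rfl
        · rw [mul_zero, mul_zero]) χ ψ
    refine ⟨z, ?_⟩
    simp only [k1, c3, hρ] at hz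
    simp only [Matrix.smul_apply, Matrix.submatrix_apply, smul_eq_mul, s1, ← hz,
      mul_inv_cancel_left₀ (card_ne E)]
  · exact mul_ne_zero hN1 (h.diag d χ)
  · dsimp only
    rw [← Matrix.one_mul ((P d).submatrix _ _), ← Matrix.smul_mul]
    exact (Matrix.rank_mul_le_right _ _).trans (Matrix.rank_submatrix_le _ _ _)
  · have k1 := sub_mul_sub hN1 ((↑) : Y → X) y2 (w1 1) (w2 1) id id
    have k2 := sub_mul_sub hN1 ((↑) : Y → X) y2 (w1 1) (w2 1) id ((↑) : Y → X)
    rw [h.idem] at k1 k2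
    rw [← k2, ← Matrix.mul_smul _ (N : ℂ) ((P (1 : π.ker)).submatrix _ ((↑) : Y → X)), ← Matrix.mul_smul,
      Matrix.submatrix_id_id] at k1
    change (P (1 : π.ker)).rank ≤ _
    rw [← k1]
    exact (Matrix.rank_mul_le_left _ _).trans ((Matrix.rank_mul_le_right _ _))

theorem rank_bound_moved (p m r b : ℕ) (hp : p.Prime) : ∃ C : ℕ,
    ∀ (E D X : Type) [Group E] [Fintype E] [Group D] [Fintype D] [Fintype X] [DecidableEq X]
      (φ : E →* MulAut D) (P : D → Matrix X X ℂ), Fintype.card E ≤ m → ¬ p ∣ Fintype.card E →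
      om1 p D ≤ b → MS0 p φ P → (∃ g d, φ g d ≠ d) →
      (∀ d, (∃ g, φ g d ≠ d) → (P d).rank ≤ r) → (P 1).rank ≤ C := by
  classical
  obtain ⟨C, hC⟩ := krank_bound m r b
  refine ⟨C, fun E D X _ _ iD _ _ _ φ P hm hE hb h hne hr => ?_⟩
  let : CommGroup D := { iD with mul_comm := h.comm }
  have := Fact.mk hp
  let ν : D →* D := ∏ g, (φ g).toMonoidHom
  have n1 : ∀ d, ν d = ∏ g, φ g d := fun d => MonoidHom.finsetProd_apply _ _ _
  have n2 : ∀ g d, ν (φ g d) = ν d := fun g d => by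
    rw [n1, n1]
    exact Fintype.prod_equiv (Equiv.mulRight g) _ _ fun x => by
      rw [Equiv.coe_mulRight, map_mul, MulAut.mul_apply]
  have n3 : ∀ g d, φ g (ν d) = ν d := fun g d => by
    rw [n1, map_prod]
    exact Fintype.prod_equiv (Equiv.mulLeft g) _ _ fun x => by
      rw [Equiv.coe_mulLeft, map_mul, MulAut.mul_apply]
  have n4 : ∀ d, (∀ g, φ g d = d) → ν d = d ^ Fintype.card E := fun d hd => by
    simp only [n1, hd, prod_const, card_univ]
  obtain ⟨k, hk⟩ : ∃ k : ℕ, ∀ d : D, (d ^ Fintype.card E) ^ k = d := by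
    obtain ⟨j, hj⟩ := IsPGroup.iff_card.1 h.pD
    have h1 : (Nat.card D).Coprime (Fintype.card E) :=
      hj ▸ Nat.Coprime.pow_left j ((Nat.Prime.coprime_iff_not_dvd hp).2 hE)
    obtain ⟨k, hk⟩ := Nat.exists_mul_mod_eq_of_coprime 1 h1.symm (Nat.card_pos (α := D)).ne'
    exact ⟨k, fun d => by rw [← pow_mul, ← pow_mod_natCard, hk.2, pow_mod_natCard, pow_one]⟩
  let : Fintype ν.range := Fintype.ofFinite _
  let : Fintype ν.rangeRestrict.ker := Fintype.ofFinite _
  have m1 : ∀ d, d ∈ ν.rangeRestrict.ker ↔ ν d = 1 := fun d => by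
    rw [MonoidHom.ker_rangeRestrict, MonoidHom.mem_ker]
  let ρ : D →* ν.rangeRestrict.ker := (MonoidHom.id D / (powMonoidHom k).comp ν).codRestrict _
    fun d => (m1 _).2 (by
      change ν (d / ν d ^ k) = 1
      rw [map_div, map_pow, n4 (ν d) fun g => n3 g d, hk, div_self'])
  have r1 : ∀ d, (ρ d : D) = d / ν d ^ k := fun _ => rfl
  obtain ⟨Y, φ', P', a1, a2, a3⟩ := h.reduce ν.rangeRestrict ν.rangeRestrict_surjective
    (fun g d => Subtype.ext (n2 g d)) ρ fun d => Subtype.ext (by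
      rw [r1, (m1 _).1 d.2, one_pow, div_one])
  refine a3.trans (hC p hp E _ Y φ' P' hm hE (le_trans ?_ hb)
    ⟨a1.comm, a1.pD, ?_, a1.herm, a1.idem, a1.orth, a1.inv, a1.sum, a1.int, a1.diag,
      fun d hd => (a2 d).trans (hr d ?_)⟩)
  · exact Nat.card_le_card_of_injective (fun x => ⟨x.1.1, congrArg Subtype.val x.2⟩)
      fun x y e => Subtype.ext (Subtype.ext (Subtype.mk.inj e))
  · obtain ⟨g, d, hd⟩ := hne
    refine ⟨ρ d, 1, fun e => hd ?_⟩
    have h1 : d = ν d ^ k := div_eq_one.1 ((r1 d).symm.trans (congrArg Subtype.val e))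
    rw [h1, map_pow, n3]
  · by_contra e
    push Not at e
    refine hd (Subtype.ext ?_)
    rw [← hk d, ← n4 d e, (m1 _).1 d.2, one_pow]
    rfl

end Pool.Agent.Lib.MP_b6945b_al.Kx
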