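import Pool.Agent.Lib.MP_b6945b_al.Kx.AAtom

set_option autoImplicit false

/-!
The stratification by commensurability classes.
-/

namespace Pool.Agent.Lib.MP_b6945b_al.Bi

open Finset Filter Topology Pointwise
open scoped RealInnerProductSpace Matrix

namespace HSys

variable {E K X H : Type} [Group E] [Fintype E] [AddCommGroup K] [DistribMulAction E K]
  [NormedAddCommGroup H] [InnerProductSpace ℝ H] {F : K → X → X → ℤ} {S : HSys E H F}

lemma kx_weak [CompleteSpace H] (hf : S.KFin) (n : ℕ) :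
    ∀ x, S.Lat x → ⟪x, x⟫ = (n : ℝ) →
      ∃ (c : AddSubgroup K → H) (T : Finset (AddSubgroup K)), (∀ L, S.KAt L (c L)) ∧
        (∀ L, L ∉ T → c L = 0) ∧ (∀ L ∈ T, ZPure L) ∧ x = ∑ L ∈ T, c L := by
  classical
  induction n using Nat.strong_induction_on with
  | _ n ih =>
    intro x hx hn
    by_cases h : S.At (S.stab x) x
    · refine ⟨fun L => if L = hull (S.stab x) then x else 0, {hull (S.stab x)}, fun L => ?_,
        fun L hL => if_neg fun e => hL (mem_singleton.2 e), fun L hL => ?_, by simp⟩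
      · show S.KAt L (if L = hull (S.stab x) then x else 0)
        split_ifs with e
        · exact e ▸ ⟨_, h, le_hull _, le_rfl⟩
        · exact KAt.zero S L
      · rw [mem_singleton.1 hL]
        exact zpure_hull _
    obtain ⟨y, h1, h2, h3, h4⟩ := kx_split hf hx h
    obtain ⟨a, ha⟩ := h1.exists_nat
    obtain ⟨b, hb⟩ := (hx.sub h1).exists_nat
    have e : (n : ℝ) = a + b := by
      have e1 : x = y + (x - y) := (add_sub_cancel y x).symm
      rw [← hn, ← ha, ← hb]
      conv_lhs => rw [e1]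
      rw [real_inner_add_add_self, real_inner_comm (x - y) y, h4]
      ring
    have e' : n = a + b := by exact_mod_cast e
    have a0 : a ≠ 0 := fun e => h2 (inner_self_eq_zero.1 (by rw [ha, e, Nat.cast_zero]))
    have b0 : b ≠ 0 := fun e =>
      h3 (sub_eq_zero.1 (inner_self_eq_zero.1 (by rw [hb, e, Nat.cast_zero]))).symm
    obtain ⟨c, T, a1, a2, a3, a4⟩ := ih a (by omega) y h1 ha
    obtain ⟨c', T', b1, b2, b3, b4⟩ := ih b (by omega) _ (hx.sub h1) hb
    refine ⟨fun L => c L + c' L, T ∪ T', fun L => (a1 L).add hf (b1 L), fun L hL => ?_,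
      fun L hL => (mem_union.1 hL).elim (a3 L) (b3 L), ?_⟩
    · show c L + c' L = 0
      rw [a2 L fun e => hL (mem_union_left _ e), b2 L fun e => hL (mem_union_right _ e), add_zero]
    · rw [sum_add_distrib, ← sum_subset subset_union_left fun L _ e => a2 L e,
        ← sum_subset subset_union_right fun L _ e => b2 L e, ← a4, ← b4, add_sub_cancel]

lemma kx_uniq {d : AddSubgroup K → H} {T : Finset (AddSubgroup K)}
    (h1 : ∀ L, S.KAt L (d L)) (h2 : ∀ L, L ∉ T → d L = 0) (h3 : ∀ L ∈ T, ZPure L)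
    (h4 : ∑ L ∈ T, d L = 0) (L : AddSubgroup K) : d L = 0 := by
  by_cases e : L ∈ T
  · have h5 : ⟪∑ L' ∈ T, d L', d L⟫ = ⟪d L, d L⟫ := by
      rw [sum_inner]
      exact sum_eq_single L (fun L' hL' hne => (h1 L').orth (h1 L) (h3 L' hL') (h3 L e) hne)
        fun e' => absurd e e'
    rw [h4, inner_zero_left] at h5
    exact inner_self_eq_zero.1 h5.symm
  · exact h2 L e

theorem kx_decomp [CompleteSpace H] (hf : S.KFin) {x : H} (hx : S.Lat x) :
    ∃ (c : AddSubgroup K → H) (T : Finset (AddSubgroup K)), (∀ L, S.KAt L (c L)) ∧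
      (∀ L, L ∉ T → c L = 0) ∧ (∀ L ∈ T, c L ≠ 0) ∧ (∀ L ∈ T, ZPure L) ∧ x = ∑ L ∈ T, c L := by
  classical
  obtain ⟨n, hn⟩ := hx.exists_nat
  obtain ⟨c, T, h1, h2, h3, h4⟩ := kx_weak hf n x hx hn
  refine ⟨c, T.filter fun L => c L ≠ 0, h1, fun L hL => ?_, fun L hL => (mem_filter.1 hL).2,
    fun L hL => h3 L (mem_filter.1 hL).1, h4.trans (sum_filter_ne_zero T).symm⟩
  by_contra h0
  exact hL (mem_filter.2 ⟨by_contra fun e => h0 (h2 L e), h0⟩)

theorem exists_kstrat [CompleteSpace H] (hf : S.KFin) : ∃ c T, S.KStrat c T := by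
  classical
  choose c T h1 h2 h3 h4 h5 using fun χ => kx_decomp hf (Lat.v (S := S) χ)
  refine ⟨c, T, h1, h2, h3, h4, h5, ?_, ?_⟩
  · intro g χ L
    have a1 : ∀ L', S.KAt L' (S.R g (c χ (g⁻¹ • L'))) := fun L' => by
      have := (h1 χ (g⁻¹ • L')).R g
      rwa [smul_inv_smul] at this
    have a2 : ∀ L', L' ∉ (T χ).image (g • ·) → S.R g (c χ (g⁻¹ • L')) = 0 := fun L' hL => by
      rw [h2 χ _ fun e => hL (mem_image.2 ⟨_, e, smul_inv_smul g L'⟩), map_zero]
    have a3 : ∑ L' ∈ (T χ).image (g • ·), S.R g (c χ (g⁻¹ • L')) = S.v χ := by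
      rw [sum_image fun a _ b _ e => MulAction.injective g e, ← S.Rv g χ, h5 χ, map_sum]
      exact sum_congr rfl fun L' _ => by rw [inv_smul_smul]
    have a4 := kx_uniq (S := S) (d := fun L' => S.R g (c χ (g⁻¹ • L')) + -c χ L')
      (T := (T χ).image (g • ·) ∪ T χ) (fun L' => (a1 L').add hf (h1 χ L').neg)
      (fun L' hL => by
        rw [a2 L' fun e => hL (mem_union_left _ e), h2 χ L' fun e => hL (mem_union_right _ e),
          neg_zero, add_zero])
      (fun L' hL => by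
        rcases mem_union.1 hL with e | e
        · obtain ⟨L'', e1, rfl⟩ := mem_image.1 e
          exact (h4 χ L'' e1).smul g
        · exact h4 χ L' e)
      (by
        rw [sum_add_distrib, sum_neg_distrib,
          ← sum_subset subset_union_left fun L' _ e => a2 L' e,
          ← sum_subset subset_union_right fun L' _ e => h2 χ L' e, a3, ← h5 χ, add_neg_cancel])
      (g • L)
    rwa [inv_smul_smul, add_neg_eq_zero] at a4
  · intro χ ψ L L' l hne
    by_cases e : L ∈ T χ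
    · by_cases e' : L' ∈ T ψ
      · exact ((h1 χ L).U l).orth (h1 ψ L') (h4 χ L e) (h4 ψ L' e') hne
      · rw [h2 ψ L' e', inner_zero_right]
    · rw [h2 χ L e, map_zero, inner_zero_left]

variable {c : X → AddSubgroup K → H} {T : X → Finset (AddSubgroup K)}

lemma KStrat.lat (h : S.KStrat c T) (χ : X) (L : AddSubgroup K) : S.Lat (c χ L) :=
  (h.atom χ L).lat

lemma KStrat.good (h : S.KStrat c T) {χ : X} {L : AddSubgroup K} (hL : L ∈ T χ) :
    hull (S.stab (c χ L)) = L := (h.atom χ L).hull_stab (h.pure χ L hL) (h.ne χ L hL)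

lemma KStrat.mem_of_ne (h : S.KStrat c T) {χ : X} {L : AddSubgroup K} (h0 : c χ L ≠ 0) :
    L ∈ T χ := by
  by_contra e
  exact h0 (h.off χ L e)

lemma KStrat.smul_mem (h : S.KStrat c T) (g : E) {χ : X} {L : AddSubgroup K} :
    g • L ∈ T χ ↔ L ∈ T χ := by
  constructor
  · intro e
    refine h.mem_of_ne fun h0 => h.ne χ _ e ?_
    rw [← h.equiv, h0, map_zero]
  · intro e
    refine h.mem_of_ne fun h0 => h.ne χ _ e ((S.R g).injective ?_)
    rw [h.equiv, h0, map_zero]

lemma KStrat.inner_v (h : S.KStrat c T) (χ ψ : X) (L : AddSubgroup K) (l : K) :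
    ⟪S.U l (c χ L), S.v ψ⟫ = ⟪S.U l (c χ L), c ψ L⟫ := by
  rw [h.sum ψ, inner_sum]
  refine sum_eq_single L (fun L' _ hne => h.orth χ ψ L L' l hne.symm) fun e => ?_
  rw [h.off ψ L e, inner_zero_right]

lemma KStrat.inner_cv (h : S.KStrat c T) (χ : X) (L : AddSubgroup K) :
    ⟪c χ L, S.v χ⟫ = ⟪c χ L, c χ L⟫ := by
  have := h.inner_v χ χ L 0
  rwa [S.U_zero] at this

lemma KStrat.norm_le (h : S.KStrat c T) (hk : Ker E F) (χ : X) (L : AddSubgroup K) :
    ⟪c χ L, c χ L⟫ ≤ (Fintype.card E : ℝ) := by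
  have h1 := real_inner_mul_inner_self_le (c χ L) (S.v χ)
  rw [h.inner_cv, S.inner_vv hk] at h1
  have h2 : 0 ≤ ⟪c χ L, c χ L⟫ := real_inner_self_nonneg
  rcases h2.eq_or_lt with e | e
  · rw [← e]
    exact Nat.cast_nonneg _
  · exact le_of_mul_le_mul_left h1 e

theorem KStrat.rep (h : S.KStrat c T) (χ ψ : X) (Q : AddSubgroup K → Prop)
    (hQ : ∀ L ∈ T χ, (∃ l, ⟪S.U l (c χ L), c ψ L⟫ ≠ 0) → Q (S.stab (c χ L))) :
    ∃ M, Rep Q M (fun l => F l χ ψ) := by
  choose z hz using fun L l => ((h.lat χ L).U l).inner_int (h.lat ψ L)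
  have h1 : (fun l => F l χ ψ) = fun l => ∑ L ∈ T χ, z L l := by
    funext l
    refine Int.cast_injective (α := ℝ) ?_
    rw [← S.inner_v, h.sum χ, map_sum, sum_inner, Int.cast_sum]
    exact sum_congr rfl fun L _ => by rw [h.inner_v, hz]
  rw [h1]
  refine astrat_sum _ _ fun L hL => ?_
  by_cases e : ∃ l, ⟪S.U l (c χ L), c ψ L⟫ ≠ 0
  · obtain ⟨T', hT'⟩ := (h.atom χ L).at_stab.2.2 _ (h.lat ψ L)
    refine astrat_per (hQ L hL e) T' _ (fun l m hm => ?_) fun l hl => hT' l ?_
    · refine Int.cast_injective (α := ℝ) ?_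
      rw [← hz, ← hz, S.U_add, S.mem_stab.1 hm]
    · rw [hz]
      exact_mod_cast hl
  · refine ⟨0, astrat_zero fun l => ?_⟩
    have h2 := not_not.1 (not_exists.1 e l)
    rw [hz] at h2
    exact_mod_cast h2

end HSys

end Pool.Agent.Lib.MP_b6945b_al.Bi
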