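import Pool.Agent.Lib.MP_b6945b_al.Kx.ALimit
import Pool.Agent.Lib.MP_b6945b_al.Kx.ACount

set_option autoImplicit false

/-!
The ultraproduct is a limit system.
-/

namespace Pool.Agent.Lib.MP_b6945b_al.Bi

open Finset Filter Topology Pointwise
open scoped RealInnerProductSpace Matrix

theorem exists_kup {E : Type} [Group E] [Fintype E] {K X : ℕ → Type} [∀ n, AddCommGroup (K n)]
    [∀ n, DistribMulAction E (K n)] {F : ∀ n, K n → X n → X n → ℤ}
    (h : ∀ n, Ker E (F n)) (u : Ultrafilter ℕ) :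
    ∃ (K' X' : Type) (_ : AddCommGroup K') (_ : DistribMulAction E K')
      (F' : K' → X' → X' → ℤ) (πK : (∀ n, K n) →+ K') (πX : (∀ n, X n) → X'),
      UP E F u F' πK πX := by
  let N : AddSubgroup (∀ n, K n) :=
    { carrier := {l | ∀ᶠ n in u, l n = 0}
      zero_mem' := Eventually.of_forall fun _ => rfl
      add_mem' := fun {a b} ha hb => (ha.and hb).mono fun n e => by
        rw [Pi.add_apply, e.1, e.2, add_zero]
      neg_mem' := fun {a} ha => ha.mono fun n e => by rw [Pi.neg_apply, e, neg_zero] }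
  have hN : ∀ l : ∀ n, K n, QuotientAddGroup.mk' N l = 0 ↔ ∀ᶠ n in u, l n = 0 := fun l =>
    QuotientAddGroup.eq_zero_iff l
  have hE : ∀ l l' : ∀ n, K n, QuotientAddGroup.mk' N l = QuotientAddGroup.mk' N l' ↔
      ∀ᶠ n in u, l n = l' n := fun l l' => by
    rw [← sub_eq_zero, ← map_sub, hN]
    simp only [Pi.sub_apply, sub_eq_zero]
  have hS := QuotientAddGroup.mk'_surjective N
  let T : E → ((∀ n, K n) ⧸ N) →+ ((∀ n, K n) ⧸ N) := fun g =>
    QuotientAddGroup.map N N (DistribSMul.toAddMonoidHom _ g) fun l hl =>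
      Eventually.mono hl fun n e => by
        change g • l n = 0
        rw [e, smul_zero]
  have hT : ∀ g l, T g (QuotientAddGroup.mk' N l) = QuotientAddGroup.mk' N (g • l) :=
    fun _ _ => rfl
  let act : DistribMulAction E ((∀ n, K n) ⧸ N) :=
    { smul := fun g x => T g x
      one_smul := fun x => by
        obtain ⟨l, rfl⟩ := hS x
        exact (hT 1 l).trans (by rw [one_smul])
      mul_smul := fun g g' x => by
        obtain ⟨l, rfl⟩ := hS x
        exact (hT _ l).trans (by rw [mul_smul]; rfl)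
      smul_zero := fun g => (T g).map_zero
      smul_add := fun g => (T g).map_add }
  let s : Setoid (∀ n, X n) :=
    ⟨fun χ ψ => ∀ᶠ n in u, χ n = ψ n, fun _ => Eventually.of_forall fun _ => rfl,
      fun e => e.mono fun _ e' => e'.symm,
      fun e e' => (e.and e').mono fun _ e'' => e''.1.trans e''.2⟩
  have hlim : ∀ (l : ∀ n, K n) (χ ψ : ∀ n, X n),
      ∃ z, ∀ᶠ n in u, F n (l n) (χ n) (ψ n) = z := fun l χ ψ =>
    exists_ulim u _ (Fintype.card E) fun n => (h n).abs_le _ _ _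
  choose Z hZ using hlim
  choose sec hsec using QuotientAddGroup.mk'_surjective N
  refine ⟨(∀ n, K n) ⧸ N, Quotient s, inferInstance, act,
    fun a b c => Z (sec a) b.out c.out, QuotientAddGroup.mk' N, Quotient.mk s,
    fun a => ⟨_, hsec a⟩, Quotient.mk_surjective, hN, fun χ ψ => Quotient.eq,
    fun g l => (hT g l).symm, fun l χ ψ => ?_⟩
  have e1 := (hE _ _).1 (hsec (QuotientAddGroup.mk' N l))
  have e2 : ∀ᶠ n in u, (Quotient.mk s χ).out n = χ n := Quotient.mk_out (s := s) χ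
  have e3 : ∀ᶠ n in u, (Quotient.mk s ψ).out n = ψ n := Quotient.mk_out (s := s) ψ
  filter_upwards [e1, e2, e3, hZ (sec (QuotientAddGroup.mk' N l)) (Quotient.mk s χ).out
    (Quotient.mk s ψ).out] with n a1 a2 a3 a4
  rw [← a4, a1, a2, a3]

/-- If no multiple `k • q`, `0 < k ≤ N`, of `q ∈ L` lies in `L'` then `L ⊓ L'` has index greater
than `N` in `L`. -/
lemma kul_gap {K : Type} [AddCommGroup K] [Finite K] {L L' : AddSubgroup K} {q : K} (hq : q ∈ L)
    {N : ℕ} (h : ∀ k : ℕ, k ≠ 0 → k ≤ N → k • q ∉ L') :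
    N * Nat.card (L ⊓ L' : AddSubgroup K) ≤ Nat.card L := by
  have h1 : ∀ a b : ℕ, a < N → b < N → a ≤ b → b • q - a • q ∈ L' → a = b := fun a b _ hb e hx => by
    by_contra e'
    rw [sub_eq_add_neg, ← sub_nsmul q e] at hx
    exact h (b - a) (by omega) (by omega) hx
  have := Nat.card_le_card_of_injective
    (fun x : Fin N × (L ⊓ L' : AddSubgroup K) =>
      (⟨(x.1 : ℕ) • q + x.2, L.add_mem (L.nsmul_mem hq _) x.2.2.1⟩ : L)) (by
      rintro ⟨a, x⟩ ⟨b, y⟩ e
      have e1 : (a : ℕ) • q + (x : K) = (b : ℕ) • q + y := congrArg Subtype.val e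
      have e2 : (b : ℕ) • q - (a : ℕ) • q = (x : K) - y := by
        rw [sub_eq_sub_iff_add_eq_add, ← e1, add_comm]
      have e3 : (b : ℕ) • q - (a : ℕ) • q ∈ L' := e2 ▸ L'.sub_mem x.2.2 y.2.2
      have e4 : a = b := Fin.ext ((le_total (a : ℕ) b).elim (fun k => h1 a b a.2 b.2 k e3)
        fun k => (h1 b a b.2 a.2 k (by rw [← neg_sub]; exact L'.neg_mem e3)).symm)
      subst e4
      rw [Subtype.ext (add_left_cancel e1)])
  rwa [Nat.card_prod, Nat.card_eq_fintype_card (α := Fin N), Fintype.card_fin] at this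

/-- Multiples have bounded index. -/
lemma kul_quo {K : Type} [AddCommGroup K] [Finite K] (L : AddSubgroup K) {m b : ℕ}
    (h : Nat.card {x : K // m • x = 0} ≤ b) :
    ∃ t : Fin b → K, ∀ x ∈ L, ∃ i, ∃ y ∈ L, x = t i + m • y := by
  let f : L →+ L := nsmulAddMonoidHom m
  have h1 : Nat.card (L ⧸ f.range) = Nat.card f.ker := by
    have a1 := AddSubgroup.card_eq_card_quotient_mul_card_addSubgroup f.range
    have a2 := AddSubgroup.card_eq_card_quotient_mul_card_addSubgroup f.ker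
    rw [Nat.card_congr (QuotientAddGroup.quotientKerEquivRange f).toEquiv, a1, mul_comm] at a2
    exact Nat.eq_of_mul_eq_mul_left Nat.card_pos a2
  have h2 : Nat.card f.ker ≤ Nat.card {x : K // m • x = 0} :=
    Nat.card_le_card_of_injective (fun x => ⟨x.1.1, congrArg Subtype.val x.2⟩)
      fun x y e => Subtype.ext (Subtype.ext (Subtype.mk.inj e))
  obtain ⟨g⟩ : Nonempty ((L ⧸ f.range) ↪ Fin b) := by
    have := Fintype.ofFinite (L ⧸ f.range)
    refine Function.Embedding.nonempty_of_card_le ?_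
    rw [Fintype.card_fin, ← Nat.card_eq_fintype_card]
    omega
  refine ⟨fun i => ((Function.invFun g i).out : L), fun x hx =>
    ⟨g (QuotientAddGroup.mk ⟨x, hx⟩), ?_⟩⟩
  obtain ⟨y, hy⟩ := QuotientAddGroup.eq.1
    (QuotientAddGroup.out_eq' (QuotientAddGroup.mk (s := f.range) ⟨x, hx⟩))
  refine ⟨y, y.2, ?_⟩
  have h3 := congrArg Subtype.val hy
  simp only [Function.leftInverse_invFun g.injective _]
  change m • (y : K) = -_ + x at h3
  rw [h3, add_neg_cancel_left]

section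
variable {E : Type} [Group E] [Fintype E] {K X : ℕ → Type} [∀ n, AddCommGroup (K n)]
  [∀ n, Fintype (K n)] [∀ n, DistribMulAction E (K n)] {F : ∀ n, K n → X n → X n → ℤ}
  {u : Ultrafilter ℕ} {K' X' : Type} [AddCommGroup K'] [DistribMulAction E K']
  {F' : K' → X' → X' → ℤ} {πK : (∀ n, K n) →+ K'} {πX : (∀ n, X n) → X'}

omit [Fintype E] in
lemma UP.gap (U : UP E F u F' πK πX) {L L' : ∀ n, AddSubgroup (K n)}
    (h : ¬ intl u πK L ≤ hull (intl u πK L')) (N : ℕ) :
    ∀ᶠ n in (u : Filter ℕ), N * Nat.card (L n ⊓ L' n : AddSubgroup (K n)) ≤ Nat.card (L n) := by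
  obtain ⟨q, h1, h2⟩ := SetLike.not_le_iff_exists.1 h
  obtain ⟨q, rfl⟩ := U.surjK q
  have h3 : ∀ k ∈ range (N + 1), ∀ᶠ n in (u : Filter ℕ), k ≠ 0 → k • q n ∉ L' n := fun k _ => by
    by_cases e : k = 0
    · exact Eventually.of_forall fun _ e' => absurd e e'
    · exact (Ultrafilter.eventually_not.2 fun e' => h2 ⟨k, e, by
        rw [← map_nsmul]; exact (U.mem_intl _ _).2 e'⟩).mono fun _ e' _ => e'
  filter_upwards [(U.mem_intl _ _).1 h1, (eventually_all_finset _).2 h3] with n a1 a2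
  exact kul_gap a1 fun k h0 hk => a2 k (mem_range.2 (Nat.lt_succ_of_le hk)) h0

omit [Fintype E] [∀ n, Fintype (K n)] in
lemma UP.intl_top (U : UP E F u F' πK πX) : intl u πK (fun _ => ⊤) = ⊤ :=
  (AddSubgroup.eq_top_iff' _).2 fun x => by
    obtain ⟨l, rfl⟩ := U.surjK x
    exact (U.mem_intl _ l).2 (Eventually.of_forall fun _ => AddSubgroup.mem_top _)

omit [Fintype E] [∀ n, Fintype (K n)] in
lemma UP.intl_bot (U : UP E F u F' πK πX) : intl u πK (fun _ => ⊥) = ⊥ :=
  (AddSubgroup.eq_bot_iff_forall _).2 fun x hx => by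
    obtain ⟨l, rfl⟩ := U.surjK x
    exact (U.kerK l).2 ((U.mem_intl _ l).1 hx)

omit [Fintype E] in
lemma UP.quo (U : UP E F u F' πK πX) {b : ℕ → ℕ}
    (h : ∀ n (m : ℕ), m ≠ 0 → Nat.card {x : K n // m • x = 0} ≤ b m)
    (L : ∀ n, AddSubgroup (K n)) : Quo (intl u πK L) := by
  classical
  intro m hm
  choose t ht using fun n => kul_quo (L n) (h n m hm)
  refine ⟨univ.image fun i => πK fun n => t n i, fun x hx => ?_⟩
  obtain ⟨x, rfl⟩ := U.surjK x
  have h1 : ∀ᶠ n in (u : Filter ℕ), ∃ i ∈ (Set.univ : Set (Fin (b m))),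
      ∃ y ∈ L n, x n = t n i + m • y :=
    ((U.mem_intl _ _).1 hx).mono fun n hn => (ht n _ hn).imp fun _ e => ⟨trivial, e⟩
  obtain ⟨i, -, hi⟩ := (Ultrafilter.eventually_exists_mem_iff Set.finite_univ).1 h1
  have h2 : ∀ n, ∃ y, (∃ y ∈ L n, x n = t n i + m • y) → y ∈ L n ∧ x n = t n i + m • y :=
    fun n => by
      by_cases e : ∃ y ∈ L n, x n = t n i + m • y
      · exact ⟨e.choose, fun _ => e.choose_spec⟩
      · exact ⟨0, fun e' => absurd e' e⟩
  choose y hy using h2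
  refine ⟨_, mem_image_of_mem _ (mem_univ i), πK y,
    (U.mem_intl _ _).2 (hi.mono fun n e => (hy n e).1), ?_⟩
  rw [← sub_eq_zero, ← map_nsmul, ← map_add, ← map_sub, U.kerK]
  exact hi.mono fun n e => sub_eq_zero.2 (hy n e).2

omit [Fintype E] in
lemma UP.tor (U : UP E F u F' πK πX) {b : ℕ → ℕ}
    (h : ∀ n (m : ℕ), m ≠ 0 → Nat.card {x : K n // m • x = 0} ≤ b m) : Tor K' := by
  intro m hm
  have h1 : ∀ n, ∃ t : Fin (b m) → K n, ∀ x, m • x = 0 → ∃ i, x = t i := fun n => by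
    obtain ⟨g⟩ : Nonempty ({x : K n // m • x = 0} ↪ Fin (b m)) := by
      have := Fintype.ofFinite {x : K n // m • x = 0}
      refine Function.Embedding.nonempty_of_card_le ?_
      rw [Fintype.card_fin, ← Nat.card_eq_fintype_card]
      exact h n m hm
    have : Nonempty {x : K n // m • x = 0} := ⟨⟨0, smul_zero m⟩⟩
    exact ⟨fun i => (Function.invFun g i).1, fun x hx =>
      ⟨g ⟨x, hx⟩, by simp only [Function.leftInverse_invFun g.injective _]⟩⟩
  choose t ht using h1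
  refine (Set.finite_range fun i => πK fun n => t n i).subset fun x hx => ?_
  obtain ⟨x, rfl⟩ := U.surjK x
  have h2 : ∀ᶠ n in (u : Filter ℕ), ∃ i ∈ (Set.univ : Set (Fin (b m))), x n = t n i :=
    ((U.kerK (m • x)).1 (by rw [map_nsmul]; exact hx)).mono fun n hn =>
      (ht n _ hn).imp fun _ e => ⟨trivial, e⟩
  obtain ⟨i, -, hi⟩ := (Ultrafilter.eventually_exists_mem_iff Set.finite_univ).1 h2
  refine ⟨i, ?_⟩
  rw [← sub_eq_zero, ← map_sub, U.kerK]
  exact hi.mono fun n e => sub_eq_zero.2 e.symm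

omit [Fintype E] in
/-- Take `x n ∈ L n` whose order modulo `L' n` is maximal. -/
lemma UP.sat (U : UP E F u F' πK πX) (hu : (u : Filter ℕ) ≤ atTop)
    {L L' : ∀ n, AddSubgroup (K n)} (h : intl u πK L ≤ hull (intl u πK L')) :
    ∃ m : ℕ, m ≠ 0 ∧ ∀ x ∈ intl u πK L, m • x ∈ intl u πK L' := by
  classical
  have h1 : ∀ n, ∃ x ∈ L n, ∀ j ≤ n, j.factorial • x ∈ L' n → ∀ y ∈ L n, j.factorial • y ∈ L' n :=
    fun n => by
      by_cases e : ∃ j ≤ n, ∃ y ∈ L n, j.factorial • y ∉ L' n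
      · obtain ⟨j, ⟨a1, y, a2, a3⟩, a4⟩ := Set.exists_max_image
          {j | j ≤ n ∧ ∃ y ∈ L n, j.factorial • y ∉ L' n} id
          ((Set.finite_Iic n).subset fun _ k => k.1) e
        refine ⟨y, a2, fun i hi a5 z hz => by_contra fun a6 => a3 ?_⟩
        obtain ⟨k, hk⟩ := Nat.factorial_dvd_factorial (a4 i ⟨hi, z, hz, a6⟩)
        have hk' : j.factorial = i.factorial * k := hk
        rw [hk', mul_comm, mul_smul]
        exact (L' n).nsmul_mem a5 k
      · exact ⟨0, zero_mem _, fun j hj _ y hy => by_contra fun a => e ⟨j, hj, y, hy, a⟩⟩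
  choose x a1 a2 using h1
  obtain ⟨m, hm, a3⟩ := h ((U.mem_intl L x).2 (Eventually.of_forall a1))
  rw [← map_nsmul, U.mem_intl] at a3
  refine ⟨m.factorial, m.factorial_ne_zero, fun y hy => ?_⟩
  obtain ⟨y, rfl⟩ := U.surjK y
  rw [← map_nsmul, U.mem_intl]
  filter_upwards [a3, (U.mem_intl _ _).1 hy, hu (eventually_ge_atTop m)] with n b1 b2 b3
  refine a2 n m b3 ?_ _ b2
  obtain ⟨k, hk⟩ := Nat.dvd_factorial (Nat.pos_of_ne_zero hm) le_rfl
  rw [hk, mul_comm, mul_smul]
  exact (L' n).nsmul_mem b1 k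

theorem UP.klax (U : UP E F u F' πK πX) {b : ℕ → ℕ} {r : ℕ}
    (h : ∀ n, KFAx E b r (F n)) (hu : (u : Filter ℕ) ≤ atTop) :
    KLAx E r F' (fun L => ∃ Ls, L = intl u πK Ls) := by
  classical
  refine ⟨U.ker fun n => (h n).ker, fun L m a l χ t hL => ?_, U.tor fun n => (h n).tor,
    U.intl_top ▸ U.quo (fun n => (h n).tor) _, ?_, ?_, fun A x => ?_, fun S M hS => ?_⟩
  · choose l' hl using fun i => U.surjK (l i)
    choose χ' hχ using fun i => U.surjX (χ i)
    refine U.exists_intl L (fun n => {x | t < ∑ i, ∑ j, a i * a j *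
      (F n (x + l' i n - l' j n) (χ' i n) (χ' j n) : ℝ)}) fun x => ?_
    have hv : ∀ᶠ n in (u : Filter ℕ), ∀ i j, F' (πK x + l i - l j) (χ i) (χ j) =
        F n (x n + l' i n - l' j n) (χ' i n) (χ' j n) :=
      eventually_all.2 fun i => eventually_all.2 fun j => by
        have := U.val (x + l' i - l' j) (χ' i) (χ' j)
        rwa [map_sub, map_add, hl, hl, hχ, hχ] at this
    rw [hL]
    constructor
    · intro ht
      refine hv.mono fun n hn => ?_
      simpa only [hn, Set.mem_ofPred_eq] using ht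
    · intro ht
      obtain ⟨n, h1, h2⟩ := (hv.and ht).exists
      simpa only [h1, Set.mem_ofPred_eq] using h2
  · rintro _ ⟨Ls, rfl⟩
    exact U.quo (fun n => (h n).tor) _
  · rintro _ _ ⟨Ls, rfl⟩ ⟨Ls', rfl⟩
    exact U.sat hu
  · obtain ⟨x, rfl⟩ := U.surjK x
    choose y hy using fun n => (h n).div A (x n)
    exact ⟨πK y, by rw [← map_nsmul]; exact congrArg _ (funext hy)⟩
  · choose χ' hχ using U.surjX
    have h1 : ∀ᶠ n in (u : Filter ℕ), ∀ χ ∈ S, ∀ ψ ∈ S, χ ≠ ψ → χ' χ n ≠ χ' ψ n ∧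
        Rep (fun L => S.card ^ 2 * M < Nat.card L) M (fun l => F n l (χ' χ n) (χ' ψ n)) := by
      refine (eventually_all_finset S).2 fun χ hχS => (eventually_all_finset S).2 fun ψ hψS => ?_
      by_cases e : χ = ψ
      · exact Eventually.of_forall fun n h => (h e).elim
      have k1 : ∀ᶠ n in (u : Filter ℕ), χ' χ n ≠ χ' ψ n := Ultrafilter.eventually_not.2 fun k =>
        e (by rw [← hχ χ, ← hχ ψ]; exact (U.kerX _ _).2 k)
      have k2 := aul3_rep U (Q := fun L => (∃ Ls, L = intl u πK Ls) ∧ ¬ L ≤ hull ⊥)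
        (Qn := fun n L => S.card ^ 2 * M < Nat.card L) (M := M) (χ' χ) (χ' ψ)
        (by
          rintro _ ⟨⟨Ls, rfl⟩, hL⟩
          rw [← U.intl_bot] at hL
          exact ⟨Ls, rfl, (U.gap hL (S.card ^ 2 * M + 1)).mono fun n hn => by
            rwa [inf_bot_eq, AddSubgroup.card_bot, mul_one] at hn⟩)
        (by rw [hχ, hχ]; exact hS χ hχS ψ hψS e)
      exact (k1.and k2).mono fun n hn _ => hn
    obtain ⟨n, h2⟩ := h1.exists
    have hc : (S.image fun χ => χ' χ n).card = S.card := card_image_of_injOn fun χ hχS ψ hψS e =>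
      by_contra fun k => (h2 χ hχS ψ hψS k).1 e
    rw [← hc]
    refine (h n).orth _ M fun a ha b hb hab => ?_
    obtain ⟨χ, hχS, rfl⟩ := mem_image.1 ha
    obtain ⟨ψ, hψS, rfl⟩ := mem_image.1 hb
    rw [hc]
    exact (h2 χ hχS ψ hψS fun e => hab (by rw [e])).2

end

end Pool.Agent.Lib.MP_b6945b_al.Bi
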