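import Pool.Agent.Lib.MP_b6945b_al.Kx.AUl1

set_option autoImplicit false

/-!
The uniform structure theorem.
-/

namespace Pool.Agent.Lib.MP_b6945b_al.Bi

open Finset Filter Topology Pointwise
open scoped RealInnerProductSpace Matrix

theorem uniform_kstruct (E : Type) [Group E] [Fintype E] (b : ℕ → ℕ) (r : ℕ) :
    ∃ M : ℕ, ∀ (K X : Type) [AddCommGroup K] [Fintype K] [DistribMulAction E K]
      (F : K → X → X → ℤ), KFAx E b r F → ∃ j ≤ M, KStruct j F := by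
  classical
  by_contra hcon
  have h0 : ∀ n : ℕ, ∃ (K X : Type) (_ : AddCommGroup K) (_ : Fintype K)
      (_ : DistribMulAction E K) (F : K → X → X → ℤ),
      KFAx E b r F ∧ ∀ j ≤ n, ¬KStruct j F := fun n => by
    by_contra k
    refine hcon ⟨n, fun K X i1 i2 i3 F h1 => by_contra fun h3 => k ?_⟩
    exact ⟨K, X, i1, i2, i3, F, h1, fun j hj e => h3 ⟨j, hj, e⟩⟩
  choose K X i1 i2 i3 F hF hS using h0
  have h1 : ∀ n, ∀ j ≤ n, ∀ (𝓗 : Finset (AddSubgroup (K n))) (A : Finset (X n)), 𝓗.card ≤ j →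
      A.card ≤ j → (∀ L ∈ 𝓗, (4 * j ^ 3 + 1) * Nat.card L ≤ Nat.card (K n)) →
      ∃ χ, χ ∉ A ∧ ¬Big 𝓗 j (fun l => F n l χ χ) := fun n j hj 𝓗 A a b c => by
    by_contra k
    exact hS n j hj ⟨𝓗, A, a, b, c, fun χ hχ => by_contra fun e => k ⟨χ, hχ, e⟩⟩
  have hu : ((hyperfilter ℕ : Ultrafilter ℕ) : Filter ℕ) ≤ atTop := Nat.hyperfilter_le_atTop
  obtain ⟨K', X', j1, j3, F', πK, πX, U⟩ := exists_kup (fun n => (hF n).ker) (hyperfilter ℕ)
  generalize hyperfilter ℕ = u at hu U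
  obtain ⟨X₀, 𝓗, c1, c2, c3, c4⟩ := (U.klax hF hu).limit
  have : Nonempty X' :=
    ⟨πX fun n => (h1 n 0 (Nat.zero_le n) ∅ ∅ (by simp) (by simp) (by simp)).choose⟩
  obtain ⟨f, hf⟩ := Set.countable_iff_exists_subset_range.1 c1
  obtain ⟨g, hg⟩ := Set.countable_iff_exists_subset_range.1 c2
  choose x hx using fun i => U.surjX (f i)
  have h2 : ∀ i, ∃ Ls, g i ∈ 𝓗 → g i = intl u πK Ls := fun i => by
    by_cases e : g i ∈ 𝓗
    · exact (c3 _ e).1.imp fun _ h _ => h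
    · exact ⟨fun _ => ⊥, fun h => (e h).elim⟩
  choose Ls hLs using h2
  have h3 : ∀ n, ∃ j, (j ≤ n ∧ ∀ i < j, g i ∈ 𝓗 →
      (4 * j ^ 3 + 1) * Nat.card (Ls i n) ≤ Nat.card (K n)) ∧ ∀ j', (j' ≤ n ∧ ∀ i < j', g i ∈ 𝓗 →
      (4 * j' ^ 3 + 1) * Nat.card (Ls i n) ≤ Nat.card (K n)) → j' ≤ j := fun n =>
    Set.exists_max_image {j | j ≤ n ∧ ∀ i < j, g i ∈ 𝓗 →
      (4 * j ^ 3 + 1) * Nat.card (Ls i n) ≤ Nat.card (K n)} id
      ((Set.finite_Iic n).subset fun _ k => k.1)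
      ⟨0, Nat.zero_le n, fun i hi => absurd hi (Nat.not_lt_zero i)⟩
  choose j a1 a2 using h3
  have hgt : ∀ N : ℕ, ∀ᶠ n in (u : Filter ℕ), N < j n := fun N => by
    have b1 : ∀ i ∈ range (N + 1), ∀ᶠ n in (u : Filter ℕ), g i ∈ 𝓗 →
        (4 * (N + 1) ^ 3 + 1) * Nat.card (Ls i n) ≤ Nat.card (K n) := fun i _ => by
      by_cases e : g i ∈ 𝓗
      · refine (U.gap (L := fun _ => ⊤) (L' := Ls i) (fun e' => (c3 _ e).2 ?_)
          (4 * (N + 1) ^ 3 + 1)).mono fun n hn _ => ?_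
        · rw [U.intl_top, ← hLs i e] at e'
          exact top_le_iff.1 e'
        · rwa [top_inf_eq, AddSubgroup.card_top] at hn
      · exact Eventually.of_forall fun _ e' => absurd e' e
    filter_upwards [(eventually_all_finset _).2 b1, hu (eventually_gt_atTop N)] with n b2 b3
    exact a2 n (N + 1) ⟨b3, fun i hi => b2 i (mem_range.2 hi)⟩
  choose ψ k1 k2 using fun n => h1 n (j n) (a1 n).1
    (((range (j n)).filter fun i => g i ∈ 𝓗).image fun i => Ls i n)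
    ((range (j n)).image fun i => x i n)
    (card_image_le.trans ((card_filter_le _ _).trans (card_range _).le))
    (card_image_le.trans (card_range _).le) fun L hL => by
      obtain ⟨i, hi, rfl⟩ := mem_image.1 hL
      exact (a1 n).2 i (mem_range.1 (mem_filter.1 hi).1) (mem_filter.1 hi).2
  obtain ⟨𝓛, M, d1, d2, hM⟩ := c4 (πX ψ) fun e => by
    obtain ⟨i, hi⟩ := hf e
    obtain ⟨n, a, b⟩ := (((U.kerX _ _).1 ((hx i).trans hi)).and (hgt i)).exists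
    exact k1 n (mem_image.2 ⟨i, mem_range.2 b, a⟩)
  choose! ι hι using fun L (hL : L ∈ 𝓛) => hg (d1 L hL)
  have d3 : ∀ L ∈ 𝓛, L = intl u πK (Ls (ι L)) := fun L hL =>
    (hι L hL).symm.trans (hLs _ ((hι L hL).symm ▸ d1 L hL))
  have k3 := aul3_rep U (Qn := fun n L => L ∈ 𝓛.image fun L' => Ls (ι L') n) ψ ψ
    (fun L hL => ⟨Ls (ι L), d3 L hL, Eventually.of_forall fun n => mem_image_of_mem _ hL⟩) hM
  have k4 : ∀ L ∈ 𝓛, ∀ L' ∈ 𝓛, ∀ᶠ n in (u : Filter ℕ), L' ≠ L →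
      Nat.card (Ls (ι L') n) ≤ Nat.card (Ls (ι L) n) →
      (2 * M ^ 2 + 1) * Nat.card (Ls (ι L) n ⊓ Ls (ι L') n : AddSubgroup (K n)) ≤
        Nat.card (Ls (ι L) n) := fun L hL L' hL' => by
    by_cases e : L ≤ hull L'
    · by_cases e' : L' ≤ hull L
      · exact Eventually.of_forall fun _ e'' => absurd
          (d2 L' hL' L hL (le_antisymm (hull_le_of_le e') (hull_le_of_le e))) e''
      · rw [d3 L hL, d3 L' hL'] at e'
        exact (U.gap e' (2 * M ^ 2 + 1)).mono fun n hn _ k => by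
          rw [inf_comm]
          exact hn.trans k
    · rw [d3 L hL, d3 L' hL'] at e
      exact (U.gap e (2 * M ^ 2 + 1)).mono fun n hn _ _ => hn
  obtain ⟨n, a, b, c, d⟩ := (k3.and ((hgt M).and
    (((eventually_all_finset 𝓛).2 fun L _ => hgt (ι L)).and
      ((eventually_all_finset 𝓛).2 fun L hL => (eventually_all_finset 𝓛).2 (k4 L hL))))).exists
  refine k2 n ((a.big (fun L hL => ?_) fun L hL L' hL' e => ?_).mono b.le)
  · obtain ⟨L, h4, rfl⟩ := mem_image.1 hL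
    exact mem_image.2 ⟨ι L, mem_filter.2 ⟨mem_range.2 (c L h4), (hι L h4).symm ▸ d1 L h4⟩, rfl⟩
  · obtain ⟨L, h4, rfl⟩ := mem_image.1 hL
    obtain ⟨L', h5, rfl⟩ := mem_image.1 hL'
    exact d L h4 L' h5 fun e' => e (by rw [e'])

end Pool.Agent.Lib.MP_b6945b_al.Bi
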