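import Pool.Agent.Lib.MP_b6945b_al.Kx.Defs

set_option autoImplicit false

/-!
The characters of a local subgroup in blocks inducing a given block, counted block by block.
-/

namespace Pool.Agent.Lib.MP_b6945b_al.Kx

open St Bi IsLocalRing Finset

variable {G : Type} [Group G] [Fintype G] {V : ValuationSubring ℂ} {p : ℕ} [Fact p.Prime]

omit [Fact p.Prime] in
lemma cblk_eq_iff {I : IrrData G} {j k : Fin I.n} {a b : MonoidAlgebra V G}
    (ha : IsBlockIdem I j a) (hb : IsBlockIdem I k b) : a = b ↔ I.Bl V j k := by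
  have h1 : I.om k (cf a) = ind (I.Bl V j) k := by rw [ha, I.om_zf]
  constructor
  · rintro rfl
    by_contra hn
    rw [blkF_om_self hb, ind_neg hn] at h1
    exact one_ne_zero h1
  · intro h
    refine (hb_of_blockIdem ha).eq_of_mul_ne (hb_of_blockIdem hb) fun e0 => ?_
    have h2 := bic_om_mul I k ha.isBlock.cent hb.isBlock.cent
    rw [e0, h1, ind_pos h, blkF_om_self hb, one_mul] at h2
    have h3 : cf (0 : MonoidAlgebra V G) = 0 := by
      funext y
      simp [cf]
    rw [h3] at h2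
    simp [IrrData.om] at h2

variable {I : IrrData G} {i : Fin I.n} {e : MonoidAlgebra V G} {P L : Subgroup G}

lemma cblk_le (hp : (p : ℂ) ∈ V.nonunits) (he : IsBlockIdem I i e) [Fintype L]
    (hP : IsPGroup p P) (hPL : P ≤ L) (hL : L ≤ Nz P)
    (hC : ∀ g, (∀ u ∈ P, u * g = g * u) → g ∈ L) {I' : IrrData L} {j : Fin I'.n}
    {f : MonoidAlgebra V L} (hf : IsBlockIdem I' j f) (hj : IndV V I i I' j) :
    Le P e (inc V L.subtype f) := by
  have h1 := hb_inc_top (hb_of_blockIdem hf)
  have h2 : bb P e * bb P (inc V L.subtype f) = bb P (inc V L.subtype f) :=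
    bil_below hp he.isBlock.cent hf.isBlock.cent hP hPL le_rfl
      (IndV.belowB hp he hP hPL hL hC hj hf)
  rwa [bb_of_normal hp hP hPL hL h1.idem h1.supp h1.fix] at h2

lemma cblk_iff (hp : (p : ℂ) ∈ V.nonunits) (he : IsBlockIdem I i e) [Fintype L]
    (hP : IsPGroup p P) (hPL : P ≤ L) (hL : L ≤ Nz P)
    (hC : ∀ g, (∀ u ∈ P, u * g = g * u) → g ∈ L) {I' : IrrData L} {j : Fin I'.n}
    {f : MonoidAlgebra V L} (hf : IsBlockIdem I' j f) :
    IndV V I i I' j ↔ Le P e (inc V L.subtype f) := by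
  refine ⟨cblk_le hp he hP hPL hL hC hf, fun h => ?_⟩
  obtain ⟨k, hk⟩ := I.exists_induced hp L I' j P hP hPL hL hC
  have h1 : IndV V I k I' j := fun x => by
    have hcf : IsCF (ind (IsConj x)) := isCF_ind (isConj_conj_iff x)
    have h2 := hk _ (I.om_mem_Lam hcf fun g => ind_mem V _ g)
    rwa [I.zf_om hcf] at h2
  obtain ⟨e', he'⟩ := St.exists_blockIdem (V := V) I k
  have h3 : e' = e := le_unique hp hP le_top (hb_of_blockIdem he') (hb_of_blockIdem he)
    (hb_inc_top (hb_of_blockIdem hf)).res_ne (cblk_le hp he' hP hPL hL hC hf h1) h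
  exact (kr1b_ind_bl h1).2 ((cblk_eq_iff he' he).1 h3)

open Classical in
theorem kInd_eq_sum_kL {M : Ideal (integralClosure ℤ ℂ)} (hM : CoefB p M V)
    (he : IsBlockIdem I i e) (hP : IsPGroup p P) (hPL : P ≤ L) (hL : L ≤ Nz P)
    (hC : ∀ g, (∀ u ∈ P, u * g = g * u) → g ∈ L) :
    kInd M (I.χ i) L = ∑ β ∈ (blk V L).filter (fun β => Le P e β), kL L β := by
  have hp := hM.nonunit
  let _ : Fintype L := Fintype.ofFinite L
  obtain ⟨I'⟩ := exists_irrData L
  choose f hf using St.exists_blockIdem (V := V) I'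
  rw [kInd_eq_card hM.iff I i L I', Finset.card_eq_sum_card_fiberwise
    (f := fun j => inc V L.subtype (f j)) (t := (blk V L).filter (fun β => Le P e β))]
  · refine Finset.sum_congr rfl fun β hβ => ?_
    obtain ⟨h1, h2⟩ := mem_filter.1 hβ
    have h3 := mem_blk.1 h1
    obtain ⟨k, hk⟩ := h3.pull.exists_blockIdem I'
    have h4 := kL_inc L.subtype_injective (supp_top (pull V L.subtype β))
    rw [map_top_sub, inc_pull_supp h3.supp] at h4
    rw [h4, kL_top hk]
    refine congrArg Finset.card (Finset.ext fun j => ?_)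
    rw [mem_filter, mem_filter, mem_filter, ← cblk_eq_iff hk (hf j),
      cblk_iff hp he hP hPL hL hC (hf j)]
    constructor
    · rintro ⟨-, rfl⟩
      exact ⟨mem_univ _, pull_inc L.subtype_injective _⟩
    · rintro ⟨-, h5⟩
      rw [← h5, inc_pull_supp h3.supp]
      exact ⟨⟨mem_univ _, h2⟩, rfl⟩
  · intro j hj
    exact mem_filter.2 ⟨mem_blk.2 (hb_inc_top (hb_of_blockIdem (hf j))),
      cblk_le hp he hP hPL hL hC (hf j) (mem_filter.1 hj).2⟩

end Pool.Agent.Lib.MP_b6945b_al.Kx
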