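import Pool.Agent.Lib.MP_b6945b_al.Kx.Defs

set_option autoImplicit false

/-!
Alternating sums over the chains inside an abelian subgroup.
-/

namespace Pool.Agent.Lib.MP_b6945b_al.Kx

open St Bi Finset

variable {G : Type} [Group G] [Fintype (Finset (Subgroup G))] {p : ℕ} {D : Subgroup G}
  {σ : Finset (Subgroup G)}

open Classical in
/-- The chains inside `D`. -/
noncomputable def chs (p : ℕ) (D : Subgroup G) : Finset (Finset (Subgroup G)) :=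
  univ.filter fun σ => IsPChain p σ ∧ ∀ P ∈ σ, P ≤ D

lemma mem_chs : σ ∈ chs p D ↔ IsPChain p σ ∧ ∀ P ∈ σ, P ≤ D := by
  simp only [chs, mem_filter, mem_univ, true_and]

lemma chs_le_stab (hc : IsAb D) (h : σ ∈ chs p D) : D ≤ stab σ := fun g hg =>
  mem_stab.2 fun P hP => Cz_le_Nz P (mem_Cz.2 fun u hu => hc g hg u ((mem_chs.1 h).2 P hP hu))

lemma chs_isNC (hc : IsAb D) (h : σ ∈ chs p D) : IsNC σ :=
  (Finset.sup_le (mem_chs.1 h).2).trans (chs_le_stab hc h)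

omit [Fintype (Finset (Subgroup G))] in
lemma stab_cj (g : G) (σ : Finset (Subgroup G)) : stab (cj g σ) = cg g (stab σ) := by
  ext x
  rw [mem_cg, ← conj_mem_stab_cj_iff (g := g) (σ := σ)]
  simp only [mul_assoc, mul_inv_cancel_left, mul_inv_cancel, mul_one]

lemma cj_mem_chs (h : σ ∈ chs p D) (g : G) : cj g σ ∈ chs p (cg g D) := by
  refine mem_chs.2 ⟨(mem_chs.1 h).1.cj g, fun P hP x hx => ?_⟩
  obtain ⟨Q, hQ, rfl⟩ := mem_cj.1 hP
  exact mem_cg.2 ((mem_chs.1 h).2 Q hQ (mem_conj_smul.1 hx))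

lemma sum_chs_cj (g : G) (F : Finset (Subgroup G) → ℤ) :
    ∑ σ ∈ chs p (cg g D), F σ = ∑ σ ∈ chs p D, F (cj g σ) := by
  refine (Finset.sum_nbij' (cj g) (cj g⁻¹) (fun σ h => cj_mem_chs h g) (fun σ h => ?_)
    (fun σ _ => ?_) (fun σ _ => ?_) fun σ _ => rfl).symm
  · have h1 := cj_mem_chs h g⁻¹
    rwa [cg_cg, inv_mul_cancel, cg_one] at h1
  · rw [← cj_mul, inv_mul_cancel, cj_one]
  · rw [← cj_mul, mul_inv_cancel, cj_one]

lemma toggle_mem_chs (hD : IsPGroup p D) (hc : IsAb D) {R : Subgroup G} (hR : R ≤ D) (h0 : R ≠ ⊥)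
    (h : σ ∈ chs p D) : toggle R σ ∈ chs p D := by
  classical
  obtain ⟨h1, h2⟩ := mem_chs.1 h
  refine mem_chs.2 ⟨toggle_chain h1 (hD.to_le hR) h0 (hR.trans (chs_le_stab hc h)), fun P hP => ?_⟩
  unfold toggle at hP
  split_ifs at hP
  · exact h2 P (mem_of_mem_erase hP)
  · rcases mem_insert.1 hP with rfl | hP
    · exact sup_le (Finset.sup_le fun Q hQ => h2 Q (mem_filter.1 hQ).1) hR
    · exact h2 P hP

lemma sum_chs_cu (hD : IsPGroup p D) (hc : IsAb D) {d : G} (hd : d ∈ D) (h1 : d ≠ 1)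
    (F : Subgroup G → ℤ) : ∑ σ ∈ chs p D, sgn σ * F (stab σ ⊓ Cu d) = 0 := by
  have hR : Subgroup.zpowers d ≤ D := (Subgroup.zpowers_le (H := D)).2 hd
  have h0 : Subgroup.zpowers d ≠ ⊥ := fun e => h1 (Subgroup.zpowers_eq_bot.1 e)
  have key : ∀ σ ∈ chs p D, stab σ ⊓ Cu d ≤ stab (toggle (Subgroup.zpowers d) σ) ⊓ Cu d :=
    fun σ h g hg => ⟨mem_stab_toggle (mem_chs.1 h).1.1 hg.1 (Cz_le_Nz _ hg.2), hg.2⟩
  refine Finset.sum_involution (fun σ _ => toggle (Subgroup.zpowers d) σ) (fun σ h => ?_)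
    (fun σ _ _ e => ?_) (fun σ h => toggle_mem_chs hD hc hR h0 h) fun σ _ => toggle_toggle _ σ
  · have h2 := key _ (toggle_mem_chs hD hc hR h0 h)
    rw [toggle_toggle] at h2
    rw [sgn_toggle, le_antisymm h2 (key σ h)]
    ring
  · have h2 := sgn_toggle (Subgroup.zpowers d) σ
    rw [e] at h2
    exact sgn_ne_zero σ (by linarith)

omit [Fintype (Finset (Subgroup G))] in
lemma sum_tg (A : Finset (Finset (Subgroup G))) (R : Finset (Subgroup G) → Subgroup G)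
    (F : Finset (Subgroup G) → ℤ) (h : ∀ σ ∈ A, ∀ τ : Finset (Subgroup G),
      (∀ Q, Q ≠ R σ → (Q ∈ τ ↔ Q ∈ σ)) → τ ∈ A ∧ R τ = R σ ∧ F τ = F σ) :
    ∑ σ ∈ A, sgn σ * F σ = 0 := by
  classical
  obtain ⟨t, ht⟩ : ∃ t : Finset (Subgroup G) → Finset (Subgroup G), ∀ σ,
      t σ = if R σ ∈ σ then σ.erase (R σ) else insert (R σ) σ := ⟨_, fun _ => rfl⟩
  have h1 : ∀ σ Q, Q ≠ R σ → (Q ∈ t σ ↔ Q ∈ σ) := fun σ Q hQ => by
    rw [ht]
    split_ifs <;> simp [hQ]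
  have h2 : ∀ σ, R σ ∈ t σ ↔ R σ ∉ σ := fun σ => by
    rw [ht]
    split_ifs with e <;> simp [e]
  have h3 : ∀ σ, sgn (t σ) = - sgn σ := fun σ => by
    rw [ht, sgn, sgn]
    split_ifs with e
    · rw [← Finset.card_erase_add_one e, pow_succ]
      ring
    · rw [Finset.card_insert_of_notMem e, pow_succ]
      ring
  refine Finset.sum_involution (fun σ _ => t σ) (fun σ hσ => ?_) (fun σ _ _ e => ?_)
    (fun σ hσ => (h σ hσ _ (h1 σ)).1) fun σ hσ => ?_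
  · rw [h3, (h σ hσ _ (h1 σ)).2.2]
    ring
  · have h4 := h2 σ
    rw [e] at h4
    exact iff_not_self h4
  · have h4 := (h σ hσ _ (h1 σ)).2.1
    ext Q
    by_cases e : Q = R σ
    · rw [e, ← h4, h2, h4, h2, not_not]
    · rw [h1 _ Q (h4 ▸ e), h1 σ Q e]

lemma sum_chs_omg [Finite G] [Fact p.Prime] (hD : IsPGroup p D) (hc : IsAb D)
    (F : Subgroup G → ℤ) :
    ∑ σ ∈ chs p D, sgn σ * F (stab σ) = ∑ σ ∈ chs p (omg p D hc), sgn σ * F (stab σ) := by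
  classical
  obtain ⟨O, hO⟩ : ∃ O, O = omg p D hc := ⟨_, rfl⟩
  have hm : ∀ x, x ∈ O ↔ x ∈ D ∧ x ^ p = 1 := fun x => by rw [hO]; rfl
  rw [← hO, ← Finset.sum_filter_add_sum_filter_not (chs p D) (fun σ => ∀ P ∈ σ, P ≤ O),
    sum_tg ((chs p D).filter fun σ => ¬ ∀ P ∈ σ, P ≤ O)
      (fun σ => (σ.filter fun P => ¬ P ≤ O).inf id ⊓ O) (fun σ => F (stab σ)), add_zero]
  · refine Finset.sum_congr ?_ fun _ _ => rfl
    ext σ
    rw [mem_filter, mem_chs, mem_chs]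
    exact ⟨fun h => ⟨h.1.1, h.2⟩, fun h => ⟨⟨h.1, fun P hP x hx => ((hm x).1 (h.2 P hP hx)).1⟩,
      h.2⟩⟩
  intro σ hσ τ hτ
  obtain ⟨h1, h2⟩ := mem_filter.1 hσ
  obtain ⟨h3, h4⟩ := mem_chs.1 h1
  obtain ⟨Q, hQ, hmin⟩ := (σ.filter fun P => ¬ P ≤ O).exists_minimal (by
    by_contra e
    exact h2 fun P hP => by
      by_contra e'
      exact e ⟨P, mem_filter.2 ⟨hP, e'⟩⟩)
  obtain ⟨hQ1, hQ2⟩ := mem_filter.1 hQ
  have h5 : ∀ P ∈ σ, ¬ P ≤ O → Q ≤ P := fun P hP hP' =>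
    (h3.1.total (mem_coe.2 hQ1) (mem_coe.2 hP)).elim id (hmin (mem_filter.2 ⟨hP, hP'⟩))
  have h6 : (σ.filter fun P => ¬ P ≤ O).inf id = Q := le_antisymm (Finset.inf_le (f := id) hQ)
    (Finset.le_inf fun P hP => h5 P (mem_filter.1 hP).1 (mem_filter.1 hP).2)
  have h7 : (τ.filter fun P => ¬ P ≤ O) = σ.filter fun P => ¬ P ≤ O := by
    ext P
    rw [mem_filter, mem_filter]
    exact and_congr_left fun hP => hτ P fun e => hP (e.le.trans inf_le_right)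
  rw [h6] at hτ
  have h8 : Q ∈ τ := (hτ Q fun e => hQ2 (e.le.trans inf_le_right)).2 hQ1
  have h9 : Nz Q ≤ Nz (Q ⊓ O) := fun g hg => Subgroup.mem_normalizer_fintype fun x hx => by
    have h10 := (Subgroup.mem_normalizer_iff.1 hg x).1 hx.1
    refine ⟨h10, (hm _).2 ⟨h4 Q hQ1 h10, ?_⟩⟩
    rw [conj_pow, ((hm x).1 hx.2).2, mul_one, mul_inv_cancel]
  have h11 : ∀ P ∈ τ, P = Q ⊓ O ∨ P ∈ σ := fun P hP =>
    or_iff_not_imp_left.2 fun e => (hτ P e).1 hP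
  have h12 : Q ⊓ O ≠ ⊥ := by
    obtain ⟨k, hk, hk'⟩ := (IsPGroup.nontrivial_iff_card (h3.2 Q hQ1).1).1
      ((Subgroup.nontrivial_iff_ne_bot Q).2 (h3.2 Q hQ1).2)
    obtain ⟨x, hx⟩ := exists_prime_orderOf_dvd_card' (G := Q) p (hk' ▸ dvd_pow_self p hk.ne')
    intro e
    have h13 : (x : G) ∈ Q ⊓ O := ⟨x.2, (hm _).2 ⟨h4 Q hQ1 x.2, by
      rw [← hx, ← Subgroup.coe_pow, pow_orderOf_eq_one, Subgroup.coe_one]⟩⟩
    rw [e, Subgroup.mem_bot, OneMemClass.coe_eq_one] at h13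
    rw [h13, orderOf_one] at hx
    exact (Fact.out : p.Prime).one_lt.ne hx
  have h14 : ∀ P ∈ σ, Q ⊓ O ≤ P ∨ P ≤ Q ⊓ O := fun P hP => by
    by_cases e : P ≤ O
    · exact Or.inr (le_inf ((h3.1.total (mem_coe.2 hP) (mem_coe.2 hQ1)).elim id
        fun e' => absurd (e'.trans e) hQ2) e)
    · exact Or.inl (inf_le_left.trans (h5 P hP e))
  refine ⟨mem_filter.2 ⟨mem_chs.2 ⟨⟨?_, fun P hP => ?_⟩, fun P hP => ?_⟩,
    fun e => hQ2 (e Q h8)⟩, by rw [h7], congrArg F (le_antisymm ?_ ?_)⟩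
  · refine (h3.1.insert fun P hP _ => h14 P hP).mono fun P hP => ?_
    exact h11 P hP
  · rcases h11 P hP with rfl | e
    · exact ⟨(h3.2 Q hQ1).1.to_le inf_le_left, h12⟩
    · exact h3.2 P e
  · rcases h11 P hP with rfl | e
    · exact inf_le_left.trans (h4 Q hQ1)
    · exact h4 P e
  · refine fun g hg => mem_stab.2 fun P hP => ?_
    by_cases e : P = Q ⊓ O
    · exact e ▸ h9 (mem_stab.1 hg Q h8)
    · exact mem_stab.1 hg P ((hτ P e).2 hP)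
  · refine fun g hg => mem_stab.2 fun P hP => ?_
    rcases h11 P hP with rfl | e
    · exact h9 (mem_stab.1 hg Q hQ1)
    · exact mem_stab.1 hg P e

lemma card_chs_le [Finite G] (p : ℕ) (D : Subgroup G) :
    (chs p D).card ≤ 2 ^ 2 ^ Nat.card D := by
  classical
  let _ : Fintype D := Fintype.ofFinite D
  rw [Nat.card_eq_fintype_card, ← Fintype.card_set, ← Fintype.card_set, ← Finset.card_univ]
  refine Finset.card_le_card_of_injOn
    (fun σ => (fun P : Subgroup G => {x : D | (x : G) ∈ P}) '' (σ : Set (Subgroup G)))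
    (fun _ _ => mem_univ _) ?_
  have key : ∀ σ ∈ chs p D, ∀ τ ∈ chs p D,
      (fun P : Subgroup G => {x : D | (x : G) ∈ P}) '' (σ : Set (Subgroup G)) =
        (fun P : Subgroup G => {x : D | (x : G) ∈ P}) '' (τ : Set (Subgroup G)) → σ ⊆ τ := by
    intro σ hσ τ hτ e P hP
    obtain ⟨Q, hQ, e'⟩ := e.le ⟨P, hP, rfl⟩
    have h1 : Q = P := Subgroup.ext fun x =>
      ⟨fun hx => (Set.ext_iff.1 e' ⟨x, (mem_chs.1 hτ).2 Q hQ hx⟩).1 hx,
        fun hx => (Set.ext_iff.1 e' ⟨x, (mem_chs.1 hσ).2 P hP hx⟩).2 hx⟩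
    exact h1 ▸ hQ
  exact fun σ hσ τ hτ e => Finset.Subset.antisymm (key σ hσ τ hτ e) (key τ hτ σ hσ e.symm)

end Pool.Agent.Lib.MP_b6945b_al.Kx
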