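import Pool.Agent.Lib.MP_b6945b_al.Kx.CBlk

set_option autoImplicit false

/-!
The blocks of a local subgroup below a block correspond to double cosets.
-/

namespace Pool.Agent.Lib.MP_b6945b_al.Kx

open St Bi IsLocalRing Finset

open Classical in
lemma cdbl_count {G : Type} [Group G] [Fintype G] (L T : Subgroup G) (a : G) :
    ∑ g ∈ univ.filter (fun g => ∃ l ∈ L, ∃ t ∈ T, g = l * a * t),
      Nat.card (L ⊓ cg g T : Subgroup G) = Nat.card L * Nat.card T := by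
  have h := Finset.card_eq_sum_card_fiberwise (s := (univ : Finset (L × T)))
    (t := univ.filter (fun g => ∃ l ∈ L, ∃ t ∈ T, g = l * a * t))
    (f := fun x => (x.1 : G) * a * x.2)
    fun x _ => mem_coe.2 (mem_filter.2 ⟨mem_univ _, x.1, x.1.2, x.2, x.2.2, rfl⟩)
  rw [← Nat.card_prod, Nat.card_eq_fintype_card, ← Finset.card_univ, h]
  refine Finset.sum_congr rfl fun g hg => ?_
  obtain ⟨l, hl, t, ht, rfl⟩ := (mem_filter.1 hg).2
  have key : ∀ x s : G, x * a * s = l * a * t →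
      (l * a * t)⁻¹ * (x * l⁻¹) * (l * a * t) = s⁻¹ * t := fun x s e => by
    obtain rfl : x = l * a * t * s⁻¹ * a⁻¹ := by
      rw [← e]
      group
    group
  rw [← Fintype.card_subtype, ← Nat.card_eq_fintype_card]
  refine Nat.card_congr
    ⟨fun x => ⟨(⟨x * l, L.mul_mem x.2.1 hl⟩,
        ⟨t * ((l * a * t)⁻¹ * x * (l * a * t))⁻¹, T.mul_mem ht (T.inv_mem (mem_cg.1 x.2.2))⟩), ?_⟩,
      fun y => ⟨y.1.1 * l⁻¹, L.mul_mem y.1.1.2 (L.inv_mem hl), mem_cg.2 ?_⟩, fun x => ?_,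
      fun y => ?_⟩
  · dsimp only
    group
  · rw [key _ _ y.2]
    exact T.mul_mem (T.inv_mem y.1.2.2) ht
  · exact Subtype.ext (mul_inv_cancel_right _ _)
  · refine Subtype.ext (Prod.ext (Subtype.ext (inv_mul_cancel_right _ _)) (Subtype.ext ?_))
    dsimp only
    rw [key _ _ y.2]
    group

variable {G : Type} [Group G] [Fintype G] {V : ValuationSubring ℂ} {p : ℕ} [Fact p.Prime]
  {m : ℕ} {D P L : Subgroup G} {c β : MonoidAlgebra V G}

lemma cdbl_rt (hp : (p : ℂ) ∈ V.nonunits) (h : Rt p m ⊤ D c) (g : G) :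
    Rt p m ⊤ (cg g D) (cjRep V G g c) ∧ bk (cg g D) (cjRep V G g c) ⊤ = bk D c ⊤ := by
  have h1 := h.conj hp g
  have h2 := h.bk_conj hp (K := ⊤) le_top g
  rw [cg_top] at h1 h2
  exact ⟨h1, h2.trans ((h.spec hp (K := ⊤) le_top).1.fix g trivial)⟩

lemma cdbl_local (hp : (p : ℂ) ∈ V.nonunits) (h : Rt p m ⊤ D c) (hL : L ≤ Nz P) (hC : Cz P ≤ L)
    {g : G} (hg : P ≤ cg g D) : Rt p m L (cg g D) (cjRep V G g c) :=
  (cdbl_rt hp h g).1.local hp hg (inf_le_right.trans hC) le_top hL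

lemma cdbl_maps (hp : (p : ℂ) ∈ V.nonunits) (h : Rt p m ⊤ D c) (hL : L ≤ Nz P) (hC : Cz P ≤ L)
    {g : G} (hg : P ≤ cg g D) : HB L (bk (cg g D) (cjRep V G g c) L) ∧
      Le P (bk D c ⊤) (bk (cg g D) (cjRep V G g c) L) := by
  have h1 := cdbl_local hp h hL hC hg
  refine ⟨(h1.spec hp h1.le).1, ?_⟩
  rw [← (cdbl_rt hp h g).2]
  exact h1.below hp hg le_top (inf_le_right.trans hC) le_top hL

lemma cdbl_ex (hp : (p : ℂ) ∈ V.nonunits) (h : Rt p m ⊤ D c) (hP : IsPGroup p P) (hPL : P ≤ L)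
    (hL : L ≤ Nz P) (hC : Cz P ≤ L) (hβ : HB L β) (hl : Le P (bk D c ⊤) β) :
    ∃ g, P ≤ cg g D ∧ bk (cg g D) (cjRep V G g c) L = β := by
  obtain ⟨f, hf, h1⟩ := exists_root hp hP hPL hβ.idem hβ.supp hβ.fix (by
    rw [bb_of_normal hp hP hPL hL hβ.idem hβ.supp hβ.fix]
    exact hβ.res_ne)
  rw [inf_eq_right.2 hC] at hf
  obtain ⟨g, hg, h2⟩ := h.max_pair_top hp hP hf (hl.trans hp h1 hP le_rfl Subgroup.le_normalizer
    ((h.spec hp (K := ⊤) le_top).1.fix.mono le_top) (hβ.fix.mono hPL))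
  have h3 := cdbl_local hp h hL hC hg
  have h4 : cg g D ≤ Cz P := h3.le_Cz.trans (Cz_anti hg)
  exact ⟨g, hg, h3.bk_eq hp h3.le hβ (h1.trans hp h2 h3.pD hg (h4.trans (Cz_le_Nz P))
    (hβ.fix.mono h3.le_H) (hf.fix.mono h4))⟩

lemma cdbl_iff (hp : (p : ℂ) ∈ V.nonunits) (h : Rt p m ⊤ D c) (hL : L ≤ Nz P) (hC : Cz P ≤ L)
    {a : G} (ha : P ≤ cg a D) (g : G) :
    (P ≤ cg g D ∧ bk (cg g D) (cjRep V G g c) L = bk (cg a D) (cjRep V G a c) L) ↔
      ∃ l ∈ L, ∃ t ∈ stabT ⊤ D c, g = l * a * t := by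
  have h0 := cdbl_local hp h hL hC ha
  constructor
  · rintro ⟨hg, e⟩
    have h1 := cdbl_local hp h hL hC hg
    obtain ⟨l, hl, e1, e2⟩ := h0.root_conj hp h1.pD h1.le_H (by rw [card_cg, card_cg])
      (by rw [inf_eq_right.2 h1.le]; exact h1.root) (e ▸ (h1.spec hp h1.le).2)
    refine ⟨l, hl, (l * a)⁻¹ * g, mem_stabT.2 ⟨trivial, cg_eq_iff.1 ?_, ?_⟩, by group⟩
    · rw [← cg_cg, e1, cg_cg l, cg_cg, inv_mul_cancel, cg_one]
    · rw [← frpg_cj_cj, e2, frpg_cj_cj l, frpg_inv_cj]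
  · rintro ⟨l, hl, t, ht, rfl⟩
    rw [← cg_cg, ← frpg_cj_cj, cg_eq_iff.2 ht.2.1, ht.2.2, ← cg_cg, ← frpg_cj_cj]
    constructor
    · rw [← cg_eq_iff.2 (hL hl)]
      exact Subgroup.map_mono ha
    · have h2 := h0.bk_conj hp h0.le l
      rw [bmax_cg_self hl] at h2
      rw [h2, (h0.spec hp h0.le).1.fix l hl]

/-- The number of characters weighted by the order of the stabiliser. -/
noncomputable def wk (K D : Subgroup G) (c : MonoidAlgebra V G) : ℕ :=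
  Nat.card (stabT K D c) * kL K (bk D c K)

omit [Fintype G] [Fact p.Prime] in
lemma cdbl_stab (K K' D : Subgroup G) (c : MonoidAlgebra V G) :
    stabT (K ⊓ K') D c = K' ⊓ stabT K D c :=
  Subgroup.ext fun _ => ⟨fun h => ⟨h.1.2, h.1.1, h.2⟩, fun h => ⟨⟨h.2.1, h.1⟩, h.2.2⟩⟩

open Classical in
theorem card_mul_wfB {M : Ideal (integralClosure ℤ ℂ)} (hM : CoefB p M V) (h : Rt p m ⊤ D c)
    {I : IrrData G} {i : Fin I.n} (he : IsBlockIdem I i (bk D c ⊤)) (hP : IsPGroup p P)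
    (hPL : P ≤ L) (hL : L ≤ Nz P) (hC : Cz P ≤ L) :
    Nat.card (stabT ⊤ D c) * wfB M (I.χ i) L =
      ∑ g ∈ univ.filter (fun g => P ≤ cg g D), wk L (cg g D) (cjRep V G g c) := by
  have hp := hM.nonunit
  rw [wfB, kInd_eq_sum_kL hM he hP hPL hL fun g hg => hC (mem_Cz.2 fun u hu => (hg u hu).symm),
    ← Finset.sum_fiberwise_of_maps_to (t := (blk V L).filter (fun β => Le P (bk D c ⊤) β))
      (g := fun g => bk (cg g D) (cjRep V G g c) L) (fun g hg => by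
        have h1 := cdbl_maps hp h hL hC (mem_filter.1 hg).2
        exact mem_filter.2 ⟨mem_blk.2 h1.1, h1.2⟩), ← mul_assoc, Finset.mul_sum]
  refine Finset.sum_congr rfl fun β hβ => ?_
  obtain ⟨a, ha, rfl⟩ := cdbl_ex hp h hP hPL hL hC (mem_blk.1 (mem_filter.1 hβ).1)
    (mem_filter.1 hβ).2
  rw [mul_comm (Nat.card (stabT ⊤ D c)), ← cdbl_count L (stabT ⊤ D c) a, Finset.sum_mul,
    Finset.filter_filter]
  refine Finset.sum_congr (Finset.filter_congr fun g _ => (cdbl_iff hp h hL hC ha g).symm)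
    fun g hg => ?_
  rw [wk, (mem_filter.1 hg).2.2, ← stabT_conj, cg_top, ← cdbl_stab, top_inf_eq]

end Pool.Agent.Lib.MP_b6945b_al.Kx
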