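import Pool.Agent.Lib.MP_b6945b_al.Kx.CDbl
import Pool.Agent.Lib.MP_b6945b_al.Kx.CChain

set_option autoImplicit false

/-!
The bound for the alternating sum.
-/

namespace Pool.Agent.Lib.MP_b6945b_al.Kx

open St Bi IsLocalRing Finset

variable {G : Type} [Group G] [Fintype G] {V : ValuationSubring ℂ} {p : ℕ} [Fact p.Prime]
  {M : Ideal (integralClosure ℤ ℂ)} {m : ℕ} {D K : Subgroup G} {c : MonoidAlgebra V G}

omit [Fact p.Prime] in
lemma kL_cj {β : MonoidAlgebra V G} (hβ : Supp K β) (g : G) :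
    kL (cg g K) (cjRep V G g β) = kL K β := by
  have h1 : inc V (MulAut.conj g).toMonoidHom β = cjRep V G g β := by
    ext x
    rw [coeff_cjRep, ← coeff_inc (φ := (MulAut.conj g).toMonoidHom) (MulAut.conj g).injective β]
    simp [mul_assoc]
  rw [← h1]
  exact kL_inc (MulAut.conj g).injective hβ

lemma wk_cj (hp : (p : ℂ) ∈ V.nonunits) (h : Rt p m K D c) (g : G) :
    wk (cg g K) (cg g D) (cjRep V G g c) = wk K D c := by
  rw [wk, wk, stabT_conj, card_cg, h.bk_conj hp h.le, kL_cj (h.spec hp h.le).1.supp]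

variable [Fintype (Finset (Subgroup G))]

lemma rt_chs (hp : (p : ℂ) ∈ V.nonunits) (h : Rt p m ⊤ D c) {σ : Finset (Subgroup G)}
    (hσ : σ ∈ chs p D) : Rt p m (stab σ) D c := by
  obtain ⟨h1, h2⟩ := mem_chs.1 hσ
  obtain ⟨-, h3, h4⟩ := top_spec h1
  exact h.local hp (Finset.sup_le h2) (fun g hg => h4 g fun u hu => (mem_Cz.1 hg.2 u hu).symm)
    le_top h3

lemma card_mul_KS (hM : CoefB p M V) (h : Rt p m ⊤ D c) {I : IrrData G} {i : Fin I.n}
    (he : IsBlockIdem I i (bk D c ⊤)) : Nat.card (stabT ⊤ D c) * KS p M (I.χ i) =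
      Nat.card G * ∑ σ ∈ chs p D, sgn σ * wk (stab σ) D c := by
  classical
  have hp := hM.nonunit
  have h1 : KS p M (I.χ i) = ∑ σ : Finset (Subgroup G), if IsPChain p σ then
      (if IsNC σ then sgn σ * (wfB M (I.χ i) (stab σ) : ℤ) else 0) else 0 := by
    refine Int.cast_injective (α := ℂ) ?_
    rw [KS_eq]
    push_cast
    convert sum_normal p fun L => (wfB M (I.χ i) L : ℂ)
  have h2 : ∀ g : G, ∑ σ ∈ chs p D, sgn σ * wk (stab σ) D c = ∑ σ : Finset (Subgroup G),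
      if σ ∈ chs p (cg g D) then sgn σ * wk (stab σ) (cg g D) (cjRep V G g c) else 0 := by
    intro g
    rw [Finset.sum_ite_mem, univ_inter, sum_chs_cj]
    exact Finset.sum_congr rfl fun σ hσ => by rw [sgn_cj, stab_cj, wk_cj hp (rt_chs hp h hσ)]
  rw [Nat.card_eq_fintype_card (α := G), ← nsmul_eq_mul (Fintype.card G), ← Finset.card_univ,
    ← Finset.sum_const, Finset.sum_congr rfl fun g _ => h2 g, Finset.sum_comm, h1, Finset.mul_sum]
  refine Finset.sum_congr rfl fun σ _ => ?_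
  by_cases e : IsPChain p σ ∧ IsNC σ
  · obtain ⟨h3, h4, h5⟩ := top_spec e.1
    rw [if_pos e.1, if_pos e.2, mul_left_comm, ← Nat.cast_mul, card_mul_wfB hM h he h3 e.2 h4
      fun g hg => h5 g fun u hu => (mem_Cz.1 hg u hu).symm, Nat.cast_sum, Finset.mul_sum,
      Finset.sum_filter]
    refine Finset.sum_congr rfl fun g _ => if_congr ?_ rfl rfl
    rw [mem_chs, Finset.sup_le_iff]
    exact ⟨fun a => ⟨e.1, a⟩, fun a => a.2⟩
  · rw [Finset.sum_eq_zero fun g _ => if_neg fun a =>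
      e ⟨(mem_chs.1 a).1, chs_isNC (cdbl_rt hp h g).1.comm a⟩]
    split_ifs with e1 e2
    · exact absurd ⟨e1, e2⟩ e
    · exact mul_zero _
    · exact mul_zero _

lemma sum_wk_eq (hp : (p : ℂ) ∈ V.nonunits) (h : Rt p m ⊤ D c) :
    ∑ σ ∈ chs p D, sgn σ * wk (stab σ) D c = ∑ σ ∈ chs p (omg p D h.comm),
      sgn σ * (Nat.card (stabT (stab σ) D c) * lL p (stab σ) (bk D c (stab σ)) : ℕ) := by
  classical
  obtain ⟨F, hF⟩ : ∃ F : Subgroup G → ℤ, ∀ K,
      F K = (Nat.card (stabT K D c) * lL p K (bk D c K) : ℕ) := ⟨_, fun _ => rfl⟩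
  have h1 : ∀ σ ∈ chs p D, sgn σ * wk (stab σ) D c =
      ∑ d ∈ univ.filter (· ∈ D), sgn σ * F (stab σ ⊓ Cu d) := fun σ hσ => by
    rw [wk, kform hp (rt_chs hp h hσ), Nat.cast_sum, Finset.mul_sum]
    exact Finset.sum_congr rfl fun d _ => by rw [hF, cdbl_stab, inf_comm (Cu d)]
  rw [Finset.sum_congr rfl h1, Finset.sum_comm, Finset.sum_eq_single_of_mem 1
    (mem_filter.2 ⟨mem_univ _, D.one_mem⟩)
    fun d hd h2 => sum_chs_cu h.pD h.comm (mem_filter.1 hd).2 h2 F]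
  simp only [Cu_one, inf_top_eq, ← hF]
  exact sum_chs_omg h.pD h.comm F

omit [Fintype (Finset (Subgroup G))] in
theorem abs_KS_le (hM : CoefB p M V) (h : Rt p m ⊤ D c) {I : IrrData G} {i : Fin I.n}
    (he : IsBlockIdem I i (bk D c ⊤)) {C : ℕ}
    (hC : ∀ H : Subgroup G, Rt p m H D c → lL p H (bk D c H) ≤ C) :
    |KS p M (I.χ i)| ≤ Nat.card G * (2 ^ 2 ^ om1 p D * C : ℕ) := by
  let _ : Fintype (Finset (Subgroup G)) := Fintype.ofFinite _
  have hp := hM.nonunit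
  have h0 : (0 : ℤ) < Nat.card (stabT ⊤ D c) := by exact_mod_cast Nat.card_pos
  have h1 : om1 p D = Nat.card (omg p D h.comm) :=
    Nat.card_congr ⟨fun x => ⟨x.1.1, x.1.2, congrArg Subtype.val x.2⟩,
      fun x => ⟨⟨x.1, x.2.1⟩, Subtype.ext x.2.2⟩, fun _ => rfl, fun _ => rfl⟩
  have h2 : |∑ σ ∈ chs p D, sgn σ * wk (stab σ) D c| ≤
      (2 ^ 2 ^ om1 p D : ℕ) * (Nat.card (stabT ⊤ D c) * C : ℕ) := by
    rw [sum_wk_eq hp h]
    refine (Finset.abs_sum_le_sum_abs _ _).trans ((Finset.sum_le_card_nsmul _ _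
      ((Nat.card (stabT ⊤ D c) * C : ℕ) : ℤ) fun σ hσ => ?_).trans ?_)
    · rw [abs_mul, sgn, abs_neg_one_pow, one_mul, Nat.abs_cast, Nat.cast_le]
      exact Nat.mul_le_mul (Subgroup.card_le_of_le (stabT_mono le_top D c))
        (hC _ (rt_chs hp h (mem_chs.2 ⟨(mem_chs.1 hσ).1,
          fun P hP x hx => ((mem_chs.1 hσ).2 P hP hx).1⟩)))
    · rw [nsmul_eq_mul, h1]
      exact mul_le_mul_of_nonneg_right (Nat.cast_le.2 (card_chs_le p _)) (Nat.cast_nonneg _)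
  refine le_of_mul_le_mul_left ?_ h0
  rw [← abs_of_pos h0, ← abs_mul, card_mul_KS hM h he, abs_mul, Nat.abs_cast, Nat.abs_cast]
  refine (mul_le_mul_of_nonneg_left h2 (Nat.cast_nonneg _)).trans (le_of_eq ?_)
  push_cast
  ring

end Pool.Agent.Lib.MP_b6945b_al.Kx
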