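import Pool.Agent.Lib.MP_b6945b_al.Braid

set_option autoImplicit false

/-!
Counting tuples on a torus with several holes.
-/

namespace Pool.Agent.Lib.MP_b6945b_al.Kx

open Finset

variable {G : Type} [Group G]

open Classical in
/-- The chain-weighted number of tuples with prescribed boundary and prescribed classes. -/
noncomputable def nnK [Fintype G] [Fintype (Finset (Subgroup G))] (p : ℕ) {N : ℕ} (v : G)
    (κ : Fin N → G) : ℤ :=
  ∑ a : G, ∑ b : G, ∑ c : Fin N → G, ∑ σ : Finset (Subgroup G),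
    if IsPChain p σ ∧ a ∈ stab σ ∧ b ∈ stab σ ∧ (∀ i, c i ∈ stab σ) ∧
      a * b * a⁻¹ * b⁻¹ * (List.ofFn c).prod = v ∧ ∀ i, IsConj (κ i) (c i) then sgn σ else 0

end Pool.Agent.Lib.MP_b6945b_al.Kx
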