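import Pool.Agent.Lib.MP_b6945b_al.Bi.BInd
import Pool.Agent.Lib.MP_b6945b_al.Kx.Defs0
import Pool.Agent.Lib.MP_b6945b_al.Kx.TDefs

set_option autoImplicit false

/-!
Shared definitions for blocks with a large abelian defect group of bounded rank.
-/

namespace Pool.Agent.Lib.MP_b6945b_al.Kx

open St Bi Finset

open Classical in
/-- The alternating sum over chains. -/
noncomputable def KS (p : ℕ) (M : Ideal (integralClosure ℤ ℂ)) {G : Type} [Group G] [Finite G]
    (χ : G → ℂ) : ℤ :=
  letI : Fintype (Finset (Subgroup G)) := Fintype.ofFinite _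
  ∑ σ : Finset (Subgroup G), if IsPChain p σ then sgn σ * (wfB M χ (stab σ) : ℤ) else 0

open Classical in
lemma KS_eq (p : ℕ) (M : Ideal (integralClosure ℤ ℂ)) {G : Type} [Group G] [Finite G]
    (χ : G → ℂ) [Fintype (Finset (Subgroup G))] : KS p M χ =
    ∑ σ : Finset (Subgroup G), if IsPChain p σ then sgn σ * (wfB M χ (stab σ) : ℤ) else 0 := by
  unfold KS
  exact Finset.sum_congr (Finset.ext fun σ => iff_of_true (@mem_univ _ (_) σ) (mem_univ σ))
    fun _ _ => rfl

end Pool.Agent.Lib.MP_b6945b_al.Kx
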