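import Pool.Agent.Lib.MP_b6945b_al.BlockSum
import Pool.Agent.Lib.MP_b6945b_al.Kx.TDefs

set_option autoImplicit false

/-!
The Frobenius formula with insertions.
-/

namespace Pool.Agent.Lib.MP_b6945b_al.Kx

open Finset

variable {G : Type} [Group G]

open Classical in
/-- The number of tuples in `H` with prescribed classes and prescribed class of the product. -/
noncomputable def cntK [Fintype G] (H : Subgroup G) (v : G) {N : ℕ} (κ : Fin N → G) (h : G) : ℂ :=
  ∑ c : Fin N → G, if (∀ i, c i ∈ H) ∧ IsConj v (h * (List.ofFn c).prod) ∧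
    ∀ i, IsConj (κ i) (c i) then 1 else 0

lemma isConj_inv_iff {x y : G} : IsConj x⁻¹ y⁻¹ ↔ IsConj x y := by
  have : ∀ x y : G, IsConj x y → IsConj x⁻¹ y⁻¹ := by
    intro x y h
    obtain ⟨g, rfl⟩ := isConj_iff.1 h
    exact isConj_iff.2 ⟨g, by group⟩
  exact ⟨fun h => by simpa using this _ _ h, this x y⟩

lemma cntK_succ [Fintype G] (H : Subgroup G) [Fintype H] (v : G) {N : ℕ} (κ : Fin (N + 1) → G)
    (h : H) : res H (cntK H v κ) h =
      conv (res H (cntK H v (fun i => κ i.succ))) (res H (ind (IsConj (κ 0)⁻¹))) h := by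
  classical
  have h1 : ∀ f : G → ℂ, ∑ a, (if a ∈ H then f a else 0) = ∑ a : H, f a := by
    intro f
    rw [← Finset.sum_filter]
    exact Finset.sum_subtype _ (by simp) f
  rw [conv, ← Equiv.sum_comp (Equiv.mulLeft h)]
  simp only [Equiv.coe_mulLeft, res, mul_inv_rev, inv_mul_cancel_right, Subgroup.coe_mul,
    Subgroup.coe_inv]
  rw [← h1 (fun a => cntK H v (fun i => κ i.succ) (h * a) * ind (IsConj (κ 0)⁻¹) a⁻¹)]
  unfold cntK
  rw [← Equiv.sum_comp (Fin.consEquiv (fun _ : Fin (N + 1) => G)), Fintype.sum_prod_type]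
  refine Finset.sum_congr rfl (fun a _ => ?_)
  simp only [Fin.consEquiv_apply, Fin.forall_fin_succ, List.ofFn_succ, List.prod_cons,
    Fin.cons_zero, Fin.cons_succ, mul_assoc]
  by_cases e1 : a ∈ H
  · by_cases e2 : IsConj (κ 0) a
    · rw [if_pos e1, ind_pos (isConj_inv_iff.2 e2), mul_one]
      simp only [e1, e2, true_and]
    · rw [if_pos e1, ind_neg (fun e => e2 (isConj_inv_iff.1 e)), mul_zero]
      simp only [e2, false_and, and_false, if_false, Finset.sum_const_zero]
  · simp only [e1, false_and, if_false, Finset.sum_const_zero]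

lemma cntK_om [Fintype G] (H : Subgroup G) [Fintype H] (I : IrrData H) (v : G) {N : ℕ}
    (κ : Fin N → G) : IsCF (res H (cntK H v κ)) ∧ ∀ j, I.om j (res H (cntK H v κ)) =
      I.om j (res H (ind (IsConj v))) * ∏ i, I.om j (res H (ind (IsConj (κ i)⁻¹))) := by
  have hc : ∀ x : G, IsCF (res H (ind (IsConj x))) := fun x => (isCF_ind (isConj_conj_iff x)).res H
  induction N with
  | zero =>
    have : cntK H v κ = ind (IsConj v) := by
      ext h
      rw [cntK, Fintype.sum_unique, List.ofFn_zero, List.prod_nil, mul_one]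
      split_ifs with e
      · exact (ind_pos e.2.1).symm
      · exact (ind_neg fun e' => e ⟨fun i => i.elim0, e', fun i => i.elim0⟩).symm
    rw [this]
    exact ⟨hc v, fun j => by simp⟩
  | succ N ih =>
    obtain ⟨h1, h2⟩ := ih (fun i => κ i.succ)
    rw [funext (cntK_succ H v κ)]
    refine ⟨h1.conv (hc _), fun j => ?_⟩
    rw [I.om_conv j h1 (hc _), h2, Fin.prod_univ_succ]
    ring

lemma cntW_cntK [Fintype G] (H : Subgroup G) [Fintype H] (I : IrrData H) (v : G) {N : ℕ}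
    (κ : Fin N → G) : cntW H (cntK H v κ) = Nat.card H *
      ∑ j, I.om j (res H (ind (IsConj v))) * ∏ i, I.om j (res H (ind (IsConj (κ i)⁻¹))) := by
  have := I.comm_sum' (res H (cntK H v κ))
  simp only [res] at this
  rw [cntW_eq, this, Nat.card_eq_fintype_card]
  exact congrArg _ (Finset.sum_congr rfl fun j _ => (cntK_om H I v κ).2 j)

open Classical in
lemma sum_nnK [Fintype G] [Fintype (Finset (Subgroup G))] (p : ℕ) (v : G) {N : ℕ}
    (κ : Fin N → G) : ∑ w, ind (IsConj v) w * nnK p w κ =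
      ∑ σ, if IsPChain p σ then (sgn σ : ℂ) * cntW (stab σ) (cntK (stab σ) v κ) else 0 := by
  have h1 : ∀ σ : Finset (Subgroup G), (if IsPChain p σ then
      (sgn σ : ℂ) * cntW (stab σ) (cntK (stab σ) v κ) else 0) = ∑ a, ∑ b, ∑ c : Fin N → G,
      if IsPChain p σ ∧ a ∈ stab σ ∧ b ∈ stab σ ∧ (∀ i, c i ∈ stab σ) ∧
        IsConj v (a * b * a⁻¹ * b⁻¹ * (List.ofFn c).prod) ∧ ∀ i, IsConj (κ i) (c i) then
        (sgn σ : ℂ) else 0 := by
    intro σ
    split_ifs with e
    · unfold cntW cntK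
      simp only [Finset.mul_sum, e, true_and]
      refine Finset.sum_congr rfl (fun a _ => Finset.sum_congr rfl (fun b _ => ?_))
      split_ifs with e'
      · simp only [e'.1, e'.2, true_and, Finset.mul_sum, mul_ite, mul_one, mul_zero]
      · rw [mul_zero, Finset.sum_eq_zero]
        exact fun c _ => if_neg (fun h => e' ⟨h.1, h.2.1⟩)
    · simp only [e, false_and, if_false, Finset.sum_const_zero]
  simp only [h1]
  unfold nnK
  push_cast
  simp only [Finset.mul_sum]
  rw [Finset.sum_comm]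
  conv_rhs => rw [Finset.sum_comm]
  refine Finset.sum_congr rfl (fun a _ => ?_)
  rw [Finset.sum_comm]
  conv_rhs => rw [Finset.sum_comm]
  refine Finset.sum_congr rfl (fun b _ => ?_)
  rw [Finset.sum_comm]
  conv_rhs => rw [Finset.sum_comm]
  refine Finset.sum_congr rfl (fun c _ => ?_)
  rw [Finset.sum_comm]
  refine Finset.sum_congr rfl (fun σ _ => ?_)
  rw [Finset.sum_eq_single (a * b * a⁻¹ * b⁻¹ * (List.ofFn c).prod)]
  · by_cases e : IsConj v (a * b * a⁻¹ * b⁻¹ * (List.ofFn c).prod)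
    · simp only [ind_pos e, e, one_mul, true_and]
    · simp only [ind_neg e, e, zero_mul, false_and, and_false, if_false]
  · intro w _ hw
    rw [if_neg (fun h => hw h.2.2.2.2.1.symm), mul_zero]
  · simp

lemma nnK_conj [Fintype G] [Fintype (Finset (Subgroup G))] (p : ℕ) (g v : G) {N : ℕ}
    (κ : Fin N → G) : nnK p (g * v * g⁻¹) κ = nnK p v κ := by
  classical
  let e : Finset (Subgroup G) ≃ Finset (Subgroup G) :=
    ⟨cj g, cj g⁻¹, fun σ => by rw [← cj_mul, inv_mul_cancel, cj_one],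
      fun σ => by rw [← cj_mul, mul_inv_cancel, cj_one]⟩
  unfold nnK
  rw [← Equiv.sum_comp (MulAut.conj g).toEquiv]
  refine Finset.sum_congr rfl (fun a _ => ?_)
  rw [← Equiv.sum_comp (MulAut.conj g).toEquiv]
  refine Finset.sum_congr rfl (fun b _ => ?_)
  rw [← Equiv.sum_comp (Equiv.piCongrRight (fun _ : Fin N => (MulAut.conj g).toEquiv))]
  refine Finset.sum_congr rfl (fun c _ => ?_)
  rw [← Equiv.sum_comp e]
  refine Finset.sum_congr rfl (fun σ _ => ?_)
  change (if IsPChain p (cj g σ) ∧ g * a * g⁻¹ ∈ stab (cj g σ) ∧ g * b * g⁻¹ ∈ stab (cj g σ) ∧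
    (∀ i, g * c i * g⁻¹ ∈ stab (cj g σ)) ∧
    g * a * g⁻¹ * (g * b * g⁻¹) * (g * a * g⁻¹)⁻¹ * (g * b * g⁻¹)⁻¹ *
      (List.ofFn (MulAut.conj g ∘ c)).prod = g * v * g⁻¹ ∧
    ∀ i, IsConj (κ i) (g * c i * g⁻¹) then sgn (cj g σ) else 0) = _
  have h1 : g * a * g⁻¹ * (g * b * g⁻¹) * (g * a * g⁻¹)⁻¹ * (g * b * g⁻¹)⁻¹ *
      (List.ofFn (MulAut.conj g ∘ c)).prod =
      g * (a * b * a⁻¹ * b⁻¹ * (List.ofFn c).prod) * g⁻¹ := by
    rw [← List.map_ofFn, ← map_list_prod, MulAut.conj_apply]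
    group
  simp only [h1, isPChain_cj, conj_mem_stab_cj_iff, isConj_conj_iff, sgn_cj, mul_left_inj,
    mul_right_inj]

end Pool.Agent.Lib.MP_b6945b_al.Kx
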