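import Pool.Agent.Lib.MP_b6945b_al.Kx.TTup

set_option autoImplicit false

/-!
The signed number of tuples of a given type.
-/

namespace Pool.Agent.Lib.MP_b6945b_al.Kx

open Finset Pointwise MulAction

variable {G : Type} [Group G] {N : ℕ}

lemma comm_prod {q : G} {c : Fin N → G} (h : ∀ i, q * c i = c i * q) :
    q * (List.ofFn c).prod = (List.ofFn c).prod * q := by
  refine (Commute.list_prod_right _ q fun x hx => ?_).eq
  obtain ⟨i, rfl⟩ := (List.mem_ofFn' _ _).1 hx
  exact h i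

open Classical in
/-- The signed number of tuples of a given type is divisible by `|Q|` times the period. -/
lemma type_dvdK [Finite G] {p : ℕ} [Fact p.Prime] (v : G) (κ : Fin N → G) (Q : Subgroup G)
    (hQ : IsPGroup p Q)
    (hab : IsAb Q) (hv : ∀ q ∈ Q, q * v = v * q) (m : ℕ) (Δ : Set (Q × ℕ)) (e : ℕ)
    (hΔ : ∀ i, ((1 : Q), i) ∈ Δ ↔ p ^ e ∣ i) :
    (Nat.card Q : ℤ) * (p ^ e : ℕ) ∣ ∑ x : Tup N G,
      if WK p v κ x ∧ tyD Q (x.a ^ m) x.b (DK Q x.a x.c x.σ) = Δ then sgn x.σ else 0 := by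
  have hsplit : ∀ x : Tup N G,
      (if WK p v κ x ∧ tyD Q (x.a ^ m) x.b (DK Q x.a x.c x.σ) = Δ then sgn x.σ else 0) =
      (if WK p v κ x ∧ (tyD Q (x.a ^ m) x.b (DK Q x.a x.c x.σ) = Δ ∧ NT x.b (DK Q x.a x.c x.σ))
        then sgn x.σ else 0) +
      (if WK p v κ x ∧ (tyD Q (x.a ^ m) x.b (DK Q x.a x.c x.σ) = Δ ∧ ¬ NT x.b (DK Q x.a x.c x.σ))
        then sgn x.σ else 0) := by
    intro x
    by_cases h1 : WK p v κ x <;> by_cases h2 : tyD Q (x.a ^ m) x.b (DK Q x.a x.c x.σ) = Δ <;>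
      by_cases h3 : NT x.b (DK Q x.a x.c x.σ) <;> simp [h1, h2, h3]
  have h0 : ∑ x : Tup N G,
      (if WK p v κ x ∧ (tyD Q (x.a ^ m) x.b (DK Q x.a x.c x.σ) = Δ ∧ ¬ NT x.b (DK Q x.a x.c x.σ))
        then sgn x.σ else 0) = 0 := by
    have h1 := vanish_tup (p := p) v κ Q hQ hab
      (fun x => tyD Q (x.a ^ m) x.b (DK Q x.a x.c x.σ) = Δ ∧ ¬ NT x.b (DK Q x.a x.c x.σ))
      (fun a b D => tyD Q (a ^ m) b D = Δ ∧ ¬ NT b D) (fun _ _ => Iff.rfl) (by
        intro a b D h
        have := h.2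
        unfold NT at this
        push Not at this
        obtain ⟨T, h1, h2, h3⟩ := this
        exact ⟨T, h3, h1, h2⟩)
    refine Eq.trans ?_ h1
    refine Finset.sum_congr rfl (fun x _ => ?_)
    split_ifs <;> rfl
  rw [Finset.sum_congr rfl (fun x _ => hsplit x), Finset.sum_add_distrib, h0, add_zero,
    sum_tup_cus]
  refine dvd_sum_of_stabilizer (Γ := Q) _ ?_ _ ?_
  · intro g y
    have hgD : ∀ x ∈ DK Q y.a y.c y.σ, x * g = g * x := fun x hx => hab x (DK_le _ _ _ _ hx) g g.2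
    rw [← Equiv.sum_comp (MulAction.toPerm (((g : G), (g : G)) : G × G) : Equiv.Perm (Bi G))]
    refine Finset.sum_congr rfl (fun b _ => ?_)
    simp only [MulAction.toPerm_apply, Bi.smul_def, Subgroup.smul_def, Cus.smul_def, sgn_cj]
    refine if_congr ?_ rfl rfl
    rw [DK_smul hab g.2, conj_pow, tyD_conj hgD, NT_mul hgD hgD]
    exact and_congr_left' (WK_smul (hv g g.2) ⟨y.a, b.v, y.c, y.σ⟩)
  · intro y
    by_cases hy : ∃ b : Bi G, WK p v κ ⟨y.a, b.v, y.c, y.σ⟩ ∧
        tyD Q (y.a ^ m) b.v (DK Q y.a y.c y.σ) = Δ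
    swap
    · rw [Finset.sum_eq_zero]
      · exact dvd_zero _
      · intro b _
        refine if_neg (fun h => hy ⟨b, h.1, h.2.1⟩)
    obtain ⟨b₀, hW₀, hty₀⟩ := hy
    set R := DK Q y.a y.c y.σ with hR
    set t := y.a ^ m with ht
    have hchain : IsPChain p y.σ := hW₀.1
    have ha : y.a ∈ stab y.σ := hW₀.2.1
    have hord : orderOf t = p ^ e := by
      have : ∀ i, t ^ i = 1 ↔ p ^ e ∣ i := by
        intro i
        rw [← hΔ i, ← hty₀]
        simp [tyD]
      apply Nat.dvd_antisymm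
      · exact orderOf_dvd_of_pow_eq_one ((this _).2 dvd_rfl)
      · exact (this _).1 (pow_orderOf_eq_one t)
    have hRab : IsAb R := hab.mono (DK_le _ _ _ _)
    have hRa : ∀ x ∈ R, x * y.a = y.a * x := fun x hx => (mem_DK.1 hx).2.2.1
    have hRt : ∀ x ∈ R, x * t = t * x := fun x hx =>
      ((show Commute x y.a from hRa x hx).pow_right m).eq
    set S := R ⊔ Subgroup.zpowers t with hS
    have hSab : IsAb S := isAb_sup hRab hRt
    have hRS : R ≤ S := le_sup_left
    have htS : t ∈ S := (le_sup_right : Subgroup.zpowers t ≤ S) (Subgroup.mem_zpowers t)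
    have hSp : IsPGroup p S := by
      refine IsPGroup.to_sup_of_normal_left' (hQ.to_le (DK_le _ _ _ _)) ?_ ?_
      · exact IsPGroup.of_card (by rw [Nat.card_zpowers, hord])
      · rw [Subgroup.zpowers_le]; exact mem_normalizer_of_comm hRt
    have hSa : ∀ s ∈ S, s * y.a = y.a * s := by
      have : S ≤ Subgroup.centralizer {y.a} := by
        refine sup_le (fun x hx => Subgroup.mem_centralizer_singleton_iff.2 (hRa x hx)) ?_
        rw [Subgroup.zpowers_le, Subgroup.mem_centralizer_singleton_iff]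
        exact ((Commute.refl y.a).pow_left m).eq
      exact fun s hs => Subgroup.mem_centralizer_singleton_iff.1 (this hs)
    have hSσ : S ≤ stab y.σ := by
      refine sup_le (fun x hx => (mem_DK.1 hx).1) ?_
      rw [Subgroup.zpowers_le]; exact Subgroup.pow_mem _ ha m
    have hcard : Nat.card (stabilizer Q y) = Nat.card R := by
      refine Nat.card_congr (Equiv.ofBijective (fun z => ⟨z.1.1, ?_⟩) ⟨?_, ?_⟩)
      · have hz : (z.1 : G) • y = y := z.2
        rw [Cus.smul_def] at hz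
        have h1 : (z.1 : G) * y.a * (z.1 : G)⁻¹ = y.a := congrArg Cus.a hz
        have h2 : cj (z.1 : G) y.σ = y.σ := congrArg Cus.σ hz
        have h3 : ∀ i, (z.1 : G) * y.c i * (z.1 : G)⁻¹ = y.c i := congrFun (congrArg Cus.c hz)
        exact mem_DK.2 ⟨(cj_eq_iff hchain.1).1 h2, z.1.2, mul_inv_eq_iff_eq_mul.1 h1,
          fun i => mul_inv_eq_iff_eq_mul.1 (h3 i)⟩
      · intro z z' e
        have e' := congrArg Subtype.val e
        exact Subtype.ext (Subtype.ext e')
      · rintro ⟨q, hq⟩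
        have hq' := mem_DK.1 hq
        refine ⟨⟨⟨q, hq'.2.1⟩, ?_⟩, rfl⟩
        change q • y = y
        rw [Cus.smul_def]
        ext1
        · exact mul_inv_eq_iff_eq_mul.2 hq'.2.2.1
        · exact funext fun i => mul_inv_eq_iff_eq_mul.2 (hq'.2.2.2 i)
        · exact cj_eq_of_mem_stab hq'.1
    rw [hcard]
    refine dvd_sum_of_orbit (Γ := R.prod S) _ ?_ _ ?_
    · rintro ⟨⟨q, s⟩, hq, hs⟩ b
      have hq' : q ∈ R := hq
      have hs' : s ∈ S := hs
      simp only [Subgroup.smul_def, Bi.smul_def]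
      refine if_congr ?_ rfl rfl
      have hqR : ∀ x ∈ R, x * q = q * x := fun x hx => hRab x hx q hq'
      have hsR : ∀ x ∈ R, x * s = s * x := fun x hx => hSab x (hRS hx) s hs'
      rw [← hR, ← ht, tyD_mul hqR hsR (hSab s hs' t htS), NT_mul hqR hsR]
      refine and_congr_left' ?_
      simp only [WK]
      refine and_congr_right (fun _ => and_congr_right (fun _ => and_congr ?_
        (and_congr_right fun _ => and_congr_left' ?_)))
      · rw [Subgroup.mul_mem_cancel_right _ (Subgroup.inv_mem _ (hSσ hs')),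
          Subgroup.mul_mem_cancel_left _ (hSσ (hRS hq'))]
      · have e0 := comm_prod (mem_DK.1 hq').2.2.2
        have e1 : y.a * (q * b.v * s⁻¹) * y.a⁻¹ * (q * b.v * s⁻¹)⁻¹ * (List.ofFn y.c).prod =
            q * (y.a * b.v * y.a⁻¹ * b.v⁻¹ * (List.ofFn y.c).prod) * q⁻¹ := by
          have h2 : s⁻¹ * y.a⁻¹ = y.a⁻¹ * s⁻¹ :=
            ((show Commute s y.a from hSa s hs').inv_inv).eq
          calc y.a * (q * b.v * s⁻¹) * y.a⁻¹ * (q * b.v * s⁻¹)⁻¹ * (List.ofFn y.c).prod
              = (y.a * q) * b.v * (s⁻¹ * y.a⁻¹) * (q * b.v * s⁻¹)⁻¹ *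
                ((List.ofFn y.c).prod * q) * q⁻¹ := by group
            _ = q * (y.a * b.v * y.a⁻¹ * b.v⁻¹) * q⁻¹ * (q * (List.ofFn y.c).prod) * q⁻¹ := by
                rw [← hRa q hq', h2, ← e0]; group
            _ = _ := by group
        have e2 : q * v * q⁻¹ = v := by
          rw [hv q (DK_le _ _ _ _ hq'), mul_inv_cancel_right]
        rw [e1]
        conv_lhs => rw [← e2]
        rw [mul_left_inj, mul_right_inj]
    · intro b
      split_ifs with h
      · refine Dvd.dvd.mul_right ?_ _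
        have := dvd_card_orbit hSp hSab hRS htS hord b h.2.2
        exact_mod_cast this
      · simp

end Pool.Agent.Lib.MP_b6945b_al.Kx
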