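import Pool.Agent.Lib.MP_b6945b_al.Kx.TMove
import Pool.Agent.Lib.MP_b6945b_al.Kx.TType

set_option autoImplicit false

/-!
The divisibility theorem on a torus with several holes.
-/

namespace Pool.Agent.Lib.MP_b6945b_al.Kx

open Finset Pointwise MulAction

variable {G : Type} [Group G] {N : ℕ}

/-- A self-map of a finite type with a left inverse, as a permutation. -/
noncomputable def toP {X : Type} [Finite X] {f g : X → X} (h : Function.LeftInverse g f) :
    Equiv.Perm X := Equiv.ofBijective f (Finite.injective_iff_bijective.1 h.injective)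

lemma toP_apply {X : Type} [Finite X] {f g : X → X} (h : Function.LeftInverse g f) (x : X) :
    toP h x = f x := rfl

lemma perm_iff {X : Type} [Finite X] (α : Equiv.Perm X) {W : X → Prop} (h : ∀ x, W x → W (α x))
    (x : X) : W (α x) ↔ W x := by
  refine ⟨fun hx => ?_, h x⟩
  have h1 : ∀ n y, W y → W ((α ^ n) y) := by
    intro n
    induction n with
    | zero => exact fun y hy => hy
    | succ n ih => exact fun y hy => by rw [pow_succ', Equiv.Perm.mul_apply]; exact h _ (ih y hy)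
  have h2 := h1 (orderOf α - 1) _ hx
  rwa [← Equiv.Perm.mul_apply, ← pow_succ, Nat.sub_add_cancel (orderOf_pos α), pow_orderOf_eq_one,
    Equiv.Perm.one_apply] at h2

lemma tauK_iff [Finite G] {p : ℕ} (Q : Subgroup G) (m i : ℕ) (x : Tup N G)
    (hx : IsPChain p x.σ) (q : Q) :
    ((toP (tbF_inv 0) ^ m) ^ i) x = q • x ↔
      (q : G) ∈ DK Q x.a x.c x.σ ∧ x.b * (x.a ^ m) ^ i = q * x.b * (q : G)⁻¹ := by
  rw [← pow_mul, Equiv.Perm.coe_pow]
  change (tbF (·⁻¹) 0)^[m * i] x = _ ↔ _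
  rw [tbF_iter, Subgroup.smul_def, Tup.smul_def, Tup.mk.injEq, mem_DK, pow_mul,
    eq_comm (a := x.σ), cj_eq_iff hx.1, eq_mul_inv_iff_mul_eq, funext_iff]
  simp only [eq_mul_inv_iff_mul_eq (a := x.c _)]
  constructor
  · rintro ⟨h1, h2, h4, h3⟩; exact ⟨⟨h3, q.2, h1.symm, fun i => (h4 i).symm⟩, h2⟩
  · rintro ⟨⟨h3, _, h1, h4⟩, h2⟩; exact ⟨h1.symm, h2, fun i => (h4 i).symm, h3⟩

lemma smulK_iff [Finite G] {p : ℕ} (Q : Subgroup G) (x : Tup N G)
    (hx : IsPChain p x.σ) (q : Q) :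
    q • x = x ↔ (q : G) ∈ DK Q x.a x.c x.σ ∧ q * x.b = x.b * q := by
  have := tauK_iff Q 0 0 x hx q
  simp only [pow_zero, Equiv.Perm.coe_one, id_eq, mul_one] at this
  rw [eq_comm, this, eq_mul_inv_iff_mul_eq, eq_comm]

/-- Permutations commuting with the action and preserving the weight. -/
def Ok (Q : Type) {X : Type} [CommGroup Q] [MulAction Q X] (f : X → ℤ) (α : Equiv.Perm X) : Prop :=
  Comm Q α ∧ ∀ x, f (α x) = f x

section
variable {Q X : Type} [CommGroup Q] [MulAction Q X] {f : X → ℤ} {α β : Equiv.Perm X}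

lemma Ok.mul (h : Ok Q f α) (h' : Ok Q f β) : Ok Q f (α * β) :=
  ⟨h.1.mul h'.1, fun x => by rw [Equiv.Perm.mul_apply, h.2, h'.2]⟩

lemma Ok.pow (h : Ok Q f α) (n : ℕ) : Ok Q f (α ^ n) := by
  induction n with
  | zero => exact ⟨fun q x => by simp, fun x => by simp⟩
  | succ n ih => rw [pow_succ]; exact ih.mul h

variable [Fintype (orbitRel.Quotient Q X)]

lemma Ok.V_mul (hf : Good Q f) (h : Ok Q f α) (h' : Ok Q f β) :
    V Q f (α * β) = V Q f α * V Q f β := MP_b6945b_al.V_mul hf h.1 h'.1 h'.2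

lemma Ok.V_braid (hf : Good Q f) (h : Ok Q f α) (h' : Ok Q f β) (e : α * (β * α) = β * (α * β)) :
    V Q f α = V Q f β := by
  have := congrArg (V Q f) e
  rw [h.V_mul hf (h'.mul h), h'.V_mul hf (h.mul h'), h'.V_mul hf h, h.V_mul hf h',
    mul_comm (V Q f β) (V Q f α)] at this
  exact mul_right_cancel this

end

open scoped IsMulCommutative in
open Classical in
/-- **Divisibility theorem** for a torus with several holes. -/
theorem nnK_dvd [Fintype G] [Fintype (Finset (Subgroup G))] {p : ℕ} [Fact p.Prime] {N : ℕ} (v : G)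
    (κ : Fin N → G) (Q : Subgroup G) (hQ : IsPGroup p Q) (hab : IsAb Q)
    (hv : ∀ q ∈ Q, q * v = v * q) (m : ℕ) (hm : ∀ g : G, ∃ e, orderOf (g ^ m) = p ^ e)
    (hvm : v ^ m ∈ Q) : (Nat.card Q : ℤ) * orderOf (v ^ m) ∣ nnK p v κ := by
  have : IsMulCommutative Q := ⟨⟨fun x y => Subtype.ext (hab x x.2 y y.2)⟩⟩
  let _ : Fintype (orbitRel.Quotient Q (Tup N G)) := Fintype.ofFinite _
  let f : Tup N G → ℤ := fun x => if WK p v κ x ∧ Free Q x then sgn x.σ else 0
  have hfW : ∀ x, f x ≠ 0 → WK p v κ x ∧ Free Q x := by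
    intro x hx
    by_contra h
    exact hx (if_neg h)
  have hgood : Good Q f := by
    refine ⟨fun q x => ?_, fun x hx => (hfW x hx).2⟩
    have h1 : WK p v κ (q • x) ↔ WK p v κ x := WK_smul (hv q q.2) x
    have h2 : Free Q (q • x) ↔ Free Q x := by
      refine ⟨fun h => ?_, fun h => h.smul q⟩
      have := h.smul q⁻¹
      rwa [inv_smul_smul] at this
    have h3 : sgn (q • x).σ = sgn x.σ := sgn_cj _ _
    simp only [f, h1, h2, h3]
  have hsum : ∑ x, f x = nnK p v κ := by
    have h0 := vanish_tup (p := p) v κ Q hQ hab (fun x => ¬ Free Q x)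
      (fun _ b D => ∃ q ∈ D, q ≠ 1 ∧ q * b = b * q) (by
        intro x hx
        unfold Free
        push Not
        constructor
        · rintro ⟨q, h1, h2⟩
          have := (smulK_iff Q x hx.1 q).1 h1
          exact ⟨q, this.1, fun e => h2 (Subtype.ext e), this.2⟩
        · rintro ⟨q, h1, h2, h3⟩
          exact ⟨⟨q, DK_le _ _ _ _ h1⟩, (smulK_iff Q x hx.1 _).2 ⟨h1, h3⟩,
            fun e => h2 (congrArg Subtype.val e)⟩) (by
        rintro a b D ⟨q, h1, h2, h3⟩
        refine ⟨Subgroup.zpowers q, ?_, Subgroup.zpowers_le.2 h1, mem_normalizer_of_comm ?_⟩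
        · rwa [Ne, Subgroup.zpowers_eq_bot]
        · rintro _ ⟨k, rfl⟩
          exact ((show Commute q b from h3).zpow_left k).eq)
    rw [nnK_eq]
    refine Eq.trans (add_zero _).symm ?_
    conv_lhs => rw [← h0]
    rw [← Finset.sum_add_distrib]
    refine Finset.sum_congr rfl (fun x _ => ?_)
    by_cases h1 : WK p v κ x <;> by_cases h2 : Free Q x <;> simp [f, h1, h2]
  have hok : ∀ α : Equiv.Perm (Tup N G), (∀ (g : G) x, α (g • x) = g • α x) →
      (∀ x, WK p v κ x → WK p v κ (α x)) → (∀ x, (α x).σ = x.σ) → Ok Q f α := by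
    intro α h1 h2 h3
    have hα : Comm Q α := fun q x => h1 (q : G) x
    refine ⟨hα, fun x => ?_⟩
    have h4 : Free Q (α x) ↔ Free Q x := by
      refine ⟨fun h q hq => h q ?_, hα.free⟩
      rw [← hα, hq]
    simp only [f, perm_iff α h2, h4, h3]
  have hA : Ok Q f (toP a2F_inv) := hok _ a2F_smul (fun _ => a2F_WK) fun _ => rfl
  have hB : ∀ l, Ok Q f (toP (tbF_inv l)) := fun l =>
    hok _ (tbF_smul l) (fun _ => tbF_WK l) fun _ => rfl
  have hC : ∀ l, Ok Q f (toP (tcF_inv l)) := fun l =>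
    hok _ (tcF_smul l) (fun _ => tcF_WK l) fun _ => rfl
  have hD : ∀ l, Ok Q f (toP (ddF_inv l)) := fun l =>
    hok _ (ddF_smul l) (fun _ => ddF_WK l) fun _ => rfl
  have vB : ∀ l, V Q f (toP (tbF_inv l)) = V Q f (toP a2F_inv) := fun l =>
    (hB l).V_braid hgood hA (Equiv.ext (rel_tb l))
  have vC : ∀ l, V Q f (toP (tcF_inv l)) = V Q f (toP a2F_inv) := fun l =>
    (hC l).V_braid hgood hA (Equiv.ext (rel_tc l))
  have vD : ∀ l, V Q f (toP (ddF_inv l)) = V Q f (toP a2F_inv) ^ 12 := by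
    intro l
    induction l with
    | zero =>
      have h3 := (hB 0).mul (hA.mul (hB 0))
      have e : toP (ddF_inv (N := N) (G := G) 0) =
          (toP (tbF_inv 0) * (toP a2F_inv * toP (tbF_inv 0))) ^ 4 := by
        refine Equiv.ext fun x => ?_
        simp only [pow_succ, pow_zero, one_mul, Equiv.Perm.mul_apply, toP_apply]
        exact (rel_chain rel_three x).symm
      rw [e, V_pow hgood h3.1 h3.2, (hB 0).V_mul hgood (hA.mul (hB 0)), hA.V_mul hgood (hB 0), vB,
        ← pow_three, ← pow_mul]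
    | succ l ih =>
      have e : toP (ddF_inv (N := N) (G := G) (l + 1)) * (toP (tbF_inv 0) * toP (tbF_inv l)) =
          toP (ddF_inv l) * (toP (tcF_inv l) * toP (tbF_inv (l + 1))) :=
        Equiv.ext (rel_lantern l)
      have := congrArg (V Q f) e
      rw [(hD _).V_mul hgood ((hB 0).mul (hB l)), (hD _).V_mul hgood ((hC l).mul (hB _)),
        (hB 0).V_mul hgood (hB l), (hC l).V_mul hgood (hB _), vB, vB, vB, vC, ih] at this
      exact mul_right_cancel this
  have hVτ : V Q f (toP (tbF_inv 0) ^ m) = 1 := by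
    refine V_eq_one hgood ((hB 0).pow m).1 ((hB 0).pow m).2 ?_
    intro x₀ hx₀
    obtain ⟨hW₀, hfree₀⟩ := hfW x₀ hx₀
    obtain ⟨e, he⟩ := hm x₀.a
    have hty : ∀ x : Tup N G, IsPChain p x.σ →
        ty Q (toP (tbF_inv 0) ^ m) x = tyD Q (x.a ^ m) x.b (DK Q x.a x.c x.σ) := by
      intro x hx
      ext ⟨q, i⟩
      exact tauK_iff Q m i x hx q
    refine ⟨p ^ e, pow_pos (Fact.out : p.Prime).pos e, ?_, ?_⟩
    · have := (tauK_iff Q m (p ^ e) x₀ hW₀.1 1).2 ⟨one_mem _, by
        rw [← he, pow_orderOf_eq_one]; simp⟩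
      rwa [one_smul] at this
    · have := type_dvdK v κ Q hQ hab hv m (ty Q (toP (tbF_inv 0) ^ m) x₀) e (by
        intro i
        rw [hty x₀ hW₀.1, ← he, orderOf_dvd_iff_pow_eq_one]
        simp [tyD])
      rw [Finset.sum_filter]
      refine dvd_trans this (dvd_of_eq (Finset.sum_congr rfl (fun x _ => ?_)))
      by_cases h1 : WK p v κ x
      · rw [← hty x h1.1]
        by_cases h2 : ty Q (toP (tbF_inv 0) ^ m) x = ty Q (toP (tbF_inv 0) ^ m) x₀
        · have h3 : Free Q x := by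
            intro q hq
            apply hfree₀ q
            have : (q, 0) ∈ ty Q (toP (tbF_inv 0) ^ m) x := by simp [ty, hq]
            rw [h2] at this
            simpa [ty, eq_comm] using this
          simp [f, h1, h2, h3]
        · simp [h2]
      · simp [f, h1]
  have hpow : ∀ (k : ℕ) (x : Tup N G), WK p v κ x →
      (toP (ddF_inv N) ^ k) x = (v ^ k)⁻¹ • x := by
    intro k x hx
    induction k with
    | zero => simp
    | succ k ih =>
      rw [pow_succ', Equiv.Perm.mul_apply, ih, toP_apply, ddF_smul, ddF_top hx, ← mul_smul,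
        ← mul_inv_rev, ← pow_succ']
  have hu := V_of_eq_smul hgood (u := (⟨v ^ m, hvm⟩ : Q)⁻¹) (α := toP (ddF_inv N) ^ m)
    (fun x hx => hpow m x (hfW x hx).1)
  rw [V_pow hgood (hD N).1 (hD N).2, vD, ← pow_mul, mul_comm, pow_mul, ← vB 0,
    ← V_pow hgood (hB 0).1 (hB 0).2, hVτ, one_pow] at hu
  rw [← hsum, ← card_mul_sum_out hgood]
  refine mul_dvd_mul_left _ ?_
  have h1 := orderOf_dvd_iff_zpow_eq_one.2 hu.symm
  rwa [orderOf_inv, ← Subgroup.orderOf_coe] at h1

end Pool.Agent.Lib.MP_b6945b_al.Kx
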