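import Pool.Agent.Lib.MP_b6945b_al.Kx.FA
import Pool.Agent.Lib.MP_b6945b_al.Kx.TDvd
import Pool.Agent.Lib.MP_b6945b_al.Kx.Defs

set_option autoImplicit false

/-!
The alternating sum modulo the order of the `p`-part of a good class.
-/

namespace Pool.Agent.Lib.MP_b6945b_al.Kx

open St Bi Finset MulAction

variable {G : Type} [Group G] {V : ValuationSubring ℂ} {p : ℕ}

lemma orderOf_pp_eq [Finite G] [Fact p.Prime] (v : G) :
    orderOf (v ^ (Nat.card G / p ^ (Nat.card G).factorization p)) = orderOf (pp p v) := by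
  have hp : p.Prime := Fact.out
  have hG : Nat.card G ≠ 0 := Nat.card_pos.ne'
  obtain ⟨⟨k, h1⟩, -, h3⟩ := pp_spec (p := p) v
  have h4 : Commute (pp p v) (pq p v) := mem_Cu.1 (pq_mem_Cu (p := p) v)
  have h5 : orderOf (pq p v) ∣ Nat.card G / p ^ (Nat.card G).factorization p := by
    refine (((Nat.Prime.coprime_iff_not_dvd hp).2 h3).symm.pow_right
      ((Nat.card G).factorization p)).dvd_of_dvd_mul_left ?_
    rw [Nat.ordProj_mul_ordCompl_eq_self]
    exact orderOf_dvd_natCard _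
  conv_lhs => rw [← pp_mul_pq (p := p) v]
  rw [h4.mul_pow, orderOf_dvd_iff_pow_eq_one.1 h5, mul_one]
  exact Nat.Coprime.orderOf_pow (Nat.Coprime.coprime_dvd_left (orderOf_dvd_of_pow_eq_one h1)
    ((Nat.coprime_ordCompl hp hG).pow_left k))

lemma nnK_class_mem [Fintype G] [Fintype (Finset (Subgroup G))] [Fact p.Prime]
    (hp : (p : ℂ) ∈ V.nonunits) (v : G)
    (hab : ∀ S : Subgroup G, IsPGroup p S → (∀ s ∈ S, s * v = v * s) → IsAb S) {N : ℕ}
    (κ : Fin N → G) : ∑ w, ind (IsConj v) w * nnK p w κ ∈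
      JV V (Nat.card G * orderOf (pp p v)) := by
  have hpp : p.Prime := Fact.out
  rw [sum_ind_conj (⟨v⟩ : Cj G) (fun w => (nnK p w κ : ℂ)) (fun g w => by simp only [nnK_conj]),
    ← orbit_Cj (⟨v⟩ : Cj G), ← orderOf_pp_eq]
  change _ * (nnK p v κ : ℂ) ∈ JV V (((_ * Nat.card (Subgroup.centralizer {v}) : ℕ) : ℂ) * _)
  obtain ⟨C, hC⟩ : ∃ C : Subgroup G, C = Subgroup.centralizer {v} := ⟨_, rfl⟩
  rw [← hC]
  obtain ⟨S⟩ : Nonempty (Sylow p C) := inferInstance
  have hmC : ∀ g, g ∈ C ↔ g * v = v * g := fun g => by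
    rw [hC, Subgroup.mem_centralizer_singleton_iff]
  set m := Nat.card G / p ^ (Nat.card G).factorization p with hm
  have hvC : v ∈ C := (hmC _).2 rfl
  obtain ⟨e, he⟩ := exists_pow_pelt p v
  have hu : IsPElt p ((⟨v, hvC⟩ : C) ^ m) := ⟨e, Subtype.ext (by
    change (v ^ m) ^ p ^ e = 1
    rw [← he, pow_orderOf_eq_one])⟩
  have hn : (Subgroup.zpowers ((⟨v, hvC⟩ : C) ^ m)).Normal := by
    refine ⟨fun n hn g => ?_⟩
    obtain ⟨k, rfl⟩ := hn
    have h1 : Commute g (⟨v, hvC⟩ : C) := Subtype.ext ((hmC _).1 g.2)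
    have h2 := ((h1.pow_right m).zpow_right k).eq
    change g * ((⟨v, hvC⟩ : C) ^ m) ^ k * g⁻¹ ∈ _
    rw [h2, mul_inv_cancel_right]
    exact ⟨k, rfl⟩
  have hmem : (⟨v, hvC⟩ : C) ^ m ∈ (S : Subgroup C) :=
    hu.isPGroup.le_sylow_of_normal S (Subgroup.mem_zpowers _)
  have hS : ∀ q ∈ (S : Subgroup C).map C.subtype, q * v = v * q := by
    rintro _ ⟨q, _, rfl⟩
    exact (hmC _).1 q.2
  have h1 := nnK_dvd v κ _ (S.isPGroup'.map C.subtype) (hab _ (S.isPGroup'.map C.subtype) hS) hS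
    m (exists_pow_pelt p) ⟨_, hmem, rfl⟩
  rw [Subgroup.card_subtype, S.card_eq_multiplicity] at h1
  obtain ⟨t, ht⟩ := h1
  have hC0 : Nat.card C ≠ 0 := Nat.card_pos.ne'
  refine ⟨t * ((Nat.card C / p ^ (Nat.card C).factorization p : ℕ) : ℂ)⁻¹,
    V.mul_mem _ _ (intCast_mem V t) (inv_nat_mem hp (Nat.not_dvd_ordCompl hpp hC0)), ?_⟩
  have h5 : ((Nat.card C / p ^ (Nat.card C).factorization p : ℕ) : ℂ) ≠ 0 := by
    exact_mod_cast (Nat.ordCompl_pos p hC0).ne'
  conv_rhs => rw [← Nat.ordProj_mul_ordCompl_eq_self (Nat.card C) p]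
  rw [ht, Nat.cast_mul (α := ℂ), Nat.cast_mul (α := ℂ), Nat.ordProj_mul_ordCompl_eq_self]
  generalize ((Nat.card C / p ^ (Nat.card C).factorization p : ℕ) : ℂ) = r at h5
  push_cast
  field_simp

/-- An indicator function as a multiple of a function that is a unit on its support. -/
lemma exists_ind {Ω : Type} [Fintype Ω] (A : Subring (Ω → ℂ))
    (hA : ∀ c ∈ V, ∀ a ∈ A, c • a ∈ A) (B : Ω → Prop) {x : Ω → ℂ} (hx : x ∈ A)
    (hxB : ∀ u, B u → x u ∉ V.nonunits)
    (h0 : ∀ j, ¬ B j → ∃ b ∈ A, b j = 0 ∧ ∀ u, B u → b u ∉ V.nonunits) :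
    ∃ c ∈ A, x * c = ind B := by
  classical
  choose! b hb1 hb2 hb3 using h0
  let y := x * ∏ j ∈ univ.filter (fun j => ¬ B j), b j
  have hw : ∏ j ∈ univ.filter (fun j => ¬ B j), b j ∈ A :=
    prod_mem (fun j hj => hb1 j (Finset.mem_filter.1 hj).2)
  have hy : y ∈ A := mul_mem hx hw
  have hyB : ∀ u, B u → y u ∉ V.nonunits := by
    intro u hu
    refine mul_not_mem_nonunits (hxB u hu) ?_
    rw [Finset.prod_apply]
    refine Finset.prod_induction _ (fun t => t ∉ V.nonunits) (fun _ _ => mul_not_mem_nonunits)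
      (one_not_mem_nonunits V) (fun j hj => hb3 j (Finset.mem_filter.1 hj).2 u hu)
  have hyN : ∀ j, ¬ B j → y j = 0 := by
    intro j hj
    simp only [y, Pi.mul_apply, Finset.prod_apply]
    have hm : j ∈ univ.filter (fun j => ¬ B j) := Finset.mem_filter.2 ⟨Finset.mem_univ j, hj⟩
    rw [Finset.prod_eq_zero (f := fun c => b c j) hm (hb2 j hj), mul_zero]
  let t : {j // B j} → A := fun j =>
    ⟨(y j.1)⁻¹ • y, hA _ (inv_mem_of_not_nonunit (hyB j.1 j.2)) _ hy⟩
  have h1 := one_sub_prod_mem (Ideal.span {(⟨x, hx⟩ : A)}) univ t (by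
    intro j _
    rw [Ideal.mem_span_singleton]
    refine ⟨⟨(y j.1)⁻¹ • _, hA _ (inv_mem_of_not_nonunit (hyB j.1 j.2)) _ hw⟩, ?_⟩
    apply Subtype.ext
    simp [t, y])
  obtain ⟨c, hc⟩ := Ideal.mem_span_singleton.1 h1
  refine ⟨c, c.2, ?_⟩
  have h2 := congrArg Subtype.val hc
  change _ = x * c at h2
  rw [← h2]
  ext k
  simp only [AddSubgroupClass.coe_sub, OneMemClass.coe_one, SubmonoidClass.coe_finsetProd,
    Pi.sub_apply, Pi.one_apply, Finset.prod_apply, t, Pi.smul_apply, smul_eq_mul]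
  by_cases e : B k
  · rw [ind_pos e, Finset.prod_eq_zero (Finset.mem_univ ⟨k, e⟩), sub_zero]
    have : y k ≠ 0 := fun e0 => hyB k e (e0 ▸ zero_mem _)
    rw [inv_mul_cancel₀ this, sub_self]
  · rw [ind_neg e, hyN k e]; simp

/-- A linear form that is divisible on all monomials is divisible at the indicator. -/
lemma ind_mem_JV {Ω X : Type} [Fintype Ω] (Φ : (Ω → ℂ) →ₗ[ℂ] ℂ) (s : X → Ω → ℂ) (a : X → ℂ)
    (hs : ∀ x w, s x w ∈ V) (v : X) (hv : a v ∉ V.nonunits) (n : ℂ)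
    (h : ∀ (N : ℕ) (κ : Fin N → X), Φ (s v * ∏ i, s (κ i)) ∈ JV V n) :
    Φ (ind (fun w => ∀ x, s x w - a x ∈ V.nonunits)) ∈ JV V n := by
  let J : (Ω → ℂ) → Prop := fun r => ∀ (N : ℕ) (κ : Fin N → X), Φ (r * ∏ i, s (κ i)) ∈ JV V n
  let A : Subring (Ω → ℂ) :=
    { carrier := {b | ∀ r, J r → J (r * b)}
      one_mem' := fun r hr => by rwa [mul_one]
      mul_mem' := fun hb hc r hr => by rw [← mul_assoc]; exact hc _ (hb _ hr)
      zero_mem' := fun r _ N κ => by rw [mul_zero, zero_mul, map_zero]; exact zero_mem _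
      add_mem' := fun hb hc r hr N κ => by
        rw [mul_add, add_mul, map_add]; exact add_mem (hb r hr N κ) (hc r hr N κ)
      neg_mem' := fun hb r hr N κ => by
        rw [mul_neg, neg_mul, map_neg]; exact neg_mem (hb r hr N κ) }
  have hA : ∀ c ∈ V, ∀ b ∈ A, c • b ∈ A := by
    intro c hc b hb r hr N κ
    obtain ⟨δ, h1, h2⟩ := hb r hr N κ
    refine ⟨c * δ, V.mul_mem _ _ hc h1, ?_⟩
    rw [mul_smul_comm, smul_mul_assoc, map_smul, h2, smul_eq_mul]
    ring
  have hsA : ∀ x, s x ∈ A := by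
    intro x r hr N κ
    have := hr (N + 1) (Fin.cons x κ)
    rwa [Fin.prod_univ_succ, ← mul_assoc] at this
  obtain ⟨c, hc, e⟩ := exists_ind A hA (fun w => ∀ x, s x w - a x ∈ V.nonunits) (hsA v)
    (fun u hu e => hv (by simpa using sub_mem e (hu v))) (by
      intro j hj
      push Not at hj
      obtain ⟨x, hx⟩ := hj
      refine ⟨s x j • 1 - s x, sub_mem (hA _ (hs x j) _ (one_mem _)) (hsA x), by simp,
        fun u hu e => hx ?_⟩
      simpa using add_mem e (hu x))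
  have := hc _ h 0 default
  rwa [e, Fintype.prod_empty, mul_one] at this

lemma pow_dvd_of_mem [Fact p.Prime] (hp : (p : ℂ) ∈ V.nonunits) (e : ℕ) {t : ℤ} {δ : ℂ}
    (hδ : δ ∈ V) (h : (t : ℂ) = p ^ e * δ) : (p : ℤ) ^ e ∣ t := by
  induction e generalizing δ with
  | zero => simp
  | succ e ih =>
    obtain ⟨u, rfl⟩ := ih (V.mul_mem _ _ (natCast_mem V p) hδ) (by rw [h]; ring)
    have h1 : (u : ℂ) = p * δ := by
      apply mul_left_cancel₀ (pow_ne_zero e (show (p : ℂ) ≠ 0 by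
        exact_mod_cast (Fact.out : p.Prime).ne_zero))
      rw [← mul_assoc, ← pow_succ, ← h]
      push_cast
      rfl
    rw [pow_succ]
    exact mul_dvd_mul_left _ (int_dvd_of_mem hp (h1 ▸ mul_mem_nonunits hp hδ))

/-- Blocks I-b, I-d. -/
theorem KS_dvd_of_class [Fintype G] [Fact p.Prime] {M : Ideal (integralClosure ℤ ℂ)}
    (hM : CoefB p M V) (I : IrrData G) (i : Fin I.n) (v : G)
    (hv : I.om i (ind (IsConj v)) ∉ V.nonunits)
    (hab : ∀ S : Subgroup G, IsPGroup p S → (∀ s ∈ S, s * v = v * s) → IsAb S) :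
    ((orderOf (pp p v) : ℤ) * Nat.card G) ∣ KS p M (I.χ i) := by
  classical
  let _ : Fintype (Finset (Subgroup G)) := Fintype.ofFinite _
  let _ : Fintype (Subgroup G) := Fintype.ofFinite _
  let F : ∀ H : Subgroup G, Fintype H := fun H => Fintype.ofFinite H
  let K : ∀ H : Subgroup G, IrrData H := fun H => (exists_irrData H).some
  let s : G → (Σ H : Subgroup G, Fin (K H).n) → ℂ := fun x w =>
    (K w.1).om w.2 (res w.1 (ind (IsConj x)))
  let Φ : ((Σ H : Subgroup G, Fin (K H).n) → ℂ) →ₗ[ℂ] ℂ :=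
    { toFun := fun r => ∑ σ : Finset (Subgroup G), if IsPChain p σ then
        (sgn σ : ℂ) * (Nat.card (stab σ) * ∑ j, r ⟨stab σ, j⟩) else 0
      map_add' := fun r r' => by
        rw [← Finset.sum_add_distrib]
        refine Finset.sum_congr rfl (fun σ _ => ?_)
        split_ifs
        · simp only [Pi.add_apply, Finset.sum_add_distrib, mul_add]
        · rw [add_zero]
      map_smul' := fun c r => by
        rw [smul_eq_mul, Finset.mul_sum]
        refine Finset.sum_congr rfl (fun σ _ => ?_)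
        split_ifs
        · simp only [Pi.smul_apply, smul_eq_mul, ← Finset.mul_sum, RingHom.id_apply]
          ring
        · rw [mul_zero] }
  have h1 := ind_mem_JV (V := V) Φ s (fun x => I.om i (ind (IsConj x)))
    (fun x w => (K w.1).om_mem _ ((isCF_ind (isConj_conj_iff x)).res _) (fun _ => ind_mem _ _ _))
    v hv (Nat.card G * orderOf (pp p v)) (by
      intro N κ
      have := nnK_class_mem hM.nonunit v hab (fun i => (κ i)⁻¹)
      rw [sum_nnK] at this
      convert this using 1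
      refine Finset.sum_congr rfl (fun σ _ => ?_)
      rw [cntW_cntK _ (K (stab σ))]
      simp only [inv_inv, Pi.mul_apply, Finset.prod_apply, s])
  have h2 : Φ (ind (fun w => ∀ x, s x w - I.om i (ind (IsConj x)) ∈ V.nonunits)) =
      KS p M (I.χ i) := by
    rw [KS_eq]
    push_cast
    refine Finset.sum_congr rfl (fun σ _ => ?_)
    rw [wfB, kInd_eq_card hM.iff I i _ (K (stab σ)), Finset.card_filter]
    push_cast
    rfl
  have hT : (Nat.card G : ℤ) ∣ KS p M (I.χ i) := by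
    rw [KS_eq, ← Int.mem_zmultiples_iff]
    refine chain_sum_mem _ _ ?_ ?_
    · intro g σ
      have : Nat.card (stab (cj g σ)) = Nat.card (stab σ) :=
        Nat.card_congr (Equiv.subtypeEquiv (MulAut.conj g).toEquiv
          (fun a => conj_mem_stab_cj_iff.symm)).symm
      simp only [sgn_cj, wfB, kInd_cj, this]
    · intro σ _ k hk
      rw [Int.mem_zmultiples_iff, ← hk, nsmul_eq_mul, wfB]
      push_cast
      exact ⟨sgn σ * kInd M (I.χ i) (stab σ), by ring⟩
  obtain ⟨t, ht⟩ := hT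
  obtain ⟨δ, h3, h4⟩ := h1
  obtain ⟨e, he⟩ := exists_pow_pelt p v
  rw [orderOf_pp_eq] at he
  rw [h2, ht, he] at h4
  rw [ht, he, mul_comm]
  refine mul_dvd_mul_left _ ?_
  push_cast at h4 ⊢
  refine pow_dvd_of_mem hM.nonunit e h3 (mul_left_cancel₀
    (show (Nat.card G : ℂ) ≠ 0 by exact_mod_cast Nat.card_pos.ne') ?_)
  rw [h4, mul_assoc]

end Pool.Agent.Lib.MP_b6945b_al.Kx
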