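import Pool.Agent.Lib.MP_b6945b_al.Kx.OInert

set_option autoImplicit false

/-!
The system of projections of a block with abelian defect group, for every prime.
-/

namespace Pool.Agent.Lib.MP_b6945b_al.Kx

open St Bi IsLocalRing Finset
open MonoidAlgebra (single)

variable {G : Type} [Group G] [Fintype G] {V : ValuationSubring ℂ} {p : ℕ} [Fact p.Prime]
  {m : ℕ} {D : Subgroup G} {c₀ : MonoidAlgebra V G}

open Classical in
theorem ms0 (hp : (p : ℂ) ∈ V.nonunits) (h : Rt p m ⊤ D c₀) {I : IrrData G} {i₀ : Fin I.n}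
    (he : IsBlockIdem I i₀ (bk D c₀ ⊤)) [Fintype D] (E : Subgroup (MulAut D)) [Fintype E]
    (h1 : Nat.card E * Nat.card (Cz D) = Nat.card (stabT ⊤ D c₀))
    (h2 : ∀ g : E, ∃ n ∈ stabT ⊤ D c₀, ∀ d : D, ((g : MulAut D) d : G) = n * d * n⁻¹)
    (h3 : ∀ n ∈ stabT ⊤ D c₀, ∃ g : E, ∀ d : D, ((g : MulAut D) d : G) = n * d * n⁻¹)
    (h4 : ∀ d : D, stb E.subtype d * Nat.card (Cz D) =
      Nat.card (stabT ⊤ D c₀ ⊓ Cu (d : G) : Subgroup G)) :
    MS0 p E.subtype fun d : D => mat p I i₀ (eta D c₀ (orb (stabT ⊤ D c₀) d)) := by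
  have hinv : ∀ d : G, EtaInv (eta D c₀ (orb (stabT ⊤ D c₀) d)) :=
    fun d => eta_inv hp h (invT_orb _ _ _)
  refine ⟨fun a b => Subtype.ext (h.comm _ a.2 _ b.2), h.pD,
    fun d => ?_, fun d => mat_orb_idem hp h he d, fun d d' hd => ?_, fun g d => ?_, ?_,
    fun k lam hl χ ψ => ?_, fun d χ hχ => ?_⟩
  · rw [mat_star hp]
    congr 1
    funext u c
    rw [eta_star]
    congr 1
    funext x
    unfold orb ind
    split_ifs <;> simp
  · rw [mat_mul hp he (hinv d) (eta_supp hp h _), ← mat_zero (p := p) (I := I) (i₀ := i₀),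
      ← eta_zero (D := D) (c₀ := c₀)]
    congr 1
    funext u c
    rw [← eta_mul]
    congr 1
    funext x
    unfold orb ind
    split_ifs with a b
    · exfalso
      obtain ⟨n', hn', rfl⟩ := a
      obtain ⟨n, hn, e⟩ := b
      obtain ⟨g, hg⟩ := h3 (n'⁻¹ * n) (Subgroup.mul_mem _ (Subgroup.inv_mem _ hn') hn)
      refine hd g (Subtype.ext ?_)
      change ((g : MulAut D) d : G) = d'
      rw [hg d, mul_inv_rev, inv_inv]
      calc n'⁻¹ * n * d * (n⁻¹ * n') = n'⁻¹ * (n * d * n⁻¹) * n' := by group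
        _ = d' := by rw [← e]; group
    all_goals simp
  · obtain ⟨n, hn, hg⟩ := h2 g
    have e : ((E.subtype g d : D) : G) = n * d * n⁻¹ := hg d
    rw [e, orb_conj hn]
  · have h5 := bms_sum (p := p) I i₀ E h1 h4 (Λ := fun _ => 1) (fun _ _ _ _ => rfl)
    rw [mat_eta_one hp h he] at h5
    simpa only [mul_one] using h5
  · obtain ⟨Λ, hΛ, hS⟩ : ∃ Λ : G → ℂ, (∀ d : D, Λ d = ∑ i, lam i d) ∧ SC D Λ := by
      refine ⟨fun g => ∑ i, if hg : g ∈ D then lam i ⟨g, hg⟩ else 0, fun d => ?_,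
        SC.sum _ fun i _ => SC.of_mul fun a ha b hb => ?_⟩
      · simp only [d.2, dif_pos]
      · rw [dif_pos ha, dif_pos hb, dif_pos (D.mul_mem ha hb), ← map_mul]
        rfl
    have hT : InvT (stabT ⊤ D c₀) D Λ := by
      intro n hn d hd
      obtain ⟨g, hg⟩ := h3 n hn
      rw [← hg ⟨d, hd⟩, hΛ, hΛ ⟨d, hd⟩]
      exact hl g ⟨d, hd⟩
    obtain ⟨z, hz⟩ := mat_int hp h hS hT I i₀ χ ψ
    have h5 := congrFun (congrFun (bms_sum (p := p) I i₀ E h1 h4 hT) χ) ψ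
    rw [Matrix.sum_apply, Matrix.smul_apply, hz, smul_eq_mul] at h5
    refine ⟨z, ?_⟩
    rw [← h5]
    refine Finset.sum_congr rfl fun d _ => ?_
    rw [Matrix.smul_apply, smul_eq_mul, hΛ]
  · have h5 := Star_eq_zero_of_diag hp he (hinv d) (eta_supp hp h _) (fun u c => by
      rw [eta_orb hp h d.2]
      split_ifs <;> simp) hχ
    have h6 := Star_orb_self hp h d.2 (I.χ χ) (s := 1) (Subgroup.one_mem _) (by
      rw [orderOf_one, Nat.dvd_one]
      exact (Fact.out : p.Prime).ne_one)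
    rw [h5, mul_one] at h6
    exact ev_ne_zero' hp h d.2 he χ.2 h6.symm

/-- The data of a block with abelian defect group. -/
theorem exists_ms0 (hp : (p : ℂ) ∈ V.nonunits) (h : Rt p m ⊤ D c₀) [Fintype D] :
    ∃ (X : Type) (_ : Fintype X) (_ : DecidableEq X) (E : Subgroup (MulAut D)) (_ : Fintype E)
      (P : D → Matrix X X ℂ), MS0 p E.subtype P ∧
      (∀ d : D, (P d).rank = lL p (Cu (d : G)) (bk D c₀ (Cu (d : G)))) ∧
      (P 1).rank = lL p ⊤ (bk D c₀ ⊤) ∧ ¬ p ∣ Nat.card E ∧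
      Nat.card E * Nat.card (Cz D) = Nat.card (stabT ⊤ D c₀) ∧
      ∀ d : D, stb E.subtype d * Nat.card (Cz D) = Nat.card (stabT (Cu (d : G)) D c₀) := by
  classical
  obtain ⟨I⟩ := exists_irrData G
  obtain ⟨i₀, he⟩ := (h.spec hp le_top).1.exists_blockIdem I
  obtain ⟨E, h1, h2, h3, h4⟩ := exists_inertial (D := D) (T := stabT ⊤ D c₀)
    (fun n hn => hn.2.1) h.Cz_le_stab
  let _ : Fintype E := Fintype.ofFinite _
  have h7 := rank_orb hp h D.one_mem he
  rw [Cu_one] at h7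
  refine ⟨_, _, _, E, _, _, ms0 hp h he E h1 h2 h3 h4, fun d => rank_orb hp h d.2 he, h7,
    fun hE => not_dvd_inert hp h ?_, h1, fun d => (h4 d).trans ?_⟩
  · have h5 := Subgroup.index_mul_card ((Cz D).subgroupOf (stabT ⊤ D c₀))
    rw [Nat.card_congr (Subgroup.subgroupOfEquivOfLe h.Cz_le_stab).toEquiv, ← h1] at h5
    exact hE.trans (Nat.eq_of_mul_eq_mul_right Nat.card_pos h5).symm.dvd
  · congr 2
    ext n
    exact ⟨fun hn => ⟨hn.2, hn.1.2⟩, fun hn => ⟨⟨trivial, hn.2⟩, hn.1⟩⟩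

end Pool.Agent.Lib.MP_b6945b_al.Kx
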