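import Pool.Agent.Lib.MP_b6945b_al.Kx.LAut
import Pool.Agent.Lib.MP_b6945b_al.Kx.LMS
import Pool.Agent.Lib.MP_b6945b_al.Kx.ARed2

set_option autoImplicit false

/-!
The number of Brauer characters is bounded in terms of the rank of an abelian defect group.
-/

namespace Pool.Agent.Lib.MP_b6945b_al.Kx

open St Bi IsLocalRing Finset

section
variable {G : Type} [Group G] [Fintype G] {V : ValuationSubring ℂ} {p : ℕ} [Fact p.Prime]
  {m : ℕ} {H D : Subgroup G} {c : MonoidAlgebra V G}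

omit [Fact p.Prime] in
lemma lind_inert (h : Rt p m H D c) {k : ℕ} (hk : Nat.card (stabT H D c) ≤ k * Nat.card (Cz D)) :
    Rt p k H D c := ⟨h.pD, h.comm, h.le, h.root, h.max, hk⟩

lemma lind_pull (hp : (p : ℂ) ∈ V.nonunits) (h : Rt p m H D c) [Fintype H] :
    lL p H (bk D c H) = lL p ⊤ (bk (D.subgroupOf H) (St.pull V H.subtype c) ⊤) := by
  have h2 := h.lL_map hp (K := ⊤) le_top
  rwa [map_top_sub] at h2

omit [Fact p.Prime] in
lemma lind_om1 (h : Rt p m H D c) : om1 p (D.subgroupOf H) = om1 p D :=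
  om1_congr (Subgroup.subgroupOfEquivOfLe h.le_H)

end

/-- Inertial index one. -/
theorem lL_le_one {V : ValuationSubring ℂ} {p : ℕ} [Fact p.Prime] (hp : (p : ℂ) ∈ V.nonunits)
    (n : ℕ) : ∀ (G : Type) [Group G] [Fintype G], Nat.card G < n → ∀ (D : Subgroup G)
      (c : MonoidAlgebra V G), Rt p 1 ⊤ D c → lL p ⊤ (bk D c ⊤) ≤ 1 := by
  induction n with
  | zero => exact fun G _ _ h => absurd h (Nat.not_lt_zero _)
  | succ n ih =>
    intro G _ _ hG D c h
    by_cases hc : ∀ d ∈ D, Cu d = ⊤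
    · have : D.Normal := ⟨fun d hd g => by
        have h1 : g ∈ Cu d := (hc d hd).ge (Subgroup.mem_top g)
        rwa [← mem_Cu.1 h1, mul_inv_cancel_right]⟩
      exact lL_normal_le hp (Fact.out : p.Prime).one_lt h
    obtain ⟨d, hd⟩ := not_forall.1 hc
    obtain ⟨hd, hne⟩ := Classical.not_imp.1 hd
    let _ : Fintype D := Fintype.ofFinite _
    let _ : Fintype (Cu d) := Fintype.ofFinite _
    obtain ⟨X, _, _, E, _, P, h1, h2, h3, -, h5, -⟩ := exists_ms0 hp h
    have h6 : Nat.card E ≤ 1 := Nat.le_of_mul_le_mul_right (h5.trans_le h.inert) Nat.card_pos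
    have h7 : Subsingleton E := Finite.card_le_one_iff_subsingleton.1 h6
    have h8 := rank_eq_of_trivial Fact.out h1
      (fun g x => by rw [Subsingleton.elim g 1, map_one, MulAut.one_apply]) ⟨d, hd⟩
    rw [← h3, ← h8, h2, lind_pull hp (h.cu_top hp hd)]
    exact ih _ ((bind_card_lt hne).trans_le (Nat.lt_succ_iff.1 hG)) _ _ ((h.cu_top hp hd).pull hp)

/-- Induction on the inertial index. -/
theorem lL_bound_inert (p b : ℕ) [Fact p.Prime] (m : ℕ) : ∃ C : ℕ, ∀ (V : ValuationSubring ℂ),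
    (p : ℂ) ∈ V.nonunits → ∀ (G : Type) [Group G] [Fintype G] (D : Subgroup G)
      (c : MonoidAlgebra V G), Rt p m ⊤ D c → om1 p D ≤ b → lL p ⊤ (bk D c ⊤) ≤ C := by
  induction m with
  | zero =>
    exact ⟨1, fun V hp G _ _ D c h _ => lL_le_one hp _ G (Nat.lt_succ_self _) D c
      (lind_inert h (h.inert.trans (Nat.mul_le_mul_right _ zero_le_one)))⟩
  | succ m ih =>
    obtain ⟨r, hr⟩ := ih
    obtain ⟨C, hC⟩ := rank_bound_moved p (m + 1) r b Fact.out
    refine ⟨max 1 C, fun V hp G _ _ D c h hb => ?_⟩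
    let _ : Fintype D := Fintype.ofFinite _
    obtain ⟨X, _, _, E, _, P, h1, h2, h3, h4, h5, h6⟩ := exists_ms0 hp h
    have h7 : Nat.card E ≤ m + 1 := Nat.le_of_mul_le_mul_right (h5.trans_le h.inert) Nat.card_pos
    by_cases hm : ∃ (g : E) (d : D), E.subtype g d ≠ d
    · refine le_trans ?_ (le_max_right _ _)
      rw [Nat.card_eq_fintype_card] at h4
      rw [← h3]
      refine hC E D X _ P (by rwa [← Nat.card_eq_fintype_card]) h4 hb h1 hm fun d ⟨g, hg⟩ => ?_
      have h8 : stb E.subtype d < Nat.card E := Finite.card_subtype_lt hg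
      have h9 : Rt p m (Cu (d : G)) D c := lind_inert (h.cu_top hp d.2)
        ((h6 d).ge.trans (Nat.mul_le_mul_right _ (by omega)))
      let _ : Fintype (Cu (d : G)) := Fintype.ofFinite _
      rw [h2, lind_pull hp h9]
      exact hr V hp _ _ _ (h9.pull hp) ((lind_om1 h9).trans_le hb)
    · refine le_trans (lL_le_one hp _ G (Nat.lt_succ_self _) D c (lind_inert h ?_))
        (le_max_left _ _)
      have h8 : ∀ g : E, g = 1 := fun g =>
        Subtype.ext (MulEquiv.ext fun d => not_not.1 fun e => hm ⟨g, d, e⟩)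
      have h9 : Subsingleton E := ⟨fun g g' => (h8 g).trans (h8 g').symm⟩
      rw [← h5]
      exact Nat.mul_le_mul_right _ (Finite.card_le_one_iff_subsingleton.2 h9)

theorem lL_bound_rank (p b : ℕ) [Fact p.Prime] : ∃ C : ℕ, ∀ (V : ValuationSubring ℂ),
    (p : ℂ) ∈ V.nonunits → ∀ (G : Type) [Group G] [Fintype G] (m : ℕ) (H D : Subgroup G)
      (c : MonoidAlgebra V G), Rt p m H D c → om1 p D ≤ b → lL p H (bk D c H) ≤ C := by
  obtain ⟨C, hC⟩ := lL_bound_inert p b b.factorial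
  refine ⟨C, fun V hp G _ _ m H D c h hb => ?_⟩
  let _ : Fintype H := Fintype.ofFinite _
  let _ : Fintype (D.subgroupOf H) := Fintype.ofFinite _
  have h' := h.pull hp
  have hb' := (lind_om1 h).trans_le hb
  obtain ⟨X, _, _, E, _, P, h1, -, -, h4, h5, -⟩ := exists_ms0 hp h'
  rw [lind_pull hp h]
  refine hC V hp _ _ _ (lind_inert h' (h5.ge.trans (Nat.mul_le_mul_right _ ?_))) hb'
  exact (card_le_factorial Fact.out h1.comm h1.pD E h4).trans (Nat.factorial_le hb')

end Pool.Agent.Lib.MP_b6945b_al.Kx
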