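import Pool.Agent.Lib.MP_b6945b_al.Kx.CFin
import Pool.Agent.Lib.MP_b6945b_al.Kx.FB
import Pool.Agent.Lib.MP_b6945b_al.Kx.LInd

set_option autoImplicit false

/-!
Assembly: the congruence modulo the exponent and the bound for the alternating sum.
-/

namespace Pool.Agent.Lib.MP_b6945b_al.Kx

open St Bi IsLocalRing Finset

section group
variable {G : Type} [Group G] [Finite G] {p : ℕ}

lemma om1_eq (S : Subgroup G) (h : IsAb S) : om1 p S = Nat.card (omg p S h) := by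
  refine Nat.card_congr ⟨fun x => ⟨x.1.1, x.1.2, congrArg Subtype.val x.2⟩,
    fun x => ⟨⟨x.1, x.2.1⟩, Subtype.ext x.2.2⟩, fun _ => rfl, fun _ => rfl⟩

lemma card_le_pow_of_exp {b : ℕ} (k : ℕ) : ∀ (S : Subgroup G) (h : IsAb S),
    Nat.card (omg p S h) ≤ b → (∀ x ∈ S, x ^ p ^ k = 1) → Nat.card S ≤ b ^ k := by
  induction k with
  | zero =>
    intro S _ _ hx
    have : S = ⊥ := (Subgroup.eq_bot_iff_forall S).2 fun x h => by simpa using hx x h
    rw [this, Subgroup.card_bot, pow_zero]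
  | succ k ih =>
    intro S h hb hx
    have h1 : omg p (mho p S h) (h.mono (mho_le p S h)) ≤ omg p S h :=
      fun x hx => ⟨mho_le p S h hx.1, hx.2⟩
    have h2 := ih (mho p S h) (h.mono (mho_le p S h))
      ((Subgroup.card_le_of_le h1).trans hb) (by
        rintro _ ⟨y, hy, rfl⟩
        rw [← pow_mul, ← pow_succ']
        exact hx y hy)
    rw [card_eq_mho_mul_omg p S h, pow_succ]
    exact Nat.mul_le_mul h2 hb

lemma om1_le_of_rank (hp : 0 < p) (S : Subgroup G) (h : IsAb S) {n : ℕ} (hn : Group.rank S ≤ n) :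
    om1 p S ≤ p ^ n := by
  letI : CommGroup S := { (inferInstance : Group S) with
    mul_comm := fun x y => Subtype.ext (h x x.2 y y.2) }
  let f : S →* S := powMonoidHom p
  have h1 : om1 p S = Nat.card f.ker := rfl
  have h2 : Nat.card f.ker = Nat.card (S ⧸ f.range) := by
    have a := Subgroup.card_eq_card_quotient_mul_card_subgroup f.ker
    have b := Subgroup.card_eq_card_quotient_mul_card_subgroup f.range
    rw [Nat.card_congr (QuotientGroup.quotientKerEquivRange f).toEquiv] at a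
    refine Nat.eq_of_mul_eq_mul_left (Nat.card_pos (α := f.range)) ?_
    rw [← a, b, mul_comm]
  have h3 : Nat.card (S ⧸ f.range) ∣ p ^ Group.rank (S ⧸ f.range) := by
    refine card_dvd_exponent_pow_rank' _ fun g => ?_
    obtain ⟨g, rfl⟩ := QuotientGroup.mk_surjective g
    rw [← QuotientGroup.mk_pow, QuotientGroup.eq_one_iff]
    exact ⟨g, rfl⟩
  have h4 : Group.rank (S ⧸ f.range) ≤ Group.rank S :=
    Group.rank_le_of_surjective (QuotientGroup.mk' f.range) (QuotientGroup.mk'_surjective _)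
  rw [h1, h2]
  exact (Nat.le_of_dvd (pow_pos hp _) h3).trans (Nat.pow_le_pow_right hp (h4.trans hn))

end group

variable {G : Type} [Group G] [Fintype G] {V : ValuationSubring ℂ} {p : ℕ} [Fact p.Prime]
  {M : Ideal (integralClosure ℤ ℂ)} {D : Subgroup G}

lemma exists_rt (hM : CoefB p M V) (I : IrrData G) (i : Fin I.n)
    (hD : IsDefectGroup p M (I.χ i) D) (hc : ∀ x ∈ D, ∀ y ∈ D, x * y = y * x) :
    ∃ c : MonoidAlgebra V G, Rt p (Nat.card G) ⊤ D c ∧ IsBlockIdem I i (bk D c ⊤) := by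
  have hpV := hM.nonunit
  have hDV := defV_of_isDefectGroup hM.iff I i hD
  obtain ⟨e, he⟩ := St.exists_blockIdem (V := V) I i
  have hb := hb_of_blockIdem he
  obtain ⟨y, hy, hy'⟩ := hDV.exists_coeff hpV he
  obtain ⟨c, hc', hl⟩ := exists_root hpV hDV.pD le_top hb.idem hb.supp hb.fix (bil_ne hy hy')
  rw [top_inf_eq] at hc'
  have h1 : bk D c ⊤ = e := bk_eq hpV hDV.pD le_top hb hc'.res_ne hl
  refine ⟨c, ⟨hDV.pD, hc, le_top, hc', ?_, ?_⟩, h1 ▸ he⟩
  · rw [h1]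
    intro z hz S _ hS hSz
    obtain ⟨g, hg⟩ := hDV.conj_of_coeff hpV he hz hS hSz
    exact blkF_card_le hg
  · exact (Subgroup.card_le_card_group _).trans (Nat.le_mul_of_pos_right _ Nat.card_pos)

theorem kr_sum_large (p : ℕ) (hp : p.Prime) (n : ℕ) : ∃ N : ℕ, ∀ (G : Type) [Group G] [Finite G]
      (M : Ideal (integralClosure ℤ ℂ)), M.IsMaximal → (p : integralClosure ℤ ℂ) ∈ M →
      ∀ (χ : G → ℂ), IsIrrChar χ →
      ∀ (D : Subgroup G), IsDefectGroup p M χ D → (∀ x ∈ D, ∀ y ∈ D, x * y = y * x) →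
      Group.rank D ≤ n → N < Nat.card D →
      ∑ᶠ (σ : Finset (Subgroup G))
        (_ : IsChain (· ≤ ·) (σ : Set (Subgroup G)) ∧ ∀ P ∈ σ, IsPGroup p P ∧ P ≠ ⊥),
        (-1 : ℤ) ^ σ.card *
          ((Nat.card (⨅ P ∈ σ, Subgroup.normalizer (P : Set G) : Subgroup G) : ℤ) *
            kInd M χ (⨅ P ∈ σ, Subgroup.normalizer (P : Set G))) = 0 := by
  classical
  haveI : Fact p.Prime := ⟨hp⟩
  obtain ⟨C, hC⟩ := lL_bound_rank p (p ^ n)
  refine ⟨(p ^ n) ^ (2 ^ 2 ^ p ^ n * C), fun G _ _ M hM hpM χ hχ D hD hc hn hN => ?_⟩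
  letI : Fintype G := Fintype.ofFinite G
  letI : Fintype (Finset (Subgroup G)) := Fintype.ofFinite _
  obtain ⟨V, hV⟩ := exists_val_of_maximal M hM
  have hB : CoefB p M V := ⟨hp, hM, hpM, hV⟩
  obtain ⟨I⟩ := exists_irrData G
  obtain ⟨i, rfl⟩ := (isIrrChar_iff I).1 hχ
  obtain ⟨c, h, he⟩ := exists_rt hB I i hD hc
  have hb := om1_le_of_rank hp.pos D hc hn
  rw [finsum_eq_chain, ← KS_eq]
  have h1 := abs_KS_le hB h he fun H hH => hC V hB.nonunit G _ H D c hH hb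
  obtain ⟨d, hd, hd'⟩ : ∃ d ∈ D, d ^ p ^ (2 ^ 2 ^ p ^ n * C) ≠ 1 := by
    by_contra hno
    push Not at hno
    exact absurd (card_le_pow_of_exp _ D hc (om1_eq (p := p) D hc ▸ hb) hno) (not_le.2 hN)
  obtain ⟨v, hv, rfl, hab⟩ := exists_good_class hB.nonunit h hd he
  have h2 := KS_dvd_of_class hB I i v hv hab
  obtain ⟨k, hk⟩ := (h.pelt hd)
  obtain ⟨j, -, hj⟩ := (Nat.dvd_prime_pow hp).1 (orderOf_dvd_of_pow_eq_one hk)
  have h3 : 2 ^ 2 ^ p ^ n * C < j := by
    by_contra hle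
    exact hd' (orderOf_dvd_iff_pow_eq_one.1 (hj ▸ pow_dvd_pow p (not_lt.1 hle)))
  have h4 : 2 ^ 2 ^ om1 p D * C < orderOf (pp p v) :=
    calc 2 ^ 2 ^ om1 p D * C ≤ 2 ^ 2 ^ p ^ n * C := Nat.mul_le_mul_right _
          (Nat.pow_le_pow_right two_pos (Nat.pow_le_pow_right two_pos hb))
      _ < j := h3
      _ < p ^ j := Nat.lt_pow_self hp.one_lt
      _ = _ := hj.symm
  refine Int.eq_zero_of_abs_lt_dvd h2 (lt_of_le_of_lt h1 ?_)
  rw [mul_comm]
  exact mul_lt_mul_of_pos_right (by exact_mod_cast h4) (by exact_mod_cast Nat.card_pos)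

end Pool.Agent.Lib.MP_b6945b_al.Kx
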