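import Pool.Agent.Lib.MP_b6945b_al.Kx.Defs0

set_option autoImplicit false

/-!
Coprime automorphisms of an abelian `p`-group act faithfully on the elements killed by `p`.
-/

namespace Pool.Agent.Lib.MP_b6945b_al.Kx

variable {D : Type} [Group D] {p : ℕ}

lemma laut_step (hc : ∀ a b : D, a * b = b * a) (β : MulAut D) {q : ℕ}
    (h : ∀ x, x ^ (p * q) = 1 → β x = x) {x : D} (hx : x ^ (p * (p * q)) = 1) :
    (β ^ p) x = x := by
  have h1 : β (x ^ p) = x ^ p := h _ (by rw [← pow_mul, hx])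
  have h2 : (x⁻¹ * β x) ^ p = 1 := by
    rw [Commute.mul_pow (hc _ _), ← map_pow, h1, inv_pow, inv_mul_cancel]
  have h3 : β (x⁻¹ * β x) = x⁻¹ * β x := h _ (by rw [pow_mul, h2, one_pow])
  have h4 : ∀ n : ℕ, (β ^ n) x = x * (x⁻¹ * β x) ^ n := fun n => by
    induction n with
    | zero => simp
    | succ n ih =>
      rw [pow_succ', MulAut.mul_apply, ih, map_mul, map_pow, h3, pow_succ', ← mul_assoc,
        mul_inv_cancel_left]
  rw [h4, h2, mul_one]

lemma laut_eq_one [Finite D] (hp : p.Prime) (hc : ∀ a b : D, a * b = b * a) (hD : IsPGroup p D)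
    (α : MulAut D) (hα : ¬ p ∣ orderOf α) (h : ∀ x, x ^ p = 1 → α x = x) : α = 1 := by
  have := Fact.mk hp
  have h1 : ∀ (j : ℕ) (x : D), x ^ (p * p ^ j) = 1 → (α ^ p ^ j) x = x := fun j => by
    induction j with
    | zero => simpa using h
    | succ j ih =>
      intro x hx
      rw [pow_succ, pow_mul]
      exact laut_step hc _ ih (by rwa [pow_succ'] at hx)
  obtain ⟨k, hk⟩ := IsPGroup.iff_card.1 hD
  have h2 : α ^ p ^ k = 1 := MulEquiv.ext fun x => h1 k x (by
    rw [mul_comm, pow_mul, ← hk, pow_card_eq_one', one_pow])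
  obtain ⟨j, -, hj⟩ := (Nat.dvd_prime_pow hp).1 (orderOf_dvd_of_pow_eq_one h2)
  rcases j with _ | j
  · exact orderOf_eq_one_iff.1 hj
  · exact absurd (hj ▸ dvd_pow_self p j.succ_ne_zero) hα

theorem card_le_factorial [Finite D] (hp : p.Prime) (hc : ∀ a b : D, a * b = b * a)
    (hD : IsPGroup p D) (E : Subgroup (MulAut D)) (hE : ¬ p ∣ Nat.card E) :
    Nat.card E ≤ (om1 p D).factorial := by
  have h1 : ∀ (g : MulAut D) (x : D), g x ^ p = 1 ↔ x ^ p = 1 := fun g x => by
    rw [← map_pow, MulEquiv.map_eq_one_iff]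
  rw [om1, ← Nat.card_perm]
  refine Nat.card_le_card_of_injective
    (fun g : E => Equiv.Perm.subtypePerm (g : MulAut D).toEquiv (h1 g)) fun g g' e => ?_
  have h2 : ((g⁻¹ * g' : E) : MulAut D) = 1 := by
    refine laut_eq_one hp hc hD _ (fun h => hE (h.trans ?_)) fun x hx => ?_
    · rw [Subgroup.orderOf_coe]
      exact orderOf_dvd_natCard _
    · have h3 : (g : MulAut D) x = (g' : MulAut D) x :=
        congrArg Subtype.val (Equiv.congr_fun e ⟨x, hx⟩)
      rw [Subgroup.coe_mul, MulAut.mul_apply, ← h3, Subgroup.coe_inv, MulAut.inv_apply_self]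
  exact inv_mul_eq_one.1 (Subtype.ext h2)

lemma om1_congr {D' : Type} [Group D'] (e : D ≃* D') : om1 p D = om1 p D' :=
  Nat.card_congr (e.toEquiv.subtypeEquiv fun x => by
    change _ ↔ e x ^ p = 1
    rw [← map_pow, MulEquiv.map_eq_one_iff])

end Pool.Agent.Lib.MP_b6945b_al.Kx
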