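import Pool.Agent.Lib.MP_b6945b_al.Kx.Defs

set_option autoImplicit false

/-!
The inertial index is prime to `p`; the good conjugacy class.
-/

namespace Pool.Agent.Lib.MP_b6945b_al.Kx

open St Bi IsLocalRing Finset
open MonoidAlgebra (single)

variable {G : Type} [Group G] [Fintype G] {V : ValuationSubring ℂ} {p : ℕ} [Fact p.Prime]
  {m : ℕ} {D : Subgroup G} {c : MonoidAlgebra V G}

lemma oin_normal (hp : (p : ℂ) ∈ V.nonunits) (h : Rt p m ⊤ D c) (hT : stabT ⊤ D c = ⊤) :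
    ¬ p ∣ (Cz D).index := by
  intro hdv
  have hm : ∀ g, g ∈ stabT ⊤ D c := fun g => hT.ge (Subgroup.mem_top g)
  have hN : ⊤ ≤ Nz D := fun g _ => (hm g).2.1
  have hF : Fix ⊤ c := fun g _ => (hm g).2.2
  obtain ⟨hb, hl⟩ := h.spec hp (K := ⊤) le_top
  have h1 : toRes V G (bk D c ⊤) * toRes V G c = toRes V G c := by
    rw [← bb_of_normal hp h.pD le_top hN hb.idem hb.supp hb.fix]
    exact hl
  have h2 : toRes V G (bk D c ⊤) = toRes V G c := by
    rcases hb.dich h.root.idem (supp_top c) hF with e | e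
    · rw [← map_mul, e, map_zero] at h1
      exact absurd h1.symm h.root.res_ne
    · rw [← h1, ← map_mul, e]
  obtain ⟨a, ha, hc⟩ := blkF_trace hp h.pD (fixedBy_top_iff.1 hF) (supp_Cz_iff.1 h.root.supp)
    (fun y hy S hS hDS hSy => by
      have h3 : (bk D c ⊤).coeff y ∉ maximalIdeal V := by
        rw [← residue_eq_zero_iff, ← coeff_toRes] at hy ⊢
        rwa [h2]
      exact (Subgroup.eq_of_le_of_card_ge hDS (h.max y h3 S le_top hS hSy)).symm)
  have hfa : Fix D a := tr_fixed_of_suppCent ha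
  rw [← rtr_trans h.le_Cz le_top hfa] at hc
  have hz1 : Fix (Cz D) (rtr (cjRep V G) D (Cz D) a) := rtr_fixed h.le_Cz hfa
  have hz2 : Supp (Cz D) (rtr (cjRep V G) D (Cz D) a) :=
    supp_Cz_iff.2 (frpg_supp_rtr ha D le_rfl)
  generalize rtr (cjRep V G) D (Cz D) a = z at hc hz1 hz2
  obtain ⟨n, t, hn, ht, hu⟩ := exists_transversal (le_top : Cz D ≤ ⊤)
  rw [rtr_eq_sum le_top hz1 t ht hu] at hc
  have h3 := toRes_eq_zero_iff.2 hc
  rw [map_sub, sub_eq_zero] at h3
  have hcg : ∀ g, cg g (Cz D) = Cz D := fun g => cg_eq_iff.2 (Nz_le_Nz_Cz D (hN trivial))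
  have hS : ∀ i, Supp (Cz D) ((z - cjRep V G (t i) z) * c) := fun i =>
    (hz2.sub (hcg (t i) ▸ hz2.cj (t i))).mul h.root.supp
  have hX : ∀ i, Fix (Cz D) ((z - cjRep V G (t i) z) * c) := fun i =>
    (hz1.sub (hcg (t i) ▸ hz1.cj (t i))).mul h.root.fix
  have h4 : IsNilpotent (∑ i, toRes V G ((z - cjRep V G (t i) z) * c)) := by
    refine Commute.isNilpotent_sum (fun i _ => nilR_iff_res.1
      (bcls_nil h.root (hN trivial) (hF _ trivial) hz2 hz1)) fun i j _ _ => ?_
    exact (hX i).toRes.comm (hS j).toRes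
  have hI : toRes V G c * toRes V G c = toRes V G c := by rw [← map_mul, h.root.idem]
  have h5 : ∑ i, toRes V G ((z - cjRep V G (t i) z) * c) = - toRes V G c := by
    have h6 : (n : MonoidAlgebra (ResidueField V) G) = 0 := by
      rw [Subgroup.relIndex_top_right] at hn
      obtain ⟨k, hk⟩ := hdv
      rw [hn, hk, Nat.cast_mul, ← map_natCast (algebraMap (ResidueField V) _) p, bil_pk hp,
        map_zero, zero_mul]
    simp only [sub_mul, map_sub, map_mul]
    rw [Finset.sum_sub_distrib, Finset.sum_const, card_univ, Fintype.card_fin, nsmul_eq_mul, h6,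
      zero_mul, zero_sub, ← Finset.sum_mul, ← map_sum, ← h3, hI]
  rw [h5, isNilpotent_neg_iff] at h4
  exact h.root.res_ne (IsIdempotentElem.eq_zero_of_isNilpotent hI h4)

theorem not_dvd_inert (hp : (p : ℂ) ∈ V.nonunits) (h : Rt p m ⊤ D c) :
    ¬ p ∣ (Cz D).relIndex (stabT ⊤ D c) := by
  have h1 : Rt p m (stabT ⊤ D c) D c :=
    h.local hp le_rfl (inf_le_right.trans h.Cz_le_stab) le_top fun n hn => hn.2.1
  let _ : Fintype (stabT ⊤ D c) := Fintype.ofFinite _
  have h2 := oin_normal hp (h1.pull hp) (by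
    apply Subgroup.map_injective (stabT ⊤ D c).subtype_injective
    rw [h1.stab_map, map_top_sub]
    exact le_antisymm (fun n hn => hn.1) fun n hn => ⟨hn, hn.2⟩)
  have h3 : Cz (D.subgroupOf (stabT ⊤ D c)) = (Cz D).subgroupOf (stabT ⊤ D c) := by
    conv_rhs => rw [← h1.map_Cz]
    exact (Subgroup.comap_map_eq_self_of_injective (stabT ⊤ D c).subtype_injective _).symm
  rwa [h3] at h2

omit [Fact p.Prime] in
open Classical in
lemma card_orb_eq (T : Subgroup G) (d : G) :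
    (univ.filter (fun u => ∃ n ∈ T, u = n * d * n⁻¹)).card = (Cu d).relIndex T := by
  rw [Subgroup.relIndex, Subgroup.index, Nat.card_eq_fintype_card, ← Finset.card_univ]
  symm
  refine Finset.card_bij (fun q _ => (q.out : G) * d * (q.out : G)⁻¹) (fun q _ => ?_)
    (fun q _ q' _ e => ?_) fun u hu => ?_
  · exact mem_filter.2 ⟨mem_univ _, _, q.out.2, rfl⟩
  · rw [← QuotientGroup.out_eq' q, ← QuotientGroup.out_eq' q', QuotientGroup.eq,
      Subgroup.mem_subgroupOf]
    refine mem_Cu.2 ?_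
    rw [Subgroup.coe_mul, Subgroup.coe_inv]
    calc d * ((q.out : G)⁻¹ * q'.out) = (q.out : G)⁻¹ * ((q.out : G) * d * (q.out : G)⁻¹) *
          q'.out := by group
      _ = (q.out : G)⁻¹ * q'.out * d := by rw [e]; group
  · obtain ⟨n, hn, rfl⟩ := (mem_filter.1 hu).2
    refine ⟨QuotientGroup.mk ⟨n, hn⟩, mem_univ _, ?_⟩
    obtain ⟨s, hs⟩ := QuotientGroup.mk_out_eq_mul ((Cu d).subgroupOf T) ⟨n, hn⟩
    have h2 := mem_Cu.1 (Subgroup.mem_subgroupOf.1 s.2)
    rw [hs, Subgroup.coe_mul, mul_assoc n, ← h2]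
    group

omit [Fintype G] in
lemma oin_unit {k : Type} [Field k] (hpk : (p : k) = 0) {s : Finset G} (h1 : ¬ p ∣ s.card)
    (hs : ∀ u ∈ s, IsPElt p u) (hc : ∀ u ∈ s, ∀ v ∈ s, u * v = v * u) :
    IsUnit (∑ u ∈ s, single u 1 : MonoidAlgebra k G) := by
  have : CharP k p := (CharP.charP_iff_prime_eq_zero Fact.out).2 hpk
  have hn : (s.card : k) ≠ 0 := fun e => h1 ((CharP.cast_eq_zero_iff k p _).1 e)
  have hW : IsNilpotent (∑ u ∈ s, (single u 1 - 1) : MonoidAlgebra k G) := by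
    refine Commute.isNilpotent_sum (fun u hu => nil_single_sub hpk (hs u hu)) ?_
    intro u v hu hv
    refine Commute.sub_left (Commute.sub_right ?_ (Commute.one_right _)) (Commute.one_left _)
    change _ * _ = _ * _
    rw [MonoidAlgebra.single_mul_single, MonoidAlgebra.single_mul_single, hc u hu v hv]
  have hU : IsUnit (s.card : MonoidAlgebra k G) := by
    rw [← map_natCast (algebraMap k (MonoidAlgebra k G))]
    exact (Ne.isUnit hn).map _
  have h2 := hW.isUnit_add_right_of_commute hU (Nat.commute_cast _ _)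
  rwa [Finset.sum_sub_distrib, Finset.sum_const, nsmul_one, sub_add_cancel] at h2

theorem om_rtr_unit (hp : (p : ℂ) ∈ V.nonunits) (h : Rt p m ⊤ D c) {d : G} (hd : d ∈ D)
    {I : IrrData G} {i : Fin I.n} (he : IsBlockIdem I i (bk D c ⊤)) :
    I.om i (cf (rtr (cjRep V G) (Cu d) ⊤ (single d 1 * bk D c (Cu d)))) ∉ V.nonunits := by
  classical
  intro h0
  have hz : Fix ⊤ (rtr (cjRep V G) (Cu d) ⊤ (single d 1 * bk D c (Cu d))) :=
    rtr_fixed le_top (bnon_fix hp h hd)
  have hS := bb_rtr_mul hp h hd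
  generalize rtr (cjRep V G) (Cu d) ⊤ (single d 1 * bk D c (Cu d)) = z at hz hS h0
  have hz' := fixedBy_top_iff.1 hz
  have h4 : I.om i (cf z) - ((0 : V) : ℂ) ∈ V.nonunits := by simpa using h0
  have h5 := IsBlockIdem.nil_subB he hz' h4
  rw [zero_smul, sub_zero] at h5
  obtain ⟨hb, hle⟩ := h.spec hp (le_top : Cz D ≤ ⊤)
  have h6 := bb_nil hp h.pD ((hz.mul hb.fix).mono le_top) h5
  have hC : Fix (Cz D) (toRes V G c) := h.root.fix.toRes
  have h7 : IsNilpotent (bb D (z * bk D c ⊤) * toRes V G c) :=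
    Commute.isNilpotent_mul_right (hC.comm (supp_bb D _)).symm h6
  rw [bb_mul hp h.pD (hz.mono le_top) (hb.fix.mono le_top), mul_assoc, hle, hS,
    ← Finset.sum_mul] at h7
  have hmem : ∀ u ∈ univ.filter (fun u => ∃ n ∈ stabT ⊤ D c, u = n * d * n⁻¹), u ∈ D := by
    intro u hu
    obtain ⟨n, hn, rfl⟩ := (Finset.mem_filter.1 hu).2
    exact bnon_mem hn hd
  have hU := oin_unit (bil_pk hp)
    (s := univ.filter (fun u => ∃ n ∈ stabT ⊤ D c, u = n * d * n⁻¹))
    (fun e => not_dvd_inert hp h ((card_orb_eq (stabT ⊤ D c) d ▸ e).trans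
      (Subgroup.relIndex_dvd_of_le_left _ (Cz_le_Cu hd)))) (fun u hu => h.pelt (hmem u hu))
    (fun u hu v hv => h.comm u (hmem u hu) v (hmem v hv))
  have hc : Commute (∑ u ∈ univ.filter (fun u => ∃ n ∈ stabT ⊤ D c, u = n * d * n⁻¹),
      single u 1 : MonoidAlgebra (ResidueField V) G) (toRes V G c) :=
    (hC.comm (Supp.sum _ fun u hu => supp_single (h.le_Cz (hmem u hu)) 1)).symm
  obtain ⟨n, hn⟩ := h7
  rw [hc.mul_pow, (hU.pow n).mul_right_eq_zero] at hn
  have hI : IsIdempotentElem (toRes V G c) := by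
    change _ * _ = _
    rw [← map_mul, h.root.idem]
  exact h.root.res_ne (by rw [← hI.pow_succ_eq n, pow_succ, hn, zero_mul])

/-- `ev_ne_zero` without the hypothesis `m < p`. -/
theorem ev_ne_zero' (hp : (p : ℂ) ∈ V.nonunits) (h : Rt p m ⊤ D c) {d : G} (hd : d ∈ D)
    {I : IrrData G} {i₀ : Fin I.n} (he : IsBlockIdem I i₀ (bk D c ⊤)) {i : Fin I.n}
    (hi : I.Bl V i₀ i) : ev (I.χ i) (single d 1 * bk D c (Cu d)) ≠ 0 := by
  intro h0
  have hz : Fix ⊤ (rtr (cjRep V G) (Cu d) ⊤ (single d 1 * bk D c (Cu d))) :=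
    rtr_fixed le_top (bnon_fix hp h hd)
  have h1 := ev_rtr (isCF_chi I i) (le_top : Cu d ≤ ⊤) (single d 1 * bk D c (Cu d))
  have h5 := om_rtr_unit hp h hd he
  generalize rtr (cjRep V G) (Cu d) ⊤ (single d 1 * bk D c (Cu d)) = z at hz h1 h5
  rw [h0, mul_zero, ev_chi_eq_om] at h1
  have h2 : I.om i (cf z) = 0 := (mul_eq_zero.1 h1).resolve_left (I.d_ne i)
  have h3 := neg_mem (hi _ (I.om_mem_Lam (isCF_cf_iff.2 (fixedBy_top_iff.1 hz)) (cf_mem z)))
  simp only [h2] at h3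
  exact h5 (by simpa using h3)

/-- A `p`-subgroup centralising an element with a unit coefficient is abelian. -/
lemma isAb_of_coeff (hp : (p : ℂ) ∈ V.nonunits) {H : Subgroup G} (h : Rt p m H D c) {y : G}
    (hy : (bk D c H).coeff y ∉ maximalIdeal V) {S : Subgroup G} (hS : IsPGroup p S) (hSH : S ≤ H)
    (hc : ∀ s ∈ S, s * y = y * s) : IsAb S := by
  obtain ⟨hb, -⟩ := h.spec hp h.le
  obtain ⟨f, hf, hl⟩ := exists_root hp hS hSH hb.idem hb.supp hb.fix
    (bb_ne_zero_iff.2 ⟨y, mem_Cz.2 fun s hs => (hc s hs).symm, hy⟩)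
  obtain ⟨g, -, hg, -⟩ := h.max_pair hp hS hSH hf hl
  exact fun a ha b hb => (h.conj hp g).comm a (hg ha) b (hg hb)

theorem exists_good_class (hp : (p : ℂ) ∈ V.nonunits) (h : Rt p m ⊤ D c) {d : G} (hd : d ∈ D)
    {I : IrrData G} {i : Fin I.n} (he : IsBlockIdem I i (bk D c ⊤)) :
    ∃ v : G, I.om i (ind (IsConj v)) ∉ V.nonunits ∧ pp p v = d ∧
      ∀ S : Subgroup G, IsPGroup p S → (∀ s ∈ S, s * v = v * s) → IsAb S := by
  classical
  let _ : Fintype (ConjClasses G) := Fintype.ofFinite _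
  have hz : Fix ⊤ (rtr (cjRep V G) (Cu d) ⊤ (single d 1 * bk D c (Cu d))) :=
    rtr_fixed le_top (bnon_fix hp h hd)
  have h1 := om_rtr_unit hp h hd he
  rw [I.om_decomp i (isCF_cf_iff.2 (fixedBy_top_iff.1 hz))] at h1
  obtain ⟨K, hK⟩ : ∃ K : ConjClasses G,
      cf (rtr (cjRep V G) (Cu d) ⊤ (single d 1 * bk D c (Cu d))) K.out *
        I.om i (ind (IsConj K.out)) ∉ V.nonunits := by
    by_contra hno
    push Not at hno
    exact h1 (sum_mem fun K _ => hno K)
  have hcf : IsCF (ind (IsConj K.out)) := isCF_ind (isConj_conj_iff _)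
  have h2 : I.om i (ind (IsConj K.out)) ∉ V.nonunits := fun e =>
    hK (by rw [mul_comm]; exact mul_mem_nonunits e (cf_mem _ _))
  have h3 : (rtr (cjRep V G) (Cu d) ⊤ (single d 1 * bk D c (Cu d))).coeff K.out ∉
      maximalIdeal V := fun e =>
    hK (mul_mem_nonunits (cf_mem_nonunits_iff.2 e) (I.om_mem i hcf (ind_mem V _)))
  obtain ⟨g, hg⟩ : ∃ g : G, (single d 1 * bk D c (Cu d) : MonoidAlgebra V G).coeff
      (g⁻¹ * K.out * g) ∉ maximalIdeal V := by
    by_contra hno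
    push Not at hno
    apply h3
    refine rtr_mem (ρ := cjRep V G) ((maximalIdeal V).toAddSubgroup.comap
      (coef V K.out).toAddMonoidHom) fun g _ => ?_
    change (cjRep V G g _).coeff K.out ∈ maximalIdeal V
    rw [coeff_cjRep]
    exact hno g
  have hb := h.hb_cu hp hd
  have h4 : (bk D c (Cu d)).coeff (d⁻¹ * (g⁻¹ * K.out * g)) ∉ maximalIdeal V := by
    rwa [MonoidAlgebra.coeff_single_mul_apply, one_mul] at hg
  generalize hy : d⁻¹ * (g⁻¹ * K.out * g) = y at h4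
  have h5 : (bk D c (Cu d)).coeff y ≠ 0 := fun e => h4 (e ▸ zero_mem _)
  have h6 : y ∈ Cu d := hb.supp y h5
  have h7 : ¬ p ∣ orderOf y := fun e => h5 (coeff_sing hp hb.idem hb.supp hb.fix e)
  have h8 : pp p (d * y) = d := pp_mul_eq (h.pelt hd) h7 (mem_Cu.1 h6)
  refine ⟨d * y, ?_, h8, fun S hS hc => ?_⟩
  · have e : IsConj K.out (d * y) := by
      rw [← hy, mul_inv_cancel_left]
      exact isConj_iff.2 ⟨g⁻¹, by rw [inv_inv]⟩
    have : IsConj (d * y) = IsConj K.out :=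
      funext fun x => propext ⟨fun a => e.trans a, fun a => e.symm.trans a⟩
    rwa [this]
  · have h9 : ∀ s ∈ S, s * d = d * s := fun s hs => by
      have := bpp_comm (pp_spec (p := p) (d * y)).2.1 (hc s hs)
      rwa [h8] at this
    refine isAb_of_coeff hp (h.cu_top hp hd) h4 hS (fun s hs => mem_Cu.2 (h9 s hs).symm)
      fun s hs => ?_
    apply mul_left_cancel (a := d)
    rw [← mul_assoc, ← h9 s hs, mul_assoc, hc s hs, mul_assoc]

end Pool.Agent.Lib.MP_b6945b_al.Kx
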