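import Pool.Agent.Lib.MP_b6945b_al.Kx.LInd

set_option autoImplicit false

/-!
Traces of conjugation on the class functions of a block that are supported on a coset.
-/

namespace Pool.Agent.Lib.MP_b6945b_al.Kx

open St Bi Finset

variable {G : Type} [Group G] [Fintype G] {V : ValuationSubring ℂ}

open Classical in
/-- The sum of the coefficients of `g ε` over the `K`-conjugates of `a`. -/
noncomputable def av (K : Subgroup G) (ε : MonoidAlgebra V G) (g a : G) : ℂ :=
  ∑ k, if k ∈ K then cf ε (g⁻¹ * (k * a * k⁻¹)) else 0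

open Classical in
/-- The trace of `y` on the functions of `ε` supported on the `p`-regular elements of `K x`. -/
noncomputable def muK (p : ℕ) (K : Subgroup G) (ε : MonoidAlgebra V G) (x y : G) : ℂ :=
  ∑ a, if a * x⁻¹ ∈ K ∧ ¬ p ∣ orderOf a then
    (Nat.card K : ℂ)⁻¹ * av K ε a (y * a * y⁻¹) else 0

open Classical in
/-- The trace of `y` on the functions of `ε` supported on `K x`. -/
noncomputable def tauK (K : Subgroup G) (ε : MonoidAlgebra V G) (x y : G) : ℂ :=
  ∑ a, if a * x⁻¹ ∈ K then (Nat.card K : ℂ)⁻¹ * av K ε a (y * a * y⁻¹) else 0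

open Classical in
/-- The projection to the functions of `ε` supported on the `p`-regular elements of `K x`. -/
noncomputable def kap (p : ℕ) (K : Subgroup G) (ε : MonoidAlgebra V G) (x : G) : Matrix G G ℂ :=
  Matrix.of fun g a => if (g * x⁻¹ ∈ K ∧ ¬ p ∣ orderOf g) ∧ (a * x⁻¹ ∈ K ∧ ¬ p ∣ orderOf a) then
    (Nat.card K : ℂ)⁻¹ * av K ε g a else 0

open Classical in
/-- The permutation matrix of conjugation. -/
noncomputable def cjM (y : G) : Matrix G G ℂ :=
  Matrix.of fun g a => if g = y * a * y⁻¹ then 1 else 0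

/-- `ε` is a central idempotent of `K`, and `x` normalises `K` and fixes `ε`. -/
structure CI (K : Subgroup G) (ε : MonoidAlgebra V G) (x : G) : Prop where
  idem : ε * ε = ε
  supp : Supp K ε
  fix : Fix K ε
  nz : x ∈ Nz K
  cj : cjRep V G x ε = ε

/-- The block of `Cz P` that belongs to `(D, c)`. -/
noncomputable abbrev eP (D : Subgroup G) (c : MonoidAlgebra V G) (P : Subgroup G) :
    MonoidAlgebra V G := bk D c (Cz P)

/-- `muK` at the level `P`. -/
noncomputable abbrev mu (p : ℕ) (D : Subgroup G) (c : MonoidAlgebra V G) (P : Subgroup G)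
    (x y : G) : ℂ := muK p (Cz P) (eP D c P) x y

/-- `tauK` at the level `P`. -/
noncomputable abbrev tau (D : Subgroup G) (c : MonoidAlgebra V G) (P : Subgroup G)
    (x y : G) : ℂ := tauK (Cz P) (eP D c P) x y

/-- The block of `Cz P` has trivial inertial quotient. -/
def Nilp (D : Subgroup G) (c : MonoidAlgebra V G) (P : Subgroup G) : Prop :=
  stabT ⊤ D c ⊓ Cz P ≤ Cz D

/-- Admissible pairs at the level `P`. -/
structure Adm (D : Subgroup G) (c : MonoidAlgebra V G) (P : Subgroup G) (x y : G) : Prop where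
  xT : x ∈ stabT ⊤ D c
  yT : y ∈ stabT ⊤ D c
  xN : x ∈ Nz P
  yN : y ∈ Nz P
  com : y * x * y⁻¹ * x⁻¹ ∈ Cz D

end Pool.Agent.Lib.MP_b6945b_al.Kx
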