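import Pool.Agent.Lib.MP_b6945b_al.Kx.PFong
import Pool.Agent.Lib.MP_b6945b_al.Kx.PDef

set_option autoImplicit false

/-!
The number of Brauer characters as a trace.
-/

namespace Pool.Agent.Lib.MP_b6945b_al.Kx

open St Bi IsLocalRing Finset
open MonoidAlgebra (single)

variable {G : Type} [Group G] [Fintype G] {V : ValuationSubring ℂ} {p : ℕ}
  {H K S T : Subgroup G} {f : MonoidAlgebra V G}

open Classical in
lemma pcount_card (S : Subgroup G) (z : ℂ) : ∑ a : G, (if a ∈ S then z else 0) = Nat.card S * z := by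
  rw [← Finset.sum_filter, Finset.sum_const, nsmul_eq_mul, Nat.card_eq_fintype_card,
    Fintype.card_subtype]

open Classical in
theorem card_mul_lL [Fact p.Prime] (hp : (p : ℂ) ∈ V.nonunits) (hf : f * f = f) (hs : Supp S f)
    (hx : Fix S f) : (Nat.card S : ℂ) * lL p S f = ∑ a, if a ∈ S ∧ ¬ p ∣ orderOf a then
      ∑ b, (if b ∈ S then cf f (a⁻¹ * b * a * b⁻¹) else 0) else 0 := by
  have h0 : (Nat.card S : ℂ) ≠ 0 := Nat.cast_ne_zero.2 Nat.card_pos.ne'
  have h1 : LinearMap.IsProj ((CFs S f).map (Reg p))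
      ((Nat.card S : ℂ)⁻¹ • (resP S f ∘ₗ indS S ∘ₗ Reg p)) := by
    refine ⟨fun x => Submodule.smul_mem _ _ (resP_reg hp hf hs hx (fun a ha g _ => ?_)
      (funext fun g => ?_)), fun x h => ?_⟩
    · rw [LinearMap.comp_apply, indS_apply, indS_apply]
      refine Fintype.sum_equiv (Equiv.mulRight a) _ _ fun k => ?_
      rw [Equiv.coe_mulRight]
      refine if_congr (S.mul_mem_cancel_right ha).symm ?_ rfl
      group
    · by_cases e : p ∣ orderOf g
      · rw [Reg_apply_sing _ e, LinearMap.comp_apply, indS_apply]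
        refine (Finset.sum_eq_zero fun a _ => ?_).symm
        rw [Reg_apply_sing _ (by rwa [borth_ord]), ite_self]
      · exact Reg_apply_reg _ e
    · obtain ⟨⟨h2, h3, h4⟩, h5⟩ := (mem_map_reg hp hf hs hx).1 h
      have h6 : indS S x = (Nat.card S : ℂ) • x := funext fun g => by
        rw [indS_apply, Pi.smul_apply, smul_eq_mul, ← pcount_card]
        exact Finset.sum_congr rfl fun a _ => by
          split_ifs with ha
          · exact h3 a ha g
          · rfl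
      rw [LinearMap.smul_apply, LinearMap.comp_apply, LinearMap.comp_apply, h5, h6, map_smul,
        inv_smul_smul₀ h0]
      funext g
      by_cases hg : g ∈ S
      · rw [resP_mem _ hg, h4 g hg]
      · rw [resP_out _ hg, h2 g hg]
  rw [lL, ← h1.trace, map_smul, smul_eq_mul, mul_inv_cancel_left₀ h0,
    LinearMap.trace_eq_matrix_trace ℂ (Pi.basisFun ℂ G), Matrix.trace]
  refine Finset.sum_congr rfl fun a _ => ?_
  rw [Matrix.diag_apply, LinearMap.toMatrix_apply, Pi.basisFun_repr, Pi.basisFun_apply,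
    LinearMap.comp_apply, LinearMap.comp_apply]
  by_cases ha : a ∈ S
  · rw [resP_mem _ ha, ev_indS]
    by_cases e : p ∣ orderOf a
    · have h2 : Reg p (Pi.single a (1 : ℂ) : G → ℂ) = 0 := funext fun g => by
        by_cases e' : p ∣ orderOf g
        · exact Reg_apply_sing _ e'
        · rw [Reg_apply_reg _ e', Pi.single_eq_of_ne fun h : g = a => e' (h ▸ e)]
          rfl
      rw [h2, if_neg fun h => h.2 e]
      simp [ev]
    · have h2 : Reg p (Pi.single a (1 : ℂ) : G → ℂ) = Pi.single a 1 := funext fun g => by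
        by_cases e' : p ∣ orderOf g
        · rw [Reg_apply_sing _ e', Pi.single_eq_of_ne fun h : g = a => e (h ▸ e')]
        · exact Reg_apply_reg _ e'
      rw [h2, if_pos ⟨ha, e⟩]
      refine Fintype.sum_equiv (Equiv.inv G) _ _ fun b => ?_
      rw [Equiv.inv_apply]
      refine if_congr S.inv_mem_iff.symm ?_ rfl
      simp [ev, cf, Pi.single_apply, coeff_cjRep, mul_assoc]
  · rw [resP_out _ ha, if_neg fun h => ha h.1]

open Classical in
/-- Summation over the cosets `K x`, `x ∈ T`. -/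
lemma sum_cosets (hS : ∀ s, s ∈ S ↔ ∃ k ∈ K, ∃ t ∈ T, s = k * t) (F : G → ℂ) :
    ∑ x, (if x ∈ T then ∑ a, (if a * x⁻¹ ∈ K then F a else 0) else 0) =
      Nat.card (T ⊓ K : Subgroup G) * ∑ a, if a ∈ S then F a else 0 := by
  have h1 : ∀ x, (if x ∈ T then ∑ a, (if a * x⁻¹ ∈ K then F a else 0) else 0) =
      ∑ a, if x ∈ T ∧ a * x⁻¹ ∈ K then F a else 0 := fun x => by
    by_cases hx : x ∈ T <;> simp [hx]
  rw [Finset.sum_congr rfl fun x _ => h1 x, Finset.sum_comm, Finset.mul_sum]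
  refine Finset.sum_congr rfl fun a _ => ?_
  split_ifs with ha
  · obtain ⟨k, hk, t, ht, rfl⟩ := (hS a).1 ha
    rw [← pcount_card]
    refine Fintype.sum_equiv ((Equiv.inv G).trans (Equiv.mulLeft t)) _ _ fun x => ?_
    refine if_congr ?_ rfl rfl
    rw [Equiv.trans_apply, Equiv.inv_apply, Equiv.coe_mulLeft, Subgroup.mem_inf,
      T.mul_mem_cancel_left ht, T.inv_mem_iff, mul_assoc, K.mul_mem_cancel_left hk]
  · rw [mul_zero]
    exact Finset.sum_eq_zero fun x _ => if_neg fun h =>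
      ha ((hS a).2 ⟨_, h.2, x, h.1, (inv_mul_cancel_right a x).symm⟩)

lemma card_cosets (hS : ∀ s, s ∈ S ↔ ∃ k ∈ K, ∃ t ∈ T, s = k * t) :
    (Nat.card T : ℂ) * Nat.card K = Nat.card (T ⊓ K : Subgroup G) * Nat.card S := by
  classical
  have h1 := sum_cosets hS fun _ => 1
  have h2 : ∀ x : G, ∑ a : G, (if a * x⁻¹ ∈ K then (1 : ℂ) else 0) = Nat.card K := fun x => by
    rw [← mul_one (Nat.card K : ℂ), ← pcount_card]
    exact Fintype.sum_equiv (Equiv.mulRight x⁻¹) _ _ fun a => rfl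
  simp only [h2] at h1
  rwa [pcount_card, pcount_card, mul_one] at h1

open Classical in
/-- The count over pairs of cosets. -/
theorem count_cosets [Fact p.Prime] (hp : (p : ℂ) ∈ V.nonunits) (hf : f * f = f) (hs : Supp S f)
    (hx : Fix S f) (hS : ∀ s, s ∈ S ↔ ∃ k ∈ K, ∃ t ∈ T, s = k * t) :
    (Nat.card T : ℂ) * Nat.card (T ⊓ K : Subgroup G) * lL p S f =
      ∑ x, if x ∈ T then ∑ y, (if y ∈ T then (Nat.card K : ℂ)⁻¹ *
        ∑ a, (if a * x⁻¹ ∈ K ∧ ¬ p ∣ orderOf a then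
          ∑ b, (if b * y⁻¹ ∈ K then cf f (a⁻¹ * b * a * b⁻¹) else 0) else 0) else 0) else 0 := by
  have h0 : (Nat.card K : ℂ) ≠ 0 := Nat.cast_ne_zero.2 Nat.card_pos.ne'
  have h1 : ∀ x, ∑ y, (if y ∈ T then (Nat.card K : ℂ)⁻¹ *
      ∑ a, (if a * x⁻¹ ∈ K ∧ ¬ p ∣ orderOf a then
        ∑ b, (if b * y⁻¹ ∈ K then cf f (a⁻¹ * b * a * b⁻¹) else 0) else 0) else 0) =
      ∑ a, if a * x⁻¹ ∈ K then (if ¬ p ∣ orderOf a then (Nat.card K : ℂ)⁻¹ *
        (Nat.card (T ⊓ K : Subgroup G) *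
          ∑ b, (if b ∈ S then cf f (a⁻¹ * b * a * b⁻¹) else 0)) else 0) else 0 := fun x => by
    have h2 : ∀ y, (if y ∈ T then (Nat.card K : ℂ)⁻¹ *
        ∑ a, (if a * x⁻¹ ∈ K ∧ ¬ p ∣ orderOf a then
          ∑ b, (if b * y⁻¹ ∈ K then cf f (a⁻¹ * b * a * b⁻¹) else 0) else 0) else 0) =
        ∑ a, if a * x⁻¹ ∈ K ∧ ¬ p ∣ orderOf a then (Nat.card K : ℂ)⁻¹ * (if y ∈ T then
          ∑ b, (if b * y⁻¹ ∈ K then cf f (a⁻¹ * b * a * b⁻¹) else 0) else 0) else 0 := fun y => by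
      split_ifs
      · rw [Finset.mul_sum]
        exact Finset.sum_congr rfl fun a _ => by rw [mul_ite, mul_zero]
      · simp
    rw [Finset.sum_congr rfl fun y _ => h2 y, Finset.sum_comm]
    refine Finset.sum_congr rfl fun a _ => ?_
    rw [← ite_and, ← sum_cosets hS, Finset.mul_sum]
    split_ifs
    · rfl
    · exact Finset.sum_const_zero
  simp only [h1]
  rw [sum_cosets hS]
  have h2 := card_mul_lL hp hf hs hx
  have h3 : ∑ a, (if a ∈ S then (if ¬ p ∣ orderOf a then (Nat.card K : ℂ)⁻¹ *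
      (Nat.card (T ⊓ K : Subgroup G) *
        ∑ b, (if b ∈ S then cf f (a⁻¹ * b * a * b⁻¹) else 0)) else 0) else 0) =
      (Nat.card K : ℂ)⁻¹ * (Nat.card (T ⊓ K : Subgroup G) * (Nat.card S * lL p S f)) := by
    rw [h2, Finset.mul_sum, Finset.mul_sum]
    exact Finset.sum_congr rfl fun a _ => by rw [← ite_and, mul_ite, mul_ite, mul_zero, mul_zero]
  rw [h3, ← mul_assoc _ (Nat.card S : ℂ), ← card_cosets hS]
  field_simp

open Classical in
lemma muK_eq_sum (p : ℕ) (K : Subgroup G) (f : MonoidAlgebra V G) (x y : G) :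
    muK p K f x y = (Nat.card K : ℂ)⁻¹ * ∑ a, (if a * x⁻¹ ∈ K ∧ ¬ p ∣ orderOf a then
      ∑ b, (if b * y⁻¹ ∈ K then cf f (a⁻¹ * b * a * b⁻¹) else 0) else 0) := by
  rw [muK, Finset.mul_sum]
  refine Finset.sum_congr rfl fun a _ => ?_
  split_ifs
  · refine congrArg _ (Fintype.sum_equiv (Equiv.mulRight y) _ _ fun k => ?_)
    rw [Equiv.coe_mulRight, mul_inv_cancel_right]
    refine if_congr Iff.rfl ?_ rfl
    group
  · rw [mul_zero]

lemma pcount_noncomm (hs : Supp K f) {x y : G} (hx : x ∈ Nz K) (hy : y ∈ Nz K)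
    (h : y * x * y⁻¹ * x⁻¹ ∉ K) : muK p K f x y = 0 := by
  classical
  rw [muK_eq_sum]
  refine mul_eq_zero_of_right _ (Finset.sum_eq_zero fun a _ => ?_)
  split_ifs with ha
  · refine Finset.sum_eq_zero fun b _ => ?_
    split_ifs with hb
    · refine borth_cf_zero hs fun e => h ?_
      have hc : ∀ g ∈ Nz K, ∀ k ∈ K, g * k * g⁻¹ ∈ K := fun g hg k hk =>
        (Subgroup.mem_normalizer_iff.1 hg k).1 hk
      have h1 := hc _ (Subgroup.inv_mem _ hx) _ (K.mul_mem (K.inv_mem hb) ha.1)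
      have h2 := hc _ (Subgroup.mul_mem _ (Subgroup.inv_mem _ hx) hy) _ (K.inv_mem ha.1)
      have h3 := hc _ hx _ (K.mul_mem h2 (K.mul_mem h1 (K.mul_mem e hb)))
      convert h3 using 1
      group
    · rfl
  · rfl

variable [Fact p.Prime] {m : ℕ} {D P : Subgroup G} {c : MonoidAlgebra V G}

open Classical in
theorem count_rt (hp : (p : ℂ) ∈ V.nonunits) (h : Rt p m H D c) (hPD : P ≤ D) (hC : Cz P ≤ H)
    (hn : H ≤ Nz P) :
    (Nat.card (stabT H D c) : ℂ) * Nat.card (stabT H D c ⊓ Cz P : Subgroup G) *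
      lL p H (bk D c H) = ∑ x ∈ univ.filter (· ∈ stabT H D c),
        ∑ y ∈ univ.filter (· ∈ stabT H D c), mu p D c P x y := by
  obtain ⟨h1, h2, h3, h4⟩ := rt_fong hp h hPD hn (inf_eq_right.2 hC).symm rfl rfl
  have h5 := (h1.spec hp h1.le).1
  rw [h2] at h5
  simp only [h3, Finset.sum_filter, muK_eq_sum]
  exact count_cosets hp h5.idem h5.supp h5.fix h4

open Classical in
theorem lL_count (hp : (p : ℂ) ∈ V.nonunits) (h : Rt p m ⊤ D c) (hPD : P ≤ D) (hN : Nilp D c P)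
    (h1 : Cz P ≤ H) (h2 : H ≤ Nz P) (h3 : stabT ⊤ D c ≤ H) :
    (Nat.card (stabT ⊤ D c) : ℂ) * Nat.card (Cz D) * lL p H (bk D c H) =
      ∑ x ∈ univ.filter (· ∈ stabT ⊤ D c), ∑ y ∈ univ.filter (· ∈ stabT ⊤ D c),
        mu p D c P x y := by
  have h4 := count_rt hp (h.local hp hPD (inf_le_right.trans h1) le_top h2) hPD h1 h2
  have h5 : stabT H D c = stabT ⊤ D c :=
    le_antisymm (stabT_mono le_top D c) fun g hg => ⟨h3 hg, hg.2⟩
  rwa [h5, le_antisymm hN (le_inf h.Cz_le_stab (Cz_anti hPD))] at h4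

/-- The numbers of Brauer characters agree as soon as the traces agree on admissible pairs. -/
theorem lL_kp_of (hp : (p : ℂ) ∈ V.nonunits) (h : Rt p m ⊤ D c) (hPD : P ≤ D) [P.Normal]
    (hN : Nilp D c P) (hμ : ∀ x y, Adm D c P x y → mu p D c P x y = mu p D c D x y) :
    lL p ⊤ (bk D c ⊤) = lL p (Nz D) (bk D c (Nz D)) := by
  classical
  have hP : ∀ g, g ∈ Nz P := fun g => (Subgroup.normalizer_eq_top P).ge (Subgroup.mem_top g)
  have h1 := lL_count hp h hPD hN le_top (fun g _ => hP g) le_top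
  have h2 := lL_count hp h le_rfl inf_le_right (Cz_le_Nz D) le_rfl fun g hg => hg.2.1
  have h3 : (Nat.card (stabT ⊤ D c) : ℂ) * Nat.card (Cz D) ≠ 0 :=
    mul_ne_zero (Nat.cast_ne_zero.2 Nat.card_pos.ne') (Nat.cast_ne_zero.2 Nat.card_pos.ne')
  refine Nat.cast_injective (R := ℂ) (mul_left_cancel₀ h3 ?_)
  rw [h1, h2]
  refine Finset.sum_congr rfl fun x hx => Finset.sum_congr rfl fun y hy => ?_
  have h4 := (mem_filter.1 hx).2
  have h5 := (mem_filter.1 hy).2
  by_cases e : y * x * y⁻¹ * x⁻¹ ∈ Cz D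
  · exact hμ x y ⟨h4, h5, hP x, hP y, e⟩
  · refine (pcount_noncomm (h.spec hp (Cz_anti hPD)).1.supp (Nz_le_Nz_Cz P (hP x))
      (Nz_le_Nz_Cz P (hP y)) fun e' => e (hN ⟨?_, e'⟩)).trans (pcount_noncomm
        (h.spec hp le_rfl).1.supp (Nz_le_Nz_Cz D h4.2.1) (Nz_le_Nz_Cz D h5.2.1) e).symm
    exact Subgroup.mul_mem _ (Subgroup.mul_mem _ (Subgroup.mul_mem _ h5 h4)
      (Subgroup.inv_mem _ h5)) (Subgroup.inv_mem _ h4)

/-- The Frattini argument for the centraliser of a subgroup of the defect group. -/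
theorem rt_fu (hp : (p : ℂ) ∈ V.nonunits) (h : Rt p m ⊤ D c) (hPD : P ≤ D) {s : G}
    (hs : s ∈ Nz P) (he : cjRep V G s (bk D c (Cz P)) = bk D c (Cz P)) :
    ∃ l ∈ Cz P, l * s ∈ stabT ⊤ D c := by
  obtain ⟨k, hk, t, ht, rfl⟩ := (h.local hp hPD inf_le_right le_top (Cz_le_Nz P)).frattini hp
    le_top (n := s) ⟨trivial, Nz_le_Nz_Cz P hs, he⟩
  exact ⟨k⁻¹, Subgroup.inv_mem _ hk, by rwa [inv_mul_cancel_left]⟩

end Pool.Agent.Lib.MP_b6945b_al.Kx
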