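import Mathlib

set_option autoImplicit false

/-!
Euclid's algorithm on a commuting pair of automorphisms of order prime to `p` of an abelian
`p`-group.
-/

namespace Pool.Agent.Lib.MP_b6945b_al.Kx

/-- Euclid's algorithm in a cyclic image. -/
lemma euc_cyc {T Z : Type} [Group T] [Finite T] [Group Z] [Finite Z] [IsCyclic Z] (ψ : T →* Z)
    (Good : T → T → Prop) (m1 : ∀ x y, Good x (y * x) → Good x y)
    (m2 : ∀ x y, Good (x * y) y → Good x y) (base : ∀ x y, ψ x = 1 → Good x y) (x y : T) :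
    Good x y := by
  have p1 : ∀ (k : ℕ) x y, Good x (y * x ^ k) → Good x y := by
    intro k
    induction k with
    | zero => intro x y h; simpa using h
    | succ k ih =>
      intro x y h
      rw [pow_succ, ← mul_assoc] at h
      exact ih x y (m1 _ _ h)
  have p2 : ∀ (k : ℕ) x y, Good (x * y ^ k) y → Good x y := by
    intro k
    induction k with
    | zero => intro x y h; simpa using h
    | succ k ih =>
      intro x y h
      rw [pow_succ, ← mul_assoc] at h
      exact ih x y (m2 _ _ h)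
  have hinv : ∀ t : T, ∃ k : ℕ, t ^ k = t⁻¹ := fun t =>
    ⟨orderOf t - 1, by
      rw [eq_inv_iff_mul_eq_one, ← pow_succ, Nat.sub_add_cancel (orderOf_pos t),
        pow_orderOf_eq_one]⟩
  have i1 : ∀ x y, Good x (y * x⁻¹) → Good x y := fun x y h => by
    obtain ⟨k, hk⟩ := hinv x
    exact p1 k x y (by rwa [hk])
  have i2 : ∀ x y, Good (x * y⁻¹) y → Good x y := fun x y h => by
    obtain ⟨k, hk⟩ := hinv y
    exact p2 k x y (by rwa [hk])
  obtain ⟨g, hg⟩ := IsCyclic.exists_monoid_generator (α := Z)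
  have key : ∀ (N a b : ℕ), a + b ≤ N → ∀ x y, ψ x = g ^ a → ψ y = g ^ b → Good x y := by
    intro N
    induction N with
    | zero =>
      intro a b h x y hx _
      exact base x y (by rw [hx, show a = 0 by omega, pow_zero])
    | succ N ih =>
      intro a b h x y hx hy
      rcases Nat.eq_zero_or_pos a with h0 | h0
      · exact base x y (by rw [hx, h0, pow_zero])
      rcases Nat.eq_zero_or_pos b with h1 | h1
      · refine m1 _ _ (i2 _ _ (base _ _ ?_))
        rw [map_mul, map_inv, map_mul, hy, h1, pow_zero, one_mul, mul_inv_cancel]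
      rcases le_total b a with h2 | h2
      · refine i2 _ _ (ih (a - b) b (by omega) _ _ ?_ hy)
        rw [map_mul, map_inv, hx, hy, mul_inv_eq_iff_eq_mul, ← pow_add, Nat.sub_add_cancel h2]
      · refine i1 _ _ (ih a (b - a) (by omega) _ _ hx ?_)
        rw [map_mul, map_inv, hx, hy, mul_inv_eq_iff_eq_mul, ← pow_add, Nat.sub_add_cancel h2]
  obtain ⟨a, ha⟩ := hg (ψ x)
  obtain ⟨b, hb⟩ := hg (ψ y)
  exact key (a + b) a b le_rfl x y ha.symm hb.symm

/-- Pass to a residue field of a commutative ring. -/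
lemma euc_ring {T B : Type} [Group T] [Finite T] [CommRing B] (φ : T →* B) (I : Ideal B)
    (hI : I ≠ ⊤) {n q : ℕ} (hnq : n.Coprime q) (hq : (q : B) ∈ I)
    (Good : T → T → Prop) (m1 : ∀ x y, Good x (y * x) → Good x y)
    (m2 : ∀ x y, Good (x * y) y → Good x y)
    (base : ∀ x y, (∑ i ∈ Finset.range n, φ x ^ i) ∉ I → Good x y) (x y : T) : Good x y := by
  obtain ⟨J, hJ, hIJ⟩ := Ideal.exists_le_maximal I hI
  have hpr : J.IsPrime := hJ.isPrime
  let χ : T →* B ⧸ J := (Ideal.Quotient.mk J).toMonoidHom.comp φ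
  have hfin : Finite χ.toHomUnits.range :=
    Finite.of_surjective _ χ.toHomUnits.rangeRestrict_surjective
  refine euc_cyc χ.toHomUnits.rangeRestrict Good m1 m2 (fun s t hs => base s t fun h2 => ?_) x y
  have h1 : Ideal.Quotient.mk J (φ s) = 1 :=
    congrArg (fun z : χ.toHomUnits.range => ((z : (B ⧸ J)ˣ) : B ⧸ J)) hs
  have h3 : ((n : ℕ) : B ⧸ J) = 0 := by
    have := Ideal.Quotient.eq_zero_iff_mem.2 (hIJ h2)
    rw [map_sum] at this
    simpa [h1] using this
  have h4 : ((q : ℕ) : B ⧸ J) = 0 := by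
    simpa using Ideal.Quotient.eq_zero_iff_mem.2 (hIJ hq)
  have h5 := (Nat.isCoprime_iff_coprime.2 hnq).map (Int.castRingHom (B ⧸ J))
  simp only [eq_intCast, Int.cast_natCast, h3, h4] at h5
  exact not_isCoprime_zero_zero h5

/-- The commutative ring generated by the action. -/
lemma euc_mod {T M : Type} [Group T] [Finite T] [AddCommGroup M] (φ : T →* Module.End ℤ M)
    (hc : ∀ s t, φ s * φ t = φ t * φ s) (N : AddSubgroup M) (hN : ∃ m, m ∉ N) {n q : ℕ}
    (hnq : n.Coprime q) (hq : ∀ m : M, q • m = 0) (hn : ∀ t, φ t ^ n = 1)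
    (Good : T → T → Prop) (m1 : ∀ x y, Good x (y * x) → Good x y)
    (m2 : ∀ x y, Good (x * y) y → Good x y)
    (base : ∀ x y, (∃ m, m ∉ N ∧ φ x m = m) → Good x y) (x y : T) : Good x y := by
  have hB : IsMulCommutative (Algebra.adjoin ℤ (Set.range φ)) :=
    Algebra.isMulCommutative_adjoin ℤ (by
      rintro _ ⟨s, rfl⟩ _ ⟨t, rfl⟩
      exact hc s t)
  let _ : CommRing (Algebra.adjoin ℤ (Set.range φ)) :=
    { (inferInstance : Ring (Algebra.adjoin ℤ (Set.range φ))) with
      mul_comm := fun a b => Subtype.ext (setLike_mul_comm a.2 b.2) }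
  let I : Ideal (Algebra.adjoin ℤ (Set.range φ)) :=
    { carrier := {b | ∀ m, (b : Module.End ℤ M) m ∈ N}
      add_mem' := fun ha hb m => N.add_mem (ha m) (hb m)
      zero_mem' := fun _ => N.zero_mem
      smul_mem' := fun r b hb m => by
        rw [smul_eq_mul, mul_comm]
        exact hb _ }
  have hI : I ≠ ⊤ := by
    rw [Ideal.ne_top_iff_one]
    obtain ⟨m, hm⟩ := hN
    exact fun h => hm (h m)
  let φ' : T →* Algebra.adjoin ℤ (Set.range φ) :=
    { toFun := fun t => ⟨φ t, Algebra.subset_adjoin ⟨t, rfl⟩⟩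
      map_one' := Subtype.ext (map_one φ)
      map_mul' := fun s t => Subtype.ext (map_mul φ s t) }
  refine euc_ring φ' I hI hnq (fun m => ?_) Good m1 m2 (fun s t h => base s t ?_) x y
  · have : ((q : Algebra.adjoin ℤ (Set.range φ)) : Module.End ℤ M) m = q • m := by
      simp
    rw [this, hq]
    exact N.zero_mem
  · obtain ⟨m, hm⟩ := not_forall.1 h
    refine ⟨_, hm, ?_⟩
    have h4 : (φ s - 1) * ∑ i ∈ Finset.range n, φ s ^ i = 0 := by
      rw [mul_geom_sum, hn, sub_self]
    have h5 : ((∑ i ∈ Finset.range n, φ' s ^ i : Algebra.adjoin ℤ (Set.range φ)) :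
        Module.End ℤ M) = ∑ i ∈ Finset.range n, φ s ^ i := by
      rw [AddSubmonoidClass.coe_finsetSum]
      rfl
    rw [h5, ← Module.End.mul_apply, ← sub_eq_zero, ← LinearMap.sub_apply]
    rw [sub_mul, one_mul] at h4
    rw [h4, LinearMap.zero_apply]

/-- If `Good` is inherited backwards along the two Euclidean moves and holds whenever the first
entry centralises an element of `D` outside `P`, it holds for all pairs that commute on `D`. -/
theorem euclid {G : Type} [Group G] [Finite G] {p : ℕ} [Fact p.Prime] {T D P : Subgroup G}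
    (hD : IsPGroup p D) (hc : ∀ a ∈ D, ∀ b ∈ D, a * b = b * a) (hP : ¬ D ≤ P)
    (hT : T ≤ Subgroup.normalizer (D : Set G)) {n : ℕ} (hn : ¬ p ∣ n)
    (hpow : ∀ t ∈ T, t ^ n ∈ Subgroup.centralizer (D : Set G))
    (Good : G → G → Prop) (m1 : ∀ x y, Good x (y * x) → Good x y)
    (m2 : ∀ x y, Good (x * y) y → Good x y)
    (base : ∀ x y, (∃ d ∈ D, d ∉ P ∧ x * d = d * x) → Good x y) {x y : G} (hx : x ∈ T)
    (hy : y ∈ T) (hxy : x * y * x⁻¹ * y⁻¹ ∈ Subgroup.centralizer (D : Set G)) : Good x y := by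
  let _ : CommGroup D := { (inferInstance : Group D) with
    mul_comm := fun a b => Subtype.ext (hc a a.2 b b.2) }
  have hmem : ∀ t ∈ T, ∀ d ∈ D, t * d * t⁻¹ ∈ D := fun t ht d hd =>
    (Subgroup.mem_normalizer_iff.1 (hT ht) d).1 hd
  let φ : T →* Module.End ℤ (Additive D) :=
    { toFun := fun t => AddMonoidHom.toIntLinearMap
        { toFun := fun d => Additive.ofMul ⟨t * (d.toMul : G) * t⁻¹, hmem t t.2 _ d.toMul.2⟩
          map_zero' := by
            refine congrArg Additive.ofMul (Subtype.ext ?_)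
            simp
          map_add' := fun a b => by
            refine congrArg Additive.ofMul (Subtype.ext ?_)
            simp [mul_assoc] }
      map_one' := by
        ext d
        simp
      map_mul' := fun s t => by
        ext d
        simp [mul_assoc] }
  have hφ : ∀ (t : T) (d : Additive D), ((φ t d).toMul : G) = t * (d.toMul : G) * (t : G)⁻¹ :=
    fun _ _ => rfl
  have hker : ∀ t : T, (t : G) ∈ Subgroup.centralizer (D : Set G) → φ t = 1 := by
    intro t ht
    ext d
    rw [hφ, ← Subgroup.mem_centralizer_iff.1 ht _ d.toMul.2, mul_inv_cancel_right]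
    rfl
  let S : Subgroup T := Subgroup.closure {⟨x, hx⟩, ⟨y, hy⟩}
  have hcomm : φ.toHomUnits ⟨x, hx⟩ * φ.toHomUnits ⟨y, hy⟩ =
      φ.toHomUnits ⟨y, hy⟩ * φ.toHomUnits ⟨x, hx⟩ := by
    rw [← mul_inv_eq_one, ← map_mul, ← map_mul, ← map_inv, ← map_mul]
    refine Units.ext (hker _ ?_)
    simpa [mul_assoc] using hxy
  have hS : IsMulCommutative (S.map φ.toHomUnits) := by
    rw [MonoidHom.map_closure]
    refine Subgroup.isMulCommutative_closure ?_
    rintro _ ⟨a, ha, rfl⟩ _ ⟨b, hb, rfl⟩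
    rcases ha with rfl | rfl <;> rcases hb with rfl | rfl
    · rfl
    · exact hcomm
    · exact hcomm.symm
    · rfl
  obtain ⟨k, hk⟩ := IsPGroup.iff_card.1 hD
  refine euc_mod (φ.comp S.subtype) (fun s t => ?_) (P.subgroupOf D).toAddSubgroup ?_
    (n := n) (q := p ^ k) ?_ ?_ ?_ (fun s t => Good ((s : T) : G) ((t : T) : G))
    (fun s t => m1 _ _) (fun s t => m2 _ _) ?_
    ⟨⟨x, hx⟩, Subgroup.subset_closure (Or.inl rfl)⟩
    ⟨⟨y, hy⟩, Subgroup.subset_closure (Or.inr rfl)⟩
  · exact congrArg Units.val (setLike_mul_comm (s := S.map φ.toHomUnits)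
      ⟨s, s.2, rfl⟩ ⟨t, t.2, rfl⟩)
  · obtain ⟨d, hd, hd'⟩ := SetLike.not_le_iff_exists.1 hP
    exact ⟨Additive.ofMul ⟨d, hd⟩, hd'⟩
  · exact ((Nat.Prime.coprime_iff_not_dvd Fact.out).2 hn).symm.pow_right k
  · intro m
    rw [← hk]
    exact congrArg Additive.ofMul (pow_card_eq_one' (x := m.toMul))
  · intro t
    rw [← map_pow]
    exact hker _ (hpow _ (t : T).2)
  · rintro s t ⟨m, hm, e⟩
    refine base _ _ ⟨m.toMul, m.toMul.2, hm, ?_⟩
    have := hφ s m
    rw [show φ s m = m from e] at this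
    rw [eq_mul_inv_iff_mul_eq] at this
    exact this.symm

end Pool.Agent.Lib.MP_b6945b_al.Kx
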