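import Pool.Agent.Lib.MP_b6945b_al.Bi.BDom1

set_option autoImplicit false

/-!
The Fong-Reynolds reduction for the number of Brauer characters.
-/

namespace Pool.Agent.Lib.MP_b6945b_al.Kx

open St Bi IsLocalRing Finset
open MonoidAlgebra (single)

variable {G : Type} [Group G] [Fintype G] {V : ValuationSubring ℂ} {p : ℕ}
  {H K S : Subgroup G} {f β b : MonoidAlgebra V G} {x y : G → ℂ}

lemma fong_cj {h : G} (hx : ∀ g, x (h * g * h⁻¹) = x g) (a : MonoidAlgebra V G) :
    ev x (cjRep V G h a) = ev x a := by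
  rw [ev_cj]
  exact congrArg (ev · a) (funext hx)

omit [Fintype G] in
lemma fong_single (h g : G) :
    cjRep V G h (single g 1) = (single (h * g * h⁻¹) 1 : MonoidAlgebra V G) := by
  rw [cjRep_apply, MonoidAlgebra.single_mul_single, MonoidAlgebra.single_mul_single, mul_one,
    mul_one, mul_assoc]

lemma fong_comm (hx : ∀ h ∈ K, ∀ g, x (h * g * h⁻¹) = x g) (hb : Supp K b)
    (a : MonoidAlgebra V G) : ev x (a * b) = ev x (b * a) := by
  rw [← ev_ev, ← ev_ev]
  simp only [ev_single_mul]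
  simp only [ev, Finset.mul_sum]
  rw [Finset.sum_comm]
  refine Finset.sum_congr rfl fun g _ => Finset.sum_congr rfl fun h _ => ?_
  by_cases e : b.coeff g = 0
  · simp [cf, e]
  · rw [← hx g (hb g e) (h * g), mul_left_comm, ← mul_assoc g, mul_inv_cancel_right]

lemma fong_vanish (hx : ∀ h ∈ K, ∀ g, x (h * g * h⁻¹) = x g) (hf : HB K f) {g : G}
    (hg : g ∈ Nz K) (hne : cjRep V G g f ≠ f) : ev x (single g 1 * f) = 0 := by
  rw [← hf.idem, ← mul_assoc, fong_comm hx hf.supp, single_mul_cj, ← mul_assoc,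
    hf.orth (hf.conj_norm hg) hne.symm, zero_mul, ev_zero]

lemma fong_off (hy : ∀ g, g ∉ S → y g = 0) (hb : Supp S b) {g : G} (hg : g ∉ S) :
    ev y (single g 1 * b) = 0 := by
  rw [ev_single_mul, ev_congr hb (y := 0) fun z hz => hy _ (by rwa [S.mul_mem_cancel_right hz])]
  simp [ev]

omit [Group G] in
lemma fong_rank {W W' : Submodule ℂ (G → ℂ)} (L : (G → ℂ) →ₗ[ℂ] (G → ℂ))
    (h1 : ∀ x ∈ W, L x ∈ W') (h2 : ∀ x ∈ W, L x = 0 → x = 0) :
    Module.finrank ℂ W ≤ Module.finrank ℂ W' :=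
  LinearMap.finrank_le_finrank_of_injective (f := L.restrict h1)
    ((injective_iff_map_eq_zero _).2 fun x hx => Subtype.ext (h2 x x.2 (congrArg Subtype.val hx)))

open Classical in
/-- Restriction to `S` followed by the projection to `f`. -/
noncomputable def resP (S : Subgroup G) (f : MonoidAlgebra V G) : (G → ℂ) →ₗ[ℂ] (G → ℂ) where
  toFun x g := if g ∈ S then ev x (single g 1 * f) else 0
  map_add' x y := by
    ext g
    by_cases h : g ∈ S <;> simp [h, ev_add_left]
  map_smul' a x := by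
    ext g
    by_cases h : g ∈ S <;> simp [h, ev_smul_left]

lemma resP_mem (x : G → ℂ) {g : G} (h : g ∈ S) : resP S f x g = ev x (single g 1 * f) := if_pos h

lemma resP_out (x : G → ℂ) {g : G} (h : g ∉ S) : resP S f x g = 0 := if_neg h

open Classical in
/-- The sum of the conjugates under `H`. -/
noncomputable def indS (H : Subgroup G) : (G → ℂ) →ₗ[ℂ] (G → ℂ) where
  toFun y g := ∑ h, if h ∈ H then y (h * g * h⁻¹) else 0
  map_add' x y := by
    ext g
    rw [Pi.add_apply, ← Finset.sum_add_distrib]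
    exact Finset.sum_congr rfl fun h _ => by split_ifs <;> simp
  map_smul' a x := by
    ext g
    simp [Finset.mul_sum]

open Classical in
lemma indS_apply (y : G → ℂ) (g : G) :
    indS H y g = ∑ h, if h ∈ H then y (h * g * h⁻¹) else 0 := rfl

open Classical in
lemma ev_indS (y : G → ℂ) (a : MonoidAlgebra V G) :
    ev (indS H y) a = ∑ h, if h ∈ H then ev y (cjRep V G h a) else 0 := by
  simp only [ev_cj]
  simp only [ev, indS_apply, Finset.mul_sum]
  rw [Finset.sum_comm]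
  exact Finset.sum_congr rfl fun h _ => by split_ifs <;> simp

omit [Fintype G] in
lemma le_stabT (hKH : K ≤ H) (hf : Fix K f) : K ≤ stabT H K f := fun k hk =>
  ⟨hKH hk, Subgroup.le_normalizer hk, hf k hk⟩

variable [Fact p.Prime]

lemma resP_reg (hp : (p : ℂ) ∈ V.nonunits) (hf : f * f = f) (hs : Supp S f) (hx : Fix S f)
    (h1 : ∀ h ∈ S, ∀ g ∈ S, x (h * g * h⁻¹) = x g) (h2 : Reg p x = x) :
    resP S f x ∈ (CFs S f).map (Reg p) := by
  refine (mem_map_reg hp hf hs hx).2 ⟨proj_mem_CFs hf hs hx h1, funext fun g => ?_⟩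
  by_cases e : p ∣ orderOf g
  · rw [Reg_apply_sing _ e]
    by_cases hg : g ∈ S
    · rw [resP_mem _ hg, ← h2, orth_sing hp hf hs hx h1 hg e]
    · rw [resP_out _ hg]
  · exact Reg_apply_reg _ e

theorem lL_fong (hp : (p : ℂ) ∈ V.nonunits) (hKH : K ≤ H) (hn : H ≤ Nz K) (hf : HB K f)
    (hβ : β * β = β) (hs : Supp K β) (hx : Fix H β) (hle : β * f = f)
    (hc : ∀ f', HB K f' → f' * β = f' → ∃ g ∈ H, f' = cjRep V G g f) :
    lL p H β = lL p (stabT H K f) f := by
  classical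
  obtain ⟨S, hS⟩ : ∃ S, S = stabT H K f := ⟨_, rfl⟩
  have hm : ∀ g, g ∈ S ↔ g ∈ H ∧ g ∈ Nz K ∧ cjRep V G g f = f := fun g => by rw [hS]; rfl
  have hKS : K ≤ S := hS ▸ le_stabT hKH hf.fix
  have hSH : S ≤ H := fun g hg => ((hm g).1 hg).1
  have hfS : Fix S f := fun g hg => ((hm g).1 hg).2.2
  have hsS := hf.supp.mono hKS
  rw [← hS]
  refine le_antisymm (fong_rank (resP S f) (fun x h => ?_) fun x h h0 => ?_)
    (fong_rank (indS H) (fun y h => ?_) fun y h h0 => ?_)
  · obtain ⟨h1, h2⟩ := (mem_map_reg hp hβ (hs.mono hKH) hx).1 h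
    exact resP_reg hp hf.idem hsS hfS (fun a ha g _ => h1.2.1 a (hSH ha) g) h2
  · obtain ⟨h1, h2, h3⟩ := ((mem_map_reg hp hβ (hs.mono hKH) hx).1 h).1
    funext g
    by_cases hg : g ∈ H
    · rw [← h3 g hg, idem_eq_sum hβ hs (hx.mono hKH), Finset.mul_sum, ev_sum]
      refine Finset.sum_eq_zero fun f' hf' => ?_
      obtain ⟨h4, h5⟩ := Finset.mem_filter.1 hf'
      obtain ⟨a, ha, rfl⟩ := hc f' (mem_blk.1 h4) h5
      have h6 : a⁻¹ * g * a ∈ H := H.mul_mem (H.mul_mem (H.inv_mem ha) hg) ha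
      rw [show g = a * (a⁻¹ * g * a) * a⁻¹ by group, ← fong_single, ← cjRep_mul, fong_cj (h2 a ha)]
      by_cases e : a⁻¹ * g * a ∈ S
      · rw [← resP_mem x e, h0]
        rfl
      · exact fong_vanish (fun k hk => h2 k (hKH hk)) hf (hn h6)
          fun e' => e ((hm _).2 ⟨h6, hn h6, e'⟩)
    · exact h1 g hg
  · obtain ⟨h0, h4⟩ := (mem_map_reg hp hf.idem hsS hfS).1 h
    obtain ⟨h1, h2, h3⟩ := mem_CFs.1 h0
    refine (mem_map_reg hp hβ (hs.mono hKH) hx).2
      ⟨mem_CFs.2 ⟨fun g hg => ?_, fun a ha g => ?_, fun g hg => ?_⟩, funext fun g => ?_⟩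
    · refine Finset.sum_eq_zero fun a _ => ?_
      split_ifs with ha
      · exact h1 _ fun e => hg (by
          simpa [H.mul_mem_cancel_right (H.inv_mem ha), H.mul_mem_cancel_left ha] using hSH e)
      · rfl
    · rw [indS_apply, indS_apply]
      refine Fintype.sum_equiv (Equiv.mulRight a) _ _ fun k => ?_
      rw [Equiv.coe_mulRight]
      refine if_congr (H.mul_mem_cancel_right ha).symm ?_ rfl
      congr 1
      group
    · rw [ev_indS, indS_apply]
      refine Finset.sum_congr rfl fun a _ => ?_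
      split_ifs with ha
      · rw [cjRep_mul, fong_single, hx a ha]
        by_cases e : a * g * a⁻¹ ∈ S
        · rw [badd_ev h0 ((supp_single e 1).mul (hs.mono hKS)), mul_assoc, hle, h3 _ e]
        · rw [fong_off h1 (hs.mono hKS) e, h1 _ e]
      · rfl
    · by_cases e : p ∣ orderOf g
      · rw [Reg_apply_sing _ e, indS_apply]
        refine (Finset.sum_eq_zero fun a _ => ?_).symm
        rw [← h4, Reg_apply_sing _ (by rwa [borth_ord]), ite_self]
      · exact Reg_apply_reg _ e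
  · have h4 := ((mem_map_reg hp hf.idem hsS hfS).1 h).1
    obtain ⟨h1, h2, h3⟩ := mem_CFs.1 h4
    funext g
    by_cases hg : g ∈ S
    · have h5 : ev (indS H y) (single g 1 * f) = ∑ a, if a ∈ S then y g else 0 := by
        rw [ev_indS]
        refine Finset.sum_congr rfl fun a _ => ?_
        by_cases ha : a ∈ S
        · rw [if_pos ha, if_pos (hSH ha), fong_cj (h2 a ha), h3 g hg]
        rw [if_neg ha]
        split_ifs with ha'
        · have h6 := hf.conj_norm (hn ha')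
          rw [cjRep_mul, fong_single]
          by_cases e : a * g * a⁻¹ ∈ S
          · rw [badd_ev h4 ((supp_single e 1).mul (h6.supp.mono hKS)), mul_assoc,
              h6.orth hf fun e' => ha ((hm a).2 ⟨ha', hn ha', e'⟩), mul_zero, ev_zero]
          · exact fong_off h1 (h6.supp.mono hKS) e
        · rfl
      refine borth_avg (H := S) (F := fun _ => y g) (fun _ _ => rfl) ?_
      rw [← h5, h0]
      simp [ev]
    · exact h1 g hg

/-- A block of `H` is supported on the centraliser of a normal `p`-subgroup. -/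
lemma supp_of_normal (hp : (p : ℂ) ∈ V.nonunits) {P : Subgroup G} (hP : IsPGroup p P)
    (hPH : P ≤ H) (hn : H ≤ Nz P) (hβ : β * β = β) (hs : Supp H β) (hx : Fix H β) :
    Supp (H ⊓ Cz P) β := by
  classical
  have h0 := bb_of_normal hp hP hPH hn hβ hs hx
  have h1 := res_idem_eq_sum (V := V) (H := H ⊓ Cz P) (f := toRes V G β)
    (by rw [← map_mul, hβ]) (h0 ▸ hs.bb) (hx.mono inf_le_left).toRes
  rw [← map_sum] at h1
  obtain ⟨h2, h3, -⟩ := sum_blk_idem (H := H ⊓ Cz P) (s := (blk V (H ⊓ Cz P)).filter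
    fun γ => toRes V G β * toRes V G γ = toRes V G γ) fun γ hγ => mem_blk.1 (mem_filter.1 hγ).1
  generalize (∑ γ ∈ (blk V (H ⊓ Cz P)).filter
    (fun γ => toRes V G β * toRes V G γ = toRes V G γ), γ) = e at h1 h2 h3
  have hc : Commute β e := hx.comm (h3.mono inf_le_left)
  have key : ∀ a b : MonoidAlgebra V G, a * a = a → b * b = b → Commute a b →
      toRes V G a = toRes V G b → a * b = a := fun a b ha hb hab e => by
    by_contra h4
    refine res_ne_of_idem (IsIdempotentElem.mul_of_commute ((Commute.one_right a).sub_right hab)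
      ha (IsIdempotentElem.one_sub hb)) (fun h5 => h4 ?_) ?_
    · rw [mul_sub, mul_one, sub_eq_zero] at h5
      exact h5.symm
    · rw [mul_sub, mul_one, map_sub, map_mul, ← e, ← map_mul, ha, sub_self]
  rw [← key β e hβ h2 hc h1, hc.eq, key e β h2 hβ hc.symm h1.symm]
  exact h3

omit [Fintype G] [Fact p.Prime] in
lemma le_Nz_inf (H P : Subgroup G) (hn : H ≤ Nz P) : H ≤ Nz (H ⊓ Cz P) := by
  intro g hg
  rw [← cg_eq_iff, cg_inf, ← Cz_cg, cg_eq_iff.2 (hn hg), cg_eq_iff.2 (Subgroup.le_normalizer hg)]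

/-- The Fong-Reynolds reduction with respect to the centraliser of a normal `p`-subgroup. -/
theorem rt_fong {m : ℕ} {D P : Subgroup G} {c : MonoidAlgebra V G} (hp : (p : ℂ) ∈ V.nonunits)
    (h : Rt p m H D c) (hPD : P ≤ D) (hn : H ≤ Nz P) (hK : K = H ⊓ Cz P) (hf : f = bk D c K)
    (hS : S = stabT H K f) :
    Rt p m S D c ∧ bk D c S = f ∧ lL p H (bk D c H) = lL p S f ∧
      ∀ s, s ∈ S ↔ ∃ k ∈ K, ∃ t ∈ stabT H D c, s = k * t := by
  have hP := h.pD.to_le hPD
  have hPH := hPD.trans h.le_H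
  have hKH : K ≤ H := hK ▸ inf_le_left
  have hKn : H ≤ Nz K := hK ▸ le_Nz_inf H P hn
  have hK' : Rt p m K D c := h.local hp hPD hK.ge hKH (hKH.trans hn)
  obtain ⟨h1, h2⟩ := hK'.spec hp hK'.le
  rw [← hf] at h1 h2
  have hKS : K ≤ S := hS ▸ le_stabT hKH h1.fix
  have hSH : S ≤ H := fun g hg => (hS ▸ hg : g ∈ stabT H K f).1
  have hfS : Fix S f := fun g hg => (hS ▸ hg : g ∈ stabT H K f).2.2
  have hS' : Rt p m S D c := h.local hp hPD (hK.ge.trans hKS) hSH (hSH.trans hn)
  have key : ∀ L, Rt p m L D c → K ≤ L → L ≤ H → Supp K (bk D c L) ∧ bk D c L * f = f := by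
    intro L hL h3 h4
    obtain ⟨h5, h6⟩ := hL.spec hp hL.le
    have h7 : Supp K (bk D c L) := (supp_of_normal hp hP (hPD.trans hL.le_H) (h4.trans hn)
      h5.idem h5.supp h5.fix).mono (hK ▸ inf_le_inf_right _ h4)
    refine ⟨h7, ?_⟩
    rw [h5.fix.comm (h1.supp.mono h3)]
    refine (h1.dich h5.idem h7 (h5.fix.mono h3)).resolve_left fun e => h.root.res_ne ?_
    unfold Bi.Le at h2 h6
    rw [← h2, ← h6, ← mul_assoc, ← bb_mul hp h.pD (h1.fix.mono hK'.le_H) (h5.fix.mono hL.le_H), e,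
      bb_zero, zero_mul]
  obtain ⟨h3, h4⟩ := key H h hKH le_rfl
  obtain ⟨h5, h6⟩ := key S hS' hKS hSH
  have h7 := (h.spec hp h.le).1
  have h8 := (hS'.spec hp hS'.le).1
  refine ⟨hS', ?_, hS ▸ lL_fong hp hKH hKn h1 h7.idem h3 h7.fix h4 fun f' hf' e => ?_,
    fun s => ⟨fun hs => ?_, ?_⟩⟩
  · rw [← h6]
    exact ((h8.dich h1.idem (h1.supp.mono hKS) hfS).resolve_left (h6.symm ▸ h1.ne)).symm
  · refine h7.cover_conj hKH hKn h1 hf' (h4.symm ▸ h1.ne) ?_
    rw [h7.fix.comm (hf'.supp.mono hKH), e]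
    exact hf'.ne
  · exact hK'.frattini hp hKH (by rwa [hS, hf] at hs)
  · rintro ⟨k, hk, t, ⟨t1, t2, t3⟩, rfl⟩
    refine S.mul_mem (hKS hk) ?_
    rw [hS]
    refine ⟨t1, hKn t1, ?_⟩
    rw [hf, ← hK'.bk_conj hp hK'.le, cg_eq_iff.2 t2, cg_eq_iff.2 (hKn t1), t3]

end Pool.Agent.Lib.MP_b6945b_al.Kx
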