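import Pool.Agent.Lib.MP_b6945b_al.Kx.PDef

set_option autoImplicit false

/-!
The projections `kap` and their traces.
-/

namespace Pool.Agent.Lib.MP_b6945b_al.Kx

open St Bi Finset
open MonoidAlgebra (single)

section group
variable {G : Type} [Group G] {K : Subgroup G} {x y a g k s : G}

/-- Invariance under conjugation by `K`. -/
def KInv (K : Subgroup G) (Φ : G → ℂ) : Prop := ∀ k ∈ K, ∀ g, Φ (k * g * k⁻¹) = Φ g

lemma nz_iff (hx : x ∈ Nz K) (g : G) : x * g * x⁻¹ ∈ K ↔ g ∈ K :=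
  (Subgroup.mem_normalizer_iff.1 hx g).symm

lemma nz_iff' (hx : x ∈ Nz K) (g : G) : x⁻¹ * g * x ∈ K ↔ g ∈ K := by
  simpa using nz_iff (Subgroup.inv_mem _ hx) g

lemma coset_conj (hx : x ∈ Nz K) (hk : k ∈ K) (a : G) :
    k * a * k⁻¹ * x⁻¹ ∈ K ↔ a * x⁻¹ ∈ K := by
  rw [show k * a * k⁻¹ * x⁻¹ = k * (a * x⁻¹) * (x * k⁻¹ * x⁻¹) by group,
    K.mul_mem_cancel_right ((nz_iff hx _).2 (K.inv_mem hk)), K.mul_mem_cancel_left hk]

lemma coset_conj' (hy : y ∈ Nz K) (hc : y * x * y⁻¹ * x⁻¹ ∈ K) (a : G) :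
    y * a * y⁻¹ * x⁻¹ ∈ K ↔ a * x⁻¹ ∈ K := by
  rw [show y * a * y⁻¹ * x⁻¹ = y * (a * x⁻¹) * y⁻¹ * (y * x * y⁻¹ * x⁻¹) by group,
    K.mul_mem_cancel_right hc, nz_iff hy]

lemma coset_nz (hx : x ∈ Nz K) (hs : s * x⁻¹ ∈ K) : s ∈ Nz K := by
  simpa using Subgroup.mul_mem _ (Subgroup.le_normalizer hs) hx

lemma coset_change (hs : s * x⁻¹ ∈ K) (a : G) : a * s⁻¹ ∈ K ↔ a * x⁻¹ ∈ K := by
  rw [show a * s⁻¹ = a * x⁻¹ * (s * x⁻¹)⁻¹ by group, K.mul_mem_cancel_right (K.inv_mem hs)]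

lemma KInv.ext {Φ : G → ℂ} (h : KInv K Φ) (hx : x ∈ Nz K) (h0 : ∀ g, g * x⁻¹ ∉ K → Φ g = 0)
    (hs : s * x⁻¹ ∈ K) : KInv (K ⊔ Subgroup.zpowers s) Φ := by
  let W : Subgroup G :=
    { carrier := {w | ∀ g, Φ (w * g * w⁻¹) = Φ g}
      one_mem' := fun g => by simp
      mul_mem' := fun {a b} ha hb g => by
        rw [← hb g, ← ha (b * g * b⁻¹)]
        congr 1
        group
      inv_mem' := fun {a} ha g => by
        rw [← ha (a⁻¹ * g * a⁻¹⁻¹)]
        congr 1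
        group }
  have h1 : K ⊔ Subgroup.zpowers s ≤ W := by
    refine sup_le h (Subgroup.zpowers_le.2 fun g => ?_)
    by_cases hg : g * x⁻¹ ∈ K
    · have h2 : s * g⁻¹ ∈ K := (coset_change hg s).2 hs
      rw [← h _ h2 g]
      congr 1
      group
    · rw [h0 g hg, h0]
      rwa [← coset_change hs, coset_conj' (coset_nz hx hs) (by simp), coset_change hs]
  exact fun k hk => h1 hk

end group

open scoped Classical

variable {G : Type} [Group G] [Fintype G] {V : ValuationSubring ℂ} {p : ℕ}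
  {K H : Subgroup G} {ε ε' f : MonoidAlgebra V G} {x y a g k s : G} {Φ : G → ℂ}

/-- The number of ways to write an element as a `K`-conjugate of `a`. -/
noncomputable def cnt (K : Subgroup G) (a h : G) : ℂ :=
  ∑ k, if k ∈ K ∧ h = k * a * k⁻¹ then 1 else 0

lemma sum_mem_const (K : Subgroup G) (c : ℂ) :
    ∑ k, (if k ∈ K then c else 0) = Nat.card K * c := by
  rw [← Finset.sum_filter, Finset.sum_const, nsmul_eq_mul, Nat.card_eq_fintype_card,
    Fintype.card_subtype]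

omit [Fintype G] in
lemma cardK_ne (K : Subgroup G) [Finite G] : (Nat.card K : ℂ) ≠ 0 :=
  Nat.cast_ne_zero.2 Nat.card_pos.ne'

lemma ev_cnt (K : Subgroup G) (a : G) (w : MonoidAlgebra V G) :
    ev (cnt K a) w = ∑ k, if k ∈ K then cf w (k * a * k⁻¹) else 0 := by
  simp only [ev, cnt, Finset.mul_sum]
  rw [Finset.sum_comm]
  refine Finset.sum_congr rfl fun k _ => ?_
  by_cases hk : k ∈ K <;> simp [hk]

lemma av_eq_ev (K : Subgroup G) (ε : MonoidAlgebra V G) (g a : G) :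
    av K ε g a = ev (cnt K a) (single g 1 * ε) := by
  rw [ev_cnt, av]
  refine Finset.sum_congr rfl fun k _ => ?_
  simp [cf]

lemma cnt_inv (K : Subgroup G) (a : G) : KInv K (cnt K a) := by
  intro k hk g
  refine (Fintype.sum_equiv (Equiv.mulLeft k) _ _ fun l => ?_).symm
  refine if_congr (and_congr (K.mul_mem_cancel_left hk).symm ?_) rfl rfl
  rw [Equiv.coe_mulLeft, show k * l * a * (k * l)⁻¹ = k * (l * a * l⁻¹) * k⁻¹ by group,
    mul_left_inj, mul_right_inj]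

lemma cnt_ne (h : cnt K a g ≠ 0) : ∃ k ∈ K, g = k * a * k⁻¹ := by
  obtain ⟨k, -, hk⟩ := Finset.exists_ne_zero_of_sum_ne_zero h
  exact ⟨k, (ite_ne_right_iff.1 hk).1⟩

lemma cnt_coset (hx : x ∈ Nz K) (ha : a * x⁻¹ ∈ K) (g : G) (hg : g * x⁻¹ ∉ K) :
    cnt K a g = 0 := by
  by_contra h
  obtain ⟨k, hk, rfl⟩ := cnt_ne h
  exact hg ((coset_conj hx hk a).2 ha)

lemma KInv.ev_cj (h : KInv K Φ) (hk : k ∈ K) (w : MonoidAlgebra V G) :
    ev Φ (cjRep V G k w) = ev Φ w := by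
  rw [Bi.ev_cj]
  exact congrArg (ev · w) (funext fun y => h k hk y)

lemma KInv.ev_comm (h : KInv K Φ) (hs : Supp K ε) (w : MonoidAlgebra V G) :
    ev Φ (w * ε) = ev Φ (ε * w) := by
  rw [← ev_ev, ← ev_ev]
  simp only [ev_single_mul]
  simp only [ev, Finset.mul_sum]
  rw [Finset.sum_comm]
  refine Finset.sum_congr rfl fun l _ => Finset.sum_congr rfl fun g _ => ?_
  by_cases hl : l ∈ K
  · rw [← h l hl (g * l), show l * (g * l) * l⁻¹ = l * g by group, mul_left_comm]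
  · rw [borth_cf_zero hs hl]
    simp

lemma av_sum (h : KInv K Φ) (ε : MonoidAlgebra V G) (g : G) :
    ∑ a, av K ε g a * Φ a = Nat.card K * ev Φ (single g 1 * ε) := by
  simp only [av, Finset.sum_mul]
  rw [Finset.sum_comm, ← sum_mem_const]
  refine Finset.sum_congr rfl fun k _ => ?_
  by_cases hk : k ∈ K
  · simp only [if_pos hk]
    rw [ev_single_mul']
    refine Fintype.sum_equiv (MulAut.conj k).toEquiv _ _ fun a => ?_
    change _ = cf ε (g⁻¹ * (k * a * k⁻¹)) * Φ (k * a * k⁻¹)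
    rw [h k hk]
  · simp [hk]

lemma av_left (hf : Fix K ε) (a : G) : KInv K fun g => av K ε g a := by
  intro k hk g
  beta_reduce
  rw [av_eq_ev, av_eq_ev, ← (cnt_inv K a).ev_cj hk (single g 1 * ε), cjRep_mul, hf k hk,
    frpg_cj_single]

lemma av_right (ε : MonoidAlgebra V G) (g : G) : KInv K (av K ε g) := by
  intro k hk a
  refine Fintype.sum_equiv (Equiv.mulRight k) _ _ fun l => ?_
  refine if_congr (K.mul_mem_cancel_right hk).symm ?_ rfl
  rw [Equiv.coe_mulRight]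
  congr 2
  group

lemma av_cj (hy : y ∈ Nz K) (ε : MonoidAlgebra V G) (g a : G) :
    av K (cjRep V G y ε) (y * g * y⁻¹) (y * a * y⁻¹) = av K ε g a := by
  refine (Fintype.sum_equiv (MulAut.conj y).toEquiv _ _ fun l => ?_).symm
  refine if_congr (nz_iff hy l).symm ?_ rfl
  change _ = cf _ ((y * g * y⁻¹)⁻¹ * (y * l * y⁻¹ * (y * a * y⁻¹) * (y * l * y⁻¹)⁻¹))
  rw [cf, cf, coeff_cjRep]
  congr 2
  group

lemma av_supp (hs : Supp K ε) (hx : x ∈ Nz K) (h : ¬ (g * x⁻¹ ∈ K ↔ a * x⁻¹ ∈ K)) :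
    av K ε g a = 0 := by
  refine Finset.sum_eq_zero fun k _ => ?_
  split_ifs with hk
  · refine borth_cf_zero hs fun e => h ?_
    rw [← coset_conj hx hk a, show k * a * k⁻¹ * x⁻¹ =
      g * x⁻¹ * (x * (g⁻¹ * (k * a * k⁻¹)) * x⁻¹) by group,
      K.mul_mem_cancel_right ((nz_iff hx _).2 e)]
  · rfl

omit [Fintype G] in
lemma CI.change (h : CI K ε x) (hs : s * x⁻¹ ∈ K) : CI K ε s :=
  ⟨h.idem, h.supp, h.fix, coset_nz h.nz hs, by
    rw [show s = s * x⁻¹ * x by group, ← frpg_cj_cj, h.cj, h.fix _ hs]⟩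

omit [Fintype G] in
lemma CI.fix_sup (h : CI K ε x) : Fix (K ⊔ Subgroup.zpowers x) ε :=
  h.fix.sup (fix_zpowers_iff.2 h.cj)

lemma muK_left (hk : k ∈ K) : muK p K ε (k * x) y = muK p K ε x y :=
  Finset.sum_congr rfl fun a _ =>
    if_congr (and_congr (coset_change (by simpa using hk) a) Iff.rfl) rfl rfl

lemma muK_right (hk : k ∈ K) : muK p K ε x (k * y) = muK p K ε x y := by
  refine Finset.sum_congr rfl fun a _ => if_congr Iff.rfl ?_ rfl
  rw [← av_right ε a k hk (y * a * y⁻¹)]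
  congr 2
  group

lemma muK_noncomm (hs : Supp K ε) (hx : x ∈ Nz K) (hy : y ∈ Nz K)
    (h : y * x * y⁻¹ * x⁻¹ ∉ K) : muK p K ε x y = 0 := by
  refine Finset.sum_eq_zero fun a _ => ?_
  split_ifs with ha
  · rw [av_supp hs hx fun e => h ?_, mul_zero]
    have h1 := e.1 ha.1
    rwa [show y * a * y⁻¹ * x⁻¹ = y * (a * x⁻¹) * y⁻¹ * (y * x * y⁻¹ * x⁻¹) by group,
      K.mul_mem_cancel_left ((nz_iff hy _).2 ha.1)] at h1
  · rfl

lemma cjM_mul (y : G) (A : Matrix G G ℂ) (g a : G) : (cjM y * A) g a = A (y⁻¹ * g * y) a := by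
  rw [Matrix.mul_apply, Finset.sum_eq_single (y⁻¹ * g * y)]
  · rw [cjM, Matrix.of_apply, if_pos (by group), one_mul]
  · intro b _ hb
    rw [cjM, Matrix.of_apply, if_neg (fun e => hb (by rw [e]; group)), zero_mul]
  · exact fun h => absurd (mem_univ _) h

lemma mul_cjM (y : G) (A : Matrix G G ℂ) (g a : G) : (A * cjM y) g a = A g (y * a * y⁻¹) := by
  rw [Matrix.mul_apply, Finset.sum_eq_single (y * a * y⁻¹)]
  · rw [cjM, Matrix.of_apply, if_pos rfl, mul_one]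
  · intro b _ hb
    rw [cjM, Matrix.of_apply, if_neg hb, mul_zero]
  · exact fun h => absurd (mem_univ _) h

lemma mul_cjM_one (A : Matrix G G ℂ) : A * cjM 1 = A := by
  ext g a
  rw [mul_cjM, one_mul, inv_one, mul_one]

theorem kap_cj (hy : y ∈ Nz K) (hc : y * x * y⁻¹ * x⁻¹ ∈ K) (ε : MonoidAlgebra V G) :
    cjM y * kap p K ε x = kap p K (cjRep V G y ε) x * cjM y := by
  ext g a
  obtain ⟨g, rfl⟩ := (MulAut.conj y).surjective g
  rw [cjM_mul, mul_cjM, MulAut.conj_apply, show y⁻¹ * (y * g * y⁻¹) * y = g by group]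
  simp only [kap, Matrix.of_apply, av_cj hy]
  exact if_congr (by simp only [coset_conj' hy hc, borth_ord]) rfl rfl

theorem kap_comm (hy : y ∈ Nz K) (hc : y * x * y⁻¹ * x⁻¹ ∈ K) (he : cjRep V G y ε = ε) :
    cjM y * kap p K ε x = kap p K ε x * cjM y := by
  rw [kap_cj hy hc, he]

theorem trace_kap (hy : y ∈ Nz K) (hc : y * x * y⁻¹ * x⁻¹ ∈ K) :
    (kap p K ε x * cjM y).trace = muK p K ε x y := by
  refine Finset.sum_congr rfl fun a _ => ?_
  rw [Matrix.diag_apply, mul_cjM]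
  exact if_congr (by simp only [coset_conj' hy hc, borth_ord, and_self]) rfl rfl

theorem trace_kap_one : (kap p K ε x).trace = muK p K ε x 1 := by
  rw [← trace_kap (Subgroup.one_mem _) (by simp), mul_cjM_one]

omit [Group G] in
lemma trace_idem [DecidableEq G] {A : Matrix G G ℂ} (hA : A * A = A) :
    A.trace = Module.finrank ℂ (LinearMap.range (Matrix.toLin' A)) := by
  have h : LinearMap.IsProj (LinearMap.range (Matrix.toLin' A)) (Matrix.toLin' A) :=
    ⟨fun v => LinearMap.mem_range_self _ v, by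
      rintro _ ⟨v, rfl⟩
      rw [← LinearMap.comp_apply, ← Matrix.toLin'_mul, hA]⟩
  rw [← h.trace, Matrix.trace_toLin'_eq]

omit [Group G] in
theorem rank_one_mul [DecidableEq G] {A Y : Matrix G G ℂ} (hA : A * A = A) (h1 : A.trace = 1)
    (hc : Y * A = A * Y) : A * Y = (A * Y).trace • A := by
  have h2 : Module.finrank ℂ (LinearMap.range (Matrix.toLin' A)) = 1 := by
    rw [trace_idem hA] at h1
    exact_mod_cast h1
  obtain ⟨⟨_, v, rfl⟩, -, hv⟩ := finrank_eq_one_iff'.1 h2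
  obtain ⟨μ, hμ⟩ := hv ⟨_, Matrix.toLin' Y v, rfl⟩
  have h3 : A * Y = μ • A := by
    refine Matrix.toLin'.injective (LinearMap.ext fun w => ?_)
    obtain ⟨c, hw⟩ := hv ⟨_, w, rfl⟩
    have h4 : c • Matrix.toLin' A v = Matrix.toLin' A w := congrArg Subtype.val hw
    have h5 : μ • Matrix.toLin' A v = Matrix.toLin' A (Matrix.toLin' Y v) :=
      congrArg Subtype.val hμ
    rw [← hc, Matrix.toLin'_mul, map_smul, LinearMap.smul_apply, LinearMap.comp_apply, ← h4,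
      map_smul, ← LinearMap.comp_apply, ← Matrix.toLin'_mul, hc, Matrix.toLin'_mul,
      LinearMap.comp_apply, ← h5, smul_comm]
  rw [h3, Matrix.trace_smul, h1, smul_eq_mul, mul_one]

lemma av_moved (hf : HB K f) (hx : x ∈ Nz K) (h : cjRep V G x f ≠ f) (hg : g * x⁻¹ ∈ K) (a : G) :
    av K f g a = 0 := by
  have h1 : cjRep V G g f = cjRep V G x f := by
    rw [show g = g * x⁻¹ * x by group, ← frpg_cj_cj, (hf.conj_norm hx).fix _ hg]
  rw [av_eq_ev, ← hf.idem, ← mul_assoc, (cnt_inv K a).ev_comm hf.supp, single_mul_cj, h1,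
    ← mul_assoc, hf.orth (hf.conj_norm hx) h.symm, zero_mul, ev_zero]

variable [Fact p.Prime]

lemma av_sing (hp : (p : ℂ) ∈ V.nonunits) (h : CI K ε x) (ha : a * x⁻¹ ∈ K) (hg : g * x⁻¹ ∈ K)
    (hra : ¬ p ∣ orderOf a) (hrg : p ∣ orderOf g) : av K ε g a = 0 := by
  have h1 : Reg p (cnt K a) = cnt K a := by
    funext b
    by_cases e : p ∣ orderOf b
    · rw [Reg_apply_sing _ e]
      by_contra h0
      obtain ⟨k, -, rfl⟩ := cnt_ne (Ne.symm h0)
      exact hra (by rwa [borth_ord] at e)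
    · exact Reg_apply_reg _ e
  rw [av_eq_ev, ← h1]
  exact orth_sing hp h.idem (h.supp.mono le_sup_left) (h.change hg).fix_sup
    (fun l hl b _ => (cnt_inv K a).ext h.nz (cnt_coset h.nz ha) hg l hl b)
    (Subgroup.mem_sup_right (Subgroup.mem_zpowers g)) hrg

lemma ev_reg (hp : (p : ℂ) ∈ V.nonunits) (h : CI K ε x) (hΦ : KInv K Φ) (hg : g * x⁻¹ ∈ K)
    (hrg : ¬ p ∣ orderOf g) :
    ev Φ (single g 1 * ε) =
      ∑ a, if a * x⁻¹ ∈ K ∧ ¬ p ∣ orderOf a then cf ε (g⁻¹ * a) * Φ a else 0 := by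
  let Ψ : G → ℂ := fun a => if a * x⁻¹ ∈ K then Φ a else 0
  have h1 : KInv K Ψ := fun k hk a => if_congr (coset_conj h.nz hk a) (hΦ k hk a) rfl
  have h2 : ∀ a, a * x⁻¹ ∉ K → cf ε (g⁻¹ * a) = 0 := fun a ha => by
    refine borth_cf_zero h.supp fun e => ha ?_
    rw [← nz_iff' h.nz, show x⁻¹ * (a * x⁻¹) * x = x⁻¹ * (g * x⁻¹) * x * (g⁻¹ * a) by group]
    exact K.mul_mem ((nz_iff' h.nz _).2 hg) e
  have h3 : ev Φ (single g 1 * ε) = ev Ψ (single g 1 * ε) := by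
    rw [ev_single_mul', ev_single_mul']
    refine Finset.sum_congr rfl fun a _ => ?_
    by_cases ha : a * x⁻¹ ∈ K
    · simp only [Ψ, if_pos ha]
    · rw [h2 a ha, zero_mul, zero_mul]
  rw [h3, ← orth_reg hp h.idem (h.supp.mono le_sup_left) (h.change hg).fix_sup
    (fun l hl b _ => h1.ext h.nz (fun a ha => if_neg ha) hg l hl b)
    (Subgroup.mem_sup_right (Subgroup.mem_zpowers g)) hrg, ev_single_mul']
  refine Finset.sum_congr rfl fun a _ => ?_
  by_cases e : p ∣ orderOf a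
  · rw [Reg_apply_sing _ e, mul_zero, if_neg fun h => h.2 e]
  · rw [Reg_apply_reg _ e]
    by_cases ha : a * x⁻¹ ∈ K <;> simp [Ψ, ha, e]

theorem kap_mul (hp : (p : ℂ) ∈ V.nonunits) (ε : MonoidAlgebra V G) (h : CI K ε' x) :
    kap p K ε x * kap p K ε' x = kap p K (ε * ε') x := by
  ext g a
  rw [Matrix.mul_apply]
  simp only [kap, Matrix.of_apply]
  by_cases hg : g * x⁻¹ ∈ K ∧ ¬ p ∣ orderOf g
  swap
  · simp [hg]
  by_cases ha : a * x⁻¹ ∈ K ∧ ¬ p ∣ orderOf a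
  swap
  · simp [ha]
  have h1 := av_sum (av_left h.fix a) ε g
  have h2 : (fun g => av K ε' g a) = fun g => ev (cnt K a) (single g 1 * ε') :=
    funext fun g => av_eq_ev ..
  rw [h2, ev_ev, mul_assoc, ← av_eq_ev] at h1
  rw [if_pos ⟨hg, ha⟩, (eq_inv_mul_iff_mul_eq₀ (cardK_ne K)).2 h1.symm, Finset.mul_sum,
    Finset.mul_sum]
  refine Finset.sum_congr rfl fun b _ => ?_
  by_cases hb : b * x⁻¹ ∈ K ∧ ¬ p ∣ orderOf b
  · rw [if_pos ⟨hg, hb⟩, if_pos ⟨hb, ha⟩]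
    ring
  · have h3 : av K ε' b a = 0 := by
      by_cases e : b * x⁻¹ ∈ K
      · exact av_sing hp h ha.1 e ha.2 (by_contra fun e' => hb ⟨e, e'⟩)
      · exact av_supp h.supp h.nz fun e' => e (e'.2 ha.1)
    simp [hb, h3]

theorem kap_idem (hp : (p : ℂ) ∈ V.nonunits) (h : CI K ε x) :
    kap p K ε x * kap p K ε x = kap p K ε x := by
  rw [kap_mul hp ε h, h.idem]

omit [Fact p.Prime] in
lemma kap_zero : kap p K (0 : MonoidAlgebra V G) x = 0 := by
  ext g a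
  simp [kap, av, cf]

theorem muK_moved (hp : (p : ℂ) ∈ V.nonunits) (hf : HB K f) (hx : x ∈ Nz K) (hy : y ∈ Nz K)
    (h : cjRep V G x f ≠ f ∨ cjRep V G y f ≠ f) : muK p K f x y = 0 := by
  by_cases h1 : cjRep V G x f = f
  swap
  · refine Finset.sum_eq_zero fun a _ => ?_
    split_ifs with ha
    · rw [av_moved hf hx h1 ha.1, mul_zero]
    · rfl
  have h2 := h.resolve_left (not_not.2 h1)
  by_cases hc : y * x * y⁻¹ * x⁻¹ ∈ K
  swap
  · exact muK_noncomm hf.supp hx hy hc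
  have h3 : CI K f x := ⟨hf.idem, hf.supp, hf.fix, hx, h1⟩
  have h4 : CI K (cjRep V G y f) x := by
    have h5 := hf.conj_norm hy
    refine ⟨h5.idem, h5.supp, h5.fix, hx, ?_⟩
    rw [frpg_cj_cj, show x * y = (y * x * y⁻¹ * x⁻¹)⁻¹ * (y * x) by group, ← frpg_cj_cj,
      ← frpg_cj_cj, h1, h5.fix _ (K.inv_mem hc)]
  rw [← trace_kap hy hc, ← kap_idem hp h3, Matrix.mul_assoc, Matrix.trace_mul_comm,
    Matrix.mul_assoc, kap_cj hy hc, ← Matrix.mul_assoc, kap_mul hp _ h4,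
    hf.orth (hf.conj_norm hy) h2.symm, kap_zero, Matrix.zero_mul, Matrix.trace_zero]

theorem lL_eq_muK (hp : (p : ℂ) ∈ V.nonunits) (hε : ε * ε = ε) (hs : Supp H ε) (hf : Fix H ε) :
    (lL p H ε : ℂ) = muK p H ε 1 1 := by
  have h : CI H ε 1 := ⟨hε, hs, hf, Subgroup.one_mem _, by rw [map_one]; rfl⟩
  rw [← trace_kap_one, trace_idem (kap_idem hp h), lL]
  suffices h0 : (CFs H ε).map (Reg p) = LinearMap.range (Matrix.toLin' (kap p H ε 1)) by rw [h0]
  have key : ∀ (z : G → ℂ) (g : G), Matrix.toLin' (kap p H ε 1) z g =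
      if g ∈ H ∧ ¬ p ∣ orderOf g then (Nat.card H : ℂ)⁻¹ *
        ∑ a, av H ε g a * (if a ∈ H ∧ ¬ p ∣ orderOf a then z a else 0) else 0 := fun z g => by
    simp only [Matrix.toLin'_apply, Matrix.mulVec, dotProduct, kap, Matrix.of_apply, inv_one,
      mul_one, Finset.mul_sum]
    by_cases hg : g ∈ H ∧ ¬ p ∣ orderOf g
    · rw [if_pos hg]
      refine Finset.sum_congr rfl fun a _ => ?_
      by_cases ha : a ∈ H ∧ ¬ p ∣ orderOf a
      · rw [if_pos ⟨hg, ha⟩, if_pos ha, mul_assoc]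
      · simp [ha]
    · simp [hg]
  ext z
  rw [mem_map_reg hp hε hs hf]
  constructor
  · rintro ⟨⟨h1, h2, h3⟩, h4⟩
    refine ⟨z, funext fun g => ?_⟩
    have h5 : ∀ a, (if a ∈ H ∧ ¬ p ∣ orderOf a then z a else 0) = z a := fun a => by
      split_ifs with ha
      · rfl
      · by_cases e : a ∈ H
        · rw [← h4, Reg_apply_sing _ (by_contra fun e' => ha ⟨e, e'⟩)]
        · exact (h1 a e).symm
    rw [key]
    simp only [h5]
    rw [av_sum h2, inv_mul_cancel_left₀ (cardK_ne H), ← h5 g]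
    split_ifs with hg
    · exact h3 g hg.1
    · rfl
  · rintro ⟨w, rfl⟩
    have hz : Matrix.toLin' (kap p H ε 1) (Matrix.toLin' (kap p H ε 1) w) =
        Matrix.toLin' (kap p H ε 1) w := by
      rw [← LinearMap.comp_apply, ← Matrix.toLin'_mul, kap_idem hp h]
    have h2 : KInv H (Matrix.toLin' (kap p H ε 1) w) := fun k hk g => by
      rw [key, key]
      refine if_congr (and_congr (nz_iff (Subgroup.le_normalizer hk) g) (by rw [borth_ord])) ?_ rfl
      exact congrArg _ (Finset.sum_congr rfl fun a _ =>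
        congrArg (· * _) (av_left hf a k hk g))
    have h1 : ∀ g, ¬ (g ∈ H ∧ ¬ p ∣ orderOf g) → Matrix.toLin' (kap p H ε 1) w g = 0 :=
      fun g hg => by rw [key, if_neg hg]
    generalize Matrix.toLin' (kap p H ε 1) w = z at hz h1 h2
    have h4 : Reg p z = z := funext fun g => by
      by_cases e : p ∣ orderOf g
      · rw [Reg_apply_sing _ e, h1 g fun h => h.2 e]
      · exact Reg_apply_reg _ e
    refine ⟨⟨fun g hg => h1 g fun h => hg h.1, h2, fun g hg => ?_⟩, h4⟩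
    by_cases e : p ∣ orderOf g
    · rw [h1 g fun h => h.2 e, ← h4]
      exact orth_sing hp hε hs hf (fun l hl b _ => h2 l hl b) hg e
    · have h5 : ∀ a, (if a ∈ H ∧ ¬ p ∣ orderOf a then z a else 0) = z a := fun a => by
        split_ifs with ha
        · rfl
        · exact (h1 a ha).symm
      conv_rhs => rw [← hz, key, if_pos ⟨hg, e⟩]
      simp only [h5]
      rw [av_sum h2, inv_mul_cancel_left₀ (cardK_ne H)]

variable {m : ℕ} {D P : Subgroup G} {c : MonoidAlgebra V G}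

lemma eP_hb (hp : (p : ℂ) ∈ V.nonunits) (h : Rt p m ⊤ D c) (hPD : P ≤ D) :
    HB (Cz P) (eP D c P) := (h.spec hp (Cz_anti hPD)).1

lemma Adm.ci (hp : (p : ℂ) ∈ V.nonunits) (h : Rt p m ⊤ D c) (hPD : P ≤ D) (hT : x ∈ stabT ⊤ D c)
    (hN : x ∈ Nz P) : CI (Cz P) (eP D c P) x := by
  have h1 := eP_hb hp h hPD
  refine ⟨h1.idem, h1.supp, h1.fix, Nz_le_Nz_Cz P hN, ?_⟩
  rw [← h.bk_conj hp (Cz_anti hPD), cg_eq_iff.2 hT.2.1, hT.2.2, cg_eq_iff.2 (Nz_le_Nz_Cz P hN)]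

end Pool.Agent.Lib.MP_b6945b_al.Kx
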