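import Pool.Agent.Lib.MP_b6945b_al.Kx.PCount

set_option autoImplicit false

/-!
The trivial coset.
-/

namespace Pool.Agent.Lib.MP_b6945b_al.Kx

open St Bi IsLocalRing Finset
open MonoidAlgebra (single)

variable {G : Type} [Group G] [Fintype G] {V : ValuationSubring ℂ} {p : ℕ} [Fact p.Prime]
  {K : Subgroup G} {f : MonoidAlgebra V G} {y : G}

omit [Fact p.Prime] in
open Classical in
lemma pone_apply (a b : G) : resP K f (indS K (Reg p (Pi.single b 1))) a =
    if a ∈ K ∧ ¬ p ∣ orderOf b then av K f a b else 0 := by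
  by_cases ha : a ∈ K
  · rw [resP_mem _ ha, ev_indS]
    by_cases e : p ∣ orderOf b
    · have h2 : Reg p (Pi.single b (1 : ℂ) : G → ℂ) = 0 := funext fun g => by
        by_cases e' : p ∣ orderOf g
        · exact Reg_apply_sing _ e'
        · rw [Reg_apply_reg _ e', Pi.single_eq_of_ne fun h : g = b => e' (h ▸ e)]
          rfl
      rw [h2, if_neg fun h => h.2 e]
      simp [ev]
    · have h2 : Reg p (Pi.single b (1 : ℂ) : G → ℂ) = Pi.single b 1 := funext fun g => by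
        by_cases e' : p ∣ orderOf g
        · rw [Reg_apply_sing _ e', Pi.single_eq_of_ne fun h : g = b => e (h ▸ e')]
        · exact Reg_apply_reg _ e'
      rw [h2, if_pos ⟨ha, e⟩, av]
      refine Fintype.sum_equiv (Equiv.inv G) _ _ fun k => ?_
      rw [Equiv.inv_apply]
      refine if_congr K.inv_mem_iff.symm ?_ rfl
      simp [ev, cf, Pi.single_apply, coeff_cjRep, mul_assoc]
  · rw [resP_out _ ha, if_neg fun h => ha h.1]

lemma pone_mem (hp : (p : ℂ) ∈ V.nonunits) (hf : f * f = f) (hs : Supp K f) (hx : Fix K f)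
    (x : G → ℂ) : resP K f (indS K (Reg p x)) ∈ (CFs K f).map (Reg p) := by
  classical
  refine resP_reg hp hf hs hx (fun a ha g _ => ?_) (funext fun g => ?_)
  · rw [indS_apply, indS_apply]
    refine Fintype.sum_equiv (Equiv.mulRight a) _ _ fun k => ?_
    rw [Equiv.coe_mulRight]
    refine if_congr (K.mul_mem_cancel_right ha).symm ?_ rfl
    group
  · by_cases e : p ∣ orderOf g
    · rw [Reg_apply_sing _ e, indS_apply]
      refine (Finset.sum_eq_zero fun a _ => ?_).symm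
      rw [Reg_apply_sing _ (by rwa [borth_ord]), ite_self]
    · exact Reg_apply_reg _ e

lemma pone_lL (hp : (p : ℂ) ∈ V.nonunits) (hf : f * f = f) (hs : Supp K f) (hx : Fix K f) :
    (lL p K f : ℂ) = muK p K f 1 1 := by
  classical
  have h0 : (Nat.card K : ℂ) ≠ 0 := Nat.cast_ne_zero.2 Nat.card_pos.ne'
  rw [muK_eq_sum, eq_inv_mul_iff_mul_eq₀ h0, card_mul_lL hp hf hs hx]
  refine Finset.sum_congr rfl fun a _ => if_congr (by rw [inv_one, mul_one])
    (Finset.sum_congr rfl fun b _ => if_congr (by rw [inv_one, mul_one]) rfl rfl) rfl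

theorem muK_one_left (hp : (p : ℂ) ∈ V.nonunits) (hf : f * f = f) (hs : Supp K f) (hx : Fix K f)
    (h0 : f ≠ 0) (hl : lL p K f ≤ 1) (hy : y ∈ Nz K) (he : cjRep V G y f = f) :
    muK p K f 1 y = 1 := by
  classical
  obtain ⟨F, hF⟩ : ∃ F : G → G → ℂ, ∀ b, F b = resP K f (indS K (Reg p (Pi.single b 1))) :=
    ⟨_, fun _ => rfl⟩
  have h1 : ∀ b, F b ∈ (CFs K f).map (Reg p) := fun b => hF b ▸ pone_mem hp hf hs hx _
  have h2 : ∀ a, F 1 a = if a ∈ K then Nat.card K * cf f a⁻¹ else 0 := fun a => by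
    rw [hF, pone_apply, av]
    simp only [mul_one, mul_inv_cancel, pcount_card]
    exact if_congr (and_iff_left bpp_one) rfl rfl
  have h3 : (⟨F 1, h1 1⟩ : (CFs K f).map (Reg p)) ≠ 0 := fun e => by
    have h4 : F 1 1 = 0 := congrFun (congrArg Subtype.val e) 1
    rw [h2, if_pos K.one_mem, inv_one] at h4
    exact mul_ne_zero (Nat.cast_ne_zero.2 Nat.card_pos.ne') (cf_one_ne hf h0) h4
  have h4 : lL p K f = 1 :=
    le_antisymm hl (Module.finrank_pos_iff_exists_ne_zero.2 ⟨_, h3⟩)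
  choose l hl' using fun b => exists_smul_eq_of_finrank_eq_one h4 h3 ⟨F b, h1 b⟩
  have h5 : ∀ z, muK p K f 1 z = ∑ a, (Nat.card K : ℂ)⁻¹ * (l (z * a * z⁻¹) * F 1 a) := fun z => by
    refine Finset.sum_congr rfl fun a _ => ?_
    have h6 : l (z * a * z⁻¹) * F 1 a = F (z * a * z⁻¹) a :=
      congrFun (congrArg Subtype.val (hl' (z * a * z⁻¹))) a
    rw [h6, hF, pone_apply, borth_ord, inv_one, mul_one, mul_ite, mul_zero]
  have h6 := pone_lL hp hf hs hx
  rw [h4, Nat.cast_one, h5] at h6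
  rw [h5, h6]
  refine Fintype.sum_equiv (MulAut.conj y).toEquiv _ _ fun a => ?_
  have h7 : cf f (y * a * y⁻¹)⁻¹ = cf f a⁻¹ := by
    conv_lhs => rw [← he, cf, coeff_cjRep]
    rw [cf]
    group
  change _ = _ * (l (1 * (y * a * y⁻¹) * 1⁻¹) * F 1 (y * a * y⁻¹))
  rw [one_mul, inv_one, mul_one, h2, h2, h7]
  exact congrArg _ (congrArg _ (if_congr (Subgroup.mem_normalizer_iff.1 hy a) rfl rfl))

variable {m : ℕ} {D P : Subgroup G} {c : MonoidAlgebra V G}

theorem lL_nilp (hp : (p : ℂ) ∈ V.nonunits) (h : Rt p m ⊤ D c) (hPD : P ≤ D) (hN : Nilp D c P) :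
    lL p (Cz P) (eP D c P) ≤ 1 := by
  let _ : Fintype (Cz P) := Fintype.ofFinite _
  have h1 : Rt p 1 (Cz P) D c :=
    lind_inert (h.local hp hPD inf_le_right le_top (Cz_le_Nz P)) (by
      rw [one_mul]
      exact Subgroup.card_le_of_le fun g hg => hN ⟨⟨trivial, hg.2⟩, hg.1⟩)
  rw [lind_pull hp h1]
  exact lL_le_one hp _ _ (Nat.lt_succ_self _) _ _ (h1.pull hp)

theorem mu_one_left (hp : (p : ℂ) ∈ V.nonunits) (h : Rt p m ⊤ D c) (hPD : P ≤ D)
    (hN : Nilp D c P) (ha : Adm D c P 1 y) : mu p D c P 1 y = 1 := by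
  have h1 := (h.spec hp (Cz_anti hPD)).1
  have h2 := Nz_le_Nz_Cz P ha.yN
  refine muK_one_left hp h1.idem h1.supp h1.fix h1.ne (lL_nilp hp h hPD hN) h2 ?_
  rw [eP, ← h.bk_conj hp (Cz_anti hPD), cg_eq_iff.2 ha.yT.2.1, cg_eq_iff.2 h2, ha.yT.2.2]

end Pool.Agent.Lib.MP_b6945b_al.Kx
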