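import Pool.Agent.Lib.MP_b6945b_al.Bi.BNon
import Pool.Agent.Lib.MP_b6945b_al.Bi.BBC

set_option autoImplicit false

/-!
A relative trace with a unit coefficient.
-/

namespace Pool.Agent.Lib.MP_b6945b_al.Kx

open St Bi IsLocalRing Finset
open MonoidAlgebra (single)

section group
variable {G : Type} [Group G] {A B : Subgroup G} {g : G}

lemma pu_Cz_sup (A B : Subgroup G) : Cz (A ⊔ B) = Cz A ⊓ Cz B := by
  refine le_antisymm (le_inf (Cz_anti le_sup_left) (Cz_anti le_sup_right)) fun x hx => ?_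
  have h : A ⊔ B ≤ Cu x := sup_le (fun d hd => mem_Cu.2 (mem_Cz.1 hx.1 d hd))
    fun d hd => mem_Cu.2 (mem_Cz.1 hx.2 d hd)
  exact mem_Cz.2 fun d hd => mem_Cu.1 (h hd)

lemma pu_Nz_inf (hA : g ∈ Nz A) (hB : g ∈ Nz B) : g ∈ Nz (A ⊓ B) := by
  rw [← cg_eq_iff] at hA hB ⊢
  rw [cg_inf, hA, hB]

lemma pu_Nz_sup (hA : g ∈ Nz A) (hB : g ∈ Nz B) : g ∈ Nz (A ⊔ B) := by
  rw [← cg_eq_iff] at hA hB ⊢
  rw [cg, Subgroup.map_sup]
  exact congrArg₂ _ hA hB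

lemma pu_mem_Cz (A : Subgroup G) (g : G) : g ∈ Cz (A ⊓ Cu g) :=
  mem_Cz.2 fun _ hd => mem_Cu.1 hd.2

lemma pu_conj_mem (hg : g ∈ Nz A) {a : G} (ha : a ∈ A) : g * a * g⁻¹ ∈ A :=
  (Subgroup.mem_normalizer_iff.1 hg a).1 ha

end group

variable {G : Type} [Group G] [Fintype G] {V : ValuationSubring ℂ} {p : ℕ} [Fact p.Prime]
  {m : ℕ} {D P Q S L K : Subgroup G} {c e f : MonoidAlgebra V G} {x t : G}

lemma pu_rt (hp : (p : ℂ) ∈ V.nonunits) (h : Rt p m ⊤ D c) (hS : S ≤ D) : Rt p m (Cz S) D c :=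
  h.local hp hS inf_le_right le_top (Cz_le_Nz S)

lemma pu_hb (hp : (p : ℂ) ∈ V.nonunits) (h : Rt p m ⊤ D c) (hS : S ≤ D) :
    HB (Cz S) (bk D c (Cz S)) := (h.spec hp (Cz_anti hS)).1

/-- The Frattini argument for pairs. -/
lemma pu_fu (hp : (p : ℂ) ∈ V.nonunits) (h : Rt p m ⊤ D c) (hS : S ≤ D) {s : G} (hs : s ∈ Nz S)
    (he : cjRep V G s (bk D c (Cz S)) = bk D c (Cz S)) : ∃ l ∈ Cz S, l * s ∈ stabT ⊤ D c := by
  obtain ⟨k, hk, n, hn, rfl⟩ := (pu_rt hp h hS).frattini hp (H := ⊤) le_top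
    (n := s) ⟨trivial, Nz_le_Nz_Cz S hs, he⟩
  exact ⟨k⁻¹, (Cz S).inv_mem hk, by rwa [inv_mul_cancel_left]⟩

lemma pu_fix (hp : (p : ℂ) ∈ V.nonunits) (h : Rt p m ⊤ D c) (hS : S ≤ D)
    (hx : x ∈ stabT ⊤ D c) (hxS : x ∈ Nz S) : cjRep V G x (bk D c (Cz S)) = bk D c (Cz S) := by
  have h1 := h.bk_conj hp (Cz_anti hS) x
  rw [cg_eq_iff.2 hx.2.1, hx.2.2, cg_eq_iff.2 (Nz_le_Nz_Cz S hxS)] at h1
  exact h1.symm

omit [Fact p.Prime] in
open Classical in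
lemma pu_sum (hSL : S ≤ L) {w : MonoidAlgebra V G} (hw : Fix S w) (a : G) :
    ∑ l, (if l ∈ L then cf w (l * a * l⁻¹) else 0) =
      Nat.card S * cf (rtr (cjRep V G) S L w) a := by
  have h1 : rtr (cjRep V G) ⊥ L w = Nat.card S • rtr (cjRep V G) S L w := by
    rw [← rtr_trans bot_le hSL (tr_fixedBy_bot _ _), rtr_of_fixed bot_le hw, map_nsmul,
      Subgroup.relIndex_bot_left]
  have h2 : cf (rtr (cjRep V G) ⊥ L w) a = ∑ g : L, cf w ((g : G)⁻¹ * a * g) := by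
    rw [rtr_bot, cf, MonoidAlgebra.coeff_sum, Finset.sum_apply', AddSubmonoidClass.coe_finsetSum]
    exact Finset.sum_congr rfl fun g _ => by rw [coeff_cjRep]; rfl
  have h3 : cf (Nat.card S • rtr (cjRep V G) S L w) a =
      Nat.card S * cf (rtr (cjRep V G) S L w) a := by
    rw [← Nat.cast_smul_eq_nsmul V, bic_cf_smul]
    simp
  rw [← h3, ← h1, h2, bbc_sum_sub L (fun g => cf w (g⁻¹ * a * g)), ← Equiv.sum_comp (Equiv.inv G)]
  refine Finset.sum_congr rfl fun l _ => ?_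
  simp only [Equiv.inv_apply, inv_inv, Subgroup.inv_mem_iff]

omit [Fact p.Prime] in
/-- A coset carrying a central element of the block stabilises the block. -/
lemma pu_stab (hf : HB L f) (ht : t ∈ Nz L) {y : MonoidAlgebra (ResidueField V) G}
    (hy : Supp L (y * single t⁻¹ 1)) (hfix : Fix L y) (h0 : y * toRes V G f ≠ 0) :
    cjRep V G t f = f := by
  have hf' := hf.conj_norm ht
  refine (hf.eq_of_res_mul_ne hf' fun e => h0 ?_).symm
  obtain ⟨u, hu, rfl⟩ : ∃ u, Supp L u ∧ u * single t 1 = y := ⟨_, hy, by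
    rw [mul_assoc, MonoidAlgebra.single_mul_single, inv_mul_cancel, mul_one,
      ← MonoidAlgebra.one_def, mul_one]⟩
  have h1 : u * single t 1 * toRes V G f = toRes V G (cjRep V G t f) * (u * single t 1) := by
    rw [mul_assoc, single_mul_cj, ← toRes_cjB, ← mul_assoc, ← hf'.fix.toRes.comm hu, mul_assoc]
  have h2 := hfix.comm hf.supp.toRes
  calc u * single t 1 * toRes V G f = u * single t 1 * toRes V G (f * f) := by rw [hf.idem]
    _ = toRes V G f * (u * single t 1 * toRes V G f) := by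
      rw [map_mul, ← mul_assoc, ← mul_assoc, ← h2]
    _ = 0 := by rw [h1, ← mul_assoc, e, zero_mul]

omit [Fact p.Prime] in
lemma pu_supp_rtr {R : Type} [CommRing R] {w : MonoidAlgebra R G} (ht : t ∈ Nz L)
    (hw : Supp L (w * single t⁻¹ 1)) : Supp L (rtr (cjRep R G) S L w * single t⁻¹ 1) := by
  rw [tr_apply, Finset.sum_mul]
  refine Supp.sum _ fun q _ => ?_
  split_ifs with hq
  · have h1 := hw.cj q.out
    rw [bmax_cg_self hq, cjRep_mul, frpg_cj_single] at h1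
    have h2 := h1.mul (supp_single (L.mul_mem hq (pu_conj_mem ht (L.inv_mem hq))) (1 : R))
    rwa [mul_assoc, MonoidAlgebra.single_mul_single, one_mul,
      show q.out * t⁻¹ * q.out⁻¹ * (q.out * (t * q.out⁻¹ * t⁻¹)) = q.out * q.out⁻¹ * t⁻¹ by group,
      mul_inv_cancel, one_mul] at h2
  · rw [zero_mul]
    exact supp_zero L

lemma pu_small (hp : (p : ℂ) ∈ V.nonunits) (h : Rt p m ⊤ D c) (hQ : Q ≤ D)
    (hN : stabT ⊤ D c ⊓ Cz Q ≤ Cz D) (hx : x ∈ stabT ⊤ D c) (hxQ : x ∈ Nz Q)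
    (ht : t * x⁻¹ ∈ Cz Q)
    (hu : (rtr (cjRep V G) (Cz Q ⊓ Cu t) (Cz Q) (single t 1 * bk D c (Cz Q))).coeff t ∉
      maximalIdeal V) (hS : IsPGroup p S) (hSC : S ≤ Cz Q ⊓ Cu t) :
    Nat.card S ≤ Nat.card (D ⊓ Cu x : Subgroup G) := by
  have he := pu_hb hp h hQ
  have hSL : S ≤ Cz Q := hSC.trans inf_le_left
  have htS : t ∈ Cz S := mem_Cz.2 fun d hd => mem_Cu.1 (hSC hd).2
  have htQ : t ∈ Nz Q := by
    have := (Nz Q).mul_mem (Cz_le_Nz Q ht) hxQ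
    rwa [inv_mul_cancel_right] at this
  have htL : t ∈ Nz (Cz Q) := Nz_le_Nz_Cz Q htQ
  have hZ : Fix (Cz Q) (rtr (cjRep V G) (Cz Q ⊓ Cu t) (Cz Q) (single t (1 : V))) :=
    rtr_fixed inf_le_left (fix_single (pu_mem_Cz _ t) 1)
  rw [← (mul_rtr_cj he.fix _).2] at hu
  set Z := rtr (cjRep V G) (Cz Q ⊓ Cu t) (Cz Q) (single t (1 : V)) with hZd
  have h0 : bb S (Z * bk D c (Cz Q)) ≠ 0 := bb_ne_zero_iff.2 ⟨t, htS, hu⟩
  obtain ⟨f, hf, h1⟩ := exists_blk_res_ne (Cz Q ⊓ Cz S) h0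
  rw [bb_mul hp hS (hZ.mono hSL) (he.fix.mono hSL), mul_assoc] at h1
  have hl : Le S (bk D c (Cz Q)) f :=
    (le_dich hp hS hSL he.idem he.supp he.fix hf le_rfl inf_le_left
      (inf_le_right.trans (Cz_le_Nz S))).resolve_left fun e => h1 (by rw [e, mul_zero])
  rw [hl] at h1
  have hs1 : Supp (Cz Q) (Z * single t⁻¹ 1) := pu_supp_rtr htL (by
    rw [MonoidAlgebra.single_mul_single, mul_inv_cancel]
    exact supp_single (Cz Q).one_mem _)
  have hft : cjRep V G t f = f := by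
    refine pu_stab hf (pu_Nz_inf htL (Subgroup.le_normalizer htS)) ?_
      ((hZ.mono inf_le_left).bb (inf_le_right.trans (Cz_le_Nz S))) h1
    rw [← toRes_single, ← bb_mul_right (supp_single ((Cz S).inv_mem htS) 1)]
    exact hs1.bb
  obtain ⟨g, hg, h2, h3⟩ := (pu_rt hp h hQ).max_pair hp hS hSL hf hl
  have h4 := h3.cj g⁻¹
  rw [cg_cg, inv_mul_cancel, cg_one, frpg_inv_cj] at h4
  have h5 : cg g⁻¹ S ≤ D := fun y hy => by
    have := mem_cg.1 (h2 (mem_cg.1 hy))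
    rwa [show g⁻¹ * (g⁻¹⁻¹ * y * g⁻¹) * g = y by group] at this
  have h6 := hf.conj g⁻¹
  rw [cg_inf, bmax_cg_self ((Cz Q).inv_mem hg), ← Cz_cg, ← pu_Cz_sup] at h6
  have h7 := h.bk_eq hp (Cz_anti (sup_le hQ h5)) h6 h4
  have h8 : g⁻¹ * t * g ∈ Cz (cg g⁻¹ S) := by
    rw [Cz_cg, mem_cg]
    rwa [show g⁻¹⁻¹ * (g⁻¹ * t * g) * g⁻¹ = t by group]
  obtain ⟨l, hl1, hl2⟩ := pu_fu hp h (sup_le hQ h5) (s := g⁻¹ * t * g)
    (pu_Nz_sup ((Nz Q).mul_mem ((Nz Q).mul_mem (Cz_le_Nz Q ((Cz Q).inv_mem hg)) htQ)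
      (Cz_le_Nz Q hg)) (Cz_le_Nz _ h8)) (by
      rw [h7, frpg_cj_cj, show g⁻¹ * t * g * g⁻¹ = g⁻¹ * t by group, ← frpg_cj_cj, hft])
  rw [pu_Cz_sup] at hl1
  have h9 : l * (g⁻¹ * t * g) * x⁻¹ ∈ Cz D := by
    refine hN ⟨(stabT ⊤ D c).mul_mem hl2 ((stabT ⊤ D c).inv_mem hx), ?_⟩
    rw [show l * (g⁻¹ * t * g) * x⁻¹ = l * g⁻¹ * (t * x⁻¹) * (x * g * x⁻¹) by group]
    exact (Cz Q).mul_mem ((Cz Q).mul_mem ((Cz Q).mul_mem hl1.1 ((Cz Q).inv_mem hg)) ht)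
      (pu_conj_mem (Nz_le_Nz_Cz Q hxQ) hg)
  have h10 : x ∈ Cz (cg g⁻¹ S) := by
    have := (Cz (cg g⁻¹ S)).mul_mem ((Cz (cg g⁻¹ S)).inv_mem (Cz_anti h5 h9))
      ((Cz (cg g⁻¹ S)).mul_mem hl1.2 h8)
    rwa [show (l * (g⁻¹ * t * g) * x⁻¹)⁻¹ * (l * (g⁻¹ * t * g)) = x by group] at this
  rw [← card_cg g⁻¹ S]
  exact Subgroup.card_le_of_le (le_inf h5 fun y hy => mem_Cu.2 (mem_Cz.1 h10 y hy))

open Classical in
omit [Fact p.Prime] in
/-- Some class sum has a unit coefficient. -/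
lemma pu_class (he : Fix L e) (X : G → Prop) [DecidablePred X] (hX : ∀ l ∈ L, ∀ t, X (l * t * l⁻¹) ↔ X t)
    (htr : ∑ t, ∑ l, (if X t ∧ l ∈ L then cf e (t⁻¹ * (l * t * l⁻¹)) else 0) = Nat.card L) :
    ∃ t, X t ∧ (rtr (cjRep V G) (L ⊓ Cu t) L (single t 1 * e)).coeff t ∉ maximalIdeal V := by
  by_contra hn
  push Not at hn
  let J : AddSubgroup ℂ := (maximalIdeal V).toAddSubgroup.map
    ((AddMonoidHom.mulLeft (Nat.card L : ℂ)).comp V.subtype.toAddMonoidHom)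
  have hJ : ∀ z, z ∈ J ↔ ∃ v ∈ maximalIdeal V, (Nat.card L : ℂ) * v = z := fun z => Iff.rfl
  have hm : ∑ t, ∑ l, (if X t ∧ l ∈ L then cf e (t⁻¹ * (l * t * l⁻¹)) else 0) ∈ J := by
    let _ : Fintype (Cj G) := Fintype.ofEquiv _ Cj.equiv.symm
    rw [← Equiv.sum_comp Cj.equiv]
    refine sum_mem_of_orbit (Γ := L) _ ?_ _ ?_
    · rintro ⟨k, hk⟩ ⟨t⟩
      change ∑ l, (if X (k * t * k⁻¹) ∧ l ∈ L then
        cf e ((k * t * k⁻¹)⁻¹ * (l * (k * t * k⁻¹) * l⁻¹)) else 0) =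
        ∑ l, (if X t ∧ l ∈ L then cf e (t⁻¹ * (l * t * l⁻¹)) else 0)
      rw [← Equiv.sum_comp (MulAut.conj k).toEquiv]
      refine Finset.sum_congr rfl fun l _ => ?_
      change (if X (k * t * k⁻¹) ∧ k * l * k⁻¹ ∈ L then cf e ((k * t * k⁻¹)⁻¹ *
        (k * l * k⁻¹ * (k * t * k⁻¹) * (k * l * k⁻¹)⁻¹)) else 0) = _
      rw [← borth_cf_conj he hk (t⁻¹ * (l * t * l⁻¹))]
      refine if_congr (and_congr (hX k hk t) ?_) (congrArg _ ?_) rfl
      · rw [L.mul_mem_cancel_right (L.inv_mem hk), L.mul_mem_cancel_left hk]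
      · group
    · rintro ⟨t⟩
      change _ • ∑ l, (if X t ∧ l ∈ L then cf e (t⁻¹ * (l * t * l⁻¹)) else 0) ∈ J
      by_cases ht : X t
      swap
      · simp [ht]
      have h1 := pu_sum (inf_le_left : L ⊓ Cu t ≤ L) (w := single t 1 * e)
        ((fix_single (pu_mem_Cz _ t) 1).mul (he.mono inf_le_left)) t
      have h2 : ∀ y, cf (single t 1 * e) y = cf e (t⁻¹ * y) := fun y => by
        rw [cf, cf, MonoidAlgebra.coeff_single_mul_apply, one_mul]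
      simp only [h2] at h1
      simp only [ht, true_and]
      rw [h1, nsmul_eq_mul, ← mul_assoc, ← Nat.cast_mul]
      refine (hJ _).2 ⟨_, hn t ht, ?_⟩
      have h3 : MulAction.stabilizer L (⟨t⟩ : Cj G) = (L ⊓ Cu t).subgroupOf L := by
        ext k
        rw [MulAction.mem_stabilizer_iff, Subgroup.mem_subgroupOf]
        refine ⟨fun e => ⟨k.2, mem_Cu.2 ?_⟩, fun e => Cj.ext ?_⟩
        · have h4 : (k : G) * t * (k : G)⁻¹ = t := congrArg Cj.v e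
          rw [mul_inv_eq_iff_eq_mul] at h4
          exact h4.symm
        · change (k : G) * t * (k : G)⁻¹ = t
          rw [← mem_Cu.1 e.2, mul_inv_cancel_right]
      have h4 : Nat.card (MulAction.orbit L (⟨t⟩ : Cj G)) * Nat.card (L ⊓ Cu t : Subgroup G) =
          Nat.card L := by
        rw [← Nat.card_congr (Subgroup.subgroupOfEquivOfLe (inf_le_left : L ⊓ Cu t ≤ L)).toEquiv,
          ← h3, Nat.card_coe_set_eq, ← MulAction.index_stabilizer, Subgroup.index_mul_card]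
      rw [h4]
      rfl
  rw [htr] at hm
  obtain ⟨v, hv, e1⟩ := (hJ _).1 hm
  have h5 : (v : ℂ) = 1 := mul_left_cancel₀ (Nat.cast_ne_zero.2 (Nat.card_pos (α := L)).ne')
    (e1.trans (mul_one _).symm)
  have h6 : v = 1 := Subtype.ext h5
  exact (maximalIdeal.isMaximal V).ne_top ((Ideal.eq_top_iff_one _).2 (h6 ▸ hv))

/-- The trace from `C_D(x)` has a unit coefficient. -/
lemma pu_unit (hp : (p : ℂ) ∈ V.nonunits) (h : Rt p m ⊤ D c) (hQ : Q ≤ D)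
    (hN : stabT ⊤ D c ⊓ Cz Q ≤ Cz D) (hx : x ∈ stabT ⊤ D c) (hxQ : x ∈ Nz Q)
    (ht : t * x⁻¹ ∈ Cz Q) (hR : D ⊓ Cu x ≤ Q)
    (hu : (rtr (cjRep V G) (Cz Q ⊓ Cu t) (Cz Q) (single t 1 * bk D c (Cz Q))).coeff t ∉
      maximalIdeal V) :
    toRes V G (rtr (cjRep V G) (D ⊓ Cu x) (Cz Q) (single t 1 * bk D c (Cz Q))) ≠ 0 := by
  have hRC : D ⊓ Cu x ≤ Cz Q ⊓ Cu t := fun d hd => by
    refine ⟨Cz_anti hQ (h.le_Cz hd.1), mem_Cu.2 ?_⟩
    have h1 := mem_Cz.1 ht d (hR hd)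
    have h2 := mem_Cu.1 hd.2
    calc t * d = t * x⁻¹ * (x * d) := by group
      _ = t * x⁻¹ * d * x := by rw [h2]; group
      _ = d * t := by rw [h1]; group
  have hRp : IsPGroup p (D ⊓ Cu x : Subgroup G) := h.pD.to_le inf_le_left
  obtain ⟨U, hU⟩ := (hRp.comap_subtype (K := Cz Q ⊓ Cu t)).exists_le_sylow
  have h1 := pu_small hp h hQ hN hx hxQ ht hu (U.isPGroup'.map (Cz Q ⊓ Cu t).subtype)
    (Subgroup.map_subtype_le _)
  rw [Subgroup.card_map_of_injective (Subgroup.subtype_injective _),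
    ← Nat.card_congr (Subgroup.subgroupOfEquivOfLe hRC).toEquiv] at h1
  have h2 : (D ⊓ Cu x).subgroupOf (Cz Q ⊓ Cu t) = U := Subgroup.eq_of_le_of_card_ge hU h1
  have h3 : ¬ p ∣ (D ⊓ Cu x).relIndex (Cz Q ⊓ Cu t) := by
    rw [Subgroup.relIndex, h2]
    exact U.not_dvd_index
  have hw : Fix (Cz Q ⊓ Cu t) (single t 1 * bk D c (Cz Q)) :=
    (fix_single (pu_mem_Cz _ t) 1).mul ((pu_hb hp h hQ).fix.mono inf_le_left)
  rw [← rtr_trans hRC inf_le_left (hw.mono hRC), rtr_of_fixed hRC hw, map_nsmul, map_nsmul,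
    ← Nat.cast_smul_eq_nsmul (ResidueField V)]
  have := bvan_charP hp
  refine smul_ne_zero (fun e => h3 ((CharP.cast_eq_zero_iff _ p _).1 e)) fun e => hu ?_
  have h4 := congrArg (fun a => a.coeff t) e
  simp only [coeff_toRes] at h4
  exact (residue_eq_zero_iff _).1 h4

/-- The trace to `C(P)` is not killed by the block. -/
lemma pu_ne (hp : (p : ℂ) ∈ V.nonunits) (h : Rt p m ⊤ D c) (hP : P ≤ D) (hS : S ≤ D)
    (hN : stabT ⊤ D c ⊓ Cz P ≤ Cz D) (htS : t ∈ Cz S)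
    (hu : toRes V G (rtr (cjRep V G) S (Cz (P ⊔ S)) (single t 1 * bk D c (Cz (P ⊔ S)))) ≠ 0) :
    rtr (cjRep V G) S (Cz P) (single t 1 * bk D c (Cz (P ⊔ S))) * bk D c (Cz P) ≠ 0 := by
  classical
  intro e0
  have hQ : P ⊔ S ≤ D := sup_le hP hS
  have he := pu_hb hp h hP
  have he' := pu_hb hp h hQ
  have hSp : IsPGroup p S := h.pD.to_le hS
  have hSK : S ≤ Cz P := hS.trans (h.le_Cz.trans (Cz_anti hP))
  have hSL : S ≤ Cz (P ⊔ S) := hS.trans (h.le_Cz.trans (Cz_anti hQ))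
  have hLS : Cz (P ⊔ S) ≤ Cz S := Cz_anti le_sup_right
  have hw : Fix S (single t 1 * bk D c (Cz (P ⊔ S))) := (fix_single htS 1).mul (he'.fix.mono hSL)
  have hws : Supp (Cz S) (single t 1 * bk D c (Cz (P ⊔ S))) :=
    (supp_single htS 1).mul (he'.supp.mono hLS)
  have hl : Le S (bk D c (Cz P)) (bk D c (Cz (P ⊔ S))) := h.below hp hS (Cz_anti hP)
    (pu_Cz_sup P S).ge (Cz_anti le_sup_left) (hLS.trans (Cz_le_Nz S))
  have h1 := bb_mul hp hSp ((show Fix (Cz P) _ from rtr_fixed hSK hw).mono hSK) (he.fix.mono hSK)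
  rw [e0, bb_zero] at h1
  have h2 := congrArg (· * toRes V G (bk D c (Cz (P ⊔ S)))) h1
  simp only [zero_mul, mul_assoc] at h2
  rw [hl, bb, bnon_toRes_rtr, brT_rtr_fixed (bil_pk hp) hSK hSp hSK hw.toRes, Finset.sum_mul] at h2
  apply hu
  rw [bnon_toRes_rtr, tr_apply]
  refine Eq.trans (Finset.sum_congr rfl fun q _ => ?_) h2.symm
  generalize q.out = n
  by_cases hn : n ∈ Cz (P ⊔ S)
  · have h3 := (hws.cj n).toRes
    rw [bmax_cg_self (hLS hn)] at h3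
    rw [if_pos hn, if_pos ⟨Cz_anti le_sup_left hn, fun d hd => by
      rwa [mul_assoc, ← mem_Cz.1 (hLS hn) d hd, inv_mul_cancel_left]⟩, ← toRes_cjB, brT_eq_trc,
      trc_of_supp h3, ← map_mul, cjRep_mul, he'.fix n hn, mul_assoc, he'.idem]
  · rw [if_neg hn]
    split_ifs with hc
    swap
    · rw [zero_mul]
    have hnS : n ∈ Nz S := (Nz S).inv_mem_iff.1
      (Subgroup.mem_normalizer_fintype fun d hd => by simpa using hc.2 d hd)
    have hnQ : n ∈ Nz (P ⊔ S) := pu_Nz_sup (Cz_le_Nz P hc.1) hnS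
    have h3 := (hws.cj n).toRes
    rw [cg_eq_iff.2 (Nz_le_Nz_Cz S hnS)] at h3
    have h4 : cjRep V G n (bk D c (Cz (P ⊔ S))) ≠ bk D c (Cz (P ⊔ S)) := fun e => by
      obtain ⟨l, hl1, hl2⟩ := pu_fu hp h hQ hnQ e
      have h5 := Cz_anti hQ (hN ⟨hl2, (Cz P).mul_mem (Cz_anti le_sup_left hl1) hc.1⟩)
      exact hn (((Cz (P ⊔ S)).mul_mem_cancel_left hl1).1 h5)
    rw [← toRes_cjB, brT_eq_trc, trc_of_supp h3, ← map_mul, cjRep_mul, mul_assoc,
      (he'.conj_norm (Nz_le_Nz_Cz _ hnQ)).orth he' h4, mul_zero, map_zero]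

/-- The elements stabilising `e` which conjugate `a` like an element of `K`. -/
def puU (K : Subgroup G) (e : MonoidAlgebra V G) (a : G) : Subgroup G where
  carrier := {h | h ∈ stabT ⊤ K e ∧ ∃ k ∈ K, h * a * h⁻¹ = k * a * k⁻¹}
  one_mem' := ⟨Subgroup.one_mem _, 1, K.one_mem, rfl⟩
  mul_mem' := fun {h h'} ⟨h1, k, hk, e1⟩ ⟨h2, k', hk', e2⟩ => ⟨Subgroup.mul_mem _ h1 h2,
    h * k' * h⁻¹ * k, K.mul_mem (pu_conj_mem h1.2.1 hk') hk, by
      calc h * h' * a * (h * h')⁻¹ = h * (h' * a * h'⁻¹) * h⁻¹ := by group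
        _ = h * k' * h⁻¹ * (h * a * h⁻¹) * (h * k' * h⁻¹)⁻¹ := by rw [e2]; group
        _ = _ := by rw [e1]; group⟩
  inv_mem' := fun {h} ⟨h1, k, hk, e1⟩ => ⟨Subgroup.inv_mem _ h1, h⁻¹ * k⁻¹ * h⁻¹⁻¹,
    pu_conj_mem (Subgroup.inv_mem _ h1.2.1) (K.inv_mem hk), by
      calc h⁻¹ * a * h⁻¹⁻¹ = h⁻¹ * k⁻¹ * (k * a * k⁻¹) * k * h := by group
        _ = _ := by rw [← e1]; group⟩

omit [Fintype G] [Fact p.Prime] in
lemma le_puU (he : Fix K e) (a : G) : K ≤ puU K e a := fun k hk =>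
  ⟨⟨trivial, Subgroup.le_normalizer hk, he k hk⟩, k, hk, rfl⟩

omit [Fintype G] [Fact p.Prime] in
lemma mem_puU (he : Fix K e) {a g : G} (ha : a ∈ stabT ⊤ K e) (hg : g * a⁻¹ ∈ K) :
    g ∈ puU K e a := by
  have h1 : a ∈ puU K e a := ⟨ha, 1, K.one_mem, by group⟩
  have h2 := (puU K e a).mul_mem (le_puU he a hg) h1
  rwa [inv_mul_cancel_right] at h2

omit [Fact p.Prime] in
open Classical in
lemma pu_shift (F : G → ℂ) {a u : G} (hu : u ∈ puU K e a) :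
    ∑ k, (if k ∈ K then F (k * (u * a * u⁻¹) * k⁻¹) else 0) =
      ∑ k, (if k ∈ K then F (k * a * k⁻¹) else 0) := by
  obtain ⟨-, k₀, hk, e1⟩ := hu
  rw [e1, ← Equiv.sum_comp (Equiv.mulRight k₀) fun k => if k ∈ K then F (k * a * k⁻¹) else 0]
  refine Finset.sum_congr rfl fun k _ => ?_
  simp only [Equiv.coe_mulRight, K.mul_mem_cancel_right hk, mul_inv_rev, mul_assoc]

open Classical in
/-- Orthogonality along a coset. -/
lemma pu_orth (hp : (p : ℂ) ∈ V.nonunits) (he : HB K e) {a v : G} (ha : a ∈ stabT ⊤ K e)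
    (hv : v * a ∈ K) (h1 : ¬ p ∣ orderOf v) (h2 : p ∣ orderOf a) :
    ∑ k, (if k ∈ K then cf e (v * (k * a * k⁻¹)) else 0) = 0 := by
  have haU : a ∈ puU K e a := mem_puU he.fix ha (by rw [mul_inv_cancel]; exact K.one_mem)
  have hvU : v ∈ puU K e a :=
    ((puU K e a).mul_mem_cancel_right haU).1 (le_puU he.fix a hv)
  have h3 := orth_rel hp he.idem (he.supp.mono (le_puU he.fix a)) (fun u hu => hu.1.2.2)
    hvU haU h1 h2
  refine borth_avg (H := puU K e a)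
    (F := fun u => ∑ k, if k ∈ K then cf e (v * (k * (u * a * u⁻¹) * k⁻¹)) else 0)
    (fun u hu => pu_shift (fun y => cf e (v * y)) hu) ?_
  have h4 : ∀ u, (if u ∈ puU K e a then
      ∑ k, (if k ∈ K then cf e (v * (k * (u * a * u⁻¹) * k⁻¹)) else 0) else 0) =
      ∑ k, if k ∈ K then (if u ∈ puU K e a then
        cf e (v * (k * (u * a * u⁻¹) * k⁻¹)) else 0) else 0 := fun u => by
    split_ifs <;> simp
  simp only [h4]
  rw [Finset.sum_comm]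
  refine Finset.sum_eq_zero fun k _ => ?_
  by_cases hk : k ∈ K
  · simp only [hk, if_true]
    refine Eq.trans ?_ h3
    rw [← Equiv.sum_comp (Equiv.mulLeft k)
      fun u => if u ∈ puU K e a then cf e (v * (u * a * u⁻¹)) else 0]
    refine Finset.sum_congr rfl fun u _ => ?_
    simp only [Equiv.coe_mulLeft, (puU K e a).mul_mem_cancel_left (le_puU he.fix a hk),
      mul_inv_rev, mul_assoc]
  · simp [hk]

open Classical in
/-- Orthogonality along a coset, both cases. -/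
lemma pu_orth' (hp : (p : ℂ) ∈ V.nonunits) (he : HB K e) {a g : G} (ha : a ∈ stabT ⊤ K e)
    (hg : g * a⁻¹ ∈ K) (h1 : ¬ (p ∣ orderOf g ↔ p ∣ orderOf a)) :
    ∑ k, (if k ∈ K then cf e (g⁻¹ * (k * a * k⁻¹)) else 0) = 0 := by
  have hgU := (mem_puU he.fix ha hg).1
  have h2 : g⁻¹ * a ∈ K := by
    have := pu_conj_mem ((Nz K).inv_mem ha.2.1) (K.inv_mem hg)
    rwa [show a⁻¹ * (g * a⁻¹)⁻¹ * a⁻¹⁻¹ = g⁻¹ * a by group] at this
  by_cases h3 : p ∣ orderOf a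
  · exact pu_orth hp he ha h2 (by rw [orderOf_inv]; tauto) h3
  · have h4 := pu_orth hp he (v := a) (Subgroup.inv_mem _ hgU)
      (by simpa using K.inv_mem hg) h3 (by rw [orderOf_inv]; tauto)
    refine Eq.trans ?_ h4
    rw [← Equiv.sum_comp (Equiv.inv G) fun k => if k ∈ K then cf e (a * (k * g⁻¹ * k⁻¹)) else 0]
    refine Finset.sum_congr rfl fun k _ => ?_
    simp only [Equiv.inv_apply, inv_inv, Subgroup.inv_mem_iff]
    split_ifs with hk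
    · have h5 : Fix (puU K e a) e := fun u hu => hu.1.2.2
      rw [← borth_cf_conj h5 (h := a * k⁻¹)
        (mem_puU he.fix ha (pu_conj_mem ha.2.1 (K.inv_mem hk)))]
      congr 1
      group
    · rfl

open Classical in
/-- Restriction to the centraliser of `C_D(x)` followed by projection does not vanish. -/
theorem rho_ne (hp : (p : ℂ) ∈ V.nonunits) (h : Rt p m ⊤ D c) (hP : P ≤ D)
    (hN : stabT ⊤ D c ⊓ Cz P ≤ Cz D) (hx : x ∈ stabT ⊤ D c) (hxP : x ∈ Nz P)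
    (hL : L = Cz (P ⊔ (D ⊓ Cu x))) (hK : K = Cz P)
    (htr : ∑ t, ∑ l, (if (t * x⁻¹ ∈ L ∧ ¬ p ∣ orderOf t) ∧ l ∈ L then
      cf (bk D c L) (t⁻¹ * (l * t * l⁻¹)) else 0) = Nat.card L) :
    ∃ t a, (t * x⁻¹ ∈ L ∧ ¬ p ∣ orderOf t) ∧ (a * x⁻¹ ∈ K ∧ ¬ p ∣ orderOf a) ∧
      ∑ g, (if ¬ p ∣ orderOf g then cf (bk D c L) (t⁻¹ * g) *
        ∑ k, (if k ∈ K then cf (bk D c K) (g⁻¹ * (k * a * k⁻¹)) else 0) else 0) ≠ 0 := by
  have hQ : P ⊔ (D ⊓ Cu x) ≤ D := sup_le hP inf_le_left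
  have hxQ : x ∈ Nz (P ⊔ (D ⊓ Cu x)) := pu_Nz_sup hxP (Cz_le_Nz _ (pu_mem_Cz D x))
  have he : HB K (bk D c K) := hK ▸ pu_hb hp h hP
  have he' : HB L (bk D c L) := hL ▸ pu_hb hp h hQ
  have hLK : L ≤ K := hL ▸ hK ▸ Cz_anti le_sup_left
  have hxK : x ∈ stabT ⊤ K (bk D c K) :=
    hK ▸ ⟨trivial, Nz_le_Nz_Cz P hxP, pu_fix hp h hP hx hxP⟩
  have hxL : x ∈ stabT ⊤ L (bk D c L) :=
    hL ▸ ⟨trivial, Nz_le_Nz_Cz _ hxQ, pu_fix hp h hQ hx hxQ⟩
  obtain ⟨t, ht, hu⟩ := pu_class he'.fix (fun t => t * x⁻¹ ∈ L ∧ ¬ p ∣ orderOf t)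
    (fun l hl t => by
      rw [borth_ord, show l * t * l⁻¹ * x⁻¹ = l * (t * x⁻¹) * (x * l⁻¹ * x⁻¹) by group,
        L.mul_mem_cancel_right (pu_conj_mem hxL.2.1 (L.inv_mem hl)), L.mul_mem_cancel_left hl])
    htr
  have htS : t ∈ Cz (D ⊓ Cu x) := by
    have := (Cz (D ⊓ Cu x)).mul_mem (Cz_anti le_sup_right (hL ▸ ht.1)) (pu_mem_Cz D x)
    rwa [inv_mul_cancel_right] at this
  have hz : rtr (cjRep V G) (D ⊓ Cu x) K (single t 1 * bk D c L) * bk D c K ≠ 0 := by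
    subst hL hK
    exact pu_ne hp h hP inf_le_left hN htS (pu_unit hp h hQ
      ((inf_le_inf_left _ (Cz_anti le_sup_left)).trans hN) hx hxQ ht.1 le_sup_right hu)
  rw [(mul_rtr_cj he.fix _).2] at hz
  obtain ⟨a, ha⟩ : ∃ a, cf (rtr (cjRep V G) (D ⊓ Cu x) K
      (single t 1 * bk D c L * bk D c K)) a ≠ 0 := by
    by_contra hn
    push Not at hn
    exact hz (cf_injective (funext fun a => (hn a).trans (by simp [cf])))
  have hRL : D ⊓ Cu x ≤ L := hL ▸ inf_le_left.trans (h.le_Cz.trans (Cz_anti hQ))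
  have h1 := pu_sum (hRL.trans hLK) (((fix_single htS 1).mul (he'.fix.mono hRL)).mul
    (he.fix.mono (hRL.trans hLK))) a
  set κ : G → ℂ := fun g => ∑ k, (if k ∈ K then cf (bk D c K) (g⁻¹ * (k * a * k⁻¹)) else 0)
    with hκ
  have h2 : ∑ g, cf (bk D c L) (t⁻¹ * g) * κ g ≠ 0 := by
    refine fun e => mul_ne_zero (Nat.cast_ne_zero.2 (Nat.card_pos
      (α := (D ⊓ Cu x : Subgroup G))).ne') ha ?_
    rw [← h1]
    refine Eq.trans ?_ e
    simp only [hκ, Finset.mul_sum]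
    rw [Finset.sum_comm]
    refine Finset.sum_congr rfl fun k _ => ?_
    split_ifs
    · rw [cf_mul, conv]
      refine Finset.sum_congr rfl fun g _ => ?_
      rw [cf, MonoidAlgebra.coeff_single_mul_apply, one_mul]
      rfl
    · simp
  have hgx : ∀ g, cf (bk D c L) (t⁻¹ * g) ≠ 0 → g * x⁻¹ ∈ L := fun g hg => by
    have h3 : t⁻¹ * g ∈ L := by
      by_contra e
      exact hg (borth_cf_zero he'.supp e)
    rw [show g * x⁻¹ = t * x⁻¹ * (x * (t⁻¹ * g) * x⁻¹) by group]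
    exact L.mul_mem ht.1 (pu_conj_mem hxL.2.1 h3)
  have hax : a * x⁻¹ ∈ K := by
    obtain ⟨g, -, hg⟩ := Finset.exists_ne_zero_of_sum_ne_zero h2
    obtain ⟨k, -, hk⟩ := Finset.exists_ne_zero_of_sum_ne_zero (right_ne_zero_of_mul hg)
    have hkK : k ∈ K := by
      by_contra e
      exact hk (if_neg e)
    rw [if_pos hkK] at hk
    have h3 : g⁻¹ * (k * a * k⁻¹) ∈ K := by
      by_contra e
      exact hk (borth_cf_zero he.supp e)
    rw [show a * x⁻¹ = k⁻¹ * (g * x⁻¹) * (x * (g⁻¹ * (k * a * k⁻¹) * k) * x⁻¹) by group]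
    exact K.mul_mem (K.mul_mem (K.inv_mem hkK) (hLK (hgx g (left_ne_zero_of_mul hg))))
      (pu_conj_mem hxK.2.1 (K.mul_mem h3 hkK))
  have haK : a ∈ stabT ⊤ K (bk D c K) := (mem_puU he.fix hxK hax).1
  have hga : ∀ g, g * x⁻¹ ∈ L → g * a⁻¹ ∈ K := fun g hg => by
    have := K.mul_mem (hLK hg) (K.inv_mem hax)
    rwa [show g * x⁻¹ * (a * x⁻¹)⁻¹ = g * a⁻¹ by group] at this
  have har : ¬ p ∣ orderOf a := fun has => by
    apply h2
    have hU : Fix (puU K (bk D c K) a) (bk D c K) := fun u hu => hu.1.2.2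
    have h3 := orth_reg hp (H := puU K (bk D c K) a ⊓ stabT ⊤ L (bk D c L)) (z := κ) he'.idem
      (he'.supp.mono (le_inf (hLK.trans (le_puU he.fix a)) fun l hl =>
        ⟨trivial, Subgroup.le_normalizer hl, he'.fix l hl⟩)) (fun u hu => hu.2.2.2)
      (fun u hu g _ => by
        have h4 := pu_shift (fun y => cf (bk D c K) (g⁻¹ * y)) (Subgroup.inv_mem _ hu.1)
        simp only [hκ]
        rw [← h4, ← Equiv.sum_comp (MulAut.conj u).toEquiv]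
        refine Finset.sum_congr rfl fun k _ => ?_
        change (if u * k * u⁻¹ ∈ K then cf (bk D c K) ((u * g * u⁻¹)⁻¹ *
          (u * k * u⁻¹ * a * (u * k * u⁻¹)⁻¹)) else 0) = _
        rw [← Subgroup.mem_normalizer_iff.1 hu.1.1.2.1 k,
          ← borth_cf_conj hU hu.1 (g⁻¹ * (k * (u⁻¹ * a * u⁻¹⁻¹) * k⁻¹))]
        refine if_congr Iff.rfl (congrArg _ ?_) rfl
        group)
      (s := t) ⟨mem_puU he.fix haK (hga t ht.1), (mem_puU he'.fix hxL ht.1).1⟩ ht.2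
    rw [ev_single_mul', ev_single_mul'] at h3
    rw [← h3]
    refine Finset.sum_eq_zero fun g _ => ?_
    by_cases h5 : cf (bk D c L) (t⁻¹ * g) = 0
    · rw [h5, zero_mul]
    by_cases h6 : p ∣ orderOf g
    · rw [Reg_apply_sing _ h6, mul_zero]
    · rw [Reg_apply_reg _ h6, show κ g = 0 from pu_orth' hp he haK (hga g (hgx g h5)) (by tauto),
        mul_zero]
  refine ⟨t, a, ht, ⟨hax, har⟩, fun e => h2 (e ▸ Finset.sum_congr rfl fun g _ => ?_)⟩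
  split_ifs with h6
  · by_cases h5 : cf (bk D c L) (t⁻¹ * g) = 0
    · rw [h5, zero_mul]
    · rw [show κ g = 0 from pu_orth' hp he haK (hga g (hgx g h5)) (by tauto), mul_zero]
  · rfl

end Pool.Agent.Lib.MP_b6945b_al.Kx
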