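import Pool.Agent.Lib.MP_b6945b_al.Kx.PKap
import Pool.Agent.Lib.MP_b6945b_al.Kx.PUnit

set_option autoImplicit false

/-!
The trace does not change on passing to the centraliser of the fixed points.
-/

namespace Pool.Agent.Lib.MP_b6945b_al.Kx

open St Bi Finset
open MonoidAlgebra (single)
open scoped Classical

variable {G : Type} [Group G] [Fintype G] {V : ValuationSubring ℂ} {p : ℕ} [Fact p.Prime]
  {K L : Subgroup G} {ε f : MonoidAlgebra V G} {x y : G}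

theorem muK_restrict (hp : (p : ℂ) ∈ V.nonunits) (hLK : L ≤ K) (hK : CI K ε x) (hL : CI L f x)
    (hyK : CI K ε y) (hyL : CI L f y) (hc : y * x * y⁻¹ * x⁻¹ ∈ L) (h1 : muK p K ε x 1 = 1)
    (h2 : muK p L f x 1 = 1) {t a : G} (ht : t * x⁻¹ ∈ L ∧ ¬ p ∣ orderOf t)
    (ha : a * x⁻¹ ∈ K ∧ ¬ p ∣ orderOf a)
    (h0 : ∑ g, ∑ k, (if ¬ p ∣ orderOf g ∧ k ∈ K then
      cf f (t⁻¹ * g) * cf ε (g⁻¹ * (k * a * k⁻¹)) else 0) ≠ 0) :
    muK p K ε x y = muK p L f x y := by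
  let ρ : Matrix G G ℂ := Matrix.of fun s g =>
    if s * x⁻¹ ∈ L ∧ ¬ p ∣ orderOf s then cf f (s⁻¹ * g) else 0
  have r1 : cjM y * ρ = ρ * cjM y := by
    ext g b
    obtain ⟨g, rfl⟩ := (MulAut.conj y).surjective g
    rw [cjM_mul, mul_cjM, MulAut.conj_apply, show y⁻¹ * (y * g * y⁻¹) * y = g by group]
    refine if_congr (by simp only [coset_conj' hyL.nz hc, borth_ord]) ?_ rfl
    conv_rhs => rw [← hyL.cj, cf, coeff_cjRep]
    rw [cf]
    congr 2
    group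
  have r2 : ∀ s b, (ρ * kap p K ε x) s b = if s * x⁻¹ ∈ L ∧ ¬ p ∣ orderOf s then
      ev (fun g => kap p K ε x g b) (single s 1 * f) else 0 := fun s b => by
    rw [Matrix.mul_apply, ev_single_mul']
    simp only [ρ, Matrix.of_apply]
    split_ifs
    · rfl
    · simp
  have r3 : kap p L f x * (ρ * kap p K ε x) = ρ * kap p K ε x := by
    ext s b
    have i1 : KInv L fun g => kap p K ε x g b := fun l hl g =>
      if_congr (by simp only [coset_conj hK.nz (hLK hl), borth_ord])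
        (congrArg _ (av_left hK.fix b l (hLK hl) g)) rfl
    rw [Matrix.mul_apply]
    simp only [r2]
    generalize (fun g => kap p K ε x g b) = Φ at i1
    have i2 : KInv L fun g => ev Φ (single g 1 * f) := fun l hl g => by
      beta_reduce
      rw [← i1.ev_cj hl (single g 1 * f), cjRep_mul, hL.fix l hl, frpg_cj_single]
    have i3 : KInv L fun g => if g * x⁻¹ ∈ L ∧ ¬ p ∣ orderOf g then ev Φ (single g 1 * f) else 0 :=
      fun l hl g => if_congr (by simp only [coset_conj hL.nz hl, borth_ord]) (i2 l hl g) rfl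
    simp only [kap, Matrix.of_apply]
    by_cases hs : s * x⁻¹ ∈ L ∧ ¬ p ∣ orderOf s
    swap
    · simp [hs]
    have i4 := av_sum i3 f s
    have i5 := ev_reg hp hL i2 hs.1 hs.2
    rw [ev_ev, mul_assoc, hL.idem] at i5
    rw [ev_single_mul'] at i4
    simp only [mul_ite, mul_zero] at i4
    rw [if_pos hs, i5, (eq_inv_mul_iff_mul_eq₀ (cardK_ne L)).2 i4.symm, Finset.mul_sum]
    refine Finset.sum_congr rfl fun g _ => ?_
    by_cases hg : g * x⁻¹ ∈ L ∧ ¬ p ∣ orderOf g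
    · rw [if_pos ⟨hs, hg⟩, if_pos hg, if_pos hg, mul_assoc]
    · simp [hg]
  have r4 : (ρ * kap p K ε x) t a ≠ 0 := by
    intro e
    refine h0 (Eq.trans ?_ (mul_eq_zero_of_right (Nat.card K : ℂ) e))
    rw [Matrix.mul_apply, Finset.mul_sum]
    refine Finset.sum_congr rfl fun g _ => ?_
    simp only [ρ, kap, Matrix.of_apply, if_pos ht]
    by_cases hr : p ∣ orderOf g
    · simp [hr]
    have e1 : ∑ k, (if ¬ p ∣ orderOf g ∧ k ∈ K then
        cf f (t⁻¹ * g) * cf ε (g⁻¹ * (k * a * k⁻¹)) else 0) = cf f (t⁻¹ * g) * av K ε g a := by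
      simp only [av, Finset.mul_sum, hr, not_false_eq_true, true_and, mul_ite, mul_zero]
    rw [e1]
    by_cases hg : g * x⁻¹ ∈ K
    · rw [if_pos ⟨⟨hg, hr⟩, ha⟩, mul_left_comm, mul_inv_cancel_left₀ (cardK_ne K)]
    · rw [av_supp hK.supp hK.nz fun e' => hg (e'.2 ha.1)]
      simp
  have c1 := kap_comm (p := p) hyK.nz (hLK hc) hyK.cj
  have c2 := kap_comm (p := p) hyL.nz hc hyL.cj
  have a1 := rank_one_mul (kap_idem hp hK) (trace_kap_one.trans h1) c1
  have a2 := rank_one_mul (kap_idem hp hL) (trace_kap_one.trans h2) c2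
  rw [trace_kap hyK.nz (hLK hc)] at a1
  rw [trace_kap hyL.nz hc] at a2
  have e1 : cjM y * (ρ * kap p K ε x) = muK p K ε x y • (ρ * kap p K ε x) := by
    rw [← Matrix.mul_assoc, r1, Matrix.mul_assoc, c1, a1, Matrix.mul_smul]
  have e2 : cjM y * (ρ * kap p K ε x) = muK p L f x y • (ρ * kap p K ε x) := by
    rw [← r3, ← Matrix.mul_assoc, c2, a2, Matrix.smul_mul]
  exact mul_right_cancel₀ r4 (congrFun (congrFun (e1.symm.trans e2) t) a)

variable {m : ℕ} {D P : Subgroup G} {c : MonoidAlgebra V G}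

omit [Fintype G] [Fact p.Prime] in
lemma nz_sup {A B : Subgroup G} (hA : y ∈ Nz A) (hB : y ∈ Nz B) : y ∈ Nz (A ⊔ B) := by
  rw [← cg_eq_iff] at *
  rw [cg, Subgroup.map_sup]
  exact congrArg₂ _ hA hB

omit [Fintype G] [Fact p.Prime] in
lemma nz_fixed (hy : y ∈ Nz D) (hc : y * x * y⁻¹ * x⁻¹ ∈ Cz D) : y ∈ Nz (D ⊓ Cu x) := by
  refine Subgroup.mem_normalizer_iff.2 fun d => ?_
  rw [Subgroup.mem_inf, Subgroup.mem_inf, nz_iff hy]
  refine and_congr_right fun hd => ?_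
  have h1 := mem_Cz.1 hc _ ((nz_iff (K := D) hy d).2 hd)
  rw [mem_Cu, mem_Cu]
  constructor
  · intro e
    have h2 : y * x * y⁻¹ * (y * d * y⁻¹) = y * d * y⁻¹ * (y * x * y⁻¹) := by
      rw [show y * x * y⁻¹ * (y * d * y⁻¹) = y * (x * d) * y⁻¹ by group, e]
      group
    refine mul_left_cancel (a := y * x * y⁻¹ * x⁻¹) ?_
    rw [← mul_assoc _ (y * d * y⁻¹) x, h1, ← mul_assoc, inv_mul_cancel_right, h2, mul_assoc _ _ x,
      inv_mul_cancel_right]
  · intro e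
    have h2 : y * x * y⁻¹ * (y * d * y⁻¹) = y * d * y⁻¹ * (y * x * y⁻¹) := by
      calc y * x * y⁻¹ * (y * d * y⁻¹) = y * x * y⁻¹ * x⁻¹ * (x * (y * d * y⁻¹)) := by group
        _ = y * x * y⁻¹ * x⁻¹ * (y * d * y⁻¹) * x := by rw [e, ← mul_assoc]
        _ = _ := by rw [h1]; group
    refine (MulAut.conj y).injective ?_
    simpa only [map_mul, MulAut.conj_apply] using h2

omit [Fintype G] [Fact p.Prime] in
lemma Adm.sup_fixed (ha : Adm D c P x y) : Adm D c (P ⊔ (D ⊓ Cu x)) x y :=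
  ⟨ha.xT, ha.yT, nz_sup ha.xN (nz_fixed ha.xT.2.1 (by simp)),
    nz_sup ha.yN (nz_fixed ha.yT.2.1 ha.com), ha.com⟩

theorem mu_restrict (hp : (p : ℂ) ∈ V.nonunits) (h : Rt p m ⊤ D c) (hPD : P ≤ D)
    (hN : Nilp D c P) (ha : Adm D c P x y) (h1 : mu p D c P x 1 = 1)
    (h2 : mu p D c (P ⊔ (D ⊓ Cu x)) x 1 = 1) :
    mu p D c P x y = mu p D c (P ⊔ (D ⊓ Cu x)) x y := by
  have hb := ha.sup_fixed
  have hR : P ⊔ (D ⊓ Cu x) ≤ D := sup_le hPD inf_le_left
  obtain ⟨t, a, ⟨t1, t2⟩, ⟨a1, a2⟩, h0⟩ := rho_ne hp h hPD hN ha.xT ha.xN rfl rfl (by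
    rw [← mul_one (Nat.card _ : ℂ), ← h2, mu, muK, Finset.mul_sum]
    refine Finset.sum_congr rfl fun t _ => ?_
    by_cases ht : t * x⁻¹ ∈ Cz (P ⊔ (D ⊓ Cu x)) ∧ ¬ p ∣ orderOf t
    · rw [if_pos ht, mul_inv_cancel_left₀ (cardK_ne _), av, inv_one, mul_one, one_mul]
      exact Finset.sum_congr rfl fun l _ => if_congr (by simp only [ht, not_false_eq_true,
        true_and]) rfl rfl
    · rw [if_neg ht, mul_zero]
      exact Finset.sum_eq_zero fun l _ => if_neg fun e => ht e.1)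
  exact muK_restrict hp (Cz_anti le_sup_left) (Adm.ci hp h hPD ha.xT ha.xN)
    (Adm.ci hp h hR hb.xT hb.xN) (Adm.ci hp h hPD ha.yT ha.yN) (Adm.ci hp h hR hb.yT hb.yN)
    (Cz_anti hR ha.com) h1 h2 ⟨t1, t2⟩ ⟨a1, a2⟩ (fun e => h0 (Eq.trans
      (Finset.sum_congr rfl fun g _ => by
        by_cases hr : p ∣ orderOf g
        · simp [hr]
        · simp only [hr, not_false_eq_true, true_and, if_true, Finset.mul_sum, mul_ite, mul_zero])
      e))

end Pool.Agent.Lib.MP_b6945b_al.Kx
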