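import Pool.Agent.Lib.MP_b6945b_al.Kx.PSec
import Pool.Agent.Lib.MP_b6945b_al.Kx.PRes
import Pool.Agent.Lib.MP_b6945b_al.Kx.PEuc
import Pool.Agent.Lib.MP_b6945b_al.Kx.POne

set_option autoImplicit false

/-!
The traces `mu` do not depend on the level; the number of Brauer characters of a block that
covers a block with trivial inertial quotient of the centraliser of a normal `p`-subgroup.
-/

namespace Pool.Agent.Lib.MP_b6945b_al.Kx

open St Bi Finset

variable {G : Type} [Group G] [Fintype G] {V : ValuationSubring ℂ} {p : ℕ} [Fact p.Prime]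
  {K : Subgroup G} {ε : MonoidAlgebra V G} {x y : G}

open Classical in
lemma pmain_tau (K : Subgroup G) (ε : MonoidAlgebra V G) (x y : G) :
    tauK K ε x y = ∑ a, ∑ b, if a * x⁻¹ ∈ K ∧ b * y⁻¹ ∈ K then
      (Nat.card K : ℂ)⁻¹ * cf ε (a⁻¹ * (b * a * b⁻¹)) else 0 := by
  rw [tauK]
  refine Finset.sum_congr rfl fun a _ => ?_
  by_cases h : a * x⁻¹ ∈ K
  · rw [if_pos h, av, Finset.mul_sum]
    refine Fintype.sum_equiv (Equiv.mulRight y) _ _ fun k => ?_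
    simp only [Equiv.coe_mulRight, mul_inv_cancel, mul_one, h, true_and, mul_ite, mul_zero,
      mul_inv_rev, mul_assoc]
  · rw [if_neg h]
    exact (Finset.sum_eq_zero fun b _ => if_neg fun h' => h h'.1).symm

omit [Fintype G] in
lemma pmain_mem (hy : y ∈ Nz K) {k b : G} (hk : k ∈ K) : b * k * y⁻¹ ∈ K ↔ b * y⁻¹ ∈ K := by
  have h1 : y * k * y⁻¹ ∈ K := (Subgroup.mem_normalizer_iff.1 hy k).1 hk
  rw [show b * k * y⁻¹ = b * y⁻¹ * (y * k * y⁻¹) by group]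
  exact K.mul_mem_cancel_right h1

omit [Fintype G] in
lemma pmain_cf {b : G} (hb : cjRep V G b ε = ε) (g : G) : cf ε (b⁻¹ * g * b) = cf ε g := by
  rw [cf, cf, ← coeff_cjRep, hb]

theorem tauK_move1 (_hx : CI K ε x) (hy : CI K ε y) : tauK K ε x (y * x) = tauK K ε x y := by
  classical
  rw [pmain_tau, pmain_tau]
  refine Finset.sum_congr rfl fun a _ => ?_
  refine (Fintype.sum_equiv (Equiv.mulRight a) _ _ fun b => ?_).symm
  rw [Equiv.coe_mulRight]
  by_cases h : a * x⁻¹ ∈ K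
  · have e1 : b * a * (y * x)⁻¹ ∈ K ↔ b * y⁻¹ ∈ K := by
      rw [← pmain_mem hy.nz h, mul_inv_rev]
      simp only [mul_assoc]
    have e2 : b * a * a * (b * a)⁻¹ = b * a * b⁻¹ := by group
    simp only [e1, e2]
  · rw [if_neg fun h' => h h'.1, if_neg fun h' => h h'.1]

theorem tauK_move2 (hx : CI K ε x) (hy : CI K ε y) : tauK K ε (x * y) y = tauK K ε x y := by
  classical
  rw [pmain_tau, pmain_tau, Finset.sum_comm, Finset.sum_comm (f := fun a b =>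
    if a * x⁻¹ ∈ K ∧ b * y⁻¹ ∈ K then (Nat.card K : ℂ)⁻¹ * cf ε (a⁻¹ * (b * a * b⁻¹)) else 0)]
  refine Finset.sum_congr rfl fun b _ => ?_
  refine (Fintype.sum_equiv (Equiv.mulRight b) _ _ fun a => ?_).symm
  rw [Equiv.coe_mulRight]
  by_cases h : b * y⁻¹ ∈ K
  · have e1 : a * b * (x * y)⁻¹ ∈ K ↔ a * x⁻¹ ∈ K := by
      rw [← pmain_mem hx.nz h, mul_inv_rev]
      simp only [mul_assoc]
    have e0 : cjRep V G b ε = ε := by
      rw [← inv_mul_cancel_right b y, ← frpg_cj_cj, hy.cj, hy.fix _ h]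
    have e2 : cf ε ((a * b)⁻¹ * (b * (a * b) * b⁻¹)) = cf ε (a⁻¹ * (b * a * b⁻¹)) := by
      rw [← pmain_cf e0 (a⁻¹ * (b * a * b⁻¹))]
      congr 1
      group
    simp only [e1, e2]
  · rw [if_neg fun h' => h h'.2, if_neg fun h' => h h'.2]

variable {m : ℕ} {D P : Subgroup G} {c : MonoidAlgebra V G}

omit [Fintype G] in
lemma Nilp.mono (h : Nilp D c P) {P' : Subgroup G} (hP : P ≤ P') : Nilp D c P' :=
  (inf_le_inf_left _ (Cz_anti hP)).trans h

omit [Fintype G] in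
lemma Adm.top (h : Adm D c P x y) : Adm D c D x y := ⟨h.xT, h.yT, h.xT.2.1, h.yT.2.1, h.com⟩

omit [Fintype G] in
lemma Adm.one_right (h : Adm D c P x y) : Adm D c P x 1 :=
  ⟨h.xT, one_mem _, h.xN, one_mem _, by simp⟩

omit [Fintype G] in
lemma Adm.one_left (h : Adm D c P x y) : Adm D c P 1 x :=
  ⟨one_mem _, h.xT, one_mem _, h.xN, by simp⟩

omit [Fintype G] in
lemma Adm.move1 (h : Adm D c P x y) : Adm D c P x (y * x) :=
  ⟨h.xT, mul_mem h.yT h.xT, h.xN, mul_mem h.yN h.xN, by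
    rw [show y * x * x * (y * x)⁻¹ * x⁻¹ = y * x * y⁻¹ * x⁻¹ by group]
    exact h.com⟩

omit [Fintype G] in
lemma Adm.move2 (h : Adm D c P x y) : Adm D c P (x * y) y :=
  ⟨mul_mem h.xT h.yT, h.yT, mul_mem h.xN h.yN, h.yN, by
    rw [show y * (x * y) * y⁻¹ * (x * y)⁻¹ = y * x * y⁻¹ * x⁻¹ by group]
    exact h.com⟩

omit [Fintype G] in
lemma Adm.sup (h : Adm D c P x y) {R : Subgroup G} (hx : x ∈ Nz R) (hy : y ∈ Nz R) :
    Adm D c (P ⊔ R) x y :=
  ⟨h.xT, h.yT, Subgroup.normalizer_inf_normalizer_le_normalizer_sup P R ⟨h.xN, hx⟩,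
    Subgroup.normalizer_inf_normalizer_le_normalizer_sup P R ⟨h.yN, hy⟩, h.com⟩

omit [Fintype G] in
lemma Adm.cyc (h : Adm D c P x y) {d : G} (hx : x * d = d * x) (hy : y * d = d * y) :
    Adm D c (P ⊔ Subgroup.zpowers d) x y :=
  h.sup (Cz_le_Nz _ (mem_Cu.2 hx.symm)) (Cz_le_Nz _ (mem_Cu.2 hy.symm))

lemma Adm.fixp (h : Adm D c P x y) : Adm D c (P ⊔ (D ⊓ Cu x)) x y := by
  refine h.sup (Cz_le_Nz _ (mem_Cz.2 fun d hd => mem_Cu.1 hd.2)) ?_
  refine Subgroup.mem_normalizer_fintype fun d hd => ?_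
  have h1 : y * d * y⁻¹ ∈ D := (Subgroup.mem_normalizer_iff.1 h.yT.2.1 d).1 hd.1
  refine ⟨h1, mem_Cu.2 ?_⟩
  have h2 : x * d = d * x := mem_Cu.1 hd.2
  have h3 := mem_Cz.1 (inv_mem h.com) _ h1
  calc x * (y * d * y⁻¹) = (y * x * y⁻¹ * x⁻¹)⁻¹ * (y * (x * d) * y⁻¹) := by group
    _ = (y * x * y⁻¹ * x⁻¹)⁻¹ * (y * d * y⁻¹) * (y * x * y⁻¹) := by rw [h2]; group
    _ = y * d * y⁻¹ * x := by rw [h3]; group

omit [Fact p.Prime] [Fintype G] in
lemma pmain_cancel {s : Finset G} {f g : G → ℂ} {α β : ℂ} (h1 : 1 ∈ s)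
    (hs : ∑ d ∈ s, f d = ∑ d ∈ s, g d) (hout : ∀ d ∈ s, d ∉ P → f d = g d)
    (hin : ∀ d ∈ s, d ∈ P → f d = α ∧ g d = β) : α = β := by
  classical
  rw [← sub_eq_zero, ← Finset.sum_sub_distrib, ← Finset.sum_filter_add_sum_filter_not s (· ∈ P),
    Finset.sum_eq_zero (s := s.filter fun d => ¬ d ∈ P) (fun d hd => sub_eq_zero.2
      (hout d (Finset.mem_filter.1 hd).1 (Finset.mem_filter.1 hd).2)), add_zero,
    Finset.sum_congr rfl (g := fun _ => α - β) (fun d hd => by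
      obtain ⟨e1, e2⟩ := hin d (Finset.mem_filter.1 hd).1 (Finset.mem_filter.1 hd).2
      rw [e1, e2]), Finset.sum_const, nsmul_eq_mul, mul_eq_zero, Nat.cast_eq_zero,
    Finset.card_eq_zero] at hs
  rcases hs with e | e
  · exact absurd (e ▸ Finset.mem_filter.2 ⟨h1, P.one_mem⟩) (Finset.notMem_empty (1 : G))
  · exact sub_eq_zero.1 e

omit [Fact p.Prime] [Fintype G] in
lemma pmain_lt {d : G} (hd : d ∉ P) : P < P ⊔ Subgroup.zpowers d :=
  lt_of_le_of_ne le_sup_left fun e => hd (e.ge (Subgroup.mem_sup_right (Subgroup.mem_zpowers d)))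

omit [Fact p.Prime] [Fintype G] in
lemma pmain_eq {d : G} (hd : d ∈ P) : P ⊔ Subgroup.zpowers d = P :=
  sup_eq_left.2 (Subgroup.zpowers_le.2 hd)

theorem mu_one_right (hp : (p : ℂ) ∈ V.nonunits) (h : Rt p m ⊤ D c) (hPD : P ≤ D)
    (hN : Nilp D c P) (ha : Adm D c P x 1) : mu p D c P x 1 = 1 := by
  classical
  induction P using WellFoundedGT.induction with
  | ind P ih =>
  have hx := Adm.ci hp h hPD ha.xT ha.xN
  have h1 := Adm.ci hp h hPD ha.yT ha.yN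
  have e : tau D c P x 1 = tau D c P 1 x := by
    rw [tau, tau, ← tauK_move1 hx h1, ← tauK_move2 h1 hx, one_mul]
  rw [tau_eq_sum hp h hPD hN ha, tau_eq_sum hp h hPD hN ha.one_left] at e
  have hle : ∀ d ∈ D, P ⊔ Subgroup.zpowers d ≤ D := fun d hd =>
    sup_le hPD (Subgroup.zpowers_le.2 hd)
  have e2 : ∑ d ∈ univ.filter (fun d => d ∈ D ∧ 1 * d = d * 1 ∧ x * d = d * x),
      mu p D c (P ⊔ Subgroup.zpowers d) 1 x =
      ∑ d ∈ univ.filter (fun d => d ∈ D ∧ x * d = d * x ∧ 1 * d = d * 1), (1 : ℂ) := by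
    refine Finset.sum_congr (Finset.filter_congr fun d _ => by tauto) fun d hd => ?_
    obtain ⟨hd, h2, h3⟩ := (Finset.mem_filter.1 hd).2
    exact mu_one_left hp h (hle d hd) (hN.mono le_sup_left) (ha.one_left.cyc h3 h2)
  refine pmain_cancel (P := P) (by simp) (e.trans e2) (fun d hd hd' => ?_)
    (fun d _ hd' => ⟨by rw [pmain_eq hd'], rfl⟩)
  obtain ⟨hd, h2, h3⟩ := (Finset.mem_filter.1 hd).2
  exact ih _ (pmain_lt hd') (hle d hd) (hN.mono le_sup_left) (ha.cyc h2 h3)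

theorem mu_eq (hp : (p : ℂ) ∈ V.nonunits) (h : Rt p m ⊤ D c) (hPD : P ≤ D)
    (hN : Nilp D c P) (ha : Adm D c P x y) : mu p D c P x y = mu p D c D x y := by
  classical
  induction P using WellFoundedGT.induction generalizing x y with
  | ind P ih =>
  by_cases hDP : D ≤ P
  · rw [le_antisymm hPD hDP]
  have hle : ∀ d ∈ D, P ⊔ Subgroup.zpowers d ≤ D := fun d hd =>
    sup_le hPD (Subgroup.zpowers_le.2 hd)
  have key : ∀ x y, Adm D c P x y →
      (mu p D c P x y = mu p D c D x y ↔ tau D c P x y = tau D c D x y) := by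
    intro x y ha
    have hout : ∀ d ∈ univ.filter (fun d => d ∈ D ∧ x * d = d * x ∧ y * d = d * y), d ∉ P →
        mu p D c (P ⊔ Subgroup.zpowers d) x y = mu p D c (D ⊔ Subgroup.zpowers d) x y := by
      intro d hd hd'
      obtain ⟨hd, h2, h3⟩ := (Finset.mem_filter.1 hd).2
      rw [pmain_eq hd]
      exact ih _ (pmain_lt hd') (hle d hd) (hN.mono le_sup_left) (ha.cyc h2 h3)
    rw [tau_eq_sum hp h hPD hN ha, tau_eq_sum hp h le_rfl (hN.mono hPD) ha.top]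
    refine ⟨fun e => Finset.sum_congr rfl fun d hd => ?_, fun e => pmain_cancel (P := P)
      (by simp) e hout fun d _ hd' => ⟨by rw [pmain_eq hd'], by rw [pmain_eq (hPD hd')]⟩⟩
    by_cases hd' : d ∈ P
    · rw [pmain_eq hd', pmain_eq (hPD hd'), e]
    · exact hout d hd hd'
  have hT : stabT ⊤ D c ≤ Nz D := fun t ht => ht.2.1
  have hno : ((Cz D).subgroupOf (stabT ⊤ D c)).Normal :=
    (Subgroup.normal_subgroupOf_iff_le_normalizer h.Cz_le_stab).2 (hT.trans (Nz_le_Nz_Cz D))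
  refine euclid h.pD h.comm hDP hT (not_dvd_inert hp h)
    (fun t ht => ((Cz D).subgroupOf (stabT ⊤ D c)).pow_index_mem ⟨t, ht⟩)
    (fun x y => Adm D c P x y → mu p D c P x y = mu p D c D x y) ?_ ?_ ?_ ha.xT ha.yT ?_ ha
  · intro x y e ha
    have e1 := (key _ _ ha.move1).1 (e ha.move1)
    rw [tau, tau, tauK_move1 (Adm.ci hp h hPD ha.xT ha.xN) (Adm.ci hp h hPD ha.yT ha.yN),
      tauK_move1 (Adm.ci hp h le_rfl ha.xT ha.top.xN) (Adm.ci hp h le_rfl ha.yT ha.top.yN)] at e1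
    exact (key _ _ ha).2 e1
  · intro x y e ha
    have e1 := (key _ _ ha.move2).1 (e ha.move2)
    rw [tau, tau, tauK_move2 (Adm.ci hp h hPD ha.xT ha.xN) (Adm.ci hp h hPD ha.yT ha.yN),
      tauK_move2 (Adm.ci hp h le_rfl ha.xT ha.top.xN) (Adm.ci hp h le_rfl ha.yT ha.top.yN)] at e1
    exact (key _ _ ha).2 e1
  · rintro x y ⟨d, hd, hd', e⟩ ha
    have hle' : P ⊔ (D ⊓ Cu x) ≤ D := sup_le hPD inf_le_left
    have hlt : P < P ⊔ (D ⊓ Cu x) := lt_of_le_of_ne le_sup_left fun e' =>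
      hd' (e'.ge (Subgroup.mem_sup_right ⟨hd, mem_Cu.2 e⟩))
    rw [mu_restrict hp h hPD hN ha (mu_one_right hp h hPD hN ha.one_right)
      (mu_one_right hp h hle' (hN.mono le_sup_left) ha.fixp.one_right)]
    exact ih _ hlt hle' (hN.mono le_sup_left) ha.fixp
  · rw [show x * y * x⁻¹ * y⁻¹ = (y * x * y⁻¹ * x⁻¹)⁻¹ by group]
    exact inv_mem ha.com

theorem lL_kp (hp : (p : ℂ) ∈ V.nonunits) (h : Rt p m ⊤ D c) (hPD : P ≤ D) [P.Normal]
    (hN : Nilp D c P) : lL p ⊤ (bk D c ⊤) = lL p (Nz D) (bk D c (Nz D)) :=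
  lL_kp_of hp h hPD hN fun _ _ ha => mu_eq hp h hPD hN ha

end Pool.Agent.Lib.MP_b6945b_al.Kx
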