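import Pool.Agent.Lib.MP_b6945b_al.Kx.PCount
import Pool.Agent.Lib.MP_b6945b_al.Kx.PKap

set_option autoImplicit false

/-!
The second main theorem on a coset, and the Brauer elements of a nilpotent block.
-/

namespace Pool.Agent.Lib.MP_b6945b_al.Kx

open St Bi IsLocalRing Finset
open MonoidAlgebra (single)

variable {G : Type} [Group G] [Fintype G] {V : ValuationSubring ℂ} {p : ℕ} [Fact p.Prime]
  {H K D : Subgroup G} {φ : G → ℂ} {u s a : G} {e c : MonoidAlgebra V G} {m : ℕ}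

lemma sec_congr (hp : (p : ℂ) ∈ V.nonunits) (hφ : ∀ h ∈ H, ∀ g, φ (h * g * h⁻¹) = φ g)
    (hu : IsPElt p u) (huH : u ∈ H) (hsH : s ∈ H) (hs : s ∈ Cu u) (hr : ¬ p ∣ orderOf s)
    {J J' : MonoidAlgebra V G} (hJ : J * J = J) (hJ' : J' * J' = J') (s1 : Supp H J)
    (s2 : Supp H J') (f1 : Fix (H ⊓ Cu u) J) (f2 : Fix (H ⊓ Cu u) J')
    (h : bb (Subgroup.zpowers u) J = bb (Subgroup.zpowers u) J') :
    ev φ (single (u * s) 1 * J) = ev φ (single (u * s) 1 * J') := by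
  let _ : Fintype H := Fintype.ofFinite H
  have hi := H.subtype_injective
  obtain ⟨j, rfl⟩ : ∃ j, inc V H.subtype j = J := ⟨_, inc_pull_supp s1⟩
  obtain ⟨j', rfl⟩ : ∃ j, inc V H.subtype j = J' := ⟨_, inc_pull_supp s2⟩
  lift u to H using huH
  lift s to H using hsH
  have hs' : s ∈ Cu u := mem_Cu.2 (Subtype.ext (mem_Cu.1 hs))
  have hS : Subgroup.zpowers s ≤ Cu u := Subgroup.zpowers_le.2 hs'
  rw [← map_Cu, fix_inc_iff hi] at f1 f2
  have h1 : Subgroup.zpowers (u : G) = (Subgroup.zpowers u).map H.subtype :=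
    (MonoidHom.map_zpowers H.subtype u).symm
  rw [h1, bb_inc hi, bb_inc hi] at h
  have h2 := ev_congr_bb hp (x := fun y : H => φ (H.subtype y)) (fun k g => hφ k k.2 g)
    ((bbc_pelt_coe u).1 hu) (S := Subgroup.zpowers s)
    (by rwa [Nat.card_zpowers, ← Subgroup.orderOf_coe]) (Subgroup.mem_zpowers s) hS
    (inc_injective hi (by rw [map_mul, hJ])) (inc_injective hi (by rw [map_mul, hJ']))
    ⟨f1.mono (zpowers_le_Cu u), f1.mono hS⟩ ⟨f2.mono (zpowers_le_Cu u), f2.mono hS⟩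
    (inc_injective hi h)
  rwa [← btr1_ev, ← btr1_ev] at h2

omit [Fintype G] [Fact p.Prime] in
lemma sec_inv (ha : a ∈ Nz K) (h1 : ∀ k ∈ K, ∀ g, φ (k * g * k⁻¹) = φ g)
    (h2 : ∀ g, φ g ≠ 0 → g * a⁻¹ ∈ K) :
    ∀ h ∈ K ⊔ Subgroup.zpowers a, ∀ g, φ (h * g * h⁻¹) = φ g := by
  let W : Subgroup G :=
    { carrier := {h | ∀ g, φ (h * g * h⁻¹) = φ g}
      one_mem' := fun g => by rw [one_mul, inv_one, mul_one]
      mul_mem' := fun {x y} hx hy g => by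
        rw [← hy g, ← hx (y * g * y⁻¹)]
        congr 1
        group
      inv_mem' := fun {x} hx g => by
        rw [← hx (x⁻¹ * g * x⁻¹⁻¹)]
        congr 1
        group }
  refine (sup_le (fun k hk => h1 k hk) (Subgroup.zpowers_le.2 fun g => ?_) :
    K ⊔ Subgroup.zpowers a ≤ W)
  by_cases e : g * a⁻¹ ∈ K
  · rw [← h1 _ e (a * g * a⁻¹)]
    congr 1
    group
  · have h3 : φ g = 0 := not_not.1 fun e' => e (h2 g e')
    rw [h3]
    exact not_not.1 fun e' => e ((Subgroup.mem_normalizer_iff.1 ha _).2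
      (by simpa only [mul_assoc] using h2 _ e'))

open Classical in
/-- The lift of the image of `e` under the Brauer homomorphism. -/
noncomputable def secT (K : Subgroup G) (e : MonoidAlgebra V G) (u : G) :
    Finset (MonoidAlgebra V G) :=
  (blk V (K ⊓ Cu u)).filter fun f => Le (Subgroup.zpowers u) e f

omit [Fact p.Prime] in
lemma mem_secT {f : MonoidAlgebra V G} :
    f ∈ secT K e u ↔ HB (K ⊓ Cu u) f ∧ Le (Subgroup.zpowers u) e f := by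
  classical
  rw [secT, Finset.mem_filter, mem_blk]

omit [Fact p.Prime] in
lemma cj_mem_secT {f : MonoidAlgebra V G} (hf : f ∈ secT K e u) {g : G} (hg : g ∈ Nz K)
    (he : cjRep V G g e = e) : cjRep V G g f ∈ secT K e (g * u * g⁻¹) := by
  obtain ⟨h1, h2⟩ := mem_secT.1 hf
  have h3 := h1.conj g
  have h4 := h2.cj g
  rw [cg_inf, cg_eq_iff.2 hg, ← Cu_conj] at h3
  rw [← zpowers_conj, he] at h4
  exact mem_secT.2 ⟨h3, h4⟩

omit [Fact p.Prime] in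
lemma secT_fix (hn : H ≤ Nz K) (he : Fix H e) : Fix (H ⊓ Cu u) (∑ f ∈ secT K e u, f) := by
  have key : ∀ g ∈ H ⊓ Cu u, ∀ f ∈ secT K e u, cjRep V G g f ∈ secT K e u := fun g hg f hf => by
    have h1 := cj_mem_secT hf (hn hg.1) (he g hg.1)
    rwa [← mem_Cu.1 hg.2, mul_inv_cancel_right] at h1
  intro g hg
  rw [map_sum]
  exact Finset.sum_nbij' (cjRep V G g) (cjRep V G g⁻¹) (key g hg) (key _ (inv_mem hg))
    (fun f _ => frpg_inv_cj _ _) (fun f _ => by rw [frpg_cj_cj, mul_inv_cancel, map_one]; rfl)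
    fun _ _ => rfl

omit [Fact p.Prime] in
open Classical in
lemma ev_count (B : G → Prop) (F : G → G) (w : G) (ε : MonoidAlgebra V G) :
    ev (fun g => ∑ b, if B b ∧ g = F b then 1 else 0) (single w 1 * ε) =
      ∑ b, if B b then cf ε (w⁻¹ * F b) else 0 := by
  rw [ev_single_mul']
  simp only [Finset.mul_sum]
  rw [Finset.sum_comm]
  refine Finset.sum_congr rfl fun b _ => ?_
  by_cases h : B b <;> simp [h]

open Classical in
/-- The second main theorem for a sum over a coset. -/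
lemma sec_coset (hp : (p : ℂ) ∈ V.nonunits) (he : e * e = e) (hs : Supp K e) (hf : Fix K e)
    (ha : a ∈ Nz K) (hae : cjRep V G a e = e) (B : G → Prop)
    (h1 : ∀ k ∈ K, ∀ b, B (k * b) ↔ B b) (h2 : ∀ b, B b → b * a * b⁻¹ * a⁻¹ ∈ K) :
    ∑ b, (if B b then cf e (a⁻¹ * (b * a * b⁻¹)) else 0) = ∑ f ∈ secT K e (pp p a),
      ∑ b, if B b ∧ b ∈ Cu (pp p a) then cf f ((pq p a)⁻¹ * (b * pq p a * b⁻¹)) else 0 := by
  obtain ⟨H, hH⟩ : ∃ H, H = K ⊔ Subgroup.zpowers a := ⟨_, rfl⟩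
  have hKH : K ≤ H := hH ▸ le_sup_left
  have haH : Subgroup.zpowers a ≤ H := hH ▸ le_sup_right
  have hn : H ≤ Nz K := hH ▸ sup_le Subgroup.le_normalizer (Subgroup.zpowers_le.2 ha)
  have hfH : Fix H e := hH ▸ hf.sup (fix_zpowers_iff.2 hae)
  obtain ⟨φ, hd⟩ : ∃ φ : G → ℂ,
      φ = fun g => ∑ b, if B b ∧ g = b * a * b⁻¹ then (1 : ℂ) else 0 := ⟨_, rfl⟩
  have hφ : ∀ h ∈ H, ∀ g, φ (h * g * h⁻¹) = φ g := by
    rw [hH]
    refine sec_inv ha (fun k hk g => ?_) fun g hg => ?_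
    · rw [hd]
      refine (Fintype.sum_equiv (Equiv.mulLeft k) _ _ fun b => ?_).symm
      rw [Equiv.coe_mulLeft]
      refine if_congr (and_congr (h1 k hk b).symm ⟨fun e => ?_, fun e => ?_⟩) rfl rfl
      · rw [e]
        group
      · rw [show g = k⁻¹ * (k * g * k⁻¹) * k by group, e]
        group
    · rw [hd] at hg
      obtain ⟨b, -, hb⟩ := Finset.exists_ne_zero_of_sum_ne_zero hg
      obtain ⟨h3, rfl⟩ : B b ∧ g = b * a * b⁻¹ := not_not.1 fun e => hb (if_neg e)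
      exact h2 b h3
  rw [← ev_count B (fun b => b * a * b⁻¹) a e, ← hd]
  obtain ⟨hu, huH, hr⟩ := pp_spec (p := p) a
  have hsu := pq_mem_Cu (p := p) a
  have hsH := haH (pq_mem (p := p) a)
  have hg := pp_mul_pq (p := p) a
  have hpp := pp_conj (p := p) (g := a)
  generalize pp p a = u at hu huH hsu hg hpp
  generalize pq p a = s at hr hsu hsH hg
  have hU : Subgroup.zpowers u ≤ H := Subgroup.zpowers_le.2 (haH huH)
  obtain ⟨j1, j2, -⟩ := sum_blk_idem (s := secT K e u) fun f hf => (mem_secT.1 hf).1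
  have j3 := secT_fix (u := u) hn hfH
  have hb : bb (Subgroup.zpowers u) e = bb (Subgroup.zpowers u) (∑ f ∈ secT K e u, f) := by
    rw [bb_of_supp (j2.mono inf_le_right), map_sum, res_idem_eq_sum (V := V) (H := K ⊓ Cu u)
      (bb_idem hp hu.isPGroup he (hfH.mono hU)) hs.bb
      ((hf.mono inf_le_left).bb (inf_le_right.trans (Cz_le_Nz _)))]
    refine Finset.sum_congr (Finset.ext fun f => ?_) fun _ _ => rfl
    rw [Finset.mem_filter, mem_secT, mem_blk]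
    rfl
  have h5 : ∀ g ∈ Cu u, Reg p (fun y => φ (u * y)) g =
      ∑ b, if (B b ∧ b ∈ Cu u) ∧ g = b * s * b⁻¹ then 1 else 0 := by
    intro g hgu
    by_cases hgr : p ∣ orderOf g
    · rw [Reg_apply_sing _ hgr]
      refine (Finset.sum_eq_zero fun b _ => if_neg fun e => hr ?_).symm
      rwa [e.2, borth_ord] at hgr
    rw [Reg_apply_reg _ hgr, hd]
    refine Finset.sum_congr rfl fun b _ => if_congr ?_ rfl rfl
    rw [and_assoc]
    refine and_congr_right fun _ => ⟨fun e => ?_, fun e => ?_⟩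
    · have h3 := hpp b
      rw [← e, pp_mul_eq hu hgr (mem_Cu.1 hgu)] at h3
      have h4 : u * b = b * u := by rw [← mul_inv_eq_iff_eq_mul.1 h3.symm]
      refine ⟨mem_Cu.2 h4, mul_left_cancel (a := u) ?_⟩
      rw [e, ← hg, ← mul_assoc, ← mul_assoc, ← mul_assoc, h4]
    · rw [e.2, ← hg, ← mul_assoc, ← mul_assoc, ← mul_assoc, mem_Cu.1 e.1]
  rw [← hg, sec_congr hp hφ hu (haH huH) hsH hsu hr he j1 (hs.mono hKH)
    (j2.mono (inf_le_left.trans hKH)) (hfH.mono inf_le_left) j3 hb, bstar_shift,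
    ← orth_reg hp j1 (j2.mono (inf_le_inf_right _ hKH)) j3 (z := fun y => φ (u * y))
      (fun h hh g _ => by
        show φ _ = φ _
        rw [bstar_conj hh.2, hφ h hh.1]) ⟨hsH, hsu⟩ hr,
    ev_congr ((supp_single hsu 1).mul (j2.mono inf_le_right)) h5, Finset.mul_sum, ev_sum]
  refine Finset.sum_congr rfl fun f _ => ?_
  have h6 := ev_count (fun b => B b ∧ b ∈ Cu u) (fun b => b * s * b⁻¹) s f
  convert h6

lemma sec_label (hp : (p : ℂ) ∈ V.nonunits) (h : Rt p m K D c) {d k : G} (hd : d ∈ D)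
    (hk : k ∈ K) : cjRep V G k (bk D c (K ⊓ Cu d)) ∈ secT K (bk D c K) (k * d * k⁻¹) := by
  have h1 := h.cu hp hd
  exact cj_mem_secT (mem_secT.2 ⟨(h1.spec hp h1.le).1, h.below hp (Subgroup.zpowers_le.2 hd) h.le
    le_rfl inf_le_left (inf_le_right.trans (Cz_le_Nz _))⟩) (Subgroup.le_normalizer hk)
    ((h.spec hp h.le).1.fix k hk)

lemma sec_exists (hp : (p : ℂ) ∈ V.nonunits) (h : Rt p m K D c) (hu : IsPElt p u) (huK : u ∈ K)
    {f : MonoidAlgebra V G} (hf : f ∈ secT K (bk D c K) u) :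
    ∃ d ∈ D, ∃ k ∈ K, k * d * k⁻¹ = u ∧ cjRep V G k (bk D c (K ⊓ Cu d)) = f := by
  obtain ⟨h1, h2⟩ := mem_secT.1 hf
  obtain ⟨k, hk, h3, h4⟩ := h.max_pair hp hu.isPGroup (Subgroup.zpowers_le.2 huK) h1 h2
  have hd : k⁻¹ * u * k ∈ D := mem_cg.1 (h3 (Subgroup.mem_zpowers u))
  have e : k * (k⁻¹ * u * k) * k⁻¹ = u := by group
  refine ⟨_, hd, k, hk, e, ?_⟩
  rw [← h.bk_conj hp (h.cu hp hd).le k, cg_inf, bmax_cg_self hk, ← Cu_conj, e]
  have h5 := (h.cu hp hd).conj hp k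
  rw [cg_inf, bmax_cg_self hk, ← Cu_conj, e] at h5
  exact h5.bk_eq hp h5.le h1 h4

lemma sec_unique (hp : (p : ℂ) ∈ V.nonunits) (h : Rt p m K D c) (hT : stabT K D c ≤ Cz D)
    {d d' k : G} (hd : d ∈ D) (hd' : d' ∈ D) (hk : k ∈ K) (e : k * d * k⁻¹ = d')
    (e' : cjRep V G k (bk D c (K ⊓ Cu d)) = bk D c (K ⊓ Cu d')) : d = d' := by
  have h1 := h.cu hp hd
  have h2 : Rt p m (K ⊓ Cu d') (cg k D) (cjRep V G k c) := by
    have h3 := h1.conj hp k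
    rwa [cg_inf, bmax_cg_self hk, ← Cu_conj, e] at h3
  obtain ⟨l, hl, h3, h4⟩ := (h.cu hp hd').root_conj hp h2.pD h2.le_H (card_cg k D).ge
    (by rw [inf_eq_right.2 h2.le]; exact h2.root) (e' ▸ (h1.spec hp h1.le).2.cj k)
  have h5 : l⁻¹ * k ∈ Cz D := hT ⟨K.mul_mem (K.inv_mem hl.1) hk, by
    rw [← cg_eq_iff, ← cg_cg, h3, cg_cg, inv_mul_cancel, cg_one], by
    rw [← frpg_cj_cj, h4, frpg_inv_cj]⟩
  calc d = l⁻¹ * k * d * (l⁻¹ * k)⁻¹ := by rw [mem_Cz.1 h5 d hd, mul_inv_cancel_right]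
    _ = l⁻¹ * (k * d * k⁻¹ * l) := by group
    _ = d' := by rw [e, mem_Cu.1 hl.2, inv_mul_cancel_left]

open Classical in
/-- The Brauer elements of a nilpotent block. -/
lemma sec_pairs (hp : (p : ℂ) ∈ V.nonunits) (h : Rt p m K D c) (hT : stabT K D c ≤ Cz D)
    (Ψ : G → MonoidAlgebra V G → ℂ)
    (hΨ : ∀ k ∈ K, ∀ u f, Ψ (k * u * k⁻¹) (cjRep V G k f) = Ψ u f) :
    ∑ u, (if IsPElt p u ∧ u ∈ K then ∑ f ∈ secT K (bk D c K) u, Ψ u f else 0) =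
      Nat.card K * ∑ d ∈ univ.filter (· ∈ D),
        (Nat.card (K ⊓ Cu d : Subgroup G) : ℂ)⁻¹ * Ψ d (bk D c (K ⊓ Cu d)) := by
  obtain ⟨A, hA⟩ : ∃ A : Finset (G × G), ∀ z, z ∈ A ↔ z.1 ∈ D ∧ z.2 ∈ K :=
    ⟨univ.filter (· ∈ D) ×ˢ univ.filter (· ∈ K), fun z => by simp⟩
  have h1 : ∑ z ∈ A, (Nat.card (K ⊓ Cu z.1 : Subgroup G) : ℂ)⁻¹ * Ψ z.1 (bk D c (K ⊓ Cu z.1)) =
      Nat.card K * ∑ d ∈ univ.filter (· ∈ D),
        (Nat.card (K ⊓ Cu d : Subgroup G) : ℂ)⁻¹ * Ψ d (bk D c (K ⊓ Cu d)) := by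
    rw [show A = univ.filter (· ∈ D) ×ˢ univ.filter (· ∈ K) from Finset.ext fun z => by simp [hA],
      Finset.sum_product, Finset.mul_sum]
    refine Finset.sum_congr rfl fun d _ => ?_
    dsimp only
    rw [Finset.sum_filter]
    exact pcount_card K _
  rw [← h1, ← Finset.sum_fiberwise A (fun z => z.2 * z.1 * z.2⁻¹)]
  refine Finset.sum_congr rfl fun u _ => ?_
  split_ifs with hu
  swap
  · refine (Finset.sum_eq_zero fun z hz => absurd ?_ hu).symm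
    obtain ⟨h2, rfl⟩ := Finset.mem_filter.1 hz
    obtain ⟨h3, h4⟩ := (hA z).1 h2
    exact ⟨(h.pelt h3).conj _, K.mul_mem (K.mul_mem h4 (h.le_H h3)) (K.inv_mem h4)⟩
  rw [← Finset.sum_fiberwise_of_maps_to (t := secT K (bk D c K) u)
    (g := fun z : G × G => cjRep V G z.2 (bk D c (K ⊓ Cu z.1))) fun z hz => by
      obtain ⟨h2, rfl⟩ := Finset.mem_filter.1 hz
      exact sec_label hp h ((hA z).1 h2).1 ((hA z).1 h2).2]
  refine Finset.sum_congr rfl fun f hf => ?_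
  obtain ⟨d, hd, k, hk, rfl, rfl⟩ := sec_exists hp h hu.1 hu.2 hf
  have key : ∀ z ∈ (A.filter fun z => z.2 * z.1 * z.2⁻¹ = k * d * k⁻¹).filter
      fun z => cjRep V G z.2 (bk D c (K ⊓ Cu z.1)) = cjRep V G k (bk D c (K ⊓ Cu d)),
      z.1 = d ∧ k⁻¹ * z.2 ∈ K ⊓ Cu d := by
    intro z hz
    obtain ⟨h2, h3⟩ := Finset.mem_filter.1 hz
    obtain ⟨h4, h5⟩ := Finset.mem_filter.1 h2
    obtain ⟨h6, h7⟩ := (hA z).1 h4
    have h8 := K.mul_mem (K.inv_mem hk) h7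
    have h9 : k⁻¹ * z.2 * z.1 * (k⁻¹ * z.2)⁻¹ = d := by
      rw [show d = k⁻¹ * (k * d * k⁻¹) * k by group, ← h5]
      group
    have h10 := sec_unique hp h hT h6 hd h8 h9 (by rw [← frpg_cj_cj, h3, frpg_inv_cj])
    rw [h10] at h9
    exact ⟨h10, h8, mem_Cu.2 (mul_inv_eq_iff_eq_mul.1 h9).symm⟩
  have h0 : (Nat.card (K ⊓ Cu d : Subgroup G) : ℂ) ≠ 0 := Nat.cast_ne_zero.2 Nat.card_pos.ne'
  rw [hΨ k hk, ← mul_inv_cancel_left₀ h0 (Ψ _ _), ← pcount_card, ← Finset.sum_filter]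
  refine Finset.sum_nbij' (fun l => (d, k * l)) (fun z => k⁻¹ * z.2) (fun l hl => ?_)
    (fun z hz => Finset.mem_filter.2 ⟨mem_univ _, (key z hz).2⟩) (fun l _ => by simp)
    (fun z hz => Prod.ext (key z hz).1.symm (by simp)) fun _ _ => rfl
  have h2 := (Finset.mem_filter.1 hl).2
  have h3 := h.cu hp hd
  refine Finset.mem_filter.2 ⟨Finset.mem_filter.2 ⟨(hA _).2 ⟨hd, K.mul_mem hk h2.1⟩, ?_⟩, ?_⟩
  · change k * l * d * (k * l)⁻¹ = _
    rw [mul_assoc k, ← mem_Cu.1 h2.2]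
    group
  · change cjRep V G (k * l) _ = _
    rw [← frpg_cj_cj, (h3.spec hp h3.le).1.fix l h2]

omit [Fintype G] [Fact p.Prime] in
lemma Cz_sup_zpowers (P : Subgroup G) (d : G) : Cz (P ⊔ Subgroup.zpowers d) = Cz P ⊓ Cu d := by
  refine le_antisymm (le_inf (Cz_anti le_sup_left) (Cz_anti le_sup_right)) fun g hg => ?_
  have h : P ⊔ Subgroup.zpowers d ≤ Cu g := sup_le (fun a ha => mem_Cu.2 (mem_Cz.1 hg.1 a ha))
    fun a ha => mem_Cu.2 (mem_Cz.1 hg.2 a ha)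
  exact mem_Cz.2 fun a ha => mem_Cu.1 (h ha)

lemma pp_mem_of_pow {x : G} {n : ℕ} (hx : x ∈ Nz K) (hn : ¬ p ∣ n) (h : x ^ n ∈ K)
    (ha : a * x⁻¹ ∈ K) : pp p a ∈ K := by
  have h1 : ∀ j : ℕ, a ^ j * (x ^ j)⁻¹ ∈ K := fun j => by
    induction j with
    | zero => simp
    | succ j ih =>
      have h2 := K.mul_mem ih ((nz_iff (pow_mem hx j) _).2 ha)
      convert h2 using 1
      rw [pow_succ, pow_succ]
      group
  have h2 : a ^ n ∈ K := by simpa using K.mul_mem (h1 n) h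
  obtain ⟨⟨k, hk⟩, ⟨i, hi⟩, -⟩ := pp_spec (p := p) a
  obtain ⟨r, hr⟩ := exists_pow_eq_self_of_coprime (x := pp p a) (n := n)
    (Nat.Coprime.coprime_dvd_right (orderOf_dvd_of_pow_eq_one hk)
      (((Nat.Prime.coprime_iff_not_dvd Fact.out).2 hn).symm.pow_right k))
  rw [← hr]
  refine K.pow_mem ?_ r
  have h3 : pp p a ^ n = (a ^ n) ^ i := by
    rw [← hi, ← zpow_natCast, ← zpow_natCast, ← zpow_mul, ← zpow_mul, mul_comm]
  exact h3 ▸ K.zpow_mem h2 i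

lemma pow_mem_Cz (hp : (p : ℂ) ∈ V.nonunits) (h : Rt p m ⊤ D c) :
    ∃ n : ℕ, ¬ p ∣ n ∧ ∀ t ∈ stabT ⊤ D c, t ^ n ∈ Cz D := by
  have : ((Cz D).subgroupOf (stabT ⊤ D c)).Normal :=
    (Subgroup.normal_subgroupOf_iff_le_normalizer h.Cz_le_stab).2
      fun t ht => Nz_le_Nz_Cz D ht.2.1
  exact ⟨_, not_dvd_inert hp h, fun t ht =>
    ((Cz D).subgroupOf (stabT ⊤ D c)).pow_index_mem ⟨t, ht⟩⟩

open Classical in
/-- The contribution of one Brauer element. -/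
noncomputable def secS (p : ℕ) (K : Subgroup G) (x y u : G) (f : MonoidAlgebra V G) : ℂ :=
  ∑ s, if (s * x⁻¹ ∈ K ∧ s ∈ Cu u) ∧ ¬ p ∣ orderOf s then
    ∑ b, (if b * y⁻¹ ∈ K ∧ b ∈ Cu u then cf f (s⁻¹ * (b * s * b⁻¹)) else 0) else 0

omit [Fact p.Prime] in
lemma secS_cj {x y k : G} (hx : x ∈ Nz K) (hy : y ∈ Nz K) (hk : k ∈ K) (u : G)
    (f : MonoidAlgebra V G) :
    secS p K x y (k * u * k⁻¹) (cjRep V G k f) = secS p K x y u f := by
  classical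
  have h1 : ∀ g, k * g * k⁻¹ ∈ Cu (k * u * k⁻¹) ↔ g ∈ Cu u := fun g => by
    rw [Cu_conj, mem_cg]
    simp only [mul_assoc, inv_mul_cancel_left, inv_mul_cancel, mul_one]
  refine (Fintype.sum_equiv (MulAut.conj k).toEquiv _ _ fun s => ?_).symm
  change _ = if (k * s * k⁻¹ * x⁻¹ ∈ K ∧ k * s * k⁻¹ ∈ _) ∧ ¬ p ∣ orderOf (k * s * k⁻¹) then _
    else _
  refine if_congr (by rw [coset_conj hx hk, h1, borth_ord]) ?_ rfl
  refine Fintype.sum_equiv (MulAut.conj k).toEquiv _ _ fun b => ?_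
  change _ = if k * b * k⁻¹ * y⁻¹ ∈ K ∧ k * b * k⁻¹ ∈ _ then cf _ ((k * s * k⁻¹)⁻¹ *
    (k * b * k⁻¹ * (k * s * k⁻¹) * (k * b * k⁻¹)⁻¹)) else _
  refine if_congr (by rw [coset_conj hy hk, h1]) ?_ rfl
  rw [cf, cf, coeff_cjRep]
  congr 2
  group

omit [Fact p.Prime] in
lemma secS_eq {x y x' y' : G} (hx : x' * x⁻¹ ∈ K) (hx' : x' ∈ Cu u) (hy : y' * y⁻¹ ∈ K)
    (hy' : y' ∈ Cu u) (f : MonoidAlgebra V G) : (Nat.card (K ⊓ Cu u : Subgroup G) : ℂ)⁻¹ *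
      secS p K x y u f = muK p (K ⊓ Cu u) f x' y' := by
  classical
  have key : ∀ z z' : G, z' * z⁻¹ ∈ K → z' ∈ Cu u → ∀ g,
      (g * z⁻¹ ∈ K ∧ g ∈ Cu u) ↔ g * z'⁻¹ ∈ K ⊓ Cu u := fun z z' h1 h2 g => by
    rw [Subgroup.mem_inf, coset_change h1, (Cu u).mul_mem_cancel_right (inv_mem h2)]
  rw [muK_eq_sum, secS]
  refine congrArg _ (Finset.sum_congr rfl fun s _ => if_congr (by rw [key x x' hx hx'])
    (Finset.sum_congr rfl fun b _ => if_congr (key y y' hy hy' b) ?_ rfl) rfl)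
  simp only [mul_assoc]

variable {P : Subgroup G} {x y : G}

lemma sec_fixed (hp : (p : ℂ) ∈ V.nonunits) (h : Rt p m ⊤ D c) (hPD : P ≤ D) (hN : Nilp D c P)
    (hT : x ∈ stabT ⊤ D c) (hx : x ∈ Nz P) {d x' : G} (hd : d ∈ D) (h1 : x' * x⁻¹ ∈ Cz P)
    (h2 : x' ∈ Cu d) (h3 : cjRep V G x' (bk D c (Cz P ⊓ Cu d)) = bk D c (Cz P ⊓ Cu d)) :
    x * d = d * x := by
  rw [← Cz_sup_zpowers] at h3
  have h4 : x' ∈ Nz P := by simpa using (Nz P).mul_mem (Cz_le_Nz P h1) hx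
  obtain ⟨l, hl, h5⟩ := rt_fu hp h (sup_le hPD (Subgroup.zpowers_le.2 hd)) (by
    rw [← cg_eq_iff, cg, Subgroup.map_sup]
    exact congrArg₂ _ (cg_eq_iff.2 h4) (cg_eq_iff.2 (Cz_le_Nz _ h2))) h3
  rw [Cz_sup_zpowers] at hl
  have h6 : l * x' * x⁻¹ ∈ Cu d := Cz_le_Cu hd (hN (Subgroup.mem_inf.2
    ⟨mul_mem h5 (inv_mem hT), by rw [mul_assoc]; exact mul_mem hl.1 h1⟩))
  rw [(Cu d).mul_mem_cancel_left (mul_mem hl.2 h2), inv_mem_iff] at h6
  exact (mem_Cu.1 h6).symm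

open Classical in
theorem tau_eq_sum (hp : (p : ℂ) ∈ V.nonunits) (h : Rt p m ⊤ D c) (hPD : P ≤ D)
    (hN : Nilp D c P) (ha : Adm D c P x y) :
    tau D c P x y = ∑ d ∈ univ.filter (fun d => d ∈ D ∧ x * d = d * x ∧ y * d = d * y),
      mu p D c (P ⊔ Subgroup.zpowers d) x y := by
  have hK : Rt p m (Cz P) D c := h.local hp hPD inf_le_right le_top (Cz_le_Nz P)
  have hx := Adm.ci hp h hPD ha.xT ha.xN
  have hy := Adm.ci hp h hPD ha.yT ha.yN
  have hc := Cz_anti hPD ha.com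
  obtain ⟨n, hn, hpow⟩ := pow_mem_Cz hp h
  have h1 : ∑ a, (if a * x⁻¹ ∈ Cz P then av (Cz P) (eP D c P) a (y * a * y⁻¹) else 0) =
      ∑ u, if IsPElt p u ∧ u ∈ Cz P then
        ∑ f ∈ secT (Cz P) (eP D c P) u, secS p (Cz P) x y u f else 0 := by
    rw [sum_pp (p := p)]
    refine Finset.sum_congr rfl fun u _ => ?_
    split_ifs with hu
    · simp only [secS]
      rw [Finset.sum_comm]
      refine Finset.sum_congr rfl fun s _ => ?_
      have h2 : u * s * x⁻¹ ∈ Cz P ↔ s * x⁻¹ ∈ Cz P := by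
        rw [mul_assoc, (Cz P).mul_mem_cancel_left hu.2]
      by_cases hs : (s * x⁻¹ ∈ Cz P ∧ s ∈ Cu u) ∧ ¬ p ∣ orderOf s
      · have h3 := hx.change (h2.2 hs.1.1)
        have h4 := sec_coset hp hx.idem hx.supp hx.fix h3.nz h3.cj (fun b => b * y⁻¹ ∈ Cz P)
          (fun k hk b => by rw [mul_assoc, (Cz P).mul_mem_cancel_left hk]) fun b hb => by
            have h5 := (coset_conj hx.nz hb _).2 ((coset_conj' hy.nz hc _).2 (h2.2 hs.1.1))
            rw [coset_change (h2.2 hs.1.1)]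
            convert h5 using 1
            group
        rw [pp_mul_eq hu.1 hs.2 (mem_Cu.1 hs.1.2), pq_mul_eq hu.1 hs.2 (mem_Cu.1 hs.1.2)] at h4
        simp only [if_pos hs]
        rw [if_pos ⟨hu.1, hs.1.2, hs.2⟩, if_pos (h2.2 hs.1.1)]
        convert h4 using 1
        refine Fintype.sum_equiv (Equiv.mulRight y) _ _ fun k => ?_
        rw [Equiv.coe_mulRight, mul_inv_cancel_right]
        refine if_congr Iff.rfl ?_ rfl
        group
      · simp only [if_neg hs, Finset.sum_const_zero]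
        split_ifs with h3 h4
        · exact absurd ⟨⟨h2.1 h4, h3.2.1⟩, h3.2.2⟩ hs
        all_goals rfl
    · refine Finset.sum_eq_zero fun s _ => ?_
      split_ifs with h3 h4
      · have h5 := pp_mem_of_pow hx.nz hn (Cz_anti hPD (hpow x ha.xT)) h4
        rw [pp_mul_eq h3.1 h3.2.2 (mem_Cu.1 h3.2.1)] at h5
        exact absurd ⟨h3.1, h5⟩ hu
      all_goals rfl
  have h2 : tau D c P x y = (Nat.card (Cz P) : ℂ)⁻¹ *
      ∑ a, if a * x⁻¹ ∈ Cz P then av (Cz P) (eP D c P) a (y * a * y⁻¹) else 0 := by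
    rw [Finset.mul_sum]
    exact Finset.sum_congr rfl fun a _ => by rw [mul_ite, mul_zero]
  rw [h2, h1, sec_pairs hp hK (fun t ht => hN ⟨⟨trivial, ht.2⟩, ht.1⟩) _
    fun k hk => secS_cj hx.nz hy.nz hk, inv_mul_cancel_left₀ (cardK_ne _), Finset.sum_filter,
    Finset.sum_filter]
  refine Finset.sum_congr rfl fun d _ => ?_
  by_cases hd : d ∈ D
  swap
  · rw [if_neg hd, if_neg fun e => hd e.1]
  rw [if_pos hd]
  split_ifs with e
  · rw [mu, eP, Cz_sup_zpowers]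
    exact secS_eq (by simp) (mem_Cu.2 e.2.1.symm) (by simp) (mem_Cu.2 e.2.2.symm) _
  by_contra h0
  obtain ⟨x', -, h3⟩ := Finset.exists_ne_zero_of_sum_ne_zero (right_ne_zero_of_mul h0)
  obtain ⟨⟨h4, -⟩, h5⟩ := ite_ne_right_iff.1 h3
  obtain ⟨y', -, h6⟩ := Finset.exists_ne_zero_of_sum_ne_zero h5
  obtain ⟨h7, -⟩ := ite_ne_right_iff.1 h6
  have h8 : ∀ z z' : G, z ∈ Nz (Cz P) → z' * z⁻¹ ∈ Cz P → z' ∈ Cu d → z' ∈ Nz (Cz P ⊓ Cu d) :=
    fun z z' a1 a2 a3 => by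
      rw [← cg_eq_iff, cg_inf, cg_eq_iff.2 (coset_nz a1 a2), bmax_cg_self a3]
  have h9 := hK.cu hp hd
  rw [secS_eq h4.1 h4.2 h7.1 h7.2] at h0
  refine h0 (muK_moved hp (h9.spec hp h9.le).1 (h8 x x' hx.nz h4.1 h4.2)
    (h8 y y' hy.nz h7.1 h7.2) (not_and_or.1 fun a => e ⟨hd, ?_, ?_⟩))
  · exact sec_fixed hp h hPD hN ha.xT ha.xN hd h4.1 h4.2 a.1
  · exact sec_fixed hp h hPD hN ha.yT ha.yN hd h7.1 h7.2 a.2

end Pool.Agent.Lib.MP_b6945b_al.Kx
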