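import Pool.Agent.Lib.MP_b6945b_al.Kx.RFin
import Pool.Agent.Lib.MP_b6945b_al.Kx.PMain

set_option autoImplicit false

/-!
The numbers of ordinary and of Brauer characters agree with those of the Brauer correspondent.
-/

namespace Pool.Agent.Lib.MP_b6945b_al.Kx

theorem kl_eq (p : ℕ) (hp : p.Prime) (n : ℕ) :
    ∃ N : ℕ, ∀ (G : Type) [Group G] [Finite G]
      (M : Ideal (integralClosure ℤ ℂ)), M.IsMaximal → (p : integralClosure ℤ ℂ) ∈ M →
      ∀ (χ : G → ℂ), IsIrrChar χ →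
      ∀ (D : Subgroup G), IsDefectGroup p M χ D → (∀ x ∈ D, ∀ y ∈ D, x * y = y * x) →
      Group.rank D ≤ n →
      (LargeMoved M χ D N ∨ ∀ x ∈ D, x ^ p = 1 → ∃ y ∈ D, y ^ p ^ N = x) →
      kInd M χ ⊤ = kInd M χ (Subgroup.normalizer (D : Set G)) ∧
        lInd p M χ ⊤ = lInd p M χ (Subgroup.normalizer (D : Set G)) :=
  haveI : Fact p.Prime := ⟨hp⟩
  kl_eq_large p hp (fun _ hV _ _ _ _ _ _ _ _ h a b => lL_kp hV h a b) n

end Pool.Agent.Lib.MP_b6945b_al.Kx
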