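import Pool.Agent.Lib.MP_b6945b_al.Kx.Defs

set_option autoImplicit false

/-!
A block covering a block of a normal subgroup has a defect group containing that of the covered
block.
-/

namespace Pool.Agent.Lib.MP_b6945b_al.Kx

open St Bi IsLocalRing Finset
open MonoidAlgebra (single)

lemma rcov_nak {R ι : Type} [Ring R] {x : R} (z : ι → R) (s : Finset ι)
    (hn : ∀ i ∈ s, IsNilpotent (z i)) (hx : ∀ i ∈ s, z i * x = x * z i)
    (hc : ∀ i ∈ s, ∀ j ∈ s, z i * z j = z j * z i) :
    ∀ w : ι → R, x = ∑ i ∈ s, z i * (x * w i) → x = 0 := by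
  classical
  induction s using Finset.induction_on with
  | empty => exact fun _ h => h.trans Finset.sum_empty
  | insert j s hj ih =>
    intro w h
    rw [Finset.sum_insert hj] at h
    have key : ∀ n : ℕ, ∃ (u : R) (w' : ι → R),
        x = z j ^ n * (x * u) + ∑ i ∈ s, z i * (x * w' i) := by
      intro n
      induction n with
      | zero => exact ⟨1, 0, by simp⟩
      | succ n ih2 =>
        obtain ⟨u, w', h2⟩ := ih2
        refine ⟨w j * u, fun i => z j ^ n * (w i * u) + w' i, ?_⟩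
        have h3 : z j ^ n * (x * u) = z j ^ (n + 1) * (x * (w j * u)) +
            ∑ i ∈ s, z i * (x * (z j ^ n * (w i * u))) := by
          conv_lhs => rw [h]
          rw [add_mul, mul_add, Finset.sum_mul, Finset.mul_sum, pow_succ]
          congr 1
          · simp only [mul_assoc]
          · refine Finset.sum_congr rfl fun i hi => ?_
            have c1 : Commute (z j) (z i) := hc j (mem_insert_self _ _) i (mem_insert_of_mem hi)
            have c2 : Commute (z j) x := hx j (mem_insert_self _ _)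
            rw [mul_assoc (z i), ← mul_assoc, (c1.pow_left n).eq, mul_assoc, mul_assoc x,
              ← mul_assoc (z j ^ n), (c2.pow_left n).eq, mul_assoc]
        simp only [mul_add, Finset.sum_add_distrib]
        rw [← add_assoc, ← h3]
        exact h2
    obtain ⟨n, h0⟩ := hn j (mem_insert_self _ _)
    obtain ⟨u, w', h2⟩ := key n
    rw [h0, zero_mul, zero_add] at h2
    exact ih (fun i hi => hn i (mem_insert_of_mem hi)) (fun i hi => hx i (mem_insert_of_mem hi))
      (fun i hi k hk => hc i (mem_insert_of_mem hi) k (mem_insert_of_mem hk)) w' h2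

section field
variable {k G : Type} [Field k] [Group G] {H K T : Subgroup G} {x y y' f : MonoidAlgebra k G}
  {a b : G}

/-- The component on the coset `a K`. -/
noncomputable def cq (K : Subgroup G) (a : G) (y : MonoidAlgebra k G) : MonoidAlgebra k G :=
  single a 1 * trc k K (single a⁻¹ 1 * y)

open Classical in
lemma coeff_cq (K : Subgroup G) (a : G) (y : MonoidAlgebra k G) (g : G) :
    (cq K a y).coeff g = if a⁻¹ * g ∈ K then y.coeff g else 0 := by
  rw [cq, MonoidAlgebra.coeff_single_mul_apply, one_mul, coeff_trc,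
    MonoidAlgebra.coeff_single_mul_apply, one_mul, inv_inv, mul_inv_cancel_left]

lemma sum_cq [Fintype (G ⧸ K)] (y : MonoidAlgebra k G) : ∑ q : G ⧸ K, cq K q.out y = y := by
  classical
  ext g
  rw [MonoidAlgebra.coeff_sum, Finset.sum_apply', Finset.sum_eq_single (g : G ⧸ K), coeff_cq,
    if_pos (QuotientGroup.eq.1 (QuotientGroup.out_eq' _))]
  · intro q _ hq
    rw [coeff_cq, if_neg fun e => hq (by rw [← QuotientGroup.eq.2 e, QuotientGroup.out_eq'])]
  · exact fun h => absurd (mem_univ _) h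

lemma cq_eq_zero (hKH : K ≤ H) (hy : Supp H y) (ha : a ∉ H) : cq K a y = 0 := by
  classical
  ext g
  rw [coeff_cq]
  split_ifs with e
  · by_contra h
    exact ha (H.inv_mem_iff.1 ((H.mul_mem_cancel_right (hy g h)).1 (hKH e)))
  · rfl

lemma fix_cq (ha : a ∈ Nz K) (hy : Fix K y) : Fix K (cq K a y) := by
  classical
  intro g hg
  ext u
  have h1 : a⁻¹ * g⁻¹ * a ∈ K := (Subgroup.mem_normalizer_iff''.1 ha _).1 (K.inv_mem hg)
  rw [coeff_cjRep, coeff_cq, coeff_cq, ← coeff_cjRep, hy g hg,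
    show a⁻¹ * (g⁻¹ * u * g) = a⁻¹ * g⁻¹ * a * (a⁻¹ * u) * g by group]
  exact if_congr (by rw [K.mul_mem_cancel_right hg, K.mul_mem_cancel_left h1]) rfl rfl

/-- Supported on the coset `a K`. -/
def Hom (K : Subgroup G) (a : G) (y : MonoidAlgebra k G) : Prop := Supp K (single a⁻¹ 1 * y)

lemma hom_cq (K : Subgroup G) (a : G) (y : MonoidAlgebra k G) : Hom K a (cq K a y) := by
  rw [Hom, cq, ← mul_assoc, MonoidAlgebra.single_mul_single, inv_mul_cancel, mul_one,
    ← MonoidAlgebra.one_def, one_mul]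
  exact supp_trc _ _

lemma hom_one (K : Subgroup G) : Hom K 1 (1 : MonoidAlgebra k G) := by
  rw [Hom, mul_one]
  exact supp_single (K.inv_mem K.one_mem) _

variable [Fintype G]

lemma Hom.mul (h : Hom K a y) (h' : Hom K b y') (hb : b ∈ Nz K) : Hom K (a * b) (y * y') := by
  have h1 := Supp.cj h b⁻¹
  rw [cg_eq_iff.2 ((Nz K).inv_mem hb)] at h1
  have h2 := h1.mul h'
  rw [← mul_assoc, ← single_mul_cj, ← mul_assoc, MonoidAlgebra.single_mul_single, mul_one,
    mul_assoc] at h2
  rwa [Hom, mul_inv_rev]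

lemma Hom.supp (h : Hom K a y) (ha : a ∈ K) : Supp K y := by
  have h1 := (supp_single ha (1 : k)).mul h
  rwa [← mul_assoc, MonoidAlgebra.single_mul_single, mul_inv_cancel, mul_one,
    ← MonoidAlgebra.one_def, one_mul] at h1

lemma Hom.mul_comm (h : Hom K a y) (hz : Fix K y') : y * y' = cjRep k G a y' * y := by
  have h1 : y = single a 1 * (single a⁻¹ 1 * y) := by
    rw [← mul_assoc, MonoidAlgebra.single_mul_single, mul_inv_cancel, mul_one,
      ← MonoidAlgebra.one_def, one_mul]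
  rw [h1, mul_assoc, ← hz.comm h, ← mul_assoc, single_mul_cj, mul_assoc]

lemma cq_mul (hf : Supp K f) (a : G) (y : MonoidAlgebra k G) : cq K a y * f = cq K a (y * f) := by
  rw [cq, cq, mul_assoc, ← trc_mul_right hf, mul_assoc]

lemma brT_cq (h : brT k (T : Set G) y = 0) (a : G) : brT k (T : Set G) (cq K a y) = 0 := by
  classical
  ext g
  have h1 : (brT k (T : Set G) y).coeff g = 0 := by rw [h]; rfl
  rw [coeff_brT] at h1 ⊢
  rw [coeff_cq]
  split_ifs at h1 ⊢ with e1 e2
  · exact h1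
  · rfl
  · rfl

theorem rcov_zero {p : ℕ} (hp : p.Prime) (hpk : (p : k) = 0) (hKH : K ≤ H) (hn : H ≤ Nz K)
    (hT : IsPGroup p T) (hTK : T ≤ K) (hf : Supp K f)
    (hnil : ∀ y, Supp K y → Fix K y → y * f = y → brT k (T : Set G) y = 0 → IsNilpotent y)
    (hx : x * x = x) (hs : Supp H x) (hfx : Fix K x) (hxf : x * f = x)
    (h0 : brT k (T : Set G) x = 0) : x = 0 := by
  classical
  let _ : Fintype (G ⧸ K) := Fintype.ofFinite _
  obtain ⟨J, hJ⟩ : ∃ J, J = Submodule.span (MonoidAlgebra k G)ᵐᵒᵖ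
    {z : MonoidAlgebra k G | Supp K z ∧ Fix K z ∧ IsNilpotent z} := ⟨_, rfl⟩
  have key : ∀ (n : ℕ) (U : Finset (G ⧸ K)) (a : G) (w : MonoidAlgebra k G),
      Fintype.card (G ⧸ K) < U.card + n → a ∈ H → Hom K a w →
      (∀ u ∈ U, ∃ a1 a2 w1 w2, a1 ∈ H ∧ a2 ∈ H ∧ Hom K a1 w1 ∧ Hom K a2 w2 ∧ Fix K w2 ∧
        w = w1 * w2 ∧ a = a1 * a2 ∧ (a1 : G ⧸ K) = u) → w * x ∈ J := by
    intro n
    induction n with
    | zero => exact fun U _ _ h => absurd (Finset.card_le_univ U) (not_le.2 h)
    | succ n ih =>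
      intro U a w hU ha hw hu
      have e1 : w * x = ∑ q : G ⧸ K, w * cq K q.out x * x := by
        rw [← Finset.sum_mul, ← Finset.mul_sum, sum_cq, mul_assoc, hx]
      rw [e1]
      refine J.sum_mem fun q _ => ?_
      by_cases hq : q.out ∈ H
      swap
      · rw [cq_eq_zero hKH hs hq, mul_zero, zero_mul]
        exact J.zero_mem
      have f1 := fix_cq (hn hq) hfx
      by_cases e : ((a * q.out : G) : G ⧸ K) ∈ U
      · obtain ⟨a1, a2, w1, w2, b1, -, b3, b4, b5, rfl, rfl, b8⟩ := hu _ e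
        have h1 : a2 * q.out ∈ K := by
          have h2 := QuotientGroup.eq.1 b8
          rwa [mul_assoc, inv_mul_cancel_left] at h2
        have h2 := (b4.mul (hom_cq K q.out x) (hn hq)).supp h1
        have h3 := b5.mul f1
        have h4 := hnil _ h2 h3 (by rw [mul_assoc, cq_mul hf, hxf]) (by
          rw [frpg_brT_mul hp hpk hT (b5.mono hTK) (f1.mono hTK), brT_cq h0, mul_zero])
        have h5 := h2.cj a1
        have h6 := h3.cj a1
        rw [cg_eq_iff.2 (hn b1)] at h5 h6
        rw [mul_assoc w1, b3.mul_comm h3, mul_assoc, hJ]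
        refine Submodule.smul_mem _ (MulOpposite.op (w1 * x)) (Submodule.subset_span ⟨h5, h6, ?_⟩)
        obtain ⟨j, hj⟩ := h4
        exact ⟨j, by rw [← frpg_cj_pow, hj, map_zero]⟩
      · refine ih (insert _ U) (a * q.out) _ (by rw [Finset.card_insert_of_notMem e]; omega)
          (H.mul_mem ha hq) (hw.mul (hom_cq K q.out x) (hn hq)) fun u hu' => ?_
        rcases mem_insert.1 hu' with rfl | hu'
        · exact ⟨a * q.out, 1, _, 1, H.mul_mem ha hq, H.one_mem,
            hw.mul (hom_cq K q.out x) (hn hq), hom_one K, fix_one K, (mul_one _).symm,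
            (mul_one _).symm, rfl⟩
        · obtain ⟨a1, a2, w1, w2, b1, b2, b3, b4, b5, rfl, rfl, b8⟩ := hu _ hu'
          exact ⟨a1, a2 * q.out, w1, _, b1, H.mul_mem b2 hq, b3,
            b4.mul (hom_cq K q.out x) (hn hq), b5.mul f1, mul_assoc _ _ _, mul_assoc _ _ _, b8⟩
  have h1 := key (Fintype.card (G ⧸ K) + 1) ∅ 1 1 (by simp) H.one_mem (hom_one K)
    fun u hu => absurd hu (Finset.notMem_empty u)
  rw [one_mul, hJ] at h1
  obtain ⟨n, w, z, h2⟩ := Submodule.mem_span_set'.1 h1
  have h3 : ∀ i, (z i : MonoidAlgebra k G) * x = x * z i := fun i => (hfx.comm (z i).2.1).symm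
  refine rcov_nak (fun i => (z i : MonoidAlgebra k G)) univ (fun i _ => (z i).2.2.2)
    (fun i _ => h3 i) (fun i _ j _ => (z i).2.2.1.comm (z j).2.1) (fun i => (w i).unop) ?_
  conv_lhs => rw [← hx]
  nth_rewrite 2 [← h2]
  rw [Finset.mul_sum]
  refine Finset.sum_congr rfl fun i _ => ?_
  rw [← mul_assoc, h3, mul_assoc]
  rfl

end field

variable {G : Type} [Group G] [Fintype G] {V : ValuationSubring ℂ} {p : ℕ} [Fact p.Prime]
  {H K T : Subgroup G} {f ε : MonoidAlgebra V G}

theorem bb_ne_of_cover' (hp : (p : ℂ) ∈ V.nonunits) (hKH : K ≤ H) (hn : H ≤ Nz K)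
    (hf : HB K f) (hε : ε * ε = ε) (hs : Supp H ε) (hx : Fix H ε) (h0 : ε * f ≠ 0)
    (hT : IsPGroup p T) (hTK : T ≤ K) (hb : bb T f ≠ 0) : bb T ε ≠ 0 := by
  intro e
  have hc : ε * f = f * ε := hx.comm (hf.supp.mono hKH)
  have hi : ε * f * (ε * f) = ε * f := by
    rw [mul_assoc, ← mul_assoc f, ← hc, mul_assoc, hf.idem, ← mul_assoc, hε]
  have f2 : Fix T f := hf.fix.mono hTK
  refine res_ne_of_idem hi h0 (rcov_zero (f := toRes V G f) Fact.out (bil_pk hp) hKH hn hT hTK
    hf.supp.toRes (fun y h1 h2 h3 h4 => ?_) (by rw [← map_mul, hi])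
    (hs.mul (hf.supp.mono hKH)).toRes ((hx.mono hKH).mul hf.fix).toRes
    (by rw [← map_mul, mul_assoc, hf.idem]) ?_)
  · obtain ⟨w, hw, h5, h6⟩ := exists_lift_supp (R := V) y
    obtain ⟨v, hv⟩ := hf.loc w (h5 K h1) (h6 K h2)
    have h7 := bb_nil hp hT ((((h6 K h2).mono hTK).mul f2).sub (f2.smul v)) hv
    rw [bb_sub, bb_smul, bb, map_mul, hw, h3, h4, zero_sub] at h7
    have h8 : residue V v = 0 := by
      by_contra e0
      have h9 := h7.neg.smul (residue V v)⁻¹
      rw [neg_neg, inv_smul_smul₀ e0] at h9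
      exact hb (IsIdempotentElem.eq_zero_of_isNilpotent (bb_idem hp hT hf.idem f2) h9)
    rwa [nilR_iff_res, map_sub, map_mul, hw, h3, ← bb_bot (v • f), bb_smul, h8, zero_smul,
      sub_zero] at hv
  · exact (bb_mul hp hT (hx.mono (hTK.trans hKH)) f2).trans (by rw [e, zero_mul])

end Pool.Agent.Lib.MP_b6945b_al.Kx
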