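import Pool.Agent.Lib.MP_b6945b_al.Kx.RQuot
import Pool.Agent.Lib.MP_b6945b_al.MoveDefs

set_option autoImplicit false

/-!
Translation to characters.
-/

namespace Pool.Agent.Lib.MP_b6945b_al.Kx

open St Bi IsLocalRing Finset

variable {G : Type} [Group G] [Fintype G] {V : ValuationSubring ℂ} {p : ℕ} [Fact p.Prime]
  {M : Ideal (integralClosure ℤ ℂ)} {m N : ℕ} {D P L : Subgroup G} {c e β : MonoidAlgebra V G}
  {I : IrrData G} {i : Fin I.n}

omit [Fact p.Prime] in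
lemma cfs_top_eq (he : IsBlockIdem I i e) :
    CFs ⊤ e = Submodule.span ℂ (Set.range fun j : {j // I.Bl V i j} => I.χ j) := by
  classical
  refine le_antisymm (fun x hx => ?_) (Submodule.span_le.2 ?_)
  · rw [cfs_expand he hx]
    exact Submodule.sum_mem _ fun j _ =>
      Submodule.smul_mem _ _ (Submodule.subset_span ⟨j, rfl⟩)
  · rintro _ ⟨j, rfl⟩
    exact chi_mem_CFs he j.2

lemma lInd_eq (hM : CoefB p M V) (he : IsBlockIdem I i e) (hP : IsPGroup p P) (hPL : P ≤ L)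
    (hL : L ≤ Nz P) (hC : Cz P ≤ L) (hβ : HB L β) (hu : ∀ γ, HB L γ → (Le P e γ ↔ γ = β)) :
    lInd p M (I.χ i) L = lL p L β := by
  have hp := hM.nonunit
  let _ : Fintype L := Fintype.ofFinite L
  obtain ⟨I'⟩ := exists_irrData L
  choose f hf using St.exists_blockIdem (V := V) I'
  obtain ⟨k, hk⟩ := hβ.pull.exists_blockIdem I'
  have h1 := lL_inc p L.subtype_injective (supp_top (St.pull V L.subtype β))
  rw [map_top_sub, inc_pull_supp hβ.supp] at h1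
  have h2 : ∀ j, IndTo M (I.χ i) L (I'.χ j) ↔ I'.Bl V k j := fun j => by
    rw [kr1b_indTo_iff hM.iff, cblk_iff hp he hP hPL hL
      (fun g hg => hC (mem_Cz.2 fun u hu => (hg u hu).symm)) (hf j),
      hu _ (hb_inc_top (hb_of_blockIdem (hf j))), ← cblk_eq_iff hk (hf j)]
    constructor
    · rintro rfl
      exact pull_inc L.subtype_injective _
    · intro h
      rw [← h, inc_pull_supp hβ.supp]
  have h3 : ∀ ψ : L → ℂ, Reg p ψ = fun h => if p ∣ orderOf h then 0 else ψ h := fun ψ =>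
    funext fun h => if_congr Iff.rfl rfl rfl
  rw [h1, lL, cfs_top_eq hk, Submodule.map_span, lInd]
  refine congrArg (fun s : Set (L → ℂ) => Module.finrank ℂ (Submodule.span ℂ s)) (Set.ext fun x => ?_)
  constructor
  · rintro ⟨ψ, a, b, rfl⟩
    obtain ⟨j, rfl⟩ := (isIrrChar_iff I').1 a
    exact ⟨_, ⟨⟨j, (h2 j).1 b⟩, rfl⟩, h3 _⟩
  · rintro ⟨_, ⟨j, rfl⟩, rfl⟩
    exact ⟨_, (isIrrChar_iff I').2 ⟨j, rfl⟩, (h2 j).2 j.2, h3 _⟩

theorem lInd_eq_lL (hM : CoefB p M V) (h : Rt p m ⊤ D c) (he : IsBlockIdem I i (bk D c ⊤)) :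
    lInd p M (I.χ i) ⊤ = lL p ⊤ (bk D c ⊤) ∧
      lInd p M (I.χ i) (Nz D) = lL p (Nz D) (bk D c (Nz D)) := by
  have hp := hM.nonunit
  have hb := (h.spec hp h.le).1
  have key : ∀ L : Subgroup G, Cz D ≤ L → ∀ P ≤ D, L ≤ Nz P → Cz P ≤ L →
      Le P (bk D c ⊤) (bk D c L) := fun L h1 P h2 h3 h4 =>
    (h.local hp h2 (inf_le_right.trans h4) le_top h3).below hp h2 le_top
      (inf_le_right.trans h4) le_top h3
  constructor
  · refine lInd_eq hM he (P := ⊥) IsPGroup.of_bot bot_le (Subgroup.normalizer_eq_top ⊥).ge le_top hb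
      fun γ hγ => ⟨fun a => le_unique hp IsPGroup.of_bot bot_le hγ hb hγ.res_ne ?_ a, ?_⟩
    · rw [Le, bb_bot, ← map_mul, hγ.idem]
    · rintro rfl
      rw [Le, bb_bot, ← map_mul, hb.idem]
  · refine lInd_eq hM he h.pD Subgroup.le_normalizer le_rfl (Cz_le_Nz D)
      (h.spec hp (Cz_le_Nz D)).1 fun γ hγ => ⟨fun a => ?_, ?_⟩
    · have h1 := h.bk_unique hp (by rwa [top_inf_eq]) a
      rwa [top_inf_eq] at h1
    · rintro rfl
      exact key _ (Cz_le_Nz D) D le_rfl le_rfl (Cz_le_Nz D)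

lemma mv_of_largeMoved (hM : CoefB p M V) (h : Rt p m ⊤ D c) (he : IsBlockIdem I i (bk D c ⊤))
    (hl : LargeMoved M (I.χ i) D N) : Mv N ⊤ D c := by
  intro t ht
  have hp := hM.nonunit
  have hj := h.root
  have hs := supp_Cz_iff.1 hj.supp
  let _ : Fintype (Cz D) := Fintype.ofFinite _
  obtain ⟨I'⟩ := exists_irrData (Cz D)
  obtain ⟨l, h1⟩ := exists_om_of_idemB I' (j := St.pull V (Cz D).subtype c) hj.pull.idem hj.pull.ne
  have h2 := indV_of_belowB hp he h.pD rfl hs ((le_iff_inMax hj.supp).1 (h.spec hp h.le).2) h1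
  have h3 := hl (I'.χ l) ((isIrrChar_iff I').2 ⟨l, rfl⟩) ((kr1b_indTo_iff hM.iff I i I' l).2 h2)
    t ht.2.1 (bcls_stab hM.iff hj h1 ht.2.1 ht.2.2)
  have h4 : Subgroup.centralizer {t} = Cu t := Subgroup.ext fun x => by
    rw [Subgroup.mem_centralizer_singleton_iff, mem_Cu, eq_comm]
  rwa [h4] at h3

lemma mv_of_pow (hp : (p : ℂ) ∈ V.nonunits) (h : Rt p m ⊤ D c)
    (hl : ∀ x ∈ D, x ^ p = 1 → ∃ y ∈ D, y ^ p ^ N = x) : Mv N ⊤ D c := by
  intro t ht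
  refine or_iff_not_imp_right.2 fun hN => ?_
  have hq : p.Prime := Fact.out
  obtain ⟨E, h1, -, h3, -⟩ := exists_inertial (D := D) (T := stabT ⊤ D c)
    (fun n hn => hn.2.1) h.Cz_le_stab
  have h4 : ¬ p ∣ Nat.card E := fun hE => not_dvd_inert hp h (by
    have h5 := Subgroup.index_mul_card ((Cz D).subgroupOf (stabT ⊤ D c))
    rw [Nat.card_congr (Subgroup.subgroupOfEquivOfLe h.Cz_le_stab).toEquiv, ← h1] at h5
    exact hE.trans (Nat.eq_of_mul_eq_mul_right Nat.card_pos h5).symm.dvd)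
  obtain ⟨g, hg⟩ := h3 t ht
  obtain ⟨k, hk⟩ := IsPGroup.iff_card.1 h.pD
  obtain ⟨j, -, hj⟩ := (Nat.dvd_prime_pow hq).1 (hk ▸ Subgroup.relIndex_dvd_card (Cu t) D)
  have h5 : j ≤ N := ((Nat.lt_pow_self hq.one_lt).trans_le (hj ▸ not_lt.1 hN)).le
  have h6 : (g : MulAut D) = 1 := by
    refine laut_eq_one hq (fun a b => Subtype.ext (h.comm _ a.2 _ b.2)) h.pD _
      (fun e => h4 (e.trans ?_)) fun x hx => Subtype.ext ?_
    · rw [Subgroup.orderOf_coe]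
      exact orderOf_dvd_natCard _
    · obtain ⟨y, hy, e⟩ := hl x x.2 (congrArg Subtype.val hx)
      have : ((Cu t).subgroupOf D).Normal := ⟨fun a ha b => by
        rwa [show b * a * b⁻¹ = a from Subtype.ext (by
          rw [Subgroup.coe_mul, Subgroup.coe_mul, h.comm _ b.2 _ a.2, Subgroup.coe_inv,
            mul_inv_cancel_right])]⟩
      have h7 : y ^ (Cu t).relIndex D ∈ Cu t := ((Cu t).subgroupOf D).pow_index_mem ⟨y, hy⟩
      obtain ⟨r, hr⟩ := pow_dvd_pow p h5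
      have h8 := (Cu t).pow_mem h7 r
      rw [← pow_mul, hj, ← hr, e] at h8
      rw [hg, mem_Cu.1 h8, mul_inv_cancel_right]
  refine mem_Cz.2 fun d hd => ?_
  have h7 := hg ⟨d, hd⟩
  rw [h6] at h7
  exact mul_inv_eq_iff_eq_mul.1 h7.symm

theorem kl_eq_large (p : ℕ) (hp : p.Prime)
    (hK : ∀ V : ValuationSubring ℂ, (p : ℂ) ∈ V.nonunits → KP p V) (n : ℕ) :
    ∃ N : ℕ, ∀ (G : Type) [Group G] [Finite G]
      (M : Ideal (integralClosure ℤ ℂ)), M.IsMaximal → (p : integralClosure ℤ ℂ) ∈ M →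
      ∀ (χ : G → ℂ), IsIrrChar χ →
      ∀ (D : Subgroup G), IsDefectGroup p M χ D → (∀ x ∈ D, ∀ y ∈ D, x * y = y * x) →
      Group.rank D ≤ n →
      (LargeMoved M χ D N ∨ ∀ x ∈ D, x ^ p = 1 → ∃ y ∈ D, y ^ p ^ N = x) →
      kInd M χ ⊤ = kInd M χ (Subgroup.normalizer (D : Set G)) ∧
        lInd p M χ ⊤ = lInd p M χ (Subgroup.normalizer (D : Set G)) := by
  have : Fact p.Prime := ⟨hp⟩
  obtain ⟨N, hN⟩ := lL_reduce p (p ^ n)
  refine ⟨N, fun G _ _ M hM hpM χ hχ D hD hc hn hl => ?_⟩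
  let _ : Fintype G := Fintype.ofFinite G
  obtain ⟨V, hV⟩ := exists_val_of_maximal M hM
  have hB : CoefB p M V := ⟨hp, hM, hpM, hV⟩
  obtain ⟨I⟩ := exists_irrData G
  obtain ⟨i, rfl⟩ := (isIrrChar_iff I).1 hχ
  obtain ⟨c, h, he⟩ := exists_rt hB I i hD hc
  have h1 := hN M V hB (hK V hB.nonunit) G _ ⊤ D c h (om1_le_of_rank hp.pos D hc hn)
    (hl.elim (mv_of_largeMoved hB h he) (mv_of_pow hB.nonunit h))
  obtain ⟨h2, h3⟩ := kInd_eq_kL hB h he hD
  obtain ⟨h4, h5⟩ := lInd_eq_lL hB h he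
  rw [top_inf_eq] at h1
  exact ⟨h2.trans (h1.2.trans h3.symm), h4.trans (h1.1.trans h5.symm)⟩

/-- Nilpotent case: at most one Brauer character. -/
lemma lL_cz_le_one (hp : (p : ℂ) ∈ V.nonunits) (h : Rt p m ⊤ D c) (hP : P ≤ D)
    (hN : stabT ⊤ D c ⊓ Cz P ≤ Cz D) : lL p (Cz P) (bk D c (Cz P)) ≤ 1 := by
  let _ : Fintype (Cz P) := Fintype.ofFinite _
  have h1 : Rt p 1 (Cz P) D c := lind_inert
    (h.local hp hP inf_le_right le_top (Cz_le_Nz P)) (by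
      rw [one_mul]
      exact Subgroup.card_le_of_le fun t ht => hN ⟨⟨trivial, ht.2⟩, ht.1⟩)
  rw [lind_pull hp h1]
  exact lL_le_one hp _ _ (Nat.lt_succ_self _) _ _ (h1.pull hp)

end Pool.Agent.Lib.MP_b6945b_al.Kx
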