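import Pool.Agent.Lib.MP_b6945b_al.Kx.RRoot
import Pool.Agent.Lib.MP_b6945b_al.Kx.Final

set_option autoImplicit false

/-!
Reduction to the case where the largest normal subgroup inside the defect group has small index.
-/

namespace Pool.Agent.Lib.MP_b6945b_al.Kx

open St Bi IsLocalRing Finset

lemma om1_relIndex {G : Type} [Group G] [Finite G] (p : ℕ) (S : Subgroup G) (h : IsAb S) :
    om1 p S = (mho p S h).relIndex S := by
  refine Nat.eq_of_mul_eq_mul_left (Nat.card_pos (α := mho p S h)) ?_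
  rw [om1_eq S h, ← card_eq_mho_mul_omg,
    ← Nat.card_congr (Subgroup.subgroupOfEquivOfLe (mho_le p S h)).toEquiv]
  exact (Subgroup.card_mul_index _).symm

lemma isAb_map {G G' : Type} [Group G] [Group G'] {S : Subgroup G} (h : IsAb S) (f : G →* G') :
    IsAb (S.map f) := by
  rintro _ ⟨x, hx, rfl⟩ _ ⟨y, hy, rfl⟩
  rw [← map_mul, ← map_mul, h x hx y hy]

lemma om1_map_le {G : Type} [Group G] [Finite G] (p : ℕ) {D Q : Subgroup G} [Q.Normal]
    (h : IsAb D) (hQD : Q ≤ D) : om1 p (D.map (qm Q)) ≤ om1 p D := by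
  have h1 : mho p (D.map (qm Q)) (isAb_map h _) = (mho p D h).map (qm Q) := by
    ext x
    constructor
    · rintro ⟨_, ⟨y, hy, rfl⟩, rfl⟩
      exact ⟨y ^ p, ⟨y, hy, rfl⟩, map_pow _ _ _⟩
    · rintro ⟨_, ⟨y, hy, rfl⟩, rfl⟩
      exact ⟨_, ⟨y, hy, rfl⟩, (map_pow _ _ _).symm⟩
  rw [om1_relIndex p _ (isAb_map h _), om1_relIndex p D h, h1, Subgroup.relIndex_map_map,
    QuotientGroup.ker_mk', sup_eq_left.2 hQD]
  exact Subgroup.relIndex_le_of_le_left le_sup_left Subgroup.index_ne_zero_of_finite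

lemma sum_chs_nz {G : Type} [Group G] [Fintype (Finset (Subgroup G))] {p : ℕ} {D : Subgroup G}
    (hD : IsPGroup p D) (hc : IsAb D) (h0 : D ≠ ⊥) (F : Subgroup G → ℤ) :
    ∑ σ ∈ chs p D, sgn σ * F (stab σ ⊓ Nz D) = 0 := by
  have key : ∀ σ ∈ chs p D, stab σ ⊓ Nz D ≤ stab (toggle D σ) ⊓ Nz D :=
    fun σ h g hg => ⟨mem_stab_toggle (mem_chs.1 h).1.1 hg.1 hg.2, hg.2⟩
  refine Finset.sum_involution (fun σ _ => toggle D σ) (fun σ h => ?_)
    (fun σ _ _ e => ?_) (fun σ h => toggle_mem_chs hD hc le_rfl h0 h) fun σ _ => toggle_toggle _ σ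
  · have h2 := key _ (toggle_mem_chs hD hc le_rfl h0 h)
    rw [toggle_toggle] at h2
    rw [sgn_toggle, le_antisymm h2 (key σ h)]
    ring
  · have h2 := sgn_toggle D σ
    rw [e] at h2
    exact sgn_ne_zero σ (by linarith)

theorem sum_wl_zero (p b : ℕ) [Fact p.Prime] : ∃ N : ℕ, ∀ (M : Ideal (integralClosure ℤ ℂ))
    (V : ValuationSubring ℂ), CoefB p M V → ∀ (G : Type) [Group G] [Fintype G]
    [Fintype (Finset (Subgroup G))] (m : ℕ) (D : Subgroup G) (c : MonoidAlgebra V G),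
    Rt p m ⊤ D c → om1 p D ≤ b → N < Nat.card D →
      ∑ σ ∈ chs p D, sgn σ * (wl p (stab σ) D c : ℤ) = 0 := by
  have hp : p.Prime := Fact.out
  obtain ⟨C, hC⟩ := lL_bound_rank p b
  refine ⟨b ^ (2 ^ 2 ^ b * C), fun M V hB G _ _ _ m D c h hb hN => ?_⟩
  obtain ⟨I⟩ := exists_irrData G
  obtain ⟨i, he⟩ := (h.spec hB.nonunit h.le).1.exists_blockIdem I
  have h1 := abs_KS_le hB h he fun H hH => hC V hB.nonunit G _ H D c hH hb
  obtain ⟨d, hd, hd'⟩ : ∃ d ∈ D, d ^ p ^ (2 ^ 2 ^ b * C) ≠ 1 := by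
    by_contra hno
    push Not at hno
    exact absurd (card_le_pow_of_exp _ D h.comm (om1_eq (p := p) D h.comm ▸ hb) hno) (not_le.2 hN)
  obtain ⟨v, hv, rfl, hab⟩ := exists_good_class hB.nonunit h hd he
  have h2 := KS_dvd_of_class hB I i v hv hab
  obtain ⟨k, hk⟩ := (h.pelt hd)
  obtain ⟨j, -, hj⟩ := (Nat.dvd_prime_pow hp).1 (orderOf_dvd_of_pow_eq_one hk)
  have h3 : 2 ^ 2 ^ b * C < j := by
    by_contra hle
    exact hd' (orderOf_dvd_iff_pow_eq_one.1 (hj ▸ pow_dvd_pow p (not_lt.1 hle)))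
  have h4 : 2 ^ 2 ^ om1 p D * C < orderOf (pp p v) :=
    calc 2 ^ 2 ^ om1 p D * C ≤ 2 ^ 2 ^ b * C := Nat.mul_le_mul_right _
          (Nat.pow_le_pow_right two_pos (Nat.pow_le_pow_right two_pos hb))
      _ < j := h3
      _ < p ^ j := Nat.lt_pow_self hp.one_lt
      _ = _ := hj.symm
  have h5 : KS p M (I.χ i) = 0 := by
    refine Int.eq_zero_of_abs_lt_dvd h2 (lt_of_le_of_lt h1 ?_)
    rw [mul_comm]
    exact mul_lt_mul_of_pos_right (by exact_mod_cast h4) (by exact_mod_cast Nat.card_pos)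
  have h6 := card_mul_KS hB h he
  rw [h5, mul_zero, sum_wk_eq hB.nonunit h] at h6
  rw [sum_chs_omg h.pD h.comm fun K => (wl p K D c : ℤ)]
  exact (mul_eq_zero.1 h6.symm).resolve_left (Nat.cast_ne_zero.2 Nat.card_pos.ne')

variable {G : Type} [Group G] [Fintype G] {V : ValuationSubring ℂ} {p : ℕ} [Fact p.Prime]
  {m : ℕ} {D Q : Subgroup G} {c : MonoidAlgebra V G}

lemma step_aux [Q.Normal] [Fintype (G ⧸ Q)] [Fintype (Finset (Subgroup (G ⧸ Q)))]
    (hp : (p : ℂ) ∈ V.nonunits) (h : Rt p m ⊤ D c) (hQD : Q ≤ D)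
    (hQ : ∀ R : Subgroup G, R.Normal → R ≤ D → R ≤ Q) (hD : D.map (qm Q) ≠ ⊥)
    (h0 : ∀ γ : MonoidAlgebra V (G ⧸ Q), Rt p m ⊤ (D.map (qm Q)) γ →
      ∑ σ ∈ chs p (D.map (qm Q)), sgn σ * (wl p (stab σ) (D.map (qm Q)) γ : ℤ) = 0)
    (ih : ∀ (K : Subgroup G), K ≠ ⊤ → ∀ g ∈ Nz D, Rt p m K D (cjRep V G g c) →
      lL p K (bk D (cjRep V G g c) K) = lL p (K ⊓ Nz D) (bk D (cjRep V G g c) (K ⊓ Nz D))) :
    lL p ⊤ (bk D c ⊤) = lL p (Nz D) (bk D c (Nz D)) := by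
  classical
  have hs := QuotientGroup.mk'_surjective Q
  have he := (h.spec hp h.le).1
  have hc : c ∈ rts D (bk D c ⊤) := mem_rts.2 ⟨h.root, (h.spec hp h.le).2⟩
  have hr : ∀ c' ∈ rts D (bk D c ⊤), Rt p m ⊤ D c' ∧ ∃ g ∈ Nz D, c' = cjRep V G g c :=
    fun c' hc' => by
      obtain ⟨g, -, hg, rfl⟩ := h.root_conj' hp (mem_rts.1 hc').1 (mem_rts.1 hc').2
      have h1 := (cdbl_rt hp h g).1
      rw [cg_eq_iff.2 hg] at h1
      exact ⟨h1, g, hg, rfl⟩
  have hq : ∀ γ ∈ rts (D.map (qm Q)) (inc V (qm Q) (bk D c ⊤)), Rt p m ⊤ (D.map (qm Q)) γ :=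
    fun γ hγ => by
      have h1 := (h.dom_rt hp h le_top hQD (mem_rts.1 hγ).1 (mem_rts.1 hγ).2).1
      rwa [map_top_qm] at h1
  obtain ⟨F, hF⟩ : ∃ F : Subgroup (G ⧸ Q) → ℤ, ∀ L,
      F L = (∑ c' ∈ rts D (bk D c ⊤), wl p (L.comap (qm Q)) D c' : ℕ) := ⟨_, fun _ => rfl⟩
  have hP : ∀ σ ∈ chs p (D.map (qm Q)), (σ.sup id).comap (qm Q) ≤ D ∧
      (stab σ).comap (qm Q) ≤ Nz ((σ.sup id).comap (qm Q)) := fun σ hσ => by
    refine ⟨fun x hx => (mem_map_qm hQD).1 (Finset.sup_le (mem_chs.1 hσ).2 hx), fun g hg => ?_⟩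
    rw [Nz, ← Subgroup.comap_normalizer_eq_of_surjective _ hs]
    exact (top_spec (mem_chs.1 hσ).1).2.1 hg
  have hl : ∀ σ ∈ chs p (D.map (qm Q)), ∀ c' ∈ rts D (bk D c ⊤),
      Rt p m ((stab σ).comap (qm Q)) D c' := fun σ hσ c' hc' => by
    refine (hr c' hc').1.local hp (hP σ hσ).1
      (fun g hg => (top_spec (mem_chs.1 hσ).1).2.2 _ fun u hu => ?_) le_top (hP σ hσ).2
    obtain ⟨u, rfl⟩ := hs u
    rw [← map_mul, ← map_mul, mem_Cz.1 hg.2 u hu]
  have e1 : ∑ σ ∈ chs p (D.map (qm Q)), sgn σ * F (stab σ) = 0 := by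
    have h1 : ∀ σ ∈ chs p (D.map (qm Q)), sgn σ * F (stab σ) =
        Nat.card Q * ∑ γ ∈ rts (D.map (qm Q)) (inc V (qm Q) (bk D c ⊤)),
          sgn σ * (wl p (stab σ) (D.map (qm Q)) γ : ℤ) := fun σ hσ => by
      have h2 := sum_wl_quot hp (hl σ hσ c hc) hQD he.idem (he.fix.mono le_top) (hl σ hσ)
        (by
          rw [map_comap_qm]
          exact fun g hg => (top_spec (mem_chs.1 hσ).1).2.2 g fun u hu =>
            (mem_Cz.1 hg u (Finset.sup_le (mem_chs.1 hσ).2 hu)).symm)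
        (by
          rw [map_comap_qm]
          exact fun γ hγ => rt_chs hp (hq γ hγ) hσ)
      rw [map_comap_qm] at h2
      rw [hF, h2, ← Finset.mul_sum]
      push_cast
      ring
    rw [Finset.sum_congr rfl h1, ← Finset.mul_sum, Finset.sum_comm,
      Finset.sum_eq_zero fun γ hγ => h0 γ (hq γ hγ), mul_zero]
  have e2 := sum_chs_nz (h.pD.map _) (isAb_map h.comm _) hD F
  have hN : ∀ L : Subgroup (G ⧸ Q), (L ⊓ Nz (D.map (qm Q))).comap (qm Q) =
      L.comap (qm Q) ⊓ Nz D := fun L => by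
    rw [Subgroup.comap_inf, Nz_map_qm hQD, Subgroup.comap_map_eq_self
      ((QuotientGroup.ker_mk' Q).trans_le (hQD.trans Subgroup.le_normalizer))]
  have h1 : ∅ ∈ chs p (D.map (qm Q)) := mem_chs.2 ⟨⟨by simp, by simp⟩, by simp⟩
  have e3 : ∀ σ ∈ (chs p (D.map (qm Q))).erase ∅,
      sgn σ * F (stab σ) = sgn σ * F (stab σ ⊓ Nz (D.map (qm Q))) := fun σ hσ => by
    obtain ⟨h2, h3⟩ := mem_erase.1 hσ
    rw [hF, hF, hN]
    refine congrArg (fun t : ℕ => sgn σ * (t : ℤ)) (Finset.sum_congr rfl fun c' hc' => ?_)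
    obtain ⟨-, g, hg, rfl⟩ := hr c' hc'
    rw [wl, wl, stabT_inf, ih _ (fun e => ?_) g hg (hl σ h3 _ hc')]
    obtain ⟨R, hR⟩ := Finset.nonempty_iff_ne_empty.2 h2
    have h4 := Subgroup.map_mono (f := qm Q) (hQ _ (Subgroup.normalizer_eq_top_iff.1
      (top_le_iff.1 (e.ge.trans (hP σ h3).2))) (hP σ h3).1)
    rw [map_comap_qm, map_self_qm] at h4
    exact ((mem_chs.1 h3).1.2 R hR).2 (le_bot_iff.1 ((Finset.le_sup (f := id) hR).trans h4))
  rw [← Finset.add_sum_erase _ _ h1] at e1 e2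
  rw [Finset.sum_congr rfl e3, ← e2, add_left_inj, mul_right_inj' (sgn_ne_zero _), hF, hF, hN,
    stab_empty, Subgroup.comap_top, Nat.cast_inj] at e1
  have e4 : ∀ K, Nz D ≤ K → ∑ c' ∈ rts D (bk D c ⊤), wl p K D c' =
      (∑ c' ∈ rts D (bk D c ⊤), Nat.card (stabT (Nz D) D c')) * lL p K (bk D c K) := by
    intro K hK
    rw [Finset.sum_mul]
    refine Finset.sum_congr rfl fun c' hc' => ?_
    obtain ⟨-, g, hg, rfl⟩ := hr c' hc'
    rw [wl, h.bk_root_conj hp ((Cz_le_Nz D).trans hK) (hK hg) hg, ← stabT_inf, inf_eq_right.2 hK]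
  rw [top_inf_eq, e4 ⊤ le_top, e4 _ le_rfl] at e1
  exact Nat.eq_of_mul_eq_mul_left (Finset.sum_pos (fun _ _ => Nat.card_pos) ⟨c, hc⟩) e1

/-- Every element of the stabiliser centralises `D` or has a centraliser of index greater than `N`
in `D`. -/
def Mv (N : ℕ) (H D : Subgroup G) (c : MonoidAlgebra V G) : Prop :=
  ∀ t ∈ stabT H D c, t ∈ Cz D ∨ N < (Cu t).relIndex D

omit [Fintype G] in
lemma Mv.mono {N : ℕ} {H K : Subgroup G} (h : Mv N H D c) (hK : K ≤ H) : Mv N K D c :=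
  fun t ht => h t (stabT_mono hK D c ht)

omit [Fintype G] in
lemma Mv.cj {N : ℕ} (h : Mv N ⊤ D c) {g : G} (hg : g ∈ Nz D) : Mv N ⊤ D (cjRep V G g c) := by
  intro t ht
  have h1 := stabT_conj g ⊤ D c
  rw [cg_top, cg_eq_iff.2 hg] at h1
  rw [h1] at ht
  obtain ⟨s, hs, rfl⟩ := ht
  rw [← cg_eq_iff.2 hg, Cz_cg]
  refine (h s hs).imp (fun e => ⟨s, e, rfl⟩) fun e => ?_
  rwa [← Subgroup.relIndex_map_map_of_injective (f := (MulAut.conj g).toMonoidHom) _ _
    (MulAut.conj g).injective, ← cg, ← Cu_conj] at e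

omit [Fact p.Prime] in
lemma Mv.pull {N : ℕ} {H : Subgroup G} [Fintype H] (hm : Mv N H D c) (h : Rt p m H D c) :
    Mv N ⊤ (D.subgroupOf H) (St.pull V H.subtype c) := by
  intro t ht
  refine (hm t (h.stab_map ▸ ⟨t, ht, rfl⟩)).elim
    (fun e => Or.inl (mem_Cz.2 fun d hd => Subtype.ext (mem_Cz.1 e d hd))) fun e => Or.inr ?_
  rwa [← Subgroup.relIndex_map_map_of_injective _ _ H.subtype_injective, map_Cu, h.map_sub,
    ← Subgroup.inf_relIndex_right, inf_right_comm, inf_eq_right.2 h.le_H, inf_comm,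
    Subgroup.inf_relIndex_right]

/-- The statement for blocks covering a nilpotent block of the centraliser of a normal subgroup. -/
def KP (p : ℕ) (V : ValuationSubring ℂ) : Prop :=
  ∀ (G : Type) [Group G] [Fintype G] (m : ℕ) (D Q : Subgroup G) (c : MonoidAlgebra V G),
    Q.Normal → Rt p m ⊤ D c → Q ≤ D → stabT ⊤ D c ⊓ Cz Q ≤ Cz D →
      lL p ⊤ (bk D c ⊤) = lL p (Nz D) (bk D c (Nz D))

theorem lL_reduce (p b : ℕ) [Fact p.Prime] : ∃ N : ℕ, ∀ (M : Ideal (integralClosure ℤ ℂ))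
    (V : ValuationSubring ℂ), CoefB p M V → KP p V →
    ∀ (G : Type) [Group G] [Fintype G] (m : ℕ) (H D : Subgroup G) (c : MonoidAlgebra V G),
      Rt p m H D c → om1 p D ≤ b → Mv N H D c →
      lL p H (bk D c H) = lL p (H ⊓ Nz D) (bk D c (H ⊓ Nz D)) ∧
        kL H (bk D c H) = kL (H ⊓ Nz D) (bk D c (H ⊓ Nz D)) := by
  obtain ⟨N, hN⟩ := sum_wl_zero p b
  refine ⟨max N 1, fun M V hM hB => ?_⟩
  have hp := hM.nonunit
  have key : ∀ (n : ℕ) (G : Type) [Group G] [Fintype G] (m : ℕ) (H D : Subgroup G)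
      (c : MonoidAlgebra V G), Nat.card H < n → Rt p m H D c → om1 p D ≤ b → Mv (max N 1) H D c →
      lL p H (bk D c H) = lL p (H ⊓ Nz D) (bk D c (H ⊓ Nz D)) := by
    intro n
    induction n with
    | zero => exact fun _ _ _ _ _ _ _ h => absurd h (Nat.not_lt_zero _)
    | succ n ih =>
      intro G _ _ m H D c hH h hb hm
      let _ : Fintype H := Fintype.ofFinite H
      have h1 := h.pull hp
      have hb' := (lind_om1 h).trans_le hb
      have hm' := hm.pull h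
      have h2 := h.lL_map hp (K := ⊤) le_top
      have h3 := h.lL_map hp (K := Nz (D.subgroupOf H)) (Cz_le_Nz _)
      rw [map_top_sub] at h2
      rw [h.map_Nz] at h3
      rw [h2, h3]
      have h4 := (D.subgroupOf H).normalCore_le
      by_cases hlt : Nat.card ((D.subgroupOf H).map (qm (D.subgroupOf H).normalCore)) ≤ max N 1
      · refine hB H m _ _ _ inferInstance h1 h4 fun t ht => (hm' t ht.1).resolve_right
          (not_lt.2 (le_trans ?_ hlt))
        rw [← Subgroup.relIndex_ker, QuotientGroup.ker_mk']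
        exact Subgroup.relIndex_le_of_le_left
          (fun x hx => mem_Cu.2 (mem_Cz.1 ht.2 x hx)) Subgroup.index_ne_zero_of_finite
      let _ : Fintype (H ⧸ (D.subgroupOf H).normalCore) := Fintype.ofFinite _
      let _ : Fintype (Finset (Subgroup (H ⧸ (D.subgroupOf H).normalCore))) := Fintype.ofFinite _
      have h5 := max_lt_iff.1 (not_le.1 hlt)
      refine step_aux hp h1 h4 (fun R _ hR => Subgroup.normal_le_normalCore.2 hR)
        (fun e0 => ?_) (fun γ hγ => hN M V hM _ m _ γ hγ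
          ((om1_map_le p h1.comm h4).trans hb') h5.1)
        fun K hK g hg hK' => ih H m K _ _ ((bind_card_lt hK).trans_le (Nat.lt_succ_iff.1 hH))
          hK' hb' ((hm'.cj hg).mono le_top)
      rw [e0, Subgroup.card_bot] at h5
      exact lt_irrefl _ h5.2
  intro G _ _ m H D c h hb hm
  have h1 := key _ G m H D c (Nat.lt_succ_self _) h hb hm
  have h2 := kL_add_lL hp h fun d hd _ =>
    key _ G m _ D c (Nat.lt_succ_self _) (h.cu hp hd) hb (hm.mono inf_le_left)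
  exact ⟨h1, by omega⟩

end Pool.Agent.Lib.MP_b6945b_al.Kx
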