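import Pool.Agent.Lib.MP_b6945b_al.Kx.RCov

set_option autoImplicit false

/-!
Sums over all roots of an idempotent, and passage to a quotient by a normal `p`-subgroup.
-/

namespace Pool.Agent.Lib.MP_b6945b_al.Kx

open St Bi IsLocalRing Finset

variable {G : Type} [Group G] [Fintype G] {V : ValuationSubring ℂ} {p : ℕ} [Fact p.Prime]
  {m : ℕ} {D K : Subgroup G} {c e : MonoidAlgebra V G}

/-- The number of Brauer characters weighted by the order of the stabiliser. -/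
noncomputable def wl (p : ℕ) (K D : Subgroup G) (c : MonoidAlgebra V G) : ℕ :=
  Nat.card (stabT K D c) * lL p K (bk D c K)

open Classical in
/-- The roots. -/
noncomputable def rts (D : Subgroup G) (e : MonoidAlgebra V G) : Finset (MonoidAlgebra V G) :=
  (blk V (Cz D)).filter fun c => Le D e c

open Classical in
/-- The blocks of `K` determined by the roots. -/
noncomputable def rbl (K D : Subgroup G) (e : MonoidAlgebra V G) : Finset (MonoidAlgebra V G) :=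
  (rts D e).image fun c => bk D c K

omit [Fact p.Prime] in
lemma mem_rts : c ∈ rts D e ↔ HB (Cz D) c ∧ Le D e c := by
  classical
  rw [rts, mem_filter, mem_blk]

omit [Fact p.Prime] in
lemma mem_rbl {β : MonoidAlgebra V G} : β ∈ rbl K D e ↔ ∃ c ∈ rts D e, bk D c K = β := by
  classical
  rw [rbl, mem_image]

omit [Fact p.Prime] in
lemma cj_mem_rts (hc : c ∈ rts D e) {g : G} (hg : g ∈ Nz D) (he : cjRep V G g e = e) :
    cjRep V G g c ∈ rts D e := by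
  obtain ⟨h1, h2⟩ := mem_rts.1 hc
  have h3 := h2.cj g
  rw [cg_eq_iff.2 hg, he] at h3
  exact mem_rts.2 ⟨h1.conj_norm (Nz_le_Nz_Cz D hg), h3⟩

lemma sum_rts (hp : (p : ℂ) ∈ V.nonunits) (he : Fix K e) (hK : ∀ c ∈ rts D e, Rt p m K D c) :
    ∑ c ∈ rts D e, wl p K D c =
      Nat.card (K ⊓ Nz D : Subgroup G) * ∑ β ∈ rbl K D e, lL p K β := by
  classical
  rw [← Finset.sum_fiberwise_of_maps_to (t := rbl K D e) (g := fun c => bk D c K)
    (fun c hc => mem_rbl.2 ⟨c, hc, rfl⟩), Finset.mul_sum]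
  refine Finset.sum_congr rfl fun β hβ => ?_
  obtain ⟨c, hc, rfl⟩ := mem_rbl.1 hβ
  have h := hK c hc
  have h1 := Finset.card_eq_sum_card_fiberwise (s := (univ : Finset (K ⊓ Nz D : Subgroup G)))
    (t := (rts D e).filter fun c' => bk D c' K = bk D c K)
    (f := fun g : (K ⊓ Nz D : Subgroup G) => cjRep V G (g : G) c)
    fun g _ => mem_coe.2 (mem_filter.2 ⟨cj_mem_rts hc g.2.2 (he g g.2.1),
      h.bk_root_conj hp h.le g.2.1 g.2.2⟩)
  rw [Nat.card_eq_fintype_card, ← Finset.card_univ, h1, Finset.sum_mul]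
  refine Finset.sum_congr rfl fun c' hc' => ?_
  obtain ⟨h2, h3⟩ := mem_filter.1 hc'
  have h4 := hK c' h2
  obtain ⟨a, ha, ha', rfl⟩ := h.root_conj' hp h4.root (h3 ▸ (h4.spec hp h4.le).2)
  rw [wl, h3, ← Fintype.card_subtype, ← Nat.card_eq_fintype_card]
  congr 1
  refine Nat.card_congr
    ⟨fun t => ⟨⟨t * a, K.mul_mem t.2.1 ha, (Nz D).mul_mem t.2.2.1 ha'⟩, ?_⟩,
      fun g => ⟨g.1 * a⁻¹, K.mul_mem g.1.2.1 (K.inv_mem ha),
        (Nz D).mul_mem g.1.2.2 ((Nz D).inv_mem ha'), ?_⟩,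
      fun t => Subtype.ext (mul_inv_cancel_right _ _),
      fun g => Subtype.ext (Subtype.ext (inv_mul_cancel_right _ _))⟩
  · exact (frpg_cj_cj _ _ _).symm.trans t.2.2.2
  · rw [← frpg_cj_cj, frpg_inv_cj]
    exact g.2

lemma hb_rbl (hp : (p : ℂ) ∈ V.nonunits) (hK : ∀ c ∈ rts D e, Rt p m K D c) :
    ∀ β ∈ rbl K D e, HB K β := fun β hβ => by
  obtain ⟨c, hc, rfl⟩ := mem_rbl.1 hβ
  exact ((hK c hc).spec hp (hK c hc).le).1

lemma bb_sum_rbl (hp : (p : ℂ) ∈ V.nonunits) (h : Rt p m K D c) (hee : e * e = e) (he : Fix K e)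
    (hK : ∀ c ∈ rts D e, Rt p m K D c) : bb D (∑ β ∈ rbl K D e, β) = bb D e := by
  classical
  have hb := hb_rbl hp hK
  obtain ⟨j1, -, j3⟩ := sum_blk_idem hb
  rw [res_idem_eq_sum (V := V) (H := Cz D) (bb_idem hp h.pD hee (he.mono h.le_H)) (supp_bb _ _)
      ((he.mono h.le).bb (Cz_le_Nz D)),
    res_idem_eq_sum (V := V) (H := Cz D) (bb_idem hp h.pD j1 (j3.mono h.le_H)) (supp_bb _ _)
      ((j3.mono h.le).bb (Cz_le_Nz D))]
  refine Finset.sum_congr (Finset.filter_congr fun f hf => ?_) fun _ _ => rfl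
  have hf' := mem_blk.1 hf
  constructor
  · intro h1
    have h2 := hf'.res_ne
    rw [← h1, bb_sum, Finset.sum_mul] at h2
    obtain ⟨β, hβ, h3⟩ := Finset.exists_ne_zero_of_sum_ne_zero h2
    have h4 := (le_dich hp h.pD h.le_H (hb β hβ).idem (hb β hβ).supp (hb β hβ).fix hf'
      inf_le_right h.le (Cz_le_Nz D)).resolve_left h3
    obtain ⟨c', hc', rfl⟩ := mem_rbl.1 hβ
    obtain ⟨a, ha, ha', rfl⟩ := (hK c' hc').root_conj' hp hf' h4
    exact (mem_rts.1 (cj_mem_rts hc' ha' (he a ha))).2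
  · intro h1
    have hf2 : f ∈ rts D e := mem_rts.2 ⟨hf', h1⟩
    have hβ : bk D f K ∈ rbl K D e := mem_rbl.2 ⟨f, hf2, rfl⟩
    have h2 : bb D (bk D f K) * toRes V G f = toRes V G f := ((hK f hf2).spec hp h.le).2
    rw [← h2, ← mul_assoc, ← bb_mul hp h.pD (j3.mono h.le_H) ((hb _ hβ).fix.mono h.le_H),
      j3.comm (hb _ hβ).supp, bblk_mul_sum hb hβ]

variable {Q : Subgroup G} [Q.Normal] [Fintype (G ⧸ Q)]

lemma dom_ne' (hp : (p : ℂ) ∈ V.nonunits) (h : Rt p m K D c) (hQD : Q ≤ D)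
    {β : MonoidAlgebra V (G ⧸ Q)} (hβ : HB (K.map (qm Q)) β)
    (hle : β * inc V (qm Q) (bk D c K) = β) : bb (D.map (qm Q)) β ≠ 0 := by
  have hP := h.pD.to_le hQD
  have hK : Cz D ≤ K ⊓ Cz Q := le_inf h.le (Cz_anti hQD)
  have hDK := h.le_Cz.trans hK
  obtain ⟨hf, hl⟩ := h.spec hp hK
  refine bb_ne_of_cover' hp (Subgroup.map_mono inf_le_left) (bdom1_norm (hQD.trans hDK))
    (hf.quot hp hP (hQD.trans hDK) inf_le_right) hβ.idem hβ.supp hβ.fix
    (h.dom_cover hp hQD hβ hle) (h.pD.map _) (Subgroup.map_mono hDK) fun h0 => ?_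
  refine (h.root.quot hp hP (hQD.trans h.le_Cz) (Cz_anti hQD)).res_ne ?_
  rw [bb_quot hp h.pD (hf.fix.mono hDK)] at h0
  unfold Le at hl
  rw [toRes_inc, ← hl, map_mul, h0, zero_mul]

lemma sum_rbl_quot (hp : (p : ℂ) ∈ V.nonunits) (h : Rt p m K D c) (hQD : Q ≤ D) (hee : e * e = e)
    (he : Fix K e) (hK : ∀ c ∈ rts D e, Rt p m K D c) (hC : Cz (D.map (qm Q)) ≤ K.map (qm Q))
    (hK' : ∀ γ ∈ rts (D.map (qm Q)) (inc V (qm Q) e), Rt p m (K.map (qm Q)) (D.map (qm Q)) γ) :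
    ∑ β ∈ rbl (K.map (qm Q)) (D.map (qm Q)) (inc V (qm Q) e), lL p (K.map (qm Q)) β =
      ∑ β ∈ rbl K D e, lL p K β := by
  classical
  have hb := hb_rbl hp hK
  obtain ⟨j1, j2, j3⟩ := sum_blk_idem hb
  have hD : IsPGroup p (D.map (qm Q)) := h.pD.map _
  have hDK : D.map (qm Q) ≤ K.map (qm Q) := Subgroup.map_mono h.le_H
  have h1 : bb (D.map (qm Q)) (inc V (qm Q) (∑ β ∈ rbl K D e, β)) =
      bb (D.map (qm Q)) (inc V (qm Q) e) := by
    rw [bb_quot hp h.pD (j3.mono h.le_H), bb_quot hp h.pD (he.mono h.le_H),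
      bb_sum_rbl hp h hee he hK]
  have i1 : inc V (qm Q) (∑ β ∈ rbl K D e, β) * inc V (qm Q) (∑ β ∈ rbl K D e, β) =
      inc V (qm Q) (∑ β ∈ rbl K D e, β) := by rw [← map_mul, j1]
  have i2 := j2.inc (qm Q)
  have i3 := j3.inc (qm Q)
  rw [← lL_sum hp hb, ← lL_quot hp (h.pD.to_le hQD) (fun x hx y hy => h.comm x (hQD hx) y (hQD hy))
    (hQD.trans h.le_H) j1 j2 j3, lL_eq_sum hp i1 i2 i3]
  refine Finset.sum_congr (Finset.ext fun β => ?_) fun _ _ => rfl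
  simp only [mem_rbl, Finset.mem_filter, mem_blk]
  constructor
  · rintro ⟨γ, hγ, rfl⟩
    obtain ⟨h2, h3⟩ := (hK' γ hγ).spec hp hC
    refine ⟨h2, (h2.dich i1 i2 i3).resolve_left fun e0 => (mem_rts.1 hγ).1.res_ne ?_⟩
    have h4 := (mem_rts.1 hγ).2
    unfold Le at h3 h4
    rw [← h3, ← h4, ← h1, ← mul_assoc, ← bb_mul hp hD (h2.fix.mono hDK) (i3.mono hDK), e0, bb_zero,
      zero_mul]
  · rintro ⟨h2, h3⟩
    have h4 := h2.ne
    rw [← h3, map_sum, Finset.mul_sum] at h4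
    obtain ⟨b, hb', h5⟩ := Finset.exists_ne_zero_of_sum_ne_zero h4
    have h6 := (h2.dich (by rw [← map_mul, (hb b hb').idem]) ((hb b hb').supp.inc _)
      ((hb b hb').fix.inc _)).resolve_left h5
    obtain ⟨c', hc', rfl⟩ := mem_rbl.1 hb'
    obtain ⟨γ, hγ, hl⟩ := exists_root hp hD hDK h2.idem h2.supp h2.fix
      (dom_ne' hp (hK c' hc') hQD h2 h6)
    rw [inf_eq_right.2 hC] at hγ
    refine ⟨γ, mem_rts.2 ⟨hγ, ?_⟩, Bi.bk_eq hp hD hDK h2 hγ.res_ne hl⟩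
    unfold Le at hl ⊢
    conv_lhs => rw [← hl]
    rw [← h1, ← mul_assoc, ← bb_mul hp hD (i3.mono hDK) (h2.fix.mono hDK), ← h2.fix.comm i2, h3, hl]

lemma sum_wl_quot (hp : (p : ℂ) ∈ V.nonunits) (h : Rt p m K D c) (hQD : Q ≤ D) (hee : e * e = e)
    (he : Fix K e) (hK : ∀ c ∈ rts D e, Rt p m K D c) (hC : Cz (D.map (qm Q)) ≤ K.map (qm Q))
    (hK' : ∀ γ ∈ rts (D.map (qm Q)) (inc V (qm Q) e), Rt p m (K.map (qm Q)) (D.map (qm Q)) γ) :
    ∑ c ∈ rts D e, wl p K D c = Nat.card Q *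
      ∑ γ ∈ rts (D.map (qm Q)) (inc V (qm Q) e), wl p (K.map (qm Q)) (D.map (qm Q)) γ := by
  have h1 : Q ≤ K ⊓ Nz D := hQD.trans (le_inf h.le_H Subgroup.le_normalizer)
  have h2 : (K ⊓ Nz D).map (qm Q) = K.map (qm Q) ⊓ Nz (D.map (qm Q)) := by
    rw [Nz_map_qm hQD]
    ext x
    obtain ⟨x, rfl⟩ := QuotientGroup.mk'_surjective Q x
    rw [mem_map_qm h1, Subgroup.mem_inf, Subgroup.mem_inf, mem_map_qm (h1.trans inf_le_left),
      mem_map_qm (h1.trans inf_le_right)]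
  rw [sum_rts hp he hK, sum_rts hp (he.inc _) hK', sum_rbl_quot hp h hQD hee he hK hC hK', ← h2,
    ← card_map_qm h1]
  ring

end Pool.Agent.Lib.MP_b6945b_al.Kx
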