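import Pool.Agent.Lib.MP_b6945b_al.Kx.TTup

set_option autoImplicit false

/-!
Products of the first holes and conjugation of some of the holes.
-/

namespace Pool.Agent.Lib.MP_b6945b_al.Kx

open Finset Pointwise MulAction

variable {G : Type} [Group G] {N : ℕ}

/-- The holes, extended by `1`. -/
def ex (c : Fin N → G) (l : ℕ) : G := if h : l < N then c ⟨l, h⟩ else 1

/-- The product of the first holes. -/
def pw (c : Fin N → G) : ℕ → G
  | 0 => 1
  | l + 1 => pw c l * ex c l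

/-- Conjugate the holes before `l` by `g` and the hole `l` by `h`. -/
def cjg (l : ℕ) (g h : G) (c : Fin N → G) : Fin N → G := fun i =>
  if (i : ℕ) < l then g * c i * g⁻¹ else if (i : ℕ) = l then h * c i * h⁻¹ else c i

lemma pw_eq_take (c : Fin N → G) (l : ℕ) : pw c l = ((List.ofFn c).take l).prod := by
  induction l with
  | zero => simp [pw]
  | succ l ih =>
    rw [pw, ih, List.take_add_one, List.prod_append, List.getElem?_ofFn, ex]
    split_ifs <;> simp

lemma pw_eq_prod (c : Fin N → G) {l : ℕ} (h : N ≤ l) : pw c l = (List.ofFn c).prod := by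
  rw [pw_eq_take, List.take_of_length_le (by simpa using h)]

lemma ex_cjg (l : ℕ) (g h : G) (c : Fin N → G) (i : ℕ) : ex (cjg l g h c) i =
    if i < l then g * ex c i * g⁻¹ else if i = l then h * ex c i * h⁻¹ else ex c i := by
  unfold ex cjg
  split_ifs <;> simp_all

lemma pw_cjg_le (l : ℕ) (g h : G) (c : Fin N → G) (i : ℕ) (hi : i ≤ l) :
    pw (cjg l g h c) i = g * pw c i * g⁻¹ := by
  induction i with
  | zero => simp [pw]
  | succ i ih =>
    rw [pw, pw, ih (by omega), ex_cjg, if_pos (by omega)]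
    group

lemma pw_cjg_gt (l : ℕ) (g h : G) (c : Fin N → G) (n : ℕ) :
    pw (cjg l g h c) (l + 1 + n) = g * pw c l * g⁻¹ * (h * ex c l * h⁻¹) *
      ((pw c l * ex c l)⁻¹ * pw c (l + 1 + n)) := by
  induction n with
  | zero =>
    rw [add_zero, pw, pw, pw_cjg_le _ _ _ _ _ le_rfl, ex_cjg, if_neg (lt_irrefl _), if_pos rfl]
    group
  | succ n ih =>
    rw [← add_assoc, pw, pw, ih, ex_cjg, if_neg (by omega), if_neg (by omega)]
    group

lemma ex_mem {H : Subgroup G} {c : Fin N → G} (h : ∀ i, c i ∈ H) (l : ℕ) : ex c l ∈ H := by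
  unfold ex
  split_ifs
  · exact h _
  · exact H.one_mem

lemma pw_mem {H : Subgroup G} {c : Fin N → G} (h : ∀ i, c i ∈ H) (l : ℕ) : pw c l ∈ H := by
  induction l with
  | zero => exact H.one_mem
  | succ l ih => exact H.mul_mem ih (ex_mem h l)

/-- Replace the two elements and conjugate the holes. -/
def mk (l : ℕ) (x : Tup N G) (a b g h : G) : Tup N G := ⟨a, b, cjg l g h x.c, x.σ⟩

section
variable (l : ℕ) (x : Tup N G) (a b g h : G)

lemma mk_a : (mk l x a b g h).a = a := rfl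

lemma mk_b : (mk l x a b g h).b = b := rfl

lemma mk_σ : (mk l x a b g h).σ = x.σ := rfl

lemma pw_mk : pw (mk l x a b g h).c l = g * pw x.c l * g⁻¹ := pw_cjg_le _ _ _ _ _ le_rfl

lemma ex_mk : ex (mk l x a b g h).c l = h * ex x.c l * h⁻¹ := by
  change ex (cjg l g h x.c) l = _
  rw [ex_cjg, if_neg (lt_irrefl _), if_pos rfl]

lemma mk_mk (a' b' g' h' : G) :
    mk l (mk l x a b g h) a' b' g' h' = mk l x a' b' (g' * g) (h' * h) := by
  unfold mk
  congr 1
  funext i
  simp only [cjg]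
  split_ifs
  · group
  · group
  · rfl

lemma mk_one : mk l x a b 1 1 = ⟨a, b, x.c, x.σ⟩ := by
  unfold mk
  congr 1
  funext i
  simp [cjg]

lemma mk_succ : mk (l + 1) x a b g 1 = mk l x a b g g := by
  unfold mk
  congr 1
  funext i
  simp only [cjg]
  split_ifs <;> first | rfl | omega | simp

lemma mk_zero : mk 0 x a b g 1 = mk l x a b 1 1 := by
  unfold mk
  congr 1
  funext i
  simp [cjg]

lemma mk_top : mk N x a b g h = ⟨a, b, fun i => g * x.c i * g⁻¹, x.σ⟩ := by
  unfold mk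
  congr 1
  funext i
  simp [cjg]

lemma smul_mk (u : G) : u • mk l x a b g h =
    mk l (u • x) (u * a * u⁻¹) (u * b * u⁻¹) (u * g * u⁻¹) (u * h * u⁻¹) := by
  simp only [mk, Tup.smul_def]
  congr 1
  funext i
  simp only [cjg]
  split_ifs
  · group
  · group
  · rfl

lemma smul_a : (g • x).a = g * x.a * g⁻¹ := rfl

lemma smul_b : (g • x).b = g * x.b * g⁻¹ := rfl

lemma ex_smul : ex (g • x).c l = g * ex x.c l * g⁻¹ := by
  simp only [ex, Tup.smul_def]
  split_ifs <;> simp

lemma pw_smul : pw (g • x).c l = g * pw x.c l * g⁻¹ := by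
  induction l with
  | zero => simp [pw]
  | succ l ih =>
    rw [pw, pw, ih, ex_smul]
    group

end

lemma mk_congr {l : ℕ} {x : Tup N G} {a b g h a' b' g' h' : G} (h1 : a = a') (h2 : b = b')
    (h3 : g = g') (h4 : h * ex x.c l * h⁻¹ = h' * ex x.c l * h'⁻¹) :
    mk l x a b g h = mk l x a' b' g' h' := by
  subst h1 h2 h3
  unfold mk
  congr 1
  funext i
  simp only [cjg]
  split_ifs with e1 e2
  · rfl
  · subst e2
    simpa only [ex, i.2, dif_pos, Fin.eta] using h4
  · rfl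

lemma mk_eq_self {l : ℕ} {x : Tup N G} {a b g h : G} (h1 : a = x.a) (h2 : b = x.b)
    (h3 : g = 1) (h4 : h = 1) : mk l x a b g h = x := by
  rw [h1, h2, h3, h4, mk_one]

lemma WK_mk {p : ℕ} {v : G} {κ : Fin N → G} {l : ℕ} {x : Tup N G} (hx : WK p v κ x) {a b g h : G}
    (ha : a ∈ stab x.σ) (hb : b ∈ stab x.σ) (hg : g ∈ stab x.σ) (hh : h ∈ stab x.σ)
    (e : a * b * a⁻¹ * b⁻¹ * (g * pw x.c l * g⁻¹ * (h * ex x.c l * h⁻¹)) =
      x.a * x.b * x.a⁻¹ * x.b⁻¹ * (pw x.c l * ex x.c l)) : WK p v κ (mk l x a b g h) := by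
  obtain ⟨h1, -, -, h4, h5, h6⟩ := hx
  refine ⟨h1, ha, hb, fun i => ?_, ?_, fun i => ?_⟩
  · change cjg l g h x.c i ∈ stab x.σ
    unfold cjg
    split_ifs
    · exact mul_mem (mul_mem hg (h4 i)) (inv_mem hg)
    · exact mul_mem (mul_mem hh (h4 i)) (inv_mem hh)
    · exact h4 i
  · change a * b * a⁻¹ * b⁻¹ * (List.ofFn (cjg l g h x.c)).prod = v
    rw [← pw_eq_prod _ (show N ≤ l + 1 + N by omega)] at h5 ⊢
    rw [pw_cjg_gt, ← mul_assoc, e, ← h5]
    group
  · change IsConj (κ i) (cjg l g h x.c i)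
    unfold cjg
    split_ifs
    · exact (h6 i).trans (isConj_iff.2 ⟨g, rfl⟩)
    · exact (h6 i).trans (isConj_iff.2 ⟨h, rfl⟩)
    · exact h6 i

end Pool.Agent.Lib.MP_b6945b_al.Kx
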