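import Pool.Agent.Lib.MP_b6945b_al.Kx.TMk

set_option autoImplicit false

/-!
Twists of a torus with several holes and their relations.
-/

namespace Pool.Agent.Lib.MP_b6945b_al.Kx

open Finset Pointwise MulAction

variable {G : Type} [Group G] {N : ℕ}

/-- Twist along the second generator. -/
def a2F (s : G → G) (x : Tup N G) : Tup N G := ⟨x.a * s x.b, x.b, x.c, x.σ⟩

/-- Twist along a curve parallel to the first generator passing behind the first holes. -/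
def tbF (s : G → G) (l : ℕ) (x : Tup N G) : Tup N G :=
  mk l x x.a (s (x.b * x.a⁻¹ * x.b⁻¹ * pw x.c l) * x.b) (s (x.b * x.a⁻¹ * x.b⁻¹ * pw x.c l)) 1

/-- Twist along a curve around the handle and the first holes. -/
def ddF (s : G → G) (l : ℕ) (x : Tup N G) : Tup N G :=
  mk l x (s (x.a * x.b * x.a⁻¹ * x.b⁻¹ * pw x.c l) * x.a *
      (s (x.a * x.b * x.a⁻¹ * x.b⁻¹ * pw x.c l))⁻¹)
    (s (x.a * x.b * x.a⁻¹ * x.b⁻¹ * pw x.c l) * x.b *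
      (s (x.a * x.b * x.a⁻¹ * x.b⁻¹ * pw x.c l))⁻¹)
    (s (x.a * x.b * x.a⁻¹ * x.b⁻¹ * pw x.c l)) 1

/-- The element around which the third twist takes place. -/
def tcE (l : ℕ) (x : Tup N G) : G :=
  x.a * (x.b * x.a⁻¹ * x.b⁻¹ * pw x.c l * ex x.c l * (x.b * x.a⁻¹ * x.b⁻¹ * pw x.c l)⁻¹)

/-- Twist along a curve parallel to the first generator passing behind one hole. -/
def tcF (s : G → G) (l : ℕ) (x : Tup N G) : Tup N G :=
  mk l x (s (tcE l x) * x.a * (s (tcE l x))⁻¹) (x.b * (s (tcE l x))⁻¹) 1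
    ((x.b * x.a⁻¹ * x.b⁻¹ * pw x.c l)⁻¹ * s (tcE l x) * (x.b * x.a⁻¹ * x.b⁻¹ * pw x.c l))

lemma a2F_eq (s : G → G) (l : ℕ) (x : Tup N G) : a2F s x = mk l x (x.a * s x.b) x.b 1 1 :=
  (mk_one _ _ _ _).symm

lemma tbF_zero (l : ℕ) (x : Tup N G) : tbF (·⁻¹) 0 x = mk l x x.a (x.b * x.a) 1 1 := by
  rw [tbF, mk_zero l]
  exact mk_congr rfl (by simp only [pw]; group) rfl rfl

lemma tbF_succ (s : G → G) (l : ℕ) (x : Tup N G) : tbF s (l + 1) x =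
    mk l x x.a (s (x.b * x.a⁻¹ * x.b⁻¹ * (pw x.c l * ex x.c l)) * x.b)
      (s (x.b * x.a⁻¹ * x.b⁻¹ * (pw x.c l * ex x.c l)))
      (s (x.b * x.a⁻¹ * x.b⁻¹ * (pw x.c l * ex x.c l))) := by
  rw [tbF, mk_succ, pw]

lemma ddF_succ (s : G → G) (l : ℕ) (x : Tup N G) : ddF s (l + 1) x =
    mk l x (s (x.a * x.b * x.a⁻¹ * x.b⁻¹ * (pw x.c l * ex x.c l)) * x.a *
        (s (x.a * x.b * x.a⁻¹ * x.b⁻¹ * (pw x.c l * ex x.c l)))⁻¹)
      (s (x.a * x.b * x.a⁻¹ * x.b⁻¹ * (pw x.c l * ex x.c l)) * x.b *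
        (s (x.a * x.b * x.a⁻¹ * x.b⁻¹ * (pw x.c l * ex x.c l)))⁻¹)
      (s (x.a * x.b * x.a⁻¹ * x.b⁻¹ * (pw x.c l * ex x.c l)))
      (s (x.a * x.b * x.a⁻¹ * x.b⁻¹ * (pw x.c l * ex x.c l))) := by
  rw [ddF, mk_succ, pw]

lemma a2F_inv : Function.LeftInverse (a2F (N := N) (G := G) id) (a2F (·⁻¹)) := by
  intro x
  simp [a2F]

lemma tbF_inv (l : ℕ) : Function.LeftInverse (tbF (N := N) (G := G) id l) (tbF (·⁻¹) l) := by
  intro x
  simp only [tbF, mk_a, mk_b, pw_mk, mk_mk, id]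
  exact mk_eq_self rfl (by group) (by group) (by group)

lemma ddF_inv (l : ℕ) : Function.LeftInverse (ddF (N := N) (G := G) id l) (ddF (·⁻¹) l) := by
  intro x
  simp only [ddF, mk_a, mk_b, pw_mk, mk_mk, id]
  exact mk_eq_self (by group) (by group) (by group) (by group)

lemma tcF_inv (l : ℕ) : Function.LeftInverse (tcF (N := N) (G := G) id l) (tcF (·⁻¹) l) := by
  intro x
  simp only [tcF, tcE, mk_a, mk_b, pw_mk, ex_mk, mk_mk, id]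
  exact mk_eq_self (by group) (by group) (by group) (by group)

lemma a2F_smul (g : G) (x : Tup N G) : a2F (·⁻¹) (g • x) = g • a2F (·⁻¹) x := by
  simp only [a2F_eq _ 0, smul_mk, smul_a, smul_b]
  exact mk_congr (by group) rfl (by group) (by group)

lemma tbF_smul (l : ℕ) (g : G) (x : Tup N G) : tbF (·⁻¹) l (g • x) = g • tbF (·⁻¹) l x := by
  simp only [tbF, smul_mk, smul_a, smul_b, pw_smul]
  exact mk_congr rfl (by group) (by group) (by group)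

lemma ddF_smul (l : ℕ) (g : G) (x : Tup N G) : ddF (·⁻¹) l (g • x) = g • ddF (·⁻¹) l x := by
  simp only [ddF, smul_mk, smul_a, smul_b, pw_smul]
  exact mk_congr (by group) (by group) (by group) (by group)

lemma tcF_smul (l : ℕ) (g : G) (x : Tup N G) : tcF (·⁻¹) l (g • x) = g • tcF (·⁻¹) l x := by
  simp only [tcF, tcE, smul_mk, smul_a, smul_b, pw_smul, ex_smul]
  exact mk_congr (by group) (by group) (by group) (by group)

section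
variable {p : ℕ} {v : G} {κ : Fin N → G} {x : Tup N G}

lemma a2F_WK (hx : WK p v κ x) : WK p v κ (a2F (·⁻¹) x) := by
  rw [a2F_eq _ 0]
  exact WK_mk hx (mul_mem hx.2.1 (inv_mem hx.2.2.1)) hx.2.2.1 (one_mem _) (one_mem _) (by group)

lemma tbF_WK (l : ℕ) (hx : WK p v κ x) : WK p v κ (tbF (·⁻¹) l x) := by
  have h : (x.b * x.a⁻¹ * x.b⁻¹ * pw x.c l)⁻¹ ∈ stab x.σ :=
    inv_mem (mul_mem (mul_mem (mul_mem hx.2.2.1 (inv_mem hx.2.1)) (inv_mem hx.2.2.1))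
      (pw_mem hx.2.2.2.1 l))
  exact WK_mk hx hx.2.1 (mul_mem h hx.2.2.1) h (one_mem _) (by group)

lemma ddF_WK (l : ℕ) (hx : WK p v κ x) : WK p v κ (ddF (·⁻¹) l x) := by
  have h : (x.a * x.b * x.a⁻¹ * x.b⁻¹ * pw x.c l)⁻¹ ∈ stab x.σ :=
    inv_mem (mul_mem (mul_mem (mul_mem (mul_mem hx.2.1 hx.2.2.1) (inv_mem hx.2.1))
      (inv_mem hx.2.2.1)) (pw_mem hx.2.2.2.1 l))
  exact WK_mk hx (mul_mem (mul_mem h hx.2.1) (inv_mem h))
    (mul_mem (mul_mem h hx.2.2.1) (inv_mem h)) h (one_mem _) (by group)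

lemma tcF_WK (l : ℕ) (hx : WK p v κ x) : WK p v κ (tcF (·⁻¹) l x) := by
  have h : x.b * x.a⁻¹ * x.b⁻¹ * pw x.c l ∈ stab x.σ :=
    mul_mem (mul_mem (mul_mem hx.2.2.1 (inv_mem hx.2.1)) (inv_mem hx.2.2.1))
      (pw_mem hx.2.2.2.1 l)
  have h' : (tcE l x)⁻¹ ∈ stab x.σ :=
    inv_mem (mul_mem hx.2.1 (mul_mem (mul_mem h (ex_mem hx.2.2.2.1 l)) (inv_mem h)))
  exact WK_mk hx (mul_mem (mul_mem h' hx.2.1) (inv_mem h')) (mul_mem hx.2.2.1 (inv_mem h'))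
    (one_mem _) (mul_mem (mul_mem (inv_mem h) h') h) (by simp only [tcE]; group)

lemma ddF_top (hx : WK p v κ x) : ddF (·⁻¹) N x = v⁻¹ • x := by
  have hv : v ∈ stab x.σ := by
    rw [← hx.2.2.2.2.1, ← pw_eq_prod _ le_rfl]
    exact mul_mem (mul_mem (mul_mem (mul_mem hx.2.1 hx.2.2.1) (inv_mem hx.2.1))
      (inv_mem hx.2.2.1)) (pw_mem hx.2.2.2.1 N)
  rw [ddF, mk_top, pw_eq_prod _ le_rfl, hx.2.2.2.2.1, Tup.smul_def,
    cj_eq_of_mem_stab (inv_mem hv)]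

end

lemma rel_tb (l : ℕ) (x : Tup N G) : tbF (·⁻¹) l (a2F (·⁻¹) (tbF (·⁻¹) l x)) =
    a2F (·⁻¹) (tbF (·⁻¹) l (a2F (·⁻¹) x)) := by
  simp only [a2F_eq _ l, tbF, mk_a, mk_b, pw_mk, mk_mk]
  exact mk_congr (by group) (by group) (by group) (by group)

lemma rel_tc (l : ℕ) (x : Tup N G) : tcF (·⁻¹) l (a2F (·⁻¹) (tcF (·⁻¹) l x)) =
    a2F (·⁻¹) (tcF (·⁻¹) l (a2F (·⁻¹) x)) := by
  simp only [a2F_eq _ l, tcF, tcE, mk_a, mk_b, pw_mk, ex_mk, mk_mk]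
  refine mk_congr ?_ ?_ ?_ ?_ <;>
    simp only [mul_inv_rev, inv_inv, mul_assoc, inv_mul_cancel_left, mul_inv_cancel_left, one_mul,
      mul_one, inv_one, mul_inv_cancel, inv_mul_cancel]

lemma rel_lantern (l : ℕ) (x : Tup N G) :
    ddF (·⁻¹) (l + 1) (tbF (·⁻¹) 0 (tbF (·⁻¹) l x)) =
      ddF (·⁻¹) l (tcF (·⁻¹) l (tbF (·⁻¹) (l + 1) x)) := by
  rw [ddF_succ, tbF_zero l, tbF_succ]
  simp only [tbF, ddF, tcF, tcE, mk_a, mk_b, pw_mk, ex_mk, mk_mk]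
  exact mk_congr (by group) (by group) (by group) (by group)

lemma rel_three (x : Tup N G) : tbF (·⁻¹) 0 (a2F (·⁻¹) (tbF (·⁻¹) 0 x)) =
    mk 0 x x.b⁻¹ (x.b * x.a * x.b⁻¹) 1 1 := by
  simp only [tbF_zero 0, a2F_eq _ 0, mk_a, mk_b, mk_mk]
  exact mk_congr (by group) (by group) (by group) (by group)

lemma rel_chain {F : Tup N G → Tup N G} (hF : ∀ x, F x = mk 0 x x.b⁻¹ (x.b * x.a * x.b⁻¹) 1 1)
    (x : Tup N G) : F (F (F (F x))) = ddF (·⁻¹) 0 x := by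
  rw [ddF, mk_zero 0]
  simp only [hF, pw, mk_a, mk_b, mk_mk]
  refine mk_congr ?_ ?_ ?_ ?_ <;>
    simp only [mul_inv_rev, inv_inv, mul_assoc, inv_mul_cancel_left, mul_inv_cancel_left,
      mul_one, inv_one, inv_mul_cancel]

lemma tbF_iter (n : ℕ) (x : Tup N G) :
    (tbF (·⁻¹) 0)^[n] x = ⟨x.a, x.b * x.a ^ n, x.c, x.σ⟩ := by
  induction n with
  | zero => simp
  | succ n ih =>
    rw [Function.iterate_succ_apply', ih, tbF_zero 0, mk_one, pow_succ, mul_assoc]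

end Pool.Agent.Lib.MP_b6945b_al.Kx
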