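import Pool.Agent.Lib.MP_b6945b_al.Kx.TDefs

set_option autoImplicit false

/-!
Tuples on a torus with several holes, the conjugation action, and the basic cancellation.
-/

namespace Pool.Agent.Lib.MP_b6945b_al.Kx

open Finset Pointwise MulAction

variable {G : Type} [Group G] {N : ℕ}

/-- Two elements, a family of further elements, and a chain. -/
@[ext] structure Tup (N : ℕ) (G : Type) [Group G] where
  /-- first element -/
  a : G
  /-- second element -/
  b : G
  /-- the holes -/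
  c : Fin N → G
  /-- the chain -/
  σ : Finset (Subgroup G)

/-- A tuple without its second element. -/
@[ext] structure Cus (N : ℕ) (G : Type) [Group G] where
  /-- first element -/
  a : G
  /-- the holes -/
  c : Fin N → G
  /-- the chain -/
  σ : Finset (Subgroup G)

instance : MulAction G (Tup N G) where
  smul g x := ⟨g * x.a * g⁻¹, g * x.b * g⁻¹, fun i => g * x.c i * g⁻¹, cj g x.σ⟩
  one_smul x := by
    change Tup.mk _ _ _ _ = _
    ext1 <;> simp [cj_one]
  mul_smul g h x := by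
    change Tup.mk _ _ _ _ = Tup.mk (g * (h * x.a * h⁻¹) * g⁻¹) (g * (h * x.b * h⁻¹) * g⁻¹)
      (fun i => g * (h * x.c i * h⁻¹) * g⁻¹) (cj g (cj h x.σ))
    ext1
    · simp [mul_assoc]
    · simp [mul_assoc]
    · simp [mul_assoc]
    · exact cj_mul _ _ _

instance : MulAction G (Cus N G) where
  smul g x := ⟨g * x.a * g⁻¹, fun i => g * x.c i * g⁻¹, cj g x.σ⟩
  one_smul x := by
    change Cus.mk _ _ _ = _
    ext1 <;> simp [cj_one]
  mul_smul g h x := by
    change Cus.mk _ _ _ = Cus.mk (g * (h * x.a * h⁻¹) * g⁻¹)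
      (fun i => g * (h * x.c i * h⁻¹) * g⁻¹) (cj g (cj h x.σ))
    ext1
    · simp [mul_assoc]
    · simp [mul_assoc]
    · exact cj_mul _ _ _

lemma Tup.smul_def (g : G) (x : Tup N G) :
    g • x = ⟨g * x.a * g⁻¹, g * x.b * g⁻¹, fun i => g * x.c i * g⁻¹, cj g x.σ⟩ := rfl

lemma Cus.smul_def (g : G) (x : Cus N G) :
    g • x = ⟨g * x.a * g⁻¹, fun i => g * x.c i * g⁻¹, cj g x.σ⟩ := rfl

/-- Tuples as a product. -/
def Tup.equivProd : Tup N G ≃ G × G × (Fin N → G) × Finset (Subgroup G) where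
  toFun x := (x.a, x.b, x.c, x.σ)
  invFun y := ⟨y.1, y.2.1, y.2.2.1, y.2.2.2⟩
  left_inv _ := rfl
  right_inv _ := rfl

/-- Tuples with the second element split off. -/
def Tup.equivCus : Tup N G ≃ Cus N G × Bi G where
  toFun x := (⟨x.a, x.c, x.σ⟩, ⟨x.b⟩)
  invFun y := ⟨y.1.a, y.2.v, y.1.c, y.1.σ⟩
  left_inv _ := rfl
  right_inv _ := rfl

/-- Short tuples as a product. -/
def Cus.equivProd : Cus N G ≃ G × (Fin N → G) × Finset (Subgroup G) where
  toFun x := (x.a, x.c, x.σ)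
  invFun y := ⟨y.1, y.2.1, y.2.2⟩
  left_inv _ := rfl
  right_inv _ := rfl

instance [Finite G] : Finite (Tup N G) := Finite.of_equiv _ Tup.equivProd.symm

instance [Finite G] : Finite (Cus N G) := Finite.of_equiv _ Cus.equivProd.symm

noncomputable instance [Finite G] : Fintype (Tup N G) := Fintype.ofFinite _

noncomputable instance [Finite G] : Fintype (Cus N G) := Fintype.ofFinite _

/-- The tuples that are counted. -/
def WK (p : ℕ) (v : G) (κ : Fin N → G) (x : Tup N G) : Prop :=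
  IsPChain p x.σ ∧ x.a ∈ stab x.σ ∧ x.b ∈ stab x.σ ∧ (∀ i, x.c i ∈ stab x.σ) ∧
    x.a * x.b * x.a⁻¹ * x.b⁻¹ * (List.ofFn x.c).prod = v ∧ ∀ i, IsConj (κ i) (x.c i)

open Classical in
lemma nnK_eq [Fintype G] [Fintype (Finset (Subgroup G))] (p : ℕ) (v : G) (κ : Fin N → G) :
    nnK p v κ = ∑ x : Tup N G, if WK p v κ x then sgn x.σ else 0 := by
  rw [← Equiv.sum_comp Tup.equivProd.symm, Fintype.sum_prod_type]
  refine Finset.sum_congr rfl (fun a _ => ?_)
  rw [Fintype.sum_prod_type]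
  refine Finset.sum_congr rfl (fun b _ => ?_)
  rw [Fintype.sum_prod_type]
  refine Finset.sum_congr rfl (fun c _ => Finset.sum_congr rfl (fun σ _ => ?_))
  exact if_congr Iff.rfl rfl rfl

lemma sum_tup_cus [Finite G] (g : Tup N G → ℤ) :
    ∑ x, g x = ∑ y : Cus N G, ∑ b : Bi G, g ⟨y.a, b.v, y.c, y.σ⟩ := by
  rw [← Equiv.sum_comp Tup.equivCus.symm, Fintype.sum_prod_type]
  rfl

lemma prod_conj (g : G) (c : Fin N → G) :
    (List.ofFn fun i => g * c i * g⁻¹).prod = g * (List.ofFn c).prod * g⁻¹ := by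
  have := map_list_prod (MulAut.conj g) (List.ofFn c)
  rw [List.map_ofFn] at this
  exact this.symm

lemma WK_smul {p : ℕ} {v : G} {κ : Fin N → G} {g : G} (hg : g * v = v * g) (x : Tup N G) :
    WK p v κ (g • x) ↔ WK p v κ x := by
  have hc : ∀ k y : G, IsConj k (g * y * g⁻¹) ↔ IsConj k y := fun k y =>
    ⟨fun h => h.trans (isConj_iff.2 ⟨g, rfl⟩ : IsConj y _).symm,
      fun h => h.trans (isConj_iff.2 ⟨g, rfl⟩)⟩
  simp only [WK, Tup.smul_def, isPChain_cj, conj_mem_stab_cj_iff, prod_conj, hc]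
  have : g * x.a * g⁻¹ * (g * x.b * g⁻¹) * (g * x.a * g⁻¹)⁻¹ * (g * x.b * g⁻¹)⁻¹ *
      (g * (List.ofFn x.c).prod * g⁻¹) =
      g * (x.a * x.b * x.a⁻¹ * x.b⁻¹ * (List.ofFn x.c).prod) * g⁻¹ := by group
  rw [this, mul_inv_eq_iff_eq_mul, ← hg, mul_right_inj]

/-- The elements of `Q` fixing the first element, the holes and the chain. -/
def DK (Q : Subgroup G) (a : G) (c : Fin N → G) (σ : Finset (Subgroup G)) : Subgroup G :=
  stab σ ⊓ (Q ⊓ Subgroup.centralizer {a} ⊓ Subgroup.centralizer (Set.range c))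

lemma mem_DK {Q : Subgroup G} {a : G} {c : Fin N → G} {σ : Finset (Subgroup G)} {q : G} :
    q ∈ DK Q a c σ ↔ q ∈ stab σ ∧ q ∈ Q ∧ q * a = a * q ∧ ∀ i, q * c i = c i * q := by
  simp only [DK, Subgroup.mem_inf, Subgroup.mem_centralizer_iff, Set.forall_mem_range, and_assoc,
    eq_comm (a := c _ * q), Set.mem_singleton_iff, forall_eq, eq_comm (a := a * q)]

lemma DK_le (Q : Subgroup G) (a : G) (c : Fin N → G) (σ : Finset (Subgroup G)) :
    DK Q a c σ ≤ Q := fun _ h => (mem_DK.1 h).2.1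

lemma comm_conj_iff {q g : G} (h : g * q = q * g) (a : G) :
    q * (g * a * g⁻¹) = g * a * g⁻¹ * q ↔ q * a = a * q := by
  have e : q = g * q * g⁻¹ := by rw [h, mul_inv_cancel_right]
  have h1 : q * (g * a * g⁻¹) = g * (q * a) * g⁻¹ := by
    conv_lhs => rw [e]
    group
  have h2 : g * a * g⁻¹ * q = g * (a * q) * g⁻¹ := by
    conv_lhs => rw [e]
    group
  rw [h1, h2, mul_left_inj, mul_right_inj]

lemma DK_smul {Q : Subgroup G} (hab : IsAb Q) {g : G} (hg : g ∈ Q) (a : G) (c : Fin N → G)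
    (σ : Finset (Subgroup G)) :
    DK Q (g * a * g⁻¹) (fun i => g * c i * g⁻¹) (cj g σ) = DK Q a c σ := by
  ext q
  rw [mem_DK, mem_DK, and_left_comm, and_left_comm (a := q ∈ stab σ)]
  refine and_congr_right (fun h2 => ?_)
  have e : g * q * g⁻¹ = q := by rw [hab g hg q h2, mul_inv_cancel_right]
  simp only [comm_conj_iff (hab g hg q h2)]
  refine and_congr_left' ?_
  conv_lhs => rw [← e]
  exact conj_mem_stab_cj_iff

open Classical in
/-- Cancellation of the tuples whose second element normalises a nontrivial subgroup of `DK`. -/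
lemma vanish_tup [Finite G] {p : ℕ} (v : G) (κ : Fin N → G) (Q : Subgroup G) (hQ : IsPGroup p Q)
    (hab : IsAb Q) (P : Tup N G → Prop) (F : G → G → Subgroup G → Prop)
    (hPF : ∀ x, WK p v κ x → (P x ↔ F x.a x.b (DK Q x.a x.c x.σ)))
    (hF : ∀ a b D, F a b D → ∃ T : Subgroup G, T ≠ ⊥ ∧ T ≤ D ∧
      b ∈ Subgroup.normalizer (T : Set G)) :
    ∑ x : Tup N G, (if WK p v κ x ∧ P x then sgn x.σ else 0) = 0 := by
  choose! T hT0 hTD hTb using hF
  have key : ∀ (x : Tup N G) (R : Subgroup G), IsPChain p x.σ → R ≠ ⊥ → R ≤ DK Q x.a x.c x.σ →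
      IsPChain p (toggle R x.σ) ∧ DK Q x.a x.c (toggle R x.σ) = DK Q x.a x.c x.σ := by
    intro x R hx h0 hR
    have hRQ : R ≤ Q := hR.trans (DK_le _ _ _ _)
    have h1 := toggle_chain hx (hQ.to_le hRQ) h0 (fun g hg => (mem_DK.1 (hR hg)).1)
    refine ⟨h1, ?_⟩
    ext q
    rw [mem_DK, mem_DK]
    refine and_congr_left (fun h => ?_)
    have hq : q ∈ Subgroup.normalizer (R : Set G) :=
      mem_normalizer_of_comm (fun y hy => hab y (hRQ hy) q h.1)
    refine ⟨fun h2 => ?_, fun h2 => mem_stab_toggle hx.1 h2 hq⟩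
    have := mem_stab_toggle h1.1 h2 hq
    rwa [toggle_toggle] at this
  rw [← Finset.sum_filter]
  refine Finset.sum_involution
    (fun x _ => ⟨x.a, x.b, x.c, toggle (T x.a x.b (DK Q x.a x.c x.σ)) x.σ⟩) ?_ ?_ ?_ ?_
  · intro x _
    simp only [sgn_toggle]
    ring
  · intro x _ _ h
    have h1 := sgn_toggle (T x.a x.b (DK Q x.a x.c x.σ)) x.σ
    have h2 : toggle (T x.a x.b (DK Q x.a x.c x.σ)) x.σ = x.σ := congrArg Tup.σ h
    rw [h2] at h1
    exact sgn_ne_zero x.σ (by linarith)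
  · intro x hx
    rw [Finset.mem_filter] at hx ⊢
    obtain ⟨-, hW, hP⟩ := hx
    have hF := (hPF x hW).1 hP
    obtain ⟨k1, k2⟩ := key x _ hW.1 (hT0 _ _ _ hF) (hTD _ _ _ hF)
    have hW' : WK p v κ ⟨x.a, x.b, x.c, toggle (T x.a x.b (DK Q x.a x.c x.σ)) x.σ⟩ :=
      ⟨k1, mem_stab_toggle hW.1.1 hW.2.1 (mem_normalizer_of_comm fun y hy =>
          (mem_DK.1 (hTD _ _ _ hF hy)).2.2.1),
        mem_stab_toggle hW.1.1 hW.2.2.1 (hTb _ _ _ hF),
        fun i => mem_stab_toggle hW.1.1 (hW.2.2.2.1 i) (mem_normalizer_of_comm fun y hy =>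
          (mem_DK.1 (hTD _ _ _ hF hy)).2.2.2 i), hW.2.2.2.2⟩
    refine ⟨Finset.mem_univ _, hW', (hPF _ hW').2 ?_⟩
    simp only [k2]
    exact hF
  · intro x hx
    rw [Finset.mem_filter] at hx
    obtain ⟨-, hW, hP⟩ := hx
    have hF := (hPF x hW).1 hP
    obtain ⟨-, k2⟩ := key x _ hW.1 (hT0 _ _ _ hF) (hTD _ _ _ hF)
    simp only [k2, toggle_toggle]

end Pool.Agent.Lib.MP_b6945b_al.Kx
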