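import Pool.Agent.Lib.MP_b6945b_al.Kx.RQuot
import Pool.Agent.Lib.MP_b6945b_al.St.KR2
import Pool.Agent.Lib.MP_b6945b_al.St.FrKR1

set_option autoImplicit false

/-!
The small cases of the alternating sum over chains.
-/

namespace Pool.Agent.Lib.MP_b6945b_al.Kx

open St Bi IsLocalRing Finset

variable {G : Type} [Group G] [Fintype G] {V : ValuationSubring ℂ} {p : ℕ} [Fact p.Prime]
  {m : ℕ} {D Q : Subgroup G} {c : MonoidAlgebra V G} {M : Ideal (integralClosure ℤ ℂ)}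

lemma sum_wl_of_KS (hM : CoefB p M V) [Fintype (Finset (Subgroup G))] (h : Rt p m ⊤ D c)
    {I : IrrData G} {i : Fin I.n} (he : IsBlockIdem I i (bk D c ⊤)) (h5 : KS p M (I.χ i) = 0) :
    ∑ σ ∈ chs p D, sgn σ * (wl p (stab σ) D c : ℤ) = 0 := by
  have h6 := card_mul_KS hM h he
  rw [h5, mul_zero, sum_wk_eq hM.nonunit h] at h6
  rw [sum_chs_omg h.pD h.comm fun K => (wl p K D c : ℤ)]
  exact (mul_eq_zero.1 h6.symm).resolve_left (Nat.cast_ne_zero.2 Nat.card_pos.ne')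

lemma defect_of_rt (hM : CoefB p M V) (h : Rt p m ⊤ D c) {I : IrrData G} {i : Fin I.n}
    (he : IsBlockIdem I i (bk D c ⊤)) : IsDefectGroup p M (I.χ i) D := by
  have hpV := hM.nonunit
  obtain ⟨D₀, hD₀⟩ := exists_defectGroup (M := M) hM.prime hM.max ((isIrrChar_iff I).2 ⟨i, rfl⟩)
  have hDV := defV_of_isDefectGroup hM.iff I i hD₀
  obtain ⟨y, hy, hy'⟩ := bb_ne_zero_iff.1 ((h.spec hpV h.le).2.bb_ne h.root.res_ne)
  obtain ⟨g, hg⟩ := hDV.conj_of_coeff hpV he hy' h.pD fun s hs => (mem_Cz.1 hy s hs).symm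
  obtain ⟨y₀, hy₀, hy₀'⟩ := hDV.exists_coeff hpV he
  have h1 : D = cg g D₀ := Subgroup.eq_of_le_of_card_ge (fun s hs => mem_cg.2 (hg s hs)) (by
    rw [card_cg]
    exact h.max y₀ hy₀' D₀ le_top hDV.pD fun s hs => (hy₀ s hs).symm)
  exact h1 ▸ isDefectGroup_conj hM.prime hD₀ g

theorem sum_wl_sq (hM : CoefB p M V) [Fintype (Finset (Subgroup G))] (h : Rt p m ⊤ D c)
    (h0 : D ≠ ⊥) (hc : Nat.card D ∣ p ^ 2) :
    ∑ σ ∈ chs p D, sgn σ * (wl p (stab σ) D c : ℤ) = 0 := by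
  obtain ⟨I⟩ := exists_irrData G
  obtain ⟨i, he⟩ := (h.spec hM.nonunit h.le).1.exists_blockIdem I
  refine sum_wl_of_KS hM h he ?_
  rw [KS_eq, ← finsum_eq_chain]
  exact kr_sum p hM.prime G M hM.max hM.mem _ ((isIrrChar_iff I).2 ⟨i, rfl⟩) D
    (defect_of_rt hM h he) h0 hc

omit [Fintype G] [Fact p.Prime] in
lemma mem_stabT_cj {g t : G} (hg : g ∈ Nz D) :
    t ∈ stabT ⊤ D (cjRep V G g c) ↔ g⁻¹ * t * g ∈ stabT ⊤ D c := by
  have h1 := stabT_conj g ⊤ D c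
  rw [cg_top, cg_eq_iff.2 hg] at h1
  rw [h1, mem_cg]

lemma freeB_of_rt (hp : (p : ℂ) ∈ V.nonunits) (h : Rt p m ⊤ D c)
    (hF : ∀ t ∈ stabT ⊤ D c, ∀ u ∈ D, t * u = u * t → u = 1 ∨ t ∈ Cz D) :
    FreeB (bk D c ⊤) D := by
  intro j n hn hj h0 hs hb hz u hu hnu
  have he := (h.spec hp h.le).1
  have hs' : Supp (Cz D) j := supp_Cz_iff.2 hs
  have hl : Le D (bk D c ⊤) j := (le_iff_inMax hs').2 hb
  obtain ⟨f, hf, h1⟩ : ∃ f ∈ blk V (Cz D), f * j ≠ 0 := by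
    refine Finset.exists_ne_zero_of_sum_ne_zero ?_
    rwa [← Finset.sum_mul, sum_blk, one_mul]
  have hf' := mem_blk.1 hf
  have h2 : f * j * (f * j) = f * j := by
    rw [mul_assoc, ← mul_assoc j, ← hf'.fix.comm hs', mul_assoc, hj, ← mul_assoc, hf'.idem]
  have h3 : Le D (bk D c ⊤) f := by
    refine (le_dich hp h.pD le_top he.idem he.supp he.fix hf' inf_le_right le_top
      (Cz_le_Nz D)).resolve_left fun e => res_ne_of_idem h2 h1 ?_
    unfold Le at hl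
    rw [map_mul, ← hl, ← mul_assoc, hf'.fix.toRes.comm (supp_bb _ _), e, zero_mul]
  have h4 : cjRep V G n f = f := by
    by_contra e
    have h5 := hf'.conj_norm (Nz_le_Nz_Cz D hn)
    have h6 := (hf'.fix.comm ((hf'.supp.sub h5.supp).mul hs')).symm
    have h7 := (hz f (supp_Cz_iff.1 hf'.supp) hf'.fix).mul_right h6
    rw [h6, ← mul_assoc, mul_sub, hf'.idem, hf'.orth h5 (Ne.symm e), sub_zero] at h7
    exact h1 (h7.eq_zero h2)
  obtain ⟨g, -, hg, rfl⟩ := h.root_conj' hp hf' h3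
  have h5 := (mem_stabT_cj hg).1 ⟨trivial, hn, h4⟩
  have h6 : ∀ d ∈ D, g⁻¹ * d * g ∈ D := fun d => (Subgroup.mem_normalizer_iff''.1 hg d).1
  refine (hF _ h5 _ (h6 u hu) ?_).imp (fun e => ?_) fun e d hd => ?_
  · calc _ = g⁻¹ * (n * u) * g := by group
      _ = _ := by rw [hnu]; group
  · calc u = g * (g⁻¹ * u * g) * g⁻¹ := by group
      _ = 1 := by rw [e]; group
  · calc _ = g * (g⁻¹ * n * g * (g⁻¹ * d * g)) * g⁻¹ := by group
      _ = _ := by rw [mem_Cz.1 e _ (h6 d hd)]; group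

theorem sum_wl_free (hM : CoefB p M V) [Fintype (Finset (Subgroup G))] (h : Rt p m ⊤ D c)
    (h0 : D ≠ ⊥) (hF : ∀ t ∈ stabT ⊤ D c, ∀ u ∈ D, t * u = u * t → u = 1 ∨ t ∈ Cz D) :
    ∑ σ ∈ chs p D, sgn σ * (wl p (stab σ) D c : ℤ) = 0 := by
  classical
  let _ : Fintype (Subgroup G) := Fintype.ofFinite _
  have hp := hM.nonunit
  have hb := (h.spec hp h.le).1
  obtain ⟨I⟩ := exists_irrData G
  obtain ⟨i, he⟩ := hb.exists_blockIdem I
  have hD := defect_of_rt hM h he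
  have hχ : IsIrrChar (I.χ i) := (isIrrChar_iff I).2 ⟨i, rfl⟩
  have hC : Coef p M V := ⟨hM.prime, hM.max, hM.mem, hM.iff⟩
  have hE := (Subsingleton.elim · (inferInstance : Fintype G))
  have hfree : FreeC p M V (I.χ i) D := ⟨hχ, hD, h0, h.comm, fun F I' i' e' hi he' => by
    cases hE F
    have h2 : e' = bk D c ⊤ := by
      refine (hb_of_blockIdem he').eq_of_mul_ne hb fun e0 => I'.d_ne i' ?_
      have h3 := ev_chi_central I i e' hb.fix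
      rw [e0, ev_zero, blkF_om_self he, one_mul, hi, ev_chi_eq_om, blkF_om_self he', mul_one] at h3
      exact h3.symm
    exact h2 ▸ freeB_of_rt hp h hF⟩
  refine sum_wl_of_KS hM h he ?_
  rw [KS_eq]
  exact chain_sum_zero hM.prime (wf M (I.χ i)) (d := Nat.card D) (bchain_hd hM.prime hD h0)
    (fun T L h1 h2 h3 h4 => wf_card_dvd hC hχ hD h1 h2 h3 h4)
    fun P L h1 h2 h3 h4 => hfree.wf_local hC h1 h2 h3 h4

theorem dom_stab [Q.Normal] [Fintype (G ⧸ Q)] (hp : (p : ℂ) ∈ V.nonunits) (h : Rt p m ⊤ D c)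
    (hQD : Q ≤ D) {γ : MonoidAlgebra V (G ⧸ Q)}
    (hγ : γ ∈ rts (D.map (qm Q)) (inc V (qm Q) (bk D c ⊤))) :
    ∃ g ∈ Nz D, ∀ s ∈ stabT ⊤ (D.map (qm Q)) γ, ∃ a ∈ Cz (D.map (qm Q)),
      ∃ t ∈ stabT ⊤ D (cjRep V G g c), s = a * qm Q t := by
  classical
  obtain ⟨hγ, hl⟩ := mem_rts.1 hγ
  have he := (h.spec hp le_top).1
  have hP : IsPGroup p Q := h.pD.to_le hQD
  have hPK : Q ≤ Cz D := hQD.trans h.le_Cz
  have hfD : Fix D (bk D c ⊤) := he.fix.mono le_top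
  have h1 := res_idem_eq_sum (bb_idem hp h.pD he.idem hfD) (supp_bb D _)
    ((he.fix.mono le_top).bb (Cz_le_Nz D))
  have h2 := hγ.res_ne
  unfold Le at hl
  rw [← hl, bb_quot hp h.pD hfD, h1, map_sum, Finset.sum_mul] at h2
  obtain ⟨c', hc', h3⟩ := Finset.exists_ne_zero_of_sum_ne_zero h2
  obtain ⟨h4, h5⟩ := Finset.mem_filter.1 hc'
  have hc'' : HB (Cz D) c' := mem_blk.1 h4
  have hf := hc''.quot hp hP hPK (Cz_anti hQD)
  have hK := map_Cz_le Q D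
  have hNK : Nz (D.map (qm Q)) ≤ Nz ((Cz D).map (qm Q)) := by
    rw [Nz_map_qm hQD]
    exact (Subgroup.map_mono (Nz_le_Nz_Cz D)).trans (Subgroup.le_normalizer_map _)
  have h0 : γ * inc V (qm Q) c' ≠ 0 := by
    intro e
    apply h3
    rw [← toRes_inc, ← map_mul, ← hγ.fix.comm (hf.supp.mono hK), e, map_zero]
  have hst := stabT_quot hp hP hPK (Cz_anti hQD) hc'' hQD (Nz_le_Nz_Cz D) ⊤
  rw [map_top_qm] at hst
  obtain ⟨g, -, hg, rfl⟩ := h.root_conj' hp hc'' h5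
  refine ⟨g, hg, ?_⟩
  rintro s ⟨-, hs, hs'⟩
  obtain ⟨a, ha, h6⟩ := hγ.cover_conj hK ((Cz_le_Nz _).trans hNK) hf
    (hf.conj_norm (hNK hs)) h0 fun e => h0 (cj_injective s (by
      rw [cjRep_mul, hs', e, map_zero]))
  have h7 : a⁻¹ * s ∈ stabT ⊤ (D.map (qm Q)) (inc V (qm Q) (cjRep V G g c)) :=
    ⟨trivial, Subgroup.mul_mem _ (Subgroup.inv_mem _ (Cz_le_Nz _ ha)) hs, by
      rw [← frpg_cj_cj, h6, frpg_inv_cj]⟩
  rw [hst] at h7
  obtain ⟨t, ht, h8⟩ := h7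
  exact ⟨a, ha, t, ht, by rw [h8, mul_inv_cancel_left]⟩

end Pool.Agent.Lib.MP_b6945b_al.Kx
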