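import Pool.Agent.Lib.MP_b6945b_al.Kx.VFinA

set_option autoImplicit false

/-!
The condition on the moved factors from the direct factors of the defect group.
-/

namespace Pool.Agent.Lib.MP_b6945b_al.Kx

open St Bi Finset

section abstract
variable {p : ℕ}

lemma vcyc_sec {D : Type} [CommGroup D] [Finite D] (hp : p.Prime) (hD : IsPGroup p D)
    (F : Subgroup (MulAut D)) (hF : ¬ p ∣ Nat.card F) (Z : Subgroup D)
    (hZ : ∀ d, d ∈ Z ↔ ∀ g ∈ F, g d = d) :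
    ∃ W : Subgroup D, Z ⊓ W = ⊥ ∧ Z ⊔ W = ⊤ ∧ Nonempty (D ⧸ Z ≃* W) := by
  let _ : Fintype F := Fintype.ofFinite _
  let ν : D →* D := ∏ g : F, (g : MulAut D).toMonoidHom
  have h1 : ∀ d, ν d = ∏ g : F, (g : MulAut D) d := fun d => MonoidHom.finsetProd_apply _ _ d
  have h2 : ∀ d, ν d ∈ Z := fun d => (hZ _).2 fun g hg => by
    rw [h1, map_prod]
    exact Equiv.prod_comp (Equiv.mulLeft (⟨g, hg⟩ : F)) fun k : F => (k : MulAut D) d
  let s : D ⧸ Z →* D := QuotientGroup.lift Z (powMonoidHom (Nat.card F) / ν) fun z hz => by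
    rw [MonoidHom.mem_ker, MonoidHom.div_apply, h1,
      Finset.prod_congr rfl fun (g : F) _ => (hZ z).1 hz g g.2, Finset.prod_const,
      Finset.card_univ, ← Nat.card_eq_fintype_card, powMonoidHom_apply, div_self']
  have h3 : ∀ x, (s x : D ⧸ Z) = x ^ Nat.card F := fun x => by
    obtain ⟨d, rfl⟩ := QuotientGroup.mk_surjective x
    change ((d ^ Nat.card F / ν d : D) : D ⧸ Z) = _
    rw [QuotientGroup.mk_div, (QuotientGroup.eq_one_iff _).2 (h2 d), div_one, QuotientGroup.mk_pow]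
  let e := (hD.to_quotient Z).powEquiv ((Nat.Prime.coprime_iff_not_dvd hp).2 hF)
  refine ⟨s.range, eq_bot_iff.2 ?_, eq_top_iff.2 fun d _ => ?_,
    ⟨MonoidHom.ofInjective fun x y h => e.injective ((h3 x).symm.trans (h ▸ h3 y))⟩⟩
  · rintro _ ⟨h4, x, rfl⟩
    have h5 : x = 1 := e.injective
      ((h3 x).symm.trans (((QuotientGroup.eq_one_iff _).2 h4).trans (one_pow _).symm))
    rw [h5, map_one]
    exact Subgroup.one_mem _
  · obtain ⟨x, hx⟩ := e.surjective d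
    rw [← div_mul_cancel d (s x)]
    exact Subgroup.mul_mem_sup (QuotientGroup.eq_iff_div_mem.1 (hx.symm.trans (h3 x).symm))
      ⟨x, rfl⟩

lemma vcyc_dich {D : Type} [Group D] [Finite D] (hp : p.Prime) (hc : ∀ a b : D, a * b = b * a)
    (hD : IsPGroup p D) (E : Subgroup (MulAut D)) (hE : ¬ p ∣ Nat.card E)
    (Z : Subgroup D) (hZ : ∀ d, (∀ g ∈ E, (∀ z ∈ Z, g z = z) → g d = d) → d ∈ Z) :
    ∃ W : Subgroup D, Z ⊓ W = ⊥ ∧ Z ⊔ W = ⊤ ∧ Nat.card W = Z.index ∧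
      (IsCyclic W → ∀ α ∈ E, (∀ z, α z ∈ Z ↔ z ∈ Z) →
        (∀ d, α d * d⁻¹ ∈ Z) ∨ ∀ d, α d * d⁻¹ ∈ Z → d ∈ Z) := by
  let _ : CommGroup D := { ‹Group D› with mul_comm := hc }
  obtain ⟨W, h1, h2, ⟨e⟩⟩ := vcyc_sec hp hD (E ⊓ fixingSubgroup (MulAut D) (Z : Set D))
    (fun e => hE (e.trans (Subgroup.card_dvd_of_le inf_le_left))) Z (fun d =>
      ⟨fun hd g hg => (mem_fixingSubgroup_iff _).1 hg.2 d hd, fun hd => hZ d fun g hg hg' =>
        hd g ⟨hg, (mem_fixingSubgroup_iff _).2 hg'⟩⟩)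
  refine ⟨W, h1, h2, (Nat.card_congr e.toEquiv).symm, fun hW α hα hαZ => ?_⟩
  have : IsCyclic (D ⧸ Z) := isCyclic_of_surjective e.symm e.symm.surjective
  have h3 : om1 p (D ⧸ Z) ≤ p :=
    (IsCyclic.card_powMonoidHom_ker (D ⧸ Z) p).trans_le (Nat.gcd_le_right _ hp.pos)
  let β : MulAut (D ⧸ Z) := QuotientGroup.congr Z Z α (by
    ext z
    constructor
    · rintro ⟨z, hz, rfl⟩
      exact (hαZ z).2 hz
    · intro hz
      exact ⟨α.symm z, (hαZ _).1 ((α.apply_symm_apply z).symm ▸ hz), α.apply_symm_apply z⟩)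
  have h4 : ∀ (n : ℕ) (d : D), (β ^ n) d = ((α ^ n) d : D) := fun n d => by
    induction n with
    | zero => rfl
    | succ n ih =>
      rw [pow_succ', pow_succ', MulAut.mul_apply, MulAut.mul_apply, ih]
      rfl
  have h5 : β ^ Nat.card E = 1 := MulEquiv.ext fun x => by
    obtain ⟨d, rfl⟩ := QuotientGroup.mk_surjective x
    rw [h4, show α ^ Nat.card E = 1 from
      congrArg Subtype.val (pow_card_eq_one' (x := (⟨α, hα⟩ : E)))]
    rfl
  have h6 : ∀ d : D, α d * d⁻¹ ∈ Z ↔ β d = d := fun d => by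
    rw [← div_eq_mul_inv, ← QuotientGroup.eq_iff_div_mem]
    rfl
  refine or_iff_not_imp_right.2 fun hn d => ?_
  push Not at hn
  obtain ⟨x, h7, h8⟩ := hn
  rw [h6, vfin_aut hp (hD.to_quotient Z) h3 β (fun e => hE (e.trans (orderOf_dvd_of_pow_eq_one h5)))
    (fun e => h8 ((QuotientGroup.eq_one_iff _).1 e)) ((h6 x).1 h7)]
  rfl

end abstract

variable {G : Type} [Group G] [Fintype G] {V : ValuationSubring ℂ} {p : ℕ} [Fact p.Prime]
  {m : ℕ} {D : Subgroup G} {c : MonoidAlgebra V G}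

theorem gf_of_factors (hp : (p : ℂ) ∈ V.nonunits) (h : Rt p m ⊤ D c) {N : ℕ}
    (hD : ∀ Z F : Subgroup G, Z ⊓ F = ⊥ → Z ⊔ F = D →
      IsCyclic F ∨ Nat.card F ∣ p ^ 2 ∨ N < Nat.card F) : Gf p N ⊤ D c := by
  intro A hA
  have hq : p.Prime := Fact.out
  obtain ⟨E, h1, -, h3, -⟩ := exists_inertial (D := D) (T := stabT ⊤ D c)
    (fun n hn => hn.2.1) h.Cz_le_stab
  have h4 : ¬ p ∣ Nat.card E := fun hE => not_dvd_inert hp h (by
    have h5 := Subgroup.index_mul_card ((Cz D).subgroupOf (stabT ⊤ D c))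
    rw [Nat.card_congr (Subgroup.subgroupOfEquivOfLe h.Cz_le_stab).toEquiv, ← h1] at h5
    exact hE.trans (Nat.eq_of_mul_eq_mul_right Nat.card_pos h5).symm.dvd)
  obtain ⟨W, w1, w2, w3, w4⟩ := vcyc_dich hq (fun a b => Subtype.ext (h.comm _ a.2 _ b.2)) h.pD
    E h4 ((D ⊓ Cz A).subgroupOf D) fun d hd => ⟨d.2, mem_Cz.2 fun a ha => by
      obtain ⟨k, hk⟩ := h3 a (hA ha)
      have h6 := hd k k.2 fun z hz => Subtype.ext
        ((hk z).trans (mul_inv_eq_iff_eq_mul.2 (mem_Cz.1 hz.2 a ha).symm))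
      exact (mul_inv_eq_iff_eq_mul.1 ((hk d).symm.trans (congrArg Subtype.val h6))).symm⟩
  have h5 := Subgroup.map_subgroupOf_eq_of_le (inf_le_left : D ⊓ Cz A ≤ D)
  have h6 := hD (D ⊓ Cz A) (W.map D.subtype)
    (by rw [← h5, ← Subgroup.map_inf _ _ _ D.subtype_injective, w1, Subgroup.map_bot])
    (by rw [← h5, ← Subgroup.map_sup, w2, map_top_sub])
  rw [Subgroup.card_subtype, w3] at h6
  rcases h6 with h6 | h6 | h6
  · refine Or.inr (Or.inr fun t ht hT => ?_)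
    obtain ⟨g, hg⟩ := h3 t hT
    have h7 : ∀ d : D, (g : MulAut D) d * d⁻¹ ∈ (D ⊓ Cz A).subgroupOf D ↔
        t * d * t⁻¹ * (d : G)⁻¹ ∈ D ⊓ Cz A := fun d => by
      rw [Subgroup.mem_subgroupOf, Subgroup.coe_mul, hg, Subgroup.coe_inv]
    have e := W.equivMapOfInjective D.subtype D.subtype_injective
    refine (w4 (isCyclic_of_surjective e.symm e.symm.surjective) g g.2 fun z => ?_).imp
      (fun a d hd => (h7 ⟨d, hd⟩).1 (a _)) fun a d hd e => a ⟨d, hd⟩ ((h7 _).2 e)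
    rw [Subgroup.mem_subgroupOf, Subgroup.mem_subgroupOf, hg]
    exact (Subgroup.mem_normalizer_iff.1 ht _).symm
  · exact Or.inr (Or.inl h6)
  · exact Or.inl h6

end Pool.Agent.Lib.MP_b6945b_al.Kx
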