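import Pool.Agent.Lib.MP_b6945b_al.Kx.PDef

set_option autoImplicit false

/-!
Definitions for the passage to the centraliser of the fixed points of the inertial group.
-/

namespace Pool.Agent.Lib.MP_b6945b_al.Kx

open St Bi Finset

variable {G : Type} [Group G] [Fintype G] {V : ValuationSubring ℂ}

/-- Pairs of inertial elements normalising `P` that commute modulo the centraliser of `P`. -/
structure Adw (D : Subgroup G) (c : MonoidAlgebra V G) (P : Subgroup G) (x y : G) : Prop where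
  xT : x ∈ stabT ⊤ D c
  yT : y ∈ stabT ⊤ D c
  xN : x ∈ Nz P
  yN : y ∈ Nz P
  com : y * x * y⁻¹ * x⁻¹ ∈ Cz P

/-- Every inertial element centralising `P` centralises `Q`. -/
def Wat (D : Subgroup G) (c : MonoidAlgebra V G) (P Q : Subgroup G) : Prop :=
  stabT ⊤ D c ⊓ Cz P ≤ Cz Q

/-- The condition on the moved factors of `D`. -/
def Gf (p N : ℕ) (H D : Subgroup G) (c : MonoidAlgebra V G) : Prop :=
  ∀ A : Subgroup G, A ≤ stabT H D c →
    N < (D ⊓ Cz A).relIndex D ∨ (D ⊓ Cz A).relIndex D ∣ p ^ 2 ∨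
      ∀ t ∈ Nz (D ⊓ Cz A), t ∈ stabT H D c →
        (∀ d ∈ D, t * d * t⁻¹ * d⁻¹ ∈ D ⊓ Cz A) ∨
          ∀ d ∈ D, t * d * t⁻¹ * d⁻¹ ∈ D ⊓ Cz A → d ∈ D ⊓ Cz A

end Pool.Agent.Lib.MP_b6945b_al.Kx
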