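import Pool.Agent.Lib.MP_b6945b_al.Kx.VDef
import Pool.Agent.Lib.MP_b6945b_al.Kx.PUnit

set_option autoImplicit false

/-!
The number of Brauer characters does not change on passing to the centraliser of an element of
the defect group that is fixed by the inertial group.
-/

namespace Pool.Agent.Lib.MP_b6945b_al.Kx

open St Bi Finset

section
variable {p : ℕ} {E D X : Type} [Group E] [Fintype E] [iD : Group D] [Fintype D] [Fintype X]
  [DecidableEq X] {φ : E →* MulAut D} {P : D → Matrix X X ℂ}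

open Classical in
lemma MS0.sum_fibre (h : MS0 p φ P) {Q : Type} [CommGroup Q] [Fintype Q] (π : D →* Q)
    (hs : Function.Surjective π) (hi : ∀ g d, π (φ g d) = π d) (q : Q) :
    (Fintype.card E : ℂ)⁻¹ * Fintype.card Q *
      ∑ d, (if π d = q then (stb φ d : ℂ) * (P d).rank else 0) = Fintype.card X := by
  have h1 : ∑ χ, opr φ P (fun d => if π d = q then (Fintype.card Q : ℂ) else 0) χ χ =
      Fintype.card X := by
    simp only [h.diag_fibre π hs hi q, sum_const, card_univ, nsmul_eq_mul, mul_one]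
  rw [← h1]
  simp only [opr_apply]
  rw [← Finset.mul_sum, mul_assoc, Finset.sum_comm, Finset.mul_sum]
  congr 1
  refine Finset.sum_congr rfl fun d _ => ?_
  rw [← Finset.mul_sum, ← trace_eq_rank _ (h.idem d), Matrix.trace]
  simp only [Matrix.diag_apply]
  split_ifs
  · ring
  · simp

theorem MS0.rank_shift [Fact p.Prime] (h : MS0 p φ P) (hE : ¬ p ∣ Nat.card E) {u : D}
    (hu : ∀ g, φ g u = u) (ih : ∀ d, (∃ g, φ g d ≠ d) → (P (u * d)).rank = (P d).rank) :
    (P u).rank = (P 1).rank := by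
  classical
  let : CommGroup D := { iD with mul_comm := h.comm }
  let ν : D →* D :=
    { toFun := fun d => ∏ g, φ g d
      map_one' := by simp
      map_mul' := fun a b => by simp [Finset.prod_mul_distrib] }
  have hν : ∀ g d, ν (φ g d) = ν d := fun g d =>
    Fintype.prod_equiv (Equiv.mulRight g) _ _ fun a => by simp
  let _ : Fintype ν.range := Fintype.ofFinite _
  have h1 := fun q => h.sum_fibre ν.rangeRestrict ν.rangeRestrict_surjective
    (fun g d => Subtype.ext (hν g d)) q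
  have h2 := (h1 (ν.rangeRestrict u)).trans (h1 1).symm
  have h3 := mul_left_cancel₀ (mul_ne_zero (inv_ne_zero (card_ne E)) (card_ne ν.range)) h2
  rw [← Equiv.sum_comp (Equiv.mulLeft u)] at h3
  simp only [Equiv.coe_mulLeft] at h3
  rw [← sub_eq_zero, ← Finset.sum_sub_distrib, Finset.sum_eq_single 1] at h3
  · have h4 : stb φ (1 : D) ≠ 0 := by
      rw [stb, Nat.card_congr (Equiv.subtypeUnivEquiv fun g => map_one (φ g))]
      exact Nat.card_pos.ne'
    have h5 : stb φ u = stb φ (1 : D) := by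
      rw [stb, stb, Nat.card_congr (Equiv.subtypeUnivEquiv fun g => map_one (φ g)),
        Nat.card_congr (Equiv.subtypeUnivEquiv hu)]
    rw [mul_one, if_pos rfl, if_pos (map_one _), h5, ← mul_sub,
      mul_eq_zero, sub_eq_zero] at h3
    exact_mod_cast h3.resolve_left (Nat.cast_ne_zero.2 h4)
  · intro d _ hd
    rw [map_mul, sub_eq_zero]
    by_cases e : ν.rangeRestrict d = 1
    · have h4 : stb φ (u * d) = stb φ d := Nat.card_congr (Equiv.subtypeEquivRight fun g => by
        rw [map_mul, hu, mul_right_inj])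
      rw [if_pos e, if_pos (by rw [e, mul_one]), h4, ih d]
      by_contra k
      push Not at k
      have h5 : ∏ g, φ g d = 1 := congrArg Subtype.val e
      simp only [k, prod_const, card_univ] at h5
      obtain ⟨j, hj⟩ := h.pD d
      have h6 : (Fintype.card E).Coprime (p ^ j) := by
        rw [← Nat.card_eq_fintype_card]
        exact ((Nat.Prime.coprime_iff_not_dvd Fact.out).2 hE).symm.pow_right j
      exact hd (orderOf_eq_one_iff.1 (Nat.eq_one_of_dvd_coprimes h6
        (orderOf_dvd_of_pow_eq_one h5) (orderOf_dvd_of_pow_eq_one hj)))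
    · rw [if_neg e, if_neg fun e' => e (mul_eq_left.1 e')]
  · exact fun e => absurd (mem_univ _) e

end

lemma vun_ind {V : ValuationSubring ℂ} {p : ℕ} [Fact p.Prime] (hp : (p : ℂ) ∈ V.nonunits)
    (n : ℕ) : ∀ (G : Type) [Group G] [Fintype G] (m : ℕ) (H D : Subgroup G)
      (c : MonoidAlgebra V G) (z : G), Nat.card H < n → Rt p m H D c → z ∈ D →
      stabT H D c ≤ Cu z → lL p H (bk D c H) = lL p (H ⊓ Cu z) (bk D c (H ⊓ Cu z)) := by
  classical
  induction n with
  | zero => exact fun _ _ _ _ _ _ _ _ h => absurd h (Nat.not_lt_zero _)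
  | succ n ih =>
  have top : ∀ (G : Type) [Group G] [Fintype G] (m : ℕ) (D : Subgroup G)
      (c : MonoidAlgebra V G) (z : G), Nat.card G < n + 1 → Rt p m ⊤ D c → z ∈ D →
      stabT ⊤ D c ≤ Cu z → lL p ⊤ (bk D c ⊤) = lL p (Cu z) (bk D c (Cu z)) := by
    intro G _ _ m D c z hG h hz hT
    let _ : Fintype D := Fintype.ofFinite _
    obtain ⟨I⟩ := exists_irrData G
    obtain ⟨i₀, he⟩ := (h.spec hp le_top).1.exists_blockIdem I
    obtain ⟨E, h1, h2, h3, h4⟩ := exists_inertial (D := D) (T := stabT ⊤ D c)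
      (fun n hn => hn.2.1) h.Cz_le_stab
    let _ : Fintype E := Fintype.ofFinite _
    have hE : ¬ p ∣ Nat.card E := fun hE => not_dvd_inert hp h (by
      have h5 := Subgroup.index_mul_card ((Cz D).subgroupOf (stabT ⊤ D c))
      rw [Nat.card_congr (Subgroup.subgroupOfEquivOfLe h.Cz_le_stab).toEquiv, ← h1] at h5
      exact hE.trans (Nat.eq_of_mul_eq_mul_right Nat.card_pos h5).symm.dvd)
    have hu : ∀ g : E, E.subtype g ⟨z, hz⟩ = ⟨z, hz⟩ := fun g => by
      obtain ⟨t, ht, e⟩ := h2 g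
      refine Subtype.ext ((e _).trans ?_)
      rw [← mem_Cu.1 (hT ht), mul_inv_cancel_right]
    have hfix : ∀ d : D, Cu (d : G) = ⊤ → ∀ g : E, E.subtype g d = d := fun d hd g => by
      obtain ⟨t, -, e⟩ := h2 g
      refine Subtype.ext ((e _).trans ?_)
      rw [← mem_Cu.1 (hd.ge (Subgroup.mem_top t)), mul_inv_cancel_right]
    have hloc : ∀ d ∈ D, Cu d ≠ ⊤ →
        lL p (Cu d) (bk D c (Cu d)) = lL p (Cu d ⊓ Cu z) (bk D c (Cu d ⊓ Cu z)) := fun d hd hne =>
      ih G m _ D c z ((bind_card_lt hne).trans_le (Nat.lt_succ_iff.1 hG)) (h.cu_top hp hd) hz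
        ((stabT_mono le_top D c).trans hT)
    have h5 := (ms0 hp h he E h1 h2 h3 h4).rank_shift hE hu fun d ⟨g, hg⟩ => by
      rw [rank_orb hp h (⟨z, hz⟩ * d : D).2 he, rank_orb hp h d.2 he,
        hloc _ d.2 fun e => hg (hfix d e g), hloc _ (⟨z, hz⟩ * d : D).2 fun e => hg ?_]
      · have e : Cu ((⟨z, hz⟩ * d : D) : G) ⊓ Cu z = Cu (d : G) ⊓ Cu z := by
          ext a
          simp only [Subgroup.mem_inf, mem_Cu, Subgroup.coe_mul]
          refine and_congr_left fun ha => ?_
          rw [← mul_assoc, ← ha, mul_assoc, mul_assoc, mul_right_inj]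
        rw [e]
      · have e1 := hfix _ e g
        rwa [map_mul, hu, mul_right_inj] at e1
    have h7 := rank_orb hp h D.one_mem he
    rw [Cu_one] at h7
    exact h7.symm.trans (h5.symm.trans (rank_orb hp h hz he))
  intro G _ _ m H D c z hH h hz hT
  let _ : Fintype H := Fintype.ofFinite _
  have hz' : (⟨z, h.le_H hz⟩ : H) ∈ D.subgroupOf H := hz
  have h1 := h.lL_map hp (K := Cu (⟨z, h.le_H hz⟩ : H)) (Cz_le_Cu hz')
  rw [map_Cu] at h1
  rw [lind_pull hp h, h1]
  refine top H m _ _ _ hH (h.pull hp) hz' fun t ht => mem_Cu.2 (Subtype.ext ?_)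
  exact mem_Cu.1 (hT (h.stab_map.le ⟨t, ht, rfl⟩))

variable {G : Type} [Group G] [Fintype G] {V : ValuationSubring ℂ} {p : ℕ} [Fact p.Prime]
  {m : ℕ} {H D P Q : Subgroup G} {c : MonoidAlgebra V G}

theorem lL_cent (hp : (p : ℂ) ∈ V.nonunits) (h : Rt p m H D c) {z : G} (hz : z ∈ D)
    (hT : stabT H D c ≤ Cu z) :
    lL p H (bk D c H) = lL p (H ⊓ Cu z) (bk D c (H ⊓ Cu z)) :=
  vun_ind hp _ G m H D c z (Nat.lt_succ_self _) h hz hT

theorem lL_wat0 (hp : (p : ℂ) ∈ V.nonunits) (h : Rt p m ⊤ D c) (hP : P ≤ Q) (hQ : Q ≤ D)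
    (hT : Wat D c P Q) : lL p (Cz P) (eP D c P) = lL p (Cz Q) (eP D c Q) := by
  induction P using WellFoundedGT.induction with
  | ind P ih =>
  by_cases hQP : Q ≤ P
  · rw [le_antisymm hP hQP]
  obtain ⟨u, hu, hu'⟩ := SetLike.not_le_iff_exists.1 hQP
  have h1 := lL_cent hp (h.local hp (hP.trans hQ) inf_le_right le_top (Cz_le_Nz P)) (hQ hu)
    fun t ht => Cz_le_Cu hu (hT ⟨⟨trivial, ht.2⟩, ht.1⟩)
  rw [← pu_Cz_sup] at h1
  refine h1.trans (ih (P ⊔ Subgroup.zpowers u) (lt_of_le_of_ne le_sup_left fun e =>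
    hu' (e.ge (Subgroup.mem_sup_right (Subgroup.mem_zpowers u))))
    (sup_le hP (Subgroup.zpowers_le.2 hu)) ?_)
  exact (inf_le_inf_left _ (Cz_anti le_sup_left)).trans hT

end Pool.Agent.Lib.MP_b6945b_al.Kx
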