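import Pool.Agent.Lib.MP_b6945b_al.Kx.WInj

set_option autoImplicit false

/-!
Restriction to the centraliser of a subgroup fixed by the inertial group preserves traces.
-/

namespace Pool.Agent.Lib.MP_b6945b_al.Kx

open St Bi IsLocalRing Finset Matrix
open MonoidAlgebra (single)
open scoped Classical

lemma wr_trace {W : Type} [AddCommGroup W] [Module ℂ W] [FiniteDimensional ℂ W]
    {a e f y : Module.End ℂ W} (he : e * e = e) (hf : f * f = f) (h1 : a * f = a) (h2 : e * a = a)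
    (hy : y * a = a * y) (hi : ∀ w, f w = w → a w = 0 → w = 0)
    (ht : LinearMap.trace ℂ W e = LinearMap.trace ℂ W f) :
    LinearMap.trace ℂ W (y * e) = LinearMap.trace ℂ W (y * f) := by
  have key : ∀ e : Module.End ℂ W, e * e = e → LinearMap.IsProj (LinearMap.range e) e :=
    fun e he => ⟨fun v => LinearMap.mem_range_self _ v, by
      rintro _ ⟨v, rfl⟩
      rw [← Module.End.mul_apply, he]⟩
  rw [(key e he).trace, (key f hf).trace, Nat.cast_inj] at ht
  have h3 : ∀ w ∈ LinearMap.range f, a w ∈ LinearMap.range e := fun w _ =>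
    ⟨a w, by rw [← Module.End.mul_apply, h2]⟩
  have h4 : Function.Injective (a.restrict h3) := (injective_iff_map_eq_zero _).2 fun w hw =>
    Subtype.ext (hi w ((key f hf).map_id w w.2) (congrArg Subtype.val hw))
  let φ := LinearMap.linearEquivOfInjective _ h4 ht.symm
  let b : Module.End ℂ W := (LinearMap.range f).subtype ∘ₗ φ.symm.toLinearMap ∘ₗ e.rangeRestrict
  have h5 : a * b = e := LinearMap.ext fun w =>
    congrArg Subtype.val (φ.apply_symm_apply (e.rangeRestrict w))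
  have h6 : b * a = f := LinearMap.ext fun w => by
    refine Eq.trans ?_ (congrArg Subtype.val (φ.symm_apply_apply (f.rangeRestrict w)))
    refine congrArg (fun z => ((φ.symm z : LinearMap.range f) : W)) (Subtype.ext ?_)
    change (e * a) w = (a * f) w
    rw [h1, h2]
  rw [← h5, ← h6, ← mul_assoc, hy, mul_assoc, LinearMap.trace_mul_comm, mul_assoc]

variable {G : Type} [Group G] [Fintype G] {V : ValuationSubring ℂ} {p : ℕ} [Fact p.Prime]
  {K L : Subgroup G} {ε f : MonoidAlgebra V G} {x y a g : G}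

omit [Group G] in
lemma wr_trace' {A E F Y : Matrix G G ℂ} (hE : E * E = E) (hF : F * F = F) (h1 : F * A = A)
    (h2 : A * E = A) (hy : Y * A = A * Y) (hi : ∀ w, w ᵥ* F = w → w ᵥ* A = 0 → w = 0)
    (ht : E.trace = F.trace) : (E * Y).trace = (F * Y).trace := by
  have hm : ∀ M N : Matrix G G ℂ, (toLin' Mᵀ * toLin' Nᵀ : Module.End ℂ (G → ℂ)) =
      toLin' (N * M)ᵀ := fun M N => by rw [transpose_mul, toLin'_mul]; rfl
  have h3 := wr_trace (a := toLin' Aᵀ) (e := toLin' Eᵀ) (f := toLin' Fᵀ) (y := toLin' Yᵀ)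
    (by rw [hm, hE]) (by rw [hm, hF]) (by rw [hm, h1]) (by rw [hm, h2]) (by rw [hm, hm, hy])
    (fun w a1 a2 => hi w (by rwa [toLin'_apply, mulVec_transpose] at a1)
      (by rwa [toLin'_apply, mulVec_transpose] at a2))
    (by rw [trace_toLin'_eq, trace_toLin'_eq, trace_transpose, trace_transpose, ht])
  rwa [hm, hm, trace_toLin'_eq, trace_toLin'_eq, trace_transpose, trace_transpose] at h3

omit [Group G] [Fact p.Prime] in
lemma wr_scale {w : G → ℂ} (h : w ≠ 0) [Group G] :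
    ∃ (r : ℂ) (W : MonoidAlgebra V G), cf W = r • w ∧ toRes V G W ≠ 0 := by
  obtain ⟨a, -, ha⟩ := Finset.exists_max_image univ (fun g => V.valuation (w g))
    ⟨1, mem_univ _⟩
  have h1 : w a ≠ 0 := fun e => h (funext fun g => by
    have h2 := ha g (mem_univ g)
    rwa [e, map_zero, le_zero_iff, map_eq_zero] at h2)
  obtain ⟨W, hW⟩ := exists_cf (V := V) (z := (w a)⁻¹ • w) fun g => by
    rw [← V.valuation_le_one_iff, Pi.smul_apply, smul_eq_mul, map_mul, map_inv₀]
    exact (inv_mul_le_one₀ (zero_lt_iff.2 ((map_ne_zero _).2 h1))).2 (ha g (mem_univ g))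
  refine ⟨_, W, hW, fun e => ?_⟩
  have h2 : W.coeff a = 1 := Subtype.ext ((congrFun hW a).trans (inv_mul_cancel₀ h1))
  have h3 := congrArg (fun z => z.coeff a) e
  simp [coeff_toRes, h2] at h3

lemma av_sing' (hp : (p : ℂ) ∈ V.nonunits) (h : CI K ε x) (ha : a * x⁻¹ ∈ K) (hg : g * x⁻¹ ∈ K)
    (hra : p ∣ orderOf a) (hrg : ¬ p ∣ orderOf g) : av K ε g a = 0 := by
  have h1 : Reg p (cnt K a) = 0 := by
    funext b
    by_cases e : p ∣ orderOf b
    · exact Reg_apply_sing _ e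
    · rw [Reg_apply_reg _ e]
      by_contra h0
      obtain ⟨k, -, rfl⟩ := cnt_ne h0
      exact e (by rwa [borth_ord])
  rw [av_eq_ev, ← orth_reg hp h.idem (h.supp.mono le_sup_left) (h.change hg).fix_sup
    (fun l hl b _ => (cnt_inv K a).ext h.nz (cnt_coset h.nz ha) hg l hl b)
    (Subgroup.mem_sup_right (Subgroup.mem_zpowers g)) hrg, h1]
  simp [ev]

omit [Fact p.Prime] in
lemma wr_cf (W ε : MonoidAlgebra V G) (a : G) : cf (W * ε) a = ∑ g, cf W g * cf ε (g⁻¹ * a) := by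
  rw [cf_mul]
  rfl

lemma wr_kap (hp : (p : ℂ) ∈ V.nonunits) (h : CI K ε x) {W : MonoidAlgebra V G}
    (hw : ∀ g, ¬ (g * x⁻¹ ∈ K ∧ ¬ p ∣ orderOf g) → cf W g = 0) (a : G) :
    ∑ k, (if k ∈ K then cf (W * ε) (k * a * k⁻¹) else 0) =
      Nat.card K * (cf W ᵥ* kap p K ε x) a := by
  have h1 : ∀ k, (if k ∈ K then cf (W * ε) (k * a * k⁻¹) else 0) =
      ∑ g, cf W g * if k ∈ K then cf ε (g⁻¹ * (k * a * k⁻¹)) else 0 := fun k => by
    split_ifs
    · exact wr_cf ..
    · simp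
  simp only [h1, vecMul, dotProduct, Finset.mul_sum]
  rw [Finset.sum_comm]
  refine Finset.sum_congr rfl fun g _ => ?_
  rw [← Finset.mul_sum]
  by_cases hg : g * x⁻¹ ∈ K ∧ ¬ p ∣ orderOf g
  swap
  · simp [hw g hg]
  change _ * av K ε g a = _ * (_ * if _ then _ else _)
  split_ifs with ha
  · rw [mul_left_comm, mul_inv_cancel_left₀ (cardK_ne K)]
  · have h3 : av K ε g a = 0 := by
      by_cases e : a * x⁻¹ ∈ K
      · exact av_sing' hp h e hg.1 (by_contra fun e' => ha ⟨hg, e, e'⟩) hg.2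
      · exact av_supp h.supp h.nz fun e' => e (e'.1 hg.1)
    simp [h3]

theorem muK_res (hp : (p : ℂ) ∈ V.nonunits) (hLK : L ≤ K) (hK : CI K ε x) (hL : CI L f x)
    (hyK : CI K ε y) (hyL : CI L f y) (hc : y * x * y⁻¹ * x⁻¹ ∈ L)
    (h1 : muK p K ε x 1 = muK p L f x 1)
    (h0 : ∀ W : MonoidAlgebra V G, (∀ g, g * x⁻¹ ∉ L → cf W g = 0) → Fix L W → W * f = W →
      toRes V G W ≠ 0 → rtr (cjRep V G) L K W * ε ≠ 0) :
    muK p K ε x y = muK p L f x y := by
  let ρ : Matrix G G ℂ := Matrix.of fun s g =>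
    if s * x⁻¹ ∈ L ∧ ¬ p ∣ orderOf s then cf f (s⁻¹ * g) else 0
  have r1 : cjM y * ρ = ρ * cjM y := by
    ext g b
    obtain ⟨g, rfl⟩ := (MulAut.conj y).surjective g
    rw [cjM_mul, mul_cjM, MulAut.conj_apply, show y⁻¹ * (y * g * y⁻¹) * y = g by group]
    refine if_congr (by simp only [coset_conj' hyL.nz hc, borth_ord]) ?_ rfl
    conv_rhs => rw [← hyL.cj, cf, coeff_cjRep]
    rw [cf]
    congr 2
    group
  have r2 : ∀ s b, (ρ * kap p K ε x) s b = if s * x⁻¹ ∈ L ∧ ¬ p ∣ orderOf s then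
      ev (fun g => kap p K ε x g b) (single s 1 * f) else 0 := fun s b => by
    rw [Matrix.mul_apply, ev_single_mul']
    simp only [ρ, Matrix.of_apply]
    split_ifs
    · rfl
    · simp
  have r3 : kap p L f x * (ρ * kap p K ε x) = ρ * kap p K ε x := by
    ext s b
    have i1 : KInv L fun g => kap p K ε x g b := fun l hl g =>
      if_congr (by simp only [coset_conj hK.nz (hLK hl), borth_ord])
        (congrArg _ (av_left hK.fix b l (hLK hl) g)) rfl
    rw [Matrix.mul_apply]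
    simp only [r2]
    generalize (fun g => kap p K ε x g b) = Φ at i1
    have i2 : KInv L fun g => ev Φ (single g 1 * f) := fun l hl g => by
      beta_reduce
      rw [← i1.ev_cj hl (single g 1 * f), cjRep_mul, hL.fix l hl, frpg_cj_single]
    have i3 : KInv L fun g => if g * x⁻¹ ∈ L ∧ ¬ p ∣ orderOf g then ev Φ (single g 1 * f) else 0 :=
      fun l hl g => if_congr (by simp only [coset_conj hL.nz hl, borth_ord]) (i2 l hl g) rfl
    simp only [kap, Matrix.of_apply]
    by_cases hs : s * x⁻¹ ∈ L ∧ ¬ p ∣ orderOf s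
    swap
    · simp [hs]
    have i4 := av_sum i3 f s
    have i5 := ev_reg hp hL i2 hs.1 hs.2
    rw [ev_ev, mul_assoc, hL.idem] at i5
    rw [ev_single_mul'] at i4
    simp only [mul_ite, mul_zero] at i4
    rw [if_pos hs, i5, (eq_inv_mul_iff_mul_eq₀ (cardK_ne L)).2 i4.symm, Finset.mul_sum]
    refine Finset.sum_congr rfl fun g _ => ?_
    by_cases hg : g * x⁻¹ ∈ L ∧ ¬ p ∣ orderOf g
    · rw [if_pos ⟨hs, hg⟩, if_pos hg, if_pos hg, mul_assoc]
    · simp [hg]
  have c1 := kap_comm (p := p) hyK.nz (hLK hc) hyK.cj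
  rw [← trace_kap hyK.nz (hLK hc), ← trace_kap hyL.nz hc]
  refine wr_trace' (kap_idem hp hK) (kap_idem hp hL) r3 (by rw [Matrix.mul_assoc, kap_idem hp hK])
    (by rw [← Matrix.mul_assoc, r1, Matrix.mul_assoc, c1, Matrix.mul_assoc]) (fun w a1 a2 => ?_)
    (by rw [trace_kap_one, trace_kap_one, h1])
  by_contra a3
  obtain ⟨r, W, a4, a5⟩ := wr_scale (V := V) a3
  have b1 : cf W ᵥ* kap p L f x = cf W := by rw [a4, smul_vecMul, a1]
  have b2 : cf W ᵥ* (ρ * kap p K ε x) = 0 := by rw [a4, smul_vecMul, a2, smul_zero]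
  have b3 : ∀ g, ¬ (g * x⁻¹ ∈ L ∧ ¬ p ∣ orderOf g) → cf W g = 0 := fun g hg => by
    rw [← b1]
    exact Finset.sum_eq_zero fun s _ => mul_eq_zero_of_right _ (if_neg fun e => hg e.2)
  have b4 : Fix L W := fun l hl => cf_injective (funext fun g => by
    rw [cf, coeff_cjRep]
    change cf W _ = _
    rw [← b1]
    refine Finset.sum_congr rfl fun s _ => congrArg _ ?_
    have e := inv_mem hl
    rw [← inv_inv l, inv_inv l⁻¹]
    exact if_congr (by simp only [coset_conj hL.nz e, borth_ord])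
      (congrArg _ (av_right f s _ e g)) rfl)
  have b5 : W * f = W := cf_injective (funext fun g => by
    have e := wr_kap hp hL b3 g
    rw [b1, Finset.sum_congr rfl fun l _ => if_congr Iff.rfl rfl rfl] at e
    refine mul_left_cancel₀ (cardK_ne L) (Eq.trans ?_ e)
    rw [← sum_mem_const]
    refine Finset.sum_congr rfl fun l _ => ?_
    split_ifs with hl
    · exact (borth_cf_conj (b4.mul hL.fix) hl g).symm
    · rfl)
  have b6 : cf W ᵥ* ρ = cf W := funext fun g => by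
    conv_rhs => rw [← b5, wr_cf]
    refine Finset.sum_congr rfl fun s _ => ?_
    by_cases hs : s * x⁻¹ ∈ L ∧ ¬ p ∣ orderOf s
    · exact congrArg _ (if_pos hs)
    · rw [b3 s hs, zero_mul, zero_mul]
  rw [← vecMul_vecMul, b6] at b2
  refine h0 W (fun g hg => b3 g fun e => hg e.1) b4 b5 a5 ?_
  rw [(mul_rtr_cj hK.fix _).2]
  refine cf_injective (funext fun g => mul_left_cancel₀ (cardK_ne L) ?_)
  rw [← pu_sum hLK (b4.mul (hK.fix.mono hLK)), wr_kap hp hK fun s hs => ?_, b2]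
  · simp [cf]
  · exact b3 s fun e => hs ⟨hLK e.1, e.2⟩

variable {m : ℕ} {D P S : Subgroup G} {c : MonoidAlgebra V G}

theorem mu_res (hp : (p : ℂ) ∈ V.nonunits) (h : Rt p m ⊤ D c) (hPD : P ≤ D) (hSD : S ≤ D)
    (hT : TP D c P ≤ Cz S) (ha : AdW D c P x y) (hx : x ∈ Cz S) (hy : y ∈ Nz S)
    (h1 : mu p D c P x 1 = mu p D c (P ⊔ S) x 1) :
    mu p D c P x y = mu p D c (P ⊔ S) x y := by
  have hR : P ⊔ S ≤ D := sup_le hPD hSD
  refine muK_res hp (Cz_anti le_sup_left) (Adm.ci hp h hPD ha.xT ha.xN)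
    (Adm.ci hp h hR ha.xT (nz_sup ha.xN (Cz_le_Nz S hx))) (Adm.ci hp h hPD ha.yT ha.yN)
    (Adm.ci hp h hR ha.yT (nz_sup ha.yN hy)) (by
      rw [pu_Cz_sup]
      exact ⟨ha.com, hT ha.comT⟩) h1 fun W a1 => wi_core hp h hPD hSD hT fun g hg => ?_
  by_contra e
  refine hg (Subtype.ext (a1 g fun e' => e ?_))
  simpa using mul_mem (Cz_anti le_sup_right e') hx

end Pool.Agent.Lib.MP_b6945b_al.Kx
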