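import Pool.Agent.Lib.MP_b6945b_al.Kx.VSec
import Pool.Agent.Lib.MP_b6945b_al.Kx.WRes
import Pool.Agent.Lib.MP_b6945b_al.Kx.VUn
import Pool.Agent.Lib.MP_b6945b_al.Kx.PMain

set_option autoImplicit false

/-!
The traces `mu` agree at two levels with the same inertial group.
-/

namespace Pool.Agent.Lib.MP_b6945b_al.Kx

open St Bi Finset
open scoped Classical

variable {G : Type} [Group G] [Fintype G] {V : ValuationSubring ℂ} {p : ℕ} [Fact p.Prime]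
  {m : ℕ} {H D P Q : Subgroup G} {c : MonoidAlgebra V G} {x y s t d : G}

/-- The index set of the section formula. -/
def Vx (D : Subgroup G) (c : MonoidAlgebra V G) (P : Subgroup G) (x d s : G) : Prop :=
  s ∈ stabT ⊤ D c ∧ s * x⁻¹ ∈ Cz P ∧ s ∈ Cu d

omit [Fintype G] in
lemma Wat.eq (hT : Wat D c P Q) (hP : P ≤ Q) : stabT ⊤ D c ⊓ Cz Q = stabT ⊤ D c ⊓ Cz P :=
  le_antisymm (inf_le_inf_left _ (Cz_anti hP)) (le_inf inf_le_left hT)

omit [Fintype G] in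
lemma Wat.sup (hT : Wat D c P Q) (S : Subgroup G) : Wat D c (P ⊔ S) (Q ⊔ S) := fun t ht => by
  rw [pu_Cz_sup]
  exact ⟨hT ⟨ht.1, Cz_anti le_sup_left ht.2⟩, Cz_anti le_sup_right ht.2⟩

omit [Fintype G] in
lemma Vx.wat (h : Vx D c P x d s) (hT : Wat D c P Q) (hx : x ∈ stabT ⊤ D c) : Vx D c Q x d s :=
  ⟨h.1, hT (Subgroup.mem_inf.2 ⟨mul_mem h.1 (inv_mem hx), h.2.1⟩), h.2.2⟩

omit [Fintype G] in
lemma Vx.nz (h : Vx D c P x d s) (hx : x ∈ Nz P) : s ∈ Nz (P ⊔ Subgroup.zpowers d) :=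
  pu_Nz_sup (by simpa using (Nz P).mul_mem (Cz_le_Nz P h.2.1) hx) (Cz_le_Nz _ h.2.2)

omit [Fintype G] in
lemma Vx.cz (h : Vx D c P 1 d s) : s ∈ Cz (P ⊔ Subgroup.zpowers d) := by
  rw [pu_Cz_sup]
  exact ⟨by simpa using h.2.1, h.2.2⟩

omit [Fintype G] in
lemma Adw.comT (h : Adw D c P x y) : y * x * y⁻¹ * x⁻¹ ∈ stabT ⊤ D c ⊓ Cz P :=
  Subgroup.mem_inf.2 ⟨mul_mem (mul_mem (mul_mem h.yT h.xT) (inv_mem h.yT)) (inv_mem h.xT), h.com⟩

omit [Fintype G] in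
lemma Adw.wat (h : Adw D c P x y) (hT : Wat D c P Q) (hx : x ∈ Nz Q) (hy : y ∈ Nz Q) :
    Adw D c Q x y := ⟨h.xT, h.yT, hx, hy, hT h.comT⟩

omit [Fintype G] in
lemma Adw.one_right (h : Adw D c P x y) : Adw D c P x 1 :=
  ⟨h.xT, one_mem _, h.xN, one_mem _, by simp⟩

omit [Fintype G] in
lemma Adw.one_left (h : Adw D c P x y) : Adw D c P 1 x :=
  ⟨one_mem _, h.xT, one_mem _, h.xN, by simp⟩

omit [Fintype G] in
lemma Adw.move1 (h : Adw D c P x y) : Adw D c P x (y * x) :=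
  ⟨h.xT, mul_mem h.yT h.xT, h.xN, mul_mem h.yN h.xN, by
    rw [show y * x * x * (y * x)⁻¹ * x⁻¹ = y * x * y⁻¹ * x⁻¹ by group]
    exact h.com⟩

omit [Fintype G] in
lemma Adw.move2 (h : Adw D c P x y) : Adw D c P (x * y) y :=
  ⟨mul_mem h.xT h.yT, h.yT, mul_mem h.xN h.yN, h.yN, by
    rw [show y * (x * y) * y⁻¹ * (x * y)⁻¹ = y * x * y⁻¹ * x⁻¹ by group]
    exact h.com⟩

omit [Fintype G] in
lemma Adw.vx (h : Adw D c P x y) (hs : Vx D c P x d s) (ht : Vx D c P y d t) :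
    Adw D c (P ⊔ Subgroup.zpowers d) s t := by
  refine ⟨hs.1, ht.1, hs.nz h.xN, ht.nz h.yN, ?_⟩
  rw [pu_Cz_sup, Subgroup.mem_inf]
  refine ⟨?_, mul_mem (mul_mem (mul_mem ht.2.2 hs.2.2) (inv_mem ht.2.2)) (inv_mem hs.2.2)⟩
  rw [show t * s * t⁻¹ * s⁻¹ = t * y⁻¹ * (y * (s * x⁻¹) * y⁻¹) * (y * x * y⁻¹ * x⁻¹) *
    (x * (t * y⁻¹)⁻¹ * x⁻¹) * (s * x⁻¹)⁻¹ by group]
  exact mul_mem (mul_mem (mul_mem (mul_mem ht.2.1 (bpp_Nz_Cz h.yN hs.2.1)) h.com)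
    (bpp_Nz_Cz h.xN (inv_mem ht.2.1))) (inv_mem hs.2.1)

lemma vmain_nz (hy : y ∈ Nz Q) (hc : y * x * y⁻¹ * x⁻¹ ∈ Cz Q) : y ∈ Nz (Q ⊓ Cu x) := by
  refine Subgroup.mem_normalizer_fintype fun d hd => ?_
  have h1 : y * d * y⁻¹ ∈ Q := (Subgroup.mem_normalizer_iff.1 hy d).1 hd.1
  refine ⟨h1, mem_Cu.2 ?_⟩
  have h2 : x * d = d * x := mem_Cu.1 hd.2
  have h3 := mem_Cz.1 (inv_mem hc) _ h1
  calc x * (y * d * y⁻¹) = (y * x * y⁻¹ * x⁻¹)⁻¹ * (y * (x * d) * y⁻¹) := by group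
    _ = (y * x * y⁻¹ * x⁻¹)⁻¹ * (y * d * y⁻¹) * (y * x * y⁻¹) := by rw [h2]; group
    _ = y * d * y⁻¹ * x := by rw [h3]; group

theorem mu_restrictw (hp : (p : ℂ) ∈ V.nonunits) (h : Rt p m ⊤ D c) (hP : P ≤ Q) (hQ : Q ≤ D)
    (hT : Wat D c P Q) (ha : Adw D c P x y) (hy : y ∈ Nz Q)
    (hR : Q ≤ P ⊔ (Q ⊓ Cu x)) (h1 : mu p D c P x 1 = mu p D c Q x 1) :
    mu p D c P x y = mu p D c Q x y := by
  have e : P ⊔ (Q ⊓ Cu x) = Q := le_antisymm (sup_le hP inf_le_left) hR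
  have h2 := mu_res hp h (hP.trans hQ) (S := Q ⊓ Cu x) (inf_le_left.trans hQ)
    (le_trans hT (Cz_anti inf_le_left)) ⟨ha.xT, ha.yT, ha.xN, ha.yN, ha.com⟩
    (mem_Cz.2 fun d hd => mem_Cu.1 hd.2) (vmain_nz hy (hT ha.comT)) (by rwa [e])
  rwa [e] at h2

/-- The section formula at the level `Q` with the index sets of the level `P`. -/
lemma vmain_sec (hp : (p : ℂ) ∈ V.nonunits) (h : Rt p m ⊤ D c) (hP : P ≤ Q) (hQ : Q ≤ D)
    (hT : Wat D c P Q) (ha : Adw D c Q x y) :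
    (Nat.card (stabT ⊤ D c ⊓ Cz P : Subgroup G) : ℂ) * tau D c Q x y =
      ∑ d ∈ univ.filter (· ∈ D), (Nat.card (stabT ⊤ D c ⊓ Cz P ⊓ Cu d : Subgroup G) : ℂ)⁻¹ *
        ∑ s ∈ univ.filter (Vx D c P x d), ∑ t ∈ univ.filter (Vx D c P y d),
          mu p D c (Q ⊔ Subgroup.zpowers d) s t := by
  have h1 := tau_eq_sumw hp h hQ ha
  rw [hT.eq hP] at h1
  rw [h1]
  have h2 : ∀ z ∈ stabT ⊤ D c, ∀ d s, (s ∈ stabT ⊤ D c ∧ s * z⁻¹ ∈ Cz Q ∧ s ∈ Cu d) ↔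
      Vx D c P z d s := fun z hz d s =>
    ⟨fun e => ⟨e.1, Cz_anti hP e.2.1, e.2.2⟩, fun e => e.wat hT hz⟩
  refine Finset.sum_congr rfl fun d _ => congrArg _ (Finset.sum_congr ?_ fun s _ =>
    Finset.sum_congr ?_ fun _ _ => rfl)
  · ext s
    simp only [mem_filter, h2 x ha.xT]
  · ext s
    simp only [mem_filter, h2 y ha.yT]

lemma vmain_tau (hp : (p : ℂ) ∈ V.nonunits) (h : Rt p m ⊤ D c) (hP : P ≤ Q) (hQ : Q ≤ D)
    (hT : Wat D c P Q) (ha : Adw D c P x y) (hb : Adw D c Q x y)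
    (hall : ∀ d ∈ D, ∀ s t, Vx D c P x d s → Vx D c P y d t →
      mu p D c (P ⊔ Subgroup.zpowers d) s t = mu p D c (Q ⊔ Subgroup.zpowers d) s t) :
    tau D c P x y = tau D c Q x y := by
  refine mul_left_cancel₀ (cardK_ne (stabT ⊤ D c ⊓ Cz P)) ?_
  rw [vmain_sec hp h hP hQ hT hb, vmain_sec hp h le_rfl (hP.trans hQ) inf_le_right ha]
  exact Finset.sum_congr rfl fun d hd => congrArg _ (Finset.sum_congr rfl fun s hs =>
    Finset.sum_congr rfl fun t ht =>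
      hall d (mem_filter.1 hd).2 s t (mem_filter.1 hs).2 (mem_filter.1 ht).2)

omit [Fact p.Prime] in
lemma vmain_in (hd : d ∈ P) (hs : Vx D c P x d s) (ht : Vx D c P y d t) :
    mu p D c (P ⊔ Subgroup.zpowers d) s t = mu p D c P x y := by
  rw [pmain_eq hd, ← inv_mul_cancel_right s x, ← inv_mul_cancel_right t y, mu,
    muK_left hs.2.1, muK_right ht.2.1]

lemma vmain_diff (hp : (p : ℂ) ∈ V.nonunits) (h : Rt p m ⊤ D c) (hP : P ≤ Q) (hQ : Q ≤ D)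
    (hT : Wat D c P Q) (ha : Adw D c P x y) (hb : Adw D c Q x y)
    (hout : ∀ d ∈ D, d ∉ P → ∀ s t, Vx D c P x d s → Vx D c P y d t →
      mu p D c (P ⊔ Subgroup.zpowers d) s t = mu p D c (Q ⊔ Subgroup.zpowers d) s t) :
    mu p D c P x y = mu p D c Q x y ↔ tau D c P x y = tau D c Q x y := by
  refine ⟨fun e => vmain_tau hp h hP hQ hT ha hb fun d hd s t hs ht => ?_, fun e => ?_⟩
  · by_cases hd' : d ∈ P
    · rw [vmain_in hd' hs ht, vmain_in (hP hd') (hs.wat hT ha.xT) (ht.wat hT ha.yT), e]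
    · exact hout d hd hd' s t hs ht
  have h1 := vmain_sec hp h hP hQ hT hb
  rw [← e, vmain_sec hp h le_rfl (hP.trans hQ) inf_le_right ha, ← sub_eq_zero,
    ← Finset.sum_sub_distrib] at h1
  have h2 : ∀ d ∈ univ.filter (· ∈ D),
      (Nat.card (stabT ⊤ D c ⊓ Cz P ⊓ Cu d : Subgroup G) : ℂ)⁻¹ *
        ∑ s ∈ univ.filter (Vx D c P x d), ∑ t ∈ univ.filter (Vx D c P y d),
          mu p D c (P ⊔ Subgroup.zpowers d) s t -
      (Nat.card (stabT ⊤ D c ⊓ Cz P ⊓ Cu d : Subgroup G) : ℂ)⁻¹ *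
        ∑ s ∈ univ.filter (Vx D c P x d), ∑ t ∈ univ.filter (Vx D c P y d),
          mu p D c (Q ⊔ Subgroup.zpowers d) s t =
      ((if d ∈ P then (univ.filter (Vx D c P x d)).card * (univ.filter (Vx D c P y d)).card
        else 0 : ℕ) : ℂ) * ((Nat.card (stabT ⊤ D c ⊓ Cz P : Subgroup G) : ℂ)⁻¹ *
          (mu p D c P x y - mu p D c Q x y)) := by
    intro d hd
    by_cases hd' : d ∈ P
    · rw [if_pos hd', inf_eq_left.2 (inf_le_right.trans (Cz_le_Cu hd')),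
        Finset.sum_congr rfl fun s hs => Finset.sum_congr rfl fun t ht =>
          vmain_in hd' (mem_filter.1 hs).2 (mem_filter.1 ht).2,
        Finset.sum_congr rfl fun s hs => Finset.sum_congr rfl fun t ht =>
          vmain_in (hP hd') ((mem_filter.1 hs).2.wat hT ha.xT) ((mem_filter.1 ht).2.wat hT ha.yT)]
      simp only [sum_const, nsmul_eq_mul, Nat.cast_mul]
      ring
    · rw [if_neg hd', Nat.cast_zero, zero_mul, sub_eq_zero]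
      exact congrArg _ (Finset.sum_congr rfl fun s hs => Finset.sum_congr rfl fun t ht =>
        hout d (mem_filter.1 hd).2 hd' s t (mem_filter.1 hs).2 (mem_filter.1 ht).2)
  rw [Finset.sum_congr rfl h2, ← Finset.sum_mul, ← Nat.cast_sum, mul_eq_zero, mul_eq_zero,
    Nat.cast_eq_zero, Finset.sum_eq_zero_iff, sub_eq_zero] at h1
  rcases h1 with e1 | e1 | e1
  · have h3 := e1 1 (mem_filter.2 ⟨mem_univ _, D.one_mem⟩)
    have h4 : ∀ z ∈ stabT ⊤ D c, (univ.filter (Vx D c P z 1)).card ≠ 0 := fun z hz =>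
      Finset.card_ne_zero_of_mem (mem_filter.2 ⟨mem_univ z, hz, by simp, mem_Cu.2 (by simp)⟩)
    rw [if_pos P.one_mem] at h3
    exact absurd h3 (mul_ne_zero (h4 x ha.xT) (h4 y ha.yT))
  · exact absurd e1 (inv_ne_zero (cardK_ne _))
  · exact e1

lemma vmain_left (hp : (p : ℂ) ∈ V.nonunits) (h : Rt p m ⊤ D c) (hP : P ≤ Q) (hQ : Q ≤ D)
    (hT : Wat D c P Q) (ha : Adw D c P 1 y) (hy : y ∈ Nz Q) :
    mu p D c P 1 y = mu p D c Q 1 y := by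
  refine mu_restrictw hp h hP hQ hT ha hy ?_ ?_
  · rw [Cu_one, inf_top_eq]
    exact le_sup_right
  · have h1 := eP_hb hp h (hP.trans hQ)
    have h2 := eP_hb hp h hQ
    rw [mu, mu, ← lL_eq_muK hp h1.idem h1.supp h1.fix, ← lL_eq_muK hp h2.idem h2.supp h2.fix,
      lL_wat0 hp h hP hQ hT]

lemma vmain_right (hp : (p : ℂ) ∈ V.nonunits) (h : Rt p m ⊤ D c) (hP : P ≤ Q) (hQ : Q ≤ D)
    (hT : Wat D c P Q) (ha : Adw D c P x 1) (hx : x ∈ Nz Q) :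
    mu p D c P x 1 = mu p D c Q x 1 := by
  induction P using WellFoundedGT.induction generalizing Q x with
  | ind P ih =>
  have hb := ha.wat hT hx (one_mem _)
  have hle : ∀ d ∈ D, Q ⊔ Subgroup.zpowers d ≤ D := fun d hd =>
    sup_le hQ (Subgroup.zpowers_le.2 hd)
  have e : ∀ R ≤ D, x ∈ Nz R → tau D c R x 1 = tau D c R 1 x := fun R hR hxR => by
    have h1 := Adm.ci hp h hR ha.xT hxR
    have h2 := Adm.ci hp h hR ha.yT (one_mem _)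
    rw [tau, tau, ← tauK_move1 h1 h2, ← tauK_move2 h2 h1, one_mul]
  refine (vmain_diff hp h hP hQ hT ha hb fun d hd hd' s t hs ht => ?_).2 ?_
  · rw [← mul_one t, mu, mu, muK_right ht.cz, muK_right (ht.wat hT (one_mem _)).cz]
    exact ih _ (pmain_lt hd') (sup_le_sup_right hP _) (hle d hd) (hT.sup _)
      (ha.vx hs ht).one_right ((hs.wat hT ha.xT).nz hx)
  · rw [e P (hP.trans hQ) ha.xN, e Q hQ hx]
    refine vmain_tau hp h hP hQ hT ha.one_left hb.one_left fun d hd s t hs ht => ?_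
    rw [← mul_one s, mu, mu, muK_left hs.cz, muK_left (hs.wat hT (one_mem _)).cz]
    exact vmain_left hp h (sup_le_sup_right hP _) (hle d hd) (hT.sup _)
      ⟨one_mem _, ht.1, one_mem _, ht.nz ha.xN, by simp⟩ ((ht.wat hT ha.xT).nz hx)

theorem mu_eqw (hp : (p : ℂ) ∈ V.nonunits) (h : Rt p m ⊤ D c) (hP : P ≤ Q) (hQ : Q ≤ D)
    (hT : Wat D c P Q) (ha : Adw D c P x y) (hx : x ∈ Nz Q) (hy : y ∈ Nz Q) :
    mu p D c P x y = mu p D c Q x y := by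
  induction P using WellFoundedGT.induction generalizing Q x y with
  | ind P ih =>
  by_cases hQP : Q ≤ P
  · rw [le_antisymm hP hQP]
  have hPD := hP.trans hQ
  have key : ∀ x y, Adw D c P x y → Adw D c Q x y →
      (mu p D c P x y = mu p D c Q x y ↔ tau D c P x y = tau D c Q x y) := fun x y ha hb =>
    vmain_diff hp h hP hQ hT ha hb fun d hd hd' s t hs ht =>
      ih _ (pmain_lt hd') (sup_le_sup_right hP _) (sup_le hQ (Subgroup.zpowers_le.2 hd))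
        (hT.sup _) (ha.vx hs ht) ((hs.wat hT ha.xT).nz hb.xN) ((ht.wat hT ha.yT).nz hb.yN)
  have hno : ((Cz D).subgroupOf (stabT ⊤ D c)).Normal :=
    (Subgroup.normal_subgroupOf_iff_le_normalizer h.Cz_le_stab).2
      fun t ht => Nz_le_Nz_Cz D ht.2.1
  refine euclid (T := stabT ⊤ D c ⊓ Nz Q) (h.pD.to_le hQ)
    (fun a ha b hb => h.comm a (hQ ha) b (hQ hb)) hQP inf_le_right (not_dvd_inert hp h)
    (fun t ht => Cz_anti hQ (((Cz D).subgroupOf (stabT ⊤ D c)).pow_index_mem ⟨t, ht.1⟩))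
    (fun x y => Adw D c P x y → Adw D c Q x y → mu p D c P x y = mu p D c Q x y) ?_ ?_ ?_
    ⟨ha.xT, hx⟩ ⟨ha.yT, hy⟩ ?_ ha (ha.wat hT hx hy)
  · intro x y e ha hb
    have e1 := (key _ _ ha.move1 hb.move1).1 (e ha.move1 hb.move1)
    rw [tau, tau, tauK_move1 (Adm.ci hp h hPD ha.xT ha.xN) (Adm.ci hp h hPD ha.yT ha.yN),
      tauK_move1 (Adm.ci hp h hQ ha.xT hb.xN) (Adm.ci hp h hQ ha.yT hb.yN)] at e1
    exact (key _ _ ha hb).2 e1
  · intro x y e ha hb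
    have e1 := (key _ _ ha.move2 hb.move2).1 (e ha.move2 hb.move2)
    rw [tau, tau, tauK_move2 (Adm.ci hp h hPD ha.xT ha.xN) (Adm.ci hp h hPD ha.yT ha.yN),
      tauK_move2 (Adm.ci hp h hQ ha.xT hb.xN) (Adm.ci hp h hQ ha.yT hb.yN)] at e1
    exact (key _ _ ha hb).2 e1
  · rintro x y ⟨d, hd, hd', e⟩ ha hb
    have hle : P ⊔ (Q ⊓ Cu x) ≤ Q := sup_le hP inf_le_left
    have hlt : P < P ⊔ (Q ⊓ Cu x) := lt_of_le_of_ne le_sup_left fun e' =>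
      hd' (e'.ge (Subgroup.mem_sup_right ⟨hd, mem_Cu.2 e⟩))
    have hT' : Wat D c P (P ⊔ (Q ⊓ Cu x)) := le_trans hT (Cz_anti hle)
    have hx' : x ∈ Nz (P ⊔ (Q ⊓ Cu x)) :=
      pu_Nz_sup ha.xN (Cz_le_Nz _ (mem_Cz.2 fun d hd => mem_Cu.1 hd.2))
    have hy' : y ∈ Nz (P ⊔ (Q ⊓ Cu x)) := pu_Nz_sup ha.yN (vmain_nz hb.yN hb.com)
    rw [mu_restrictw hp h le_sup_left (hle.trans hQ) hT' ha hy'
      (sup_le_sup_left (le_inf le_sup_right inf_le_right) _)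
      (vmain_right hp h le_sup_left (hle.trans hQ) hT' ha.one_right hx')]
    exact ih _ hlt hle hQ ((inf_le_inf_left _ (Cz_anti le_sup_left)).trans hT)
      (ha.wat hT' hx' hy') hb.xN hb.yN
  · rw [show x * y * x⁻¹ * y⁻¹ = (y * x * y⁻¹ * x⁻¹)⁻¹ by group]
    exact inv_mem (hT ha.comT)

omit [Fintype G] in
lemma vmain_stab (hT : stabT ⊤ D c ≤ H) : stabT H D c = stabT ⊤ D c :=
  le_antisymm (stabT_mono le_top D c) fun _ hg => ⟨hT hg, hg.2⟩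

theorem lL_wat (hp : (p : ℂ) ∈ V.nonunits) (h : Rt p m ⊤ D c) (hP : P ≤ Q) (hQ : Q ≤ D)
    [P.Normal] (hT : Wat D c P Q) (hN : stabT ⊤ D c ≤ Nz Q) :
    lL p ⊤ (bk D c ⊤) = lL p (Nz Q) (bk D c (Nz Q)) := by
  have hn : ⊤ ≤ Nz P := (Subgroup.normalizer_eq_top P).ge
  have h1 := count_rt hp h (hP.trans hQ) le_top hn
  have h2 := count_rt hp (h.local hp hQ (inf_le_right.trans (Cz_le_Nz Q)) le_top le_rfl) hQ
    (Cz_le_Nz Q) le_rfl
  rw [vmain_stab hN, hT.eq hP] at h2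
  refine Nat.cast_injective (R := ℂ) (mul_left_cancel₀
    (mul_ne_zero (cardK_ne (stabT ⊤ D c)) (cardK_ne (stabT ⊤ D c ⊓ Cz P))) ?_)
  rw [h1, h2]
  refine Finset.sum_congr rfl fun x hx => Finset.sum_congr rfl fun y hy => ?_
  have h4 := (mem_filter.1 hx).2
  have h5 := (mem_filter.1 hy).2
  by_cases e : y * x * y⁻¹ * x⁻¹ ∈ Cz P
  · exact mu_eqw hp h hP hQ hT ⟨h4, h5, hn trivial, hn trivial, e⟩ (hN h4) (hN h5)
  · rw [mu, mu, muK_noncomm (eP_hb hp h (hP.trans hQ)).supp (Nz_le_Nz_Cz P (hn trivial))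
      (Nz_le_Nz_Cz P (hn trivial)) e, muK_noncomm (eP_hb hp h hQ).supp (Nz_le_Nz_Cz Q (hN h4))
      (Nz_le_Nz_Cz Q (hN h5)) fun e' => e (Cz_anti hP e')]

theorem lL_nz_inf (hp : (p : ℂ) ∈ V.nonunits) (h : Rt p m ⊤ D c) (hT : stabT ⊤ D c ≤ H) :
    lL p (H ⊓ Nz D) (bk D c (H ⊓ Nz D)) = lL p (Nz D) (bk D c (Nz D)) := by
  have hN : stabT ⊤ D c ≤ Nz D := fun t ht => ht.2.1
  have hC : Cz D ≤ H ⊓ Nz D := h.Cz_le_stab.trans (le_inf hT hN)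
  have h1 := count_rt hp (h.local hp le_rfl (inf_le_right.trans hC) le_top inf_le_right) le_rfl
    hC inf_le_right
  have h2 := count_rt hp (h.local hp le_rfl (inf_le_right.trans (Cz_le_Nz D)) le_top le_rfl)
    le_rfl (Cz_le_Nz D) le_rfl
  rw [vmain_stab (le_inf hT hN)] at h1
  rw [vmain_stab hN] at h2
  exact Nat.cast_injective (R := ℂ) (mul_left_cancel₀
    (mul_ne_zero (cardK_ne (stabT ⊤ D c)) (cardK_ne (stabT ⊤ D c ⊓ Cz D))) (h1.trans h2.symm))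

end Pool.Agent.Lib.MP_b6945b_al.Kx
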