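import Pool.Agent.Lib.MP_b6945b_al.Kx.VStep
import Pool.Agent.Lib.MP_b6945b_al.Kx.VMain

set_option autoImplicit false

/-!
The number of Brauer characters of a block with good moved factors.
-/

namespace Pool.Agent.Lib.MP_b6945b_al.Kx

open St Bi Finset

theorem lL_reducew (p b : ℕ) [Fact p.Prime] : ∃ N : ℕ, ∀ (M : Ideal (integralClosure ℤ ℂ))
    (V : ValuationSubring ℂ), CoefB p M V →
    ∀ (G : Type) [Group G] [Fintype G] (m : ℕ) (H D : Subgroup G) (c : MonoidAlgebra V G),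
      Rt p m H D c → om1 p D ≤ b → Gf p N H D c →
      lL p H (bk D c H) = lL p (H ⊓ Nz D) (bk D c (H ⊓ Nz D)) := by
  obtain ⟨N, hN⟩ := lL_reducew_of p b
  exact ⟨N, fun M V hM => hN M V hM fun _ _ _ _ _ Q _ _ h hQ =>
    lL_wat hM.nonunit h (le_cl hQ) inf_le_left (same_cl hQ).cz
      fun _ ht => nz_cl ht ((Subgroup.normalizer_eq_top Q).ge trivial)⟩

end Pool.Agent.Lib.MP_b6945b_al.Kx
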