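import Pool.Agent.Lib.MP_b6945b_al.Kx.WDz
import Pool.Agent.Lib.MP_b6945b_al.WeightDefs

set_option autoImplicit false

/-!
The weights of a block with abelian defect group.
-/

namespace Pool.Agent.Lib.MP_b6945b_al.Kx

open St Bi IsLocalRing Finset

variable {G : Type} [Group G] [Fintype G] {V : ValuationSubring ℂ} {p : ℕ} [Fact p.Prime]
  {M : Ideal (integralClosure ℤ ℂ)} {m : ℕ} {D P : Subgroup G} {c e : MonoidAlgebra V G}
  {I : IrrData G} {i : Fin I.n}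

lemma wInd_spec (hM : CoefB p M V) (he : IsBlockIdem I i e) (hP : IsPGroup p P) [Fintype (Nz P)]
    [Fintype (Nz P ⧸ P.subgroupOf (Nz P))] (J : IrrData (Nz P ⧸ P.subgroupOf (Nz P))) :
    ∃ b : Fin J.n → MonoidAlgebra V (Nz P),
      (∀ j, HB ⊤ (b j) ∧ ∀ a, IsBlockIdem J j a → a * inc V (qm _) (b j) = a) ∧
      wInd p M (I.χ i) P = Nat.card {j // p ^ (Nat.card
        (Nz P ⧸ P.subgroupOf (Nz P))).factorization p ∣ J.d j ∧
          Le P e (inc V (Nz P).subtype (b j))} := by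
  obtain ⟨I'⟩ := exists_irrData (Nz P)
  choose f hf using St.exists_blockIdem (V := V) I'
  choose κ h1 h2 using wdz_infl (V := V) I' J
  have h3 : ∀ j, IndTo M (I.χ i) (Nz P) (fun h : Nz P => J.χ j h) ↔
      Le P e (inc V (Nz P).subtype (f (κ j))) := fun j => by
    rw [h1, kr1b_indTo_iff hM.iff, cblk_iff hM.nonunit he hP Subgroup.le_normalizer le_rfl
      (fun g hg => Cz_le_Nz P (mem_Cz.2 fun u hu => (hg u hu).symm)) (hf _)]
  refine ⟨fun j => f (κ j), fun j => ⟨hb_of_blockIdem (hf _), fun a ha => h2 j a _ ha (hf _)⟩,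
    (Nat.card_congr (Equiv.ofBijective (fun j => ⟨J.χ j.1, (isIrrChar_iff J).2 ⟨_, rfl⟩,
      ⟨_, J.χ_one _, j.2.1⟩, (h3 _).2 j.2.2⟩) ⟨fun j k e => ?_, ?_⟩)).symm⟩
  · exact Subtype.ext (J.χ_injective (congrArg Subtype.val e))
  · rintro ⟨ψ, a, ⟨d, b, b'⟩, c⟩
    obtain ⟨j, rfl⟩ := (isIrrChar_iff J).1 a
    rw [J.χ_one, Nat.cast_inj] at b
    exact ⟨⟨j, b ▸ b', (h3 j).1 c⟩, rfl⟩

/-- The first component of a weight is a defect group. -/
lemma wInd_conj (hM : CoefB p M V) (h : Rt p m ⊤ D c) (he : IsBlockIdem I i (bk D c ⊤))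
    (hP : IsPGroup p P) (h0 : wInd p M (I.χ i) P ≠ 0) : ∃ g, P = cg g D := by
  have hp := hM.nonunit
  let _ : Fintype (Nz P) := Fintype.ofFinite _
  let _ : Fintype (Nz P ⧸ P.subgroupOf (Nz P)) := Fintype.ofFinite _
  obtain ⟨J⟩ := exists_irrData (Nz P ⧸ P.subgroupOf (Nz P))
  obtain ⟨b, h1, h2⟩ := wInd_spec hM he hP J
  obtain ⟨⟨j, h3, h4⟩⟩ := (Nat.card_ne_zero.1 (h2 ▸ h0)).1
  obtain ⟨a, ha⟩ := St.exists_blockIdem (V := V) J j
  obtain ⟨g, hg, h5⟩ := cdbl_ex hp h hP Subgroup.le_normalizer le_rfl (Cz_le_Nz P)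
    (hb_inc_top (h1 j).1) h4
  have h6 := cdbl_local hp h le_rfl (Cz_le_Nz P) hg
  have h7 := h6.bk_map hp (K := ⊤) le_top
  rw [map_top_sub, h5] at h7
  have h8 := wdz_bot hp h3 ha ((h6.pull hp).pD.map _) (dom_ne' (Q := P.subgroupOf (Nz P)) hp
    (h6.pull hp) (Subgroup.comap_mono hg)
    ((map_top_qm (P.subgroupOf (Nz P))).symm ▸ hb_of_blockIdem ha)
    (inc_injective (Nz P).subtype_injective h7 ▸ (h1 j).2 a ha))
  rw [Subgroup.map_eq_bot_iff, QuotientGroup.ker_mk'] at h8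
  exact ⟨g, le_antisymm hg fun x hx => h8 (x := ⟨x, h6.le_H hx⟩) hx⟩

/-- The weights at the defect group. -/
lemma wInd_self (hM : CoefB p M V) (h : Rt p m ⊤ D c) (he : IsBlockIdem I i (bk D c ⊤)) :
    wInd p M (I.χ i) D = lL p (Nz D) (bk D c (Nz D)) := by
  classical
  have hp := hM.nonunit
  let _ : Fintype (Nz D) := Fintype.ofFinite _
  let _ : Fintype (Nz D ⧸ D.subgroupOf (Nz D)) := Fintype.ofFinite _
  obtain ⟨J⟩ := exists_irrData (Nz D ⧸ D.subgroupOf (Nz D))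
  obtain ⟨b, h1, h2⟩ := wInd_spec hM he h.pD J
  choose a ha using St.exists_blockIdem (V := V) J
  have h3 := h.nz hp
  rw [top_inf_eq] at h3
  have h4 := h3.pull hp
  have h5 := h3.lL_map hp (K := ⊤) le_top
  have h6 := h3.bk_map hp (K := ⊤) le_top
  rw [map_top_sub] at h5 h6
  have h7 : ∀ β, HB ⊤ β → β * inc V (qm _) (bk (D.subgroupOf (Nz D))
      (St.pull V (Nz D).subtype c) ⊤) = β → MaxR p ⊤ ⊥ β := fun β hβ hl => by
    have h8 := h4.dom_max hp le_rfl ((map_top_qm (D.subgroupOf (Nz D))).symm ▸ hβ) hl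
    rwa [map_top_qm, map_self_qm] at h8
  rw [h2, h5, h4.lL_dom hp le_rfl, map_top_qm, Finset.sum_congr rfl fun β hβ => wdz_lL hp
    (mem_blk.1 (mem_filter.1 hβ).1) (h7 β (mem_blk.1 (mem_filter.1 hβ).1) (mem_filter.1 hβ).2),
    ← Finset.card_eq_sum_ones, ← Nat.card_eq_finsetCard]
  refine Nat.card_congr (Equiv.ofBijective (fun j => ⟨a j.1, mem_filter.2
    ⟨mem_blk.2 (hb_of_blockIdem (ha _)), ?_⟩⟩) ⟨fun j k e => ?_, ?_⟩)
  · have h8 := h.bk_unique hp ((top_inf_eq (Nz D)).symm ▸ hb_inc_top (h1 j).1) j.2.2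
    rw [top_inf_eq, h6] at h8
    rw [← inc_injective (Nz D).subtype_injective h8]
    exact (h1 j).2 _ (ha _)
  · exact Subtype.ext (wdz_bl hp j.2.1 ((cblk_eq_iff (ha _) (ha _)).1 (congrArg Subtype.val e))).symm
  · rintro ⟨β, hβ⟩
    obtain ⟨h8, h9⟩ := mem_filter.1 hβ
    obtain ⟨j, hj⟩ := (mem_blk.1 h8).exists_blockIdem J
    obtain rfl : β = a j := (cblk_eq_iff hj (ha j)).2 (wdz_refl J j)
    refine ⟨⟨j, wdz_of_max hp hj (h7 _ (mem_blk.1 h8) h9), ?_⟩, rfl⟩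
    rw [(h1 j).1.eq_of_mul_ne (h4.spec hp h4.le).1 fun e => (mem_blk.1 h8).ne (by
      rw [← h9, ← (h1 j).2 _ hj, mul_assoc, ← map_mul, e, map_zero, mul_zero]), ← h6]
    exact h3.below hp le_rfl le_top (inf_le_right.trans (Cz_le_Nz D)) le_top le_rfl

omit [Fact p.Prime] in
lemma lL_cj {K : Subgroup G} (hβ : Supp K e) (g : G) :
    lL p (cg g K) (cjRep V G g e) = lL p K e := by
  have h1 : inc V (MulAut.conj g).toMonoidHom e = cjRep V G g e := by
    ext x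
    rw [coeff_cjRep, ← coeff_inc (φ := (MulAut.conj g).toMonoidHom) (MulAut.conj g).injective e]
    simp [mul_assoc]
  rw [← h1]
  exact lL_inc p (MulAut.conj g).injective hβ

open Classical in
lemma card_cg_mul {G : Type} [Group G] [Fintype (Subgroup G)] (D : Subgroup G) :
    (univ.filter fun P => ∃ g, P = cg g D).card * Nat.card (Nz D) = Nat.card G := by
  rw [Subgroup.card_eq_card_quotient_mul_card_subgroup (Nz D), ← Nat.card_eq_finsetCard]
  refine congrArg (· * _) (Nat.card_congr (Equiv.ofBijective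
    (fun q => ⟨cg q.out D, mem_filter.2 ⟨mem_univ _, _, rfl⟩⟩) ⟨fun q r e => ?_, ?_⟩).symm)
  · rw [← q.out_eq, ← r.out_eq]
    refine QuotientGroup.eq.2 (cg_eq_iff.1 ?_)
    rw [← cg_cg, ← show cg q.out D = cg r.out D from congrArg Subtype.val e, cg_cg,
      inv_mul_cancel, cg_one]
  · rintro ⟨P, hP⟩
    obtain ⟨g, rfl⟩ := (mem_filter.1 hP).2
    obtain ⟨n, hn⟩ := QuotientGroup.mk_out_eq_mul (Nz D) g
    refine ⟨g, Subtype.ext ?_⟩
    change cg _ D = cg g D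
    rw [hn, ← cg_cg, cg_eq_iff.2 n.2]

theorem sum_wInd_rt (hM : CoefB p M V) (h : Rt p m ⊤ D c) (he : IsBlockIdem I i (bk D c ⊤)) :
    ∑ᶠ (P : Subgroup G) (_ : IsPGroup p P), Nat.card (Nz P) * wInd p M (I.χ i) P =
      Nat.card G * lInd p M (I.χ i) (Nz D) := by
  classical
  have hp := hM.nonunit
  let _ : Fintype (Subgroup G) := Fintype.ofFinite _
  rw [(lInd_eq_lL hM h he).2, ← card_cg_mul D, mul_assoc, ← smul_eq_mul, ← Finset.sum_const,
    Finset.sum_filter, finsum_eq_sum_of_fintype]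
  refine Finset.sum_congr rfl fun P _ => ?_
  rw [finsum_eq_if]
  split_ifs with h1 h2 h2
  · obtain ⟨g, rfl⟩ := h2
    obtain ⟨h3, h4⟩ := cdbl_rt hp h g
    rw [wInd_self hM h3 (h4.symm ▸ he), Nz_cg, card_cg, h.bk_conj hp (Cz_le_Nz D),
      lL_cj (h.spec hp (Cz_le_Nz D)).1.supp]
  · rw [not_not.1 fun a => h2 (wInd_conj hM h he h1 a), mul_zero]
  · obtain ⟨g, rfl⟩ := h2
    exact absurd (h.pD.map _) h1
  · rfl

/-- For a block with abelian defect group `D` the number of conjugacy classes of weights is the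
number of Brauer characters of the Brauer correspondent. -/
theorem sum_wInd (p : ℕ) (hp : p.Prime) (G : Type) [Group G] [Finite G]
    (M : Ideal (integralClosure ℤ ℂ)) (hM : M.IsMaximal) (hpM : (p : integralClosure ℤ ℂ) ∈ M)
    (χ : G → ℂ) (hχ : IsIrrChar χ) (D : Subgroup G) (hD : IsDefectGroup p M χ D)
    (hc : ∀ x ∈ D, ∀ y ∈ D, x * y = y * x) :
    ∑ᶠ (P : Subgroup G) (_ : IsPGroup p P),
      Nat.card (Subgroup.normalizer (P : Set G)) * wInd p M χ P =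
        Nat.card G * lInd p M χ (Subgroup.normalizer (D : Set G)) := by
  have : Fact p.Prime := ⟨hp⟩
  let _ : Fintype G := Fintype.ofFinite G
  obtain ⟨V, hV⟩ := exists_val_of_maximal M hM
  have hB : CoefB p M V := ⟨hp, hM, hpM, hV⟩
  obtain ⟨I⟩ := exists_irrData G
  obtain ⟨i, rfl⟩ := (isIrrChar_iff I).1 hχ
  obtain ⟨c, h, he⟩ := exists_rt hB I i hD hc
  exact sum_wInd_rt hB h he

end Pool.Agent.Lib.MP_b6945b_al.Kx
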