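import Pool.Agent.Lib.MP_b6945b_al.Kx.VCyc
import Pool.Agent.Lib.MP_b6945b_al.Kx.VRed
import Pool.Agent.Lib.MP_b6945b_al.Kx.WCnt

set_option autoImplicit false

/-!
The weight conjecture under the condition on the moved factors.
-/

namespace Pool.Agent.Lib.MP_b6945b_al.Kx

open St Bi Finset

lemma gf_of_mv {G : Type} [Group G] [Fintype G] {V : ValuationSubring ℂ} {p N : ℕ}
    {H D : Subgroup G} {c : MonoidAlgebra V G} (h : Mv N H D c) : Gf p N H D c := by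
  intro A hA
  by_cases h1 : A ≤ Cz D
  · refine Or.inr (Or.inl ?_)
    rw [inf_eq_left.2 fun d hd => mem_Cz.2 fun a ha => (mem_Cz.1 (h1 ha) d hd).symm,
      Subgroup.relIndex_self]
    exact one_dvd _
  obtain ⟨t, ht, h2⟩ := SetLike.not_le_iff_exists.1 h1
  exact Or.inl (((h t (hA ht)).resolve_left h2).trans_le (Subgroup.relIndex_le_of_le_left
    (inf_le_right.trans (Cz_le_Cu ht)) Subgroup.index_ne_zero_of_finite))

theorem awc_of_gf (p : ℕ) (hp : p.Prime) (n : ℕ) : ∃ N : ℕ, ∀ (G : Type) [Group G] [Finite G]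
      (M : Ideal (integralClosure ℤ ℂ)), M.IsMaximal → (p : integralClosure ℤ ℂ) ∈ M →
      ∀ (χ : G → ℂ), IsIrrChar χ →
      ∀ (D : Subgroup G), IsDefectGroup p M χ D → (∀ x ∈ D, ∀ y ∈ D, x * y = y * x) →
      Group.rank D ≤ n →
      (GoodFactors p M χ D N ∨ (∀ x ∈ D, x ^ p = 1 → ∃ y ∈ D, y ^ p ^ N = x) ∨
        (Group.rank D ≤ 2 ∧ N < Nat.card D) ∨
        ∀ Z F : Subgroup G, Z ⊓ F = ⊥ → Z ⊔ F = D →
          IsCyclic F ∨ Nat.card F ∣ p ^ 2 ∨ N < Nat.card F) →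
      ∑ᶠ (P : Subgroup G) (_ : IsPGroup p P),
        Nat.card (Subgroup.normalizer (P : Set G)) * wInd p M χ P =
          Nat.card G * lInd p M χ ⊤ := by
  have : Fact p.Prime := ⟨hp⟩
  obtain ⟨N, hN⟩ := lL_reducew p (p ^ n)
  refine ⟨N, fun G _ _ M hM hpM χ hχ D hD hc hn hl => ?_⟩
  rw [sum_wInd p hp G M hM hpM χ hχ D hD hc]
  let _ : Fintype G := Fintype.ofFinite G
  obtain ⟨V, hV⟩ := exists_val_of_maximal M hM
  have hB : CoefB p M V := ⟨hp, hM, hpM, hV⟩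
  obtain ⟨I⟩ := exists_irrData G
  obtain ⟨i, rfl⟩ := (isIrrChar_iff I).1 hχ
  obtain ⟨c, h, he⟩ := exists_rt hB I i hD hc
  have h1 := hN M V hB G _ ⊤ D c h (om1_le_of_rank hp.pos D hc hn) (by
    rcases hl with e | e | e | e
    · exact gf_of_goodFactors hB h he e
    · exact gf_of_mv (mv_of_pow hB.nonunit h e)
    · exact gf_of_rank_two hB.nonunit h e.1 e.2
    · exact gf_of_factors hB.nonunit h e)
  obtain ⟨h4, h5⟩ := lInd_eq_lL hB h he
  rw [top_inf_eq] at h1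
  rw [h4, h5, h1]

end Pool.Agent.Lib.MP_b6945b_al.Kx
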