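import Pool.Agent.Lib.MP_b6945b_al.Kx.VDef
import Pool.Agent.Lib.MP_b6945b_al.Kx.RFin
import Pool.Agent.Lib.MP_b6945b_al.FactorDefs

set_option autoImplicit false

/-!
The condition on the moved factors: translation from characters, and rank two.
-/

namespace Pool.Agent.Lib.MP_b6945b_al.Kx

open St Bi Finset

section abstract
variable {p : ℕ}

lemma vfin_om {D : Type} [CommGroup D] [Finite D] (hp : p.Prime) (hD : IsPGroup p D)
    (F : Subgroup (MulAut D)) (hF : ¬ p ∣ Nat.card F) (Z : Subgroup D)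
    (hZ : ∀ d, d ∈ Z ↔ ∀ g ∈ F, g d = d) (h0 : Z ≠ ⊥) : om1 p (D ⧸ Z) * p ≤ om1 p D := by
  have := Fact.mk hp
  let _ : Fintype F := Fintype.ofFinite _
  let ν : D →* D := ∏ g : F, (g : MulAut D).toMonoidHom
  have h1 : ∀ d, ν d = ∏ g : F, (g : MulAut D) d := fun d => MonoidHom.finsetProd_apply _ _ d
  have h2 : ∀ d, ν d ∈ Z := fun d => (hZ _).2 fun g hg => by
    rw [h1, map_prod]
    exact Equiv.prod_comp (Equiv.mulLeft (⟨g, hg⟩ : F)) fun k : F => (k : MulAut D) d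
  let s : D ⧸ Z →* D := QuotientGroup.lift Z (powMonoidHom (Nat.card F) / ν) fun z hz => by
    rw [MonoidHom.mem_ker, MonoidHom.div_apply, h1,
      Finset.prod_congr rfl fun (g : F) _ => (hZ z).1 hz g g.2, Finset.prod_const,
      Finset.card_univ, ← Nat.card_eq_fintype_card, powMonoidHom_apply, div_self']
  have h3 : ∀ x (z : D), z ∈ Z → ((s x * z : D) : D ⧸ Z) = x ^ Nat.card F := fun x z hz => by
    obtain ⟨d, rfl⟩ := QuotientGroup.mk_surjective x
    change ((d ^ Nat.card F / ν d * z : D) : D ⧸ Z) = _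
    rw [QuotientGroup.mk_mul, QuotientGroup.mk_div, (QuotientGroup.eq_one_iff _).2 hz,
      (QuotientGroup.eq_one_iff _).2 (h2 d), div_one, mul_one, QuotientGroup.mk_pow]
  obtain ⟨z, hz⟩ := exists_prime_orderOf_dvd_card' (G := Z) p
    (((hD.to_subgroup Z).card_eq_or_dvd).resolve_left fun e => h0 (Subgroup.eq_bot_of_card_eq _ e))
  have h4 : ∀ w : Subgroup.zpowers z, ((w : Z) : D) ^ p = 1 := fun w => by
    have h5 := pow_card_eq_one' (x := w)
    rw [Nat.card_zpowers, hz] at h5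
    exact congrArg (fun t : Subgroup.zpowers z => ((t : Z) : D)) h5
  conv_lhs => rw [om1, ← hz, ← Nat.card_zpowers, ← Nat.card_prod, Nat.card_zpowers, hz]
  refine Nat.card_le_card_of_injective (fun x => ⟨s x.1.1 * (x.2 : Z), by
    rw [mul_pow, ← map_pow, x.1.2, map_one, one_mul, h4]⟩) fun x y e => ?_
  have h5 : s x.1.1 * (x.2 : Z) = s y.1.1 * (y.2 : Z) := congrArg Subtype.val e
  have h6 : x.1.1 = y.1.1 := ((hD.to_quotient Z).powEquiv
    ((Nat.Prime.coprime_iff_not_dvd hp).2 hF)).injective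
      ((h3 _ _ x.2.1.2).symm.trans (h5 ▸ h3 _ _ y.2.1.2))
  rw [h6] at h5
  exact Prod.ext (Subtype.ext h6) (Subtype.ext (Subtype.ext (mul_left_cancel h5)))

lemma vfin_aut {Q : Type} [CommGroup Q] [Finite Q] (hp : p.Prime) (hQ : IsPGroup p Q)
    (h : om1 p Q ≤ p) (β : MulAut Q) (hβ : ¬ p ∣ orderOf β) {x : Q} (hx : x ≠ 1)
    (e : β x = x) : β = 1 := by
  have := Fact.mk hp
  let S : Subgroup Q := β.toMonoidHom.eqLocus (MonoidHom.id Q)
  obtain ⟨z, hz⟩ := exists_prime_orderOf_dvd_card' (G := S) p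
    (((hQ.to_subgroup S).card_eq_or_dvd).resolve_left fun e' =>
      hx ((Subgroup.eq_bot_of_card_eq _ e').le (show x ∈ S from e)))
  have h1 : Subgroup.zpowers (z : Q) = (powMonoidHom p).ker := by
    refine Subgroup.eq_of_le_of_card_ge ((Subgroup.zpowers_le).2 ?_) ?_
    · exact congrArg Subtype.val (hz ▸ pow_orderOf_eq_one z)
    · rw [Nat.card_zpowers, Subgroup.orderOf_coe, hz]
      exact h
  exact laut_eq_one hp mul_comm hQ β hβ fun y hy =>
    (Subgroup.zpowers_le (H := S)).2 z.2 (h1.ge hy)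

lemma vfin_dich {D : Type} [Group D] [Finite D] (hp : p.Prime) (hc : ∀ a b : D, a * b = b * a)
    (hD : IsPGroup p D) (h2 : om1 p D ≤ p ^ 2) (E : Subgroup (MulAut D)) (hE : ¬ p ∣ Nat.card E)
    (Z : Subgroup D) (hZ : ∀ d, (∀ g ∈ E, (∀ z ∈ Z, g z = z) → g d = d) → d ∈ Z) (h0 : Z ≠ ⊥)
    {α : MulAut D} (hα : α ∈ E) (hαZ : ∀ z, α z ∈ Z ↔ z ∈ Z) :
    (∀ d, α d * d⁻¹ ∈ Z) ∨ ∀ d, α d * d⁻¹ ∈ Z → d ∈ Z := by
  let _ : CommGroup D := { ‹Group D› with mul_comm := hc }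
  have h1 := vfin_om hp hD (E ⊓ fixingSubgroup (MulAut D) (Z : Set D))
    (fun e => hE (e.trans (Subgroup.card_dvd_of_le inf_le_left))) Z (fun d =>
      ⟨fun hd g hg => (mem_fixingSubgroup_iff _).1 hg.2 d hd, fun hd => hZ d fun g hg hg' =>
        hd g ⟨hg, (mem_fixingSubgroup_iff _).2 hg'⟩⟩) h0
  have h3 : om1 p (D ⧸ Z) ≤ p := Nat.le_of_mul_le_mul_right (h1.trans (h2.trans (sq p).le)) hp.pos
  let β : MulAut (D ⧸ Z) := QuotientGroup.congr Z Z α (by
    ext z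
    constructor
    · rintro ⟨z, hz, rfl⟩
      exact (hαZ z).2 hz
    · intro hz
      exact ⟨α.symm z, (hαZ _).1 ((α.apply_symm_apply z).symm ▸ hz), α.apply_symm_apply z⟩)
  have h4 : ∀ (n : ℕ) (d : D), (β ^ n) d = ((α ^ n) d : D) := fun n d => by
    induction n with
    | zero => rfl
    | succ n ih =>
      rw [pow_succ', pow_succ', MulAut.mul_apply, MulAut.mul_apply, ih]
      rfl
  have h5 : β ^ Nat.card E = 1 := MulEquiv.ext fun x => by
    obtain ⟨d, rfl⟩ := QuotientGroup.mk_surjective x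
    rw [h4, show α ^ Nat.card E = 1 from congrArg Subtype.val (pow_card_eq_one' (x := (⟨α, hα⟩ : E)))]
    rfl
  have h6 : ∀ d : D, α d * d⁻¹ ∈ Z ↔ β d = d := fun d => by
    rw [← div_eq_mul_inv, ← QuotientGroup.eq_iff_div_mem]
    rfl
  refine or_iff_not_imp_right.2 fun hn d => ?_
  push Not at hn
  obtain ⟨x, h7, h8⟩ := hn
  rw [h6, vfin_aut hp (hD.to_quotient Z) h3 β (fun e => hE (e.trans (orderOf_dvd_of_pow_eq_one h5)))
    (fun e => h8 ((QuotientGroup.eq_one_iff _).1 e)) ((h6 x).1 h7)]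
  rfl

end abstract

variable {G : Type} [Group G] [Fintype G] {V : ValuationSubring ℂ} {p : ℕ} [Fact p.Prime]
  {m : ℕ} {D : Subgroup G} {c : MonoidAlgebra V G}

theorem gf_of_goodFactors {M : Ideal (integralClosure ℤ ℂ)} (hM : CoefB p M V)
    (h : Rt p m ⊤ D c) {I : IrrData G} {i : Fin I.n} (he : IsBlockIdem I i (bk D c ⊤)) {N : ℕ}
    (hl : GoodFactors p M (I.χ i) D N) : Gf p N ⊤ D c := by
  intro A hA
  have hp := hM.nonunit
  have hj := h.root
  have hs := supp_Cz_iff.1 hj.supp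
  let _ : Fintype (Cz D) := Fintype.ofFinite _
  obtain ⟨I'⟩ := exists_irrData (Cz D)
  obtain ⟨l, h1⟩ := exists_om_of_idemB I' (j := St.pull V (Cz D).subtype c) hj.pull.idem hj.pull.ne
  have h2 := indV_of_belowB hp he h.pD rfl hs ((le_iff_inMax hj.supp).1 (h.spec hp h.le).2) h1
  have h3 : ∀ t ∈ stabT ⊤ D c, Inert M D (I'.χ l) t := fun t ht =>
    ⟨ht.2.1, bcls_stab hM.iff hj h1 ht.2.1 ht.2.2⟩
  exact (hl (I'.χ l) ((isIrrChar_iff I').2 ⟨l, rfl⟩) ((kr1b_indTo_iff hM.iff I i I' l).2 h2)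
    A _ (fun t ht => h3 t (hA ht)) rfl).imp_right (Or.imp_right fun a t ht ht' => a t ht (h3 t ht'))

theorem gf_of_rank_two (hp : (p : ℂ) ∈ V.nonunits) (h : Rt p m ⊤ D c) {N : ℕ}
    (hr : Group.rank D ≤ 2) (hN : N < Nat.card D) : Gf p N ⊤ D c := by
  intro A hA
  have hq : p.Prime := Fact.out
  by_cases h0 : D ⊓ Cz A = ⊥
  · rw [h0, Subgroup.relIndex_bot_left]
    exact Or.inl hN
  refine Or.inr (Or.inr fun t ht hT => ?_)
  obtain ⟨E, h1, -, h3, -⟩ := exists_inertial (D := D) (T := stabT ⊤ D c)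
    (fun n hn => hn.2.1) h.Cz_le_stab
  have h4 : ¬ p ∣ Nat.card E := fun hE => not_dvd_inert hp h (by
    have h5 := Subgroup.index_mul_card ((Cz D).subgroupOf (stabT ⊤ D c))
    rw [Nat.card_congr (Subgroup.subgroupOfEquivOfLe h.Cz_le_stab).toEquiv, ← h1] at h5
    exact hE.trans (Nat.eq_of_mul_eq_mul_right Nat.card_pos h5).symm.dvd)
  obtain ⟨g, hg⟩ := h3 t hT
  have h5 : ∀ d : D, (g : MulAut D) d * d⁻¹ ∈ (D ⊓ Cz A).subgroupOf D ↔
      t * d * t⁻¹ * (d : G)⁻¹ ∈ D ⊓ Cz A := fun d => by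
    rw [Subgroup.mem_subgroupOf, Subgroup.coe_mul, hg, Subgroup.coe_inv]
  refine (vfin_dich hq (fun a b => Subtype.ext (h.comm _ a.2 _ b.2)) h.pD
    (om1_le_of_rank hq.pos D h.comm hr) E h4 ((D ⊓ Cz A).subgroupOf D) (fun d hd => ?_)
    (fun e => h0 ?_) g.2 fun z => ?_).imp (fun a d hd => (h5 ⟨d, hd⟩).1 (a _))
      fun a d hd e => a ⟨d, hd⟩ ((h5 _).2 e)
  · refine ⟨d.2, mem_Cz.2 fun a ha => ?_⟩
    obtain ⟨k, hk⟩ := h3 a (hA ha)
    have h6 := hd k k.2 fun z hz => Subtype.ext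
      ((hk z).trans (mul_inv_eq_iff_eq_mul.2 (mem_Cz.1 hz.2 a ha).symm))
    exact (mul_inv_eq_iff_eq_mul.1 ((hk d).symm.trans (congrArg Subtype.val h6))).symm
  · rw [← Subgroup.map_subgroupOf_eq_of_le (inf_le_left : D ⊓ Cz A ≤ D), e, Subgroup.map_bot]
  · rw [Subgroup.mem_subgroupOf, Subgroup.mem_subgroupOf, hg]
    exact (Subgroup.mem_normalizer_iff.1 ht _).symm

end Pool.Agent.Lib.MP_b6945b_al.Kx
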