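import Pool.Agent.Lib.MP_b6945b_al.Kx.PSec
import Pool.Agent.Lib.MP_b6945b_al.Kx.VDef
import Pool.Agent.Lib.MP_b6945b_al.Kx.CDbl

set_option autoImplicit false

/-!
The second main theorem on a coset for an arbitrary inertial quotient.
-/

namespace Pool.Agent.Lib.MP_b6945b_al.Kx

open St Bi IsLocalRing Finset
open MonoidAlgebra (single)

variable {G : Type} [Group G] [Fintype G] {V : ValuationSubring ℂ} {p : ℕ} [Fact p.Prime]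
  {K D : Subgroup G} {c : MonoidAlgebra V G} {m : ℕ}

lemma vsec_fusion (hp : (p : ℂ) ∈ V.nonunits) (h : Rt p m K D c)
    {d d' k : G} (hd : d ∈ D) (hd' : d' ∈ D) (hk : k ∈ K) (e : k * d * k⁻¹ = d')
    (e' : cjRep V G k (bk D c (K ⊓ Cu d)) = bk D c (K ⊓ Cu d')) :
    ∃ l ∈ K ⊓ Cu d', ∃ t ∈ stabT K D c, k = l * 1 * t := by
  have h1 := h.cu hp hd
  have h2 : Rt p m (K ⊓ Cu d') (cg k D) (cjRep V G k c) := by
    have h3 := h1.conj hp k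
    rwa [cg_inf, bmax_cg_self hk, ← Cu_conj, e] at h3
  obtain ⟨l, hl, h3, h4⟩ := (h.cu hp hd').root_conj hp h2.pD h2.le_H (card_cg k D).ge
    (by rw [inf_eq_right.2 h2.le]; exact h2.root) (e' ▸ (h1.spec hp h1.le).2.cj k)
  exact ⟨l, hl, l⁻¹ * k, ⟨K.mul_mem (K.inv_mem hl.1) hk, by
    rw [← cg_eq_iff, ← cg_cg, h3, cg_cg, inv_mul_cancel, cg_one], by
    rw [← frpg_cj_cj, h4, frpg_inv_cj]⟩, by group⟩

lemma vsec_bk (hp : (p : ℂ) ∈ V.nonunits) (h : Rt p m K D c) {d t : G} (hd : d ∈ D)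
    (ht : t ∈ stabT K D c) :
    cjRep V G t (bk D c (K ⊓ Cu d)) = bk D c (K ⊓ Cu (t * d * t⁻¹)) := by
  rw [← h.bk_conj hp (h.cu hp hd).le t, cg_inf, bmax_cg_self ht.1, ← Cu_conj,
    cg_eq_iff.2 ht.2.1, ht.2.2]

open Classical in
/-- The Brauer elements of a block with an abelian defect group. -/
lemma vsec_pairs (hp : (p : ℂ) ∈ V.nonunits) (h : Rt p m K D c)
    (Ψ : G → MonoidAlgebra V G → ℂ)
    (hΨ : ∀ k ∈ K, ∀ u f, Ψ (k * u * k⁻¹) (cjRep V G k f) = Ψ u f) :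
    Nat.card (stabT K D c) *
      ∑ u, (if IsPElt p u ∧ u ∈ K then ∑ f ∈ secT K (bk D c K) u, Ψ u f else 0) =
      Nat.card K * ∑ d ∈ univ.filter (· ∈ D),
        (Nat.card (stabT K D c ⊓ Cu d : Subgroup G) : ℂ) *
          ((Nat.card (K ⊓ Cu d : Subgroup G) : ℂ)⁻¹ * Ψ d (bk D c (K ⊓ Cu d))) := by
  obtain ⟨A, hA⟩ : ∃ A : Finset (G × G), ∀ z, z ∈ A ↔ z.1 ∈ D ∧ z.2 ∈ K :=
    ⟨univ.filter (· ∈ D) ×ˢ univ.filter (· ∈ K), fun z => by simp⟩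
  have h1 : ∑ z ∈ A, (Nat.card (stabT K D c ⊓ Cu z.1 : Subgroup G) : ℂ) *
      ((Nat.card (K ⊓ Cu z.1 : Subgroup G) : ℂ)⁻¹ * Ψ z.1 (bk D c (K ⊓ Cu z.1))) =
      Nat.card K * ∑ d ∈ univ.filter (· ∈ D), (Nat.card (stabT K D c ⊓ Cu d : Subgroup G) : ℂ) *
        ((Nat.card (K ⊓ Cu d : Subgroup G) : ℂ)⁻¹ * Ψ d (bk D c (K ⊓ Cu d))) := by
    rw [show A = univ.filter (· ∈ D) ×ˢ univ.filter (· ∈ K) from Finset.ext fun z => by simp [hA],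
      Finset.sum_product, Finset.mul_sum]
    refine Finset.sum_congr rfl fun d _ => ?_
    dsimp only
    rw [Finset.sum_filter]
    exact pcount_card K _
  rw [← h1, ← Finset.sum_fiberwise A (fun z => z.2 * z.1 * z.2⁻¹), Finset.mul_sum]
  refine Finset.sum_congr rfl fun u _ => ?_
  split_ifs with hu
  swap
  · rw [mul_zero]
    refine (Finset.sum_eq_zero fun z hz => absurd ?_ hu).symm
    obtain ⟨h2, rfl⟩ := Finset.mem_filter.1 hz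
    obtain ⟨h3, h4⟩ := (hA z).1 h2
    exact ⟨(h.pelt h3).conj _, K.mul_mem (K.mul_mem h4 (h.le_H h3)) (K.inv_mem h4)⟩
  rw [← Finset.sum_fiberwise_of_maps_to (t := secT K (bk D c K) u)
    (g := fun z : G × G => cjRep V G z.2 (bk D c (K ⊓ Cu z.1))) fun z hz => by
      obtain ⟨h2, rfl⟩ := Finset.mem_filter.1 hz
      exact sec_label hp h ((hA z).1 h2).1 ((hA z).1 h2).2, Finset.mul_sum]
  refine Finset.sum_congr rfl fun f hf => ?_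
  obtain ⟨d, hd, k, hk, rfl, rfl⟩ := sec_exists hp h hu.1 hu.2 hf
  have h0 : (Nat.card (K ⊓ Cu d : Subgroup G) : ℂ) ≠ 0 := Nat.cast_ne_zero.2 Nat.card_pos.ne'
  have h2 := congrArg (Nat.cast : ℕ → ℂ) (cdbl_count (K ⊓ Cu d) (stabT K D c) 1)
  rw [Nat.cast_mul, Nat.cast_sum] at h2
  rw [hΨ k hk, ← mul_inv_cancel_left₀ h0 (Ψ _ _), ← mul_assoc, mul_comm (Nat.card (stabT K D c) : ℂ),
    ← h2, Finset.sum_mul]
  have key : ∀ g, (∃ l ∈ K ⊓ Cu d, ∃ t ∈ stabT K D c, g = l * 1 * t) → g ∈ K ∧ g⁻¹ * d * g ∈ D ∧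
      cjRep V G g (bk D c (K ⊓ Cu (g⁻¹ * d * g))) = bk D c (K ⊓ Cu d) ∧ g ∈ K := by
    rintro _ ⟨l, hl, t, ht, rfl⟩
    have e : (l * 1 * t)⁻¹ * d * (l * 1 * t) = t⁻¹ * d * t := by
      rw [mul_one, mul_inv_rev, mul_assoc t⁻¹, mul_assoc t⁻¹, ← mul_assoc _ l t, mul_assoc l⁻¹,
        mem_Cu.1 hl.2, inv_mul_cancel_left, mul_assoc]
    have h3 : t⁻¹ * d * t ∈ D := (nz_iff' ht.2.1 d).2 hd
    have h4 := h.cu hp hd
    have h5 : l * 1 * t ∈ K := by simpa using K.mul_mem hl.1 ht.1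
    refine ⟨h5, e ▸ h3, ?_, h5⟩
    rw [e, mul_one, ← frpg_cj_cj, vsec_bk hp h h3 ht, show t * (t⁻¹ * d * t) * t⁻¹ = d by group,
      (h4.spec hp h4.le).1.fix l hl]
  refine Finset.sum_nbij' (fun g => (g⁻¹ * d * g, k * g)) (fun z => k⁻¹ * z.2) (fun g hg => ?_)
    (fun z hz => ?_) (fun l _ => by simp) (fun z hz => ?_) fun g hg => ?_
  · obtain ⟨a1, a2, a3, -⟩ := key g (Finset.mem_filter.1 hg).2
    refine Finset.mem_filter.2 ⟨Finset.mem_filter.2 ⟨(hA _).2 ⟨a2, K.mul_mem hk a1⟩, ?_⟩, ?_⟩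
    · change k * g * (g⁻¹ * d * g) * (k * g)⁻¹ = _
      group
    · change cjRep V G (k * g) _ = _
      rw [← frpg_cj_cj, a3]
  · obtain ⟨a2, a3⟩ := Finset.mem_filter.1 hz
    obtain ⟨a4, a5⟩ := Finset.mem_filter.1 a2
    obtain ⟨a6, a7⟩ := (hA z).1 a4
    refine Finset.mem_filter.2 ⟨mem_univ _, vsec_fusion hp h a6 hd
      (K.mul_mem (K.inv_mem hk) a7) ?_ (by rw [← frpg_cj_cj, a3, frpg_inv_cj])⟩
    rw [show d = k⁻¹ * (k * d * k⁻¹) * k by group, ← a5]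
    group
  · obtain ⟨a2, -⟩ := Finset.mem_filter.1 hz
    obtain ⟨-, a5⟩ := Finset.mem_filter.1 a2
    refine Prod.ext ?_ (by simp)
    change (k⁻¹ * z.2)⁻¹ * d * (k⁻¹ * z.2) = z.1
    rw [show d = k⁻¹ * (k * d * k⁻¹) * k by group, ← a5]
    group
  · obtain ⟨a1, -, a3, -⟩ := key g (Finset.mem_filter.1 hg).2
    have a4 : cg g (K ⊓ Cu (g⁻¹ * d * g)) = K ⊓ Cu d := by
      rw [cg_inf, bmax_cg_self a1, ← Cu_conj, show g * (g⁻¹ * d * g) * g⁻¹ = d by group]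
    have a5 : cg g (stabT K D c ⊓ Cu (g⁻¹ * d * g)) = K ⊓ Cu d ⊓ cg g (stabT K D c) := by
      rw [← a4, ← cg_inf, inf_comm (K ⊓ _), ← inf_assoc, 
        (inf_eq_left.2 fun t ht => ht.1 : stabT K D c ⊓ K = _)]
    dsimp only
    rw [← hΨ g a1 (g⁻¹ * d * g), a3, show g * (g⁻¹ * d * g) * g⁻¹ = d by group, ← a5, card_cg,
      ← card_cg g (K ⊓ Cu (g⁻¹ * d * g)), a4]

omit [Fact p.Prime] in
open Classical in
lemma vsec_card {T : Subgroup G} {x x₀ d : G} (h0 : x₀ ∈ T ∧ x₀ * x⁻¹ ∈ K ∧ x₀ ∈ Cu d) (z : ℂ) :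
    ∑ _x' ∈ univ.filter (fun x' => x' ∈ T ∧ x' * x⁻¹ ∈ K ∧ x' ∈ Cu d), z =
      Nat.card (T ⊓ K ⊓ Cu d : Subgroup G) * z := by
  rw [← pcount_card, Finset.sum_filter]
  refine (Fintype.sum_equiv (Equiv.mulRight x₀) (fun s => if s ∈ T ⊓ K ⊓ Cu d then z else 0) _
    fun s => if_congr ?_ rfl rfl).symm
  rw [Equiv.coe_mulRight, Subgroup.mem_inf, Subgroup.mem_inf, T.mul_mem_cancel_right h0.1,
    (Cu d).mul_mem_cancel_right h0.2.2, mul_assoc, K.mul_mem_cancel_right h0.2.1, and_assoc]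

variable {P : Subgroup G} {x y : G}

lemma vsec_fixed (hp : (p : ℂ) ∈ V.nonunits) (h : Rt p m ⊤ D c) (hPD : P ≤ D)
    (hx : x ∈ Nz P) {d x' : G} (hd : d ∈ D) (h1 : x' * x⁻¹ ∈ Cz P)
    (h2 : x' ∈ Cu d) (h3 : cjRep V G x' (bk D c (Cz P ⊓ Cu d)) = bk D c (Cz P ⊓ Cu d)) :
    ∃ x₀, x₀ ∈ stabT ⊤ D c ∧ x₀ * x⁻¹ ∈ Cz P ∧ x₀ ∈ Cu d := by
  rw [← Cz_sup_zpowers] at h3
  have h4 : x' ∈ Nz P := by simpa using (Nz P).mul_mem (Cz_le_Nz P h1) hx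
  obtain ⟨l, hl, h5⟩ := rt_fu hp h (sup_le hPD (Subgroup.zpowers_le.2 hd)) (by
    rw [← cg_eq_iff, cg, Subgroup.map_sup]
    exact congrArg₂ _ (cg_eq_iff.2 h4) (cg_eq_iff.2 (Cz_le_Nz _ h2))) h3
  rw [Cz_sup_zpowers] at hl
  exact ⟨l * x', h5, by rw [mul_assoc]; exact mul_mem hl.1 h1, mul_mem hl.2 h2⟩

open Classical in
lemma vsec_tau (hp : (p : ℂ) ∈ V.nonunits) (h : Rt p m ⊤ D c) (hPD : P ≤ D)
    (ha : Adw D c P x y) :
    ∑ a, (if a * x⁻¹ ∈ Cz P then av (Cz P) (eP D c P) a (y * a * y⁻¹) else 0) =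
      ∑ u, if IsPElt p u ∧ u ∈ Cz P then
        ∑ f ∈ secT (Cz P) (eP D c P) u, secS p (Cz P) x y u f else 0 := by
  have hx := Adm.ci hp h hPD ha.xT ha.xN
  have hy := Adm.ci hp h hPD ha.yT ha.yN
  have hc := ha.com
  obtain ⟨n, hn, hpow⟩ := pow_mem_Cz hp h
  rw [sum_pp (p := p)]
  refine Finset.sum_congr rfl fun u _ => ?_
  split_ifs with hu
  · simp only [secS]
    rw [Finset.sum_comm]
    refine Finset.sum_congr rfl fun s _ => ?_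
    have h2 : u * s * x⁻¹ ∈ Cz P ↔ s * x⁻¹ ∈ Cz P := by
      rw [mul_assoc, (Cz P).mul_mem_cancel_left hu.2]
    by_cases hs : (s * x⁻¹ ∈ Cz P ∧ s ∈ Cu u) ∧ ¬ p ∣ orderOf s
    · have h3 := hx.change (h2.2 hs.1.1)
      have h4 := sec_coset hp hx.idem hx.supp hx.fix h3.nz h3.cj (fun b => b * y⁻¹ ∈ Cz P)
        (fun k hk b => by rw [mul_assoc, (Cz P).mul_mem_cancel_left hk]) fun b hb => by
          have h5 := (coset_conj hx.nz hb _).2 ((coset_conj' hy.nz hc _).2 (h2.2 hs.1.1))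
          rw [coset_change (h2.2 hs.1.1)]
          convert h5 using 1
          group
      rw [pp_mul_eq hu.1 hs.2 (mem_Cu.1 hs.1.2), pq_mul_eq hu.1 hs.2 (mem_Cu.1 hs.1.2)] at h4
      simp only [if_pos hs]
      rw [if_pos ⟨hu.1, hs.1.2, hs.2⟩, if_pos (h2.2 hs.1.1)]
      convert h4 using 1
      refine Fintype.sum_equiv (Equiv.mulRight y) _ _ fun k => ?_
      rw [Equiv.coe_mulRight, mul_inv_cancel_right]
      refine if_congr Iff.rfl ?_ rfl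
      group
    · simp only [if_neg hs, Finset.sum_const_zero]
      split_ifs with h3 h4
      · exact absurd ⟨⟨h2.1 h4, h3.2.1⟩, h3.2.2⟩ hs
      all_goals rfl
  · refine Finset.sum_eq_zero fun s _ => ?_
    split_ifs with h3 h4
    · have h5 := pp_mem_of_pow hx.nz hn (Cz_anti hPD (hpow x ha.xT)) h4
      rw [pp_mul_eq h3.1 h3.2.2 (mem_Cu.1 h3.2.1)] at h5
      exact absurd ⟨h3.1, h5⟩ hu
    all_goals rfl

open Classical in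
theorem tau_eq_sumw (hp : (p : ℂ) ∈ V.nonunits) (h : Rt p m ⊤ D c) (hPD : P ≤ D)
    (ha : Adw D c P x y) :
    (Nat.card (stabT ⊤ D c ⊓ Cz P : Subgroup G) : ℂ) * tau D c P x y =
      ∑ d ∈ univ.filter (· ∈ D), (Nat.card (stabT ⊤ D c ⊓ Cz P ⊓ Cu d : Subgroup G) : ℂ)⁻¹ *
        ∑ x' ∈ univ.filter (fun x' => x' ∈ stabT ⊤ D c ∧ x' * x⁻¹ ∈ Cz P ∧ x' ∈ Cu d),
          ∑ y' ∈ univ.filter (fun y' => y' ∈ stabT ⊤ D c ∧ y' * y⁻¹ ∈ Cz P ∧ y' ∈ Cu d),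
            mu p D c (P ⊔ Subgroup.zpowers d) x' y' := by
  have hK : Rt p m (Cz P) D c := h.local hp hPD inf_le_right le_top (Cz_le_Nz P)
  have hx := Adm.ci hp h hPD ha.xT ha.xN
  have hy := Adm.ci hp h hPD ha.yT ha.yN
  have hT : stabT (Cz P) D c = stabT ⊤ D c ⊓ Cz P :=
    le_antisymm (fun t ht => ⟨⟨trivial, ht.2⟩, ht.1⟩) fun t ht => ⟨ht.2, ht.1.2⟩
  have h2 : tau D c P x y = (Nat.card (Cz P) : ℂ)⁻¹ *
      ∑ a, if a * x⁻¹ ∈ Cz P then av (Cz P) (eP D c P) a (y * a * y⁻¹) else 0 := by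
    rw [Finset.mul_sum]
    exact Finset.sum_congr rfl fun a _ => by rw [mul_ite, mul_zero]
  have h1 := vsec_pairs hp hK (secS p (Cz P) x y) fun k hk => secS_cj hx.nz hy.nz hk
  rw [hT] at h1
  rw [h2, vsec_tau hp h hPD ha, mul_left_comm, h1, inv_mul_cancel_left₀ (cardK_ne _)]
  refine Finset.sum_congr rfl fun d hd => ?_
  replace hd := (Finset.mem_filter.1 hd).2
  by_cases e : (∃ x₀, x₀ ∈ stabT ⊤ D c ∧ x₀ * x⁻¹ ∈ Cz P ∧ x₀ ∈ Cu d) ∧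
      ∃ y₀, y₀ ∈ stabT ⊤ D c ∧ y₀ * y⁻¹ ∈ Cz P ∧ y₀ ∈ Cu d
  · obtain ⟨⟨x₀, hx₀⟩, y₀, hy₀⟩ := e
    rw [Finset.sum_congr rfl fun x' hx' => (Finset.sum_congr rfl fun y' hy' => by
      rw [mu, eP, Cz_sup_zpowers, ← secS_eq (Finset.mem_filter.1 hx').2.2.1
        (Finset.mem_filter.1 hx').2.2.2 (Finset.mem_filter.1 hy').2.2.1
        (Finset.mem_filter.1 hy').2.2.2]).trans (vsec_card hy₀ _), vsec_card hx₀,
      inv_mul_cancel_left₀ (cardK_ne _)]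
  rw [Finset.sum_eq_zero fun x' hx' => Finset.sum_eq_zero fun y' hy' =>
    absurd ⟨⟨x', (Finset.mem_filter.1 hx').2⟩, y', (Finset.mem_filter.1 hy').2⟩ e, mul_zero]
  refine mul_eq_zero_of_right _ ?_
  by_contra h0
  obtain ⟨x', -, h3⟩ := Finset.exists_ne_zero_of_sum_ne_zero (right_ne_zero_of_mul h0)
  obtain ⟨⟨h4, -⟩, h5⟩ := ite_ne_right_iff.1 h3
  obtain ⟨y', -, h6⟩ := Finset.exists_ne_zero_of_sum_ne_zero h5
  obtain ⟨h7, -⟩ := ite_ne_right_iff.1 h6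
  have h8 : ∀ z z' : G, z ∈ Nz (Cz P) → z' * z⁻¹ ∈ Cz P → z' ∈ Cu d → z' ∈ Nz (Cz P ⊓ Cu d) :=
    fun z z' a1 a2 a3 => by
      rw [← cg_eq_iff, cg_inf, cg_eq_iff.2 (coset_nz a1 a2), bmax_cg_self a3]
  have h9 := hK.cu hp hd
  rw [secS_eq h4.1 h4.2 h7.1 h7.2] at h0
  refine h0 (muK_moved hp (h9.spec hp h9.le).1 (h8 x x' hx.nz h4.1 h4.2)
    (h8 y y' hy.nz h7.1 h7.2) (not_and_or.1 fun a => e ⟨?_, ?_⟩))
  · exact vsec_fixed hp h hPD ha.xN hd h4.1 h4.2 a.1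
  · exact vsec_fixed hp h hPD ha.yN hd h7.1 h7.2 a.2

end Pool.Agent.Lib.MP_b6945b_al.Kx
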