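import Pool.Agent.Lib.MP_b6945b_al.Kx.VBase
import Pool.Agent.Lib.MP_b6945b_al.Kx.VDef
import Pool.Agent.Lib.MP_b6945b_al.Kx.PUnit
import Pool.Agent.Lib.MP_b6945b_al.Kx.PFong

set_option autoImplicit false

/-!
The reduction along the moved factors of the defect group.
-/

namespace Pool.Agent.Lib.MP_b6945b_al.Kx

open St Bi IsLocalRing Finset

variable {G : Type} [Group G] [Fintype G] {V : ValuationSubring ℂ} {p : ℕ} [Fact p.Prime]
  {m N : ℕ} {H D Q : Subgroup G} {c : MonoidAlgebra V G}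

lemma step_auxw [Q.Normal] [Fintype (G ⧸ Q)] [Fintype (Finset (Subgroup (G ⧸ Q)))]
    (hp : (p : ℂ) ∈ V.nonunits) (h : Rt p m ⊤ D c) (hQD : Q ≤ D)
    (hQ : ∀ R : Subgroup G, R.Normal → R ≤ D → R ≤ Q) (hD : D.map (qm Q) ≠ ⊥)
    (h0 : ∀ γ ∈ rts (D.map (qm Q)) (inc V (qm Q) (bk D c ⊤)), Rt p m ⊤ (D.map (qm Q)) γ →
      ∑ σ ∈ chs p (D.map (qm Q)), sgn σ * (wl p (stab σ) (D.map (qm Q)) γ : ℤ) = 0)
    (ih : ∀ (K : Subgroup G), K ≠ ⊤ → ∀ g ∈ Nz D, Rt p m K D (cjRep V G g c) →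
      lL p K (bk D (cjRep V G g c) K) = lL p (K ⊓ Nz D) (bk D (cjRep V G g c) (K ⊓ Nz D))) :
    lL p ⊤ (bk D c ⊤) = lL p (Nz D) (bk D c (Nz D)) := by
  classical
  have hs := QuotientGroup.mk'_surjective Q
  have he := (h.spec hp h.le).1
  have hc : c ∈ rts D (bk D c ⊤) := mem_rts.2 ⟨h.root, (h.spec hp h.le).2⟩
  have hr : ∀ c' ∈ rts D (bk D c ⊤), Rt p m ⊤ D c' ∧ ∃ g ∈ Nz D, c' = cjRep V G g c :=
    fun c' hc' => by
      obtain ⟨g, -, hg, rfl⟩ := h.root_conj' hp (mem_rts.1 hc').1 (mem_rts.1 hc').2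
      have h1 := (cdbl_rt hp h g).1
      rw [cg_eq_iff.2 hg] at h1
      exact ⟨h1, g, hg, rfl⟩
  have hq : ∀ γ ∈ rts (D.map (qm Q)) (inc V (qm Q) (bk D c ⊤)), Rt p m ⊤ (D.map (qm Q)) γ :=
    fun γ hγ => by
      have h1 := (h.dom_rt hp h le_top hQD (mem_rts.1 hγ).1 (mem_rts.1 hγ).2).1
      rwa [map_top_qm] at h1
  obtain ⟨F, hF⟩ : ∃ F : Subgroup (G ⧸ Q) → ℤ, ∀ L,
      F L = (∑ c' ∈ rts D (bk D c ⊤), wl p (L.comap (qm Q)) D c' : ℕ) := ⟨_, fun _ => rfl⟩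
  have hP : ∀ σ ∈ chs p (D.map (qm Q)), (σ.sup id).comap (qm Q) ≤ D ∧
      (stab σ).comap (qm Q) ≤ Nz ((σ.sup id).comap (qm Q)) := fun σ hσ => by
    refine ⟨fun x hx => (mem_map_qm hQD).1 (Finset.sup_le (mem_chs.1 hσ).2 hx), fun g hg => ?_⟩
    rw [Nz, ← Subgroup.comap_normalizer_eq_of_surjective _ hs]
    exact (top_spec (mem_chs.1 hσ).1).2.1 hg
  have hl : ∀ σ ∈ chs p (D.map (qm Q)), ∀ c' ∈ rts D (bk D c ⊤),
      Rt p m ((stab σ).comap (qm Q)) D c' := fun σ hσ c' hc' => by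
    refine (hr c' hc').1.local hp (hP σ hσ).1
      (fun g hg => (top_spec (mem_chs.1 hσ).1).2.2 _ fun u hu => ?_) le_top (hP σ hσ).2
    obtain ⟨u, rfl⟩ := hs u
    rw [← map_mul, ← map_mul, mem_Cz.1 hg.2 u hu]
  have e1 : ∑ σ ∈ chs p (D.map (qm Q)), sgn σ * F (stab σ) = 0 := by
    have h1 : ∀ σ ∈ chs p (D.map (qm Q)), sgn σ * F (stab σ) =
        Nat.card Q * ∑ γ ∈ rts (D.map (qm Q)) (inc V (qm Q) (bk D c ⊤)),
          sgn σ * (wl p (stab σ) (D.map (qm Q)) γ : ℤ) := fun σ hσ => by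
      have h2 := sum_wl_quot hp (hl σ hσ c hc) hQD he.idem (he.fix.mono le_top) (hl σ hσ)
        (by
          rw [map_comap_qm]
          exact fun g hg => (top_spec (mem_chs.1 hσ).1).2.2 g fun u hu =>
            (mem_Cz.1 hg u (Finset.sup_le (mem_chs.1 hσ).2 hu)).symm)
        (by
          rw [map_comap_qm]
          exact fun γ hγ => rt_chs hp (hq γ hγ) hσ)
      rw [map_comap_qm] at h2
      rw [hF, h2, ← Finset.mul_sum]
      push_cast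
      ring
    rw [Finset.sum_congr rfl h1, ← Finset.mul_sum, Finset.sum_comm,
      Finset.sum_eq_zero fun γ hγ => h0 γ hγ (hq γ hγ), mul_zero]
  have e2 := sum_chs_nz (h.pD.map _) (isAb_map h.comm _) hD F
  have hN : ∀ L : Subgroup (G ⧸ Q), (L ⊓ Nz (D.map (qm Q))).comap (qm Q) =
      L.comap (qm Q) ⊓ Nz D := fun L => by
    rw [Subgroup.comap_inf, Nz_map_qm hQD, Subgroup.comap_map_eq_self
      ((QuotientGroup.ker_mk' Q).trans_le (hQD.trans Subgroup.le_normalizer))]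
  have h1 : ∅ ∈ chs p (D.map (qm Q)) := mem_chs.2 ⟨⟨by simp, by simp⟩, by simp⟩
  have e3 : ∀ σ ∈ (chs p (D.map (qm Q))).erase ∅,
      sgn σ * F (stab σ) = sgn σ * F (stab σ ⊓ Nz (D.map (qm Q))) := fun σ hσ => by
    obtain ⟨h2, h3⟩ := mem_erase.1 hσ
    rw [hF, hF, hN]
    refine congrArg (fun t : ℕ => sgn σ * (t : ℤ)) (Finset.sum_congr rfl fun c' hc' => ?_)
    obtain ⟨-, g, hg, rfl⟩ := hr c' hc'
    rw [wl, wl, stabT_inf, ih _ (fun e => ?_) g hg (hl σ h3 _ hc')]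
    obtain ⟨R, hR⟩ := Finset.nonempty_iff_ne_empty.2 h2
    have h4 := Subgroup.map_mono (f := qm Q) (hQ _ (Subgroup.normalizer_eq_top_iff.1
      (top_le_iff.1 (e.ge.trans (hP σ h3).2))) (hP σ h3).1)
    rw [map_comap_qm, map_self_qm] at h4
    exact ((mem_chs.1 h3).1.2 R hR).2 (le_bot_iff.1 ((Finset.le_sup (f := id) hR).trans h4))
  rw [← Finset.add_sum_erase _ _ h1] at e1 e2
  rw [Finset.sum_congr rfl e3, ← e2, add_left_inj, mul_right_inj' (sgn_ne_zero _), hF, hF, hN,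
    stab_empty, Subgroup.comap_top, Nat.cast_inj] at e1
  have e4 : ∀ K, Nz D ≤ K → ∑ c' ∈ rts D (bk D c ⊤), wl p K D c' =
      (∑ c' ∈ rts D (bk D c ⊤), Nat.card (stabT (Nz D) D c')) * lL p K (bk D c K) := by
    intro K hK
    rw [Finset.sum_mul]
    refine Finset.sum_congr rfl fun c' hc' => ?_
    obtain ⟨-, g, hg, rfl⟩ := hr c' hc'
    rw [wl, h.bk_root_conj hp ((Cz_le_Nz D).trans hK) (hK hg) hg, ← stabT_inf, inf_eq_right.2 hK]
  rw [top_inf_eq, e4 ⊤ le_top, e4 _ le_rfl] at e1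
  exact Nat.eq_of_mul_eq_mul_left (Finset.sum_pos (fun _ _ => Nat.card_pos) ⟨c, hc⟩) e1

omit [Fintype G] [Fact p.Prime] in
lemma Gf.of_map {G' : Type} [Group G'] {H' D' : Subgroup G'} {c' : MonoidAlgebra V G'}
    (h : Gf p N H D c) (f : G' →* G) (hf : Function.Injective f) (hD : D'.map f = D)
    (hT : (stabT H' D' c').map f ≤ stabT H D c) : Gf p N H' D' c' := by
  intro A hA
  have hZ : D ⊓ Cz (A.map f) = (D' ⊓ Cz A).map f := by
    subst hD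
    refine le_antisymm ?_ ?_
    · rintro _ ⟨⟨x, hx, rfl⟩, h1⟩
      exact ⟨x, ⟨hx, mem_Cz.2 fun a ha => hf (by
        rw [map_mul, map_mul, mem_Cz.1 h1 _ ⟨a, ha, rfl⟩])⟩, rfl⟩
    · rintro _ ⟨x, hx, rfl⟩
      refine ⟨⟨x, hx.1, rfl⟩, mem_Cz.2 ?_⟩
      rintro _ ⟨a, ha, rfl⟩
      rw [← map_mul, ← map_mul, mem_Cz.1 hx.2 a ha]
  have h1 := h (A.map f) ((Subgroup.map_mono hA).trans hT)
  rw [hZ, ← hD, Subgroup.relIndex_map_map_of_injective _ _ hf] at h1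
  refine h1.imp id (Or.imp id fun h2 t ht ht' => ?_)
  have h3 : ∀ d, f t * f d * (f t)⁻¹ * (f d)⁻¹ ∈ (D' ⊓ Cz A).map f ↔
      t * d * t⁻¹ * d⁻¹ ∈ D' ⊓ Cz A := fun d => by
    rw [← map_inv, ← map_inv, ← map_mul, ← map_mul, ← map_mul, Subgroup.mem_map_iff_mem hf]
  exact (h2 (f t) (Subgroup.le_normalizer_map f ⟨t, ht, rfl⟩) (hD ▸ hT ⟨t, ht', rfl⟩)).imp
    (fun e d hd => (h3 d).1 (e _ ⟨d, hd, rfl⟩))
    fun e d hd e' => (Subgroup.mem_map_iff_mem hf).1 (e _ ⟨d, hd, rfl⟩ ((h3 d).2 e'))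

omit [Fintype G] [Fact p.Prime] in
lemma Gf.cj (h : Gf p N ⊤ D c) {g : G} (hg : g ∈ Nz D) (K : Subgroup G) :
    Gf p N K D (cjRep V G g c) := by
  refine h.of_map (MulAut.conj g⁻¹).toMonoidHom (MulAut.conj g⁻¹).injective
    (cg_eq_iff.2 (inv_mem hg)) ?_
  rintro _ ⟨t, ht, rfl⟩
  have h1 := (mem_stabT_cj hg).1 (stabT_mono le_top _ _ ht)
  rwa [← inv_inv g, inv_inv g⁻¹] at h1

omit [Fact p.Prime] in
lemma Gf.pull [Fintype H] (hm : Gf p N H D c) (h : Rt p m H D c) :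
    Gf p N ⊤ (D.subgroupOf H) (St.pull V H.subtype c) :=
  hm.of_map H.subtype H.subtype_injective h.map_sub h.stab_map.le

lemma vred_nz (hp : (p : ℂ) ∈ V.nonunits) (h : Rt p m ⊤ D c) (hT : stabT ⊤ D c ≤ H)
    (hN : H ≤ Nz D) : lL p H (bk D c H) = lL p (stabT ⊤ D c) (bk D c (Cz D)) := by
  have h1 := h.Cz_le_stab.trans hT
  obtain ⟨-, -, h3, h4⟩ := rt_fong hp (h.local hp le_rfl (inf_le_right.trans h1) le_top hN) le_rfl
    hN (inf_eq_right.2 h1).symm rfl rfl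
  rw [h3]
  refine congrArg (lL p · _) (Subgroup.ext fun s => (h4 s).trans ⟨?_, fun hs => ?_⟩)
  · rintro ⟨k, hk, t, ht, rfl⟩
    exact mul_mem (h.Cz_le_stab hk) (stabT_mono le_top _ _ ht)
  · exact ⟨1, one_mem _, s, ⟨hT hs, hs.2⟩, (one_mul s).symm⟩

omit [Fintype G] in
lemma vred_free {a g t : G} (ha : a ∈ Cz D) (hg : g ∈ Nz D)
    (h : g⁻¹ * t * g ∈ Cz D ∨ ∀ u ∈ D, g⁻¹ * t * g * u = u * (g⁻¹ * t * g) → u = 1) :
    ∀ u ∈ D, a * t * u = u * (a * t) → u = 1 ∨ a * t ∈ Cz D := by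
  intro u hu e
  rcases h with h | h
  · refine Or.inr (mul_mem ha ?_)
    rw [← cg_eq_iff.2 (Nz_le_Nz_Cz D hg), mem_cg]
    exact h
  · have h1 : t * u = u * t := by
      rw [← mul_assoc, ← mem_Cz.1 ha u hu, mul_assoc, mul_assoc] at e
      exact mul_left_cancel e
    have h2 := h _ ((Subgroup.mem_normalizer_iff''.1 hg u).1 hu)
      (calc _ = g⁻¹ * (t * u) * g := by group
        _ = _ := by rw [h1]; group)
    refine Or.inl ?_
    calc u = g * (g⁻¹ * u * g) * g⁻¹ := by group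
      _ = 1 := by rw [h2]; group

/-- Passage to the normaliser of the fixed points of the inertial group of a normal level. -/
def WA (p : ℕ) (V : ValuationSubring ℂ) : Prop :=
  ∀ (G : Type) [Group G] [Fintype G] (m : ℕ) (D Q : Subgroup G) (c : MonoidAlgebra V G),
    Q.Normal → Rt p m ⊤ D c → Q ≤ D → lL p ⊤ (bk D c ⊤) =
      lL p (Nz (D ⊓ Cz (stabT ⊤ D c ⊓ Cz Q))) (bk D c (Nz (D ⊓ Cz (stabT ⊤ D c ⊓ Cz Q))))

lemma vred_step {M : Ideal (integralClosure ℤ ℂ)} (hM : CoefB p M V) (hW : WA p V) [Q.Normal]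
    [Fintype (G ⧸ Q)] [Fintype (Finset (Subgroup (G ⧸ Q)))] (h : Rt p m ⊤ D c) (hQD : Q ≤ D)
    (hQ : ∀ R : Subgroup G, R.Normal → R ≤ D → R ≤ Q) (hG : Gf p N ⊤ D c)
    (h0 : ∀ γ : MonoidAlgebra V (G ⧸ Q), Rt p m ⊤ (D.map (qm Q)) γ →
      N < Nat.card (D.map (qm Q)) →
      ∑ σ ∈ chs p (D.map (qm Q)), sgn σ * (wl p (stab σ) (D.map (qm Q)) γ : ℤ) = 0)
    (ih : ∀ (K : Subgroup G), K ≠ ⊤ → ∀ g ∈ Nz D, Rt p m K D (cjRep V G g c) →
      lL p K (bk D (cjRep V G g c) K) = lL p (K ⊓ Nz D) (bk D (cjRep V G g c) (K ⊓ Nz D))) :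
    lL p ⊤ (bk D c ⊤) = lL p (Nz D) (bk D c (Nz D)) := by
  have hp := hM.nonunit
  have h1 := hW G m D Q c inferInstance h hQD
  have h2 := hG _ (inf_le_left (b := Cz Q))
  have hT : stabT ⊤ D c ≤ Nz D := fun t ht => ht.2.1
  have h3 : stabT ⊤ D c ≤ Nz (D ⊓ Cz (stabT ⊤ D c ⊓ Cz Q)) := fun t ht =>
    pu_Nz_inf (hT ht) (Nz_le_Nz_Cz _ (pu_Nz_inf (Subgroup.le_normalizer ht)
      (Nz_le_Nz_Cz Q (Subgroup.le_normalizer_of_normal (Subgroup.mem_top t)))))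
  have h4 : Q ≤ D ⊓ Cz (stabT ⊤ D c ⊓ Cz Q) :=
    le_inf hQD fun x hx => mem_Cz.2 fun s hs => (mem_Cz.1 hs.2 x hx).symm
  have h5 : D ⊓ Cz (stabT ⊤ D c ⊓ Cz Q) ≤ D := inf_le_left
  generalize D ⊓ Cz (stabT ⊤ D c ⊓ Cz Q) = R at h1 h2 h3 h4 h5
  by_cases hR : Nz R = ⊤
  swap
  · have h6 := ih _ hR 1 (one_mem _)
    rw [map_one, Module.End.one_apply] at h6
    rw [h1, h6 (h.local hp h5 (inf_le_right.trans (Cz_le_Nz R)) le_top le_rfl),
      vred_nz hp h (le_inf h3 hT) inf_le_right, vred_nz hp h hT le_rfl]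
  obtain rfl := le_antisymm h4 (hQ R (Subgroup.normalizer_eq_top_iff.1 hR) h5)
  by_cases hD : D.map (qm Q) = ⊥
  · rw [Subgroup.map_eq_bot_iff, QuotientGroup.ker_mk'] at hD
    rw [← le_antisymm hQD hD, hR]
  have h6 : Q.relIndex D = Nat.card (D.map (qm Q)) := by
    rw [← Subgroup.relIndex_ker, QuotientGroup.ker_mk']
  rw [h6] at h2
  refine step_auxw hp h hQD hQ hD (fun γ hγ hγ' => ?_) ih
  rcases h2 with h2 | h2 | h2
  · exact h0 γ hγ' h2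
  · exact sum_wl_sq hM hγ' hD h2
  obtain ⟨g, hg, h7⟩ := dom_stab hp h hQD hγ
  refine sum_wl_free hM hγ' hD fun s hs => ?_
  obtain ⟨a, ha, t, ht, rfl⟩ := h7 s hs
  have h8 : ∀ x d : G, x * d * x⁻¹ * d⁻¹ ∈ Q ↔ qm Q x * qm Q d = qm Q d * qm Q x := fun x d => by
    rw [← QuotientGroup.eq_one_iff, ← QuotientGroup.mk'_apply, map_mul, map_mul, map_mul, map_inv,
      map_inv, mul_inv_eq_one, mul_inv_eq_iff_eq_mul]
  refine vred_free (g := qm Q g) ha (Nz_map_qm hQD ▸ ⟨g, hg, rfl⟩) ?_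
  rw [← map_inv, ← map_mul, ← map_mul]
  refine (h2 _ (hR ▸ Subgroup.mem_top _) ((mem_stabT_cj hg).1 ht)).imp
    (fun e => mem_Cz.2 ?_) fun e => ?_
  · rintro _ ⟨d, hd, rfl⟩
    exact (h8 _ d).1 (e d hd)
  · rintro _ ⟨d, hd, rfl⟩ e'
    exact (QuotientGroup.eq_one_iff d).2 (e d hd ((h8 _ d).2 e'))

theorem lL_reducew_of (p b : ℕ) [Fact p.Prime] : ∃ N : ℕ, ∀ (M : Ideal (integralClosure ℤ ℂ))
    (V : ValuationSubring ℂ), CoefB p M V → WA p V →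
    ∀ (G : Type) [Group G] [Fintype G] (m : ℕ) (H D : Subgroup G) (c : MonoidAlgebra V G),
      Rt p m H D c → om1 p D ≤ b → Gf p N H D c →
      lL p H (bk D c H) = lL p (H ⊓ Nz D) (bk D c (H ⊓ Nz D)) := by
  obtain ⟨N, hN⟩ := sum_wl_zero p b
  refine ⟨N, fun M V hM hB => ?_⟩
  have hp := hM.nonunit
  have key : ∀ (n : ℕ) (G : Type) [Group G] [Fintype G] (m : ℕ) (H D : Subgroup G)
      (c : MonoidAlgebra V G), Nat.card H < n → Rt p m H D c → om1 p D ≤ b → Gf p N H D c →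
      lL p H (bk D c H) = lL p (H ⊓ Nz D) (bk D c (H ⊓ Nz D)) := by
    intro n
    induction n with
    | zero => exact fun _ _ _ _ _ _ _ h => absurd h (Nat.not_lt_zero _)
    | succ n ih =>
      intro G _ _ m H D c hH h hb hm
      let _ : Fintype H := Fintype.ofFinite H
      have h1 := h.pull hp
      have hb' := (lind_om1 h).trans_le hb
      have hm' := hm.pull h
      have h2 := h.lL_map hp (K := ⊤) le_top
      have h3 := h.lL_map hp (K := Nz (D.subgroupOf H)) (Cz_le_Nz _)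
      rw [map_top_sub] at h2
      rw [h.map_Nz] at h3
      rw [h2, h3]
      have h4 := (D.subgroupOf H).normalCore_le
      let _ : Fintype (H ⧸ (D.subgroupOf H).normalCore) := Fintype.ofFinite _
      let _ : Fintype (Finset (Subgroup (H ⧸ (D.subgroupOf H).normalCore))) := Fintype.ofFinite _
      exact vred_step hM hB h1 h4 (fun R _ hR => Subgroup.normal_le_normalCore.2 hR) hm'
        (fun γ hγ => hN M V hM _ m _ γ hγ ((om1_map_le p h1.comm h4).trans hb'))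
        fun K hK g hg hK' => ih H m K _ _ ((bind_card_lt hK).trans_le (Nat.lt_succ_iff.1 hH))
          hK' hb' (hm'.cj hg K)
  exact fun G _ _ m H D c => key _ G m H D c (Nat.lt_succ_self _)

end Pool.Agent.Lib.MP_b6945b_al.Kx
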