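import Pool.Agent.Lib.MP_b6945b_al.Kx.PRes

set_option autoImplicit false

/-!
Levels with the same inertial group.
-/

namespace Pool.Agent.Lib.MP_b6945b_al.Kx

open St Bi Finset

variable {G : Type} [Group G] {V : ValuationSubring ℂ}

/-- The inertial group of the block of `Cz P`. -/
noncomputable abbrev TP (D : Subgroup G) (c : MonoidAlgebra V G) (P : Subgroup G) : Subgroup G :=
  stabT ⊤ D c ⊓ Cz P

/-- The fixed points of the inertial group of the block of `Cz P`. -/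
noncomputable abbrev cl (D : Subgroup G) (c : MonoidAlgebra V G) (P : Subgroup G) : Subgroup G :=
  D ⊓ Cz (TP D c P)

/-- Two levels with the same inertial group. -/
structure Same (D : Subgroup G) (c : MonoidAlgebra V G) (P P' : Subgroup G) : Prop where
  le : P ≤ P'
  leD : P' ≤ D
  cz : TP D c P ≤ Cz P'

/-- Pairs that commute modulo `Cz P`. -/
structure AdW (D : Subgroup G) (c : MonoidAlgebra V G) (P : Subgroup G) (x y : G) : Prop where
  xT : x ∈ stabT ⊤ D c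
  yT : y ∈ stabT ⊤ D c
  xN : x ∈ Nz P
  yN : y ∈ Nz P
  com : y * x * y⁻¹ * x⁻¹ ∈ Cz P

open Classical in
/-- The elements of the inertial group in the coset `Cz P * x` that centralise `d`. -/
noncomputable def ix [Fintype G] (D : Subgroup G) (c : MonoidAlgebra V G) (P : Subgroup G)
    (x d : G) : Finset G :=
  univ.filter fun s => s ∈ stabT ⊤ D c ∧ s * x⁻¹ ∈ Cz P ∧ s ∈ Cu d

variable {D P P' R S : Subgroup G} {c : MonoidAlgebra V G} {x y s d : G}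

lemma mem_ix [Fintype G] :
    s ∈ ix D c P x d ↔ s ∈ stabT ⊤ D c ∧ s * x⁻¹ ∈ Cz P ∧ s ∈ Cu d := by
  classical
  rw [ix, mem_filter, and_iff_right (mem_univ s)]

lemma le_Cz_swap (h : S ≤ Cz R) : R ≤ Cz S := fun r hr =>
  mem_Cz.2 fun _ hs => (mem_Cz.1 (h hs) r hr).symm

lemma le_cl (hPD : P ≤ D) : P ≤ cl D c P := le_inf hPD (le_Cz_swap inf_le_right)

lemma same_cl (hPD : P ≤ D) : Same D c P (cl D c P) :=
  ⟨le_cl hPD, inf_le_left, le_Cz_swap inf_le_right⟩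

lemma Same.le_cl (h : Same D c P P') : P' ≤ cl D c P := le_inf h.leD (le_Cz_swap h.cz)

lemma Same.tp (h : Same D c P P') : TP D c P' = TP D c P :=
  le_antisymm (inf_le_inf_left _ (Cz_anti h.le)) (le_inf inf_le_left h.cz)

lemma Same.cl_eq (h : Same D c P P') : cl D c P' = cl D c P := by rw [cl, h.tp]

lemma Same.sup (h : Same D c P P') (hS : S ≤ D) : Same D c (P ⊔ S) (P' ⊔ S) :=
  ⟨sup_le_sup_right h.le S, sup_le h.leD hS, fun t ht => by
    rw [pu_Cz_sup]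
    exact ⟨h.cz ⟨ht.1, Cz_anti le_sup_left ht.2⟩, Cz_anti le_sup_right ht.2⟩⟩

lemma Same.mid (h : Same D c P P') (h1 : P ≤ R) (h2 : R ≤ P') :
    Same D c P R ∧ Same D c R P' :=
  ⟨⟨h1, h2.trans h.leD, h.cz.trans (Cz_anti h2)⟩,
    ⟨h2, h.leD, (inf_le_inf_left _ (Cz_anti h1)).trans h.cz⟩⟩

lemma Same.ix_eq [Fintype G] (h : Same D c P P') (hx : x ∈ stabT ⊤ D c) (d : G) :
    ix D c P' x d = ix D c P x d := by
  ext s
  rw [mem_ix, mem_ix]
  exact and_congr_right fun hs => and_congr_left fun _ => ⟨fun e => Cz_anti h.le e, fun e =>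
    h.cz (Subgroup.mem_inf.2 ⟨mul_mem hs (inv_mem hx), e⟩)⟩

lemma nz_cl (hT : x ∈ stabT ⊤ D c) (hN : x ∈ Nz P) : x ∈ Nz (cl D c P) :=
  pu_Nz_inf hT.2.1 (Nz_le_Nz_Cz _ (pu_Nz_inf (Subgroup.le_normalizer hT) (Nz_le_Nz_Cz P hN)))

lemma AdW.comT (h : AdW D c P x y) : y * x * y⁻¹ * x⁻¹ ∈ TP D c P :=
  Subgroup.mem_inf.2 ⟨mul_mem (mul_mem (mul_mem h.yT h.xT) (inv_mem h.yT)) (inv_mem h.xT), h.com⟩

lemma AdW.same (h : AdW D c P x y) (hs : Same D c P P') (hx : x ∈ Nz P') (hy : y ∈ Nz P') :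
    AdW D c P' x y := ⟨h.xT, h.yT, hx, hy, hs.cz h.comT⟩

lemma AdW.cl (h : AdW D c P x y) (hPD : P ≤ D) : AdW D c (cl D c P) x y :=
  h.same (same_cl hPD) (nz_cl h.xT h.xN) (nz_cl h.yT h.yN)

lemma AdW.one_right (h : AdW D c P x y) : AdW D c P x 1 :=
  ⟨h.xT, one_mem _, h.xN, one_mem _, by simp⟩

lemma AdW.one_left (h : AdW D c P x y) : AdW D c P 1 x :=
  ⟨one_mem _, h.xT, one_mem _, h.xN, by simp⟩

lemma AdW.move1 (h : AdW D c P x y) : AdW D c P x (y * x) :=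
  ⟨h.xT, mul_mem h.yT h.xT, h.xN, mul_mem h.yN h.xN, by
    rw [show y * x * x * (y * x)⁻¹ * x⁻¹ = y * x * y⁻¹ * x⁻¹ by group]
    exact h.com⟩

lemma AdW.move2 (h : AdW D c P x y) : AdW D c P (x * y) y :=
  ⟨mul_mem h.xT h.yT, h.yT, mul_mem h.xN h.yN, h.yN, by
    rw [show y * (x * y) * y⁻¹ * (x * y)⁻¹ = y * x * y⁻¹ * x⁻¹ by group]
    exact h.com⟩

/-- The index pairs of the section formula are admissible one level up. -/
lemma AdW.ix [Fintype G] (h : AdW D c P x y) {t : G} (hs : s ∈ ix D c P x d)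
    (ht : t ∈ ix D c P y d) : AdW D c (P ⊔ Subgroup.zpowers d) s t := by
  obtain ⟨s1, s2, s3⟩ := mem_ix.1 hs
  obtain ⟨t1, t2, t3⟩ := mem_ix.1 ht
  have key : ∀ a b : G, b ∈ Nz P → a * b⁻¹ ∈ Cz P → a ∈ Nz P := fun a b hb e => by
    simpa using (Nz P).mul_mem (Cz_le_Nz P e) hb
  refine ⟨s1, t1, nz_sup (key s x h.xN s2) (Cz_le_Nz _ s3), nz_sup (key t y h.yN t2)
    (Cz_le_Nz _ t3), ?_⟩
  rw [pu_Cz_sup, Subgroup.mem_inf]
  refine ⟨?_, mul_mem (mul_mem (mul_mem t3 s3) (inv_mem t3)) (inv_mem s3)⟩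
  have hx := Nz_le_Nz_Cz P h.xN
  have h1 := (coset_conj hx t2 _).2 ((coset_conj' (Nz_le_Nz_Cz P h.yN) h.com s).2 s2)
  rw [coset_change s2]
  convert h1 using 1
  group

end Pool.Agent.Lib.MP_b6945b_al.Kx
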