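import Pool.Agent.Lib.MP_b6945b_al.Kx.RFin

set_option autoImplicit false

/-!
Blocks of defect zero.
-/

namespace Pool.Agent.Lib.MP_b6945b_al.Kx

open St Bi IsLocalRing Finset
open MonoidAlgebra (single)

variable {G : Type} [Group G] [Fintype G] {V : ValuationSubring ℂ} {p : ℕ} [Fact p.Prime]
  {I : IrrData G} {i : Fin I.n} {β : MonoidAlgebra V G}

lemma wdz_mem (hp : (p : ℂ) ∈ V.nonunits) (hi : p ^ (Nat.card G).factorization p ∣ I.d i) :
    (I.d i : ℂ) / Fintype.card G ∈ V := by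
  have hG : Nat.card G ≠ 0 := Nat.card_pos.ne'
  obtain ⟨d', hd'⟩ := hi
  have h2 := inv_nat_mem hp (Nat.not_dvd_ordCompl (Fact.out : p.Prime) hG)
  have h3 : (I.d i : ℂ) / Nat.card G =
      d' * ((Nat.card G / p ^ (Nat.card G).factorization p : ℕ) : ℂ)⁻¹ := by
    conv_lhs => rw [hd', ← Nat.ordProj_mul_ordCompl_eq_self (Nat.card G) p]
    rw [Nat.cast_mul, Nat.cast_mul, Nat.ordProj_mul_ordCompl_eq_self, mul_div_mul_left _ _ (by
      exact_mod_cast (pow_pos (Fact.out : p.Prime).pos _).ne'), div_eq_mul_inv]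
  rw [← Nat.card_eq_fintype_card, h3]
  exact V.mul_mem _ _ (natCast_mem V d') h2

omit [Fact p.Prime] in
lemma wdz_zf (I : IrrData G) (i : Fin I.n) (g : G) :
    I.zf (ind (· = i)) g = (I.d i : ℂ) / Fintype.card G * I.χ i g⁻¹ := by
  rw [IrrData.zf, Finset.sum_eq_single i (fun j _ hj => by
    rw [ind_neg (S := (· = i)) hj, zero_mul]) (by simp), ind_pos (S := (· = i)) rfl, one_mul,
    mul_div_right_comm]

/-- A character of defect zero is alone in its block. -/
lemma wdz_bl (hp : (p : ℂ) ∈ V.nonunits) (hi : p ^ (Nat.card G).factorization p ∣ I.d i)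
    {j : Fin I.n} (hj : I.Bl V i j) : j = i := by
  have h2 : ind (· = i) ∈ I.Lam V := fun g => by
    rw [wdz_zf]
    exact V.mul_mem _ _ (wdz_mem hp hi) (mem_of_isIntegral V (I.χ_isIntegral i _))
  by_contra e
  have h5 := hj _ h2
  rw [ind_neg (S := (· = i)) e, ind_pos (S := (· = i)) rfl, zero_sub] at h5
  exact one_not_mem_nonunits V (by simpa using neg_mem h5)

omit [Fact p.Prime] in
lemma wdz_refl (I : IrrData G) (i : Fin I.n) : I.Bl V i i := fun a _ => by
  rw [sub_self]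
  exact zero_mem _

/-- The block of a character of defect zero is killed by the Brauer homomorphisms. -/
lemma wdz_bot (hp : (p : ℂ) ∈ V.nonunits) (hi : p ^ (Nat.card G).factorization p ∣ I.d i)
    (he : IsBlockIdem I i β) {S : Subgroup G} (hS : IsPGroup p S) (h0 : bb S β ≠ 0) : S = ⊥ := by
  obtain ⟨y, hy, h1⟩ := bb_ne_zero_iff.1 h0
  by_contra hne
  apply h1
  rw [← ValuationSubring.coe_mem_nonunits_iff]
  change cf β y ∈ _
  have h2 : ind (I.Bl V i) = ind (· = i) := funext fun j => by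
    by_cases e : j = i
    · rw [ind_pos (S := (· = i)) e, e, ind_pos (wdz_refl I i)]
    · rw [ind_neg (S := (· = i)) e, ind_neg fun a => e (wdz_bl hp hi a)]
  have h3 := sum_ind_conj (⟨y⁻¹⟩ : Cj G) _ (isCF_chi I i)
  have h4 := orbit_Cj (⟨y⁻¹⟩ : Cj G)
  have h5 : p ∣ Nat.card (Subgroup.centralizer {y⁻¹}) := by
    refine ((hS.card_eq_or_dvd).resolve_left fun e => hne (Subgroup.eq_bot_of_card_eq _ e)).trans
      (Subgroup.card_dvd_of_le fun s hs => Subgroup.mem_centralizer_singleton_iff.2 ?_)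
    exact (mem_Cz.1 ((Cz S).inv_mem hy) s hs).symm
  obtain ⟨c, hc⟩ := h5
  have h6 : I.χ i y⁻¹ = p * (c * (I.om i (ind (IsConj y⁻¹)) * (I.d i / Fintype.card G))) := by
    have hd := I.d_ne i
    have hG : (Nat.card G : ℂ) ≠ 0 := by exact_mod_cast Nat.card_pos.ne'
    change _ * Nat.card (Subgroup.centralizer {y⁻¹}) = _ at h4
    change ∑ w, ind (IsConj y⁻¹) w * _ = _ * I.χ i y⁻¹ at h3
    rw [hc] at h4
    rw [← h4] at hG
    rw [IrrData.om, h3, ← Nat.card_eq_fintype_card, ← h4]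
    push_cast at hG ⊢
    have h7 := left_ne_zero_of_mul hG
    have h8 := left_ne_zero_of_mul (right_ne_zero_of_mul hG)
    have h9 := right_ne_zero_of_mul (right_ne_zero_of_mul hG)
    field_simp
  rw [he, h2, wdz_zf, mul_comm, h6]
  exact mul_mem_nonunits (mul_mem_nonunits hp (V.mul_mem _ _ (natCast_mem V c) (V.mul_mem _ _
    (mem_of_isIntegral V (I.om_ind_int i _ (isConj_conj_iff _))) (wdz_mem hp hi)))) (wdz_mem hp hi)

/-- A block with trivial defect group consists of a character of defect zero. -/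
lemma wdz_of_max (hp : (p : ℂ) ∈ V.nonunits) (he : IsBlockIdem I i β) (hm : MaxR p ⊤ ⊥ β) :
    p ^ (Nat.card G).factorization p ∣ I.d i := by
  have h := hb_of_blockIdem he
  have hc := he.isBlock.cent
  have hs : ∀ a : MonoidAlgebra V G, SuppCent ((⊥ : Subgroup G) : Set G) a := fun a =>
    supp_Cz_iff.1 (Cz_bot (G := G) ▸ supp_top a)
  obtain ⟨a, ha1, ha2⟩ := blkF_trace hp (D := ⊥) IsPGroup.of_bot hc (hs β) fun y hy S hS _ hy' => by
    have h1 := hm y hy S le_top hS hy'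
    rw [Subgroup.card_bot] at h1
    exact Subgroup.eq_bot_of_card_le S h1
  obtain ⟨a', -, h1⟩ := blkF_exact h.idem hc (hs β) ha1 ha2
  have h3 := ev_chi_eq_om I i β
  rw [blkF_om_self he, mul_one, h1, ev_rtr (isCF_chi I i) le_top, Subgroup.relIndex_top_right,
    Subgroup.index_bot] at h3
  have h4 := pow_dvd_of_mem hp ((Nat.card G).factorization p) (t := I.d i)
    (V.mul_mem _ _ (natCast_mem V (Nat.card G / p ^ (Nat.card G).factorization p))
      (ev_chi_mem I i a')) (by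
      rw [Int.cast_natCast, ← h3, ← mul_assoc, ← Nat.cast_pow, ← Nat.cast_mul,
        Nat.ordProj_mul_ordCompl_eq_self])
  exact_mod_cast h4

lemma wdz_lL (hp : (p : ℂ) ∈ V.nonunits) (h : HB ⊤ β) (hm : MaxR p ⊤ ⊥ β) : lL p ⊤ β = 1 := by
  refine le_antisymm ((lL_le_kL p _ _).trans (kL_le_one hp h hm)) (Nat.one_le_iff_ne_zero.2 ?_)
  obtain ⟨I⟩ := exists_irrData G
  obtain ⟨i, he⟩ := h.exists_blockIdem I
  intro h0
  have h1 := (Submodule.finrank_eq_zero.1 h0).le
    (Submodule.mem_map_of_mem (chi_mem_CFs he (wdz_refl I i)))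
  have h2 := congrFun ((Submodule.mem_bot ℂ).1 h1) 1
  rw [Reg_apply_reg _ (by
    rw [orderOf_one]
    exact (Fact.out : p.Prime).not_dvd_one), I.χ_one] at h2
  exact I.d_ne i h2

/-- Inflation of characters and domination of blocks. -/
lemma wdz_infl (I : IrrData G) {Q : Subgroup G} [Q.Normal] [Fintype (G ⧸ Q)] (J : IrrData (G ⧸ Q))
    (j : Fin J.n) : ∃ k, (fun h : G => J.χ j h) = I.χ k ∧ ∀ (a : MonoidAlgebra V (G ⧸ Q))
      (b : MonoidAlgebra V G), IsBlockIdem J j a → IsBlockIdem I k b →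
      a * inc V (qm Q) b = a := by
  obtain ⟨k, hk⟩ := (isIrrChar_iff I (χ := fun h : G => J.χ j h)).1
    ⟨J.d j, (J.ρ j).comp (qm Q), J.pos j, fun W hW => J.matIrr j W fun g => by
      obtain ⟨g, rfl⟩ := QuotientGroup.mk'_surjective Q g
      exact hW g, rfl⟩
  refine ⟨k, hk, fun a b ha hb => ?_⟩
  have h1 := hb_of_blockIdem ha
  have h2 := hb_of_blockIdem hb
  have h3 : Fix ⊤ (inc V (qm Q) b) := map_top_qm Q ▸ h2.fix.inc (qm Q)
  refine (h1.dich (by rw [← map_mul, h2.idem]) (supp_top _) h3).resolve_left fun e => ?_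
  have h4 := ev_chi_block ha j (inc V (qm Q) b)
  have h5 := ev_chi_block hb k (single 1 1)
  rw [← h1.fix.comm (supp_top _), e, ev_zero, ind_pos (wdz_refl J j), one_mul, ev_inc] at h4
  rw [ind_pos (wdz_refl I k), one_mul, ev_single, I.χ_one, ← MonoidAlgebra.one_def, one_mul,
    ← hk] at h5
  exact I.d_ne k (h5.symm.trans h4.symm)

end Pool.Agent.Lib.MP_b6945b_al.Kx
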