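import Pool.Agent.Lib.MP_b6945b_al.Kx.WDef

set_option autoImplicit false

/-!
The relative trace followed by the block projection is injective modulo the maximal ideal.
-/

namespace Pool.Agent.Lib.MP_b6945b_al.Kx

open St Bi IsLocalRing Finset
open scoped Classical

variable {G : Type} [Group G] [Fintype G] {V : ValuationSubring ℂ} {p : ℕ} [Fact p.Prime]
  {m : ℕ} {K L D P S U : Subgroup G} {c w : MonoidAlgebra V G} {g : G}

/-- An element that respects the blocks lies in the inertial group up to the centraliser. -/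
lemma wi_pair (hp : (p : ℂ) ∈ V.nonunits) (h : Rt p m L D c) (h' : Rt p m (cg g L) D c)
    (e : Le D (cjRep V G g (bk D c L)) c) : ∃ l ∈ cg g L, l⁻¹ * g ∈ stabT ⊤ D c := by
  have h1 := h.spec hp h.le
  have h2 := h.conj hp g
  obtain ⟨l, hl, h3, h4⟩ := h'.root_conj hp h2.pD h2.le_H (card_cg g D).ge
    (by rw [inf_eq_right.2 h2.le]; exact h2.root)
    (by rw [h'.bk_eq hp h'.le (h1.1.conj g) e]; exact h1.2.cj g)
  exact ⟨l, hl, trivial, by rw [← cg_eq_iff, ← cg_cg, h3, cg_cg, inv_mul_cancel, cg_one], by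
    rw [← frpg_cj_cj, h4, frpg_inv_cj]⟩

omit [Fact p.Prime] in
lemma wi_cj (g : G) (h : bb (cg g U) (cjRep V G g w) ≠ 0) : bb U w ≠ 0 := fun e => h (by
  rw [bb_cj, e, map_zero])

/-- A Brauer pair on which `w` does not vanish. -/
lemma wi_le (hp : (p : ℂ) ∈ V.nonunits) (hU : IsPGroup p U) (hUL : U ≤ L) {e f : MonoidAlgebra V G}
    (he : HB L e) (hw : Fix U w) (hwe : w * e = w) (hf : HB (L ⊓ Cz U) f)
    (h0 : bb U w * toRes V G f ≠ 0) : Le U e f := by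
  refine (le_dich hp hU hUL he.idem he.supp he.fix hf le_rfl inf_le_left
    (inf_le_right.trans (Cz_le_Nz U))).resolve_left fun h1 => h0 ?_
  rw [← hwe, bb_mul hp hU hw (he.fix.mono hUL), mul_assoc, h1, mul_zero]

/-- A largest subgroup on which `w` does not vanish, inside the defect group. -/
lemma wi_max (hp : (p : ℂ) ∈ V.nonunits) (h : Rt p m L D c) (hf : Fix L w)
    (he : w * bk D c L = w) (h0 : toRes V G w ≠ 0) :
    ∃ U ≤ D, bb U w * toRes V G (bk D c (L ⊓ Cz U)) ≠ 0 ∧ ∀ U' : Subgroup G, IsPGroup p U' →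
      U' ≤ L → bb U' w ≠ 0 → Nat.card U' ≤ Nat.card U := by
  obtain ⟨U, ⟨h1, h2, h3⟩, h4⟩ := Set.exists_max_image
    {U : Subgroup G | IsPGroup p U ∧ U ≤ L ∧ bb U w ≠ 0} (fun U => Nat.card U) (Set.toFinite _)
    ⟨⊥, IsPGroup.of_bot, bot_le, by rwa [bb_bot]⟩
  obtain ⟨f, h5, h6⟩ := exists_blk_res_ne (V := V) (L ⊓ Cz U) h3
  obtain ⟨l, hl, h7, h8⟩ := h.max_pair hp h1 h2 h5
    (wi_le hp h1 h2 (h.spec hp h.le).1 (hf.mono h2) he h5 h6)
  have h9 : cg l⁻¹ U ≤ D := fun u hu => by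
    simpa [mul_assoc] using mem_cg.1 (h7 (mem_cg.1 hu))
  refine ⟨cg l⁻¹ U, h9, fun e => h6 ?_, fun U' a1 a2 a3 => card_cg l⁻¹ U ▸ h4 U' ⟨a1, a2, a3⟩⟩
  have a1 := h5.conj l⁻¹
  have a2 := h8.cj l⁻¹
  rw [cg_inf, bmax_cg_self (L.inv_mem hl), ← Cz_cg] at a1
  rw [cg_cg, inv_mul_cancel, cg_one, frpg_inv_cj] at a2
  rw [h.bk_eq hp (le_inf h.le (Cz_anti h9)) a1 a2, ← hf l⁻¹ (L.inv_mem hl), bb_cj, toRes_cjB,
    ← cjRep_mul] at e
  rw [← frpg_inv_cj l⁻¹ (bb U w * _), e, map_zero]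

theorem wi_core (hp : (p : ℂ) ∈ V.nonunits) (h : Rt p m ⊤ D c) (hPD : P ≤ D) (hSD : S ≤ D)
    (hT : TP D c P ≤ Cz S) (hs : Supp (Cz S) w) (hf : Fix (Cz (P ⊔ S)) w)
    (he : w * eP D c (P ⊔ S) = w) (h0 : toRes V G w ≠ 0) :
    rtr (cjRep V G) (Cz (P ⊔ S)) (Cz P) w * eP D c P ≠ 0 := by
  intro e0
  have hQ : P ⊔ S ≤ D := sup_le hPD hSD
  have hL := pu_rt hp h hQ
  obtain ⟨U, hUD, h1, hmax⟩ := wi_max hp hL hf he h0
  have hU : IsPGroup p U := h.pD.to_le hUD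
  have hDC : ∀ {R : Subgroup G}, R ≤ D → D ≤ Cz R := fun hR => h.le_Cz.trans (Cz_anti hR)
  have hLK : Cz (P ⊔ S) ≤ Cz P := Cz_anti le_sup_left
  have key : ∀ U' : Subgroup G, IsPGroup p U' → U' ≤ Cz (P ⊔ S) → bb U' w ≠ 0 →
      Nat.card U ≤ Nat.card U' → S ≤ U' := fun U' a1 a2 a3 a4 => by
    have a5 := hmax (U' ⊔ S) (a1.to_sup_of_normal_right' (h.pD.to_le hSD)
      (a2.trans ((Cz_anti le_sup_right).trans (Cz_le_Nz S)))) (sup_le a2 (hSD.trans (hDC hQ)))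
      (bpair_sup (bb_of_supp hs) a3)
    exact le_sup_right.trans (Subgroup.eq_of_le_of_card_ge le_sup_left (a5.trans a4)).ge
  have hSU : S ≤ U := key U hU (hUD.trans (hDC hQ)) (left_ne_zero_of_mul h1) le_rfl
  have hC : ∀ {R : Subgroup G}, R ≤ U → Cz (P ⊔ R) ⊓ Cz U = Cz P ⊓ Cz U := fun hR => by
    rw [pu_Cz_sup, inf_assoc, inf_eq_right.2 (Cz_anti hR)]
  rw [hC hSU] at h1
  have hF := h.spec hp (le_inf (Cz_anti hPD) (Cz_anti hUD))
  have hl : Le U (eP D c P) (bk D c (Cz P ⊓ Cz U)) :=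
    h.below hp hUD (Cz_anti hPD) le_rfl inf_le_left (inf_le_right.trans (Cz_le_Nz U))
  generalize bk D c (Cz P ⊓ Cz U) = f at h1 hF hl
  have hUK : U ≤ Cz P := hUD.trans (hDC hPD)
  have h2 := bb_mul hp hU ((show Fix (Cz P) _ from rtr_fixed hLK hf).mono hUK)
    ((eP_hb hp h hPD).fix.mono hUK)
  rw [e0, bb_zero] at h2
  have h3 := congrArg (· * toRes V G f) h2
  simp only [zero_mul, mul_assoc] at h3
  rw [hl, bb, bnon_toRes_rtr, brT_rtr_fixed (bil_pk hp) hLK hU hUK hf.toRes, Finset.sum_mul,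
    Finset.sum_eq_single ((1 : G) : G ⧸ Cz (P ⊔ S))] at h3
  · have h4 : ((1 : G) : G ⧸ Cz (P ⊔ S)).out ∈ Cz (P ⊔ S) := by
      simpa using QuotientGroup.eq.1 (QuotientGroup.out_eq' ((1 : G) : G ⧸ Cz (P ⊔ S)))
    rw [if_pos ⟨hLK h4, fun d hd => mul_mem (mul_mem (inv_mem h4) (hDC hQ (hUD hd))) h4⟩,
      hf.toRes _ h4] at h3
    exact h1 h3.symm
  · intro q _ hq
    have h4 : q.out ∉ Cz (P ⊔ S) := fun e => hq (by
      rw [← QuotientGroup.out_eq' q]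
      exact QuotientGroup.eq.2 (by simpa using e))
    generalize q.out = g at h4
    split_ifs with hc
    swap
    · rw [zero_mul]
    by_contra h5
    rw [← toRes_cjB] at h5
    change bb U _ * _ ≠ 0 at h5
    have h6 : cg g S ≤ U := by
      have h7 := key (cg g⁻¹ U) (hU.map _) (fun u hu => by
        simpa [mul_assoc] using hc.2 _ (mem_cg.1 hu)) (wi_cj g (by
          rw [cg_cg, mul_inv_cancel, cg_one]
          exact left_ne_zero_of_mul h5)) (card_cg _ _).ge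
      intro s hs
      simpa [mul_assoc] using mem_cg.1 (h7 (mem_cg.1 hs))
    have h7 : cg g (Cz (P ⊔ S)) = Cz (P ⊔ cg g S) := by
      rw [← Cz_cg, cg, Subgroup.map_sup]
      exact congrArg (fun R => Cz (R ⊔ _)) (cg_eq_iff.2 (Cz_le_Nz P hc.1))
    have hQ' : P ⊔ cg g S ≤ D := sup_le hPD (h6.trans hUD)
    have h8 := (eP_hb hp h hQ).conj g
    have h9 := hf.cj g
    rw [h7] at h8 h9
    have hUL : U ≤ Cz (P ⊔ cg g S) := hUD.trans (hDC hQ')
    have h10 := wi_le hp hU hUL h8 (h9.mono hUL) (by rw [← cjRep_mul, he])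
      (by rw [hC h6]; exact hF.1) h5
    obtain ⟨l, hl, ht⟩ := wi_pair hp hL (h7 ▸ pu_rt hp h hQ') (h10.trans hp hF.2 h.pD hUD
      ((hDC hUD).trans (Cz_le_Nz U)) (h8.fix.mono (hDC hQ'))
      (hF.1.fix.mono (le_inf (hDC hPD) (hDC hUD))))
    rw [h7, pu_Cz_sup] at hl
    have h11 := hT (Subgroup.mem_inf.2 ⟨ht, mul_mem (inv_mem hl.1) hc.1⟩)
    refine h4 ?_
    rw [pu_Cz_sup]
    refine ⟨hc.1, mem_Cz.2 fun s hs => ?_⟩
    have h12 := mem_Cz.1 hl.2 (g * s * g⁻¹) (mem_cg.2 (by simpa [mul_assoc] using hs))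
    have h13 := mem_Cz.1 h11 s hs
    calc g * s = l⁻¹ * (l * (g * s * g⁻¹)) * g := by group
      _ = l⁻¹ * g * s * (g⁻¹ * l * g) := by rw [h12]; group
      _ = s * g := by rw [h13]; group
  · exact fun e => absurd (mem_univ _) e

end Pool.Agent.Lib.MP_b6945b_al.Kx
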