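import Pool.Agent.Lib.MP_b6945b_al.Kx.YGS

set_option autoImplicit false

/-!
Coprime action on the dual group.
-/

namespace Pool.Agent.Lib.MP_b6945b_al.Kx

open Bi Finset

variable {p : ℕ} {E D : Type} [Group E] [Fintype E] [CommGroup D] [Fintype D]
  {φ : E →* MulAut D}

omit [Fintype E] [Fintype D] in
lemma da_one (l : Ch D) : da φ 1 l = l := by
  let _ := dualAct φ
  exact one_smul E l

omit [Fintype E] [Fintype D] in
lemma da_mul (g h : E) (l : Ch D) : da φ (g * h) l = da φ g (da φ h l) := by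
  let _ := dualAct φ
  exact mul_smul g h l

omit [Fintype E] [Fintype D] in
lemma da_add (g : E) (l n : Ch D) : da φ g (l + n) = da φ g l + da φ g n := rfl

omit [Fintype E] [Fintype D] in
lemma da_zero (g : E) : da φ g (0 : Ch D) = 0 := rfl

omit [Fintype E] [Fintype D] in
lemma da_perp {M : Subgroup D} (hM : ∀ g d, φ g d ∈ M ↔ d ∈ M) (g : E) (l : Ch D) :
    da φ g l ∈ perp M ↔ l ∈ perp M := by
  refine ⟨fun h d hd => ?_, fun h d hd => h _ ((hM _ _).2 hd)⟩
  have := h _ ((hM g d).2 hd)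
  rwa [cv_da, ← MulAut.mul_apply, ← map_mul, inv_mul_cancel, map_one, MulAut.one_apply] at this

omit [Fintype E] [Fintype D] in
lemma stk_da (g : E) (l : Ch D) : stk φ (da φ g l) = stk φ l := by
  refine Nat.card_congr (Equiv.subtypeEquiv (MulAut.conj g⁻¹).toEquiv fun x => ?_)
  change _ ↔ da φ (g⁻¹ * x * g⁻¹⁻¹) l = l
  rw [inv_inv, da_mul, da_mul]
  refine ⟨fun h => by rw [h, ← da_mul, inv_mul_cancel, da_one], fun h => ?_⟩
  have := congrArg (da φ g) h
  rwa [← da_mul, mul_inv_cancel, da_one] at this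

omit [Fintype D] in
lemma stk_zero : stk φ (0 : Ch D) = Fintype.card E := by
  rw [stk, Nat.card_congr (Equiv.subtypeUnivEquiv fun g => da_zero g), Nat.card_eq_fintype_card]

omit [Fintype D] in
lemma stb_one' : stb φ (1 : D) = Fintype.card E := by
  rw [stb, Nat.card_congr (Equiv.subtypeUnivEquiv fun g => map_one (φ g)),
    Nat.card_eq_fintype_card]

omit [Fintype E] [Fintype D] in
lemma ydual_eq {l : Ch D} {a b : D} (h : cv l (a * b⁻¹) = 1) : cv l a = cv l b := by
  rw [← inv_mul_cancel_right a b, cv_mul, h, one_mul]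

/-- The kernel of a character. -/
def ydualKer {D : Type} [CommGroup D] (l : Ch D) : Subgroup D where
  carrier := {d | cv l d = 1}
  one_mem' := cv_one l
  mul_mem' := fun {a b} ha hb => (cv_mul l a b).trans (by rw [ha, hb, mul_one])
  inv_mem' := fun {a} ha => by
    have h := cv_mul l a⁻¹ a
    rw [inv_mul_cancel, cv_one, ha, mul_one] at h
    exact h.symm

/-- The projection onto the fixed points of a subgroup of order prime to `p`. -/
lemma exists_proj (hp : p.Prime) (hD : IsPGroup p D) (hE : ¬ p ∣ Fintype.card E) (A : Subgroup E) :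
    ∃ π : D →* D, (∀ g ∈ A, ∀ d, φ g (π d) = π d) ∧ (∀ g ∈ A, ∀ d, π (φ g d) = π d) ∧
      (∀ d, (∀ g ∈ A, φ g d = d) → π d = d) ∧
      (∀ l : Ch D, (∀ g ∈ A, da φ g l = l) → ∀ d, cv l (π d) = cv l d) ∧
      ∀ (M : Subgroup D) (d : D), (∀ g ∈ A, φ g d * d⁻¹ ∈ M) → π d * d⁻¹ ∈ M := by
  classical
  have := Fact.mk hp
  obtain ⟨k, hk⟩ := IsPGroup.iff_card.1 hD
  have hc : Nat.Coprime (Fintype.card A) (Nat.card D) := by
    rw [hk]
    refine Nat.Coprime.pow_right _ ((Nat.Prime.coprime_iff_not_dvd hp).2 fun h => hE ?_).symm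
    rw [← Nat.card_eq_fintype_card] at h ⊢
    exact h.trans A.card_subgroup_dvd_card
  obtain ⟨a, b, hab⟩ := Nat.isCoprime_iff_coprime.2 hc
  have h0 : ∀ d : D, (d ^ Fintype.card A) ^ a = d := fun d => by
    have h1 : d ^ (a * (Fintype.card A : ℤ) + b * (Nat.card D : ℤ)) = d := by rw [hab, zpow_one]
    rwa [zpow_add, mul_comm b, zpow_mul d (Nat.card D : ℤ), zpow_natCast, pow_card_eq_one',
      one_zpow, mul_one, mul_comm a, zpow_mul, zpow_natCast] at h1
  have h5 : ∀ (M : Subgroup D) (d : D), (∀ g ∈ A, φ g d * d⁻¹ ∈ M) →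
      (∏ g : A, φ g d) ^ a * d⁻¹ ∈ M := fun M d h => by
    have h1 := M.zpow_mem (M.prod_mem (t := univ) fun (g : A) _ => h g g.2) a
    rwa [prod_mul_distrib, prod_const, card_univ, mul_zpow, h0] at h1
  refine ⟨MonoidHom.mk' (fun d => (∏ g : A, φ g d) ^ a) fun x y => ?_, fun g hg d => ?_,
    fun g hg d => ?_, fun d h => ?_, fun l h d => ?_, h5⟩
  · simp only [map_mul, prod_mul_distrib, mul_zpow]
  · simp only [MonoidHom.mk'_apply, map_zpow, map_prod]
    refine congrArg (· ^ a) (Fintype.prod_equiv (Equiv.mulLeft (⟨g, hg⟩ : A)) _ _ fun x => ?_)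
    simp
  · simp only [MonoidHom.mk'_apply]
    refine congrArg (· ^ a) (Fintype.prod_equiv (Equiv.mulRight (⟨g, hg⟩ : A)) _ _ fun x => ?_)
    simp
  · rw [MonoidHom.mk'_apply, prod_congr rfl fun (g : A) _ => h g g.2, prod_const, card_univ, h0]
  · refine ydual_eq (h5 (ydualKer l) d fun g hg => ?_)
    have h1 := cv_da φ g⁻¹ l d
    rw [h _ (A.inv_mem hg), inv_inv] at h1
    change cv l _ = 1
    rw [cv_mul, ← h1, ← cv_mul, mul_inv_cancel, cv_one]

lemma ydual_card (hp : p.Prime) (hD : IsPGroup p D) (hE : ¬ p ∣ Fintype.card E) (g h : E) :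
    Nat.card {l : Ch D // da φ g l = l ∧ da φ h l = l} =
      Nat.card {d : D // φ g d = d ∧ φ h d = d} := by
  obtain ⟨π, h1, h2, h3, h4, -⟩ := exists_proj (φ := φ) hp hD hE (Subgroup.closure {g, h})
  have mg : g ∈ Subgroup.closure {g, h} := Subgroup.subset_closure (by simp)
  have mh : h ∈ Subgroup.closure {g, h} := Subgroup.subset_closure (by simp)
  have e1 : ∀ l : Ch D, da φ g l = l ∧ da φ h l = l ↔ l ∈ perp π.ker := fun l => by
    refine ⟨fun hl d hd => ?_, fun hl => ?_⟩
    · rw [← h4 l (fun x hx => ?_) d, MonoidHom.mem_ker.1 hd, cv_one]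
      induction hx using Subgroup.closure_induction with
      | mem x hx =>
        rcases hx with rfl | rfl
        exacts [hl.1, hl.2]
      | one => exact da_one l
      | mul x y _ _ hx hy => rw [da_mul, hy, hx]
      | inv x _ hx => rw [← congrArg (da φ x⁻¹) hx, ← da_mul, inv_mul_cancel, da_one]
    · have key : ∀ x ∈ Subgroup.closure {g, h}, da φ x l = l := fun x hx =>
        AddChar.ext _ _ fun d => ydual_eq (l := l) (a := φ x⁻¹ d.toMul) (b := d.toMul) (hl _ (by
          rw [MonoidHom.mem_ker, map_mul, h2 _ (inv_mem hx), map_inv, mul_inv_cancel]))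
      exact ⟨key g mg, key h mh⟩
  have e2 : ∀ d : D, φ g d = d ∧ φ h d = d ↔ d ∈ π.range := fun d => by
    refine ⟨fun hd => ⟨d, h3 d fun x hx => ?_⟩, ?_⟩
    · induction hx using Subgroup.closure_induction with
      | mem x hx =>
        rcases hx with rfl | rfl
        exacts [hd.1, hd.2]
      | one => rw [map_one, MulAut.one_apply]
      | mul x y _ _ hx hy => rw [map_mul, MulAut.mul_apply, hy, hx]
      | inv x _ hx => rw [map_inv, MulAut.inv_apply, MulEquiv.symm_apply_eq, hx]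
    · rintro ⟨d, rfl⟩
      exact ⟨h1 g mg d, h1 h mh d⟩
  rw [Nat.card_congr (Equiv.subtypeEquivRight e1), Nat.card_congr (Equiv.subtypeEquivRight e2),
    ← Subgroup.index_ker, ← card_perp']

omit [Group E] in
lemma ydual_sum {X : Type} [Fintype X] (R : E → X → Prop) :
    ∑ x, Nat.card {g // R g x} ^ 2 = ∑ g, ∑ h, Nat.card {x // R g x ∧ R h x} := by
  classical
  simp only [Nat.card_eq_fintype_card, Fintype.card_subtype, card_filter, pow_two, sum_mul_sum]
  rw [sum_comm]
  refine sum_congr rfl fun g _ => ?_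
  rw [sum_comm]
  refine sum_congr rfl fun h _ => sum_congr rfl fun x _ => ?_
  by_cases h1 : R g x <;> by_cases h2 : R h x <;> simp [h1, h2]

theorem sum_stk_sq (hp : p.Prime) (hD : IsPGroup p D) (hE : ¬ p ∣ Fintype.card E) :
    ∑ l : Ch D, stk φ l ^ 2 = ∑ d, stb φ d ^ 2 := by
  simp only [stk, stb]
  rw [ydual_sum fun g l => da φ g l = l, ydual_sum fun g d => φ g d = d]
  exact sum_congr rfl fun g _ => sum_congr rfl fun h _ => ydual_card hp hD hE g h

end Pool.Agent.Lib.MP_b6945b_al.Kx
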