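import Pool.Agent.Lib.MP_b6945b_al.Kx.YPair

set_option autoImplicit false

/-!
The minimum of a quadratic form.
-/

namespace Pool.Agent.Lib.MP_b6945b_al.Kx

open Finset

lemma ykno_geom {n : ℕ} {ξ : ℂ} (h : ξ ^ n = 1) (h1 : ξ ≠ 1) : ∑ j ∈ range n, ξ ^ j = 0 :=
  mul_right_cancel₀ (sub_ne_zero.2 h1) (by rw [geom_sum_mul, h, sub_self, zero_mul])

lemma ykno_conj {n : ℕ} (hn : n ≠ 0) {ξ : ℂ} (h : ξ ^ n = 1) : ξ * (starRingEnd ℂ) ξ = 1 := by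
  rw [Complex.mul_conj, Complex.normSq_eq_norm_sq, Complex.norm_eq_one_of_pow_eq_one h hn]
  simp

/-- The conjugates of a nonzero cyclotomic integer have mean square at least one. -/
lemma ykno_avg {p : ℕ} (hp : p.Prime) {ζ : ℂ} (hζ : IsPrimitiveRoot ζ p) (Y : ℕ → ℤ) {F : ℕ → ℂ}
    (hF : ∀ t, F t = ∑ k ∈ range p, (Y k : ℂ) * ζ ^ (k * t)) (h0 : ∃ t ∈ Ico 1 p, F t ≠ 0) :
    (p : ℝ) - 1 ≤ ∑ t ∈ Ico 1 p, ‖F t‖ ^ 2 := by
  have hz : ∀ k, (ζ ^ k) ^ p = 1 := fun k => by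
    rw [← pow_mul, mul_comm, pow_mul, hζ.pow_eq_one, one_pow]
  by_cases h : ∀ a ∈ range p, ∀ b ∈ range p, Y a = Y b
  · obtain ⟨t, ht, h1⟩ := h0
    refine absurd ?_ h1
    rw [hF, Finset.sum_congr rfl fun k hk => by
      rw [h k hk 0 (mem_range.2 hp.pos), mul_comm k, pow_mul], ← Finset.mul_sum,
      ykno_geom (hz t) (hζ.pow_ne_one_of_pos_of_lt (by have := mem_Ico.1 ht; omega)
        (mem_Ico.1 ht).2), mul_zero]
  push Not at h
  obtain ⟨a, ha, b, hb, hab⟩ := h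
  have h1 := pairs_ge ha hb hab
  have h2 : ∑ j ∈ range p, F j * (starRingEnd ℂ) (F j) = p * ∑ k ∈ range p, (Y k : ℂ) ^ 2 := by
    simp only [hF, map_sum, map_mul, map_pow, map_intCast, Finset.sum_mul_sum, pow_mul]
    rw [Finset.sum_comm, Finset.mul_sum]
    refine Finset.sum_congr rfl fun a ha => ?_
    rw [Finset.sum_comm, Finset.sum_eq_single_of_mem a ha fun b hb hba => ?_]
    · rw [Finset.sum_congr rfl fun j _ => show _ = (Y a : ℂ) ^ 2 by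
        rw [mul_mul_mul_comm, ← mul_pow, ← map_pow, ykno_conj hp.ne_zero (hz a),
          one_pow, mul_one, sq], Finset.sum_const, card_range, nsmul_eq_mul]
    · rw [Finset.sum_congr rfl fun j _ => by rw [mul_mul_mul_comm, ← mul_pow], ← Finset.mul_sum,
        ykno_geom (by rw [mul_pow, hz, ← map_pow, ← map_pow, hz, map_one, one_mul]) fun e =>
          hba (hζ.pow_inj (mem_range.1 hb) (mem_range.1 ha) ?_), mul_zero]
      calc ζ ^ b = ζ ^ b * (ζ ^ a * (starRingEnd ℂ) ζ ^ b) := by rw [e, mul_one]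
        _ = ζ ^ a := by rw [mul_left_comm, ← map_pow, ykno_conj hp.ne_zero (hz b), mul_one]
  rw [Finset.range_eq_Ico, Finset.sum_eq_sum_Ico_succ_bot hp.pos, hF 0, ← Finset.range_eq_Ico] at h2
  simp only [mul_zero, pow_zero, mul_one, map_sum, map_intCast, Complex.mul_conj,
    Complex.normSq_eq_norm_sq] at h2
  have h3 : ((∑ k ∈ range p, Y k : ℤ) : ℝ) ^ 2 + ∑ j ∈ Ico 1 p, ‖F j‖ ^ 2 =
      p * ((∑ k ∈ range p, Y k ^ 2 : ℤ) : ℝ) := by
    refine Complex.ofReal_injective ?_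
    push_cast at h2 ⊢
    rw [← h2, sq]
  have h4 : ∑ o ∈ range p, ∑ o' ∈ range p, (Y o - Y o') ^ 2 =
      2 * (p * ∑ k ∈ range p, Y k ^ 2 - (∑ k ∈ range p, Y k) ^ 2) := by
    simp only [sub_sq, Finset.sum_add_distrib, Finset.sum_sub_distrib, Finset.sum_const,
      card_range, nsmul_eq_mul, ← Finset.mul_sum, ← Finset.sum_mul]
    ring
  rw [h4, card_range] at h1
  have h5 : (p : ℝ) - 1 ≤ p * ((∑ k ∈ range p, Y k ^ 2 : ℤ) : ℝ) -
      ((∑ k ∈ range p, Y k : ℤ) : ℝ) ^ 2 := by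
    exact_mod_cast le_of_mul_le_mul_left h1 two_pos
  linarith

/-- The identity of Lagrange. -/
lemma ykno_lag (f : ℕ) (x : ℕ → ℂ) :
    2 * (f * ∑ j ∈ range f, ‖x j‖ ^ 2 - ‖∑ j ∈ range f, x j‖ ^ 2) =
      ∑ i ∈ range f, ∑ j ∈ range f, ‖x i - x j‖ ^ 2 := by
  refine Complex.ofReal_injective ?_
  push_cast
  simp only [← Complex.mul_conj', map_sum, map_sub, sub_mul, mul_sub, Finset.sum_sub_distrib,
    Finset.sum_const, card_range, nsmul_eq_mul, ← Finset.mul_sum, ← Finset.sum_mul]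
  ring

/-- The minimum of the form of Knörr over the cyclotomic integers. -/
theorem knorr {p f : ℕ} (hp : p.Prime) (h0 : 0 < f) (hf : f < p) {ζ : ℂ} (hζ : IsPrimitiveRoot ζ p)
    (b : ℕ → ℕ → ℤ) (x : ℕ → ℕ → ℂ) (hx : ∀ j t, x j t = ∑ k ∈ range p, (b j k : ℂ) * ζ ^ (k * t))
    (h1 : ∑ j ∈ range f, x j 1 ≠ 0) :
    ((p : ℝ) - 1) * f ^ 2 ≤ ∑ t ∈ Ico 1 p,
      (p * (f * ∑ j ∈ range f, ‖x j t‖ ^ 2 - ‖∑ j ∈ range f, x j t‖ ^ 2) +
        ‖∑ j ∈ range f, x j t‖ ^ 2) := by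
  classical
  have o1 : 1 ∈ Ico 1 p := mem_Ico.2 ⟨le_rfl, hp.one_lt⟩
  have p1 : (0 : ℝ) ≤ (p : ℝ) - 1 := sub_nonneg.2 (by exact_mod_cast hp.one_lt.le)
  have h2 : ∑ t ∈ Ico 1 p,
      2 * (f * ∑ j ∈ range f, ‖x j t‖ ^ 2 - ‖∑ j ∈ range f, x j t‖ ^ 2) =
      ∑ i ∈ range f, ∑ j ∈ range f, ∑ t ∈ Ico 1 p, ‖x i t - x j t‖ ^ 2 := by
    rw [Finset.sum_congr rfl fun t _ => ykno_lag f fun j => x j t, Finset.sum_comm]
    exact Finset.sum_congr rfl fun i _ => Finset.sum_comm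
  rw [← Finset.mul_sum] at h2
  rw [Finset.sum_add_distrib, ← Finset.mul_sum]
  by_cases h : ∀ j ∈ range f, ∀ t ∈ Ico 1 p, x j t = x 0 t
  · have h3 : ∀ t ∈ Ico 1 p, ∑ j ∈ range f, x j t = f * x 0 t := fun t ht => by
      rw [Finset.sum_congr rfl fun j hj => h j hj t ht, Finset.sum_const, card_range, nsmul_eq_mul]
    have h4 := ykno_avg hp hζ (b 0) (hx 0) ⟨1, o1, fun e => h1 (by rw [h3 1 o1, e, mul_zero])⟩
    have h5 : ∑ t ∈ Ico 1 p, ‖∑ j ∈ range f, x j t‖ ^ 2 = f ^ 2 * ∑ t ∈ Ico 1 p, ‖x 0 t‖ ^ 2 := by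
      rw [Finset.mul_sum]
      exact Finset.sum_congr rfl fun t ht => by
        rw [h3 t ht, norm_mul, mul_pow, Complex.norm_natCast]
    have h6 : 0 ≤ ∑ i ∈ range f, ∑ j ∈ range f, ∑ t ∈ Ico 1 p, ‖x i t - x j t‖ ^ 2 := by positivity
    rw [← h2] at h6
    rw [h5, mul_comm]
    exact le_add_of_nonneg_of_le (mul_nonneg (Nat.cast_nonneg _) (by linarith))
      (mul_le_mul_of_nonneg_left h4 (sq_nonneg _))
  push Not at h
  obtain ⟨a, ha, ha'⟩ := h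
  obtain ⟨n, hn⟩ : ∃ n : ℕ → ℤ, ∀ j, n j = if ∀ t ∈ Ico 1 p, x j t = x 0 t then 0 else 1 :=
    ⟨_, fun _ => rfl⟩
  have h3 := pairs_ge (n := n) ha (mem_range.2 h0) (by
    rw [hn, hn, if_pos fun _ _ => rfl, if_neg fun e => ha'.elim fun t ht => ht.2 (e t ht.1)]
    exact one_ne_zero)
  have h4 : ∀ i j, ((p : ℝ) - 1) * ((n i - n j) ^ 2 : ℤ) ≤ ∑ t ∈ Ico 1 p, ‖x i t - x j t‖ ^ 2 := by
    intro i j
    by_cases e : n i = n j
    · rw [e, sub_self, zero_pow two_ne_zero, Int.cast_zero, mul_zero]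
      positivity
    have e1 : (n i - n j) ^ 2 = 1 := by
      rw [hn, hn] at e ⊢
      split_ifs at e ⊢ <;> first | rfl | exact absurd rfl e
    rw [e1, Int.cast_one, mul_one]
    refine ykno_avg hp hζ (fun k => b i k - b j k) (fun t => ?_) ?_
    · simp only [hx, Int.cast_sub, sub_mul, Finset.sum_sub_distrib]
    · by_contra e2
      push Not at e2
      refine e ?_
      rw [hn, hn]
      have e3 : (∀ t ∈ Ico 1 p, x i t = x 0 t) ↔ ∀ t ∈ Ico 1 p, x j t = x 0 t :=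
        forall₂_congr fun t ht => by rw [sub_eq_zero.1 (e2 t ht)]
      by_cases e4 : ∀ t ∈ Ico 1 p, x j t = x 0 t
      · rw [if_pos e4, if_pos (e3.2 e4)]
      · rw [if_neg e4, if_neg fun e5 => e4 (e3.1 e5)]
  have h5 := ykno_avg hp hζ (fun k => ∑ j ∈ range f, b j k) (F := fun t => ∑ j ∈ range f, x j t)
    (fun t => by
      simp only [hx, Int.cast_sum, Finset.sum_mul]
      exact Finset.sum_comm) ⟨1, o1, h1⟩
  have h6 : ((p : ℝ) - 1) * (2 * (f - 1)) ≤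
      ∑ i ∈ range f, ∑ j ∈ range f, ∑ t ∈ Ico 1 p, ‖x i t - x j t‖ ^ 2 := by
    refine le_trans ?_ (Finset.sum_le_sum fun i _ => Finset.sum_le_sum fun j _ => h4 i j)
    simp only [← Finset.mul_sum]
    refine mul_le_mul_of_nonneg_left ?_ p1
    rw [card_range] at h3
    exact_mod_cast h3
  rw [← h2] at h6
  have f1 : (0 : ℝ) ≤ (f : ℝ) - 1 := sub_nonneg.2 (by exact_mod_cast h0)
  have f2 : (0 : ℝ) ≤ (p : ℝ) - (f + 1) := sub_nonneg.2 (by exact_mod_cast hf)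
  have f3 := mul_nonneg p1 (mul_nonneg f1 f2)
  have f4 := mul_le_mul_of_nonneg_left h6 (Nat.cast_nonneg (α := ℝ) p)
  linarith

end Pool.Agent.Lib.MP_b6945b_al.Kx
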