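import Pool.Agent.Lib.MP_b6945b_al.Kx.YGram
import Pool.Agent.Lib.MP_b6945b_al.Kx.YKno
import Pool.Agent.Lib.MP_b6945b_al.Kx.YDual

set_option autoImplicit false

/-!
The number of flat vectors.
-/

namespace Pool.Agent.Lib.MP_b6945b_al.Kx

open Bi Finset
open scoped ComplexConjugate

section group
variable {p : ℕ} {D : Type} [CommGroup D] {M : Subgroup D} {w : D}

lemma ykn_pow (hp : p.Prime) (hM : ∀ d, d ^ p ∈ M) {t : ℕ} (ht : ¬ p ∣ t) {a : D}
    (h : a ^ t ∈ M) : a ∈ M := by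
  obtain ⟨k, hk⟩ := Nat.exists_mul_mod_eq_one_of_coprime
    ((Nat.Prime.coprime_iff_not_dvd hp).2 ht).symm hp.one_lt
  have h1 := M.pow_mem h k
  rw [← pow_mul, ← Nat.div_add_mod (t * k) p, hk.2, pow_add, pow_one, mul_comm p, pow_mul] at h1
  exact (M.mul_mem_cancel_left (hM _)).1 h1

lemma ykn_out (hp : p.Prime) (hM : ∀ d, d ^ p ∈ M) (hw : w ∉ M) {t : ℕ} (ht : ¬ p ∣ t) {z : D}
    (hz : z ∈ M) : w ^ t * z ∉ M := fun e =>
  hw (ykn_pow hp hM ht ((M.mul_mem_cancel_right hz).1 e))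

lemma ykn_gen [Finite D] (hp : p.Prime) (hD : IsPGroup p D) (hM : ∀ d, d ^ p ∈ M) {v : D}
    (h1 : v ∈ Subgroup.zpowers w) (h2 : v ∉ M) : Subgroup.zpowers v = Subgroup.zpowers w := by
  refine le_antisymm (Subgroup.zpowers_le.2 h1) (Subgroup.zpowers_le.2 ?_)
  obtain ⟨k, rfl⟩ := (mem_powers_iff_mem_zpowers.2 h1 : v ∈ Submonoid.powers w)
  obtain ⟨j, hj⟩ := hD w
  refine mem_zpowers_pow_iff.2 (Nat.Coprime.coprime_dvd_right (orderOf_dvd_of_pow_eq_one hj)
    (Nat.Coprime.pow_right j ((Nat.Prime.coprime_iff_not_dvd hp).2 ?_).symm))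
  rintro ⟨s, rfl⟩
  exact h2 (by simpa only [mul_comm p, pow_mul] using hM (w ^ s))

lemma ykn_card [Finite D] (hp : p.Prime) (hM : ∀ d, d ^ p ∈ M) (hw : w ∉ M) :
    Nat.card (Subgroup.zpowers w) = p * Nat.card (M ⊓ Subgroup.zpowers w : Subgroup D) := by
  have := Fact.mk hp
  have h1 := Subgroup.relIndex_ker (Subgroup.zpowers w) (QuotientGroup.mk' M)
  rw [QuotientGroup.ker_mk', MonoidHom.map_zpowers, Nat.card_zpowers, orderOf_eq_prime (x := QuotientGroup.mk' M w)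
    (by rw [← map_pow]; exact (QuotientGroup.eq_one_iff _).2 (hM w))
    (fun e => hw ((QuotientGroup.eq_one_iff _).1 e)), ← Subgroup.inf_relIndex_right] at h1
  rw [← h1, ← Nat.card_congr (Subgroup.subgroupOfEquivOfLe inf_le_right).toEquiv]
  exact (Subgroup.index_mul_card _).symm

variable [Fintype D]

open Classical in
/-- The mean of `g` on a coset. -/
noncomputable def yknAv (Z : Subgroup D) (a : D) (g : D → ℂ) : ℂ :=
  (Nat.card Z : ℂ)⁻¹ * ∑ z, if z ∈ Z then g (a * z) else 0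

lemma ykn_ne (Z : Subgroup D) : (Nat.card Z : ℂ) ≠ 0 := Nat.cast_ne_zero.2 Nat.card_pos.ne'

open Classical in
lemma ykn_sum (Z : Subgroup D) (c : ℂ) : ∑ z, (if z ∈ Z then c else 0) = Nat.card Z * c := by
  rw [← Finset.sum_filter, Finset.sum_const, nsmul_eq_mul, Nat.card_eq_fintype_card,
    Fintype.card_subtype]

lemma ykn_const {Z : Subgroup D} {a : D} {g : D → ℂ} {c : ℂ} (h : ∀ z ∈ Z, g (a * z) = c) :
    yknAv Z a g = c := by
  classical
  rw [yknAv, Finset.sum_congr rfl fun z _ => if_ctx_congr Iff.rfl (h z) fun _ => rfl, ykn_sum,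
    inv_mul_cancel_left₀ (ykn_ne Z)]

lemma ykn_add {ι : Type} (s : Finset ι) (Z : Subgroup D) (a : D) (g : ι → D → ℂ) :
    ∑ i ∈ s, yknAv Z a (g i) = yknAv Z a fun d => ∑ i ∈ s, g i d := by
  simp only [yknAv]
  rw [← Finset.mul_sum, Finset.sum_comm]
  exact congrArg _ (Finset.sum_congr rfl fun z _ => by split_ifs <;> simp)

open Classical in
lemma ykn_pair {X : Type} [Fintype X] (Z : Subgroup D) (a : D) (g g' : X → D → ℂ) {c : ℂ}
    (h : ∀ z ∈ Z, ∑ z', (if z' ∈ Z then ∑ χ, g χ (a * z) * conj (g' χ (a * z')) else 0) = c) :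
    ∑ χ, yknAv Z a (g χ) * conj (yknAv Z a (g' χ)) = (Nat.card Z : ℂ)⁻¹ * c := by
  have h1 : ∀ χ, yknAv Z a (g χ) * conj (yknAv Z a (g' χ)) =
      (Nat.card Z : ℂ)⁻¹ * ((Nat.card Z : ℂ)⁻¹ * ∑ z, ∑ z', if z ∈ Z then
        (if z' ∈ Z then g χ (a * z) * conj (g' χ (a * z')) else 0) else 0) := fun χ => by
    rw [yknAv, yknAv, map_mul, map_inv₀, map_natCast, map_sum, mul_mul_mul_comm, mul_assoc,
      Finset.sum_mul_sum]
    refine congrArg _ (congrArg _ (Finset.sum_congr rfl fun z _ => Finset.sum_congr rfl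
      fun z' _ => ?_))
    split_ifs <;> simp
  simp only [h1, ← Finset.mul_sum]
  rw [Finset.sum_comm, Finset.sum_congr rfl fun z _ => show _ = if z ∈ Z then c else 0 from ?_,
    ykn_sum, inv_mul_cancel_left₀ (ykn_ne Z)]
  split_ifs with e
  · rw [← h z e, Finset.sum_comm]
    exact Finset.sum_congr rfl fun z' _ => by split_ifs <;> simp
  · simp

lemma ykn_int (hp : p.Prime) {Z : Subgroup D} (hw : w ^ p ∈ Z) {ζ : ℂ} (hζ : IsPrimitiveRoot ζ p)
    {g : D → ℂ} (hg : GS ⊥ g) : ∃ b : ℕ → ℤ, ∀ t, yknAv Z (w ^ t) g =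
      ∑ k ∈ range p, (b k : ℂ) * ζ ^ (k * t) := by
  classical
  have : NeZero p := ⟨hp.ne_zero⟩
  have h0 : ∀ (l : Ch D) (t : ℕ), cv l (w ^ t) = cv l w ^ t := fun l t => by
    induction t with
    | zero => rw [pow_zero, pow_zero, cv_one]
    | succ t ih => rw [pow_succ, pow_succ, cv_mul, ih]
  choose c hc using fun l => Subring.mem_bot.1 (hg l)
  have h1 : ∀ l : Ch D, ∃ k < p, l ∈ perp Z → ζ ^ k = cv l w := fun l => by
    by_cases e : l ∈ perp Z
    · obtain ⟨k, h2, h3⟩ := hζ.eq_pow_of_pow_eq_one (ξ := cv l w) (by rw [← h0, e _ hw])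
      exact ⟨k, h2, fun _ => h3⟩
    · exact ⟨0, hp.pos, fun e' => absurd e' e⟩
  choose κ h2 h3 using h1
  refine ⟨fun k => ∑ l, if l ∈ perp Z ∧ κ l = k then c l else 0, fun t => ?_⟩
  have h4 : g = fun d => ∑ l, (c l : ℂ) * cv l d := funext fun d => by
    rw [fc_inv g d]
    simp only [hc]
  rw [h4, ← ykn_add]
  simp only [Int.cast_sum, Finset.sum_mul]
  rw [Finset.sum_comm]
  refine Finset.sum_congr rfl fun l _ => ?_
  have h5 := sum_sub_cv Z l
  rw [yknAv, Finset.sum_congr rfl fun z _ => show _ = (c l * cv l (w ^ t)) *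
    if z ∈ Z then cv l z else 0 by rw [cv_mul]; split_ifs <;> ring, ← Finset.mul_sum, h5]
  by_cases e : l ∈ perp Z
  · rw [if_pos e, Finset.sum_eq_single_of_mem (κ l) (mem_range.2 (h2 l)) fun k _ hk => by
      rw [if_neg fun e' => hk e'.2.symm, Int.cast_zero, zero_mul], if_pos ⟨e, rfl⟩, h0, ← h3 l e,
      ← pow_mul, mul_comm, mul_inv_cancel_right₀ (ykn_ne Z)]
  · rw [if_neg e, mul_zero, mul_zero]
    exact (Finset.sum_eq_zero fun k _ => by
      rw [if_neg fun e' => e e'.1, Int.cast_zero, zero_mul]).symm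

end group

lemma ykn_form {X : Type} [Fintype X] {f : ℕ} (x : X → ℕ → ℂ) (q m : ℕ)
    (h : ∀ i < f, ∀ j < f, ∑ χ, x χ i * conj (x χ j) = q * ((if i = j then 1 else 0) + m)) :
    ∑ χ, (f * ∑ j ∈ range f, ‖x χ j‖ ^ 2 - ‖∑ j ∈ range f, x χ j‖ ^ 2) =
      q * ((f : ℝ) ^ 2 - f) := by
  refine Complex.ofReal_injective ?_
  push_cast
  simp only [← Complex.mul_conj', map_sum, Finset.sum_mul_sum, Finset.sum_sub_distrib]
  rw [← Finset.mul_sum, Finset.sum_comm, Finset.sum_congr rfl fun j hj => h j (mem_range.1 hj) j (mem_range.1 hj),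
    Finset.sum_comm, Finset.sum_congr rfl fun i hi => (Finset.sum_comm.trans
      (Finset.sum_congr rfl fun j hj => h i (mem_range.1 hi) j (mem_range.1 hj))).trans
      (show _ = (q : ℂ) * (1 + f * m) by
        rw [← Finset.mul_sum, Finset.sum_add_distrib, Finset.sum_ite_eq, if_pos hi,
          Finset.sum_const, card_range, nsmul_eq_mul])]
  simp only [if_true, Finset.sum_const, card_range, nsmul_eq_mul]
  ring

variable {p : ℕ} {V : ValuationSubring ℂ} {E D X : Type} [Group E] [Fintype E] [CommGroup D]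
  [Fintype D] [Fintype X] [DecidableEq X] {φ : E →* MulAut D} {P : D → Matrix X X ℂ}
  {M : Subgroup D} {r : D → X → ℂ} {ε : D → ℂ}

lemma ykn_fix (h : LS p V φ P M r) (hM : ∀ d, d ^ p ∈ M) {w : D}
    (hF : ∀ g, φ g w * w⁻¹ ∈ M → φ g w = w) {t : ℕ} (ht : ¬ p ∣ t) {g : E} {z z' : D}
    (hz : z ∈ M) (hz' : z' ∈ M) (e : φ g (w ^ t * z) = w ^ t * z') : φ g w = w := by
  refine hF g (ykn_pow h.prime hM ht ?_)
  rw [map_mul, map_pow] at e
  rw [mul_pow, eq_mul_inv_of_mul_eq e, inv_pow, mul_assoc (w ^ t), mul_inv_cancel_comm]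
  exact M.mul_mem hz' (M.inv_mem ((h.stab g z).2 hz))

lemma ykn_y (h : LS p V φ P M r) (hε : Eps φ M r ε) (hM : ∀ d, d ^ p ∈ M) {w : D} (hw : w ∉ M)
    (hF : ∀ g, φ g w * w⁻¹ ∈ M → φ g w = w) {t : ℕ} (ht : ¬ p ∣ t) :
    ∑ χ, ‖yknAv M (w ^ t) fun d => ε d * r d χ‖ ^ 2 = M.index * stb φ w := by
  classical
  refine Complex.ofReal_injective ?_
  push_cast
  simp only [← Complex.mul_conj']
  rw [ykn_pair M (w ^ t) (fun χ d => ε d * r d χ) (fun χ d => ε d * r d χ)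
    (c := Fintype.card D * stb φ w) fun z hz => ?_, ← Nat.card_eq_fintype_card,
    ← M.card_mul_index, Nat.cast_mul, mul_assoc, inv_mul_cancel_left₀ (ykn_ne M)]
  have h1 : ∀ z' ∈ M, ∑ χ, ε (w ^ t * z) * r (w ^ t * z) χ *
      conj (ε (w ^ t * z') * r (w ^ t * z') χ) =
      Fintype.card D * ∑ g, if φ g (w ^ t * z) = w ^ t * z' then (1 : ℂ) else 0 := by
    intro z' hz'
    have h2 := h.gram (ykn_out h.prime hM hw ht hz) (ykn_out h.prime hM hw ht hz')
    rw [Nat.card_eq_fintype_card, Fintype.card_subtype, Finset.card_filter, Nat.cast_sum] at h2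
    simp only [Nat.cast_ite, Nat.cast_one, Nat.cast_zero] at h2
    rw [Finset.sum_congr rfl fun χ _ => by rw [map_mul, mul_mul_mul_comm], ← Finset.mul_sum, h2,
      mul_left_comm, Finset.mul_sum]
    refine congrArg _ (Finset.sum_congr rfl fun g _ => ?_)
    split_ifs with e
    · rw [← e, hε.inv g _ (ykn_out h.prime hM hw ht hz)]
      rcases hε.sign (w ^ t * z) with e' | e' <;> simp [e']
    · exact mul_zero _
  rw [Finset.sum_congr rfl fun z' _ => show _ = (Fintype.card D : ℂ) * ∑ g, if z' ∈ M then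
    (if φ g (w ^ t * z) = w ^ t * z' then (1 : ℂ) else 0) else 0 by
      split_ifs with e
      · exact h1 z' e
      · simp, ← Finset.mul_sum, Finset.sum_comm, stb, Nat.card_eq_fintype_card,
    Fintype.card_subtype, Finset.card_filter, Nat.cast_sum]
  refine congrArg _ (Finset.sum_congr rfl fun g _ => ?_)
  split_ifs with e
  · rw [Finset.sum_eq_single (φ g z) (fun z' _ h2 => ?_) fun h2 => absurd (mem_univ _) h2,
      if_pos ((h.stab g z).2 hz), if_pos (by rw [map_mul, map_pow, e]), Nat.cast_one]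
    rw [if_neg (c := _ = _) fun h3 => h2 ?_, ite_self]
    rw [map_mul, map_pow, e] at h3
    exact (mul_left_cancel h3).symm
  · rw [Nat.cast_zero]
    refine Finset.sum_eq_zero fun z' _ => ?_
    split_ifs with h2 h3
    · exact absurd (ykn_fix h hM hF ht hz h2 h3) e
    · rfl
    · rfl

lemma ykn_x (h : LS p V φ P M r) (hM : ∀ d, d ^ p ∈ M) {w : D} (hw : w ∉ M)
    (hF : ∀ g, φ g w * w⁻¹ ∈ M → φ g w = w) {ξ : X → ℕ → D → ℂ} {m : ℕ} (hξ : LC φ P r w ξ m)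
    {t : ℕ} (ht : ¬ p ∣ t) {i j : ℕ} (hi : i < stb φ w) (hj : j < stb φ w) :
    ∑ χ, yknAv (M ⊓ Subgroup.zpowers w) (w ^ t) (ξ χ i) *
      conj (yknAv (M ⊓ Subgroup.zpowers w) (w ^ t) (ξ χ j)) =
      p * ((if i = j then 1 else 0) + m) := by
  classical
  have h1 : ∀ z ∈ M ⊓ Subgroup.zpowers w, Subgroup.zpowers (w ^ t * z) = Subgroup.zpowers w :=
    fun z hz => ykn_gen h.prime h.ms.pD hM (mul_mem (Subgroup.npow_mem_zpowers w t) hz.2)
      (ykn_out h.prime hM hw ht hz.1)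
  rw [ykn_pair _ (w ^ t) (fun χ => ξ χ i) (fun χ => ξ χ j)
    (c := Nat.card (Subgroup.zpowers w) * ((if i = j then 1 else 0) + m)) fun z hz => ?_,
    ykn_card h.prime hM hw, Nat.cast_mul, mul_comm (p : ℂ), mul_assoc,
    inv_mul_cancel_left₀ (ykn_ne _)]
  rw [Finset.sum_eq_single z (fun z' _ h2 => ?_) fun h2 => absurd (mem_univ _) h2, if_pos hz,
    (h.loc_gram hw hξ (h1 z hz)).1 i hi j hj]
  split_ifs with hz'
  · refine h.ms.orth_vec (fun g e => h2 ?_) ((h.loc_gram hw hξ (h1 z hz)).2 i hi)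
      ((h.loc_gram hw hξ (h1 z' hz')).2 j hj)
    have h3 := ykn_fix h hM hF ht hz.1 hz'.1 e
    obtain ⟨k, rfl⟩ := hz.2
    rw [map_mul, map_pow, map_zpow, h3] at e
    exact (mul_left_cancel e).symm
  · rfl

open Classical in
theorem LS.flat (h : LS p V φ P M r) (hε : Eps φ M r ε) (hM : ∀ d, d ^ p ∈ M)
    (hi : M.index ≤ p ^ 2) {w : D} (hw : w ∉ M) (hF : ∀ g, φ g w * w⁻¹ ∈ M → φ g w = w)
    (hf : stb φ w < p) (hz : ∃ z ∈ M, stb φ (w * z) = 1) :
    (univ.filter fun χ => Flat M ε r χ).card ≤ p ^ 2 := by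
  have hp := h.prime
  obtain ⟨ξ, m, hξ⟩ := h.loc w hw
  have hζ := Complex.isPrimitiveRoot_exp p hp.ne_zero
  have h0 := stb_pos φ w
  have hd : ∀ t ∈ Ico 1 p, ¬ p ∣ t := fun t ht =>
    Nat.not_dvd_of_pos_of_lt (mem_Ico.1 ht).1 (mem_Ico.1 ht).2
  have hn : ∀ u, ‖ε u‖ = 1 := fun u => by rcases hε.sign u with e | e <;> simp [e]
  have he : ∀ u, ε u ≠ 0 := fun u e => by simpa [e] using hn u
  obtain ⟨x, hx⟩ : ∃ x : X → ℕ → ℕ → ℂ, ∀ χ j t,
      x χ j t = yknAv (M ⊓ Subgroup.zpowers w) (w ^ t) (ξ χ j) := ⟨_, fun _ _ _ => rfl⟩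
  obtain ⟨Q, hQ⟩ : ∃ Q : X → ℕ → ℝ, ∀ χ t, Q χ t =
      p * (stb φ w * ∑ j ∈ range (stb φ w), ‖x χ j t‖ ^ 2 -
        ‖∑ j ∈ range (stb φ w), x χ j t‖ ^ 2) +
      ‖yknAv M (w ^ t) fun d => ε d * r d χ‖ ^ 2 := ⟨_, fun _ _ => rfl⟩
  have h1 : ∀ χ t, 0 ≤ Q χ t := fun χ t => by
    have h2 := ykno_lag (stb φ w) fun j => x χ j t
    have h3 : 0 ≤ ∑ i ∈ range (stb φ w), ∑ j ∈ range (stb φ w), ‖x χ i t - x χ j t‖ ^ 2 :=
      Finset.sum_nonneg fun _ _ => Finset.sum_nonneg fun _ _ => sq_nonneg _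
    rw [hQ]
    exact add_nonneg (mul_nonneg (Nat.cast_nonneg _) (by linarith)) (sq_nonneg _)
  have h2 : ∀ t ∈ Ico 1 p, ∑ χ, Q χ t ≤ p ^ 2 * stb φ w ^ 2 := fun t ht => by
    simp only [hQ]
    rw [Finset.sum_add_distrib, ← Finset.mul_sum, ykn_y h hε hM hw hF (hd t ht),
      ykn_form (fun χ j => x χ j t) p m fun i hi j hj => by
        simp only [hx]
        exact ykn_x h hM hw hF hξ (hd t ht) hi hj]
    have h3 : (M.index : ℝ) ≤ p ^ 2 := by exact_mod_cast hi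
    have h4 := mul_le_mul_of_nonneg_right h3 (Nat.cast_nonneg (α := ℝ) (stb φ w))
    linarith
  have h3 : ∀ χ ∈ univ.filter fun χ => Flat M ε r χ,
      ((p : ℝ) - 1) * stb φ w ^ 2 ≤ ∑ t ∈ Ico 1 p, Q χ t := fun χ hχ => by
    have hχ := (mem_filter.1 hχ).2
    have h4 : ∀ t, ¬ p ∣ t → ∑ j ∈ range (stb φ w), x χ j t = r (w ^ t) χ := fun t ht => by
      have h5 : ∀ z ∈ M ⊓ Subgroup.zpowers w,
          Subgroup.zpowers (w ^ t * z) = Subgroup.zpowers w := fun z hz =>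
        ykn_gen hp h.ms.pD hM (mul_mem (Subgroup.npow_mem_zpowers w t) hz.2)
          (ykn_out hp hM hw ht hz.1)
      have h6 := h5 1 (one_mem _)
      have h7 := ykn_out hp hM hw ht M.one_mem
      rw [mul_one] at h6 h7
      simp only [hx]
      rw [ykn_add]
      refine ykn_const fun z hz => (hξ.sum _ (h5 z hz) χ).symm.trans ?_
      have h8 := hχ _ h7 z hz.1
      rw [hε.gen w _ hw (h5 z hz), hε.gen w _ hw h6] at h8
      exact mul_left_cancel₀ (he w) h8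
    choose b hb using fun j => ykn_int hp (Z := M ⊓ Subgroup.zpowers w)
      ⟨hM w, Subgroup.npow_mem_zpowers w p⟩ hζ (hξ.gs χ j)
    refine (knorr hp h0 hf hζ b (x χ) (fun j t => (hx χ j t).trans (hb j t)) ?_).trans
      (le_of_eq (Finset.sum_congr rfl fun t ht => ?_))
    · obtain ⟨z, hz, h5⟩ := hz
      rw [h4 1 hp.not_dvd_one, pow_one]
      intro e
      have h6 := hχ w hw z hz
      rw [e, mul_zero] at h6
      exact mul_ne_zero (he _)
        (h.reg_ne (fun e' => hw ((M.mul_mem_cancel_right hz).1 e')) h5 χ) h6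
    · have h7 := ykn_out hp hM hw (hd t ht) M.one_mem
      rw [mul_one] at h7
      rw [hQ, ykn_const (g := fun d => ε d * r d χ) fun z hz => hχ _ h7 z hz, norm_mul, hn,
        one_mul, ← h4 t (hd t ht)]
  have h4 := (Finset.card_nsmul_le_sum _ _ _ h3).trans ((Finset.sum_le_sum_of_subset_of_nonneg
    (Finset.subset_univ _) fun χ _ _ => Finset.sum_nonneg fun t _ => h1 χ t).trans
    (Finset.sum_comm.trans_le (Finset.sum_le_card_nsmul _ _ _ h2)))
  rw [Nat.card_Ico, nsmul_eq_mul, nsmul_eq_mul, Nat.cast_sub hp.one_lt.le, Nat.cast_one] at h4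
  have h5 : (0 : ℝ) < ((p : ℝ) - 1) * stb φ w ^ 2 :=
    mul_pos (sub_pos.2 (by exact_mod_cast hp.one_lt)) (pow_pos (Nat.cast_pos.2 h0) 2)
  exact_mod_cast le_of_mul_le_mul_right (h4.trans_eq (mul_left_comm _ _ _)) h5

end Pool.Agent.Lib.MP_b6945b_al.Kx
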