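import Pool.Agent.Lib.MP_b6945b_al.Kx.YGram
import Pool.Agent.Lib.MP_b6945b_al.Kx.YDual

set_option autoImplicit false

/-!
Counting along the cosets of the annihilator.
-/

namespace Pool.Agent.Lib.MP_b6945b_al.Kx

open Bi Finset
open scoped ComplexConjugate

variable {p : ℕ} {V : ValuationSubring ℂ} {E D X : Type} [Group E] [Fintype E] [CommGroup D]
  [Fintype D] [Fintype X] [DecidableEq X] {φ : E →* MulAut D} {P : D → Matrix X X ℂ}
  {M : Subgroup D} {r : D → X → ℂ} {ε : D → ℂ}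

lemma LS.tf_da (h : LS p V φ P M r) (hε : Eps φ M r ε) (χ : X) (g : E) (l : Ch D) :
    tf M ε r χ (da φ g l) = tf M ε r χ l := by
  classical
  unfold tf fc
  congr 1
  rw [← (φ g).toEquiv.sum_comp]
  refine Finset.sum_congr rfl fun d _ => ?_
  change (if φ g d ∈ M then 0 else ε (φ g d) * r (φ g d) χ) * cv (da φ g l) (φ g d)⁻¹ = _
  rw [cv_da, ← map_inv (φ g) d, ← MulAut.mul_apply, ← map_mul, inv_mul_cancel, map_one,
    MulAut.one_apply]
  beta_reduce
  by_cases hd : d ∈ M
  · rw [if_pos hd, if_pos ((h.stab g d).2 hd)]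
  · rw [if_neg hd, if_neg (fun e => hd ((h.stab g d).1 e)), hε.inv g d hd, h.inv g d hd]

omit [Fintype X] [DecidableEq X] in
open Classical in
lemma tf_sum (χ : X) (l : Ch D) :
    ∑ n : Ch D, (if n ∈ perp M then tf M ε r χ (l + n) else 0) = 0 := by
  have e : ∀ n : Ch D, (if n ∈ perp M then tf M ε r χ (l + n) else 0) =
      ∑ d, (Fintype.card D : ℂ)⁻¹ * ((if d ∈ M then 0 else ε d * r d χ) * cv l d⁻¹) *
        (if n ∈ perp M then cv n d⁻¹ else 0) := by
    intro n
    by_cases hn : n ∈ perp M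
    · simp only [if_pos hn, tf, fc, Finset.mul_sum, cv_add, mul_assoc]
    · simp only [if_neg hn, mul_zero, Finset.sum_const_zero]
  simp only [e]
  rw [Finset.sum_comm]
  refine Finset.sum_eq_zero fun d _ => ?_
  rw [← Finset.mul_sum, sum_perp]
  by_cases hd : d ∈ M
  · simp [hd]
  · simp [hd]

omit [Fintype X] [DecidableEq X] in
lemma tf_inv (χ : X) {u : D} (hu : u ∉ M) : ε u * r u χ = ∑ l, tf M ε r χ l * cv l u := by
  classical
  have h := fc_inv (fun d => if d ∈ M then 0 else ε d * r d χ) u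
  rw [if_neg hu] at h
  rw [h]
  refine Finset.sum_congr rfl fun l _ => ?_
  unfold tf
  congr

open Classical in
lemma yorb_card {α : Type} [Fintype α] (q : α → Prop) :
    (Nat.card {g : α // q g} : ℂ) = ∑ g, if q g then 1 else 0 := by
  rw [Nat.card_eq_fintype_card, Fintype.card_subtype, Finset.card_filter]
  push_cast
  rfl

open Classical in
lemma yorb_gram (h : LS p V φ P M r) (hε : Eps φ M r ε) (u v : D) :
    ∑ χ, (if u ∈ M then 0 else ε u * r u χ) * conj (if v ∈ M then 0 else ε v * r v χ) =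
      Fintype.card D * ∑ g, if φ g u = v then (if v ∈ M then 0 else 1) else 0 := by
  by_cases hv : v ∈ M
  · simp [hv]
  by_cases hu : u ∈ M
  · have : ∀ g, φ g u ≠ v := fun g e => hv (e ▸ (h.stab g u).2 hu)
    simp [hu, this]
  simp only [if_neg hu, if_neg hv]
  have hc : conj (ε v) = ε v := by
    rcases hε.sign v with e | e <;> simp [e]
  have e1 : ∀ χ, ε u * r u χ * conj (ε v * r v χ) = ε u * ε v * (r u χ * conj (r v χ)) := by
    intro χ
    rw [map_mul, hc]
    ring
  simp only [e1]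
  rw [← Finset.mul_sum, h.gram hu hv, yorb_card, mul_left_comm, Finset.mul_sum]
  congr 1
  refine Finset.sum_congr rfl fun g _ => ?_
  by_cases e : φ g u = v
  · rw [if_pos e, ← e, hε.inv g u hu]
    rcases hε.sign u with e | e <;> simp [e]
  · rw [if_neg e, mul_zero]

omit [Fintype D] in
lemma yorb_top (l : Ch D) : l ∈ perp (⊤ : Subgroup D) ↔ l = 0 := by
  refine ⟨fun h => ?_, fun h => h ▸ (perp ⊤).zero_mem⟩
  ext a
  exact h (Additive.toMul a) trivial

open Classical in
lemma yorb_out (M : Subgroup D) (l : Ch D) :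
    (Fintype.card D : ℂ)⁻¹ * ∑ v, (if v ∈ M then 0 else 1) * cv l v =
      (if l = 0 then 1 else 0) - (M.index : ℂ)⁻¹ * (if l ∈ perp M then 1 else 0) := by
  have h1 := sum_sub_cv (⊤ : Subgroup D) l
  have h2 := sum_sub_cv M l
  have h3 : ∑ v, (if v ∈ M then (0 : ℂ) else 1) * cv l v =
      ∑ d, (if d ∈ (⊤ : Subgroup D) then cv l d else 0) - ∑ d, (if d ∈ M then cv l d else 0) := by
    rw [← Finset.sum_sub_distrib]
    refine Finset.sum_congr rfl fun d _ => ?_
    by_cases hd : d ∈ M <;> simp [hd]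
  have h4 : (Nat.card M : ℂ) * M.index = Fintype.card D := by
    rw [← Nat.card_eq_fintype_card, ← M.card_mul_index]
    push_cast
    rfl
  have hN : (Fintype.card D : ℂ) ≠ 0 := Nat.cast_ne_zero.2 Fintype.card_ne_zero
  have hm : (Nat.card M : ℂ) ≠ 0 := left_ne_zero_of_mul (h4 ▸ hN)
  have hi : (M.index : ℂ) ≠ 0 := right_ne_zero_of_mul (h4 ▸ hN)
  have h5 : (Nat.card (⊤ : Subgroup D) : ℂ) = Fintype.card D := by
    rw [Subgroup.card_top, Nat.card_eq_fintype_card]
  rw [h3, h1, h2, h5, mul_sub]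
  congr 1
  · by_cases e : l = 0
    · rw [if_pos e, if_pos ((yorb_top l).2 e), inv_mul_cancel₀ hN]
    · rw [if_neg e, if_neg (fun e' => e ((yorb_top l).1 e')), mul_zero]
  · by_cases e : l ∈ perp M
    · rw [if_pos e, if_pos e, ← h4]
      field_simp
    · rw [if_neg e, if_neg e, mul_zero, mul_zero]

lemma LS.tf_gram (h : LS p V φ P M r) (hε : Eps φ M r ε) (l l' : Ch D) :
    ∑ χ, tf M ε r χ l * conj (tf M ε r χ l') = Nat.card {g : E // da φ g l = l'} -
      (M.index : ℂ)⁻¹ * Nat.card {g : E // da φ g l - l' ∈ perp M} := by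
  classical
  have hN : (Fintype.card D : ℂ) ≠ 0 := Nat.cast_ne_zero.2 Fintype.card_ne_zero
  have e1 : ∀ χ, tf M ε r χ l * conj (tf M ε r χ l') =
      ∑ u, ∑ v, (Fintype.card D : ℂ)⁻¹ * (Fintype.card D : ℂ)⁻¹ * (cv l u⁻¹ * cv l' v) *
        ((if u ∈ M then 0 else ε u * r u χ) * conj (if v ∈ M then 0 else ε v * r v χ)) := by
    intro χ
    unfold tf fc
    rw [map_mul, map_sum, map_inv₀, map_natCast, mul_mul_mul_comm, Finset.sum_mul_sum,
      Finset.mul_sum]
    refine Finset.sum_congr rfl fun u _ => ?_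
    rw [Finset.mul_sum]
    refine Finset.sum_congr rfl fun v _ => ?_
    rw [map_mul, cv_conj, inv_inv]
    ring
  simp only [e1]
  rw [Finset.sum_comm]
  have e2 : ∀ u : D, ∑ χ, ∑ v, (Fintype.card D : ℂ)⁻¹ * (Fintype.card D : ℂ)⁻¹ *
      (cv l u⁻¹ * cv l' v) *
        ((if u ∈ M then 0 else ε u * r u χ) * conj (if v ∈ M then 0 else ε v * r v χ)) =
      ∑ g, (Fintype.card D : ℂ)⁻¹ *
        ((if φ g u ∈ M then 0 else 1) * cv (l' - da φ g l) (φ g u)) := by
    intro u
    rw [Finset.sum_comm]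
    simp only [← Finset.mul_sum, yorb_gram h hε]
    simp only [Finset.mul_sum]
    rw [Finset.sum_comm]
    refine Finset.sum_congr rfl fun g _ => ?_
    rw [Finset.sum_eq_single (φ g u)]
    · rw [if_pos rfl, sub_eq_add_neg, cv_add, cv_neg, cv_da, ← map_inv (φ g) u, ← MulAut.mul_apply,
        ← map_mul, inv_mul_cancel, map_one, MulAut.one_apply]
      field_simp
    · intro v _ hv
      rw [if_neg hv.symm, mul_zero, mul_zero]
    · intro hh
      exact absurd (Finset.mem_univ _) hh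
  simp only [e2]
  rw [Finset.sum_comm, yorb_card, yorb_card, Finset.mul_sum, ← Finset.sum_sub_distrib]
  refine Finset.sum_congr rfl fun g _ => ?_
  have e3 := (φ g).toEquiv.sum_comp fun v => (if v ∈ M then (0 : ℂ) else 1) * cv (l' - da φ g l) v
  rw [← Finset.mul_sum]
  refine (congrArg _ e3).trans ?_
  rw [yorb_out]
  have a1 : l' - da φ g l = 0 ↔ da φ g l = l' := by rw [sub_eq_zero, eq_comm]
  have a2 : l' - da φ g l ∈ perp M ↔ da φ g l - l' ∈ perp M := by
    rw [← neg_sub, AddSubgroup.neg_mem_iff]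
  simp only [a1, a2]

lemma LS.tf_diff (h : LS p V φ P M r) (hε : Eps φ M r ε) {l n : Ch D} (hn : n ∈ perp M)
    (hl : ∀ g, da φ g l ≠ l + n) :
    ∑ χ, ‖tf M ε r χ l - tf M ε r χ (l + n)‖ ^ 2 = (stk φ l + stk φ (l + n) : ℕ) := by
  have hl' : ∀ g, da φ g (l + n) ≠ l := fun g e => hl g⁻¹ (by
    conv_lhs => rw [← e]
    rw [← da_mul, inv_mul_cancel, da_one])
  have hd : ∀ g, da φ g n ∈ perp M := fun g => (da_perp h.stab g n).2 hn
  have z1 : Nat.card {g : E // da φ g l = l + n} = 0 := by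
    have : IsEmpty {g : E // da φ g l = l + n} := ⟨fun g => hl g.1 g.2⟩
    exact Nat.card_of_isEmpty
  have z2 : Nat.card {g : E // da φ g (l + n) = l} = 0 := by
    have : IsEmpty {g : E // da φ g (l + n) = l} := ⟨fun g => hl' g.1 g.2⟩
    exact Nat.card_of_isEmpty
  have c1 : ∀ g, da φ g l - (l + n) ∈ perp M ↔ da φ g l - l ∈ perp M := by
    intro g
    rw [← sub_sub, sub_eq_add_neg _ n, (perp M).add_mem_cancel_right ((perp M).neg_mem hn)]
  have c2 : ∀ g, da φ g (l + n) - l ∈ perp M ↔ da φ g l - l ∈ perp M := by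
    intro g
    rw [da_add, add_sub_right_comm, (perp M).add_mem_cancel_right (hd g)]
  have c3 : ∀ g, da φ g (l + n) - (l + n) ∈ perp M ↔ da φ g l - l ∈ perp M := by
    intro g
    rw [da_add, add_sub_right_comm, (perp M).add_mem_cancel_right (hd g), c1]
  have g1 := h.tf_gram hε l l
  have g2 := h.tf_gram hε l (l + n)
  have g3 := h.tf_gram hε (l + n) l
  have g4 := h.tf_gram hε (l + n) (l + n)
  simp only [c1] at g2
  simp only [c2] at g3
  simp only [c3] at g4
  rw [z1] at g2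
  rw [z2] at g3
  have e : ∀ χ, ((‖tf M ε r χ l - tf M ε r χ (l + n)‖ ^ 2 : ℝ) : ℂ) =
      tf M ε r χ l * conj (tf M ε r χ l) - tf M ε r χ l * conj (tf M ε r χ (l + n)) -
        tf M ε r χ (l + n) * conj (tf M ε r χ l) +
        tf M ε r χ (l + n) * conj (tf M ε r χ (l + n)) := by
    intro χ
    rw [Complex.ofReal_pow, ← Complex.mul_conj', map_sub]
    ring
  apply Complex.ofReal_injective
  rw [Complex.ofReal_sum]
  simp only [e]
  rw [Finset.sum_add_distrib, Finset.sum_sub_distrib, Finset.sum_sub_distrib, g1, g2, g3, g4]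
  simp only [stk]
  push_cast
  ring

end Pool.Agent.Lib.MP_b6945b_al.Kx
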