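import Pool.Agent.Lib.MP_b6945b_al.Kx.YCnt
import Pool.Agent.Lib.MP_b6945b_al.Kx.YOrb

set_option autoImplicit false

/-!
Types of rows.
-/

namespace Pool.Agent.Lib.MP_b6945b_al.Kx

open Bi Finset
open scoped ComplexConjugate

variable {p : ℕ} {V : ValuationSubring ℂ} {E D X : Type} [Group E] [Fintype E] [CommGroup D]
  [Fintype D] [Fintype X] [DecidableEq X] {φ : E →* MulAut D} {P : D → Matrix X X ℂ}
  {M : Subgroup D} {r : D → X → ℂ} {ε : D → ℂ}

omit [Fintype E] [Fintype D] in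
lemma ytyp_sub (g : E) (l n : Ch D) : da φ g (l - n) = da φ g l - da φ g n :=
  (AddMonoidHom.mk' (da φ g) (da_add g)).map_sub l n

omit [Fintype E] [Fintype D] in
lemma ytyp_inv (g : E) (l : Ch D) : da φ g⁻¹ (da φ g l) = l := by
  rw [← da_mul, inv_mul_cancel, da_one]

/-- The orbits. -/
def ytyp_s (φ : E →* MulAut D) : Setoid (Ch D) where
  r l n := ∃ g, da φ g l = n
  iseqv := ⟨fun l => ⟨1, da_one l⟩, fun ⟨g, e⟩ => ⟨g⁻¹, e ▸ ytyp_inv g _⟩,
    fun ⟨g, e⟩ ⟨k, e'⟩ => ⟨k * g, by rw [da_mul, e, e']⟩⟩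

/-- Orbits that meet the same coset. -/
def ytyp_R (hM : ∀ g d, φ g d ∈ M ↔ d ∈ M) : Setoid (Quotient (ytyp_s φ)) where
  r O O' := ∃ g, da φ g O.out - O'.out ∈ perp M
  iseqv := ⟨fun O => ⟨1, by rw [da_one, sub_self]; exact zero_mem _⟩,
    fun ⟨g, e⟩ => ⟨g⁻¹, by
      have := neg_mem ((da_perp hM g⁻¹ _).2 e)
      rwa [ytyp_sub, ytyp_inv, neg_sub] at this⟩,
    fun ⟨g, e⟩ ⟨k, e'⟩ => ⟨k * g, by
      have := add_mem ((da_perp hM k _).2 e) e'
      rwa [ytyp_sub, sub_add_sub_cancel, ← da_mul] at this⟩⟩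

omit [Fintype E] [Fintype D] in
lemma ytyp_out (l : Ch D) : ∃ g, da φ g l = (Quotient.mk (ytyp_s φ) l).out :=
  (ytyp_s φ).symm (Quotient.mk_out l)

omit [Fintype E] [Fintype D] in
lemma ytyp_mk {l : Ch D} {O : Quotient (ytyp_s φ)} :
    Quotient.mk (ytyp_s φ) l = O ↔ ∃ g, da φ g O.out = l := by
  rw [eq_comm, ← Quotient.out_equiv_out.trans (Iff.refl _)]
  exact ⟨fun h => (ytyp_s φ).trans h (Quotient.mk_out l),
    fun h => (ytyp_s φ).trans h ((ytyp_s φ).symm (Quotient.mk_out l))⟩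

omit [Fintype E] [Fintype D] in
lemma ytyp_rel (hM : ∀ g d, φ g d ∈ M ↔ d ∈ M) (l : Ch D) {n : Ch D} (hn : n ∈ perp M) :
    ytyp_R hM (Quotient.mk _ l) (Quotient.mk _ (l + n)) := by
  obtain ⟨g, e⟩ := ytyp_out (φ := φ) l
  obtain ⟨k, e'⟩ := ytyp_out (φ := φ) (l + n)
  refine ⟨k * g⁻¹, ?_⟩
  rw [← e, ← e', da_mul, ytyp_inv, ← ytyp_sub, da_perp hM, sub_add_cancel_left]
  exact neg_mem hn

omit [Fintype D] in
open Classical in
lemma ytyp_fib {l n : Ch D} (h : ∃ g, da φ g l = n) :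
    (univ.filter fun g => da φ g l = n).card = stk φ l := by
  obtain ⟨k, rfl⟩ := h
  rw [stk, Nat.card_eq_fintype_card, Fintype.card_subtype]
  refine card_equiv (Equiv.mulLeft k⁻¹) fun g => ?_
  simp only [mem_filter, mem_univ, true_and, Equiv.coe_mulLeft, da_mul]
  refine ⟨fun e => by rw [e, ytyp_inv], fun e => ?_⟩
  have := congrArg (da φ k) e
  rwa [← da_mul, mul_inv_cancel, da_one] at this

open Classical in
lemma ytyp_sumg {A : Type} [AddCommMonoid A] (f : Ch D → A) (O : Quotient (ytyp_s φ)) :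
    ∑ g, f (da φ g O.out) =
      stk φ O.out • ∑ l ∈ univ.filter (fun l => Quotient.mk (ytyp_s φ) l = O), f l := by
  rw [← sum_fiberwise_of_maps_to (s := univ)
    (t := univ.filter fun l => Quotient.mk (ytyp_s φ) l = O) (g := fun g => da φ g O.out)
    fun g _ => mem_filter.2 ⟨mem_univ _, ytyp_mk.2 ⟨g, rfl⟩⟩, smul_sum]
  refine sum_congr rfl fun l hl => ?_
  rw [sum_congr rfl fun g hg => congrArg f (mem_filter.1 hg).2, sum_const,
    ytyp_fib (ytyp_mk.1 (mem_filter.1 hl).2)]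

lemma ytyp_sum [Fintype (Quotient (ytyp_s φ))] (F : Ch D → ℕ) (hF : ∀ g l, F (da φ g l) = F l) :
    Fintype.card E * ∑ O : Quotient (ytyp_s φ), F O.out = ∑ l, stk φ l * F l := by
  classical
  rw [mul_sum, ← sum_fiberwise univ (Quotient.mk (ytyp_s φ))]
  refine sum_congr rfl fun O _ => ?_
  have := ytyp_sumg F O
  simp only [hF, sum_const, card_univ, smul_eq_mul] at this
  rw [this, mul_sum]
  refine sum_congr (by congr) fun l hl => ?_
  obtain ⟨g, rfl⟩ := ytyp_mk.1 (mem_filter.1 hl).2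
  rw [stk_da]

lemma ytyp_zero (G : Ch D → ℂ) (hG : ∀ l, ∀ n ∈ perp M, G (l + n) = G l) {u : D} (hu : u ∉ M) :
    ∑ l, G l * cv l u = 0 := by
  classical
  by_contra h0
  have h1 : ∀ n ∈ perp M, cv n u = 1 := fun n hn => by
    have e := Equiv.sum_comp (Equiv.addRight n) fun l => G l * cv l u
    simp only [Equiv.coe_addRight, hG _ n hn, cv_add, ← mul_assoc, ← sum_mul] at e
    exact mul_left_cancel₀ h0 (e.trans (mul_one _).symm)
  have h2 := sum_perp M u
  have h3 := sum_perp M 1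
  rw [if_neg hu] at h2
  rw [if_pos M.one_mem] at h3
  refine Nat.cast_ne_zero.2 (Subgroup.index_ne_zero_of_finite (H := M))
    (h3.symm.trans ((sum_congr rfl fun l _ => ?_).trans h2))
  split_ifs with hl
  · rw [h1 l hl, cv_one]
  · rfl

lemma ytyp_tf (h : LS p V φ P M r) (hε : Eps φ M r ε) (χ : X) (l : Ch D) :
    tf M ε r χ (Quotient.mk (ytyp_s φ) l).out = tf M ε r χ l := by
  obtain ⟨g, e⟩ := ytyp_out (φ := φ) l
  rw [← e, h.tf_da hε]

lemma ytyp_hi (h : LS p V φ P M r) (hε : Eps φ M r ε) (χ : X) {O O' : Quotient (ytyp_s φ)}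
    (hR : ytyp_R h.stab O O') : ∃ z : ℤ, tf M ε r χ O.out - tf M ε r χ O'.out = z := by
  obtain ⟨g, e⟩ := hR
  have := hε.int χ (da φ g O.out) _ (neg_mem e)
  rwa [neg_sub, add_sub_cancel, h.tf_da hε] at this

lemma ytyp_hg (h : LS p V φ P M r) (hε : Eps φ M r ε) {O O' : Quotient (ytyp_s φ)}
    (hR : ytyp_R h.stab O O') (hne : O ≠ O') :
    ∑ χ, ‖tf M ε r χ O.out - tf M ε r χ O'.out‖ ^ 2 = (stk φ O.out + stk φ O'.out : ℕ) := by
  obtain ⟨g, e⟩ := hR
  have := h.tf_diff hε (l := da φ g O.out) (neg_mem e) fun k e' => by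
    rw [neg_sub, add_sub_cancel, ← da_mul] at e'
    exact hne ((ytyp_mk.2 ⟨_, e'⟩).symm.trans O'.out_eq)
  simpa only [neg_sub, add_sub_cancel, h.tf_da hε, stk_da] using this

open Classical in
lemma ytyp_card (l : Ch D) : (univ.filter fun k : Ch D => k - l ∈ perp M).card = M.index := by
  rw [← card_perp', Nat.card_eq_fintype_card, Fintype.card_subtype]
  exact card_equiv (Equiv.subRight l) fun k => by simp

lemma ytyp_h2 (h : LS p V φ P M r) (O : Quotient (ytyp_s φ)) :
    ∃ O', ytyp_R h.stab O O' ∧ O ≠ O' := by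
  classical
  by_contra hn
  simp only [not_exists, not_and, not_not] at hn
  have h1 : ∀ k, k - O.out ∈ perp M → ∃ g, da φ g O.out = k := fun k hk => by
    have := ytyp_rel h.stab O.out hk
    rw [O.out_eq, add_sub_cancel] at this
    exact ytyp_mk.1 (hn _ this).symm
  let S : Subgroup E :=
    { carrier := {g | da φ g O.out - O.out ∈ perp M}
      one_mem' := by
        rw [Set.mem_ofPred_eq, da_one, sub_self]
        exact zero_mem _
      mul_mem' := fun {a b} ha hb => by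
        have := add_mem ((da_perp h.stab a _).2 hb) ha
        rwa [ytyp_sub, sub_add_sub_cancel, ← da_mul] at this
      inv_mem' := fun {a} ha => by
        have := neg_mem ((da_perp h.stab a⁻¹ _).2 ha)
        rwa [ytyp_sub, ytyp_inv, neg_sub] at this }
  have h2 : Nat.card S = M.index * stk φ O.out := by
    rw [Nat.card_eq_fintype_card, Fintype.card_subtype, card_eq_sum_card_fiberwise
      (s := univ.filter fun g => g ∈ S)
      (t := univ.filter fun k : Ch D => k - O.out ∈ perp M) (f := fun g => da φ g O.out)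
      fun g hg => mem_coe.2 (mem_filter.2 ⟨mem_univ _, (mem_filter.1 hg).2⟩), ← ytyp_card O.out,
      ← smul_eq_mul, ← sum_const]
    refine sum_congr rfl fun k hk => ?_
    rw [← ytyp_fib (h1 k (mem_filter.1 hk).2)]
    congr 1
    ext g
    simp only [mem_filter, mem_univ, true_and, and_iff_right_iff_imp]
    rintro rfl
    exact (mem_filter.1 hk).2
  have := Fact.mk h.prime
  obtain ⟨n, hn⟩ := h.ms.pD.index M
  have h3 : n ≠ 0 := fun e => h.ne (Subgroup.index_eq_one.1 (by rw [hn, e, pow_zero]))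
  refine h.cop (Nat.card_eq_fintype_card (α := E) ▸
    (?_ : p ∣ Nat.card S).trans S.card_subgroup_dvd_card)
  rw [h2, hn]
  exact (dvd_pow_self p h3).mul_right _

open Classical in
theorem LS.nonflat (h : LS p V φ P M r) (hε : Eps φ M r ε) :
    Fintype.card E * (univ.filter fun χ => ¬ Flat M ε r χ).card ≤
      ∑ l : Ch D, if l ∈ perp M then 0 else stk φ l ^ 2 := by
  have := Fintype.ofFinite (Quotient (ytyp_s φ))
  have hA : ∀ l : Ch D, (Quotient.mk (ytyp_s φ) l).out ∈ perp M ↔ l ∈ perp M := fun l => by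
    obtain ⟨g, e⟩ := ytyp_out (φ := φ) l
    rw [← e, da_perp h.stab]
  have h1 := cnt_le (ytyp_R h.stab) (fun O => stk φ O.out) (fun χ O => tf M ε r χ O.out)
    (univ.filter fun O => O.out ∉ perp M)
    (fun O hO O' ⟨g, e⟩ => mem_filter.2 ⟨mem_univ _, fun e' => (mem_filter.1 hO).2
      ((da_perp h.stab g _).1 (by simpa using add_mem e e'))⟩)
    (fun χ O _ O' hR => ytyp_hi h hε χ hR) (fun O _ O' hR hne => ytyp_hg h hε hR hne)
    fun O _ => ytyp_h2 h O
  have h2 := ytyp_sum (φ := φ) (fun l => if l ∈ perp M then 0 else stk φ l) fun g l => by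
    simp only [da_perp h.stab, stk_da]
  have h3 : ∑ l : Ch D, stk φ l * (if l ∈ perp M then 0 else stk φ l) =
      ∑ l : Ch D, if l ∈ perp M then 0 else stk φ l ^ 2 :=
    sum_congr rfl fun l _ => by split_ifs <;> ring
  rw [← h3, ← h2]
  refine Nat.mul_le_mul_left _ (((card_le_card fun χ hχ => ?_).trans h1).trans_eq ?_)
  · refine mem_filter.2 ⟨mem_univ _, by_contra fun hn => (mem_filter.1 hχ).2 fun u hu z hz => ?_⟩
    simp only [not_exists, not_and, not_not] at hn
    have h4 := ytyp_zero (M := M) (fun l => tf M ε r χ l * (cv l z - 1)) (fun l n hn' => ?_) hu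
    · rw [tf_inv χ hu, tf_inv χ fun e => hu ((M.mul_mem_cancel_right hz).1 e), ← sub_eq_zero,
        ← sum_sub_distrib, ← h4]
      refine sum_congr rfl fun l _ => ?_
      rw [cv_mul]
      ring
    · simp only [cv_add, hn' z hz, mul_one]
      by_cases hl : l ∈ perp M
      · rw [hl z hz, sub_self, mul_zero, mul_zero]
      · have := hn _ (mem_filter.2 ⟨mem_univ _, mt (hA l).1 hl⟩) _ (ytyp_rel h.stab l hn')
        rw [ytyp_tf h hε, ytyp_tf h hε] at this
        rw [this]
  · rw [sum_filter]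
    exact sum_congr rfl fun O _ => by rw [ite_not]

open Classical in
theorem LS.types (h : LS p V φ P M r) (hε : Eps φ M r ε) (h1 : ∀ u, u ∉ M → stb φ u = 1)
    (h2 : 2 * Fintype.card E < M.index) (hM : ∀ g, ∀ d ∈ M, φ g d = d)
    (hc : ∑ l : Ch D, stk φ l ^ 2 ≤ Fintype.card E * Fintype.card X) :
    ∃ (ty : X → Ch D) (δ : X → ℂ), (∀ χ, δ χ = 1 ∨ δ χ = -1) ∧
      (∀ χ u, u ∉ M →
        (stk φ (ty χ) : ℂ) * (ε u * r u χ) = δ χ * ∑ g, cv (da φ g (ty χ)) u) ∧
      ∀ l, (univ.filter fun χ => ∃ g, da φ g l = ty χ).card = stk φ l := by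
  have := Fintype.ofFinite (Quotient (ytyp_s φ))
  refine (cnt_eq (ytyp_R h.stab) (fun O => stk φ O.out)
    (fun χ O => tf M ε r χ O.out) (fun χ O O' hR => ytyp_hi h hε χ hR)
    (fun O O' hR hne => ytyp_hg h hε hR hne) (fun O => ?_) (fun χ => ?_) ?_).elim
    fun ty ⟨δ, k1, k2, k3, k4⟩ => ?_
  rotate_right
  · refine ⟨fun χ => (ty χ).out, δ, k1, fun χ u hu => ?_, fun l => ?_⟩
    · have h4 := ytyp_zero (M := M)
        (fun l => tf M ε r χ l - if Quotient.mk (ytyp_s φ) l = ty χ then δ χ else 0)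
        (fun l n hn => ?_) hu
      · rw [ytyp_sumg (fun l => cv l u), nsmul_eq_mul, mul_left_comm (δ χ), tf_inv χ hu, sum_filter,
          mul_sum _ _ (δ χ)]
        simp only [sub_mul, sum_sub_distrib, sub_eq_zero] at h4
        rw [h4]
        congr 1
        exact sum_congr rfl fun l _ => by split_ifs <;> ring
      · have hR := ytyp_rel h.stab l hn
        rw [← ytyp_tf h hε χ l, ← ytyp_tf h hε χ (l + n)]
        split_ifs with e1 e2 e2
        · rw [e1, e2]
        · rw [e1] at hR ⊢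
          linear_combination k2 χ _ ((ytyp_R h.stab).symm hR) e2
        · rw [e2] at hR ⊢
          linear_combination -k2 χ _ hR e1
        · rw [k3 χ _ _ hR e2 e1]
    · obtain ⟨g, e⟩ := ytyp_out (φ := φ) l
      rw [← stk_da g, e, ← k4]
      congr 1
      ext χ
      simp only [mem_filter, mem_univ, true_and]
      exact ⟨fun e' => (ty χ).out_eq.symm.trans (Quotient.sound e').symm,
        fun e' => e' ▸ ytyp_out l⟩
  · have h4 := card_le_mul_card_image_of_maps_to
      (s := univ.filter fun k : Ch D => k - O.out ∈ perp M)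
      (t := univ.filter fun O' => ytyp_R h.stab O O') (f := Quotient.mk (ytyp_s φ))
      (fun k hk => mem_filter.2 ⟨mem_univ _, by
        have := ytyp_rel h.stab O.out (mem_filter.1 hk).2
        rwa [O.out_eq, add_sub_cancel] at this⟩) (Fintype.card E) fun O' _ =>
      (card_le_card (t := univ.image fun g => da φ g O'.out) fun k hk => by
        obtain ⟨g, e⟩ := ytyp_mk.1 (mem_filter.1 hk).2
        exact mem_image.2 ⟨g, mem_univ _, e⟩).trans card_image_le
    rw [ytyp_card] at h4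
    have h5 := h2.trans_le h4
    rw [mul_comm] at h5
    exact lt_of_mul_lt_mul_left h5 (Nat.zero_le _)
  · by_contra hn
    simp only [not_exists, not_and, not_not] at hn
    obtain ⟨u, -, hu⟩ := SetLike.exists_of_lt h.ne.lt_top
    have h4 := ytyp_zero (M := M) (tf M ε r χ) (fun l n hn' => ?_) hu
    · rw [← tf_inv χ hu] at h4
      refine mul_ne_zero (fun e => ?_) (h.reg_ne hu (h1 u hu) χ) h4
      rcases hε.sign u with e' | e' <;> rw [e'] at e <;> norm_num at e
    · have := hn _ _ (ytyp_rel h.stab l hn')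
      rw [ytyp_tf h hε, ytyp_tf h hε] at this
      exact this.symm
  · have h4 := ytyp_sum (φ := φ) (stk φ) stk_da
    simp only [← sq] at h4
    exact le_of_mul_le_mul_left (h4.trans_le hc) Fintype.card_pos

end Pool.Agent.Lib.MP_b6945b_al.Kx
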