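import Pool.Agent.Lib.MP_b6945b_al.Kx.YEps
import Pool.Agent.Lib.MP_b6945b_al.Kx.YTyp
import Pool.Agent.Lib.MP_b6945b_al.Kx.YKn

set_option autoImplicit false

/-!
The bound for the rank at the identity.
-/

namespace Pool.Agent.Lib.MP_b6945b_al.Kx

open Bi Finset

section comm
variable {p : ℕ} {V : ValuationSubring ℂ} {E D X : Type} [Group E] [Fintype E] [CommGroup D]
  [Fintype D] [Fintype X] [DecidableEq X] {φ : E →* MulAut D} {P : D → Matrix X X ℂ}
  {M : Subgroup D} {r : D → X → ℂ}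

lemma ybd_base (h : LS p V φ P M r) :
    ∃ w, w ∉ M ∧ ∀ g, φ g w * w⁻¹ ∈ M → φ g w = w := by
  obtain ⟨u, -, hu⟩ := SetLike.exists_of_lt (lt_top_iff_ne_top.2 h.ne)
  let A : Subgroup E :=
    { carrier := {g | φ g u * u⁻¹ ∈ M}
      one_mem' := by simp
      mul_mem' := fun {a b} ha hb => by
        have h1 := M.mul_mem ((h.stab a _).2 hb) ha
        rwa [map_mul, map_inv, mul_assoc, inv_mul_cancel_left, ← MulAut.mul_apply,
          ← map_mul] at h1
      inv_mem' := fun {a} ha => by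
        refine (h.stab a _).1 ?_
        have h1 := M.inv_mem ha
        rw [mul_inv_rev, inv_inv] at h1
        rwa [map_mul, ← MulAut.mul_apply, ← map_mul, mul_inv_cancel, map_one, MulAut.one_apply,
          map_inv] }
  obtain ⟨π, h1, -, -, -, h2⟩ := exists_proj (φ := φ) h.prime h.ms.pD h.cop A
  have h3 := h2 M u fun g hg => hg
  refine ⟨π u, fun e => hu ?_, fun g hg => h1 g ?_ u⟩
  · simpa using M.mul_mem (M.inv_mem e) h3
  · have h4 := M.mul_mem (M.mul_mem hg h3) (M.inv_mem ((h.stab g _).2 h3))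
    rw [mul_assoc (φ g (π u)), inv_mul_cancel_left, map_mul, mul_inv_rev, ← map_inv, inv_inv,
      mul_comm (φ g u), ← mul_assoc, mul_right_comm (φ g (π u)), mul_inv_cancel, one_mul,
      mul_comm] at h4
    exact h4

lemma ybd_reg (h : LS p V φ P M r) (hi : M.index ≤ p ^ 2) {w : D} (hw : w ∉ M)
    (hF : ∀ g, φ g w * w⁻¹ ∈ M → φ g w = w)
    (h1 : stb φ w = 1 ∨ (p ^ 2 ≤ (Subgroup.zpowers w).index ∧
      ∀ g, φ g w = w → g = 1 ∨ ∀ d, φ g d = d → d ∈ Subgroup.zpowers w)) :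
    ∃ z ∈ M, stb φ (w * z) = 1 := by
  rcases h1 with h1 | ⟨h1, h2⟩
  · exact ⟨1, M.one_mem, by rwa [mul_one]⟩
  have h3 : ¬ M ≤ Subgroup.zpowers w := fun e => by
    have h4 := Subgroup.relIndex_mul_index e
    have h5 : M.relIndex (Subgroup.zpowers w) ≠ 1 := fun k =>
      hw (Subgroup.relIndex_eq_one.1 k (Subgroup.mem_zpowers w))
    have h6 : M.index ≠ 0 := Subgroup.index_ne_zero_of_finite
    have h7 : 2 ≤ M.relIndex (Subgroup.zpowers w) := by
      rcases Nat.eq_zero_or_pos (M.relIndex (Subgroup.zpowers w)) with k | k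
      · exact absurd (by rw [← h4, k, zero_mul]) h6
      · omega
    have h8 := Nat.mul_le_mul h7 h1
    omega
  obtain ⟨z, hz, hz'⟩ := SetLike.not_le_iff_exists.1 h3
  refine ⟨z, hz, Nat.card_eq_one_iff_exists.2 ⟨⟨1, by rw [map_one, MulAut.one_apply]⟩, ?_⟩⟩
  rintro ⟨g, hg⟩
  rw [map_mul] at hg
  have h4 : φ g w = w := hF g (by
    rw [eq_mul_inv_of_mul_eq hg, mul_right_comm, mul_right_comm w, mul_inv_cancel, one_mul]
    exact M.mul_mem hz (M.inv_mem ((h.stab g z).2 hz)))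
  rw [h4, mul_left_cancel_iff] at hg
  exact Subtype.ext ((h2 g h4).resolve_right fun k => hz' (k z hg))

lemma ybd_count (h : LS p V φ P M r) (hM : ∀ d, d ^ p ∈ M) (hi : M.index ≤ p ^ 2)
    (hr : ∀ d, d ≠ 1 → stb φ d ≤ (P d).rank) {w : D} (hw : w ∉ M)
    (hF : ∀ g, φ g w * w⁻¹ ∈ M → φ g w = w) (hf : stb φ w < p)
    (hz : ∃ z ∈ M, stb φ (w * z) = 1) : (P 1).rank ≤ p ^ 2 := by
  classical
  obtain ⟨ε, hε⟩ := h.eps
  have h1 := h.flat hε hM hi hw hF hf hz
  have h2 := h.nonflat hε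
  have h3 := h.ms.card_eq
  have h4 := sum_stk_sq (φ := φ) h.prime h.ms.pD h.cop
  have h5 := card_filter_add_card_filter_not (s := (univ : Finset X)) fun χ => Flat M ε r χ
  rw [← add_sum_erase _ _ (mem_univ (1 : D)), stb_one'] at h3 h4
  rw [← add_sum_erase _ _ (mem_univ (0 : Ch D)), stk_zero] at h4
  rw [← add_sum_erase _ _ (mem_univ (0 : Ch D)), if_pos (zero_mem _), zero_add] at h2
  have h6 : ∑ l ∈ univ.erase (0 : Ch D), (if l ∈ perp M then 0 else stk φ l ^ 2) ≤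
      ∑ l ∈ univ.erase (0 : Ch D), stk φ l ^ 2 :=
    sum_le_sum fun l _ => by split_ifs; exacts [Nat.zero_le _, le_rfl]
  have h7 : ∑ d ∈ univ.erase (1 : D), stb φ d ^ 2 ≤
      ∑ d ∈ univ.erase (1 : D), stb φ d * (P d).rank :=
    sum_le_sum fun d hd => by
      rw [sq]
      exact Nat.mul_le_mul_left _ (hr d (ne_of_mem_erase hd))
  rw [← card_univ (α := X), ← h5, mul_add] at h3
  have h8 := Nat.mul_le_mul_left (Fintype.card E) h1
  exact Nat.le_of_mul_le_mul_left (by omega) (Fintype.card_pos (α := E))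

end comm

theorem LS.bound {p : ℕ} {V : ValuationSubring ℂ} {E D X : Type} [Group E] [Fintype E]
    [iD : Group D] [Fintype D] [Fintype X] [DecidableEq X] {φ : E →* MulAut D}
    {P : D → Matrix X X ℂ} {M : Subgroup D} {r : D → X → ℂ} (h : LS p V φ P M r)
    (hM : ∀ d, d ^ p ∈ M) (hi : M.index ≤ p ^ 2) (hr : ∀ d, d ≠ 1 → stb φ d ≤ (P d).rank)
    (hf : ∀ u, u ∉ M → stb φ u < p)
    (hw : ∀ u, u ∉ M → stb φ u = 1 ∨ (p ^ 2 ≤ (Subgroup.zpowers u).index ∧
      ∀ g, φ g u = u → g = 1 ∨ ∀ d, φ g d = d → d ∈ Subgroup.zpowers u)) :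
    (P 1).rank ≤ p ^ 2 := by
  let : CommGroup D := { iD with mul_comm := h.ms.comm }
  obtain ⟨w, h1, h2⟩ := ybd_base h
  exact ybd_count h hM hi hr h1 h2 (hf w h1) (ybd_reg h hi h1 h2 (hw w h1))

end Pool.Agent.Lib.MP_b6945b_al.Kx
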