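import Mathlib

set_option autoImplicit false

/-!
Counting vectors whose differences are integers.
-/

namespace Pool.Agent.Lib.MP_b6945b_al.Kx

open Finset

variable {Ω X : Type} [Fintype Ω] [Fintype X] (R : Setoid Ω) (a : Ω → ℕ) (n : X → Ω → ℂ)

omit [Fintype Ω] in
/-- A function with integer differences that is not constant on `C`. -/
theorem ycnt_cls (C : Finset Ω) (f : Ω → ℂ) {x y : Ω} (hx : x ∈ C) (hy : y ∈ C)
    (hi : ∀ O ∈ C, ∃ z : ℤ, f x - f O = z) (hxy : f x ≠ f y) :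
    2 * (C.card - 1 : ℝ) ≤ ∑ O ∈ C, ∑ O' ∈ C, ‖f O - f O'‖ ^ 2 ∧
      (∑ O ∈ C, ∑ O' ∈ C, ‖f O - f O'‖ ^ 2 ≤ 2 * (C.card - 1 : ℝ) → 3 ≤ C.card →
        ∃ t ∈ C, ∃ δ : ℂ, (δ = 1 ∨ δ = -1) ∧ ∀ O ∈ C, O ≠ t → f t - f O = δ) := by
  classical
  choose! g hg using hi
  have hd : ∀ O ∈ C, ∀ O' ∈ C, f O - f O' = ((g O' - g O : ℤ) : ℂ) := fun O h O' h' => by
    rw [Int.cast_sub, ← hg O h, ← hg O' h']
    ring
  have gx : g x = 0 := by exact_mod_cast (hg x hx).symm.trans (sub_self _)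
  have gy : g y ≠ 0 := fun e => hxy (sub_eq_zero.1 (by rw [hg y hy, e, Int.cast_zero]))
  have hne : x ≠ y := fun e => hxy (congrArg f e)
  have e1 : ∑ O ∈ C, ∑ O' ∈ C, ‖f O - f O'‖ ^ 2 =
      ((∑ O ∈ C, ∑ O' ∈ C, (g O' - g O) ^ 2 : ℤ) : ℝ) := by
    push_cast
    refine sum_congr rfl fun O h => sum_congr rfl fun O' h' => ?_
    rw [hd O h O' h', Complex.norm_intCast, sq_abs, Int.cast_sub]
  obtain ⟨T, hxT, hyT, rfl⟩ : ∃ T, x ∉ T ∧ y ∉ T ∧ C = insert x (insert y T) :=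
    ⟨(C.erase x).erase y, by simp, by simp, by
      rw [insert_erase (mem_erase.2 ⟨hne.symm, hy⟩), insert_erase hx]⟩
  have hx' : x ∉ insert y T := by simp [hne, hxT]
  have e2 : ∑ O ∈ insert x (insert y T), ∑ O' ∈ insert x (insert y T), (g O' - g O) ^ 2 =
      2 * g y ^ 2 + 2 * ∑ O ∈ T, (g O ^ 2 + (g O - g y) ^ 2 - 1) + 2 * T.card +
        ∑ O ∈ T, ∑ O' ∈ T, (g O' - g O) ^ 2 := by
    simp only [sum_insert hx', sum_insert hyT, gx, sum_add_distrib, sum_sub_distrib, sum_const,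
      sub_zero, zero_sub, neg_sq, sub_sq_comm (g y), nsmul_eq_mul]
    ring
  have p1 : ∀ O ∈ T, 0 ≤ g O ^ 2 + (g O - g y) ^ 2 - 1 := fun O _ => by
    rcases eq_or_ne (g O) 0 with h | h
    · rw [h]
      nlinarith [sq_pos_of_ne_zero gy]
    · nlinarith [sq_pos_of_ne_zero h, sq_nonneg (g O - g y)]
  have p2 : ∀ O ∈ T, 0 ≤ ∑ O' ∈ T, (g O' - g O) ^ 2 := fun O _ =>
    sum_nonneg fun _ _ => sq_nonneg _
  have p3 := sq_pos_of_ne_zero gy
  have p4 := sum_nonneg p1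
  have p5 := sum_nonneg p2
  rw [e1, e2, card_insert_of_notMem hx', card_insert_of_notMem hyT]
  refine ⟨?_, fun h h3 => ?_⟩
  · exact_mod_cast (show 2 * ((T.card + 1 + 1 : ℕ) - 1 : ℤ) ≤ _ by
      push_cast
      linarith : _ ≤ 2 * g y ^ 2 + 2 * ∑ O ∈ T, (g O ^ 2 + (g O - g y) ^ 2 - 1) + 2 * T.card +
        ∑ O ∈ T, ∑ O' ∈ T, (g O' - g O) ^ 2)
  replace h : 2 * g y ^ 2 + 2 * ∑ O ∈ T, (g O ^ 2 + (g O - g y) ^ 2 - 1) + 2 * T.card +
      ∑ O ∈ T, ∑ O' ∈ T, (g O' - g O) ^ 2 ≤ 2 * ((T.card + 1 + 1 : ℕ) - 1 : ℤ) := by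
    exact_mod_cast h
  push_cast at h
  obtain ⟨u, hu⟩ := card_pos.1 (show 0 < T.card by omega)
  have q1 := (sum_eq_zero_iff_of_nonneg p1).1 (by linarith) u hu
  have q2 : ∀ O ∈ T, g O = g u := fun O hO => sub_eq_zero.1 (pow_eq_zero_iff two_ne_zero |>.1
    ((sum_eq_zero_iff_of_nonneg fun _ _ => sq_nonneg _).1
      ((sum_eq_zero_iff_of_nonneg p2).1 (by linarith) u hu) O hO))
  have q3 : g y = 1 ∨ g y = -1 := mul_self_eq_one_iff.1 (by nlinarith)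
  have q4 : g u = 0 ∨ g u = g y := by
    by_contra hc
    rw [not_or] at hc
    nlinarith [sq_pos_of_ne_zero hc.1, sq_pos_of_ne_zero (sub_ne_zero.2 hc.2)]
  rcases q4 with q4 | q4
  · refine ⟨y, hy, -g y, by rcases q3 with q | q <;> simp [q], fun O hO h => ?_⟩
    rw [hd y hy O hO]
    simp only [mem_insert, h, false_or] at hO
    rcases hO with rfl | hO
    · simp [gx]
    · simp [q2 O hO, q4]
  · refine ⟨x, hx, g y, by rcases q3 with q | q <;> simp [q], fun O hO h => ?_⟩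
    rw [hg O hO]
    simp only [mem_insert, h, false_or] at hO
    rcases hO with rfl | hO
    · rfl
    · rw [q2 O hO, q4]

open Classical in
/-- The class of `O`. -/
noncomputable def ycntC (O : Ω) : Finset Ω := univ.filter fun O' => R O O'

theorem ycnt_mem {O O' : Ω} : O' ∈ ycntC R O ↔ R O O' := by simp [ycntC]

theorem ycnt_eq {O O' : Ω} (h : R O O') : ycntC R O' = ycntC R O := by
  ext u
  rw [ycnt_mem, ycnt_mem]
  exact ⟨R.trans' h, R.trans' (R.symm' h)⟩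

/-- The contribution of `O` to the weight of `χ`. -/
noncomputable def ycntW (χ : X) (O : Ω) : ℝ :=
  (∑ O' ∈ ycntC R O, ‖n χ O - n χ O'‖ ^ 2) / (2 * ((ycntC R O).card - 1))

theorem ycnt_sum (A : Finset Ω) (hA : ∀ O ∈ A, ∀ O', R O O' → O' ∈ A)
    (hg : ∀ O ∈ A, ∀ O', R O O' → O ≠ O' → ∑ χ, ‖n χ O - n χ O'‖ ^ 2 = (a O + a O' : ℕ))
    (h2 : ∀ O ∈ A, 2 ≤ (ycntC R O).card) :
    ∑ χ, ∑ O ∈ A, ycntW R n χ O = ∑ O ∈ A, (a O : ℝ) := by
  classical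
  have e1 : ∀ O ∈ A, ∑ _O' ∈ (ycntC R O).erase O, (a O : ℝ) / (2 * ((ycntC R O).card - 1)) =
      a O / 2 := fun O hO => by
    have h3 : (2 : ℝ) ≤ (ycntC R O).card := by exact_mod_cast h2 O hO
    have h4 : ((ycntC R O).card - 1 : ℝ) ≠ 0 := by linarith
    rw [sum_const, card_erase_of_mem ((ycnt_mem R).2 (R.refl' O)), nsmul_eq_mul,
      Nat.cast_pred (by linarith [h2 O hO])]
    field_simp
  have e2 : ∀ O ∈ A, ∑ χ, ycntW R n χ O =
      a O / 2 + ∑ O' ∈ (ycntC R O).erase O, (a O' : ℝ) / (2 * ((ycntC R O').card - 1)) :=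
    fun O hO => by
      simp only [ycntW]
      rw [← sum_div, sum_comm, ← e1 O hO, ← sum_add_distrib,
        ← sum_erase (a := O) _ (by simp), sum_div]
      refine sum_congr rfl fun O' h => ?_
      have h3 := (ycnt_mem R).1 (mem_of_mem_erase h)
      rw [hg O hO O' h3 (ne_of_mem_erase h).symm, ycnt_eq R h3, Nat.cast_add, add_div]
  rw [sum_comm, sum_congr rfl e2, sum_add_distrib, sum_comm' (t' := A)
    (s' := fun O' => (ycntC R O').erase O'), sum_congr rfl e1, ← sum_add_distrib]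
  · exact sum_congr rfl fun O _ => add_halves _
  · intro O O'
    simp only [mem_erase, ycnt_mem]
    exact ⟨fun h => ⟨⟨h.2.1.symm, R.symm' h.2.2⟩, hA O h.1 O' h.2.2⟩,
      fun h => ⟨hA O' h.2 O h.1.2, h.1.1.symm, R.symm' h.1.2⟩⟩

omit [Fintype X] in
theorem ycnt_nn (χ : X) (O : Ω) : 0 ≤ ycntW R n χ O := by
  have h : (1 : ℝ) ≤ (ycntC R O).card := by
    exact_mod_cast card_pos.2 ⟨O, (ycnt_mem R).2 (R.refl' O)⟩
  exact div_nonneg (sum_nonneg fun _ _ => sq_nonneg _) (by linarith)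

omit [Fintype X] in
theorem ycnt_one {χ : X} {x y : Ω} (hi : ∀ O, R x O → ∃ z : ℤ, n χ x - n χ O = z) (h : R x y)
    (hxy : n χ x ≠ n χ y) : 1 ≤ ∑ O ∈ ycntC R x, ycntW R n χ O ∧
      (∑ O ∈ ycntC R x, ycntW R n χ O ≤ 1 → 3 ≤ (ycntC R x).card → ∃ t ∈ ycntC R x, ∃ δ : ℂ,
        (δ = 1 ∨ δ = -1) ∧ ∀ O ∈ ycntC R x, O ≠ t → n χ t - n χ O = δ) := by
  have hx := (ycnt_mem R).2 (R.refl' x)
  have hy := (ycnt_mem R).2 h
  have h2 : (1 : ℝ) < (ycntC R x).card := by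
    exact_mod_cast one_lt_card.2 ⟨x, hx, y, hy, fun e => hxy (congrArg _ e)⟩
  have h3 : (0 : ℝ) < 2 * ((ycntC R x).card - 1) := by linarith
  rw [sum_congr rfl (g := fun O => (∑ O' ∈ ycntC R x, ‖n χ O - n χ O'‖ ^ 2) /
    (2 * ((ycntC R x).card - 1))) fun O hO => by rw [ycntW, ycnt_eq R ((ycnt_mem R).1 hO)],
    ← sum_div, one_le_div h3, div_le_one h3]
  exact ycnt_cls _ _ hx hy (fun O hO => hi O ((ycnt_mem R).1 hO)) hxy

open Classical in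
theorem cnt_le (A : Finset Ω) (hA : ∀ O ∈ A, ∀ O', R O O' → O' ∈ A)
    (hi : ∀ χ, ∀ O ∈ A, ∀ O', R O O' → ∃ z : ℤ, n χ O - n χ O' = z)
    (hg : ∀ O ∈ A, ∀ O', R O O' → O ≠ O' → ∑ χ, ‖n χ O - n χ O'‖ ^ 2 = (a O + a O' : ℕ))
    (h2 : ∀ O ∈ A, ∃ O', R O O' ∧ O ≠ O') :
    (univ.filter fun χ => ∃ O ∈ A, ∃ O', R O O' ∧ n χ O ≠ n χ O').card ≤ ∑ O ∈ A, a O := by
  have h := ycnt_sum R a n A hA hg fun O hO => by
    obtain ⟨O', h, h'⟩ := h2 O hO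
    exact one_lt_card.2 ⟨O, (ycnt_mem R).2 (R.refl' O), O', (ycnt_mem R).2 h, h'⟩
  rw [← Nat.cast_le (α := ℝ), Nat.cast_sum, ← h, card_eq_sum_ones, Nat.cast_sum, Nat.cast_one]
  refine (sum_le_sum fun χ hχ => ?_).trans (sum_le_sum_of_subset_of_nonneg (filter_subset _ _)
    fun χ _ _ => sum_nonneg fun O _ => ycnt_nn R n χ O)
  obtain ⟨x, hx, y, h1, h3⟩ := (mem_filter.1 hχ).2
  exact (ycnt_one R n (hi χ x hx) h1 h3).1.trans (sum_le_sum_of_subset_of_nonneg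
    (fun O hO => hA x hx O ((ycnt_mem R).1 hO)) fun O _ _ => ycnt_nn R n χ O)

open Classical in
theorem cnt_eq (hi : ∀ χ O O', R O O' → ∃ z : ℤ, n χ O - n χ O' = z)
    (hg : ∀ O O', R O O' → O ≠ O' → ∑ χ, ‖n χ O - n χ O'‖ ^ 2 = (a O + a O' : ℕ))
    (h3 : ∀ O, 3 ≤ (univ.filter fun O' => R O O').card)
    (hn : ∀ χ, ∃ O O', R O O' ∧ n χ O ≠ n χ O') (hc : ∑ O, a O ≤ Fintype.card X) :
    ∃ (ty : X → Ω) (δ : X → ℂ), (∀ χ, δ χ = 1 ∨ δ χ = -1) ∧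
      (∀ χ O, R (ty χ) O → O ≠ ty χ → n χ (ty χ) - n χ O = δ χ) ∧
      (∀ χ O O', R O O' → O ≠ ty χ → O' ≠ ty χ → n χ O = n χ O') ∧
      ∀ O, (univ.filter fun χ => ty χ = O).card = a O := by
  replace h3 : ∀ O, 3 ≤ (ycntC R O).card := h3
  have h := ycnt_sum R a n univ (fun _ _ _ _ => mem_univ _) (fun O _ => hg O)
    fun O _ => (by norm_num : 2 ≤ 3).trans (h3 O)
  choose x y h1 h2 using hn
  have k := fun χ => ycnt_one R n (hi χ (x χ)) (h1 χ) (h2 χ)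
  have s := fun χ => sum_sdiff (f := ycntW R n χ) (subset_univ (ycntC R (x χ)))
  have p : ∀ χ, 0 ≤ ∑ O ∈ univ \ ycntC R (x χ), ycntW R n χ O := fun χ =>
    sum_nonneg fun O _ => ycnt_nn R n χ O
  have e : ∀ χ, ∑ O, ycntW R n χ O - 1 = 0 := fun χ => by
    have h4 : ∀ χ ∈ (univ : Finset X), 0 ≤ ∑ O, ycntW R n χ O - 1 := fun χ _ => by
      linarith [(k χ).1, s χ, p χ]
    refine (sum_eq_zero_iff_of_nonneg h4).1 (le_antisymm ?_ (sum_nonneg h4)) χ (mem_univ χ)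
    rw [sum_sub_distrib, h, sum_const, nsmul_eq_mul, mul_one, card_univ, sub_nonpos]
    exact_mod_cast hc
  choose ty t1 δ t2 t3 using fun χ => (k χ).2 (by linarith [s χ, p χ, e χ]) (h3 _)
  have c1 : ∀ χ O, R (ty χ) O → O ≠ ty χ → n χ (ty χ) - n χ O = δ χ := fun χ O h =>
    t3 χ O ((ycnt_mem R).2 (R.trans' ((ycnt_mem R).1 (t1 χ)) h))
  have c2 : ∀ χ O O', R O O' → O ≠ ty χ → O' ≠ ty χ → n χ O = n χ O' := fun χ O O' h h4 h5 => by
    by_cases hO : O ∈ ycntC R (x χ)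
    · exact sub_right_injective ((t3 χ O hO h4).trans (t3 χ O'
        ((ycnt_mem R).2 (R.trans' ((ycnt_mem R).1 hO) h)) h5).symm)
    · by_contra hne
      have h6 := (ycnt_one R n (hi χ O) h hne).1.trans (sum_le_sum_of_subset_of_nonneg
        (t := univ \ ycntC R (x χ)) (fun u hu => mem_sdiff.2 ⟨mem_univ u, fun hu' => hO
          ((ycnt_mem R).2 (R.trans' ((ycnt_mem R).1 hu') (R.symm' ((ycnt_mem R).1 hu))))⟩)
        fun O _ _ => ycnt_nn R n χ O)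
      linarith [(k χ).1, s χ, e χ]
  have c3 : ∀ χ, ‖δ χ‖ ^ 2 = 1 := fun χ => by rcases t2 χ with q | q <;> simp [q]
  have c4 : ∀ O O', R O O' → O ≠ O' → (univ.filter fun χ => ty χ = O).card +
      (univ.filter fun χ => ty χ = O').card = a O + a O' := fun O O' h hne => by
    rw [← Nat.cast_inj (R := ℝ), ← hg O O' h hne, card_filter, card_filter, ← sum_add_distrib,
      Nat.cast_sum]
    refine sum_congr rfl fun χ _ => ?_
    rcases eq_or_ne (ty χ) O with rfl | q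
    · simp [hne, c1 χ O' h hne.symm, c3]
    rcases eq_or_ne (ty χ) O' with rfl | q'
    · rw [norm_sub_rev]
      simp [q, c1 χ O (R.symm' h) hne, c3]
    · simp [q, q', c2 χ O O' h q.symm q'.symm]
  refine ⟨ty, δ, t2, c1, c2, fun O => ?_⟩
  obtain ⟨u, hu, v, hv, huv⟩ := one_lt_card.1 (show 1 < ((ycntC R O).erase O).card by
    rw [card_erase_of_mem ((ycnt_mem R).2 (R.refl' O))]
    have := h3 O
    omega)
  have r1 := (ycnt_mem R).1 (mem_of_mem_erase hu)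
  have r2 := (ycnt_mem R).1 (mem_of_mem_erase hv)
  have d1 := c4 O u r1 (ne_of_mem_erase hu).symm
  have d2 := c4 O v r2 (ne_of_mem_erase hv).symm
  have d3 := c4 u v (R.trans' (R.symm' r1) r2) huv
  omega

end Pool.Agent.Lib.MP_b6945b_al.Kx
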