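import Pool.Agent.Lib.MP_b6945b_al.Kx.ARed1
import Pool.Agent.Lib.MP_b6945b_al.Bi.AFour1

set_option autoImplicit false

/-!
Systems of projections with local coordinates: definitions.
-/

namespace Pool.Agent.Lib.MP_b6945b_al.Kx

open Bi Finset
open scoped ComplexConjugate

/-- The characters of `D`. -/
abbrev Ch (D : Type) [Group D] : Type := AddChar (Additive D) ℂ

/-- The value of a character. -/
def cv {D : Type} [Group D] (l : Ch D) (d : D) : ℂ := l (Additive.ofMul d)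

/-- Fourier coefficient. -/
noncomputable def fc {D : Type} [Group D] [Fintype D] (f : D → ℂ) (l : Ch D) : ℂ :=
  (Fintype.card D : ℂ)⁻¹ * ∑ d, f d * cv l d⁻¹

/-- All Fourier coefficients of `f` lie in `S`. -/
def GS (S : Subring ℂ) {D : Type} [Group D] [Fintype D] (f : D → ℂ) : Prop := ∀ l, fc f l ∈ S

/-- Local coordinates `ξ` at the generators of the cyclic group generated by `u`. -/
structure LC {E D X : Type} [Group E] [Group D] [Fintype D] (φ : E →* MulAut D)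
    (P : D → Matrix X X ℂ) (r : D → X → ℂ) (u : D) (ξ : X → ℕ → D → ℂ) (m : ℕ) : Prop where
  num : m * stb φ u + 1 = (Subgroup.zpowers u).index
  gs : ∀ χ j, GS ⊥ (ξ χ j)
  sum : ∀ v, Subgroup.zpowers v = Subgroup.zpowers u → ∀ χ,
    r v χ = ∑ j ∈ range (stb φ u), ξ χ j v
  form : ∀ v, Subgroup.zpowers v = Subgroup.zpowers u → ∀ χ ψ,
    (Fintype.card D : ℂ) * P v χ ψ =
      ((Subgroup.zpowers u).index : ℂ) * ∑ j ∈ range (stb φ u), ξ χ j v * conj (ξ ψ j v) -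
        (m : ℂ) * (r v χ * conj (r v ψ))

/-- A system of projections with local coordinates outside the subgroup `M`. -/
structure LS (p : ℕ) (V : ValuationSubring ℂ) {E D X : Type} [Group E] [Fintype E] [Group D]
    [Fintype D] [Fintype X] [DecidableEq X] (φ : E →* MulAut D) (P : D → Matrix X X ℂ)
    (M : Subgroup D) (r : D → X → ℂ) : Prop where
  prime : p.Prime
  odd : p ≠ 2
  nonunit : (p : ℂ) ∈ V.nonunits
  ms : MS0 p φ P
  cop : ¬ p ∣ Fintype.card E
  ne : M ≠ ⊤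
  stab : ∀ g d, φ g d ∈ M ↔ d ∈ M
  inv : ∀ g d, d ∉ M → r (φ g d) = r d
  rank : ∀ u, u ∉ M → (P u).rank = stb φ u
  loc : ∀ u, u ∉ M → ∃ ξ m, LC φ P r u ξ m
  gen : ∀ u, u ∉ M → stb φ u = 1 ∨
    ∀ v ∈ Subgroup.zpowers u, v ∉ M → Subgroup.zpowers v = Subgroup.zpowers u
  kap : ∃ a : X → ℂ, (∀ χ, IsIntegral ℤ (a χ)) ∧
    (∀ u, u ∉ M → ∑ χ, a χ * r u⁻¹ χ = ∑ χ, a χ * r u χ) ∧
    ∃ u, u ∉ M ∧ ∑ χ, a χ * r u χ ∉ V.nonunits

/-- The rows of `Q` are, up to sign, `f` basic rows or their sum. -/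
def BSA {X : Type} (Q : Matrix X X ℂ) (N n m f : ℕ) : Prop :=
  ∃ (ψ : ℕ → X) (δ : ℕ → ℂ), (∀ j, δ j = 1 ∨ δ j = -1) ∧
    (∀ i < f, ∀ j < f, (N : ℂ) * (δ i * δ j * Q (ψ i) (ψ j)) = (if i = j then (n : ℂ) else 0) - m) ∧
    (∀ χ, ∃ s : ℂ, (s = 1 ∨ s = -1) ∧ ((∃ j < f, ∀ θ, Q χ θ = s * (δ j * Q (ψ j) θ)) ∨
      ∀ θ, Q χ θ = s * ∑ j ∈ range f, δ j * Q (ψ j) θ)) ∧
    ∃ χ, ∀ θ, Q χ θ = ∑ j ∈ range f, δ j * Q (ψ j) θ

section comm
variable {E D X : Type} [Group E] [CommGroup D]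

/-- The action on characters. -/
def da (φ : E →* MulAut D) (g : E) (l : Ch D) : Ch D := letI := dualAct φ; g • l

lemma cv_da (φ : E →* MulAut D) (g : E) (l : Ch D) (d : D) :
    cv (da φ g l) d = cv l (φ g⁻¹ d) := rfl

/-- The order of the stabiliser of a character. -/
noncomputable def stk (φ : E →* MulAut D) (l : Ch D) : ℕ := Nat.card {g : E // da φ g l = l}

/-- The characters that are trivial on `M`. -/
def perp (M : Subgroup D) : AddSubgroup (Ch D) where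
  carrier := {l | ∀ d ∈ M, cv l d = 1}
  zero_mem' := fun _ _ => rfl
  add_mem' := fun {a b} ha hb d hd => by
    have h1 := ha d hd
    have h2 := hb d hd
    rw [cv] at h1 h2 ⊢
    rw [AddChar.add_apply, h1, h2, mul_one]
  neg_mem' := fun {a} ha d hd => by
    have h1 := ha d⁻¹ (M.inv_mem hd)
    rw [cv] at h1 ⊢
    rw [AddChar.neg_apply, ← ofMul_inv, h1]

lemma mem_perp {M : Subgroup D} {l : Ch D} : l ∈ perp M ↔ ∀ d ∈ M, cv l d = 1 := Iff.rfl

variable [Fintype D]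

open Classical in
/-- Fourier coefficients of the function `ε r` extended by zero on `M`. -/
noncomputable def tf (M : Subgroup D) (ε : D → ℂ) (r : D → X → ℂ) (χ : X) (l : Ch D) : ℂ :=
  fc (fun d => if d ∈ M then 0 else ε d * r d χ) l

/-- A sign function that makes `r` integral along the cosets of `perp M`. -/
structure Eps (φ : E →* MulAut D) (M : Subgroup D) (r : D → X → ℂ) (ε : D → ℂ) : Prop where
  sign : ∀ u, ε u = 1 ∨ ε u = -1
  inv : ∀ g u, u ∉ M → ε (φ g u) = ε u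
  gen : ∀ u v, u ∉ M → Subgroup.zpowers v = Subgroup.zpowers u → ε v = ε u
  int : ∀ χ l, ∀ n ∈ perp M, ∃ z : ℤ, tf M ε r χ l - tf M ε r χ (l + n) = z

omit [Fintype D] in
/-- The function `ε r` is constant on the cosets of `M` outside `M`. -/
def Flat (M : Subgroup D) (ε : D → ℂ) (r : D → X → ℂ) (χ : X) : Prop :=
  ∀ u, u ∉ M → ∀ z ∈ M, ε (u * z) * r (u * z) χ = ε u * r u χ

end comm

end Pool.Agent.Lib.MP_b6945b_al.Kx
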