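import Pool.Agent.Lib.MP_b6945b_al.Kx.YGS

set_option autoImplicit false

/-!
Congruences and extension of characters.
-/

namespace Pool.Agent.Lib.MP_b6945b_al.Kx

open Bi Finset
open scoped ComplexConjugate

variable {D : Type} [CommGroup D] [Fintype D] {S : Subring ℂ} {f g : D → ℂ}

lemma ygt_mul {V : ValuationSubring ℂ} {a b : ℂ} (ha : a ∈ V) (hb : b ∈ V.nonunits) :
    a * b ∈ V.nonunits := by
  rw [V.mem_nonunits_iff] at hb ⊢
  rw [map_mul]
  exact lt_of_le_of_lt (mul_le_of_le_one_left' ((V.valuation_le_one_iff a).2 ha)) hb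

lemma ygt_of_pow {V : ValuationSubring ℂ} {a : ℂ} {k : ℕ} (h : a ^ k ∈ V.nonunits) :
    a ∈ V.nonunits := by
  rw [V.mem_nonunits_iff] at h ⊢
  rw [map_pow] at h
  by_contra h1
  exact absurd h (not_lt.2 (one_le_pow_of_one_le' (not_lt.1 h1) k))

lemma ygt_one {V : ValuationSubring ℂ} : (1 : ℂ) ∉ V.nonunits := by
  rw [V.mem_nonunits_iff, map_one]
  exact lt_irrefl _

lemma ygt_unit {V : ValuationSubring ℂ} {p : ℕ} (hq : p.Prime) (hp : (p : ℂ) ∈ V.nonunits)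
    {z : ℤ} (hz : ¬ (p : ℤ) ∣ z) : (z : ℂ) ∉ V.nonunits := fun h => by
  obtain ⟨a, b, e⟩ := (Nat.prime_iff_prime_int.1 hq).irreducible.coprime_iff_not_dvd.2 hz
  have e1 : (a : ℂ) * p + b * z = 1 := by exact_mod_cast e
  exact ygt_one (e1 ▸ add_mem (ygt_mul (intCast_mem V a) hp) (ygt_mul (intCast_mem V b) h))

lemma ygt_inv {V : ValuationSubring ℂ} {a : ℂ} (h : a ∉ V.nonunits) : a ≠ 0 ∧ a⁻¹ ∈ V := by
  rw [V.mem_nonunits_iff_or, not_or, not_not] at h
  exact h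

omit [Fintype D] in
lemma ygt_pow (l : Ch D) (u : D) (n : ℕ) : cv l (u ^ n) = cv l u ^ n := by
  induction n with
  | zero => rw [pow_zero, pow_zero, cv_one]
  | succ n ih => rw [pow_succ, pow_succ, cv_mul, ih]

lemma ygt_sub_one {V : ValuationSubring ℂ} {p : ℕ} (hq : p.Prime) (hp : (p : ℂ) ∈ V.nonunits)
    (hD : IsPGroup p D) (l : Ch D) (u : D) : cv l u - 1 ∈ V.nonunits := by
  obtain ⟨k, hk⟩ := hD u
  have h1 : cv l u ^ p ^ k = 1 := by rw [← ygt_pow, hk, cv_one]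
  have hz : cv l u - 1 ∈ V := sub_mem (mem_of_integral V (cv_int l u)) (one_mem V)
  obtain ⟨r, hr⟩ := exists_add_pow_prime_pow_eq hq (⟨cv l u - 1, hz⟩ : V) 1 k
  have h2 : (cv l u - 1 + 1) ^ p ^ k =
      (cv l u - 1) ^ p ^ k + 1 ^ p ^ k + p * (cv l u - 1) * 1 * (r : ℂ) := by
    have h4 := congrArg V.subtype hr
    simp only [map_add, map_mul, map_pow, map_one, map_natCast] at h4
    exact h4
  rw [sub_add_cancel, h1, one_pow] at h2
  refine ygt_of_pow (k := p ^ k) ?_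
  have h3 : (cv l u - 1) ^ p ^ k = (-((cv l u - 1) * r)) * p := by linear_combination -h2
  rw [h3]
  exact ygt_mul (neg_mem (mul_mem hz r.2)) hp

lemma GS.cong {V : ValuationSubring ℂ} {p : ℕ} (hq : p.Prime) (hp : (p : ℂ) ∈ V.nonunits)
    (hD : IsPGroup p D) (h : GS V.toSubring f) (u v : D) : f u - f v ∈ V.nonunits := by
  rw [fc_inv f u, fc_inv f v, ← Finset.sum_sub_distrib]
  refine sum_mem fun l _ => ?_
  have e : fc f l * cv l u - fc f l * cv l v = fc f l * ((cv l u - 1) - (cv l v - 1)) := by ring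
  rw [e]
  exact ygt_mul (h l) (sub_mem (ygt_sub_one hq hp hD l u) (ygt_sub_one hq hp hD l v))

lemma ygt_gen {p : ℕ} (hq : p.Prime) (hD : IsPGroup p D) {u : D} (hu : u ≠ 1) (v : D) :
    Subgroup.zpowers v = Subgroup.zpowers u ↔
      v ∈ Subgroup.zpowers u ∧ v ∉ Subgroup.zpowers (u ^ p) := by
  have : Fact p.Prime := ⟨hq⟩
  obtain ⟨k, hk⟩ := (IsPGroup.iff_orderOf.1 hD) u
  constructor
  · intro h
    refine ⟨h ▸ Subgroup.mem_zpowers v, fun h1 => ?_⟩
    have h2 : u ∈ Subgroup.zpowers (u ^ p) :=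
      (Subgroup.zpowers_le.2 h1) (h ▸ Subgroup.mem_zpowers u)
    rw [mem_zpowers_pow_iff, hk] at h2
    rcases k with _ | k
    · exact hu (orderOf_eq_one_iff.1 hk)
    · exact hq.ne_one (Nat.eq_one_of_dvd_coprimes h2 dvd_rfl (dvd_pow_self p k.succ_ne_zero))
  · rintro ⟨h1, h2⟩
    obtain ⟨n, rfl⟩ := (mem_powers_iff_mem_zpowers.2 h1)
    refine le_antisymm (Subgroup.zpowers_le.2 h1) (Subgroup.zpowers_le.2 ?_)
    rw [mem_zpowers_pow_iff, hk]
    refine Nat.Coprime.pow_right k (hq.coprime_iff_not_dvd.2 ?_).symm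
    rintro ⟨c, rfl⟩
    exact h2 (by beta_reduce; rw [pow_mul]; exact Subgroup.npow_mem_zpowers _ c)

open Classical in
lemma GS.sum_gen {p : ℕ} (hq : p.Prime) (hD : IsPGroup p D) (h : GS ⊥ f) (u : D) :
    ∃ z : ℤ, ∑ v, (if Subgroup.zpowers v = Subgroup.zpowers u then f v else 0) = z := by
  have k0 : ∀ (M : Subgroup D) (l : Ch D),
      ∑ d, (if d ∈ M then cv l d else 0) ∈ (⊥ : Subring ℂ) := fun M l => by
    rw [sum_sub_cv]
    split_ifs
    · exact natCast_mem _ _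
    · exact zero_mem _
  have k1 : ∀ l : Ch D, ∑ v, (if Subgroup.zpowers v = Subgroup.zpowers u then cv l v else 0) ∈
      (⊥ : Subring ℂ) := fun l => by
    by_cases hu : u = 1
    · have e : ∀ v : D, Subgroup.zpowers v = Subgroup.zpowers u ↔ v ∈ (⊥ : Subgroup D) :=
        fun v => by rw [hu, Subgroup.zpowers_one_eq_bot, Subgroup.zpowers_eq_bot, Subgroup.mem_bot]
      simp only [e]
      exact k0 ⊥ l
    · have e : ∀ v : D, (if Subgroup.zpowers v = Subgroup.zpowers u then cv l v else 0) =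
          (if v ∈ Subgroup.zpowers u then cv l v else 0) -
            (if v ∈ Subgroup.zpowers (u ^ p) then cv l v else 0) := fun v => by
        simp only [ygt_gen hq hD hu v]
        by_cases h1 : v ∈ Subgroup.zpowers (u ^ p)
        · have h2 : v ∈ Subgroup.zpowers u :=
            (Subgroup.zpowers_le.2 (Subgroup.npow_mem_zpowers u p)) h1
          simp [h1, h2]
        · simp [h1]
      simp only [e]
      rw [Finset.sum_sub_distrib]
      exact sub_mem (k0 _ l) (k0 _ l)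
  have e : ∑ v, (if Subgroup.zpowers v = Subgroup.zpowers u then f v else 0) =
      ∑ l : Ch D, fc f l *
        ∑ v, (if Subgroup.zpowers v = Subgroup.zpowers u then cv l v else 0) := by
    simp only [Finset.mul_sum]
    rw [Finset.sum_comm]
    refine Finset.sum_congr rfl fun v _ => ?_
    split_ifs
    · exact fc_inv f v
    · simp
  obtain ⟨z, hz⟩ := Subring.mem_bot.1 (e ▸ sum_mem fun l _ => mul_mem (h l) (k1 l) :
    ∑ v, (if Subgroup.zpowers v = Subgroup.zpowers u then f v else 0) ∈ (⊥ : Subring ℂ))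
  exact ⟨z, hz.symm⟩

lemma exists_ch (Z : Subgroup D) (ν : D → ℂ) (h1 : ν 1 = 1)
    (hm : ∀ a ∈ Z, ∀ b ∈ Z, ν (a * b) = ν a * ν b) : ∃ l : Ch D, ∀ v ∈ Z, cv l v = ν v := by
  let χ : Z →* ℂ := ⟨⟨fun a => ν a, h1⟩, fun a b => hm a a.2 b b.2⟩
  have : NeZero (Monoid.exponent D : ℂ) := ⟨Nat.cast_ne_zero.2 Monoid.exponent_ne_zero_of_finite⟩
  obtain ⟨ψ, hψ⟩ := MonoidHom.domRestrict_surjective ℂ Z χ.toHomUnits
  refine ⟨⟨fun a => (ψ a.toMul : ℂ), by simp, fun a b => by simp⟩, fun v hv => ?_⟩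
  exact congrArg Units.val (DFunLike.congr_fun hψ ⟨v, hv⟩)

lemma exists_gs {D : Type} [Group D] [Fintype D] (hc : ∀ a b : D, a * b = b * a) (Z : Subgroup D)
    {ι : Type} (t : Finset ι) (a : ι → ℤ) (ν : ι → D → ℂ) (h1 : ∀ i, ν i 1 = 1)
    (hm : ∀ i, ∀ a ∈ Z, ∀ b ∈ Z, ν i (a * b) = ν i a * ν i b) :
    ∃ ξ : D → ℂ, GS ⊥ ξ ∧ ∀ v ∈ Z, ξ v = ∑ i ∈ t, (a i : ℂ) * ν i v := by
  let _ : CommGroup D := { ‹Group D› with mul_comm := hc }
  choose l hl using fun i => exists_ch Z (ν i) (h1 i) (hm i)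
  refine ⟨fun d => ∑ i ∈ t, (a i : ℂ) * cv (l i) d,
    GS.sum t fun i _ => (GS.chr (l i)).smul (intCast_mem _ _), fun v hv => ?_⟩
  exact Finset.sum_congr rfl fun i _ => by rw [hl i v hv]

lemma ygt_aeval {V : ValuationSubring ℂ} {x : ℂ} (hx : x ∈ V) (q : Polynomial ℤ) :
    Polynomial.aeval x q ∈ V := by
  rw [Polynomial.aeval_eq_sum_range]
  exact sum_mem fun i _ => zsmul_mem (pow_mem hx i) _

lemma ygt_ind {V : ValuationSubring ℂ} {p : ℕ} (hq : p.Prime) (hp : (p : ℂ) ∈ V.nonunits)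
    {x : ℂ} (hx : x ∈ V.nonunits) (n : ℕ) : ∀ (q : Polynomial ℤ) (j : ℕ), ¬ (p : ℤ) ∣ q.coeff n →
      (∃ v ∈ V, Polynomial.aeval x q * x ^ j = p * v) → ∃ k : ℕ, ∃ v ∈ V, x ^ k = p * v := by
  have hx' : x ∈ V := V.nonunits_subset hx
  have e : ∀ q : Polynomial ℤ,
      Polynomial.aeval x q = Polynomial.aeval x q.divX * x + (q.coeff 0 : ℂ) := fun q => by
    conv_lhs => rw [← Polynomial.divX_mul_X_add q]
    simp
  have k0 : ∀ (q : Polynomial ℤ) (j : ℕ), ¬ (p : ℤ) ∣ q.coeff 0 →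
      (∃ v ∈ V, Polynomial.aeval x q * x ^ j = p * v) → ∃ k : ℕ, ∃ v ∈ V, x ^ k = p * v := by
    rintro q j h0 ⟨v, hv, h⟩
    have h1 : Polynomial.aeval x q ∉ V.nonunits := fun h1 => ygt_unit hq hp h0 (by
      have h2 := sub_mem h1 (ygt_mul (ygt_aeval hx' q.divX) hx)
      rwa [e q, add_sub_cancel_left] at h2)
    obtain ⟨h2, h3⟩ := ygt_inv h1
    refine ⟨j, (Polynomial.aeval x q)⁻¹ * v, mul_mem h3 hv, ?_⟩
    rw [mul_left_comm, ← h, inv_mul_cancel_left₀ h2]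
  induction n with
  | zero => exact k0
  | succ n ih =>
    intro q j hn hv
    by_cases h0 : (p : ℤ) ∣ q.coeff 0
    · obtain ⟨c, hc⟩ := h0
      obtain ⟨v, hv, h⟩ := hv
      refine ih q.divX (j + 1) (by rwa [Polynomial.coeff_divX])
        ⟨v - c * x ^ j, sub_mem hv (mul_mem (intCast_mem V c) (pow_mem hx' j)), ?_⟩
      rw [e q, hc] at h
      push_cast at h
      linear_combination h
    · exact k0 q j h0 hv

lemma pow_mem_of_integral {V : ValuationSubring ℂ} {p : ℕ} (hq : p.Prime)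
    (hp : (p : ℂ) ∈ V.nonunits) {x : ℂ} (h : IsIntegral ℤ x) (hx : x ∈ V.nonunits) :
    ∃ k : ℕ, ∃ v ∈ V, x ^ k = p * v := by
  obtain ⟨q, hm, hq0⟩ := h
  refine ygt_ind hq hp hx q.natDegree q 0 ?_ ⟨0, zero_mem V, ?_⟩
  · rw [hm.coeff_natDegree]
    exact (Nat.prime_iff_prime_int.1 hq).not_dvd_one
  · rw [Polynomial.aeval_def, hq0, zero_mul, mul_zero]

lemma dvd_of_mem {V : ValuationSubring ℂ} {p : ℕ} (hq : p.Prime) (hp : (p : ℂ) ∈ V.nonunits)
    {k : ℕ} {z : ℤ} (h : ((p : ℂ) ^ k)⁻¹ * z ∈ V) : (p : ℤ) ^ k ∣ z := by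
  have h0 : (p : ℂ) ≠ 0 := Nat.cast_ne_zero.2 hq.ne_zero
  induction k generalizing z with
  | zero => rw [pow_zero]; exact one_dvd z
  | succ k ih =>
    have h1 : (p : ℤ) ∣ z := by
      by_contra h1
      refine ygt_unit hq hp h1 ?_
      have e : (z : ℂ) = (((p : ℂ) ^ (k + 1))⁻¹ * z * p ^ k) * p := by
        field_simp
        ring
      rw [e]
      exact ygt_mul (mul_mem h (pow_mem (natCast_mem V p) k)) hp
    obtain ⟨c, rfl⟩ := h1
    have e : ((p : ℂ) ^ (k + 1))⁻¹ * ((p : ℤ) * c : ℤ) = ((p : ℂ) ^ k)⁻¹ * c := by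
      push_cast
      field_simp
      ring
    rw [e] at h
    rw [pow_succ']
    exact mul_dvd_mul_left _ (ih h)

end Pool.Agent.Lib.MP_b6945b_al.Kx
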