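import Pool.Agent.Lib.MP_b6945b_al.Kx.YProd
import Pool.Agent.Lib.MP_b6945b_al.Kx.YGT

set_option autoImplicit false

/-!
The sign function.
-/

namespace Pool.Agent.Lib.MP_b6945b_al.Kx

open Bi Finset
open scoped ComplexConjugate

variable {p : ℕ} {V : ValuationSubring ℂ} {E D X : Type} [Group E] [Fintype E] [CommGroup D]
  [Fintype D] [Fintype X] [DecidableEq X] {φ : E →* MulAut D} {P : D → Matrix X X ℂ}
  {M : Subgroup D} {r : D → X → ℂ} {ε : D → ℂ}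

lemma yeps_pow {A : Type} [CommRing A] (hp : p.Prime) {x : A} (z : A) {k n : ℕ} (j : ℕ)
    (h : (p : A) ∣ x ^ k) (hn : k ≤ n) :
    (p : A) ^ j ∣ (z + x) ^ p ^ (n + j) - z ^ p ^ (n + j) := by
  obtain ⟨t, ht⟩ := exists_add_pow_prime_pow_eq hp z x n
  have h1 : (p : A) ∣ (z + x) ^ p ^ n - z ^ p ^ n := by
    rw [ht, add_assoc, add_sub_cancel_left, mul_assoc, mul_assoc]
    exact dvd_add (h.trans (pow_dvd_pow x (hn.trans (Nat.lt_pow_self hp.one_lt).le)))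
      (dvd_mul_right _ _)
  have h2 := dvd_sub_pow_of_dvd_sub h1 j
  rw [← pow_mul, ← pow_mul, ← pow_add] at h2
  exact (pow_dvd_pow _ (Nat.le_succ j)).trans h2

lemma yeps_pow' (hp : p.Prime) {x z v : ℂ} (hx : x ∈ V) (hz : z ∈ V) (hv : v ∈ V) {k n : ℕ}
    (j : ℕ) (h : x ^ k = p * v) (hn : k ≤ n) :
    ∃ w ∈ V, (z + x) ^ p ^ (n + j) = z ^ p ^ (n + j) + p ^ j * w := by
  obtain ⟨w, hw⟩ := yeps_pow (A := V) hp (x := ⟨x, hx⟩) ⟨z, hz⟩ j
    ⟨⟨v, hv⟩, Subtype.ext (by simpa using h)⟩ hn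
  refine ⟨w, w.2, ?_⟩
  have h1 := congrArg V.subtype hw
  simp only [map_sub, map_pow, map_add, map_mul, map_natCast, ValuationSubring.coe_subtype] at h1
  exact eq_add_of_sub_eq' h1

lemma yeps_or {x y : ℂ} (h : x * y ∈ V.nonunits) : x ∈ V.nonunits ∨ y ∈ V.nonunits := by
  by_contra h1
  simp only [ValuationSubring.mem_nonunits_iff, not_or, not_lt, map_mul] at h h1
  exact absurd h (not_lt.2 (one_le_mul h1.1 h1.2))

open Classical in
lemma yeps_int (h : LS p V φ P M r)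
    (hs : ∀ u, ε u = 1 ∨ ε u = -1)
    (hg : ∀ u v, u ∉ M → Subgroup.zpowers v = Subgroup.zpowers u → ε v = ε u) (χ : X) (l : Ch D) :
    ∃ z : ℤ, ∑ d, (if d ∈ M then 0 else ε d * r d χ) * cv l d⁻¹ = z := by
  rw [← Subring.mem_bot.trans (exists_congr fun _ => eq_comm),
    ← sum_fiberwise_of_maps_to (g := fun d : D => Subgroup.zpowers d)
      (fun d hd => mem_image_of_mem _ hd)]
  refine Subring.sum_mem _ fun W hW => ?_
  obtain ⟨u, -, rfl⟩ := mem_image.1 hW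
  have hM : ∀ {a b : D}, Subgroup.zpowers a = Subgroup.zpowers b → b ∈ M → a ∈ M :=
    fun {a b} e hb => (Subgroup.zpowers_le.2 hb) (e ▸ Subgroup.mem_zpowers a)
  by_cases hu : u ∈ M
  · rw [sum_eq_zero fun d hd => by rw [if_pos (hM (mem_filter.1 hd).2 hu), zero_mul]]
    exact zero_mem _
  obtain ⟨ξ, m, hξ⟩ := h.loc u hu
  obtain ⟨z, hz⟩ := GS.sum_gen h.prime h.ms.pD
    ((GS.sum (range (stb φ u)) fun j _ => hξ.gs χ j).mul (GS.chr (-l))) u
  rw [← sum_filter] at hz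
  rw [sum_congr rfl (g := fun d => ε u * ((∑ j ∈ range (stb φ u), ξ χ j d) * cv (-l) d))
    fun d hd => by
      have e := (mem_filter.1 hd).2
      rw [if_neg fun h1 => hu (hM e.symm h1), hg u d hu e, hξ.sum d e, cv_neg, mul_assoc],
    ← mul_sum, hz]
  refine mul_mem ?_ (intCast_mem _ z)
  rcases hs u with e | e <;> rw [e]
  exacts [one_mem _, neg_mem (one_mem _)]

theorem LS.eps (h : LS p V φ P M r) : ∃ ε : D → ℂ, Eps φ M r ε := by
  classical
  have : Fact p.Prime := ⟨h.prime⟩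
  obtain ⟨a, ha, hsym, u₀, hu₀, hz⟩ := h.kap
  obtain ⟨κ, hκ⟩ : ∃ κ : D → ℂ, ∀ u, κ u = ∑ χ, a χ * r u χ := ⟨_, fun _ => rfl⟩
  rw [← hκ] at hz
  have haV : ∀ χ, a χ ∈ V.toSubring := fun χ => mem_of_integral V (ha χ)
  have hκi : ∀ u, u ∉ M → IsIntegral ℤ (κ u) := fun u hu => by
    rw [hκ]
    exact IsIntegral.sum _ fun χ _ => (ha χ).mul (h.integral hu χ)
  have cong : ∀ {f : D → ℂ}, GS V.toSubring f → ∀ u v, f u - f v ∈ V.nonunits :=
    fun hf => GS.cong h.prime h.nonunit h.ms.pD hf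
  choose F hF hF' using h.prod
  obtain ⟨R, hR, hR'⟩ : ∃ R : X → D → ℂ, (∀ ψ, GS V.toSubring (R ψ)) ∧
      ∀ ψ u, u ∉ M → κ u * r u ψ = R ψ u := by
    refine ⟨fun ψ d => ∑ χ, a χ * F ψ χ d, fun ψ =>
      GS.sum _ fun χ _ => ((hF ψ χ).mono bot_le).smul (haV χ), fun ψ u hu => ?_⟩
    rw [hκ, ← hsym u hu, sum_mul]
    exact sum_congr rfl fun χ _ => by rw [← hF' ψ χ u hu, h.conj_eq hu, mul_assoc, mul_comm (r u ψ)]
  obtain ⟨K, hK, hK'⟩ : ∃ K : D → ℂ, GS V.toSubring K ∧ ∀ u, u ∉ M → κ u ^ 2 = K u := by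
    refine ⟨fun d => ∑ ψ, a ψ * R ψ d, GS.sum _ fun ψ _ => (hR ψ).smul (haV ψ), fun u hu => ?_⟩
    simp only [← hR' _ u hu, mul_left_comm (a _), ← mul_sum, ← hκ, sq]
  obtain ⟨ε, hε⟩ : ∃ ε : D → ℂ, ∀ u, ε u = if κ u - κ u₀ ∈ V.nonunits then 1 else -1 :=
    ⟨_, fun _ => rfl⟩
  have hs : ∀ u, ε u = 1 ∨ ε u = -1 := fun u => by
    rw [hε]
    split_ifs
    exacts [.inl rfl, .inr rfl]
  have hg : ∀ u v, u ∉ M → Subgroup.zpowers v = Subgroup.zpowers u → ε v = ε u := by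
    intro u v hu e
    obtain ⟨ξ, m, hξ⟩ := h.loc u hu
    have h1 := cong (GS.sum univ fun χ _ =>
      ((GS.sum (range (stb φ u)) fun j _ => hξ.gs χ j).mono bot_le).smul (haV χ)) v u
    simp only [← hξ.sum v e, ← hξ.sum u rfl, ← hκ] at h1
    rw [hε, hε]
    refine if_congr ⟨fun h2 => ?_, fun h2 => ?_⟩ rfl rfl
    · simpa using sub_mem h2 h1
    · simpa using add_mem h1 h2
  have hεi : ∀ u, IsIntegral ℤ (ε u) := fun u => by
    rcases hs u with e | e <;> rw [e]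
    exacts [isIntegral_one, isIntegral_one.neg]
  have hx : ∀ u, u ∉ M → ε u * κ u - κ u₀ ∈ V.nonunits := fun u hu => by
    rw [hε]
    split_ifs with h1
    · rwa [one_mul]
    · have h2 := cong hK u u₀
      rw [← hK' u hu, ← hK' u₀ hu₀, sq_sub_sq] at h2
      have h3 := neg_mem ((yeps_or h2).resolve_right h1)
      rwa [neg_add', ← neg_one_mul] at h3
  have hk : ∀ u, ∃ k : ℕ, u ∉ M → ∃ v ∈ V, (ε u * κ u - κ u₀) ^ k = p * v := fun u => by
    by_cases hu : u ∈ M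
    · exact ⟨0, fun h1 => (h1 hu).elim⟩
    · obtain ⟨k, h1⟩ := pow_mem_of_integral h.prime h.nonunit
        (((hεi u).mul (hκi u hu)).sub (hκi u₀ hu₀)) (hx u hu)
      exact ⟨k, fun _ => h1⟩
  choose k hk using hk
  obtain ⟨j, hj⟩ := IsPGroup.iff_card.1 h.ms.pD
  have hj' : (Fintype.card D : ℂ) = p ^ j := by rw [← Nat.card_eq_fintype_card, hj, Nat.cast_pow]
  obtain ⟨s, hs'⟩ : Odd (p ^ (univ.sup k + j)) := (h.prime.odd_of_ne_two h.odd).pow
  have hw : ∀ u, ∃ w ∈ V, u ∉ M →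
      (ε u * κ u) ^ (2 * s + 1) = κ u₀ ^ (2 * s + 1) + Fintype.card D * w := fun u => by
    by_cases hu : u ∈ M
    · exact ⟨0, zero_mem _, fun h1 => (h1 hu).elim⟩
    · obtain ⟨v, hv, h1⟩ := hk u hu
      obtain ⟨w, h2, h3⟩ := yeps_pow' h.prime (V.nonunits_le (hx u hu))
        (mem_of_integral V (hκi u₀ hu₀)) hv j h1 (le_sup (mem_univ u))
      rw [add_sub_cancel, hs', ← hj'] at h3
      exact ⟨w, h2, fun _ => h3⟩
  choose w hw hw' using hw
  rw [ValuationSubring.mem_nonunits_iff_or, not_or, not_not] at hz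
  refine ⟨ε, hs, fun g u hu => by rw [hε, hε, hκ, hκ u, h.inv g u hu], hg, fun χ l n hn => ?_⟩
  have hT : GS V.toSubring fun d => (κ u₀)⁻¹ ^ (2 * s + 1) * (R χ d * K d ^ s -
      (Fintype.card D : ℂ) * if d ∈ M then 0 else w d * (ε d * r d χ)) :=
    (((hR χ).mul (hK.pow s)).sub (GS.big fun d => by
      split_ifs with hd
      exacts [zero_mem _, mul_mem (hw d) (mem_of_integral V ((hεi d).mul (h.integral hd χ)))])).smul
      (pow_mem hz.2 _)
  have h1 := sub_mem (hT l) (hT (l + n))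
  obtain ⟨z, h2⟩ := yeps_int h hs hg χ l
  obtain ⟨z', h3⟩ := yeps_int h hs hg χ (l + n)
  have h4 : tf M ε r χ l - tf M ε r χ (l + n) = ((p : ℂ) ^ j)⁻¹ * (z - z' : ℤ) := by
    rw [tf, tf, fc, fc, h2, h3, hj', Int.cast_sub, mul_sub]
  obtain ⟨c, hc⟩ := dvd_of_mem h.prime h.nonunit (k := j) (z := z - z') (by
    rw [← h4]
    refine (congrArg (· ∈ V.toSubring) ?_).mp h1
    rw [tf, tf, fc, fc, fc, fc, ← mul_sub, ← mul_sub, ← sum_sub_distrib, ← sum_sub_distrib]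
    refine congrArg _ (sum_congr rfl fun d _ => ?_)
    by_cases hd : d ∈ M
    · rw [cv_add, hn _ (M.inv_mem hd), mul_one, sub_self, sub_self]
    · have e1 : ε d ^ 2 = 1 := by rcases hs d with e | e <;> rw [e] <;> norm_num
      have e2 : (κ u₀)⁻¹ ^ (2 * s + 1) * (R χ d * K d ^ s -
          (Fintype.card D : ℂ) * (w d * (ε d * r d χ))) = ε d * r d χ := by
        have e3 := hw' d hd
        rw [mul_pow, pow_succ (ε d), pow_mul (ε d), e1, one_pow, one_mul, pow_succ (κ d),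
          pow_mul (κ d), hK' d hd] at e3
        rw [inv_pow, inv_mul_eq_iff_eq_mul₀ (pow_ne_zero _ hz.1), ← hR' χ d hd]
        linear_combination (ε d * r d χ) * e3 - κ d * r d χ * K d ^ s * e1
      simp only [if_neg hd, e2])
  refine ⟨c, ?_⟩
  rw [h4, hc]
  push_cast
  exact inv_mul_cancel_left₀ (pow_ne_zero _ (Nat.cast_ne_zero.2 h.prime.ne_zero)) _

end Pool.Agent.Lib.MP_b6945b_al.Kx
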