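import Pool.Agent.Lib.MP_b6945b_al.Kx.YDef
import Pool.Agent.Lib.MP_b6945b_al.Bi.AFour2

set_option autoImplicit false

/-!
Functions with Fourier coefficients in a subring.
-/

namespace Pool.Agent.Lib.MP_b6945b_al.Kx

open Bi Finset
open scoped ComplexConjugate

variable {D : Type} [CommGroup D] [Fintype D] {S : Subring ℂ} {f g : D → ℂ}

omit [Fintype D] in
lemma cv_mul (l : Ch D) (a b : D) : cv l (a * b) = cv l a * cv l b := by
  rw [cv, cv, cv, ofMul_mul, AddChar.map_add_eq_mul]

omit [Fintype D] in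
lemma cv_one (l : Ch D) : cv l 1 = 1 := by
  rw [cv, ofMul_one, AddChar.map_zero_eq_one]

omit [Fintype D] in
lemma cv_add (l n : Ch D) (a : D) : cv (l + n) a = cv l a * cv n a := by
  rw [cv, cv, cv, AddChar.add_apply]

omit [Fintype D] in
lemma cv_zero (a : D) : cv (0 : Ch D) a = 1 := rfl

omit [Fintype D] in
lemma cv_neg (l : Ch D) (a : D) : cv (-l) a = cv l a⁻¹ := by
  rw [cv, cv, AddChar.neg_apply, ofMul_inv]

lemma cv_conj (l : Ch D) (a : D) : conj (cv l a) = cv l a⁻¹ := by
  rw [cv, cv, ofMul_inv, AddChar.map_neg_eq_conj]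

lemma cv_int (l : Ch D) (a : D) : IsIntegral ℤ (cv l a) := by
  refine IsIntegral.of_pow (n := Fintype.card D) Fintype.card_pos ?_
  rw [cv, ← AddChar.map_nsmul_eq_pow, ← ofMul_pow, pow_card_eq_one, ofMul_one,
    AddChar.map_zero_eq_one]
  exact isIntegral_one

open Classical in
lemma ygs_sum_ch (d : D) : ∑ l : Ch D, cv l d = if d = 1 then (Fintype.card D : ℂ) else 0 := by
  have h := AddChar.sum_apply_eq_ite (Additive.ofMul d)
  rw [Fintype.card_additive] at h
  exact h.trans (if_congr ofMul_eq_zero rfl rfl)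

open Classical in
lemma ygs_sum_el (l : Ch D) : ∑ d, cv l d = if l = 0 then (Fintype.card D : ℂ) else 0 := by
  have h := AddChar.sum_eq_ite l
  rw [Fintype.card_additive] at h
  rw [← h]
  exact Fintype.sum_equiv Additive.ofMul _ _ fun _ => rfl

lemma ygs_card_ne : (Fintype.card D : ℂ) ≠ 0 := Nat.cast_ne_zero.2 Fintype.card_ne_zero

lemma fc_inv (f : D → ℂ) (d : D) : f d = ∑ l, fc f l * cv l d := by
  classical
  simp only [fc, mul_assoc, ← Finset.mul_sum, Finset.sum_mul, ← cv_mul]
  rw [Finset.sum_comm]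
  simp only [← Finset.mul_sum, ygs_sum_ch, inv_mul_eq_one, mul_ite, mul_zero, Finset.sum_ite_eq',
    Finset.mem_univ, if_true]
  rw [mul_comm (f d), inv_mul_cancel_left₀ ygs_card_ne]

open Classical in
lemma fc_cv (l n : Ch D) : fc (cv l) n = if l = n then 1 else 0 := by
  simp only [fc, ← cv_neg, ← cv_add, ygs_sum_el, add_neg_eq_zero]
  split_ifs
  · exact inv_mul_cancel₀ ygs_card_ne
  · exact mul_zero _

open Classical in
lemma ygs_sub (M : Subgroup D) (l : Ch D) :
    ∑ d, (if d ∈ M then cv l d else 0) = if l ∈ perp M then (Nat.card M : ℂ) else 0 := by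
  split_ifs with h
  · rw [Finset.sum_congr rfl (g := fun d => if d ∈ M then (1 : ℂ) else 0) fun d _ => by
      split_ifs with hd
      · exact h d hd
      · rfl, Finset.sum_boole, Nat.card_eq_fintype_card, Fintype.card_subtype]
  · rw [mem_perp] at h
    push Not at h
    obtain ⟨a, ha, h1⟩ := h
    have h2 : ∑ d, (if d ∈ M then cv l d else 0) =
        (∑ d, (if d ∈ M then cv l d else 0)) * cv l a := by
      rw [Finset.sum_mul, ← Equiv.sum_comp (Equiv.mulRight a)]
      refine Finset.sum_congr rfl fun d _ => ?_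
      rw [Equiv.coe_mulRight, ite_mul, zero_mul, cv_mul]
      exact if_congr (M.mul_mem_cancel_right ha) rfl rfl
    exact (mul_eq_zero.1 (show (∑ d, (if d ∈ M then cv l d else 0)) * (cv l a - 1) = 0 by
      rw [mul_sub, ← h2, mul_one, sub_self])).resolve_right (sub_ne_zero.2 h1)

open Classical in
lemma sum_perp (M : Subgroup D) (d : D) :
    ∑ l : Ch D, (if l ∈ perp M then cv l d else 0) = if d ∈ M then (M.index : ℂ) else 0 := by
  have hM : (Nat.card M : ℂ) ≠ 0 := Nat.cast_ne_zero.2 Nat.card_pos.ne'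
  refine mul_left_cancel₀ hM ?_
  have h1 : ∀ l : Ch D, (Nat.card M : ℂ) * (if l ∈ perp M then cv l d else 0) =
      ∑ a, if a ∈ M then cv l (a * d) else 0 := fun l => by
    rw [mul_ite, mul_zero, ← ite_zero_mul, ← ygs_sub, Finset.sum_mul]
    exact Finset.sum_congr rfl fun a _ => by rw [ite_mul, zero_mul, cv_mul]
  rw [Finset.mul_sum, Finset.sum_congr rfl fun l _ => h1 l, Finset.sum_comm,
    Finset.sum_eq_single d⁻¹]
  · rw [inv_mul_cancel]
    by_cases hd : d ∈ M
    · simp only [M.inv_mem hd, hd, if_true, ygs_sum_ch]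
      rw [← Nat.cast_mul, M.card_mul_index, Nat.card_eq_fintype_card]
    · simp only [M.inv_mem_iff, hd, if_false, Finset.sum_const_zero, mul_zero]
  · intro a _ ha
    by_cases h : a ∈ M
    · simp only [h, if_true, ygs_sum_ch]
      exact if_neg fun e => ha (eq_inv_of_mul_eq_one_left e)
    · simp only [h, if_false, Finset.sum_const_zero]
  · exact fun h => absurd (Finset.mem_univ _) h

lemma card_perp' (M : Subgroup D) : Nat.card (perp M) = M.index := by
  classical
  have h := sum_perp M 1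
  simp only [cv_one, M.one_mem, if_true] at h
  rw [Finset.sum_boole] at h
  rw [Nat.card_eq_fintype_card, Fintype.card_subtype]
  exact_mod_cast h

open Classical in
lemma sum_sub_cv (M : Subgroup D) (l : Ch D) :
    ∑ d, (if d ∈ M then cv l d else 0) = if l ∈ perp M then (Nat.card M : ℂ) else 0 :=
  ygs_sub M l

lemma ygs_fc_add (f g : D → ℂ) (l : Ch D) : fc (fun d => f d + g d) l = fc f l + fc g l := by
  simp only [fc, add_mul, Finset.sum_add_distrib, mul_add]

lemma ygs_fc_sub (f g : D → ℂ) (l : Ch D) : fc (fun d => f d - g d) l = fc f l - fc g l := by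
  simp only [fc, sub_mul, Finset.sum_sub_distrib, mul_sub]

lemma ygs_fc_smul (s : ℂ) (f : D → ℂ) (l : Ch D) : fc (fun d => s * f d) l = s * fc f l := by
  simp only [fc, mul_assoc, ← Finset.mul_sum]
  exact mul_left_comm _ _ _

lemma ygs_fc_sum {ι : Type} (t : Finset ι) (F : ι → D → ℂ) (l : Ch D) :
    fc (fun d => ∑ i ∈ t, F i d) l = ∑ i ∈ t, fc (F i) l := by
  simp only [fc, Finset.sum_mul, ← Finset.mul_sum]
  rw [Finset.sum_comm]

lemma ygs_fc_shift (g : D → ℂ) (n l : Ch D) : fc (fun d => cv n d * g d) l = fc g (l - n) := by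
  rw [fc, fc]
  refine congrArg _ (Finset.sum_congr rfl fun d _ => ?_)
  rw [sub_eq_add_neg, cv_add, cv_neg, inv_inv]
  ring

lemma ygs_fc_mul (f g : D → ℂ) (l : Ch D) :
    fc (fun d => f d * g d) l = ∑ n, fc f n * fc g (l - n) := by
  have h : (fun d => f d * g d) = fun d => ∑ n, fc f n * (cv n d * g d) := funext fun d => by
    rw [fc_inv f d, Finset.sum_mul]
    exact Finset.sum_congr rfl fun n _ => mul_assoc _ _ _
  rw [h, ygs_fc_sum]
  exact Finset.sum_congr rfl fun n _ => by rw [ygs_fc_smul, ygs_fc_shift]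

lemma ygs_fc_inv (f : D → ℂ) (l : Ch D) : fc (fun d => f d⁻¹) l = fc f (-l) := by
  rw [fc, fc, ← Equiv.sum_comp (Equiv.inv D)]
  refine congrArg _ (Finset.sum_congr rfl fun d _ => ?_)
  rw [Equiv.inv_apply, cv_neg, inv_inv]

lemma ygs_chr (l : Ch D) : GS S (cv l) := fun n => by
  rw [fc_cv]
  split_ifs
  · exact S.one_mem
  · exact S.zero_mem

lemma GS.zero : GS S (fun _ : D => 0) := fun l => by
  simp only [fc, zero_mul, Finset.sum_const_zero, mul_zero]
  exact S.zero_mem

lemma GS.add (h : GS S f) (h' : GS S g) : GS S (fun d => f d + g d) := fun l => by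
  rw [ygs_fc_add]
  exact S.add_mem (h l) (h' l)

lemma GS.sub (h : GS S f) (h' : GS S g) : GS S (fun d => f d - g d) := fun l => by
  rw [ygs_fc_sub]
  exact S.sub_mem (h l) (h' l)

lemma GS.mul (h : GS S f) (h' : GS S g) : GS S (fun d => f d * g d) := fun l => by
  rw [ygs_fc_mul]
  exact S.sum_mem fun n _ => S.mul_mem (h n) (h' _)

lemma GS.pow (h : GS S f) (k : ℕ) : GS S (fun d => f d ^ k) := by
  induction k with
  | zero =>
    simp only [pow_zero]
    exact ygs_chr 0
  | succ k ih =>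
    simp only [pow_succ]
    exact ih.mul h

lemma GS.smul (h : GS S f) {s : ℂ} (hs : s ∈ S) : GS S (fun d => s * f d) :=
  fun l => by
    rw [ygs_fc_smul]
    exact S.mul_mem hs (h l)

lemma GS.sum {ι : Type} (t : Finset ι) {F : ι → D → ℂ} (h : ∀ i ∈ t, GS S (F i)) :
    GS S (fun d => ∑ i ∈ t, F i d) := fun l => by
  rw [ygs_fc_sum]
  exact S.sum_mem fun i hi => h i hi l

lemma GS.chr (l : Ch D) : GS S (cv l) := ygs_chr l

lemma GS.mono {S' : Subring ℂ} (h : GS S f) (hS : S ≤ S') : GS S' f := fun l => hS (h l)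

lemma GS.conj_eq (h : GS ⊥ f) (d : D) : conj (f d) = f d⁻¹ := by
  rw [fc_inv f d, fc_inv f d⁻¹, map_sum]
  refine Finset.sum_congr rfl fun l _ => ?_
  obtain ⟨z, hz⟩ := Subring.mem_bot.1 (h l)
  rw [map_mul, cv_conj, ← hz, map_intCast]

lemma GS.conj (h : GS ⊥ f) : GS ⊥ (fun d => conj (f d)) := fun l => by
  simp only [h.conj_eq]
  rw [ygs_fc_inv]
  exact h _

open Classical in
lemma GS.ind (W : Subgroup D) : GS S (fun d => if d ∈ W then (W.index : ℂ) else 0) := by
  simp only [← sum_perp]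
  refine GS.sum _ fun l _ => ?_
  by_cases hl : l ∈ perp W
  · simp only [hl, if_true]
    exact GS.chr l
  · simp only [hl, if_false]
    exact GS.zero

lemma GS.integral (h : GS ⊥ f) (d : D) : IsIntegral ℤ (f d) := by
  rw [fc_inv f d]
  refine IsIntegral.sum _ fun l _ => IsIntegral.mul ?_ (cv_int l d)
  obtain ⟨z, hz⟩ := Subring.mem_bot.1 (h l)
  rw [← hz]
  exact isIntegral_algebraMap

lemma mem_of_integral (V : ValuationSubring ℂ) {x : ℂ} (h : IsIntegral ℤ x) : x ∈ V := by
  obtain ⟨y, hy⟩ := IsIntegrallyClosed.isIntegral_iff.1 (h.tower_top (A := V))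
  rw [← hy]
  exact y.2

lemma GS.big {V : ValuationSubring ℂ} (h : ∀ d, f d ∈ V) :
    GS V.toSubring (fun d => (Fintype.card D : ℂ) * f d) := fun l => by
  rw [ygs_fc_smul, fc, mul_inv_cancel_left₀ ygs_card_ne]
  exact V.toSubring.sum_mem fun d _ =>
    V.toSubring.mul_mem (h d) (mem_of_integral V (cv_int l d⁻¹))

lemma GS.mem {V : ValuationSubring ℂ} (h : GS V.toSubring f) (d : D) : f d ∈ V := by
  rw [fc_inv f d]
  exact V.toSubring.sum_mem fun l _ =>
    V.toSubring.mul_mem (h l) (mem_of_integral V (cv_int l d))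

end Pool.Agent.Lib.MP_b6945b_al.Kx
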