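import Pool.Agent.Lib.MP_b6945b_al.Kx.YGS

set_option autoImplicit false

/-!
Orthogonality relations for local coordinates.
-/

namespace Pool.Agent.Lib.MP_b6945b_al.Kx

open Bi Finset
open scoped ComplexConjugate Matrix

lemma ygram_left {X : Type} [Fintype X] [DecidableEq X] {f : ℕ} (A : Matrix X (Fin f) ℂ)
    (h : f ≤ A.rank) : ∃ B : Matrix (Fin f) X ℂ, B * A = 1 := by
  have h1 := LinearMap.finrank_range_add_finrank_ker A.mulVecLin
  rw [Module.finrank_fin_fun] at h1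
  have h2 : LinearMap.ker A.mulVecLin = ⊥ :=
    Submodule.finrank_eq_zero.1 (by unfold Matrix.rank at h; omega)
  obtain ⟨g, hg⟩ := LinearMap.exists_leftInverse_of_injective _ h2
  refine ⟨LinearMap.toMatrix' g, ?_⟩
  rw [← LinearMap.toMatrix'_toLin' A, ← LinearMap.toMatrix'_comp, Matrix.toLin'_apply', hg,
    LinearMap.toMatrix'_id]

lemma gram_of_rank {X : Type} [Fintype X] [DecidableEq X] (Q : Matrix X X ℂ) (x : X → ℕ → ℂ)
    {f n m w : ℕ} (hm : m * f + 1 = n) (hw : 0 < w) (hQ : Q * Q = Q) (hr : Q.rank = f)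
    (h : ∀ χ ψ, ((w * n : ℕ) : ℂ) * Q χ ψ = (n : ℂ) * ∑ j ∈ range f, x χ j * conj (x ψ j) -
      (m : ℂ) * ((∑ j ∈ range f, x χ j) * conj (∑ j ∈ range f, x ψ j))) :
    (∀ i < f, ∀ j < f, ∑ χ, x χ i * conj (x χ j) = w * ((if i = j then 1 else 0) + m)) ∧
      ∀ j < f, ∀ χ, ∑ ψ, Q χ ψ * x ψ j = x χ j := by
  set A : Matrix X (Fin f) ℂ := Matrix.of fun χ j => x χ j with hA
  set J : Matrix (Fin f) (Fin f) ℂ := Matrix.of fun _ _ => 1 with hJ
  have hJJ : J * J = (f : ℂ) • J := by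
    ext i j
    simp [hJ, Matrix.mul_apply]
  have hn : (n : ℂ) = m * f + 1 := by rw [← hm]; push_cast; rfl
  have hn0 : (n : ℂ) ≠ 0 := Nat.cast_ne_zero.2 (by omega)
  have hw0 : (w : ℂ) ≠ 0 := Nat.cast_ne_zero.2 hw.ne'
  set G : Matrix (Fin f) (Fin f) ℂ := (n : ℂ) • 1 - (m : ℂ) • J with hG
  set H : Matrix (Fin f) (Fin f) ℂ := 1 + (m : ℂ) • J with hH
  have hGH : G * H = (n : ℂ) • 1 := by
    simp only [hG, hH, Matrix.sub_mul, Matrix.mul_add, Matrix.smul_mul, Matrix.mul_smul,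
      Matrix.one_mul, Matrix.mul_one, hJJ]
    rw [hn]
    module
  have hHG : H * G = (n : ℂ) • 1 := by
    simp only [hG, hH, Matrix.mul_sub, Matrix.add_mul, Matrix.smul_mul, Matrix.mul_smul,
      Matrix.one_mul, Matrix.mul_one, hJJ]
    rw [hn]
    module
  have h1 : ((w : ℂ) * n) • Q = A * (G * Aᴴ) := by
    ext χ ψ
    rw [Matrix.smul_apply, smul_eq_mul, ← Nat.cast_mul, h, hG, Matrix.sub_mul, Matrix.mul_sub,
      Matrix.smul_mul, Matrix.smul_mul, Matrix.mul_smul, Matrix.mul_smul, Matrix.one_mul]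
    simp [hA, hJ, Matrix.mul_apply, Finset.sum_range, Finset.sum_mul]
  have h2 : Q = A * (((w : ℂ) * n)⁻¹ • (G * Aᴴ)) := by
    rw [Matrix.mul_smul, ← h1, inv_smul_smul₀ (mul_ne_zero hw0 hn0)]
  obtain ⟨B, hB⟩ := ygram_left A (hr.ge.trans (h2 ▸ Matrix.rank_mul_le_left _ _))
  have hB' : Aᴴ * Bᴴ = 1 := by rw [← Matrix.conjTranspose_mul, hB, Matrix.conjTranspose_one]
  have h3 : A * (G * Aᴴ) * (A * (G * Aᴴ)) = ((w : ℂ) * n) • (A * (G * Aᴴ)) := by
    rw [← h1, Matrix.smul_mul, Matrix.mul_smul, hQ]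
  have h4 : G * (Aᴴ * A) * G = ((w : ℂ) * n) • G := by
    have := congrArg (fun Z => B * Z * Bᴴ) h3
    simp only [Matrix.mul_smul, Matrix.smul_mul, Matrix.mul_assoc, hB', Matrix.mul_one] at this
    simp only [← Matrix.mul_assoc, hB, Matrix.one_mul] at this ⊢
    exact this
  have h5 : Aᴴ * A = (w : ℂ) • H := by
    have := congrArg (fun Z => H * Z * H) h4
    simp only [Matrix.mul_smul, Matrix.smul_mul, Matrix.mul_assoc, hGH, Matrix.mul_one] at this
    simp only [← Matrix.mul_assoc _ G, hHG, Matrix.smul_mul, Matrix.one_mul] at this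
    refine smul_right_injective _ hn0 (smul_right_injective _ hn0 ?_)
    simp only
    rw [this]
    module
  have h6 : Q * A = A := by
    refine smul_right_injective _ (mul_ne_zero hw0 hn0) ?_
    simp only
    rw [← Matrix.smul_mul, h1, Matrix.mul_assoc, Matrix.mul_assoc, h5, Matrix.mul_smul, hGH,
      Matrix.mul_smul, Matrix.mul_smul, Matrix.mul_one, smul_smul]
  refine ⟨fun i hi j hj => ?_, fun j hj χ => ?_⟩
  · have := congrFun (congrFun h5 ⟨j, hj⟩) ⟨i, hi⟩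
    simpa [hA, hH, hJ, Matrix.mul_apply, Matrix.one_apply, mul_comm, eq_comm] using this
  · simpa [hA, Matrix.mul_apply] using congrFun (congrFun h6 χ) ⟨j, hj⟩

variable {p : ℕ} {V : ValuationSubring ℂ} {E D X : Type} [Group E] [Fintype E] [CommGroup D]
  [Fintype D] [Fintype X] [DecidableEq X] {φ : E →* MulAut D} {P : D → Matrix X X ℂ}
  {M : Subgroup D} {r : D → X → ℂ} {ε : D → ℂ}

lemma MS0.orth_vec (h : MS0 p φ P) {u v : D} (huv : ∀ g, φ g u ≠ v) {a b : X → ℂ}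
    (ha : ∀ χ, ∑ ψ, P u χ ψ * a ψ = a χ) (hb : ∀ χ, ∑ ψ, P v χ ψ * b ψ = b χ) :
    ∑ χ, a χ * conj (b χ) = 0 := by
  have h1 : P v * P u = 0 := by
    rw [← h.herm v, ← h.herm u, ← Matrix.conjTranspose_mul, h.orth u v huv,
      Matrix.conjTranspose_zero]
  have ha' : P u *ᵥ a = a := funext ha
  have hb' : P v *ᵥ b = b := funext hb
  have h2 : star b ⬝ᵥ a = 0 := by
    rw [← ha', ← hb', Matrix.star_mulVec, h.herm, Matrix.dotProduct_mulVec, Matrix.vecMul_vecMul,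
      h1, Matrix.vecMul_zero, zero_dotProduct]
  rw [← h2, dotProduct_comm]
  rfl

omit [Fintype E] [Fintype D] in
lemma ygram_stb {u v : D} (hv : Subgroup.zpowers v = Subgroup.zpowers u) : stb φ v = stb φ u := by
  have key : ∀ {a b : D}, Subgroup.zpowers a = Subgroup.zpowers b → ∀ g, φ g a = a → φ g b = b :=
    fun {a b} e g hg => by
      obtain ⟨k, rfl⟩ := Subgroup.mem_zpowers_iff.1 (e ▸ Subgroup.mem_zpowers b :
        b ∈ Subgroup.zpowers a)
      rw [map_zpow, hg]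
  exact Nat.card_congr (Equiv.subtypeEquivRight fun g => ⟨key hv g, key hv.symm g⟩)

lemma LS.loc_gram (h : LS p V φ P M r) {u : D} (hu : u ∉ M) {ξ : X → ℕ → D → ℂ} {m : ℕ}
    (hξ : LC φ P r u ξ m) {v : D} (hv : Subgroup.zpowers v = Subgroup.zpowers u) :
    (∀ i < stb φ u, ∀ j < stb φ u, ∑ χ, ξ χ i v * conj (ξ χ j v) =
      Nat.card (Subgroup.zpowers u) * ((if i = j then 1 else 0) + m)) ∧
      ∀ j < stb φ u, ∀ χ, ∑ ψ, P v χ ψ * ξ ψ j v = ξ χ j v := by
  have hv' : v ∉ M := fun e =>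
    hu (Subgroup.zpowers_le.2 e (hv.symm ▸ Subgroup.mem_zpowers u : u ∈ Subgroup.zpowers v))
  refine gram_of_rank (P v) (fun χ j => ξ χ j v) hξ.num Nat.card_pos (h.ms.idem v)
    ((h.rank v hv').trans (ygram_stb hv)) fun χ ψ => ?_
  rw [Subgroup.card_mul_index, Nat.card_eq_fintype_card, hξ.form v hv, hξ.sum v hv, hξ.sum v hv]

lemma LS.fix (h : LS p V φ P M r) {u : D} (hu : u ∉ M) (χ : X) :
    ∑ ψ, P u χ ψ * r u ψ = r u χ := by
  obtain ⟨ξ, m, hξ⟩ := h.loc u hu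
  simp only [hξ.sum u rfl, Finset.mul_sum]
  rw [Finset.sum_comm]
  exact Finset.sum_congr rfl fun j hj => (h.loc_gram hu hξ rfl).2 j (mem_range.1 hj) χ

theorem LS.gram (h : LS p V φ P M r) {u v : D} (hu : u ∉ M) (hv : v ∉ M) :
    ∑ χ, r u χ * conj (r v χ) = Fintype.card D * Nat.card {g : E // φ g u = v} := by
  by_cases e : ∃ g, φ g u = v
  · obtain ⟨g, rfl⟩ := e
    obtain ⟨ξ, m, hξ⟩ := h.loc u hu
    have h1 : Nat.card {g' : E // φ g' u = φ g u} = stb φ u :=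
      Nat.card_congr (Equiv.subtypeEquiv (Equiv.mulLeft g⁻¹) fun x => by
        rw [Equiv.coe_mulLeft, map_mul, MulAut.mul_apply, map_inv, MulAut.inv_apply,
          MulEquiv.symm_apply_eq])
    have h2 : ∀ i ∈ range (stb φ u), ∑ j ∈ range (stb φ u), ∑ χ, ξ χ i u * conj (ξ χ j u) =
        Fintype.card D := fun i hi => by
      rw [Finset.sum_congr rfl fun j hj => (h.loc_gram hu hξ rfl).1 i (mem_range.1 hi) j
        (mem_range.1 hj), ← Finset.mul_sum, Finset.sum_add_distrib, Finset.sum_ite_eq, if_pos hi,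
        Finset.sum_const, card_range, ← Nat.card_eq_fintype_card,
        ← (Subgroup.zpowers u).card_mul_index, ← hξ.num]
      push_cast
      ring
    rw [h.inv g u hu, h1]
    simp only [hξ.sum u rfl, map_sum, Finset.sum_mul_sum]
    rw [Finset.sum_comm, Finset.sum_congr rfl fun i hi => Finset.sum_comm.trans (h2 i hi),
      Finset.sum_const, card_range, nsmul_eq_mul, mul_comm]
  · have : IsEmpty {g : E // φ g u = v} := ⟨fun g => e ⟨g.1, g.2⟩⟩
    rw [Nat.card_of_isEmpty, Nat.cast_zero, mul_zero]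
    exact h.ms.orth_vec (not_exists.1 e) (h.fix hu) (h.fix hv)

lemma LS.reg (h : LS p V φ P M r) {u : D} (hu : u ∉ M) (h1 : stb φ u = 1) (χ ψ : X) :
    (Fintype.card D : ℂ) * P u χ ψ = r u χ * conj (r u ψ) := by
  obtain ⟨ξ, m, hξ⟩ := h.loc u hu
  rw [hξ.form u rfl, hξ.sum u rfl, hξ.sum u rfl, ← hξ.num, h1]
  simp only [Finset.sum_range_one]
  push_cast
  ring

lemma LS.reg_ne (h : LS p V φ P M r) {u : D} (hu : u ∉ M) (h1 : stb φ u = 1) (χ : X) :
    r u χ ≠ 0 := fun e => by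
  have := h.reg hu h1 χ χ
  rw [e, zero_mul] at this
  exact mul_ne_zero (Nat.cast_ne_zero.2 Fintype.card_ne_zero) (h.ms.diag u χ) this

lemma LS.conj_eq (h : LS p V φ P M r) {u : D} (hu : u ∉ M) (χ : X) :
    conj (r u χ) = r u⁻¹ χ := by
  obtain ⟨ξ, m, hξ⟩ := h.loc u hu
  rw [hξ.sum u rfl, hξ.sum u⁻¹ Subgroup.zpowers_inv, map_sum]
  exact Finset.sum_congr rfl fun j _ => (hξ.gs χ j).conj_eq u

lemma LS.integral (h : LS p V φ P M r) {u : D} (hu : u ∉ M) (χ : X) :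
    IsIntegral ℤ (r u χ) := by
  obtain ⟨ξ, m, hξ⟩ := h.loc u hu
  rw [hξ.sum u rfl]
  exact IsIntegral.sum _ fun j _ => (hξ.gs χ j).integral u

end Pool.Agent.Lib.MP_b6945b_al.Kx
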