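import Mathlib

set_option autoImplicit false

/-!
Sums of squared differences of integer valued functions, rows of integral unitary matrices.
-/

namespace Pool.Agent.Lib.MP_b6945b_al.Kx

open Finset
open scoped Matrix

section pairs
variable {O : Type} {S : Finset O} {n : O → ℤ}

lemma ypair_split (S : Finset O) (n : O → ℤ) (v : ℤ) :
    ∑ o ∈ S, ∑ o' ∈ S, (n o - n o') ^ 2 =
      2 * ((S.filter (n · = v)).card * ∑ o ∈ S.filter (n · ≠ v), (n o - v) ^ 2) +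
        ∑ o ∈ S.filter (n · ≠ v), ∑ o' ∈ S.filter (n · ≠ v), (n o - n o') ^ 2 := by
  have h1 : ∀ F : O → ℤ, ∑ o ∈ S, F o =
      ∑ o ∈ S.filter (n · = v), F o + ∑ o ∈ S.filter (n · ≠ v), F o := fun F =>
    (Finset.sum_filter_add_sum_filter_not S (n · = v) F).symm
  have h2 : ∀ o ∈ S.filter (n · = v), ∑ o' ∈ S, (n o - n o') ^ 2 =
      ∑ o' ∈ S.filter (n · ≠ v), (n o' - v) ^ 2 := fun o ho => by
    rw [h1, Finset.sum_eq_zero fun o' ho' => by
      rw [(mem_filter.1 ho).2, (mem_filter.1 ho').2, sub_self, zero_pow two_ne_zero], zero_add,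
      (mem_filter.1 ho).2]
    exact Finset.sum_congr rfl fun o' _ => by ring
  have h3 : ∀ o ∈ S.filter (n · ≠ v), ∑ o' ∈ S, (n o - n o') ^ 2 =
      (S.filter (n · = v)).card * (n o - v) ^ 2 +
        ∑ o' ∈ S.filter (n · ≠ v), (n o - n o') ^ 2 := fun o _ => by
    rw [h1, Finset.sum_congr rfl fun o' ho' => by rw [(mem_filter.1 ho').2], Finset.sum_const,
      nsmul_eq_mul]
  rw [h1, Finset.sum_congr rfl h2, Finset.sum_congr rfl h3, Finset.sum_const, nsmul_eq_mul,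
    Finset.sum_add_distrib, ← Finset.mul_sum]
  ring

lemma ypair_one {v : ℤ} {o : O} (ho : o ∈ S.filter (n · ≠ v)) : 1 ≤ (n o - v) ^ 2 :=
  (one_le_sq_iff_one_le_abs _).2 (Int.one_le_abs (sub_ne_zero.2 (mem_filter.1 ho).2))

lemma ypair_card (S : Finset O) (n : O → ℤ) (v : ℤ) :
    ((S.filter (n · ≠ v)).card : ℤ) ≤ ∑ o ∈ S.filter (n · ≠ v), (n o - v) ^ 2 := by
  rw [Finset.card_eq_sum_ones, Nat.cast_sum, Nat.cast_one]
  exact Finset.sum_le_sum fun o ho => ypair_one ho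

/-- A nonconstant integer valued function on `N` points has sum of squared differences at least
`2 (N - 1)`. -/
theorem pairs_ge {a b : O} (ha : a ∈ S) (hb : b ∈ S) (hab : n a ≠ n b) :
    2 * ((S.card : ℤ) - 1) ≤ ∑ o ∈ S, ∑ o' ∈ S, (n o - n o') ^ 2 := by
  have h1 : (1 : ℤ) ≤ (S.filter (n · = n a)).card := by
    exact_mod_cast (Finset.card_pos (s := S.filter (n · = n a))).2 ⟨a, mem_filter.2 ⟨ha, rfl⟩⟩
  have h2 : (1 : ℤ) ≤ (S.filter (n · ≠ n a)).card := by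
    exact_mod_cast Finset.card_pos.2 ⟨b, mem_filter.2 ⟨hb, hab.symm⟩⟩
  have h3 : (S.card : ℤ) = (S.filter (n · = n a)).card + (S.filter (n · ≠ n a)).card := by
    exact_mod_cast (Finset.card_filter_add_card_filter_not (n · = n a)).symm
  have h4 := ypair_card S n (n a)
  have h5 : 0 ≤ ∑ o ∈ S.filter (n · ≠ n a), ∑ o' ∈ S.filter (n · ≠ n a), (n o - n o') ^ 2 :=
    Finset.sum_nonneg fun _ _ => Finset.sum_nonneg fun _ _ => sq_nonneg _
  rw [ypair_split S n (n a), h3]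
  nlinarith [mul_nonneg (sub_nonneg.2 h1) (sub_nonneg.2 h2),
    mul_le_mul_of_nonneg_left h4 (zero_le_one.trans h1)]

/-- The case of equality: one point differs from all the others, by one. -/
theorem pairs_eq {a b : O} (ha : a ∈ S) (hb : b ∈ S) (hab : n a ≠ n b)
    (h : ∑ o ∈ S, ∑ o' ∈ S, (n o - n o') ^ 2 ≤ 2 * ((S.card : ℤ) - 1)) :
    ∃ o₁ ∈ S, ∃ t δ : ℤ, (δ = 1 ∨ δ = -1) ∧ n o₁ = t + δ ∧ ∀ o ∈ S, o ≠ o₁ → n o = t := by
  have h1 : (1 : ℤ) ≤ (S.filter (n · = n a)).card := by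
    exact_mod_cast (Finset.card_pos (s := S.filter (n · = n a))).2 ⟨a, mem_filter.2 ⟨ha, rfl⟩⟩
  have hb' : b ∈ S.filter (n · ≠ n a) := mem_filter.2 ⟨hb, hab.symm⟩
  have h2 : (1 : ℤ) ≤ (S.filter (n · ≠ n a)).card := by
    exact_mod_cast Finset.card_pos.2 ⟨b, hb'⟩
  have h3 : (S.card : ℤ) = (S.filter (n · = n a)).card + (S.filter (n · ≠ n a)).card := by
    exact_mod_cast (Finset.card_filter_add_card_filter_not (n · = n a)).symm
  have h4 := ypair_card S n (n a)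
  have h5 : 0 ≤ ∑ o ∈ S.filter (n · ≠ n a), ∑ o' ∈ S.filter (n · ≠ n a), (n o - n o') ^ 2 :=
    Finset.sum_nonneg fun _ _ => Finset.sum_nonneg fun _ _ => sq_nonneg _
  rw [ypair_split S n (n a), h3] at h
  have h6 := mul_nonneg (sub_nonneg.2 h1) (sub_nonneg.2 h2)
  have h7 := mul_le_mul_of_nonneg_left h4 (zero_le_one.trans h1)
  have e1 : ∑ o ∈ S.filter (n · ≠ n a), ∑ o' ∈ S.filter (n · ≠ n a), (n o - n o') ^ 2 = 0 := by
    nlinarith
  have e2 : ((S.filter (n · = n a)).card - 1 : ℤ) * ((S.filter (n · ≠ n a)).card - 1) = 0 := by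
    nlinarith
  have e3 : ∑ o ∈ S.filter (n · ≠ n a), (n o - n a) ^ 2 = (S.filter (n · ≠ n a)).card := by
    refine le_antisymm (le_of_mul_le_mul_left ?_ (zero_lt_one.trans_le h1)) h4
    nlinarith
  have e4 : (n b - n a) ^ 2 = 1 := by
    rw [Finset.card_eq_sum_ones, Nat.cast_sum, Nat.cast_one] at e3
    exact ((Finset.sum_eq_sum_iff_of_le fun o ho => ypair_one ho).1 e3.symm b hb').symm
  have e5 : n b - n a = 1 ∨ n b - n a = -1 := sq_eq_one_iff.1 e4
  have e6 : ∀ o ∈ S.filter (n · ≠ n a), n o = n b := fun o ho => by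
    have h8 := (Finset.sum_eq_zero_iff_of_nonneg fun _ _ =>
      Finset.sum_nonneg fun _ _ => sq_nonneg _).1 e1 o ho
    exact sub_eq_zero.1 (pow_eq_zero_iff two_ne_zero |>.1
      ((Finset.sum_eq_zero_iff_of_nonneg fun _ _ => sq_nonneg _).1 h8 b hb'))
  rcases mul_eq_zero.1 e2 with e | e
  · obtain ⟨x, hx⟩ := Finset.card_eq_one.1 (by exact_mod_cast sub_eq_zero.1 e :
      (S.filter (n · = n a)).card = 1)
    have h9 : ∀ o ∈ S, n o = n a → o = x := fun o ho e' =>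
      mem_singleton.1 (hx ▸ mem_filter.2 ⟨ho, e'⟩)
    refine ⟨a, ha, n b, n a - n b, by omega, by ring, fun o ho e' => e6 o (mem_filter.2
      ⟨ho, fun e'' => e' ((h9 o ho e'').trans (h9 a ha rfl).symm)⟩)⟩
  · obtain ⟨x, hx⟩ := Finset.card_eq_one.1 (by exact_mod_cast sub_eq_zero.1 e :
      (S.filter (n · ≠ n a)).card = 1)
    refine ⟨b, hb, n a, n b - n a, e5, by ring, fun o ho e' => ?_⟩
    by_contra e''
    exact e' ((mem_singleton.1 (hx ▸ mem_filter.2 ⟨ho, e''⟩)).trans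
      (mem_singleton.1 (hx ▸ hb')).symm)

end pairs

/-- An integer vector of norm one is a signed unit vector. -/
lemma row_unit {X : Type} [Fintype X] [DecidableEq X] (z : X → ℤ) (h : ∑ x, z x ^ 2 = 1) :
    ∃ x₀, (z x₀ = 1 ∨ z x₀ = -1) ∧ ∀ x, x ≠ x₀ → z x = 0 := by
  obtain ⟨x₀, -, h0⟩ := Finset.exists_ne_zero_of_sum_ne_zero (h.trans_ne one_ne_zero)
  have h1 : 1 ≤ z x₀ ^ 2 :=
    (one_le_sq_iff_one_le_abs _).2 (Int.one_le_abs fun e => h0 (by rw [e]; rfl))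
  rw [← Finset.add_sum_erase _ _ (mem_univ x₀)] at h
  have h2 : 0 ≤ ∑ x ∈ univ.erase x₀, z x ^ 2 := Finset.sum_nonneg fun _ _ => sq_nonneg _
  refine ⟨x₀, sq_eq_one_iff.1 (by omega), fun x hx => pow_eq_zero_iff two_ne_zero |>.1
    ((Finset.sum_eq_zero_iff_of_nonneg fun _ _ => sq_nonneg _).1 (by omega) x
      (mem_erase.2 ⟨hx, mem_univ _⟩))⟩

end Pool.Agent.Lib.MP_b6945b_al.Kx
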