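import Pool.Agent.Lib.MP_b6945b_al.Kx.YGram

set_option autoImplicit false

/-!
Products of local coordinates.
-/

namespace Pool.Agent.Lib.MP_b6945b_al.Kx

open Bi Finset
open scoped ComplexConjugate

variable {p : ℕ} {V : ValuationSubring ℂ} {E D X : Type} [Group E] [Fintype E] [CommGroup D]
  [Fintype D] [Fintype X] [DecidableEq X] {φ : E →* MulAut D} {P : D → Matrix X X ℂ}
  {M : Subgroup D} {r : D → X → ℂ} {ε : D → ℂ}

/-- The character `d ↦ l ((φ g d)⁻¹)`. -/
def yprod_lam {E D : Type} [Group E] [CommGroup D] (φ : E →* MulAut D) (l : Ch D) (g : E) :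
    D →* ℂ where
  toFun d := cv l (φ g d)⁻¹
  map_one' := by rw [map_one, inv_one, cv_one]
  map_mul' a b := by rw [map_mul, mul_inv, cv_mul]

lemma yprod_stb {E D : Type} [Group E] [Group D] (φ : E →* MulAut D) {u v : D}
    (h : Subgroup.zpowers v = Subgroup.zpowers u) : stb φ v = stb φ u := by
  have h1 : ∀ (g : E) (a b : D), b ∈ Subgroup.zpowers a → φ g a = a → φ g b = b := by
    rintro g a _ ⟨k, rfl⟩ e
    rw [map_zpow, e]
  exact Nat.card_congr (Equiv.subtypeEquivRight fun g =>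
    ⟨h1 g v u (h ▸ Subgroup.mem_zpowers u), h1 g u v (h ▸ Subgroup.mem_zpowers v)⟩)

lemma MS0.gs (h : MS0 p φ P) (χ ψ : X) :
    GS ⊥ (fun d => (Fintype.card D : ℂ) * stb φ d * P d χ ψ) := by
  intro l
  obtain ⟨z, hz⟩ := h.opr_int (yprod_lam φ l) (fun g d =>
    Fintype.sum_equiv (Equiv.mulRight g) _ _ fun x => by
      change cv l (φ x (φ g d))⁻¹ = cv l (φ (x * g) d)⁻¹
      rw [map_mul, MulAut.mul_apply]) χ ψ
  refine Subring.mem_bot.2 ⟨z, ?_⟩
  have h1 : ∀ g : E, ∑ d, (stb φ d : ℂ) * yprod_lam φ l g d * P d χ ψ =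
      ∑ d, (stb φ d : ℂ) * cv l d⁻¹ * P d χ ψ := fun g =>
    Fintype.sum_equiv (φ g).toEquiv _ _ fun d => by
      change _ = (stb φ (φ g d) : ℂ) * cv l (φ g d)⁻¹ * P (φ g d) χ ψ
      rw [stb_apply, h.inv]
      rfl
  rw [← hz, opr_apply, fc]
  simp only [mul_sum _ (fun g => yprod_lam φ l g _), sum_mul]
  rw [sum_comm]
  simp only [h1]
  rw [sum_const, card_univ, nsmul_eq_mul, inv_mul_cancel_left₀ (card_ne E), mul_sum]
  refine sum_congr rfl fun d _ => ?_
  have := card_ne D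
  field_simp

open Classical in
lemma yprod_loc (h : LS p V φ P M r) (χ ψ : X) (W : Subgroup D) :
    ∃ G : D → ℂ, GS ⊥ G ∧ ∀ v, v ∉ M → v ∈ W → (W.index : ℂ) * G v =
      if Subgroup.zpowers v = W then
        (Fintype.card D : ℂ) * stb φ v * P v χ ψ - r v χ * conj (r v ψ) else 0 := by
  by_cases e : ∃ u, u ∉ M ∧ Subgroup.zpowers u = W ∧ stb φ u ≠ 1
  · obtain ⟨u, hu, rfl, h1⟩ := e
    obtain ⟨ξ, m, hξ⟩ := h.loc u hu
    refine ⟨fun v => (stb φ u : ℂ) * ∑ j ∈ range (stb φ u), ξ χ j v * conj (ξ ψ j v) -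
      (∑ j ∈ range (stb φ u), ξ χ j v) * conj (∑ j ∈ range (stb φ u), ξ ψ j v), ?_,
      fun v hv hw => ?_⟩
    · exact ((GS.sum _ fun j _ => (hξ.gs χ j).mul (hξ.gs ψ j).conj).smul (natCast_mem _ _)).sub
        ((GS.sum _ fun j _ => hξ.gs χ j).mul (GS.sum _ fun j _ => hξ.gs ψ j).conj)
    · have h2 := (h.gen u hu).resolve_left h1 v hw hv
      have h3 := hξ.form v h2 χ ψ
      have h4 : ((Subgroup.zpowers u).index : ℂ) = m * stb φ u + 1 := by exact_mod_cast hξ.num.symm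
      rw [if_pos h2, yprod_stb φ h2]
      simp only [← hξ.sum v h2]
      rw [h4] at h3 ⊢
      linear_combination (-(stb φ u : ℂ)) * h3
  · refine ⟨fun _ => 0, GS.zero, fun v hv _ => ?_⟩
    rw [mul_zero]
    split_ifs with h2
    · have h1 : stb φ v = 1 := by
        by_contra k
        exact e ⟨v, hv, h2, k⟩
      rw [h1, Nat.cast_one, mul_one, h.reg hv h1, sub_self]
    · rfl

theorem LS.prod (h : LS p V φ P M r) (χ ψ : X) :
    ∃ F : D → ℂ, GS ⊥ F ∧ ∀ u, u ∉ M → r u χ * conj (r u ψ) = F u := by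
  classical
  choose G hG hG' using yprod_loc h χ ψ
  have : Fintype (Subgroup D) := Fintype.ofFinite _
  refine ⟨fun d => (Fintype.card D : ℂ) * stb φ d * P d χ ψ -
    ∑ W : Subgroup D, (if d ∈ W then (W.index : ℂ) else 0) * G W d,
    (h.ms.gs χ ψ).sub (GS.sum _ fun W _ => ?_), fun u hu => ?_⟩
  · convert (GS.ind W).mul (hG W)
  · dsimp only
    rw [sum_eq_single (Subgroup.zpowers u) (fun W _ e => ?_) fun e => absurd (mem_univ _) e,
      if_pos (Subgroup.mem_zpowers u), hG' _ u hu (Subgroup.mem_zpowers u), if_pos rfl,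
      sub_sub_cancel]
    split_ifs with k
    · rw [hG' W u hu k, if_neg e.symm]
    · exact zero_mul _

lemma MS0.card_eq (h : MS0 p φ P) :
    Fintype.card E * Fintype.card X = ∑ d, stb φ d * (P d).rank := by
  have h1 := congrArg Matrix.trace h.sum
  simp only [Matrix.trace_sum, Matrix.trace_smul, Matrix.trace_one, smul_eq_mul,
    fun d => trace_eq_rank _ (h.idem d)] at h1
  exact_mod_cast h1.symm

end Pool.Agent.Lib.MP_b6945b_al.Kx
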