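import Pool.Agent.Lib.MP_b6945b_al.Kx.YDef

set_option autoImplicit false

/-!
Signed permutations and the case of a trivial inertial group.
-/

namespace Pool.Agent.Lib.MP_b6945b_al.Kx

open Bi Finset
open scoped ComplexConjugate

variable {p : ℕ} {E D X : Type} [Group E] [Fintype E] [Fintype X] [DecidableEq X]

lemma MS0.shift [Group D] [Fintype D] {φ : E →* MulAut D} {P : D → Matrix X X ℂ} (h : MS0 p φ P)
    (l : Ch D) (hl : ∀ g d, cv l (φ g d) = cv l d) (χ : X) :
    ∃ (ψ : X) (s : ℂ), (s = 1 ∨ s = -1) ∧ ∀ d θ, cv l d * P d χ θ = s * P d ψ θ := by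
  let lam : D →* ℂ :=
    { toFun := cv l
      map_one' := by rw [cv, ofMul_one, AddChar.map_zero_eq_one]
      map_mul' := fun a b => by rw [cv, ofMul_mul, AddChar.map_add_eq_mul, cv, cv] }
  have hl' : ∀ g d, lam (φ g d) = lam d := hl
  choose z hz using fun ψ => h.opr_int (fun _ : Unit => lam) (fun g d => by simp only [hl']) χ ψ
  simp only [univ_unique, sum_singleton] at hz
  have h2 : ∀ d, lam d * star (lam d) = 1 := fun d => by
    have h3 : ‖lam d‖ = 1 := Complex.norm_eq_one_of_pow_eq_one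
      (by rw [← map_pow, pow_card_eq_one, map_one]) (Fintype.card_ne_zero (α := D))
    rw [Complex.star_def, Complex.mul_conj', h3]
    simp
  have h3 := h.opr_opr lam (f' := fun d => star (lam d)) fun g d => by rw [hl']
  simp only [h2, h.opr_one, ← h.opr_star] at h3
  have h4 := congrFun (congrFun h3 χ) χ
  simp only [Matrix.mul_apply, Matrix.conjTranspose_apply, Matrix.one_apply_eq] at h4
  have hz' : ∀ ψ, opr φ P lam χ ψ = z ψ := hz
  simp only [hz', star_intCast] at h4
  have h5 : ∑ ψ, z ψ * z ψ = 1 := by exact_mod_cast h4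
  obtain ⟨ψ, -, h6⟩ := exists_ne_zero_of_sum_ne_zero (h5.trans_ne one_ne_zero)
  have h9 := mul_self_pos.2 (mul_self_ne_zero.1 h6)
  have h7 : ∀ θ, θ ≠ ψ → z θ = 0 := fun θ hθ => by
    have h8 := sum_le_sum_of_subset_of_nonneg (subset_univ {ψ, θ})
      fun x _ _ => mul_self_nonneg (z x)
    rw [sum_pair hθ.symm, h5] at h8
    exact mul_self_eq_zero.1 (le_antisymm (by omega) (mul_self_nonneg _))
  rw [sum_eq_single ψ (fun θ _ e => by rw [h7 θ e, mul_zero]) fun e => absurd (mem_univ ψ) e,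
    mul_self_eq_one_iff] at h5
  refine ⟨ψ, z ψ, by exact_mod_cast h5, fun d θ => ?_⟩
  have h10 := congrFun (congrFun (h.opr_mul hl' d) χ) θ
  rw [Matrix.mul_apply, sum_eq_single ψ (fun x _ e => by rw [hz', h7 x e, Int.cast_zero, zero_mul])
    fun e => absurd (mem_univ ψ) e, hz', Matrix.smul_apply, smul_eq_mul] at h10
  exact h10.symm

omit [DecidableEq X] in
lemma yreg_minor {Q : Matrix X X ℂ} (h : Q.rank ≤ 1) (a b c d : X) :
    Q a c * Q b d = Q a d * Q b c := by
  by_contra e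
  have h1 := (Matrix.rank_submatrix_le Q ![a, b] ![c, d]).trans h
  rw [Matrix.rank_of_det_ne_zero (by
    rw [Matrix.det_fin_two]
    exact sub_ne_zero.2 e), Fintype.card_fin] at h1
  omega

theorem MS0.bsa_reg [iD : Group D] [Fintype D] {φ : E →* MulAut D} {P : D → Matrix X X ℂ}
    (h : MS0 p φ P) [Nonempty X] (ht : ∀ g d, φ g d = d) (hr : ∀ d, (P d).rank ≤ 1) {n m : ℕ}
    (hm : m + 1 = n) : BSA (P 1) (Fintype.card D) n m 1 := by
  classical
  let : CommGroup D := { iD with mul_comm := h.comm }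
  have h0 : ∀ χ ψ, opr φ P (fun d => if d = 1 then (Fintype.card D : ℂ) else 0) χ ψ =
      Fintype.card D * P 1 χ ψ := fun χ ψ => by
    have h3 : stb φ 1 = Fintype.card E := by
      rw [← Nat.card_eq_fintype_card]
      exact Nat.card_congr (Equiv.subtypeUnivEquiv fun g => ht g 1)
    rw [opr_apply, sum_eq_single 1 (fun x _ e => by rw [if_neg e, mul_zero, zero_mul])
      fun e => absurd (mem_univ _) e, if_pos rfl, h3, mul_assoc, inv_mul_cancel_left₀ (card_ne E)]
  have h1 : ∀ χ, (Fintype.card D : ℂ) * P 1 χ χ = 1 := fun χ =>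
    (h0 χ χ).symm.trans (h.diag_fibre (MonoidHom.id D) Function.surjective_id ht 1 χ)
  have h2 : ∀ χ ψ, ∃ z : ℤ, (Fintype.card D : ℂ) * P 1 χ ψ = z := fun χ ψ => by
    obtain ⟨z, hz⟩ := h.opr_int (chr (MonoidHom.id D)) (fun g d => by rw [ht]) χ ψ
    have h3 := sum_chr (MonoidHom.id D) 1
    simp only [ofMul_one, neg_zero, AddChar.map_zero_eq_one, mul_one, MonoidHom.id_apply] at h3
    simp only [h3] at hz
    exact ⟨z, (h0 χ ψ).symm.trans hz⟩
  obtain ⟨a⟩ := ‹Nonempty X›
  refine ⟨fun _ => a, fun _ => 1, fun _ => Or.inl rfl, fun i hi j hj => ?_, fun χ => ?_,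
    a, fun θ => by simp⟩
  · rw [if_pos (by omega), one_mul, one_mul, h1, ← hm]
    push_cast
    ring
  · obtain ⟨z, hz⟩ := h2 χ a
    have h3 : ∀ θ, P 1 χ θ = z * P 1 a θ := fun θ => by
      have := yreg_minor (hr 1) χ a θ a
      linear_combination (Fintype.card D : ℂ) * this - P 1 χ θ * h1 a + P 1 a θ * hz
    have h4 : (Fintype.card D : ℂ) * P 1 a χ = z := by
      have h5 := congrFun (congrFun (h.herm 1) a) χ
      rw [Matrix.conjTranspose_apply] at h5
      rw [← h5, ← star_natCast, ← star_mul', hz, star_intCast]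
    have h5 : (z : ℂ) * z = 1 := by
      linear_combination h1 χ - (Fintype.card D : ℂ) * h3 χ - z * h4
    exact ⟨z, mul_self_eq_one_iff.1 h5, Or.inl ⟨0, one_pos, fun θ => by rw [one_mul, h3]⟩⟩

end Pool.Agent.Lib.MP_b6945b_al.Kx
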