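import Pool.Agent.Lib.MP_b6945b_al.Kx.YEps
import Pool.Agent.Lib.MP_b6945b_al.Kx.YTyp
import Pool.Agent.Lib.MP_b6945b_al.Kx.YReg

set_option autoImplicit false

/-!
The basic set in the case of a free action modulo the fixed points.
-/

namespace Pool.Agent.Lib.MP_b6945b_al.Kx

open Bi Finset
open scoped ComplexConjugate Matrix

lemma yrig_sq {a : ℂ} (h : a = 1 ∨ a = -1) : a * a = 1 := by
  rcases h with rfl | rfl <;> ring

lemma yrig_cj {a : ℂ} (h : a = 1 ∨ a = -1) : conj a = a := by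
  rcases h with rfl | rfl <;> simp

lemma yrig_sg {a b : ℂ} (h : a = 1 ∨ a = -1) (h' : b = 1 ∨ b = -1) : a * b = 1 ∨ a * b = -1 := by
  rcases h with rfl | rfl <;> rcases h' with rfl | rfl <;> simp

lemma yrig_norm {X : Type} [Fintype X] {Q : Matrix X X ℂ} (h1 : Qᴴ = Q) (h2 : Q * Q = Q) (χ : X)
    (ψ : ℕ → X) (b : ℕ → ℂ) (e : ℕ) (h3 : Q χ χ = ∑ j ∈ range e, b j * Q (ψ j) χ)
    (h4 : ∀ i < e, Q χ (ψ i) = ∑ j ∈ range e, b j * Q (ψ j) (ψ i)) (θ : X) :
    Q χ θ = ∑ j ∈ range e, b j * Q (ψ j) θ := by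
  obtain ⟨v, hv⟩ : ∃ v : X → ℂ, ∀ x, v x = Q χ x - ∑ j ∈ range e, b j * Q (ψ j) x := ⟨_, fun _ => rfl⟩
  have k1 : ∀ x y, ∑ z, Q x z * conj (Q y z) = Q x y := fun x y => by
    conv_rhs => rw [← h2, Matrix.mul_apply]
    exact sum_congr rfl fun z _ => congrArg _ (congrFun (congrFun h1 z) y)
  have k2 : ∀ y, ∑ z, v z * conj (Q y z) = v y := fun y => by
    simp only [hv, sub_mul, sum_sub_distrib, sum_mul, k1]
    rw [sum_comm]
    simp only [mul_assoc, ← mul_sum, k1]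
  have k3 : ∑ z, v z * conj (v z) = 0 := by
    have k4 : ∀ z, v z * conj (v z) = v z * conj (Q χ z) -
        ∑ j ∈ range e, conj (b j) * (v z * conj (Q (ψ j) z)) := fun z => by
      conv_lhs => rw [hv z, map_sub, map_sum, ← hv z, mul_sub, mul_sum]
      simp only [map_mul, mul_left_comm]
    simp only [k4, sum_sub_distrib]
    rw [sum_comm]
    simp only [← mul_sum, k2]
    rw [hv, ← h3, sub_self, sum_eq_zero, sub_zero]
    intro j hj
    rw [hv, ← h4 j (mem_range.1 hj), sub_self, mul_zero]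
  simp only [Complex.mul_conj] at k3
  have k5 : ∑ z, Complex.normSq (v z) = 0 := by exact_mod_cast k3
  rw [← sub_eq_zero, ← hv, ← Complex.normSq_eq_zero]
  exact (sum_eq_zero_iff_of_nonneg fun z _ => Complex.normSq_nonneg _).1 k5 θ (mem_univ _)

section main
variable {p : ℕ} {V : ValuationSubring ℂ} {E D X : Type} [Group E] [Fintype E] [CommGroup D]
  [Fintype D] [Fintype X] [DecidableEq X] {φ : E →* MulAut D} {P : D → Matrix X X ℂ}
  {M : Subgroup D} {r : D → X → ℂ} {ε : D → ℂ} {ty : X → Ch D} {δ : X → ℂ}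

/-- The data after the choice of types. -/
structure YRigC (p : ℕ) (V : ValuationSubring ℂ) (φ : E →* MulAut D) (P : D → Matrix X X ℂ)
    (M : Subgroup D) (r : D → X → ℂ) (ε : D → ℂ) (ty : X → Ch D) (δ : X → ℂ) : Prop where
  ls : LS p V φ P M r
  fix : ∀ g, ∀ d ∈ M, φ g d = d
  one : ∀ u, u ∉ M → stb φ u = 1
  se : ∀ u, ε u = 1 ∨ ε u = -1
  sd : ∀ χ, δ χ = 1 ∨ δ χ = -1
  val : ∀ χ u, u ∉ M → (stk φ (ty χ) : ℂ) * (ε u * r u χ) = δ χ * ∑ g, cv (da φ g (ty χ)) u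

omit [Fintype D] in
lemma yrig_stb {w : D} (h : ∀ g, φ g w = w) : stb φ w = Fintype.card E := by
  rw [← Nat.card_eq_fintype_card]
  exact Nat.card_congr (Equiv.subtypeUnivEquiv h)

omit [Fintype D] in
lemma yrig_stk (l : Ch D) : (stk φ l : ℂ) ≠ 0 := by
  have : Nonempty {g : E // da φ g l = l} := ⟨⟨1, da_one l⟩⟩
  exact Nat.cast_ne_zero.2 Nat.card_pos.ne'

omit [Fintype E] [Fintype D] in
lemma yrig_back (g : E) (l : Ch D) : da φ g⁻¹ (da φ g l) = l := by
  rw [← da_mul, inv_mul_cancel, da_one]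

lemma yrig_free (h : LS p V φ P M r) (h1 : ∀ u, u ∉ M → stb φ u = 1) {l : Ch D} (hl : l ∈ perp M)
    (h0 : l ≠ 0) {g : E} (hg : da φ g l = l) : g = 1 := by
  let A : Subgroup E :=
    { carrier := {g | da φ g l = l}
      mul_mem' := fun {a b} ha hb => (da_mul a b l).trans ((congrArg _ hb).trans ha)
      one_mem' := da_one l
      inv_mem' := fun {a} ha => (congrArg _ ha.symm).trans (yrig_back a l) }
  obtain ⟨π, k1, -, -, k2, -⟩ := exists_proj (φ := φ) h.prime h.ms.pD h.cop A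
  by_contra hne
  refine h0 (AddChar.ext _ _ fun d => (k2 l (fun _ ha => ha) d.toMul).symm.trans (hl _ ?_))
  by_contra hd
  have k3 := (Nat.card_eq_one_iff_unique.1 (h1 _ hd)).1
  exact hne (congrArg Subtype.val (k3.elim ⟨g, k1 g hg _⟩ ⟨1, k1 1 A.one_mem _⟩))

lemma YRigC.ext (h : YRigC p V φ P M r ε ty δ) (l : Ch D) :
    ∃ l0 : Ch D, (∀ g d, cv l0 (φ g d) = cv l0 d) ∧ ∀ w ∈ M, cv l0 w = cv l w := by
  obtain ⟨π, -, k1, k2, -⟩ := exists_proj (φ := φ) h.ls.prime h.ls.ms.pD h.ls.cop ⊤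
  exact ⟨l.compAddMonoidHom (MonoidHom.toAdditive π), fun g d => congrArg (cv l) (k1 g trivial d),
    fun w hw => congrArg (cv l) (k2 w fun g _ => h.fix g w hw)⟩

lemma YRigC.per (h : YRigC p V φ P M r ε ty δ) (χ : X) {u w : D} (hu : u ∉ M) (hw : w ∈ M) :
    ε (u * w) * r (u * w) χ = cv (ty χ) w * (ε u * r u χ) := by
  refine mul_left_cancel₀ (yrig_stk (φ := φ) (ty χ)) ?_
  rw [h.val χ _ (mt (M.mul_mem_cancel_right hw).1 hu), mul_left_comm _ (cv _ _), h.val χ u hu,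
    mul_left_comm (cv _ _), mul_sum univ _ (cv _ _)]
  congr 1
  refine sum_congr rfl fun g _ => ?_
  rw [cv_mul, mul_comm, cv_da φ g _ w, h.fix _ w hw]

lemma YRigC.reg (h : YRigC p V φ P M r ε ty δ) {u : D} (hu : u ∉ M) (χ θ : X) :
    (Fintype.card D : ℂ) * P u χ θ = ε u * r u χ * conj (ε u * r u θ) := by
  rw [h.ls.reg hu (h.one u hu), map_mul, yrig_cj (h.se u)]
  linear_combination -(r u χ * conj (r u θ)) * yrig_sq (h.se u)

lemma YRigC.ne (h : YRigC p V φ P M r ε ty δ) {u : D} (hu : u ∉ M) (χ : X) : ε u * r u χ ≠ 0 :=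
  mul_ne_zero (left_ne_zero_of_mul_eq_one (yrig_sq (h.se u))) (h.ls.reg_ne hu (h.one u hu) χ)

lemma YRigC.shift (h : YRigC p V φ P M r ε ty δ) (l : Ch D) (χ : X) :
    ∃ (l0 : Ch D) (ψ : X) (s : ℂ), (s = 1 ∨ s = -1) ∧ (∀ w ∈ M, cv l0 w = cv l w) ∧
      (∀ d θ, cv l0 d * P d χ θ = s * P d ψ θ) ∧
      ∀ w ∈ M, cv (ty ψ) w = cv l w * cv (ty χ) w := by
  obtain ⟨l0, k1, k2⟩ := h.ext l
  obtain ⟨ψ, s, k3, k4⟩ := h.ls.ms.shift l0 k1 χ
  refine ⟨l0, ψ, s, k3, k2, k4, fun w hw => ?_⟩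
  have k5 : ∀ u, u ∉ M → cv l0 u * (ε u * r u χ) = s * (ε u * r u ψ) := fun u hu => by
    refine mul_right_cancel₀ ((map_ne_zero (starRingEnd ℂ)).2 (h.ne hu χ)) ?_
    rw [mul_assoc, mul_assoc s, ← h.reg hu, ← h.reg hu, mul_left_comm, k4, mul_left_comm]
  obtain ⟨u, hu⟩ : ∃ u, u ∉ M := by
    by_contra k
    exact h.ls.ne ((Subgroup.eq_top_iff' M).2 fun x => by_contra fun hx => k ⟨x, hx⟩)
  have k6 := k5 _ (mt (M.mul_mem_cancel_right hw).1 hu)
  rw [h.per χ hu hw, h.per ψ hu hw, cv_mul, k2 w hw] at k6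
  refine mul_right_cancel₀ (mul_ne_zero (left_ne_zero_of_mul_eq_one (yrig_sq k3)) (h.ne hu ψ)) ?_
  linear_combination (cv l w * cv (ty χ) w) * k5 u hu - k6

lemma YRigC.red (h : YRigC p V φ P M r ε ty δ) (χ : X) : ∃ (θ : X) (s : ℂ), (s = 1 ∨ s = -1) ∧
    ty θ ∈ perp M ∧ ∀ x, P 1 χ x = s * P 1 θ x := by
  obtain ⟨l0, θ, s, k1, -, k2, k3⟩ := h.shift (-ty χ) χ
  refine ⟨θ, s, k1, fun w hw => ?_, fun x => by rw [← k2, cv_one, one_mul]⟩
  rw [k3 w hw, ← cv_add, neg_add_cancel, cv_zero]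

open Classical in
lemma YRigC.tot (h : YRigC p V φ P M r ε ty δ) (f : D → ℂ) :
    ∑ d, (stb φ d : ℂ) * f d = Fintype.card E * ∑ d, (if d ∈ M then f d else 0) +
      ∑ d, if d ∈ M then 0 else f d := by
  rw [mul_sum, ← sum_add_distrib]
  refine sum_congr rfl fun d _ => ?_
  split_ifs with hd
  · rw [yrig_stb fun g => h.fix g d hd, add_zero]
  · rw [h.one d hd, Nat.cast_one, one_mul, mul_zero, zero_add]

lemma yrig_sum (h : MS0 p φ P) (χ θ : X) :
    ∑ d, (stb φ d : ℂ) * P d χ θ = if χ = θ then (Fintype.card E : ℂ) else 0 := by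
  have h1 := congrFun (congrFun h.sum χ) θ
  simpa only [Matrix.sum_apply, Matrix.smul_apply, smul_eq_mul, Matrix.one_apply, mul_ite, mul_one,
    mul_zero] using h1

lemma YRigC.const (h : YRigC p V φ P M r ε ty δ) {χ θ : X} (hχ : ty χ ∈ perp M)
    (hθ : ty θ ∈ perp M) {w : D} (hw : w ∈ M) : P w χ θ = P 1 χ θ := by
  classical
  have k0 : ∀ l, l ∉ perp M → fc (fun d => if d ∈ M then P d χ θ else 0) l = 0 := fun l hl => by
    obtain ⟨l0, ψ, s, -, k2, k3, k4⟩ := h.shift (-l) χ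
    obtain ⟨z, hz, hz'⟩ : ∃ z ∈ M, cv (-l) z ≠ 1 := by
      by_contra k
      exact hl (neg_mem_iff.1 fun z hz => by_contra fun e => k ⟨z, hz, e⟩)
    have k5 : ψ ≠ θ := fun e => hz' (by rw [← hθ z hz, ← e, k4 z hz, hχ z hz, mul_one])
    have k6 := h.tot fun d => cv l0 d * P d χ θ
    have k7 : ∑ d, (stb φ d : ℂ) * (cv l0 d * P d χ θ) = 0 := by
      simp only [k3, mul_left_comm _ s, ← mul_sum]
      rw [yrig_sum h.ls.ms, if_neg k5, mul_zero]
    have k8 : ∑ d, (if d ∈ M then 0 else cv l0 d * P d χ θ) =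
        cv (-l) z * ∑ d, (if d ∈ M then 0 else cv l0 d * P d χ θ) := by
      rw [mul_sum, ← Equiv.sum_comp (Equiv.mulRight z)]
      refine sum_congr rfl fun u _ => ?_
      rw [Equiv.coe_mulRight, M.mul_mem_cancel_right hz]
      split_ifs with hu
      · rw [mul_zero]
      · have k9 : P (u * z) χ θ = P u χ θ := mul_left_cancel₀ (card_ne D) (by
          rw [h.reg (mt (M.mul_mem_cancel_right hz).1 hu), h.reg hu, h.per χ hu hz, h.per θ hu hz,
            hχ z hz, hθ z hz, one_mul, one_mul])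
        rw [k9, cv_mul, k2 z hz]
        ring
    rw [k7, (eq_zero_of_mul_eq_self_left hz' k8.symm), add_zero] at k6
    refine mul_eq_zero_of_right _ ((sum_congr rfl fun d _ => ?_).trans
      ((mul_eq_zero.1 k6.symm).resolve_left (card_ne E)))
    beta_reduce
    split_ifs with hd
    · rw [k2 d hd, cv_neg, mul_comm]
    · rw [zero_mul]
  have k1 := fc_inv (fun d => if d ∈ M then P d χ θ else 0)
  have k2 := k1 w
  have k3 := k1 1
  rw [if_pos hw] at k2
  rw [if_pos M.one_mem] at k3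
  rw [k2, k3]
  refine sum_congr rfl fun l _ => ?_
  by_cases hl : l ∈ perp M
  · rw [hl w hw, cv_one]
  · rw [k0 l hl, zero_mul, zero_mul]

open Classical in
lemma yrig_sumU {l : Ch D} (hl : l ∈ perp M) : ∑ d, (if d ∈ M then 0 else cv l d) =
    (if l = 0 then (M.index : ℂ) * Nat.card M else 0) - Nat.card M := by
  have h1 := sum_sub_cv M l
  have h2 := sum_sub_cv ⊤ l
  have h3 : l ∈ perp ⊤ ↔ l = 0 :=
    ⟨fun k => AddChar.ext _ _ fun d => k d.toMul trivial, fun k => k ▸ (perp ⊤).zero_mem⟩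
  rw [Subgroup.card_top, ← M.index_mul_card, Nat.cast_mul] at h2
  simp only [Subgroup.mem_top, if_true, h3] at h2
  rw [if_pos hl] at h1
  rw [← h2, ← h1, ← sum_sub_distrib]
  exact sum_congr rfl fun d _ => by split_ifs <;> simp

open Classical in
lemma YRigC.form (h : YRigC p V φ P M r ε ty δ) {χ θ : X} (hχ : ty χ ∈ perp M)
    (hθ : ty θ ∈ perp M) : (stk φ (ty χ) : ℂ) * stk φ (ty θ) * Fintype.card E *
      ((Fintype.card D : ℂ) * (δ χ * δ θ * P 1 χ θ) - if χ = θ then (M.index : ℂ) else 0) =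
      ∑ g, ∑ g', (1 - if da φ g (ty χ) = da φ g' (ty θ) then (M.index : ℂ) else 0) := by
  have hc : (Nat.card M : ℂ) ≠ 0 := Nat.cast_ne_zero.2 Nat.card_pos.ne'
  have hN : (Fintype.card D : ℂ) = M.index * Nat.card M := by
    rw [← Nat.cast_mul, M.index_mul_card, Nat.card_eq_fintype_card]
  have k1 := h.tot fun d => P d χ θ
  have k2 : ∑ d, (if d ∈ M then P d χ θ else 0) = Nat.card M * P 1 χ θ := by
    have k3 := sum_sub_cv M 0
    rw [if_pos (perp M).zero_mem] at k3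
    rw [← k3, sum_mul]
    refine sum_congr rfl fun d _ => ?_
    split_ifs with hd
    · rw [cv_zero, one_mul, h.const hχ hθ hd]
    · rw [zero_mul]
  have k3 : (stk φ (ty χ) : ℂ) * stk φ (ty θ) * Fintype.card D * (δ χ * δ θ) *
      ∑ d, (if d ∈ M then 0 else P d χ θ) =
      ∑ g, ∑ g', ∑ d, if d ∈ M then 0 else cv (da φ g (ty χ) - da φ g' (ty θ)) d := by
    rw [mul_sum, sum_congr rfl fun g _ => sum_comm, sum_comm]
    refine sum_congr rfl fun d _ => ?_
    split_ifs with hd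
    · simp
    · have k4 := congrArg conj (h.val θ d hd)
      rw [map_mul, map_mul conj (δ θ), map_natCast, yrig_cj (h.sd θ), map_sum] at k4
      simp only [sub_eq_add_neg, cv_add, cv_neg, ← cv_conj, ← mul_sum, ← sum_mul]
      have k5 := h.val χ d hd
      have k6 := h.reg hd χ θ
      have k7 := yrig_sq (h.sd χ)
      have k8 := yrig_sq (h.sd θ)
      generalize ∑ g, conj (cv (da φ g (ty θ)) d) = b at k4
      generalize ∑ g, cv (da φ g (ty χ)) d = a at k5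
      linear_combination (stk φ (ty χ) * stk φ (ty θ) * (δ χ * δ θ)) * k6 +
        (δ χ * δ θ * (stk φ (ty θ) * conj (ε d * r d θ))) * k5 + (δ χ * δ θ * δ χ * a) * k4 +
        (δ θ * δ θ * a * b) * k7 + a * b * k8
  have k4 : ∑ g, ∑ g', ∑ d, (if d ∈ M then 0 else cv (da φ g (ty χ) - da φ g' (ty θ)) d) =
      -(Nat.card M : ℂ) *
        ∑ g, ∑ g', (1 - if da φ g (ty χ) = da φ g' (ty θ) then (M.index : ℂ) else 0) := by
    simp only [mul_sum]
    refine sum_congr rfl fun g _ => sum_congr rfl fun g' _ => ?_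
    rw [yrig_sumU (sub_mem ((da_perp h.ls.stab g _).2 hχ) ((da_perp h.ls.stab g' _).2 hθ))]
    simp only [sub_eq_zero]
    split_ifs <;> ring
  rw [yrig_sum h.ls.ms, k2] at k1
  rw [k4] at k3
  refine mul_left_cancel₀ hc ?_
  have k5 : δ χ * δ θ * (if χ = θ then (Fintype.card E : ℂ) else 0) * M.index =
      Fintype.card E * if χ = θ then (M.index : ℂ) else 0 := by
    split_ifs with e
    · rw [e, yrig_sq (h.sd θ), one_mul]
    · simp
  rw [hN] at k3 ⊢
  linear_combination -k3 - (stk φ (ty χ) * stk φ (ty θ) * M.index * Nat.card M * (δ χ * δ θ)) * k1 +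
    (stk φ (ty χ) * stk φ (ty θ) * Nat.card M) * k5

lemma yrig_main (h : LS p V φ P M r) (hM : ∀ g, ∀ d ∈ M, φ g d = d)
    (h1 : ∀ u, u ∉ M → stb φ u = 1) {m : ℕ} (hm : m * Fintype.card E + 1 = M.index) (h2 : 2 ≤ m)
    (hr : ∀ w ∈ M, Fintype.card E ≤ (P w).rank) :
    BSA (P 1) (Fintype.card D) M.index m (Fintype.card E) := by
  classical
  obtain ⟨ε, hε⟩ := h.eps
  have he := Fintype.card_pos (α := E)
  have hn : 2 * Fintype.card E < M.index := hm ▸ Nat.lt_succ_of_le (Nat.mul_le_mul_right _ h2)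
  obtain ⟨ty, δ, hδ, hv, hc⟩ := h.types hε h1 hn hM (by
    rw [sum_stk_sq h.prime h.ms.pD h.cop, h.ms.card_eq]
    refine sum_le_sum fun d _ => sq (stb φ d) ▸ Nat.mul_le_mul_left _ ?_
    by_cases hd : d ∈ M
    · exact (yrig_stb fun g => hM g d hd).trans_le (hr d hd)
    · exact (h.rank d hd).ge)
  have k : YRigC p V φ P M r ε ty δ := ⟨h, hM, h1, hε.sign, hδ, hv⟩
  have hE := card_ne E
  have hm' : (m : ℂ) * Fintype.card E + 1 = M.index := by exact_mod_cast hm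
  have z0 := (perp M).zero_mem
  have s1 : ∀ l ∈ perp M, l ≠ 0 → stk φ l = 1 := fun l hl h0 => Nat.card_eq_one_iff_unique.2
    ⟨⟨fun a b => Subtype.ext ((yrig_free h h1 hl h0 a.2).trans (yrig_free h h1 hl h0 b.2).symm)⟩,
      ⟨⟨1, da_one l⟩⟩⟩
  have s2 : ∀ (l : Ch D) g, l ≠ 0 → da φ g l ≠ 0 := fun l g h0 e =>
    h0 (by rw [← yrig_back (φ := φ) g l, e, da_zero])
  have v1 : ∀ χ θ, ty χ = 0 → ty θ = 0 → (Fintype.card D : ℂ) * (δ χ * δ θ * P 1 χ θ) =
      (if χ = θ then (M.index : ℂ) else 0) - m := fun χ θ a b => by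
    have k1 := k.form (a ▸ z0) (b ▸ z0)
    simp only [a, b, da_zero, stk_zero, if_true, sum_const, card_univ, nsmul_eq_mul] at k1
    refine mul_left_cancel₀ (mul_ne_zero (mul_ne_zero hE hE) hE) ?_
    linear_combination k1 + (Fintype.card E * Fintype.card E) * hm'
  have v2 : ∀ χ θ, ty χ ∈ perp M → ty χ ≠ 0 → ty θ = 0 →
      (Fintype.card D : ℂ) * (δ χ * δ θ * P 1 χ θ) = 1 ∧
      (Fintype.card D : ℂ) * (δ χ * δ θ * P 1 θ χ) = 1 := fun χ θ a a' b => by
    have k0 : χ ≠ θ := fun e => a' (e ▸ b)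
    have k1 := k.form a (b ▸ z0)
    have k2 := k.form (b ▸ z0) a
    simp only [b, da_zero, stk_zero, s1 _ a a', s2 _ _ a', (s2 _ _ a').symm, k0, k0.symm, if_false,
      sum_const, card_univ, nsmul_eq_mul, Nat.cast_one] at k1 k2
    constructor <;> refine mul_left_cancel₀ (mul_ne_zero hE hE) ?_
    · linear_combination k1
    · linear_combination k2
  have v3 : ∀ χ, ty χ ∈ perp M → ty χ ≠ 0 →
      (Fintype.card D : ℂ) * P 1 χ χ = Fintype.card E := fun χ a a' => by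
    have k0 : ∀ g g', da φ g (ty χ) = da φ g' (ty χ) ↔ g = g' := fun g g' =>
      ⟨fun e => (inv_mul_eq_one.1 (yrig_free h h1 a a' (by rw [da_mul, ← e, yrig_back]))),
        fun e => e ▸ rfl⟩
    have k1 := k.form a a
    simp only [s1 _ a a', k0, yrig_sq (hδ χ), if_true, sum_sub_distrib, sum_ite_eq, mem_univ,
      sum_const, card_univ, nsmul_eq_mul, Nat.cast_one] at k1
    refine mul_left_cancel₀ hE ?_
    linear_combination k1
  obtain ⟨l, hl, hl'⟩ : ∃ l ∈ perp M, l ≠ 0 := by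
    by_contra a
    have k1 := card_perp' M
    rw [(AddSubgroup.eq_bot_iff_forall _).2 fun x hx => by_contra fun b => a ⟨x, hx, b⟩,
      AddSubgroup.card_bot] at k1
    omega
  obtain ⟨χ₀, c0⟩ := card_pos.1 ((hc l).trans (s1 l hl hl') ▸ one_pos)
  obtain ⟨g₀, c1⟩ := (mem_filter.1 c0).2
  have c2 := hc 0
  simp only [da_zero, exists_const, stk_zero] at c2
  let q := (equivFinOfCardEq c2).symm
  obtain ⟨ψ, p1, p2, p3⟩ : ∃ ψ : ℕ → X, (∀ j < Fintype.card E, ty (ψ j) = 0) ∧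
      (∀ i < Fintype.card E, ∀ j < Fintype.card E, ψ i = ψ j ↔ i = j) ∧
      ∀ θ, ty θ = 0 → ∃ j < Fintype.card E, ψ j = θ := by
    refine ⟨fun j => if a : j < Fintype.card E then (q ⟨j, a⟩).1 else χ₀, fun j a => ?_,
      fun i a j b => ?_, fun θ a => ?_⟩
    · exact (congrArg ty (dif_pos a)).trans (mem_filter.1 (q ⟨j, a⟩).2).2.symm
    · simp only [dif_pos a, dif_pos b, Subtype.val_inj, q.apply_eq_iff_eq, Fin.mk.injEq]
    · obtain ⟨j, hj⟩ := q.surjective ⟨θ, mem_filter.2 ⟨mem_univ _, a.symm⟩⟩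
      exact ⟨j, j.2, (dif_pos j.2).trans (congrArg Subtype.val hj)⟩
  have row : ∀ χ, ty χ ∈ perp M → ty χ ≠ 0 → ∀ θ,
      P 1 χ θ = ∑ j ∈ range (Fintype.card E), δ χ * δ (ψ j) * P 1 (ψ j) θ := fun χ a a' => by
    refine yrig_norm (h.ms.herm 1) (h.ms.idem 1) χ ψ _ _ (mul_left_cancel₀ (card_ne D) ?_)
      fun i hi => mul_left_cancel₀ (mul_ne_zero (card_ne D) (left_ne_zero_of_mul_eq_one
        (yrig_sq (yrig_sg (hδ χ) (hδ (ψ i)))))) ?_
    · rw [v3 χ a a', mul_sum, sum_congr rfl fun j hj => (v2 χ _ a a' (p1 j (mem_range.1 hj))).2]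
      simp
    · have k1 : ∀ j ∈ range (Fintype.card E), Fintype.card D * (δ χ * δ (ψ i)) *
          (δ χ * δ (ψ j) * P 1 (ψ j) (ψ i)) = (if j = i then (M.index : ℂ) else 0) - m :=
        fun j hj => by
          have k2 := v1 _ _ (p1 j (mem_range.1 hj)) (p1 i hi)
          simp only [p2 j (mem_range.1 hj) i hi] at k2
          linear_combination k2 +
            (Fintype.card D * (δ (ψ j) * δ (ψ i) * P 1 (ψ j) (ψ i))) * yrig_sq (hδ χ)
      rw [mul_assoc, (v2 χ _ a a' (p1 i hi)).1, mul_sum, sum_congr rfl k1, sum_sub_distrib,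
        sum_ite_eq', if_pos (mem_range.2 hi), sum_const, card_range, nsmul_eq_mul]
      linear_combination hm'
  refine ⟨ψ, fun j => δ χ₀ * δ (ψ j), fun j => yrig_sg (hδ _) (hδ _), fun i hi j hj => ?_,
    fun χ => ?_, χ₀, row χ₀ (c1 ▸ (da_perp h.stab g₀ l).2 hl) (c1 ▸ s2 l g₀ hl')⟩
  · have k2 := v1 _ _ (p1 i hi) (p1 j hj)
    simp only [p2 i hi j hj] at k2
    linear_combination k2 +
      (Fintype.card D * (δ (ψ i) * δ (ψ j) * P 1 (ψ i) (ψ j))) * yrig_sq (hδ χ₀)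
  · obtain ⟨θ, s, a, b, c⟩ := k.red χ
    by_cases d : ty θ = 0
    · obtain ⟨j, hj, rfl⟩ := p3 θ d
      have k1 := yrig_sg (hδ χ₀) (hδ (ψ j))
      refine ⟨_, yrig_sg a k1, .inl ⟨j, hj, fun x => ?_⟩⟩
      linear_combination c x - s * P 1 (ψ j) x * yrig_sq k1
    · refine ⟨_, yrig_sg a (yrig_sg (hδ θ) (hδ χ₀)), .inr fun x => ?_⟩
      rw [c, row θ b d, mul_assoc s, mul_sum (range _) _ (_ * _)]
      refine congrArg _ (sum_congr rfl fun j _ => ?_)
      linear_combination -(δ θ * δ (ψ j) * P 1 (ψ j) x) * yrig_sq (hδ χ₀)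

end main

theorem LS.rigid {p : ℕ} {V : ValuationSubring ℂ} {E D X : Type} [Group E] [Fintype E]
    [iD : Group D] [Fintype D] [Fintype X] [DecidableEq X] {φ : E →* MulAut D}
    {P : D → Matrix X X ℂ} {M : Subgroup D} {r : D → X → ℂ} (h : LS p V φ P M r)
    (hM : ∀ g, ∀ d ∈ M, φ g d = d) (h1 : ∀ u, u ∉ M → stb φ u = 1) {m : ℕ}
    (hm : m * Fintype.card E + 1 = M.index) (h2 : 2 ≤ m)
    (hr : ∀ w ∈ M, Fintype.card E ≤ (P w).rank) :
    BSA (P 1) (Fintype.card D) M.index m (Fintype.card E) := by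
  let : CommGroup D := { iD with mul_comm := h.ms.comm }
  exact yrig_main h hM h1 hm h2 hr

end Pool.Agent.Lib.MP_b6945b_al.Kx
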