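import Pool.Agent.Lib.MP_b6945b_al.Kx.ZDec
import Pool.Agent.Lib.MP_b6945b_al.Kx.YGT

set_option autoImplicit false

/-!
Basic sets.
-/

namespace Pool.Agent.Lib.MP_b6945b_al.Kx

open St Bi Finset
open MonoidAlgebra (single)
open scoped ComplexConjugate

variable {G : Type} [Group G] [Fintype G] {V : ValuationSubring ℂ} {p : ℕ} [Fact p.Prime]
  {m : ℕ} {H D : Subgroup G} {c β : MonoidAlgebra V G} {x y z : G → ℂ} {u n s : G}
  {I : IrrData G} {i₀ : Fin I.n}

lemma zbs_sub_right (H : Subgroup G) (x y y' : G → ℂ) :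
    pr H x (y - y') = pr H x y - pr H x y' := by
  rw [← pr_conj H (y - y') x, pr_sub_left, map_sub, pr_conj, pr_conj]

lemma zbs_row {X : Type} (H : Subgroup G) (R : X → G → ℂ) (χ : X) (ψ : ℕ → X) (a : ℕ → ℂ)
    (t : Finset ℕ) (h : ∀ θ, pr H (R χ) (R θ) = ∑ j ∈ t, a j * pr H (R (ψ j)) (R θ)) :
    R χ = ∑ j ∈ t, a j • R (ψ j) := by
  have h0 : ∀ θ, pr H (R χ - ∑ j ∈ t, a j • R (ψ j)) (R θ) = 0 := fun θ => by
    rw [pr_sub_left, pr_sum_left, h θ]
    simp only [pr_smul_left]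
    exact sub_self _
  have h1 : ∀ w : G → ℂ, (∀ θ, pr H w (R θ) = 0) →
      pr H w (R χ - ∑ j ∈ t, a j • R (ψ j)) = 0 := fun w hw => by
    rw [zbs_sub_right, pr_sum_right, hw]
    simp only [pr_smul_right, hw, mul_zero, Finset.sum_const_zero, sub_zero]
  exact sub_eq_zero.1 (pr_self_eq_zero (h1 _ h0))

omit [Fintype G] in
lemma zbs_reg_one (x : G → ℂ) : Reg p x 1 = x 1 :=
  Reg_apply_reg x (by
    rw [orderOf_one, Nat.dvd_one]
    exact (Fact.out : p.Prime).ne_one)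

theorem bsc_of_bsa (hp : (p : ℂ) ∈ V.nonunits) (h : Rt p m ⊤ D c)
    (he : IsBlockIdem I i₀ (bk D c ⊤)) {N k m' f : ℕ}
    (hb : BSA (mat p I i₀ (eta D c (orb (stabT ⊤ D c) 1))) N k m' f) :
    ∃ φ, BSC p ⊤ (bk D c ⊤) N k m' f φ := by
  obtain ⟨ψ, δ, hδ, hg, hd, χ₀, hx⟩ := hb
  let R : {i // I.Bl V i₀ i} → G → ℂ := fun i => Reg p (I.χ i)
  have hQ : ∀ i j, mat p I i₀ (eta D c (orb (stabT ⊤ D c) 1)) i j = pr ⊤ (R i) (R j) :=
    fun i j => by
      rw [mat_eq_pr hp h he D.one_mem i j, Cu_one, gam_one (chi_mem_CFs he i.2),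
        gam_one (chi_mem_CFs he j.2)]
  simp only [hQ] at hg hd hx
  have hc : ∀ j, conj (δ j) = δ j := fun j => by
    rcases hδ j with e | e <;> simp [e]
  refine ⟨fun j => δ j • R (ψ j), fun i hi j hj => ?_, fun z hz => ?_,
    I.χ χ₀, (irrIn_top he).2 ⟨χ₀, rfl⟩, zbs_row ⊤ R χ₀ ψ δ (range f) hx⟩
  · rw [pr_smul_left, pr_smul_right, hc, ← hg i hi j hj, mul_assoc]
  · obtain ⟨i, rfl⟩ := (irrIn_top he).1 hz
    obtain ⟨s, hs, hr⟩ := hd i
    obtain ⟨s', hs', rfl⟩ : ∃ s' : ℤ, (s' = 1 ∨ s' = -1) ∧ (s' : ℂ) = s := by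
      rcases hs with e | e
      · exact ⟨1, Or.inl rfl, by simp [e]⟩
      · exact ⟨-1, Or.inr rfl, by simp [e]⟩
    refine ⟨s', hs', ?_⟩
    rcases hr with ⟨j, hj, e⟩ | e
    · refine Or.inl ⟨j, hj, ?_⟩
      have := zbs_row ⊤ R i ψ (fun j => (s' : ℂ) * δ j) {j} fun θ => by
        rw [Finset.sum_singleton, e θ, mul_assoc]
      rw [Finset.sum_singleton] at this
      rw [smul_smul]
      exact this
    · refine Or.inr ?_
      have := zbs_row ⊤ R i ψ (fun j => (s' : ℂ) * δ j) (range f) fun θ => by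
        rw [e θ, Finset.mul_sum]
        simp only [mul_assoc]
      rw [Finset.smul_sum]
      simp only [smul_smul]
      exact this

variable {N k m' f : ℕ} {φ : ℕ → G → ℂ}

omit [Fact p.Prime] in
lemma BSC.pr_sum (h : BSC p H β N k m' f φ) (hm : m' * f + 1 = k) {j : ℕ} (hj : j < f) :
    (N : ℂ) * pr H (φ j) (∑ i ∈ range f, φ i) = 1 := by
  rw [pr_sum_right, Finset.mul_sum,
    Finset.sum_congr rfl fun i hi => h.gram j hj i (Finset.mem_range.1 hi),
    Finset.sum_sub_distrib, Finset.sum_ite_eq, if_pos (Finset.mem_range.2 hj), Finset.sum_const,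
    Finset.card_range, ← hm]
  push_cast
  rw [nsmul_eq_mul]
  ring

theorem BSC.can_iff (h : BSC p H β N k m' f φ) (hm : m' * f + 1 = k) (hN : N ≠ 0)
    (h2 : f = 1 ∨ 2 ≤ m') (y : G → ℂ) :
    Can p H β ((f : ℂ) / N) y ↔ y = ∑ i ∈ range f, φ i := by
  obtain ⟨z₀, hz₀, he₀⟩ := h.exc
  have hN' : (N : ℂ) ≠ 0 := Nat.cast_ne_zero.2 hN
  constructor
  · rintro ⟨⟨z, hz, rfl⟩, ht⟩
    obtain ⟨s, hs, hd⟩ := h.dec z hz
    have hss : (s : ℂ) * conj (s : ℂ) = 1 := by
      rcases hs with e | e <;> simp [e]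
    have key : Reg p z = (s : ℂ) • ∑ j ∈ range f, φ j := by
      rcases hd with ⟨j, hj, e⟩ | e
      · have g := h.gram j hj j hj
        rw [e, pr_smul_left, pr_smul_right, ← mul_assoc, hss, one_mul] at ht
        rw [ht, if_pos rfl, mul_div_cancel₀ _ hN'] at g
        have g1 : f + m' = k := by
          have : ((f + m' : ℕ) : ℂ) = k := by
            push_cast
            rw [g]
            ring
          exact_mod_cast this
        have hf : f = 1 := by
          rcases h2 with e1 | e1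
          · exact e1
          · by_contra hne
            have : 2 ≤ f := by omega
            nlinarith
        subst hf
        have hj0 : j = 0 := by omega
        rw [e, hj0, Finset.sum_range_one]
      · exact e
    obtain ⟨a, ha, ea⟩ := hz.one_pos
    obtain ⟨b, hb, eb⟩ := hz₀.one_pos
    rcases hs with e | e
    · rw [key, e]
      simp
    · exfalso
      have k1 := congrFun key 1
      rw [← he₀, Pi.smul_apply, zbs_reg_one, zbs_reg_one, ea, eb, e, smul_eq_mul] at k1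
      have k2 : ((a + b : ℕ) : ℂ) = 0 := by
        push_cast at k1 ⊢
        rw [k1]
        ring
      have k3 : a + b = 0 := by exact_mod_cast k2
      omega
  · rintro rfl
    refine ⟨⟨z₀, hz₀, he₀.symm⟩, ?_⟩
    rw [eq_div_iff hN', mul_comm, pr_sum_left, Finset.mul_sum,
      Finset.sum_congr rfl fun j hj => h.pr_sum hm (Finset.mem_range.1 hj)]
    simp

omit [Fact p.Prime] in
lemma BSC.coord (h : BSC p H β N k m' f φ) (hm : m' * f + 1 = k) (a : ℕ → ℂ) :
    (N : ℂ) * pr H (∑ j ∈ range f, a j • φ j) (∑ i ∈ range f, φ i) = ∑ j ∈ range f, a j := by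
  rw [pr_sum_left, Finset.mul_sum]
  refine Finset.sum_congr rfl fun j hj => ?_
  rw [pr_smul_left, mul_left_comm, h.pr_sum hm (Finset.mem_range.1 hj), mul_one]

omit [Fact p.Prime] in
lemma BSC.form (h : BSC p H β N k m' f φ) (a b : ℕ → ℂ) :
    (N : ℂ) * pr H (∑ j ∈ range f, a j • φ j) (∑ j ∈ range f, b j • φ j) =
      k * ∑ j ∈ range f, a j * conj (b j) -
        m' * ((∑ j ∈ range f, a j) * conj (∑ j ∈ range f, b j)) := by
  rw [pr_sum_left, Finset.mul_sum, Finset.mul_sum, Finset.sum_mul, Finset.mul_sum,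
    ← Finset.sum_sub_distrib]
  refine Finset.sum_congr rfl fun i hi => ?_
  have e : ∀ j ∈ range f, (N : ℂ) * pr H (φ i) (b j • φ j) =
      (if i = j then (k : ℂ) * conj (b j) else 0) - m' * conj (b j) := fun j hj => by
    rw [pr_smul_right, mul_left_comm, h.gram i (Finset.mem_range.1 hi) j (Finset.mem_range.1 hj)]
    split_ifs <;> ring
  rw [pr_smul_left, mul_left_comm, pr_sum_right, Finset.mul_sum, Finset.sum_congr rfl e,
    Finset.sum_sub_distrib, Finset.sum_ite_eq, if_pos hi, ← Finset.mul_sum, map_sum]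
  ring

theorem BSC.exists_xi (hc : ∀ a ∈ D, ∀ b ∈ D, a * b = b * a) [Fintype D] {d : D}
    (hβ : HB (Cu (d : G)) β) (h : BSC p (Cu (d : G)) β N k m' f φ) (I : IrrData G) (i : Fin I.n) :
    ∃ ξ : ℕ → D → ℂ, (∀ j, GS ⊥ (ξ j)) ∧ ∀ v : D, Subgroup.zpowers v = Subgroup.zpowers d →
      gam p (v : G) β (I.χ i) = ∑ j ∈ range f, ξ j v • φ j := by
  obtain ⟨K, t, a, ν, z, hz, h1, hm, hg⟩ := gam_dec (p := p) hβ I i
  have hco : ∀ l : Fin K, ∃ w : ℕ → ℤ, l ∈ t →
      Reg p (z l) = ∑ j ∈ range f, (w j : ℂ) • φ j := fun l => by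
    by_cases hl : l ∈ t
    · obtain ⟨s, -, ⟨j, hj, e⟩ | e⟩ := h.dec _ (hz l hl)
      · refine ⟨fun j' => if j = j' then s else 0, fun _ => ?_⟩
        rw [e, Finset.sum_eq_single j (fun j' _ hne => by simp [hne.symm])
          (fun hn => absurd (Finset.mem_range.2 hj) hn)]
        simp
      · exact ⟨fun _ => s, fun _ => by rw [e, Finset.smul_sum]⟩
    · exact ⟨0, fun hl' => absurd hl' hl⟩
  choose w hw using hco
  have hmem : ∀ v ∈ Subgroup.zpowers d, (v : G) ∈ Subgroup.zpowers (d : G) := by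
    rintro v ⟨r, rfl⟩
    exact ⟨r, by simp⟩
  have hx : ∀ j : ℕ, ∃ ξ : D → ℂ, GS ⊥ ξ ∧ ∀ v ∈ Subgroup.zpowers d,
      ξ v = ∑ l ∈ t, ((a l * w l j : ℤ) : ℂ) * ν l (v : G) := fun j =>
    exists_gs (fun a b => Subtype.ext (hc a a.2 b b.2)) (Subgroup.zpowers d) t
      (fun l => a l * w l j) (fun l v => ν l (v : G)) h1
      fun l a ha b hb => hm l a (hmem a ha) b (hmem b hb)
  choose ξ hξ hv using hx
  refine ⟨ξ, hξ, fun v e => ?_⟩
  have e1 : Subgroup.zpowers (v : G) = Subgroup.zpowers (d : G) := by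
    have := congrArg (Subgroup.map D.subtype) e
    rwa [MonoidHom.map_zpowers, MonoidHom.map_zpowers] at this
  have e2 : v ∈ Subgroup.zpowers d := e ▸ Subgroup.mem_zpowers v
  rw [hg v e1, Finset.sum_congr rfl fun l hl => by rw [hw l hl, Finset.smul_sum],
    Finset.sum_comm]
  refine Finset.sum_congr rfl fun j _ => ?_
  rw [hv j v e2, Finset.sum_smul]
  refine Finset.sum_congr rfl fun l _ => ?_
  rw [smul_smul]
  congr 1
  push_cast
  ring

end Pool.Agent.Lib.MP_b6945b_al.Kx
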