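import Pool.Agent.Lib.MP_b6945b_al.Kx.ZGam
import Pool.Agent.Lib.MP_b6945b_al.Bi.BLab
import Pool.Agent.Lib.MP_b6945b_al.Bi.BG4

set_option autoImplicit false

/-!
Invariance under conjugation.
-/

namespace Pool.Agent.Lib.MP_b6945b_al.Kx

open St Bi Finset
open MonoidAlgebra (single)
open scoped ComplexConjugate

variable {G : Type} [Group G] [Fintype G] {V : ValuationSubring ℂ} {p : ℕ} [Fact p.Prime]
  {m : ℕ} {H D : Subgroup G} {c β : MonoidAlgebra V G} {x y z : G → ℂ} {u n s : G}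
  {I : IrrData G} {i₀ : Fin I.n}

lemma pr_cjf (n : G) (H : Subgroup G) (x y : G → ℂ) :
    pr (cg n H) (cjf n x) (cjf n y) = pr H x y := by
  rw [pr, pr, card_cg]
  refine congrArg _ (Fintype.sum_equiv (MulAut.conj n).toEquiv _ _ fun s => ?_).symm
  simp [cjf, mul_assoc]

omit [Fintype G] in
lemma zcj_ord (n s : G) : orderOf (n⁻¹ * s * n) = orderOf s := by
  rw [← MulAut.conj_symm_apply, MulEquiv.orderOf_eq]

omit [Fintype G] in
lemma zcj_mul (n g : G) (β : MonoidAlgebra V G) :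
    single g 1 * cjRep V G n β = cjRep V G n (single (n⁻¹ * g * n) 1 * β) := by
  rw [cjRep_mul, cjRep_apply n (single _ _), MonoidAlgebra.single_mul_single,
    MonoidAlgebra.single_mul_single, mul_one, mul_one, mul_inv_cancel_right, mul_inv_cancel_left]

omit [Fintype G] [Fact p.Prime] in
lemma zcj_reg (n : G) (z : G → ℂ) : Reg p (cjf n z) = cjf n (Reg p z) := funext fun g =>
  if_congr (by rw [zcj_ord]) rfl rfl

omit [Fact p.Prime] in
lemma gam_cjf (hx : IsCF x) (n u : G) (β : MonoidAlgebra V G) :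
    gam p (n * u * n⁻¹) (cjRep V G n β) x = cjf n (gam p u β x) := by
  funext s
  have h1 : s ∈ Cu (n * u * n⁻¹) ↔ n⁻¹ * s * n ∈ Cu u := by rw [Cu_conj, mem_cg]
  by_cases h : s ∈ Cu (n * u * n⁻¹) ∧ ¬ p ∣ orderOf s
  · rw [gam_apply h.1 h.2, cjf, gam_apply (h1.1 h.1) (zcj_ord n s ▸ h.2), zcj_mul, ev_cj_cf hx]
    simp only [mul_assoc, inv_mul_cancel_left]
  · rw [gam_out h, cjf, gam_out (by rwa [← h1, zcj_ord])]

lemma IrrIn.cjf (h : IrrIn H β z) (n : G) : IrrIn (cg n H) (cjRep V G n β) (cjf n z) := by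
  refine ⟨⟨fun g hg => h.mem.1 _ (mt mem_cg.2 hg), fun k hk g => ?_, fun g hg => ?_⟩,
    h.sc.comp (fun g => n⁻¹ * g * n) (fun a ha => mem_cg.1 ha) fun a _ b _ => by group,
    (pr_cjf n H z z).trans h.one⟩
  · exact (congrArg z (by group)).trans (h.mem.2.1 _ (mem_cg.1 hk) (n⁻¹ * g * n))
  · rw [zcj_mul, ev_cj]
    refine (congrArg (ev · _) (funext fun y => congrArg z (by group))).trans
      (h.mem.2.2 _ (mem_cg.1 hg))

omit [Fact p.Prime] in
lemma Can.cjf {t : ℂ} (h : Can p H β t y) (n : G) :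
    Can p (cg n H) (cjRep V G n β) t (cjf n y) := by
  obtain ⟨⟨z, h1, rfl⟩, h2⟩ := h
  exact ⟨⟨_, h1.cjf n, (zcj_reg n z).symm⟩, (pr_cjf n H _ _).trans h2⟩

lemma fu_conj (hn : n ∈ stabT ⊤ D c) (u : G) : fu D c (n * u * n⁻¹) = fu D c u := by
  have h1 := stabT_conj n (Cu u) D c
  have h2 := Cz_cg n D
  rw [cg_eq_iff.2 hn.2.1] at h1 h2
  rw [fu, fu, Cu_conj, ← hn.2.2, h1, hn.2.2]
  conv_lhs => rw [h2]
  exact Subgroup.relIndex_map_map_of_injective _ _ (MulAut.conj n).injective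

omit [Fact p.Prime] in
lemma yv_eq {t : ℂ} (h : ∀ y', Can p H β t y' ↔ y' = y) : yv p H β t = y := by
  have h1 : ∃ y, Can p H β t y := ⟨y, (h y).2 rfl⟩
  rw [yv, dif_pos h1]
  exact (h _).1 h1.choose_spec

theorem rr_conj (hp : (p : ℂ) ∈ V.nonunits) (h : Rt p m ⊤ D c) (hu : u ∈ D)
    (hn : n ∈ stabT ⊤ D c) (hx : IsCF x)
    (hy : ∀ y', Can p (Cu u) (bk D c (Cu u)) (fu D c u / Nat.card D) y' ↔ y' = y) :
    rr p D c (n * u * n⁻¹) x = rr p D c u x := by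
  rw [rr, rr, h.bk_T hp hu hn, fu_conj hn, gam_cjf hx, Cu_conj, yv_eq hy,
    yv_eq (y := cjf n y) fun y' => ⟨fun k => ?_, fun k => k ▸ ((hy y).2 rfl).cjf n⟩, pr_cjf]
  have k1 := k.cjf n⁻¹
  have k2 : cg n⁻¹ (cg n (Cu u)) = Cu u := by
    ext g
    simp only [mem_cg, inv_inv, mul_assoc, inv_mul_cancel_left, inv_mul_cancel, mul_one]
  rw [k2, frpg_inv_cj, hy] at k1
  rw [← k1]
  exact funext fun g => congrArg y' (by group)

end Pool.Agent.Lib.MP_b6945b_al.Kx
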