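import Pool.Agent.Lib.MP_b6945b_al.RelDefs
import Pool.Agent.Lib.MP_b6945b_al.FactorDefs

set_option autoImplicit false

/-!
Cyclic inertial quotients of prime power order act freely on an invariant subgroup.
-/

namespace Pool.Agent.Lib.MP_b6945b_al.Kx

lemma zcy_fix {D : Type} [Group D] {σ : MulAut D} {u : D} (h : σ u = u) (n : ℕ) :
    (σ ^ n) u = u := by
  induction n with
  | zero => rfl
  | succ n ih => rw [pow_succ, MulAut.mul_apply, h, ih]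

lemma zcy_aut {D : Type} [CommGroup D] [Finite D] {p q k : ℕ} (hp : p.Prime) (hD : IsPGroup p D)
    (h0 : (⊤ : Subgroup D) ≠ ⊥) (hq : q.Prime) (hne : q ≠ p) {σ : MulAut D} (h : σ ^ q ^ k = 1) :
    ∃ T : Subgroup D, T ≠ ⊥ ∧ ∀ i : ℕ, ∀ u ∈ T,
      (σ ^ i) u ∈ T ∧ ((σ ^ i) u = u → u = 1 ∨ σ ^ i = 1) := by
  obtain ⟨a, -, ha⟩ := (Nat.dvd_prime_pow hq).1 (orderOf_dvd_of_pow_eq_one h)
  rcases a with _ | j
  · rw [pow_zero, orderOf_eq_one_iff] at ha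
    exact ⟨⊤, h0, fun i u _ => ⟨trivial, fun _ => Or.inr (by rw [ha, one_pow])⟩⟩
  set τ := σ ^ q ^ j with hτ
  have h1 : τ ≠ 1 := fun e => by
    have h2 := orderOf_dvd_of_pow_eq_one e
    rw [ha, Nat.pow_dvd_pow_iff_le_right hq.one_lt] at h2
    omega
  have h2 : τ ^ q = 1 := by rw [hτ, ← pow_mul, ← pow_succ, ← ha, pow_orderOf_eq_one]
  refine ⟨(τ.toMonoidHom / MonoidHom.id D).range, fun e => h1 (MulEquiv.ext fun d => ?_),
    fun i u ⟨d, hd⟩ => ⟨⟨(σ ^ i) d, ?_⟩, fun e => or_iff_not_imp_right.2 fun hi => ?_⟩⟩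
  · exact div_eq_one.1 (Subgroup.mem_bot.1 (e.le ⟨d, rfl⟩))
  · rw [← hd]
    change τ ((σ ^ i) d) / (σ ^ i) d = (σ ^ i) (τ d / d)
    rw [map_div, ← MulAut.mul_apply, ← MulAut.mul_apply, hτ, ← pow_add, ← pow_add, add_comm]
  have hd' : τ d = u * d := div_eq_iff_eq_mul.1 hd
  have h3 : Nat.gcd i (q ^ (j + 1)) ≠ q ^ (j + 1) := fun e' =>
    hi (orderOf_dvd_iff_pow_eq_one.1 (ha ▸ e' ▸ Nat.gcd_dvd_left i _))
  obtain ⟨r, hr⟩ := Nat.exists_mul_mod_eq_gcd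
    (lt_of_le_of_ne (Nat.gcd_le_right i (pow_pos hq.pos _)) h3)
  obtain ⟨b, hb, hb'⟩ := (Nat.dvd_prime_pow hq).1 (Nat.gcd_dvd_right i (q ^ (j + 1)))
  have h4 : b ≤ j := by
    by_contra e'
    exact h3 (by rw [hb']; congr 1; omega)
  have h5 : τ u = u := by
    have h6 := zcy_fix e r
    rw [← pow_mul, ← pow_mod_orderOf, ha, hr.2, hb'] at h6
    have h7 := zcy_fix h6 (q ^ (j - b))
    rwa [← pow_mul, ← pow_add, Nat.add_sub_cancel' h4] at h7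
  have h6 : ∀ n : ℕ, (τ ^ n) d = u ^ n * d := fun n => by
    induction n with
    | zero => simp
    | succ n ih => rw [pow_succ', MulAut.mul_apply, ih, map_mul, map_pow, h5, hd', pow_succ, mul_assoc]
  have h7 := h6 q
  rw [h2, MulAut.one_apply, right_eq_mul] at h7
  obtain ⟨n, hn⟩ := hD u
  exact (pow_eq_one_iff_of_coprime (Nat.Coprime.pow_right n
    ((Nat.coprime_primes hq hp).2 hne))).1 ⟨h7, hn⟩

/-- A cyclic inertial quotient of prime power order acts freely on an invariant subgroup. -/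
theorem relInertia_of_cyclic {G : Type} [Group G] [Finite G] {p : ℕ} (hp : p.Prime)
    {M : Ideal (integralClosure ℤ ℂ)} {χ : G → ℂ} {D : Subgroup G} (hD : IsPGroup p D)
    (h0 : D ≠ ⊥) (hc : ∀ x ∈ D, ∀ y ∈ D, x * y = y * x)
    (h : ∀ ψ : Subgroup.centralizer (D : Set G) → ℂ, IsIrrChar ψ →
      (∀ x : G, InIdeal M (omega ψ {h | IsConj x (h : G)} - omega χ {g | IsConj x g})) →
      ∃ (s : G) (q k : ℕ), q.Prime ∧ q ≠ p ∧ s ∈ Subgroup.normalizer (D : Set G) ∧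
        s ^ q ^ k ∈ Subgroup.centralizer (D : Set G) ∧ ∀ t, Inert M D ψ t →
          ∃ i : ℕ, (s ^ i)⁻¹ * t ∈ Subgroup.centralizer (D : Set G)) : RelInertia M χ D := by
  intro ψ hψ hi
  obtain ⟨s, q, k, hq, hne, hs, h1, h2⟩ := h ψ hψ hi
  let _ : CommGroup D := { (inferInstance : Group D) with
    mul_comm := fun a b => Subtype.ext (hc _ a.2 _ b.2) }
  have h3 : ∀ (i : ℕ) (d : D), (((D.normalizerMonoidHom ⟨s, hs⟩ ^ i) d : D) : G) =
      s ^ i * d * (s ^ i)⁻¹ := fun i d => by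
    rw [← map_pow]
    rfl
  obtain ⟨T, t1, t2⟩ := zcy_aut (k := k) hp hD (fun e => h0 (by
      rw [← Subgroup.range_subtype D, MonoidHom.range_eq_map, e, Subgroup.map_bot])) hq hne
    (σ := D.normalizerMonoidHom ⟨s, hs⟩) (MulEquiv.ext fun d => Subtype.ext (by
      rw [h3, ← h1 d d.2, mul_inv_cancel_right]; rfl))
  refine ⟨T.map D.subtype, Subgroup.map_subtype_le T,
    fun e => t1 ((Subgroup.map_eq_bot_iff_of_injective T D.subtype_injective).1 e), ?_⟩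
  rintro n hn hn' _ ⟨u, hu, rfl⟩
  obtain ⟨i, h4⟩ := h2 n ⟨hn, hn'⟩
  have h5 : ∀ d : D, n * d * n⁻¹ = s ^ i * d * (s ^ i)⁻¹ := fun d => by
    have h6 := h4 d d.2
    calc n * d * n⁻¹ = s ^ i * ((s ^ i)⁻¹ * n * d) * n⁻¹ := by group
      _ = _ := by rw [← h6]; group
  obtain ⟨h6, h7⟩ := t2 i u hu
  refine ⟨⟨_, h6, (h3 i u).trans (h5 u).symm⟩, fun e => (h7 (Subtype.ext ?_)).imp
    (fun e' => congrArg Subtype.val e') fun e' d hd => ?_⟩
  · rw [h3, ← h5]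
    exact mul_inv_eq_iff_eq_mul.2 e
  · have h8 := (h5 ⟨d, hd⟩).trans (h3 i ⟨d, hd⟩).symm
    rw [e'] at h8
    exact (mul_inv_eq_iff_eq_mul.1 h8).symm

end Pool.Agent.Lib.MP_b6945b_al.Kx
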