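import Pool.Agent.Lib.MP_b6945b_al.Kx.PFong
import Pool.Agent.Lib.MP_b6945b_al.Kx.YDef

set_option autoImplicit false

/-!
Local coordinates of characters: definitions.
-/

namespace Pool.Agent.Lib.MP_b6945b_al.Kx

open St Bi Finset
open MonoidAlgebra (single)
open scoped ComplexConjugate

variable {G : Type} [Group G] [Fintype G] {V : ValuationSubring ℂ}

/-- The scalar product of two functions supported on `H`. -/
noncomputable def pr (H : Subgroup G) (x y : G → ℂ) : ℂ :=
  (Nat.card H : ℂ)⁻¹ * ∑ s, x s * conj (y s)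

/-- The part of `x` on the section of `u` that belongs to the block `β` of the centraliser. -/
noncomputable def gam (p : ℕ) (u : G) (β : MonoidAlgebra V G) (x : G → ℂ) : G → ℂ :=
  Reg p (resP (Cu u) β fun g => x (u * g))

/-- `z` is an irreducible character of `H` in the block `β`, extended by zero. -/
structure IrrIn (H : Subgroup G) (β : MonoidAlgebra V G) (z : G → ℂ) : Prop where
  mem : z ∈ CFs H β
  sc : SC H z
  one : pr H z z = 1

/-- A basic set of the shape of a star. -/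
structure BSC (p : ℕ) (H : Subgroup G) (β : MonoidAlgebra V G) (N n m f : ℕ)
    (φ : ℕ → G → ℂ) : Prop where
  gram : ∀ i < f, ∀ j < f, (N : ℂ) * pr H (φ i) (φ j) = (if i = j then (n : ℂ) else 0) - m
  dec : ∀ z, IrrIn H β z → ∃ s : ℤ, (s = 1 ∨ s = -1) ∧
    ((∃ j < f, Reg p z = (s : ℂ) • φ j) ∨ Reg p z = (s : ℂ) • ∑ j ∈ range f, φ j)
  exc : ∃ z, IrrIn H β z ∧ Reg p z = ∑ j ∈ range f, φ j

/-- `y` is the restriction of an irreducible character and has norm `t`. -/
def Can (p : ℕ) (H : Subgroup G) (β : MonoidAlgebra V G) (t : ℂ) (y : G → ℂ) : Prop :=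
  (∃ z, IrrIn H β z ∧ y = Reg p z) ∧ pr H y y = t

open Classical in
/-- A chosen function with the property `Can`. -/
noncomputable def yv (p : ℕ) (H : Subgroup G) (β : MonoidAlgebra V G) (t : ℂ) : G → ℂ :=
  if h : ∃ y, Can p H β t y then h.choose else 0

/-- The inertial index of the block of the centraliser of `u`. -/
noncomputable def fu (D : Subgroup G) (c : MonoidAlgebra V G) (u : G) : ℕ :=
  (Cz D).relIndex (stabT (Cu u) D c)

/-- The canonical coordinate of `x` at `u`. -/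
noncomputable def rr (p : ℕ) (D : Subgroup G) (c : MonoidAlgebra V G) (u : G) (x : G → ℂ) : ℂ :=
  Nat.card D * pr (Cu u) (gam p u (bk D c (Cu u)) x)
    (yv p (Cu u) (bk D c (Cu u)) (fu D c u / Nat.card D))

open Classical in
omit [Fintype G] in
/-- Extension by zero. -/
noncomputable def ex0 (H : Subgroup G) (x : H → ℂ) (g : G) : ℂ :=
  if h : g ∈ H then x ⟨g, h⟩ else 0

omit [Fintype G] in
/-- Conjugate of a function. -/
def cjf (n : G) (x : G → ℂ) (g : G) : ℂ := x (n⁻¹ * g * n)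

omit [Fintype G] in
/-- The condition on the moved factors of `D`. -/
def Gf2 (N : ℕ) (H D : Subgroup G) (c : MonoidAlgebra V G) : Prop :=
  ∀ A : Subgroup G, A ≤ stabT H D c →
    N < (D ⊓ Cz A).relIndex D ∨
      (∃ a ∈ D, ∃ b ∈ D, (D ⊓ Cz A) ⊔ Subgroup.closure {a, b} = D) ∨
      ∀ t ∈ Nz (D ⊓ Cz A), t ∈ stabT H D c →
        (∀ d ∈ D, t * d * t⁻¹ * d⁻¹ ∈ D ⊓ Cz A) ∨
          ∀ d ∈ D, t * d * t⁻¹ * d⁻¹ ∈ D ⊓ Cz A → d ∈ D ⊓ Cz A

end Pool.Agent.Lib.MP_b6945b_al.Kx
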