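import Pool.Agent.Lib.MP_b6945b_al.Kx.VCyc

set_option autoImplicit false

/-!
Coprime automorphisms of an abelian group of rank at most two.
-/

namespace Pool.Agent.Lib.MP_b6945b_al.Kx

open St Bi Finset

variable {p : ℕ} {D : Type} [Group D] [Fintype D]

lemma zgrp_pow_le {Q : Type} [CommGroup Q] [Finite Q] (hq : om1 p Q ≤ p) (k : ℕ) :
    Nat.card (powMonoidHom (p ^ k) : Q →* Q).ker ≤ p ^ k := by
  induction k with
  | zero =>
    have : (powMonoidHom (p ^ 0) : Q →* Q).ker = ⊥ :=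
      (Subgroup.eq_bot_iff_forall _).2 fun x hx => by simpa using hx
    rw [this, Subgroup.card_bot, pow_zero]
  | succ k ih =>
    let K := (powMonoidHom (p ^ (k + 1)) : Q →* Q).ker
    let f : K →* Q := (powMonoidHom p).comp K.subtype
    have a := Subgroup.card_eq_card_quotient_mul_card_subgroup f.ker
    rw [Nat.card_congr (QuotientGroup.quotientKerEquivRange f).toEquiv] at a
    have b : Nat.card f.range ≤ p ^ k := by
      refine le_trans (Subgroup.card_le_of_le ?_) ih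
      rintro _ ⟨x, rfl⟩
      change ((x : Q) ^ p) ^ p ^ k = 1
      rw [← pow_mul, ← pow_succ']
      exact x.2
    have c : Nat.card f.ker ≤ p :=
      le_trans (Nat.card_le_card_of_injective (β := {x : Q // x ^ p = 1})
        (fun x => ⟨x.1.1, x.2⟩) fun x y e =>
          Subtype.ext (Subtype.ext (Subtype.mk.inj e))) hq
    change Nat.card K ≤ _
    rw [a, pow_succ]
    exact Nat.mul_le_mul b c

lemma zgrp_cyc {Q : Type} [CommGroup Q] [Finite Q] (hp : p.Prime) (hQ : IsPGroup p Q)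
    (hq : om1 p Q ≤ p) : IsCyclic Q := by
  have := Fact.mk hp
  obtain ⟨k, hk⟩ := IsPGroup.iff_card.1 hQ
  obtain ⟨e, -, he⟩ := (Nat.dvd_prime_pow hp).1 (hk ▸ Group.exponent_dvd_nat_card (G := Q))
  refine IsCyclic.of_exponent_eq_card (le_antisymm
    (Nat.le_of_dvd Nat.card_pos Group.exponent_dvd_nat_card) ?_)
  have h1 : (powMonoidHom (p ^ e) : Q →* Q).ker = ⊤ :=
    eq_top_iff.2 fun x _ => by
      change x ^ p ^ e = 1
      rw [← he, Monoid.pow_exponent_eq_one]
  have h2 := zgrp_pow_le hq e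
  rwa [h1, Subgroup.card_top, ← he] at h2

lemma zgrp_aut {Q : Type} [CommGroup Q] [Finite Q] (hp : p.Prime) (hQ : IsPGroup p Q)
    (hq : om1 p Q ≤ p) {F : Type} [Group F] [Finite F] (hF : ¬ p ∣ Nat.card F)
    (ρ : F →* MulAut Q) (hρ : Function.Injective ρ) : IsCyclic F ∧ Nat.card F ∣ p - 1 := by
  have := Fact.mk hp
  let O : Subgroup Q := (powMonoidHom p).ker
  have hO : O.Characteristic := Subgroup.characteristic_iff_le_comap.2 fun φ x hx => by
    change φ x ^ p = 1
    rw [← map_pow, show x ^ p = 1 from hx, map_one]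
  let σ : F →* MulAut O := (MulAut.characteristic O).comp ρ
  have hσ : Function.Injective σ := (injective_iff_map_eq_one σ).2 fun g hg => by
    refine (injective_iff_map_eq_one ρ).1 hρ g (laut_eq_one hp mul_comm hQ _ (fun h => hF
      ((h.trans (orderOf_map_dvd ρ g)).trans (orderOf_dvd_natCard g))) fun x hx => ?_)
    exact congrArg Subtype.val (MulEquiv.congr_fun hg ⟨x, hx⟩)
  obtain ⟨k, hk⟩ := IsPGroup.iff_card.1 (hQ.to_subgroup O)
  have h1 : p ^ k ≤ p ^ 1 := by
    rw [← hk, pow_one]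
    exact hq
  have h2 : k ≤ 1 := (Nat.pow_le_pow_iff_right hp.one_lt).1 h1
  have hc : IsCyclic O := isCyclic_of_card_dvd_prime (p := p) (by
    rw [hk]
    simpa using pow_dvd_pow p h2)
  have h3 := Subgroup.card_dvd_of_injective σ hσ
  rw [IsCyclic.card_mulAut] at h3
  interval_cases k
  · rw [hk, pow_zero, Nat.totient_one, Nat.dvd_one] at h3
    have : Subsingleton F := (Nat.card_eq_one_iff_unique.1 h3).1
    exact ⟨inferInstance, h3.dvd.trans (one_dvd _)⟩
  · rw [pow_one] at hk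
    rw [hk, Nat.totient_prime hp] at h3
    refine ⟨?_, h3⟩
    have e := IsCyclic.mulAutMulEquiv O
    rw [hk] at e
    exact isCyclic_of_injective (e.toMonoidHom.comp σ) (e.injective.comp hσ)

/-- A group of coprime automorphisms with a common nontrivial fixed point. -/
theorem wall_spec (hp : p.Prime) (hc : ∀ a b : D, a * b = b * a) (hD : IsPGroup p D)
    (h2 : om1 p D ≤ p ^ 2) (F : Subgroup (MulAut D)) (hF : ¬ p ∣ Nat.card F) {u : D} (hu : u ≠ 1)
    (hfix : ∀ g ∈ F, g u = u) :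
    IsCyclic F ∧ Nat.card F ∣ p - 1 ∧ ∀ g ∈ F, g ≠ 1 → ∀ d, g d = d → ∀ k ∈ F, k d = d := by
  let _ : CommGroup D := { ‹Group D› with mul_comm := hc }
  let Z : Subgroup D :=
    { carrier := {d | ∀ g ∈ F, g d = d}
      mul_mem' := fun ha hb g hg => by rw [map_mul, ha g hg, hb g hg]
      one_mem' := fun g _ => map_one g
      inv_mem' := fun ha g hg => by rw [map_inv, ha g hg] }
  have h0 : Z ≠ ⊥ := fun e => hu ((Subgroup.mem_bot).1 (e ▸ (show u ∈ Z from hfix)))
  have h1 := vfin_om hp hD F hF Z (fun _ => Iff.rfl) h0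
  have h3 : om1 p (D ⧸ Z) ≤ p := Nat.le_of_mul_le_mul_right (h1.trans (h2.trans (sq p).le)) hp.pos
  have h4 : ∀ g : F, Z.map (g : MulAut D) = Z := fun g => by
    ext z
    constructor
    · rintro ⟨z, hz, rfl⟩
      change (g : MulAut D) z ∈ Z
      rw [hz g g.2]
      exact hz
    · exact fun hz => ⟨z, hz, hz g g.2⟩
  let ρ : F →* MulAut (D ⧸ Z) :=
    { toFun := fun g => QuotientGroup.congr Z Z (g : MulAut D) (h4 g)
      map_one' := MulEquiv.ext fun x => by
        obtain ⟨d, rfl⟩ := QuotientGroup.mk_surjective x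
        rfl
      map_mul' := fun g k => MulEquiv.ext fun x => by
        obtain ⟨d, rfl⟩ := QuotientGroup.mk_surjective x
        rfl }
  have h5 : ∀ (g : F) (d : D), ρ g d = ((g : MulAut D) d : D) := fun _ _ => rfl
  have h6 : Function.Injective ρ := (injective_iff_map_eq_one ρ).2 fun g hg => by
    refine Subtype.ext (MulEquiv.ext fun d => ?_)
    have h7 : d⁻¹ * (g : MulAut D) d ∈ Z := by
      rw [← QuotientGroup.eq, ← h5, hg]
      rfl
    have h8 : ∀ n : ℕ, ((g : MulAut D) ^ n) d = d * (d⁻¹ * (g : MulAut D) d) ^ n := fun n => by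
      induction n with
      | zero => simp
      | succ n ih =>
        rw [pow_succ', MulAut.mul_apply, ih, map_mul, map_pow, h7 g g.2, pow_succ', ← mul_assoc,
          mul_inv_cancel_left]
    have h9 := h8 (Nat.card F)
    rw [show (g : MulAut D) ^ Nat.card F = 1 from congrArg Subtype.val (pow_card_eq_one' (x := g)),
      MulAut.one_apply, left_eq_mul] at h9
    have h10 : d⁻¹ * (g : MulAut D) d = 1 :=
      (hD.powEquiv ((Nat.Prime.coprime_iff_not_dvd hp).2 hF)).injective (h9.trans (one_pow _).symm)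
    exact (inv_mul_eq_one.1 h10).symm
  obtain ⟨a, b⟩ := zgrp_aut hp (hD.to_quotient Z) h3 hF ρ h6
  refine ⟨a, b, fun g hg h7 d hd => ?_⟩
  by_contra hn
  refine h7 (congrArg Subtype.val ((injective_iff_map_eq_one ρ).1 h6 ⟨g, hg⟩
    (vfin_aut hp (hD.to_quotient Z) h3 _ (fun h => hF
      ((h.trans (orderOf_map_dvd ρ _)).trans (orderOf_dvd_natCard _))) (x := (d : D ⧸ Z))
      (fun e => hn ((QuotientGroup.eq_one_iff _).1 e)) ?_)))
  rw [h5]
  exact congrArg _ hd

/-- The fixed points of a nontrivial coprime automorphism form a cyclic group. -/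
theorem wall_cyc (hp : p.Prime) (hc : ∀ a b : D, a * b = b * a) (hD : IsPGroup p D)
    (h2 : om1 p D ≤ p ^ 2) {g : MulAut D} (hg : ¬ p ∣ orderOf g) (h1 : g ≠ 1) :
    ∃ w : D, ∀ d, g d = d ↔ d ∈ Subgroup.zpowers w := by
  let _ : CommGroup D := { ‹Group D› with mul_comm := hc }
  have := Fact.mk hp
  let Z : Subgroup D := g.toMonoidHom.eqLocus (MonoidHom.id D)
  let O : Subgroup D := (powMonoidHom p).ker
  have h3 : O ⊓ Z < O := lt_of_le_of_ne inf_le_left fun e =>
    h1 (laut_eq_one hp hc hD g hg fun x hx => (e.ge (show x ∈ O from hx)).2)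
  have h4 : Nat.card (O ⊓ Z : Subgroup D) < p ^ 2 :=
    lt_of_lt_of_le (lt_of_le_of_ne (Subgroup.card_le_of_le h3.le) fun e =>
      h3.ne (Subgroup.eq_of_le_of_card_ge h3.le e.ge)) h2
  obtain ⟨k, hk⟩ := IsPGroup.iff_card.1 (hD.to_subgroup (O ⊓ Z))
  have h5 : k ≤ 1 := Nat.lt_succ_iff.1 ((Nat.pow_lt_pow_iff_right hp.one_lt).1 (hk ▸ h4))
  have h6 : om1 p Z ≤ p := by
    refine le_trans (Nat.card_le_card_of_injective (β := (O ⊓ Z : Subgroup D))
      (fun x => ⟨x.1.1, congrArg Subtype.val x.2, x.1.2⟩) fun x y e =>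
        Subtype.ext (Subtype.ext (Subtype.mk.inj e))) ?_
    rw [hk]
    simpa using Nat.pow_le_pow_right hp.pos h5
  obtain ⟨w, hw⟩ := (Subgroup.isCyclic_iff_exists_zpowers_eq_top Z).1
    (zgrp_cyc hp (hD.to_subgroup Z) h6)
  exact ⟨w, fun d => by rw [hw]; rfl⟩

theorem free_two (hc : ∀ a b : D, a * b = b * a) (hD : IsPGroup 2 D) (h2 : om1 2 D ≤ 2 ^ 2)
    {g : MulAut D} (hg : ¬ 2 ∣ orderOf g) {u : D} (hu : u ≠ 1) (e : g u = u) : g = 1 := by
  have h := (wall_spec Nat.prime_two hc hD h2 (Subgroup.zpowers g) (by rwa [Nat.card_zpowers]) hu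
    fun k hk => (Subgroup.zpowers_le (H := MulAction.stabilizer (MulAut D) u)).2 e hk).2.1
  rw [Nat.card_zpowers] at h
  exact orderOf_eq_one_iff.1 (Nat.dvd_one.1 h)

theorem exists_sq_dvd_order (hp : p.Prime) (hD : IsPGroup p D) (h2 : om1 p D ≤ p ^ 2)
    (h3 : ¬ Nat.card D ∣ p ^ 2) : ∃ d : D, p ^ 2 ∣ orderOf d := by
  have := Fact.mk hp
  by_contra hn
  push Not at hn
  have h4 : ∀ d : D, d ^ p = 1 := fun d => by
    obtain ⟨k, hk⟩ := IsPGroup.iff_orderOf.1 hD d
    have h5 : k ≤ 1 := by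
      by_contra h6
      exact hn d (hk ▸ pow_dvd_pow p (by omega))
    exact orderOf_dvd_iff_pow_eq_one.1 (hk ▸ by simpa using pow_dvd_pow p h5)
  have h5 : om1 p D = Nat.card D := Nat.card_congr (Equiv.subtypeUnivEquiv h4)
  obtain ⟨k, hk⟩ := IsPGroup.iff_card.1 hD
  rw [h5, hk] at h2
  exact h3 (hk ▸ pow_dvd_pow p ((Nat.pow_le_pow_iff_right hp.one_lt).1 h2))

end Pool.Agent.Lib.MP_b6945b_al.Kx
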