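import Pool.Agent.Lib.MP_b6945b_al.Kx.ZLoc
import Pool.Agent.Lib.MP_b6945b_al.Kx.ZGrp
import Pool.Agent.Lib.MP_b6945b_al.Kx.ZDef

set_option autoImplicit false

/-!
The number of Brauer characters of the blocks of centralisers.
-/

namespace Pool.Agent.Lib.MP_b6945b_al.Kx

open St Bi Finset

variable {G : Type} [Group G] [Fintype G] {V : ValuationSubring ℂ} {p : ℕ} [Fact p.Prime]
  {m N : ℕ} {H D P Q : Subgroup G} {c : MonoidAlgebra V G} {M : Ideal (integralClosure ℤ ℂ)}
  {u : G}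

open Classical in
lemma zcyc_tau (hp : (p : ℂ) ∈ V.nonunits) (h : Rt p m ⊤ D c) {x y : G} (ha : Adm D c D x y) :
    tau D c D x y = (univ.filter (fun d => d ∈ D ∧ x * d = d * x ∧ y * d = d * y)).card *
      mu p D c D x y := by
  rw [tau_eq_sum hp h le_rfl inf_le_right ha, Finset.sum_congr rfl (g := fun _ => mu p D c D x y)
    fun d hd => by rw [pmain_eq (Finset.mem_filter.1 hd).2.1], Finset.sum_const, nsmul_eq_mul]

open Classical in
omit [Fact p.Prime] in
lemma zcyc_ne (D : Subgroup G) (x y : G) :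
    ((univ.filter (fun d => d ∈ D ∧ x * d = d * x ∧ y * d = d * y)).card : ℂ) ≠ 0 :=
  Nat.cast_ne_zero.2 (Finset.card_ne_zero.2 ⟨1, by simp⟩)

lemma zcyc_move1 (hp : (p : ℂ) ∈ V.nonunits) (h : Rt p m ⊤ D c) {x y : G} (ha : Adm D c D x y) :
    mu p D c D x (y * x) = mu p D c D x y := by
  classical
  have e := tauK_move1 (Adm.ci hp h le_rfl ha.xT ha.xN) (Adm.ci hp h le_rfl ha.yT ha.yN)
  have e1 := zcyc_tau hp h ha
  have e2 := zcyc_tau hp h ha.move1
  have e3 : univ.filter (fun d => d ∈ D ∧ x * d = d * x ∧ y * x * d = d * (y * x)) =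
      univ.filter (fun d => d ∈ D ∧ x * d = d * x ∧ y * d = d * y) := by
    refine Finset.filter_congr fun d _ => and_congr_right fun _ => and_congr_right fun h1 => ?_
    rw [mul_assoc, h1, ← mul_assoc, ← mul_assoc, mul_left_inj]
  rw [e3] at e2
  exact mul_left_cancel₀ (zcyc_ne D x y) (e2.symm.trans (e.trans e1))

lemma zcyc_move2 (hp : (p : ℂ) ∈ V.nonunits) (h : Rt p m ⊤ D c) {x y : G} (ha : Adm D c D x y) :
    mu p D c D (x * y) y = mu p D c D x y := by
  classical
  have e := tauK_move2 (Adm.ci hp h le_rfl ha.xT ha.xN) (Adm.ci hp h le_rfl ha.yT ha.yN)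
  have e1 := zcyc_tau hp h ha
  have e2 := zcyc_tau hp h ha.move2
  have e3 : univ.filter (fun d => d ∈ D ∧ x * y * d = d * (x * y) ∧ y * d = d * y) =
      univ.filter (fun d => d ∈ D ∧ x * d = d * x ∧ y * d = d * y) := by
    refine Finset.filter_congr fun d _ => and_congr_right fun _ => and_congr_left fun h1 => ?_
    rw [mul_assoc, h1, ← mul_assoc, ← mul_assoc, mul_left_inj]
  rw [e3] at e2
  exact mul_left_cancel₀ (zcyc_ne D x y) (e2.symm.trans (e.trans e1))

theorem lL_of_cyclic (hp : (p : ℂ) ∈ V.nonunits) (h : Rt p m ⊤ D c) (hC : Cz D ≤ H)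
    (hN : H ≤ Nz D) {Z : Type} [Group Z] [Finite Z] [IsCyclic Z] (ψ : stabT H D c →* Z)
    (hψ : ∀ t, ψ t = 1 → (t : G) ∈ Cz D) :
    lL p H (bk D c H) = (Cz D).relIndex (stabT H D c) := by
  classical
  have hH : Rt p m H D c := h.local hp le_rfl (inf_le_right.trans hC) le_top hN
  have hT : stabT H D c ≤ stabT ⊤ D c := stabT_mono le_top D c
  have hA : ∀ x y : stabT H D c, Adm D c D x y := fun x y =>
    ⟨hT x.2, hT y.2, x.2.2.1, y.2.2.1, hψ (y * x * y⁻¹ * x⁻¹) (by
      rw [map_mul, map_mul, map_mul, map_inv, map_inv,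
        IsCyclic.isMulCommutative.is_comm.comm (ψ y) (ψ x), mul_inv_cancel_right,
        mul_inv_cancel])⟩
  have hmu : ∀ x y : stabT H D c, mu p D c D x y = 1 := by
    refine euc_cyc ψ (fun x y => mu p D c D x y = 1) (fun x y e => ?_) (fun x y e => ?_)
      fun x y e => ?_
    · exact (zcyc_move1 hp h (hA x y)).symm.trans e
    · exact (zcyc_move2 hp h (hA x y)).symm.trans e
    · have e1 := muK_left (p := p) (ε := eP D c D) (x := 1) (y := (y : G)) (hψ x e)
      rw [mul_one] at e1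
      exact e1.trans (mu_one_left hp h le_rfl inf_le_right (hA 1 y))
  have h1 := count_rt hp hH le_rfl hC hN
  have hc : (univ.filter (· ∈ stabT H D c)).card = Nat.card (stabT H D c) := by
    rw [Nat.card_eq_fintype_card, Fintype.card_subtype]
  rw [inf_eq_right.2 hH.Cz_le_stab, Finset.sum_congr rfl
    (g := fun _ => (Nat.card (stabT H D c) : ℂ)) fun x hx => by
      rw [Finset.sum_congr rfl (g := fun _ => (1 : ℂ)) fun y hy =>
        hmu ⟨x, (Finset.mem_filter.1 hx).2⟩ ⟨y, (Finset.mem_filter.1 hy).2⟩, Finset.sum_const,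
        hc, nsmul_one], Finset.sum_const, hc, nsmul_eq_mul, mul_assoc] at h1
  have h2 := mul_left_cancel₀ (Nat.cast_ne_zero.2 (Nat.card_pos (α := stabT H D c)).ne') h1
  have h3 := Subgroup.index_mul_card ((Cz D).subgroupOf (stabT H D c))
  rw [Nat.card_congr (Subgroup.subgroupOfEquivOfLe hH.Cz_le_stab).toEquiv] at h3
  have h4 : Nat.card (Cz D) * lL p H (bk D c H) = Nat.card (stabT H D c) := by exact_mod_cast h2
  rw [← h3, mul_comm] at h4
  exact Nat.eq_of_mul_eq_mul_right (Nat.card_pos (α := Cz D)) h4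

theorem lL_cu_two (hM : CoefB p M V) (h : Rt p m ⊤ D c) (h2 : om1 p D ≤ p ^ 2) (hu : u ∈ D)
    (h1 : u ≠ 1) : lL p (Cu u) (bk D c (Cu u)) = fu D c u := by
  have hp := hM.nonunit
  let _ : Fintype D := Fintype.ofFinite _
  rw [lL_loc_two hM (h.cu_top hp hu) h2 (Subgroup.zpowers_le.2 hu)
    (fun e => h1 (Subgroup.zpowers_eq_bot.1 e)) (Cz_le_Nz _), fu, ← stabT_inf (Cu u) D c]
  have hC : Cz D ≤ Cu u ⊓ Nz D := le_inf (Cz_le_Cu hu) (Cz_le_Nz D)
  have hH : Rt p m (Cu u ⊓ Nz D) D c :=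
    h.local hp le_rfl (inf_le_right.trans hC) le_top inf_le_right
  have hT : stabT (Cu u ⊓ Nz D) D c ≤ Nz D := fun t ht => ht.2.1
  have hF : ¬ p ∣ Nat.card
      ((Subgroup.normalizerMonoidHom D).comp (Subgroup.inclusion hT)).range := by
    intro e
    apply not_dvd_inert hp h
    have h3 := Subgroup.index_mul_card ((Cz D).subgroupOf (stabT (Cu u ⊓ Nz D) D c))
    rw [Nat.card_congr (Subgroup.subgroupOfEquivOfLe hH.Cz_le_stab).toEquiv,
      ← bms_card hT hH.Cz_le_stab] at h3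
    rw [← Subgroup.relIndex_mul_relIndex (Cz D) (stabT (Cu u ⊓ Nz D) D c) (stabT ⊤ D c)
      hH.Cz_le_stab (stabT_mono le_top D c)]
    refine Dvd.dvd.mul_right ?_ _
    rw [Subgroup.relIndex, Nat.eq_of_mul_eq_mul_right (Nat.card_pos (α := Cz D)) h3]
    exact e
  obtain ⟨hcy, -, -⟩ := wall_spec (Fact.out : p.Prime)
    (fun a b : D => Subtype.ext (h.comm a a.2 b b.2)) h.pD h2 _ hF (u := ⟨u, hu⟩)
    (fun e => h1 (congrArg Subtype.val e)) fun g hg => by
      obtain ⟨n, hn, e⟩ := (bms_mem hT).1 hg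
      refine Subtype.ext ?_
      rw [e, ← mem_Cu.1 hn.1.1, mul_inv_cancel_right]
  refine lL_of_cyclic hp h hC inf_le_right
    ((Subgroup.normalizerMonoidHom D).comp (Subgroup.inclusion hT)).rangeRestrict fun t e => ?_
  have e1 : Subgroup.inclusion hT t ∈ (Subgroup.normalizerMonoidHom D).ker :=
    congrArg Subtype.val e
  rw [Subgroup.normalizerMonoidHom_ker] at e1
  exact e1

end Pool.Agent.Lib.MP_b6945b_al.Kx
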