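import Pool.Agent.Lib.MP_b6945b_al.Kx.ZExt
import Pool.Agent.Lib.MP_b6945b_al.Bi.BSC

set_option autoImplicit false

/-!
Decomposition into irreducible characters of the centraliser.
-/

namespace Pool.Agent.Lib.MP_b6945b_al.Kx

open St Bi Finset
open MonoidAlgebra (single)
open scoped ComplexConjugate

variable {G : Type} [Group G] [Fintype G] {V : ValuationSubring ℂ} {p : ℕ} [Fact p.Prime]
  {m : ℕ} {H D : Subgroup G} {c β : MonoidAlgebra V G} {x y z : G → ℂ} {u n s : G}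
  {I : IrrData G} {i₀ : Fin I.n}

open Classical in
lemma exists_nat_coef (he : IsBlockIdem I i₀ β) (hx : x ∈ CFs ⊤ β) (hs : SC ⊤ x) :
    ∃ a : {i // I.Bl V i₀ i} → ℕ, x = ∑ i, (a i : ℂ) • I.χ i := by
  choose a ha using fun j : {i // I.Bl V i₀ i} => (hs.mul (sc_chi I j ⊤).inv).sum_nat
  refine ⟨a, (cfs_expand he hx).trans (sum_congr rfl fun j _ => ?_)⟩
  have h := ha j
  rw [Subgroup.card_top] at h
  simp only [Subgroup.mem_top, if_true] at h
  rw [h, Nat.card_eq_fintype_card, inv_mul_cancel_left₀ (Nat.cast_ne_zero.2 Fintype.card_ne_zero)]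

theorem irrIn_top (he : IsBlockIdem I i₀ β) :
    IrrIn ⊤ β z ↔ ∃ i : {i // I.Bl V i₀ i}, z = I.χ i := by
  classical
  refine ⟨fun h => ?_, fun ⟨i, hi⟩ => hi ▸ ⟨chi_mem_CFs he i.2, sc_chi I i ⊤, by simp [pr_chi]⟩⟩
  obtain ⟨a, ha⟩ := exists_nat_coef he h.mem h.sc
  have h1 := h.one
  rw [ha] at h1
  simp only [pr_sum_left, pr_sum_right, pr_smul_left, pr_smul_right, pr_chi, Subtype.val_inj,
    mul_ite, mul_one, mul_zero, sum_ite_eq', mem_univ, if_true, map_natCast] at h1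
  replace h1 : ∑ i, a i * a i = 1 := by exact_mod_cast h1
  obtain ⟨i, -, h2⟩ := exists_ne_zero_of_sum_ne_zero (h1.trans_ne one_ne_zero)
  rw [← add_sum_erase _ _ (mem_univ i)] at h1
  have h3 : ∀ j ∈ univ.erase i, a j * a j = 0 := sum_eq_zero_iff.1 (by omega)
  refine ⟨i, ?_⟩
  rw [ha, sum_eq_single i (fun j _ hj => by
      rw [mul_self_eq_zero.1 (h3 j (mem_erase.2 ⟨hj, mem_univ j⟩)), Nat.cast_zero, zero_smul])
    fun h => absurd (mem_univ i) h, Nat.eq_one_of_mul_eq_one_right (by omega : a i * a i = 1),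
    Nat.cast_one, one_smul]

lemma IrrIn.one_pos (h : IrrIn H β z) : ∃ k : ℕ, 0 < k ∧ z 1 = k := by
  obtain ⟨ι, i1, i2, ρ, h1, h2⟩ := h.sc
  have h3 : IsIdempotentElem (Matrix.toLin' (ρ 1)) := by
    change Matrix.toLin' (ρ 1) * Matrix.toLin' (ρ 1) = _
    rw [Module.End.mul_eq_comp, ← Matrix.toLin'_mul, ← h1 1 H.one_mem 1 H.one_mem, mul_one]
  have h4 := (LinearMap.IsIdempotentElem.isProj_range _ h3).trace
  rw [Matrix.trace_toLin'_eq, ← h2 1 H.one_mem] at h4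
  refine ⟨_, Nat.pos_of_ne_zero fun h5 => ?_, h4⟩
  rw [Submodule.finrank_eq_zero, LinearMap.range_eq_bot, LinearEquiv.map_eq_zero_iff] at h5
  have h6 : z = 0 := funext fun g => by
    by_cases hg : g ∈ H
    · rw [h2 g hg, ← one_mul g, h1 1 H.one_mem g hg, h5, zero_mul, Matrix.trace_zero,
        Pi.zero_apply]
    · exact h.mem.1 g hg
  simpa [pr, h6] using h.one

lemma exists_irrIn (h : HB H β) : ∃ z, IrrIn H β z := by
  classical
  obtain ⟨J⟩ := exists_irrData H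
  obtain ⟨i, hi⟩ := h.pull.exists_blockIdem J
  have h1 := irrIn_ex0.2 ((irrIn_top hi).2 ⟨⟨i, fun a _ => by simp⟩, rfl⟩)
  exact ⟨_, inc_pull_supp h.supp ▸ h1⟩

omit [Fact p.Prime] in
theorem one_le_lL (hq : p.Prime) (h : HB H β) : 1 ≤ lL p H β := by
  obtain ⟨z, hz⟩ := exists_irrIn h
  obtain ⟨k, hk, h1⟩ := hz.one_pos
  refine Module.finrank_pos_iff_exists_ne_zero.2 ⟨⟨_, Submodule.mem_map_of_mem hz.mem⟩, fun e => ?_⟩
  have h2 : Reg p z 1 = 0 := congrFun (congrArg Subtype.val e) 1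
  rw [Reg_apply_reg z (by simpa using hq.ne_one), h1] at h2
  exact hk.ne' (Nat.cast_eq_zero.1 h2)

lemma zdec_central (I : IrrData G) (j : Fin I.n) {v : G} (hv : ∀ g, v * g = g * v) (s : G) :
    I.χ j (v * s) = I.χ j v / I.d j * I.χ j s := by
  have h := I.scalar_of_comm j (I.ρ j v) fun g => by rw [← map_mul, ← map_mul, hv]
  rw [IrrData.χ, map_mul, h, Matrix.smul_mul, one_mul, Matrix.trace_smul, smul_eq_mul]
  rfl

theorem gam_dec (hβ : HB (Cu u) β) (I : IrrData G) (i : Fin I.n) :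
    ∃ (k : ℕ) (t : Finset (Fin k)) (a : Fin k → ℤ) (ν z : Fin k → G → ℂ),
      (∀ j ∈ t, IrrIn (Cu u) β (z j)) ∧ (∀ j, ν j 1 = 1) ∧
      (∀ j, ∀ v ∈ Subgroup.zpowers u, ∀ w ∈ Subgroup.zpowers u, ν j (v * w) = ν j v * ν j w) ∧
      ∀ v, Subgroup.zpowers v = Subgroup.zpowers u →
        gam p v β (I.χ i) = ∑ j ∈ t, (a j * ν j v) • Reg p (z j) := by
  classical
  obtain ⟨J⟩ := exists_irrData (Cu u)
  obtain ⟨i', hi⟩ := hβ.pull.exists_blockIdem J
  have e0 := ex0_res (H := Cu u) (w := resP (Cu u) β (I.χ i)) fun g hg => resP_out _ hg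
  have h1 : resP (Cu u) β (I.χ i) ∈ CFs (Cu u) (inc V (Cu u).subtype (pull V (Cu u).subtype β)) := by
    rw [inc_pull_supp hβ.supp]
    exact proj_mem_CFs hβ.idem hβ.supp hβ.fix fun h _ g _ => I.χ_conj i h g
  have h2 : SC (Cu u) (resP (Cu u) β (I.χ i)) :=
    (sc_ev I i hβ.idem hβ.fix).congr fun g hg => resP_mem _ hg
  rw [← e0] at h1 h2
  obtain ⟨a, ha⟩ := exists_nat_coef hi (cfs_ex0.1 h1) (sc_ex0.1 h2)
  let e := (Fintype.equivFin {j // J.Bl V i' j}).symm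
  have hm : ∀ v ∈ Subgroup.zpowers u, v ∈ Cu u := by
    rintro _ ⟨k, rfl⟩
    exact mem_Cu.2 (Commute.self_zpow u k)
  have key : ∀ (j : Fin J.n), ∀ v ∈ Subgroup.zpowers u, ∀ s ∈ Cu u, ex0 (Cu u) (J.χ j) (v * s) =
      ex0 (Cu u) (J.χ j) v / J.d j * ex0 (Cu u) (J.χ j) s := fun j v hv s hs => by
    have h3 := zdec_central J j (v := ⟨v, hm v hv⟩)
      (fun g => Subtype.ext (bpp_comm hv (mem_Cu.1 g.2).symm).symm) ⟨s, hs⟩
    simpa only [← ex0_coe (J.χ j), Subgroup.coe_mul] using h3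
  refine ⟨_, univ, fun j => a (e j), fun j v => ex0 (Cu u) (J.χ (e j)) v / J.d (e j),
    fun j => ex0 (Cu u) (J.χ (e j)), fun j _ => ?_, fun j => ?_, fun j v hv w hw => ?_,
    fun v hv => ?_⟩
  · exact inc_pull_supp hβ.supp ▸ irrIn_ex0.2 ((irrIn_top hi).2 ⟨e j, rfl⟩)
  · exact (congrArg (· / _) ((ex0_coe (J.χ (e j)) 1).trans (J.χ_one _))).trans
      (div_self (J.d_ne _))
  · beta_reduce
    rw [key _ v hv w (hm w hw), mul_div_assoc]
  have hv' : v ∈ Subgroup.zpowers u := hv ▸ Subgroup.mem_zpowers v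
  simp only [← map_smul, ← map_sum]
  rw [gam, show Cu v = Cu u from congrArg Cz hv]
  refine congrArg _ (funext fun s => ?_)
  rw [Finset.sum_apply]
  by_cases hs : s ∈ Cu u
  · have h3 := (Cu u).mul_mem (hm v hv') hs
    rw [resP_mem _ hs, ← ev_single_mul, ← mul_assoc, MonoidAlgebra.single_mul_single, one_mul,
      ← resP_mem _ h3]
    refine (congrFun ha ⟨_, h3⟩).trans ?_
    rw [Finset.sum_apply, ← e.sum_comp]
    refine sum_congr rfl fun j _ => ?_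
    rw [Pi.smul_apply, Pi.smul_apply, smul_eq_mul, smul_eq_mul, mul_assoc, ← key _ v hv' s hs,
      ← ex0_coe (J.χ _), Int.cast_natCast]
  · rw [resP_out _ hs]
    exact (sum_eq_zero fun j _ => by rw [Pi.smul_apply, ex0_out _ hs, smul_zero]).symm

end Pool.Agent.Lib.MP_b6945b_al.Kx
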