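import Pool.Agent.Lib.MP_b6945b_al.Kx.ZInd
import Pool.Agent.Lib.MP_b6945b_al.Kx.ZSum

set_option autoImplicit false

/-!
The alternating sum in terms of the number of solutions of `x ^ p = 1`.
-/

namespace Pool.Agent.Lib.MP_b6945b_al.Kx

open St Bi Finset

theorem KS_two (p : ℕ) (hp : p.Prime) (G : Type) [Group G] [Finite G]
    (M : Ideal (integralClosure ℤ ℂ)) (hM : M.IsMaximal) (hpM : (p : integralClosure ℤ ℂ) ∈ M)
    (χ : G → ℂ) (hχ : IsIrrChar χ) (D : Subgroup G) (hD : IsDefectGroup p M χ D) (h0 : D ≠ ⊥)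
    (hc : ∀ x ∈ D, ∀ y ∈ D, x * y = y * x) (h2 : om1 p D ≤ p ^ 2) : KS p M χ = 0 := by
  have : Fact p.Prime := ⟨hp⟩
  let _ : Fintype G := Fintype.ofFinite G
  obtain ⟨V, hV⟩ := exists_val_of_maximal M hM
  have hB : CoefB p M V := ⟨hp, hM, hpM, hV⟩
  obtain ⟨I⟩ := exists_irrData G
  obtain ⟨i, rfl⟩ := (isIrrChar_iff I).1 hχ
  obtain ⟨c, h, he⟩ := exists_rt hB I i hD hc
  rw [KS_eq_mul hB h h2 h0 he, lL_two_top hB h h2, sub_self, mul_zero]

end Pool.Agent.Lib.MP_b6945b_al.Kx
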