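import Pool.Agent.Lib.MP_b6945b_al.Kx.ZGam

set_option autoImplicit false

/-!
Extension by zero from a subgroup.
-/

namespace Pool.Agent.Lib.MP_b6945b_al.Kx

open St Bi Finset
open MonoidAlgebra (single)
open scoped ComplexConjugate

variable {G : Type} [Group G] [Fintype G] {V : ValuationSubring ℂ} {p : ℕ} {H : Subgroup G}
  [Fintype H] {β : MonoidAlgebra V H} {x y z : H → ℂ}

omit [Fintype G] [Fintype H] in
lemma ex0_coe (x : H → ℂ) (g : H) : ex0 H x g = x g := dif_pos g.2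

omit [Fintype G] [Fintype H] in
lemma ex0_out (x : H → ℂ) {g : G} (hg : g ∉ H) : ex0 H x g = 0 := dif_neg hg

omit [Fintype G] [Fintype H] in
lemma zext_ext {w : G → ℂ} (h1 : ∀ g, g ∉ H → w g = 0) (h2 : ∀ g : H, w g = x g) :
    w = ex0 H x := by
  funext g
  by_cases hg : g ∈ H
  · exact (h2 ⟨g, hg⟩).trans (ex0_coe x ⟨g, hg⟩).symm
  · rw [h1 g hg, ex0_out x hg]

omit [Fintype G] [Fintype H] in
lemma zext_res (x : H → ℂ) : (fun g : H => ex0 H x (H.subtype g)) = x :=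
  funext fun g => ex0_coe x g

omit [Fintype G] [Fintype H] in
lemma ex0_smul (a : ℂ) (x : H → ℂ) : ex0 H (a • x) = a • ex0 H x := by
  refine (zext_ext (fun g hg => ?_) fun g => ?_).symm
  · rw [Pi.smul_apply, ex0_out x hg, smul_zero]
  · rw [Pi.smul_apply, Pi.smul_apply, ex0_coe]

omit [Fintype G] [Fintype H] in
lemma ex0_sum {ι : Type} (t : Finset ι) (F : ι → H → ℂ) :
    ex0 H (∑ i ∈ t, F i) = ∑ i ∈ t, ex0 H (F i) := by
  refine (zext_ext (fun g hg => ?_) fun g => ?_).symm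
  · rw [Finset.sum_apply]
    exact sum_eq_zero fun i _ => ex0_out _ hg
  · rw [Finset.sum_apply, Finset.sum_apply]
    exact sum_congr rfl fun i _ => ex0_coe _ g

omit [Fintype G] [Fintype H] in
lemma ex0_reg (x : H → ℂ) : Reg p (ex0 H x) = ex0 H (Reg p x) := by
  refine zext_ext (fun g hg => ?_) fun g => ?_
  · by_cases h : p ∣ orderOf g
    · exact Reg_apply_sing _ h
    · rw [Reg_apply_reg _ h, ex0_out x hg]
  · by_cases h : p ∣ orderOf g
    · rw [Reg_apply_sing _ h, Reg_apply_sing _ (by rwa [Subgroup.orderOf_coe])]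
    · rw [Reg_apply_reg _ h, Reg_apply_reg _ (by rwa [Subgroup.orderOf_coe]), ex0_coe]

omit [Fintype G] [Fintype H] in
lemma ex0_res {w : G → ℂ} (hw : ∀ g, g ∉ H → w g = 0) : ex0 H (fun g => w g) = w :=
  (zext_ext hw fun _ => rfl).symm

lemma pr_ex0 (x y : H → ℂ) : pr H (ex0 H x) (ex0 H y) = pr ⊤ x y := by
  classical
  have e : ∑ s, ex0 H x s * conj (ex0 H y s) = ∑ s, x s * conj (y s) := by
    rw [← sum_subset (subset_univ (univ.filter fun g : G => g ∈ H)) fun g _ hg => by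
      rw [ex0_out x (by simpa using hg), zero_mul]]
    rw [sum_subtype (p := fun g => g ∈ H) _ (fun g => by simp)]
    exact sum_congr rfl fun g _ => by rw [ex0_coe, ex0_coe]
  rw [pr, pr, e, Subgroup.card_top]

lemma cfs_ex0 : ex0 H z ∈ CFs H (inc V H.subtype β) ↔ z ∈ CFs ⊤ β := by
  have hm : (⊤ : Subgroup H).map H.subtype = H := by
    rw [← MonoidHom.range_eq_map, Subgroup.range_subtype]
  have e := btr1_map (V := V) (K := ⊤) (β := β) H.subtype_injective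
  rw [hm] at e
  rw [← e]
  constructor
  · exact fun h => ⟨_, h, zext_res z⟩
  · rintro ⟨w, hw, rfl⟩
    have e1 : ex0 H (LinearMap.funLeft ℂ ℂ H.subtype w) = w := ex0_res hw.1
    rwa [e1]

omit [Fintype G] [Fintype H] in
lemma sc_ex0 : SC H (ex0 H z) ↔ SC ⊤ z := by
  classical
  constructor
  · rintro ⟨ι, _, _, ρ, h1, h2⟩
    exact ⟨ι, inferInstance, inferInstance, fun g => ρ g, fun a _ b _ => h1 _ a.2 _ b.2,
      fun g _ => (ex0_coe z g).symm.trans (h2 _ g.2)⟩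
  · rintro ⟨ι, _, _, ρ, h1, h2⟩
    refine ⟨ι, inferInstance, inferInstance, fun g => if h : g ∈ H then ρ ⟨g, h⟩ else 0,
      fun a ha b hb => ?_, fun g hg => ?_⟩
    · beta_reduce
      rw [dif_pos ha, dif_pos hb, dif_pos (H.mul_mem ha hb)]
      exact h1 ⟨a, ha⟩ trivial ⟨b, hb⟩ trivial
    · beta_reduce
      rw [dif_pos hg]
      exact (ex0_coe z ⟨g, hg⟩).trans (h2 _ trivial)

lemma irrIn_ex0 : IrrIn H (inc V H.subtype β) (ex0 H z) ↔ IrrIn ⊤ β z :=
  ⟨fun h => ⟨cfs_ex0.1 h.mem, sc_ex0.1 h.sc, (pr_ex0 z z).symm.trans h.one⟩,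
    fun h => ⟨cfs_ex0.2 h.mem, sc_ex0.2 h.sc, (pr_ex0 z z).trans h.one⟩⟩

theorem BSC.ex0 {N n m f : ℕ} {φ : ℕ → H → ℂ} (h : BSC p ⊤ β N n m f φ) :
    BSC p H (inc V H.subtype β) N n m f fun j => ex0 H (φ j) := by
  refine ⟨fun i hi j hj => ?_, fun w hw => ?_, ?_⟩
  · rw [pr_ex0]
    exact h.gram i hi j hj
  · have e : Kx.ex0 H (fun g => w g) = w := ex0_res hw.mem.1
    rw [← e] at hw ⊢
    obtain ⟨s, hs, h1⟩ := h.dec _ (irrIn_ex0.1 hw)
    refine ⟨s, hs, ?_⟩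
    rcases h1 with ⟨j, hj, h1⟩ | h1
    · exact Or.inl ⟨j, hj, by rw [ex0_reg, h1, ex0_smul]⟩
    · exact Or.inr (by rw [ex0_reg, h1, ex0_smul, ex0_sum])
  · obtain ⟨w, hw, h1⟩ := h.exc
    exact ⟨_, irrIn_ex0.2 hw, by rw [ex0_reg, h1, ex0_sum]⟩

end Pool.Agent.Lib.MP_b6945b_al.Kx
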