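import Pool.Agent.Lib.MP_b6945b_al.Kx.ZInd
import Pool.Agent.Lib.MP_b6945b_al.Kx.VFin
import Pool.Agent.Lib.MP_b6945b_al.FactorDefs2

set_option autoImplicit false

/-!
The weight conjecture under the second form of the condition on the moved factors.
-/

namespace Pool.Agent.Lib.MP_b6945b_al.Kx

open St Bi Finset

lemma zfin_two {G : Type} [Group G] [Finite G] {F : Subgroup G} (h : Group.rank F ≤ 2) :
    ∃ a ∈ F, ∃ b ∈ F, Subgroup.closure {a, b} = F := by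
  classical
  obtain ⟨S, h1, h2⟩ := Group.rank_spec F
  obtain ⟨a, b, h3⟩ : ∃ a b : F, (S : Set F) ⊆ {a, b} := by
    rcases Nat.le_succ_iff.1 (h1 ▸ h) with e | e
    · obtain ⟨a, ha⟩ := Finset.card_le_one_iff_subset_singleton.1 e
      exact ⟨a, a, fun x hx => Or.inl (mem_singleton.1 (ha hx))⟩
    · obtain ⟨a, b, -, rfl⟩ := Finset.card_eq_two.1 e
      exact ⟨a, b, by simp⟩
  refine ⟨a, a.2, b, b.2, ?_⟩
  have h4 := congrArg (Subgroup.map F.subtype) (top_le_iff.1 (h2.ge.trans (Subgroup.closure_mono h3)))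
  rwa [MonoidHom.map_closure, Set.image_pair, map_top_sub] at h4

lemma zfin_rank {G : Type} [Group G] [Finite G] {F : Subgroup G} {a b : G}
    (h : Subgroup.closure {a, b} = F) : Group.rank F ≤ 2 := by
  classical
  rw [← Finset.coe_pair] at h
  rw [← Subgroup.rank_congr h]
  exact (Subgroup.rank_closure_finset_le_card _).trans Finset.card_le_two

variable {G : Type} [Group G] [Fintype G] {V : ValuationSubring ℂ} {p : ℕ} [Fact p.Prime]
  {m N : ℕ} {H D : Subgroup G} {c : MonoidAlgebra V G} {M : Ideal (integralClosure ℤ ℂ)}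

omit [Fintype G] in
lemma Gf2.of_map {G' : Type} [Group G'] {H' D' : Subgroup G'} {c' : MonoidAlgebra V G'}
    (h : Gf2 N H D c) (f : G' →* G) (hf : Function.Injective f) (hD : D'.map f = D)
    (hT : (stabT H' D' c').map f ≤ stabT H D c) : Gf2 N H' D' c' := by
  intro A hA
  have hZ : D ⊓ Cz (A.map f) = (D' ⊓ Cz A).map f := by
    subst hD
    refine le_antisymm ?_ ?_
    · rintro _ ⟨⟨x, hx, rfl⟩, h1⟩
      exact ⟨x, ⟨hx, mem_Cz.2 fun a ha => hf (by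
        rw [map_mul, map_mul, mem_Cz.1 h1 _ ⟨a, ha, rfl⟩])⟩, rfl⟩
    · rintro _ ⟨x, hx, rfl⟩
      refine ⟨⟨x, hx.1, rfl⟩, mem_Cz.2 ?_⟩
      rintro _ ⟨a, ha, rfl⟩
      rw [← map_mul, ← map_mul, mem_Cz.1 hx.2 a ha]
  have h1 := h (A.map f) ((Subgroup.map_mono hA).trans hT)
  rw [hZ, ← hD, Subgroup.relIndex_map_map_of_injective _ _ hf] at h1
  refine h1.imp id (Or.imp ?_ fun h2 t ht ht' => ?_)
  · rintro ⟨_, ⟨a, ha, rfl⟩, _, ⟨b, hb, rfl⟩, e⟩
    refine ⟨a, ha, b, hb, Subgroup.map_injective hf ?_⟩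
    rw [Subgroup.map_sup, MonoidHom.map_closure, Set.image_pair, e]
  have h3 : ∀ d, f t * f d * (f t)⁻¹ * (f d)⁻¹ ∈ (D' ⊓ Cz A).map f ↔
      t * d * t⁻¹ * d⁻¹ ∈ D' ⊓ Cz A := fun d => by
    rw [← map_inv, ← map_inv, ← map_mul, ← map_mul, ← map_mul, Subgroup.mem_map_iff_mem hf]
  exact (h2 (f t) (Subgroup.le_normalizer_map f ⟨t, ht, rfl⟩) (hD ▸ hT ⟨t, ht', rfl⟩)).imp
    (fun e d hd => (h3 d).1 (e _ ⟨d, hd, rfl⟩))
    fun e d hd e' => (Subgroup.mem_map_iff_mem hf).1 (e _ ⟨d, hd, rfl⟩ ((h3 d).2 e'))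

omit [Fintype G] [Fact p.Prime] in
lemma zfin_cj (h : Gf2 N ⊤ D c) {g : G} (hg : g ∈ Nz D) (K : Subgroup G) :
    Gf2 N K D (cjRep V G g c) := by
  refine h.of_map (MulAut.conj g⁻¹).toMonoidHom (MulAut.conj g⁻¹).injective
    (cg_eq_iff.2 (inv_mem hg)) ?_
  rintro _ ⟨t, ht, rfl⟩
  have h1 := (mem_stabT_cj hg).1 (stabT_mono le_top _ _ ht)
  rwa [← inv_inv g, inv_inv g⁻¹] at h1

lemma zfin_step (hM : CoefB p M V) {Q : Subgroup G} [Q.Normal]
    [Fintype (G ⧸ Q)] [Fintype (Finset (Subgroup (G ⧸ Q)))] (h : Rt p m ⊤ D c) (hQD : Q ≤ D)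
    (hQ : ∀ R : Subgroup G, R.Normal → R ≤ D → R ≤ Q) (hG : Gf2 N ⊤ D c)
    (h0 : ∀ γ : MonoidAlgebra V (G ⧸ Q), Rt p m ⊤ (D.map (qm Q)) γ →
      N < Nat.card (D.map (qm Q)) →
      ∑ σ ∈ chs p (D.map (qm Q)), sgn σ * (wl p (stab σ) (D.map (qm Q)) γ : ℤ) = 0)
    (ih : ∀ (K : Subgroup G), K ≠ ⊤ → ∀ g ∈ Nz D, Rt p m K D (cjRep V G g c) →
      lL p K (bk D (cjRep V G g c) K) = lL p (K ⊓ Nz D) (bk D (cjRep V G g c) (K ⊓ Nz D))) :
    lL p ⊤ (bk D c ⊤) = lL p (Nz D) (bk D c (Nz D)) := by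
  refine vred_step2 hM.nonunit h hQD hQ (fun e hD γ hγ hγ' => ?_) ih
  have h2 := hG _ (inf_le_left (b := Cz Q))
  have h6 : Q.relIndex D = Nat.card (D.map (qm Q)) := by
    rw [← Subgroup.relIndex_ker, QuotientGroup.ker_mk']
  rw [e, h6] at h2
  rcases h2 with h2 | ⟨a, -, b, -, h2⟩ | h2
  · exact h0 γ hγ' h2
  · refine sum_wl_two hM hγ' (om1_le_of_rank hM.prime.pos _ hγ'.comm
      (zfin_rank (a := qm Q a) (b := qm Q b) ?_)) hD
    rw [← h2, Subgroup.map_sup, map_self_qm, bot_sup_eq, MonoidHom.map_closure, Set.image_pair]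
  · exact vred_frob hM h hQD hD
      (fun t => h2 t (Subgroup.le_normalizer_of_normal (Subgroup.mem_top t))) hγ hγ'

theorem lL_reduce2 (p b : ℕ) [Fact p.Prime] : ∃ N : ℕ, ∀ (M : Ideal (integralClosure ℤ ℂ))
    (V : ValuationSubring ℂ), CoefB p M V →
    ∀ (G : Type) [Group G] [Fintype G] (m : ℕ) (H D : Subgroup G) (c : MonoidAlgebra V G),
      Rt p m H D c → om1 p D ≤ b → Gf2 N H D c →
      lL p H (bk D c H) = lL p (H ⊓ Nz D) (bk D c (H ⊓ Nz D)) := by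
  obtain ⟨N, hN⟩ := sum_wl_zero p b
  refine ⟨N, fun M V hM => ?_⟩
  have hp := hM.nonunit
  have key : ∀ (n : ℕ) (G : Type) [Group G] [Fintype G] (m : ℕ) (H D : Subgroup G)
      (c : MonoidAlgebra V G), Nat.card H < n → Rt p m H D c → om1 p D ≤ b → Gf2 N H D c →
      lL p H (bk D c H) = lL p (H ⊓ Nz D) (bk D c (H ⊓ Nz D)) := by
    intro n
    induction n with
    | zero => exact fun _ _ _ _ _ _ _ h => absurd h (Nat.not_lt_zero _)
    | succ n ih =>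
      intro G _ _ m H D c hH h hb hm
      let _ : Fintype H := Fintype.ofFinite H
      have h1 := h.pull hp
      have hb' := (lind_om1 h).trans_le hb
      have hm' := hm.of_map H.subtype H.subtype_injective h.map_sub h.stab_map.le
      have h2 := h.lL_map hp (K := ⊤) le_top
      have h3 := h.lL_map hp (K := Nz (D.subgroupOf H)) (Cz_le_Nz _)
      rw [map_top_sub] at h2
      rw [h.map_Nz] at h3
      rw [h2, h3]
      have h4 := (D.subgroupOf H).normalCore_le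
      let _ : Fintype (H ⧸ (D.subgroupOf H).normalCore) := Fintype.ofFinite _
      let _ : Fintype (Finset (Subgroup (H ⧸ (D.subgroupOf H).normalCore))) := Fintype.ofFinite _
      exact zfin_step hM h1 h4 (fun R _ hR => Subgroup.normal_le_normalCore.2 hR) hm'
        (fun γ hγ => hN M V hM _ m _ γ hγ ((om1_map_le p h1.comm h4).trans hb'))
        fun K hK g hg hK' => ih H m K _ _ ((bind_card_lt hK).trans_le (Nat.lt_succ_iff.1 hH))
          hK' hb' (zfin_cj hm' hg K)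
  exact fun G _ _ m H D c => key _ G m H D c (Nat.lt_succ_self _)

theorem gf2_of_fine (hM : CoefB p M V) (h : Rt p m ⊤ D c) {I : IrrData G} {i : Fin I.n}
    (he : IsBlockIdem I i (bk D c ⊤)) (hl : FineFactors M (I.χ i) D N) : Gf2 N ⊤ D c := by
  intro A hA
  have hp := hM.nonunit
  have hj := h.root
  have hs := supp_Cz_iff.1 hj.supp
  let _ : Fintype (Cz D) := Fintype.ofFinite _
  obtain ⟨I'⟩ := exists_irrData (Cz D)
  obtain ⟨l, h1⟩ := exists_om_of_idemB I' (j := St.pull V (Cz D).subtype c) hj.pull.idem hj.pull.ne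
  have h2 := indV_of_belowB hp he h.pD rfl hs ((le_iff_inMax hj.supp).1 (h.spec hp h.le).2) h1
  have h3 : ∀ t ∈ stabT ⊤ D c, Inert M D (I'.χ l) t := fun t ht =>
    ⟨ht.2.1, bcls_stab hM.iff hj h1 ht.2.1 ht.2.2⟩
  exact (hl (I'.χ l) ((isIrrChar_iff I').2 ⟨l, rfl⟩) ((kr1b_indTo_iff hM.iff I i I' l).2 h2)
    A _ (fun t ht => h3 t (hA ht)) rfl).imp_right (Or.imp_right fun a t ht ht' => a t ht (h3 t ht'))

theorem gf2_of_factors (hp : (p : ℂ) ∈ V.nonunits) (h : Rt p m ⊤ D c)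
    (hD : ∀ Z F : Subgroup G, Z ⊓ F = ⊥ → Z ⊔ F = D → Group.rank F ≤ 2 ∨ N < Nat.card F) :
    Gf2 N ⊤ D c := by
  intro A hA
  have hq : p.Prime := Fact.out
  obtain ⟨E, h1, -, h3, -⟩ := exists_inertial (D := D) (T := stabT ⊤ D c)
    (fun n hn => hn.2.1) h.Cz_le_stab
  have h4 : ¬ p ∣ Nat.card E := fun hE => not_dvd_inert hp h (by
    have h5 := Subgroup.index_mul_card ((Cz D).subgroupOf (stabT ⊤ D c))
    rw [Nat.card_congr (Subgroup.subgroupOfEquivOfLe h.Cz_le_stab).toEquiv, ← h1] at h5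
    exact hE.trans (Nat.eq_of_mul_eq_mul_right Nat.card_pos h5).symm.dvd)
  obtain ⟨W, w1, w2, w3, -⟩ := vcyc_dich hq (fun a b => Subtype.ext (h.comm _ a.2 _ b.2)) h.pD
    E h4 ((D ⊓ Cz A).subgroupOf D) fun d hd => ⟨d.2, mem_Cz.2 fun a ha => by
      obtain ⟨k, hk⟩ := h3 a (hA ha)
      have h6 := hd k k.2 fun z hz => Subtype.ext
        ((hk z).trans (mul_inv_eq_iff_eq_mul.2 (mem_Cz.1 hz.2 a ha).symm))
      exact (mul_inv_eq_iff_eq_mul.1 ((hk d).symm.trans (congrArg Subtype.val h6))).symm⟩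
  have h5 := Subgroup.map_subgroupOf_eq_of_le (inf_le_left : D ⊓ Cz A ≤ D)
  have h7 : D ⊓ Cz A ⊔ W.map D.subtype = D := by rw [← h5, ← Subgroup.map_sup, w2, map_top_sub]
  have h6 := hD (D ⊓ Cz A) (W.map D.subtype)
    (by rw [← h5, ← Subgroup.map_inf _ _ _ D.subtype_injective, w1, Subgroup.map_bot]) h7
  rw [Subgroup.card_subtype, w3] at h6
  rcases h6 with h6 | h6
  · obtain ⟨a, ha, b, hb, e⟩ := zfin_two h6
    exact Or.inr (Or.inl ⟨a, Subgroup.map_subtype_le W ha, b, Subgroup.map_subtype_le W hb,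
      by rw [e, h7]⟩)
  · exact Or.inl h6

theorem awc_of_gf2 (p : ℕ) (hp : p.Prime) (n : ℕ) : ∃ N : ℕ, ∀ (G : Type) [Group G] [Finite G]
      (M : Ideal (integralClosure ℤ ℂ)), M.IsMaximal → (p : integralClosure ℤ ℂ) ∈ M →
      ∀ (χ : G → ℂ), IsIrrChar χ →
      ∀ (D : Subgroup G), IsDefectGroup p M χ D → (∀ x ∈ D, ∀ y ∈ D, x * y = y * x) →
      Group.rank D ≤ n →
      (FineFactors M χ D N ∨
        ∀ Z F : Subgroup G, Z ⊓ F = ⊥ → Z ⊔ F = D → Group.rank F ≤ 2 ∨ N < Nat.card F) →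
      ∑ᶠ (P : Subgroup G) (_ : IsPGroup p P),
        Nat.card (Subgroup.normalizer (P : Set G)) * wInd p M χ P =
          Nat.card G * lInd p M χ ⊤ := by
  have : Fact p.Prime := ⟨hp⟩
  obtain ⟨N, hN⟩ := lL_reduce2 p (p ^ n)
  refine ⟨N, fun G _ _ M hM hpM χ hχ D hD hc hn hl => ?_⟩
  rw [sum_wInd p hp G M hM hpM χ hχ D hD hc]
  let _ : Fintype G := Fintype.ofFinite G
  obtain ⟨V, hV⟩ := exists_val_of_maximal M hM
  have hB : CoefB p M V := ⟨hp, hM, hpM, hV⟩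
  obtain ⟨I⟩ := exists_irrData G
  obtain ⟨i, rfl⟩ := (isIrrChar_iff I).1 hχ
  obtain ⟨c, h, he⟩ := exists_rt hB I i hD hc
  have h1 := hN M V hB G _ ⊤ D c h (om1_le_of_rank hp.pos D hc hn)
    (hl.elim (gf2_of_fine hB h he) (gf2_of_factors hB.nonunit h))
  obtain ⟨h4, h5⟩ := lInd_eq_lL hB h he
  rw [top_inf_eq] at h1
  rw [h4, h5, h1]

theorem awc_two (p : ℕ) (hp : p.Prime) (G : Type) [Group G] [Finite G]
    (M : Ideal (integralClosure ℤ ℂ)) (hM : M.IsMaximal) (hpM : (p : integralClosure ℤ ℂ) ∈ M)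
    (χ : G → ℂ) (hχ : IsIrrChar χ) (D : Subgroup G) (hD : IsDefectGroup p M χ D)
    (hc : ∀ x ∈ D, ∀ y ∈ D, x * y = y * x) (h2 : Group.rank D ≤ 2) :
      ∑ᶠ (P : Subgroup G) (_ : IsPGroup p P),
        Nat.card (Subgroup.normalizer (P : Set G)) * wInd p M χ P =
          Nat.card G * lInd p M χ ⊤ := by
  have : Fact p.Prime := ⟨hp⟩
  rw [sum_wInd p hp G M hM hpM χ hχ D hD hc]
  let _ : Fintype G := Fintype.ofFinite G
  obtain ⟨V, hV⟩ := exists_val_of_maximal M hM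
  have hB : CoefB p M V := ⟨hp, hM, hpM, hV⟩
  obtain ⟨I⟩ := exists_irrData G
  obtain ⟨i, rfl⟩ := (isIrrChar_iff I).1 hχ
  obtain ⟨c, h, he⟩ := exists_rt hB I i hD hc
  obtain ⟨h4, h5⟩ := lInd_eq_lL hB h he
  rw [h4, h5, lL_two_top hB h (om1_le_of_rank hp.pos D hc h2)]

end Pool.Agent.Lib.MP_b6945b_al.Kx
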