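import Pool.Agent.Lib.MP_b6945b_al.Kx.ZDef
import Pool.Agent.Lib.MP_b6945b_al.Bi.BKf

set_option autoImplicit false

/-!
The scalar product and the parts of a class function on the sections.
-/

namespace Pool.Agent.Lib.MP_b6945b_al.Kx

open St Bi Finset
open MonoidAlgebra (single)
open scoped ComplexConjugate

variable {G : Type} [Group G] [Fintype G] {V : ValuationSubring ℂ} {p : ℕ} [Fact p.Prime]
  {m : ℕ} {H D : Subgroup G} {c β : MonoidAlgebra V G} {x y z : G → ℂ} {u n s : G}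
  {I : IrrData G} {i₀ : Fin I.n}

lemma pr_add_left (H : Subgroup G) (x x' y : G → ℂ) : pr H (x + x') y = pr H x y + pr H x' y := by
  simp only [pr, Pi.add_apply, add_mul, sum_add_distrib, mul_add]

lemma pr_sub_left (H : Subgroup G) (x x' y : G → ℂ) : pr H (x - x') y = pr H x y - pr H x' y := by
  simp only [pr, Pi.sub_apply, sub_mul, sum_sub_distrib, mul_sub]

lemma pr_smul_left (H : Subgroup G) (a : ℂ) (x y : G → ℂ) : pr H (a • x) y = a * pr H x y := by
  simp only [pr, Pi.smul_apply, smul_eq_mul, mul_sum]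
  exact sum_congr rfl fun s _ => by ring

lemma pr_smul_right (H : Subgroup G) (a : ℂ) (x y : G → ℂ) :
    pr H x (a • y) = conj a * pr H x y := by
  simp only [pr, Pi.smul_apply, smul_eq_mul, mul_sum, map_mul]
  exact sum_congr rfl fun s _ => by ring

lemma pr_sum_left (H : Subgroup G) {ι : Type} (t : Finset ι) (F : ι → G → ℂ) (y : G → ℂ) :
    pr H (∑ i ∈ t, F i) y = ∑ i ∈ t, pr H (F i) y := by
  simp only [pr, Finset.sum_apply, sum_mul, mul_sum]
  exact sum_comm

lemma pr_sum_right (H : Subgroup G) {ι : Type} (t : Finset ι) (x : G → ℂ) (F : ι → G → ℂ) :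
    pr H x (∑ i ∈ t, F i) = ∑ i ∈ t, pr H x (F i) := by
  simp only [pr, Finset.sum_apply, map_sum, mul_sum]
  exact sum_comm

lemma pr_conj (H : Subgroup G) (x y : G → ℂ) : conj (pr H x y) = pr H y x := by
  simp only [pr, map_mul, map_inv₀, map_natCast, map_sum, Complex.conj_conj]
  congr 1
  exact sum_congr rfl fun s _ => mul_comm _ _

lemma pr_self_eq_zero (h : pr H x x = 0) : x = 0 := by
  have h0 : (Nat.card H : ℂ)⁻¹ ≠ 0 := inv_ne_zero (Nat.cast_ne_zero.2 Nat.card_pos.ne')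
  have h1 : ∑ s, x s * conj (x s) = 0 := (mul_eq_zero.1 h).resolve_left h0
  open ComplexOrder in exact dotProduct_self_star_eq_zero.1 h1

open Classical in
lemma pr_chi (I : IrrData G) (i j : Fin I.n) :
    pr ⊤ (I.χ i) (I.χ j) = if i = j then 1 else 0 := by
  have h2 : (Fintype.card G : ℂ) ≠ 0 := Nat.cast_ne_zero.2 Fintype.card_ne_zero
  have h1 : ∀ g, I.χ i g * conj (I.χ j g) = I.χ j g⁻¹ * I.χ i g := fun g => by
    rw [chi_conj, mul_comm]
  rw [pr, Subgroup.card_top, Nat.card_eq_fintype_card, sum_congr rfl fun g _ => h1 g, I.orth]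
  by_cases hij : i = j
  · rw [if_pos hij, if_pos hij, inv_mul_cancel₀ h2]
  · rw [if_neg hij, if_neg hij, mul_zero]

omit [Fact p.Prime] in
lemma gam_apply (hs : s ∈ Cu u) (hr : ¬ p ∣ orderOf s) :
    gam p u β x s = ev x (single (u * s) 1 * β) := by
  rw [gam, Reg_apply_reg _ hr, resP_mem _ hs, bstar_shift]

omit [Fact p.Prime] in
lemma gam_out (hs : ¬ (s ∈ Cu u ∧ ¬ p ∣ orderOf s)) : gam p u β x s = 0 := by
  by_cases hr : p ∣ orderOf s
  · exact Reg_apply_sing _ hr
  · rw [gam, Reg_apply_reg _ hr, resP_out _ fun h => hs ⟨h, hr⟩]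

omit [Fact p.Prime] in
lemma gam_sum {ι : Type} (t : Finset ι) (a : ι → ℂ) (F : ι → G → ℂ) :
    gam p u β (∑ i ∈ t, a i • F i) = ∑ i ∈ t, a i • gam p u β (F i) := by
  have h1 : (fun g => (∑ i ∈ t, a i • F i) (u * g)) = ∑ i ∈ t, a i • fun g => F i (u * g) := by
    funext g
    simp only [Finset.sum_apply, Pi.smul_apply]
  simp only [gam]
  rw [h1, map_sum, map_sum]
  simp only [map_smul]

omit [Fact p.Prime] in
lemma gam_one (hx : x ∈ CFs ⊤ β) : gam p 1 β x = Reg p x := by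
  funext s
  by_cases hr : p ∣ orderOf s
  · rw [gam_out fun h => h.2 hr, Reg_apply_sing _ hr]
  · rw [gam_apply (by rw [Cu_one]; exact Subgroup.mem_top s) hr, one_mul, Reg_apply_reg _ hr,
      (mem_CFs.1 hx).2.2 s (Subgroup.mem_top s)]

open Classical in
/-- The sum of a class function that lives on the section of `u`. -/
lemma zgam_section {F : G → ℂ} (hu : IsPElt p u) (hF : IsCF F)
    (h0 : ∀ g, ¬ IsConj u (pp p g) → F g = 0) :
    (Nat.card (Cu u) : ℂ) * ∑ g, F g =
      Fintype.card G * ∑ s, if s ∈ Cu u ∧ ¬ p ∣ orderOf s then F (u * s) else 0 := by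
  have h1 : ∀ a : G, (∑ g, if pp p g = a * u * a⁻¹ then F g else 0) =
      ∑ s, if s ∈ Cu u ∧ ¬ p ∣ orderOf s then F (u * s) else 0 := fun a => by
    rw [← Equiv.sum_comp ((Equiv.mulLeft u).trans (MulAut.conj a).toEquiv)]
    refine sum_congr rfl fun s _ => ?_
    change (if pp p (a * (u * s) * a⁻¹) = a * u * a⁻¹ then F (a * (u * s) * a⁻¹) else 0) = _
    rw [pp_conj, hF]
    refine if_congr ?_ rfl rfl
    rw [mul_left_inj, mul_right_inj]
    refine ⟨fun e => ?_, fun e => pp_mul_eq hu e.2 (mem_Cu.1 e.1)⟩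
    have a1 := pq_mem_Cu (p := p) (u * s)
    have a2 := (pp_spec (p := p) (u * s)).2.2
    rw [pq, e, inv_mul_cancel_left] at a1 a2
    exact ⟨a1, a2⟩
  have h2 : ∀ g : G, (∑ a : G, if pp p g = a * u * a⁻¹ then F g else 0) =
      Nat.card (Cu u) * F g := fun g => by
    by_cases hc : IsConj u (pp p g)
    · obtain ⟨b, hb⟩ := isConj_iff.1 hc
      rw [← Equiv.sum_comp (Equiv.mulLeft b), ← sum_filter, sum_const, nsmul_eq_mul,
        Nat.card_eq_fintype_card, Fintype.card_subtype]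
      congr 3
      refine filter_congr fun a _ => ?_
      rw [← hb, Equiv.coe_mulLeft, mem_Cu]
      refine ⟨fun e => ?_, fun e => ?_⟩
      · calc u * a = b⁻¹ * (b * u * b⁻¹) * b * a := by group
          _ = a * u := by rw [e]; group
      · calc b * u * b⁻¹ = b * (u * a) * (b * a)⁻¹ := by group
          _ = b * a * u * (b * a)⁻¹ := by rw [e, mul_assoc b a u]
    · simp only [h0 g hc, ite_self, sum_const_zero, mul_zero]
  rw [mul_sum, ← sum_congr rfl fun g _ => h2 g, sum_comm, sum_congr rfl fun a _ => h1 a,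
    sum_const, nsmul_eq_mul, card_univ]

theorem mat_eq_pr (hp : (p : ℂ) ∈ V.nonunits) (h : Rt p m ⊤ D c)
    (he : IsBlockIdem I i₀ (bk D c ⊤)) (hu : u ∈ D) (i j : {i // I.Bl V i₀ i}) :
    mat p I i₀ (eta D c (orb (stabT ⊤ D c) u)) i j =
      pr (Cu u) (gam p u (bk D c (Cu u)) (I.χ i)) (gam p u (bk D c (Cu u)) (I.χ j)) := by
  classical
  have hη : EtaInv (eta D c (orb (stabT ⊤ D c) u)) := eta_inv hp h (invT_orb _ _ _)
  have h1 := mat_orb_idem hp h he u
  have h2 := mat_star (I := I) (i₀ := i₀) hp (eta D c (orb (stabT ⊤ D c) u))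
  have e2 : (fun v b => conj (eta D c (orb (stabT ⊤ D c) u) v b)) =
      eta D c (orb (stabT ⊤ D c) u) := by
    funext v b
    rw [eta_orb hp h hu]
    split_ifs <;> simp
  rw [e2] at h2
  have h3 := fun k => Star_chi hp he hη (eta_supp hp h _) k
  have h4 := fun x s => Star_orb_self hp h hu x (s := s)
  have h5 := fun x g => Star_orb_ne hp h hu x (g := g)
  generalize eta D c (orb (stabT ⊤ D c) u) = η at hη h1 h2 h3 h4 h5 ⊢
  have h6 : pr ⊤ (Bi.Star p η (I.χ i)) (Bi.Star p η (I.χ j)) = mat p I i₀ η i j := by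
    rw [h3 i, h3 j, pr_sum_left]
    conv_rhs => rw [← h1, Matrix.mul_apply]
    refine sum_congr rfl fun k _ => ?_
    rw [pr_smul_left, pr_sum_right, sum_eq_single k]
    · rw [pr_smul_right, pr_chi, if_pos rfl, mul_one]
      exact congrArg _ (congrFun (congrFun h2 k) j)
    · intro l _ hl
      rw [pr_smul_right, pr_chi, if_neg fun e => hl (Subtype.ext e.symm), mul_zero]
    · exact fun e => absurd (mem_univ k) e
  have h7 := zgam_section (p := p) (F := fun g => Bi.Star p η (I.χ i) g * conj (Bi.Star p η (I.χ j) g))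
    (h.pelt hu) (fun a g => by
      simp only [Star_cf hη (isCF_chi I i) a g, Star_cf hη (isCF_chi I j) a g])
    (fun g hg => by simp only [h5 _ g hg, zero_mul])
  have h8 : (Fintype.card G : ℂ) ≠ 0 := Nat.cast_ne_zero.2 Fintype.card_ne_zero
  have h9 : (Nat.card (Cu u) : ℂ) ≠ 0 := Nat.cast_ne_zero.2 Nat.card_pos.ne'
  have h10 : (∑ s, if s ∈ Cu u ∧ ¬ p ∣ orderOf s then
      Bi.Star p η (I.χ i) (u * s) * conj (Bi.Star p η (I.χ j) (u * s)) else 0) =
      ∑ s, gam p u (bk D c (Cu u)) (I.χ i) s * conj (gam p u (bk D c (Cu u)) (I.χ j) s) := by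
    refine sum_congr rfl fun s _ => ?_
    by_cases hs : s ∈ Cu u ∧ ¬ p ∣ orderOf s
    · rw [if_pos hs, h4 _ _ hs.1 hs.2, h4 _ _ hs.1 hs.2, gam_apply hs.1 hs.2, gam_apply hs.1 hs.2]
    · rw [if_neg hs, gam_out hs, zero_mul]
  rw [h10] at h7
  rw [← h6, pr, pr, Subgroup.card_top, Nat.card_eq_fintype_card, inv_mul_eq_iff_eq_mul₀ h8,
    ← mul_assoc, mul_comm (Fintype.card G : ℂ), mul_assoc, ← h7, inv_mul_cancel_left₀ h9]

theorem gam_of_not (hp : (p : ℂ) ∈ V.nonunits) (h : Rt p m ⊤ D c)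
    (he : IsBlockIdem I i₀ (bk D c ⊤)) (hu : u ∈ D) {i : Fin I.n} (hi : ¬ I.Bl V i₀ i) :
    gam p u (bk D c (Cu u)) (I.χ i) = 0 := by
  funext s
  by_cases hs : s ∈ Cu u ∧ ¬ p ∣ orderOf s
  · have hb := h.hb_cu hp hu
    have ht := hb_of_blockIdem he
    have hl : Le (Subgroup.zpowers u) (bk D c ⊤) (bk D c (Cu u)) :=
      h.below hp (Subgroup.zpowers_le_of_mem hu) le_top inf_le_right le_top (Cz_le_Nz _)
    have hSu : Subgroup.zpowers s ≤ Cu u := (Subgroup.zpowers_le).2 hs.1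
    have hS : ¬ p ∣ Nat.card (Subgroup.zpowers s) := by
      rw [Nat.card_zpowers]
      exact hs.2
    have hc := fixedBy_top_iff.1 ht.fix (bk D c (Cu u))
    generalize bk D c (Cu u) = b at hb hl hc ⊢
    generalize bk D c ⊤ = e at he ht hl hc
    have f1 : Fix (Cu u) (e * b) := Fix.mul (ht.fix.mono le_top) hb.fix
    have i1 : e * b * (e * b) = e * b := by
      rw [mul_assoc, ← mul_assoc b, ← hc, mul_assoc, hb.idem, ← mul_assoc, ht.idem]
    have b1 : bb (Subgroup.zpowers u) b = bb (Subgroup.zpowers u) (e * b) := by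
      rw [bb_mul hp (h.pelt hu).isPGroup (ht.fix.mono le_top) (hb.fix.mono (zpowers_le_Cu u)),
        bb_of_supp hb.supp]
      exact hl.symm
    rw [gam_apply hs.1 hs.2, ev_congr_bb hp (isCF_chi I i) (h.pelt hu) hS
      (Subgroup.mem_zpowers s) hSu hb.idem i1
      (mem_fxAlg.2 ⟨hb.fix.mono (zpowers_le_Cu u), hb.fix.mono hSu⟩)
      (mem_fxAlg.2 ⟨f1.mono (zpowers_le_Cu u), f1.mono hSu⟩) b1, hc, ← mul_assoc,
      ev_chi_block he, ind_neg hi, zero_mul]
    rfl
  · exact gam_out hs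

end Pool.Agent.Lib.MP_b6945b_al.Kx
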