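import Pool.Agent.Lib.MP_b6945b_al.Kx.ZDec

set_option autoImplicit false

/-!
The degrees of the characters of a block.
-/

namespace Pool.Agent.Lib.MP_b6945b_al.Kx

open St Bi Finset
open MonoidAlgebra (single)
open scoped ComplexConjugate

variable {G : Type} [Group G] [Fintype G] {V : ValuationSubring ℂ} {p : ℕ} [Fact p.Prime]
  {m : ℕ} {H D : Subgroup G} {c β : MonoidAlgebra V G} {x y z : G → ℂ} {u n s : G}
  {I : IrrData G} {i₀ : Fin I.n}

omit [Fact p.Prime] in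
lemma zht_class (he : IsBlockIdem I i₀ β) {j : Fin I.n} (hj : I.Bl V i₀ j) :
    ∃ y, cf β y ∉ V.nonunits ∧ I.om j (ind (IsConj y)) ∉ V.nonunits := by
  have hcf : IsCF (cf β) := isCF_cf_iff.2 he.isBlock.cent
  have h1 : I.om j (cf β) = 1 := by
    rw [he, I.om_zf]
    exact ind_pos hj
  by_contra hno
  let _ : Fintype (ConjClasses G) := Fintype.ofFinite _
  apply one_not_mem_nonunits V
  rw [← h1, I.om_decomp j hcf]
  refine sum_mem fun K _ => ?_
  by_cases h1 : cf β K.out ∈ V.nonunits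
  · exact mul_mem_nonunits h1 (I.om_mem j (isCF_ind (isConj_conj_iff _)) (ind_mem V _))
  · have h2 : I.om j (ind (IsConj K.out)) ∈ V.nonunits := by
      by_contra h2
      exact hno ⟨_, h1, h2⟩
    rw [mul_comm]
    exact mul_mem_nonunits h2 (cf_mem _ _)

lemma zht_div (hp : (p : ℂ) ∈ V.nonunits) (hD : IsPGroup p D) (h : MaxR p ⊤ D β) {y : G}
    (hy : cf β y ∉ V.nonunits) :
    (Nat.card D : ℂ) / Nat.card (Subgroup.centralizer {y}) ∈ V := by
  have hq : p.Prime := Fact.out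
  obtain ⟨k, hk⟩ := IsPGroup.iff_card.1 hD
  set N := Nat.card (Subgroup.centralizer {y}) with hN
  have hN0 : N ≠ 0 := Nat.card_pos.ne'
  obtain ⟨K, hK⟩ := Sylow.exists_subgroup_card_pow_prime p
    (G := Subgroup.centralizer {y}) (Nat.ordProj_dvd N p)
  have h1 := h y (fun e => hy (cf_mem_nonunits_iff.2 e)) (K.map (Subgroup.centralizer {y}).subtype)
    le_top ((IsPGroup.of_card hK).map _) (by
      rintro _ ⟨s, -, rfl⟩
      exact Subgroup.mem_centralizer_singleton_iff.1 s.2)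
  rw [Subgroup.card_subtype, hK, hk] at h1
  obtain ⟨t, ht⟩ := Nat.exists_eq_add_of_le ((Nat.pow_le_pow_iff_right hq.one_lt).1 h1)
  have h2 := inv_nat_mem hp (Nat.not_dvd_ordCompl hq hN0)
  have h3 : (Nat.card D : ℂ) / N = (p ^ t : ℕ) * ((N / p ^ N.factorization p : ℕ) : ℂ)⁻¹ := by
    conv_lhs => rw [hk, ht, ← Nat.ordProj_mul_ordCompl_eq_self N p]
    rw [pow_add, Nat.cast_mul, Nat.cast_mul, Nat.ordProj_mul_ordCompl_eq_self,
      mul_div_mul_left _ _ (by exact_mod_cast (pow_pos hq.pos _).ne'), div_eq_mul_inv]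
  rw [h3]
  exact V.mul_mem _ _ (natCast_mem V _) h2

lemma zht_top (hp : (p : ℂ) ∈ V.nonunits) (hD : IsPGroup p D) (h : MaxR p ⊤ D β) (hβ : HB ⊤ β)
    (hz : IrrIn ⊤ β z) : z 1 * Nat.card D / Nat.card G ∈ V := by
  obtain ⟨I⟩ := exists_irrData G
  obtain ⟨i₀, he⟩ := hβ.exists_blockIdem I
  obtain ⟨j, rfl⟩ := (irrIn_top he).1 hz
  obtain ⟨y, hy1, hy2⟩ := zht_class he j.2
  have h1 := zht_div hp hD h hy1
  rw [V.mem_nonunits_iff_or, not_or, not_not] at hy2
  have h3 := sum_ind_conj (⟨y⟩ : Cj G) _ (isCF_chi I j)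
  have h4 := orbit_Cj (⟨y⟩ : Cj G)
  have hd := I.d_ne j
  have hG : (Nat.card G : ℂ) ≠ 0 := by exact_mod_cast Nat.card_pos.ne'
  change _ * Nat.card (Subgroup.centralizer {y}) = _ at h4
  change ∑ w, ind (IsConj y) w * _ = _ * I.χ j y at h3
  have h5 := V.mul_mem _ _ (V.mul_mem _ _ (mem_of_isIntegral V (I.χ_isIntegral j y)) hy2.2) h1
  have h6 := hy2.1
  rw [IrrData.om, h3] at h5 h6
  rw [I.χ_one, ← h4]
  rw [← h4] at hG
  push_cast at hG ⊢
  have h7 := left_ne_zero_of_mul hG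
  have h8 := right_ne_zero_of_mul hG
  have h9 := right_ne_zero_of_mul (div_ne_zero_iff.1 h6).1
  have e : ∀ a b d k t : ℂ, a ≠ 0 → b ≠ 0 → d ≠ 0 → t ≠ 0 →
      d * k / (a * b) = t * (a * t / d)⁻¹ * (k / b) := fun a b d k t _ _ _ _ => by field_simp
  rw [e _ _ _ _ _ h7 h8 hd h9]
  exact h5

theorem IrrIn.height (hp : (p : ℂ) ∈ V.nonunits) (h : Rt p m H D c)
    (hz : IrrIn H (bk D c H) z) : z 1 * Nat.card D / Nat.card H ∈ V := by
  have := Fintype.ofFinite H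
  have h1 := h.bk_map hp (K := ⊤) le_top
  rw [map_top_sub] at h1
  have h2 := ex0_res (mem_CFs.1 hz.mem).1
  rw [h1, ← h2] at hz
  have h3 := zht_top hp (h.pull hp).pD (h.pull hp).max ((h.pull hp).spec hp le_top).1
    (irrIn_ex0.1 hz)
  have h4 : Nat.card (D.subgroupOf H) = Nat.card D :=
    Nat.card_congr (Subgroup.subgroupOfEquivOfLe h.le_H).toEquiv
  rw [h4] at h3
  exact h3

end Pool.Agent.Lib.MP_b6945b_al.Kx
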