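import Pool.Agent.Lib.MP_b6945b_al.Kx.ZTop

set_option autoImplicit false

/-!
The alternating sum over chains for defect groups of rank at most two.
-/

namespace Pool.Agent.Lib.MP_b6945b_al.Kx

open St Bi Finset

variable {G : Type} [Group G] [Fintype G] {V : ValuationSubring ℂ} {p : ℕ} [Fact p.Prime]
  {m N : ℕ} {H D P Q : Subgroup G} {c : MonoidAlgebra V G} {M : Ideal (integralClosure ℤ ℂ)}
  {u : G}

theorem KS_eq_mul (hM : CoefB p M V) (h : Rt p m ⊤ D c) (h2 : om1 p D ≤ p ^ 2) (h0 : D ≠ ⊥)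
    {I : IrrData G} {i : Fin I.n} (he : IsBlockIdem I i (bk D c ⊤)) :
    KS p M (I.χ i) = Nat.card G * ((lL p ⊤ (bk D c ⊤) : ℤ) - lL p (Nz D) (bk D c (Nz D))) := by
  letI : Fintype (Finset (Subgroup G)) := Fintype.ofFinite _
  have h6 := card_mul_KS hM h he
  have h7 := sum_chs_omg h.pD h.comm fun K => (wl p K D c : ℤ)
  rw [sum_wl_eq_two hM h h2 h0] at h7
  rw [sum_wk_eq hM.nonunit h] at h6
  have h8 : (Nat.card (stabT ⊤ D c) : ℤ) ≠ 0 := Nat.cast_ne_zero.2 Nat.card_pos.ne'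
  refine mul_left_cancel₀ h8 (h6.trans ?_)
  rw [mul_left_comm, h7]
  rfl

lemma zind_of_sum [Fintype (Finset (Subgroup G))] (hM : CoefB p M V) (h : Rt p m ⊤ D c)
    (h2 : om1 p D ≤ p ^ 2) (h0 : D ≠ ⊥)
    (hs : ∑ σ ∈ chs p D, sgn σ * (wl p (stab σ) D c : ℤ) = 0) :
    lL p ⊤ (bk D c ⊤) = lL p (Nz D) (bk D c (Nz D)) := by
  rw [sum_wl_eq_two hM h h2 h0] at hs
  have h8 : (Nat.card (stabT ⊤ D c) : ℤ) ≠ 0 := Nat.cast_ne_zero.2 Nat.card_pos.ne'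
  exact_mod_cast sub_eq_zero.1 ((mul_eq_zero.1 hs).resolve_left h8)

lemma zind_free {c : MonoidAlgebra V G} [Fact (Nat.Prime 2)] (hp : ((2 : ℕ) : ℂ) ∈ V.nonunits)
    (h : Rt 2 m ⊤ D c) (h2 : om1 2 D ≤ 2 ^ 2) :
    ∀ t ∈ stabT ⊤ D c, ∀ u ∈ D, t * u = u * t → u = 1 ∨ t ∈ Cz D := by
  intro t ht u hu e
  letI : Fintype D := Fintype.ofFinite _
  obtain ⟨E, e1, -, e3, -⟩ := exists_inertial (T := stabT ⊤ D c) (D := D) (fun n hn => hn.2.1)
    h.Cz_le_stab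
  obtain ⟨g, hg⟩ := e3 t ht
  have hE := not_dvd_card hp h e1
  by_cases h1 : u = 1
  · exact Or.inl h1
  refine Or.inr ?_
  have hg1 : (g : MulAut D) = 1 := by
    refine free_two (fun a b => Subtype.ext (h.comm a a.2 b b.2)) h.pD h2
      (fun hd => hE (hd.trans ?_)) (u := ⟨u, hu⟩) (fun e' => h1 (congrArg Subtype.val e')) ?_
    · rw [Subgroup.orderOf_coe]
      exact orderOf_dvd_natCard g
    · apply Subtype.ext
      rw [hg]
      change t * u * t⁻¹ = u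
      rw [e, mul_inv_cancel_right]
  intro d hd
  have h3 := hg ⟨d, hd⟩
  rw [hg1] at h3
  have h4 : d = t * d * t⁻¹ := h3
  exact (eq_mul_inv_iff_mul_eq.1 h4)

theorem lL_two_top (hM : CoefB p M V) (h : Rt p m ⊤ D c) (h2 : om1 p D ≤ p ^ 2) :
    lL p ⊤ (bk D c ⊤) = lL p (Nz D) (bk D c (Nz D)) := by
  classical
  letI : Fintype (Finset (Subgroup G)) := Fintype.ofFinite _
  have hp := hM.nonunit
  by_cases h0 : D = ⊥
  · have hN : Nz D = ⊤ := by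
      rw [h0]
      exact Subgroup.normalizer_eq_top _
    rw [hN]
  by_cases h3 : Nat.card D ∣ p ^ 2
  · exact zind_of_sum hM h h2 h0 (sum_wl_sq hM h h0 h3)
  by_cases hodd : p = 2
  · subst hodd
    exact zind_of_sum hM h h2 h0 (sum_wl_free hM h h0 (zind_free hp h h2))
  letI : Fintype D := Fintype.ofFinite _
  obtain ⟨d, hd⟩ := exists_sq_dvd_order hM.prime h.pD h2 h3
  obtain ⟨I⟩ := exists_irrData G
  obtain ⟨i, he⟩ := (h.spec hp h.le).1.exists_blockIdem I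
  obtain ⟨v, hv, hv1, hab⟩ := exists_good_class hp h d.2 he
  have h4 := KS_dvd_of_class hM I i v hv hab
  rw [hv1, Subgroup.orderOf_coe, KS_eq_mul hM h h2 h0 he, mul_comm] at h4
  have hG : (Nat.card G : ℤ) ≠ 0 := Nat.cast_ne_zero.2 Nat.card_pos.ne'
  have h5 : ((p ^ 2 : ℕ) : ℤ) ∣ (lL p ⊤ (bk D c ⊤) : ℤ) - lL p (Nz D) (bk D c (Nz D)) :=
    (Int.natCast_dvd_natCast.2 hd).trans ((mul_dvd_mul_iff_left hG).1 h4)
  have a1 := lL_le_sq hM hodd h h2 h3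
  have hz : Rt p m (Nz D) D c := by
    have := h.nz hp
    rwa [top_inf_eq] at this
  have a2 := lL_le_sq hM hodd hz h2 h3
  have b1 : 1 ≤ lL p ⊤ (bk D c ⊤) := one_le_lL hM.prime (h.spec hp h.le).1
  have b2 : 1 ≤ lL p (Nz D) (bk D c (Nz D)) := one_le_lL hM.prime (hz.spec hp hz.le).1
  have h6 := Int.eq_zero_of_abs_lt_dvd h5 (by
    rw [abs_lt]
    constructor <;> omega)
  omega

theorem sum_wl_two [Fintype (Finset (Subgroup G))] (hM : CoefB p M V) (h : Rt p m ⊤ D c)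
    (h2 : om1 p D ≤ p ^ 2) (h0 : D ≠ ⊥) :
    ∑ σ ∈ chs p D, sgn σ * (wl p (stab σ) D c : ℤ) = 0 := by
  rw [sum_wl_eq_two hM h h2 h0, lL_two_top hM h h2, sub_self, mul_zero]

theorem kr_sum_two (p : ℕ) (hp : p.Prime) (G : Type) [Group G] [Finite G]
    (M : Ideal (integralClosure ℤ ℂ)) (hM : M.IsMaximal) (hpM : (p : integralClosure ℤ ℂ) ∈ M)
    (χ : G → ℂ) (hχ : IsIrrChar χ) (D : Subgroup G) (hD : IsDefectGroup p M χ D) (h0 : D ≠ ⊥)
    (hc : ∀ x ∈ D, ∀ y ∈ D, x * y = y * x) (h2 : Group.rank D ≤ 2) :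
    ∑ᶠ (σ : Finset (Subgroup G)) (_ : IsChain (· ≤ ·) (σ : Set (Subgroup G)) ∧
      ∀ P ∈ σ, IsPGroup p P ∧ P ≠ ⊥), (-1 : ℤ) ^ σ.card *
        ((Nat.card (⨅ P ∈ σ, Subgroup.normalizer (P : Set G) : Subgroup G) : ℤ) *
          kInd M χ (⨅ P ∈ σ, Subgroup.normalizer (P : Set G))) = 0 := by
  classical
  haveI : Fact p.Prime := ⟨hp⟩
  letI : Fintype G := Fintype.ofFinite G
  letI : Fintype (Finset (Subgroup G)) := Fintype.ofFinite _
  obtain ⟨V, hV⟩ := exists_val_of_maximal M hM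
  have hB : CoefB p M V := ⟨hp, hM, hpM, hV⟩
  obtain ⟨I⟩ := exists_irrData G
  obtain ⟨i, rfl⟩ := (isIrrChar_iff I).1 hχ
  obtain ⟨c, h, he⟩ := exists_rt hB I i hD hc
  have hb := om1_le_of_rank hp.pos D hc h2
  rw [finsum_eq_chain, ← KS_eq, KS_eq_mul hB h hb h0 he, lL_two_top hB h hb, sub_self, mul_zero]

end Pool.Agent.Lib.MP_b6945b_al.Kx
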