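import Pool.Agent.Lib.MP_b6945b_al.Kx.ZDec
import Pool.Agent.Lib.MP_b6945b_al.Kx.OInert
import Pool.Agent.Lib.MP_b6945b_al.Kx.PKap

set_option autoImplicit false

/-!
A class function with invertible coordinates.
-/

namespace Pool.Agent.Lib.MP_b6945b_al.Kx

open St Bi IsLocalRing Finset
open MonoidAlgebra (single)
open scoped ComplexConjugate

variable {G : Type} [Group G] [Fintype G] {V : ValuationSubring ℂ} {p : ℕ} [Fact p.Prime]
  {m : ℕ} {H D : Subgroup G} {c β : MonoidAlgebra V G} {x y z : G → ℂ} {u n s : G}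
  {I : IrrData G} {i₀ : Fin I.n}

open Classical in
/-- The number of ways to conjugate into the coset `y D`. -/
noncomputable def zkapXi (D : Subgroup G) (y g : G) : ℂ :=
  (Nat.card D : ℂ)⁻¹ * ∑ x, ∑ d, if d ∈ D ∧ g = x * (y * d) * x⁻¹ then 1 else 0

lemma zkap_cf (D : Subgroup G) (y : G) : IsCF (zkapXi D y) := by
  classical
  intro h g
  unfold zkapXi
  refine congrArg _ ?_
  rw [← Equiv.sum_comp (Equiv.mulLeft h)]
  refine Finset.sum_congr rfl fun x _ => Finset.sum_congr rfl fun d _ =>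
    if_congr (and_congr_right fun _ => ?_) rfl rfl
  rw [Equiv.coe_mulLeft]
  constructor
  · intro e
    calc g = h⁻¹ * (h * g * h⁻¹) * h := by group
      _ = _ := by rw [e]; group
  · intro e
    rw [e]; group

open Classical in
lemma zkap_sum (D : Subgroup G) (y : G) {f : G → ℂ} (hf : IsCF f) :
    ∑ g, f g * zkapXi D y g =
      (Nat.card D : ℂ)⁻¹ * (Fintype.card G * ∑ d, if d ∈ D then f (y * d) else 0) := by
  unfold zkapXi
  simp only [mul_left_comm (f _), ← Finset.mul_sum]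
  refine congrArg _ ?_
  simp only [Finset.mul_sum]
  rw [Finset.sum_comm, ← Finset.mul_sum, ← nsmul_eq_mul, ← Finset.card_univ, ← Finset.sum_const]
  refine Finset.sum_congr rfl fun x _ => ?_
  rw [Finset.sum_comm]
  refine Finset.sum_congr rfl fun d _ => ?_
  by_cases hd : d ∈ D
  · simp only [hd, true_and, mul_ite, mul_one, mul_zero, if_true]
    rw [Finset.sum_ite_eq', if_pos (mem_univ _), hf]
  · simp [hd]

omit [Fintype G] in
lemma zkap_iff [Finite G] {y d x s : G} (hu : IsPElt p u) (hs : s ∈ Cu u) (hr : ¬ p ∣ orderOf s)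
    (hd : IsPElt p d) (hy : ¬ p ∣ orderOf y) (hc : y * d = d * y)
    (e : u * s = x * (y * d) * x⁻¹) : u⁻¹ * s = x * (y * d⁻¹) * x⁻¹ := by
  have h1 := congrArg (pp p) e
  rw [pp_mul_eq hu hr (mem_Cu.1 hs), pp_conj, hc, pp_mul_eq hd hy hc.symm] at h1
  have h2 : s = x * y * x⁻¹ := by
    rw [h1, hc] at e
    calc s = (x * d * x⁻¹)⁻¹ * (x * d * x⁻¹ * s) := by group
      _ = _ := by rw [e]; group
  have h3 : y * d⁻¹ = d⁻¹ * y := by
    calc y * d⁻¹ = d⁻¹ * (d * y) * d⁻¹ := by group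
      _ = _ := by rw [← hc]; group
  rw [h1, h2, h3]
  group

omit [Fintype G] [Fact p.Prime] in
lemma zkap_inv (hu : IsPElt p u) : IsPElt p u⁻¹ :=
  hu.imp fun k hk => by rw [inv_pow, hk, inv_one]

omit [Fintype G] in
lemma zkap_cu (u : G) : Cu u⁻¹ = Cu u := by rw [Cu, Subgroup.zpowers_inv]

lemma zkap_symm {y : G} (hD : IsPGroup p D) (hy : y ∈ Cz D) (hy' : ¬ p ∣ orderOf y)
    (hu : IsPElt p u) (hs : s ∈ Cu u) (hr : ¬ p ∣ orderOf s) :
    zkapXi D y (u⁻¹ * s) = zkapXi D y (u * s) := by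
  classical
  unfold zkapXi
  refine congrArg _ (Finset.sum_congr rfl fun x _ => ?_)
  rw [← Equiv.sum_comp (Equiv.inv G)]
  refine Finset.sum_congr rfl fun d _ => if_congr ?_ rfl rfl
  rw [Equiv.inv_apply, inv_mem_iff]
  refine and_congr_right fun hd => ?_
  have h1 : IsPElt p d := (hD ⟨d, hd⟩).imp fun k hk => congrArg Subtype.val hk
  constructor
  · intro e
    have := zkap_iff (zkap_inv hu) (zkap_cu u ▸ hs) hr (zkap_inv h1) hy'
      (mem_Cz.1 hy _ (inv_mem hd)) e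
    rwa [inv_inv, inv_inv] at this
  · exact zkap_iff hu hs hr h1 hy' (mem_Cz.1 hy _ hd)

lemma zkap_gam (hp : (p : ℂ) ∈ V.nonunits) (hβ : HB (Cu u) β) (hx : IsCF x)
    (h : ∀ s ∈ Cu u, ¬ p ∣ orderOf s → x (u⁻¹ * s) = x (u * s)) :
    gam p u⁻¹ β x = gam p u β x := by
  funext s
  by_cases hs : s ∈ Cu u ∧ ¬ p ∣ orderOf s
  · have h1 : ∀ h ∈ Cu u, ∀ g ∈ Cu u, (fun y => x (u⁻¹ * y)) (h * g * h⁻¹) =
        (fun y => x (u⁻¹ * y)) g := zkap_cu u ▸ bstar_cf hx u⁻¹
    rw [gam_apply (zkap_cu u ▸ hs.1) hs.2, gam_apply hs.1 hs.2, bstar_shift x u, bstar_shift x u⁻¹,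
      ← orth_reg hp hβ.idem hβ.supp hβ.fix h1 hs.1 hs.2,
      ← orth_reg (z := fun y => x (u * y)) hp hβ.idem hβ.supp hβ.fix (bstar_cf hx u) hs.1 hs.2]
    refine ev_congr ((supp_single hs.1 1).mul hβ.supp) fun g hg => ?_
    by_cases hr : p ∣ orderOf g
    · rw [Reg_apply_sing _ hr, Reg_apply_sing _ hr]
    · rw [Reg_apply_reg _ hr, Reg_apply_reg _ hr]
      exact h g hg hr
  · rw [gam_out (zkap_cu u ▸ hs), gam_out hs]

open Classical in
/-- The sum of the coefficients over the coset `y D`. -/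
noncomputable def zkapL (k : Type) [Field k] (D : Subgroup G) (y : G) :
    MonoidAlgebra k G →+ k where
  toFun a := ∑ d, if d ∈ D then a.coeff (y * d) else 0
  map_zero' := by simp
  map_add' a b := by
    rw [← Finset.sum_add_distrib]
    refine Finset.sum_congr rfl fun d _ => ?_
    split_ifs <;> simp

open Classical in
lemma zkapL_apply {k : Type} [Field k] (D : Subgroup G) (y : G) (a : MonoidAlgebra k G) :
    zkapL k D y a = ∑ d, if d ∈ D then a.coeff (y * d) else 0 := rfl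

lemma zkapL_single {k : Type} [Field k] {y v : G} (hy : y ∈ Cz D) (hv : v ∈ D)
    (a : MonoidAlgebra k G) : zkapL k D y (single v 1 * a) = zkapL k D y a := by
  classical
  rw [zkapL_apply, zkapL_apply, ← Equiv.sum_comp (Equiv.mulLeft v)]
  refine Finset.sum_congr rfl fun d _ => ?_
  rw [Equiv.coe_mulLeft]
  refine if_congr (D.mul_mem_cancel_left hv) ?_ rfl
  rw [MonoidAlgebra.coeff_single_mul_apply, one_mul, ← mul_assoc y, mem_Cz.1 hy v hv]
  congr 1
  group

lemma zkapL_bb {y : G} (hy : y ∈ Cz D) (hc : D ≤ Cz D) (a : MonoidAlgebra V G) :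
    zkapL (ResidueField V) D y (bb D a) = zkapL (ResidueField V) D y (toRes V G a) := by
  classical
  rw [zkapL_apply, zkapL_apply]
  refine Finset.sum_congr rfl fun d _ => ?_
  by_cases hd : d ∈ D
  · rw [if_pos hd, if_pos hd, bb_eq_trc, coeff_trc, if_pos (mul_mem hy (hc hd))]
  · rw [if_neg hd, if_neg hd]

open Classical in
lemma zkap_root (hp : (p : ℂ) ∈ V.nonunits) (h : Rt p m ⊤ D c) (hu : u ∈ D) {y : G}
    (hy : y ∈ Cz D) :
    zkapL (ResidueField V) D y (bb D
      (rtr (cjRep V G) (Cu u) ⊤ (single u 1 * bk D c (Cu u)) * bk D c ⊤)) =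
      (Cu u).relIndex (stabT ⊤ D c) * zkapL (ResidueField V) D y (bb D (bk D c ⊤)) := by
  have hz : Fix ⊤ (rtr (cjRep V G) (Cu u) ⊤ (single u 1 * bk D c (Cu u))) :=
    rtr_fixed le_top (bnon_fix hp h hu)
  have hS := bb_rtr_mul hp h hu
  generalize rtr (cjRep V G) (Cu u) ⊤ (single u 1 * bk D c (Cu u)) = z at hz hS
  have he := (h.spec hp (le_top : Cz D ≤ ⊤)).1
  have hfD : Fix D (bk D c ⊤) := he.fix.mono le_top
  have h1 := res_idem_eq_sum (bb_idem hp h.pD he.idem hfD) (supp_bb D _)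
    ((he.fix.mono le_top).bb (Cz_le_Nz D))
  rw [bb_mul hp h.pD (hz.mono le_top) hfD, h1, Finset.mul_sum, map_sum, map_sum, Finset.mul_sum]
  refine Finset.sum_congr rfl fun c' hc' => ?_
  obtain ⟨h4, h5⟩ := Finset.mem_filter.1 hc'
  obtain ⟨g, -, hg, rfl⟩ := h.root_conj' hp (mem_blk.1 h4) h5
  have h2 := bb_cj g D z
  rw [cg_eq_iff.2 hg, hz g trivial] at h2
  rw [h2, toRes_cjB, ← cjRep_mul, hS, map_sum, map_sum, ← card_orb_eq, ← nsmul_eq_mul,
    ← Finset.sum_const]
  refine Finset.sum_congr rfl fun v hv => ?_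
  obtain ⟨n, hn, rfl⟩ := (mem_filter.1 hv).2
  rw [cjRep_mul, frpg_cj_single, zkapL_single hy
    ((Subgroup.mem_normalizer_iff.1 hg _).1 (bnon_mem hn hu))]

theorem exists_xi_fun (hp : (p : ℂ) ∈ V.nonunits) (h : Rt p m ⊤ D c) (I : IrrData G) :
    ∃ a : Fin I.n → ℂ, (∀ i, IsIntegral ℤ (a i)) ∧
      (∀ u ∈ D, gam p u⁻¹ (bk D c (Cu u)) (∑ i, a i • I.χ i) =
        gam p u (bk D c (Cu u)) (∑ i, a i • I.χ i)) ∧
      ∀ u ∈ D, gam p u (bk D c (Cu u)) (∑ i, a i • I.χ i) 1 * Nat.card D / Nat.card (Cu u) ∉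
        V.nonunits := by
  classical
  have hb := (h.spec hp (le_top : Cz D ≤ ⊤)).1
  obtain ⟨i₀, he⟩ := hb.exists_blockIdem I
  obtain ⟨y, hy, hy'⟩ := bb_ne_zero_iff.1 ((h.spec hp h.le).2.bb_ne h.root.res_ne)
  have hr : ¬ p ∣ orderOf y := fun e => hy' (coeff_sing hp hb.idem hb.supp hb.fix e ▸ zero_mem _)
  have hG : (Fintype.card G : ℂ) ≠ 0 := Nat.cast_ne_zero.2 Fintype.card_ne_zero
  obtain ⟨a, ha, hx⟩ : ∃ a : Fin I.n → ℂ, (∀ i, a i = (Fintype.card G : ℂ)⁻¹ *
      ∑ g, zkapXi D y g * I.χ i g⁻¹) ∧ zkapXi D y = ∑ i, a i • I.χ i :=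
    ⟨_, fun _ => rfl, cf_expand I (zkap_cf D y)⟩
  refine ⟨a, fun i => ?_, fun u hu => ?_, fun u hu h0 => ?_⟩
  rotate_left
  · rw [← hx]
    exact zkap_gam hp (h.hb_cu hp hu) (zkap_cf D y) fun s hs hs' =>
      zkap_symm h.pD hy hr (h.pelt hu) hs hs'
  · have hz : Fix ⊤ (rtr (cjRep V G) (Cu u) ⊤ (single u 1 * bk D c (Cu u)) * bk D c ⊤) :=
      Fix.mul (rtr_fixed le_top (bnon_fix hp h hu)) hb.fix
    have h1 := zkap_root hp h hu hy
    have h2 : ev (zkapXi D y) (rtr (cjRep V G) (Cu u) ⊤ (single u 1 * bk D c (Cu u)) * bk D c ⊤) =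
        (Cu u).relIndex ⊤ * ev (zkapXi D y) (single u 1 * bk D c (Cu u)) := by
      rw [hx, ev_sum_left, ev_sum_left, Finset.mul_sum]
      refine Finset.sum_congr rfl fun i _ => ?_
      rw [ev_smul_left, ev_smul_left, ev_chi_block he, ev_rtr (isCF_chi I i) le_top]
      by_cases hi : I.Bl V i₀ i
      · rw [ind_pos hi]
        ring
      · have h3 := congrFun (gam_of_not hp h he hu hi) 1
        rw [gam_apply (one_mem _) bpp_one, mul_one] at h3
        rw [h3]
        simp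
    generalize rtr (cjRep V G) (Cu u) ⊤ (single u 1 * bk D c (Cu u)) * bk D c ⊤ = z at hz h1 h2
    rw [← hx, gam_apply (one_mem _) bpp_one, mul_one] at h0
    rw [ev, zkap_sum D y (isCF_cf_iff.2 (fixedBy_top_iff.1 hz)), Subgroup.relIndex_top_right,
      ← Nat.card_eq_fintype_card, ← (Cu u).index_mul_card, Nat.cast_mul] at h2
    have h3 : (((Cu u).index : ℕ) : ℂ) ≠ 0 := Nat.cast_ne_zero.2 Subgroup.index_ne_zero_of_finite
    have h4 : ev (zkapXi D y) (single u 1 * bk D c (Cu u)) * Nat.card D / Nat.card (Cu u) =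
        ((∑ d, if d ∈ D then z.coeff (y * d) else 0 : V) : ℂ) := by
      have h5 : ((∑ d, if d ∈ D then z.coeff (y * d) else 0 : V) : ℂ) =
          ∑ d, if d ∈ D then cf z (y * d) else 0 := by
        push_cast
        refine Finset.sum_congr rfl fun d _ => ?_
        split_ifs <;> rfl
      have h6 := cardK_ne D
      have h7 := cardK_ne (Cu u)
      rw [h5, div_eq_iff h7]
      refine mul_left_cancel₀ h3 ?_
      rw [← mul_assoc, ← h2]
      field_simp
    rw [h4, ValuationSubring.coe_mem_nonunits_iff, ← residue_eq_zero_iff] at h0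
    have h5 : ∀ a : MonoidAlgebra V G, zkapL (ResidueField V) D y (bb D a) =
        residue V (∑ d, if d ∈ D then a.coeff (y * d) else 0) := fun a => by
      rw [zkapL_bb hy h.le_Cz, zkapL_apply, map_sum]
      refine Finset.sum_congr rfl fun d _ => ?_
      split_ifs
      · exact coeff_toRes _ _
      · exact (map_zero _).symm
    rw [h5, h5, h0, Finset.sum_eq_single 1, if_pos D.one_mem, mul_one, eq_comm,
      mul_eq_zero, residue_eq_zero_iff] at h1
    · have := bvan_charP hp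
      rcases h1 with h1 | h1
      · exact not_dvd_inert hp h (((CharP.cast_eq_zero_iff _ p _).1 h1).trans
          (Subgroup.relIndex_dvd_of_le_left _ (Cz_le_Cu hu)))
      · exact hy' h1
    · intro d _ h6
      split_ifs with hd
      · refine coeff_sing hp hb.idem hb.supp hb.fix (not_not.1 fun e => h6 ?_)
        rw [← pp_eq_one_iff, mem_Cz.1 hy d hd,
          pp_mul_eq (h.pelt hd) hr (mem_Cz.1 hy d hd).symm] at e
        exact e
      · rfl
    · exact fun e => absurd (mem_univ _) e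
  · obtain ⟨α, h1, h2⟩ := (sc_chi I i ⊤).inv.coset (R := D) le_top (Subgroup.mem_top y)
      (Cz_le_Nz D hy)
    have h3 : IsCF fun g => I.χ i g⁻¹ := fun a g => by
      beta_reduce
      rw [show (a * g * a⁻¹)⁻¹ = a * g⁻¹ * a⁻¹ by group, I.χ_conj]
    rw [ha]
    simp only [mul_comm (zkapXi D y _)]
    rw [zkap_sum D y h3, h2]
    have h6 := cardK_ne D
    convert h1 using 1
    field_simp

end Pool.Agent.Lib.MP_b6945b_al.Kx
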