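import Pool.Agent.Lib.MP_b6945b_al.Kx.ZBs
import Pool.Agent.Lib.MP_b6945b_al.Kx.ZKap
import Pool.Agent.Lib.MP_b6945b_al.Kx.LMS
import Pool.Agent.Lib.MP_b6945b_al.Kx.ZCj
import Pool.Agent.Lib.MP_b6945b_al.Kx.ZHt

set_option autoImplicit false

/-!
The system of local coordinates of a block.
-/

namespace Pool.Agent.Lib.MP_b6945b_al.Kx

open St Bi Finset
open MonoidAlgebra (single)
open scoped ComplexConjugate

variable {G : Type} [Group G] [Fintype G] {V : ValuationSubring ℂ} {p : ℕ} [Fact p.Prime]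
  {m : ℕ} {H D : Subgroup G} {c β : MonoidAlgebra V G} {x y z : G → ℂ} {u n s : G}
  {I : IrrData G} {i₀ : Fin I.n}

omit [Fact p.Prime] in
lemma zls_rel {A T : Subgroup G} (hle : A ≤ T) {k : ℕ} (h : k * Nat.card A = Nat.card T) :
    A.relIndex T = k := by
  have h5 := Subgroup.index_mul_card (A.subgroupOf T)
  rw [Nat.card_congr (Subgroup.subgroupOfEquivOfLe hle).toEquiv, ← h] at h5
  exact Nat.eq_of_mul_eq_mul_right Nat.card_pos h5

omit [Fact p.Prime] in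
lemma fu_eq (h : Rt p m ⊤ D c) (hu : u ∈ D) {k : ℕ}
    (h4 : k * Nat.card (Cz D) = Nat.card (stabT ⊤ D c ⊓ Cu u : Subgroup G)) : fu D c u = k := by
  have e : stabT (Cu u) D c = stabT ⊤ D c ⊓ Cu u := by
    ext n
    exact ⟨fun hn => ⟨⟨trivial, hn.2⟩, hn.1⟩, fun hn => ⟨hn.2, hn.1.2⟩⟩
  rw [fu, e]
  exact zls_rel (le_inf h.Cz_le_stab (Cz_le_Cu hu)) h4

lemma not_dvd_card (hp : (p : ℂ) ∈ V.nonunits) (h : Rt p m ⊤ D c) {k : ℕ}
    (h1 : k * Nat.card (Cz D) = Nat.card (stabT ⊤ D c)) : ¬ p ∣ k :=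
  zls_rel h.Cz_le_stab h1 ▸ not_dvd_inert hp h

omit [Fintype G] in
lemma zls_cu {v d : D} (h : Subgroup.zpowers v = Subgroup.zpowers d) :
    Cu (v : G) = Cu (d : G) := by
  have := congrArg (Subgroup.map D.subtype) h
  rw [MonoidHom.map_zpowers, MonoidHom.map_zpowers] at this
  exact congrArg Cz this

lemma zls_rr {v : G} {k m' f : ℕ} {φ : ℕ → G → ℂ} (hC : Cu v = Cu u) (hf : fu D c u = f)
    (hb : BSC p (Cu u) (bk D c (Cu u)) (Nat.card D) k m' f φ) (hm : m' * f + 1 = k)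
    (h2 : f = 1 ∨ 2 ≤ m') (x : G → ℂ) : rr p D c v x =
      Nat.card D * pr (Cu u) (gam p v (bk D c (Cu u)) x) (∑ i ∈ range f, φ i) := by
  have e : fu D c v = f := by rw [fu, hC]; exact hf
  rw [rr, e, hC, yv_eq (hb.can_iff hm Nat.card_pos.ne' h2)]

open Classical in
lemma zls_gam (hp : (p : ℂ) ∈ V.nonunits) (h : Rt p m ⊤ D c) (he : IsBlockIdem I i₀ (bk D c ⊤))
    (hu : u ∈ D) (a : Fin I.n → ℂ) : gam p u (bk D c (Cu u)) (∑ i, a i • I.χ i) =
      ∑ i : {i // I.Bl V i₀ i}, a i • gam p u (bk D c (Cu u)) (I.χ i) := by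
  rw [gam_sum, ← Fintype.sum_subtype_add_sum_subtype (fun i => I.Bl V i₀ i),
    sum_eq_zero fun (i : {i // ¬ I.Bl V i₀ i}) _ => by rw [gam_of_not hp h he hu i.2, smul_zero],
    add_zero]

open Classical in
lemma zls_sum (hp : (p : ℂ) ∈ V.nonunits) (h : Rt p m ⊤ D c) (he : IsBlockIdem I i₀ (bk D c ⊤))
    (hu : u ∈ D) (a : Fin I.n → ℂ) : ∑ i : {i // I.Bl V i₀ i}, a i * rr p D c u (I.χ i) =
      rr p D c u (∑ i, a i • I.χ i) := by
  rw [rr, zls_gam hp h he hu, pr_sum_left, mul_sum]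
  exact sum_congr rfl fun i _ => by rw [pr_smul_left, rr, mul_left_comm]

open Classical in
theorem ls_of_bsc (hp : (p : ℂ) ∈ V.nonunits) (hodd : p ≠ 2) (h : Rt p m ⊤ D c)
    (he : IsBlockIdem I i₀ (bk D c ⊤))
    [Fintype D] (E : Subgroup (MulAut D)) [Fintype E]
    (h1 : Nat.card E * Nat.card (Cz D) = Nat.card (stabT ⊤ D c))
    (h2 : ∀ g : E, ∃ n ∈ stabT ⊤ D c, ∀ d : D, ((g : MulAut D) d : G) = n * d * n⁻¹)
    (h3 : ∀ n ∈ stabT ⊤ D c, ∃ g : E, ∀ d : D, ((g : MulAut D) d : G) = n * d * n⁻¹)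
    (h4 : ∀ d : D, stb E.subtype d * Nat.card (Cz D) =
      Nat.card (stabT ⊤ D c ⊓ Cu (d : G) : Subgroup G))
    (M : Subgroup D) (hM : ∀ (g : E) (d : D), (g : MulAut D) d ∈ M ↔ d ∈ M)
    (hl : ∀ d : D, d ∉ M → lL p (Cu (d : G)) (bk D c (Cu (d : G))) = stb E.subtype d)
    (hb : ∀ d : D, d ∉ M → ∃ m' φ, m' * stb E.subtype d + 1 = (Subgroup.zpowers d).index ∧
      (stb E.subtype d = 1 ∨ 2 ≤ m') ∧ BSC p (Cu (d : G)) (bk D c (Cu (d : G))) (Nat.card D)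
        (Subgroup.zpowers d).index m' (stb E.subtype d) φ)
    (hg : ∀ d : D, d ∉ M → stb E.subtype d = 1 ∨
      ∀ v ∈ Subgroup.zpowers d, v ∉ M → Subgroup.zpowers v = Subgroup.zpowers d)
    (hr : ∃ d : D, d ∉ M ∧ stb E.subtype d = 1) :
    LS p V E.subtype (fun d : D => mat p I i₀ (eta D c (orb (stabT ⊤ D c) d))) M
      fun d i => rr p D c d (I.χ i) := by
  choose m' φ b1 b2 b3 using hb
  have hf : ∀ d : D, fu D c d = stb E.subtype d := fun d => fu_eq h d.2 (h4 d)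
  choose ξ x1 x2 using fun (d : D) (hd : d ∉ M) (i : {i // I.Bl V i₀ i}) =>
    (b3 d hd).exists_xi h.comm (h.hb_cu hp d.2) I i
  have hs : ∀ (d : D) (hd : d ∉ M) (v : D), Subgroup.zpowers v = Subgroup.zpowers d →
      ∀ i : {i // I.Bl V i₀ i},
        rr p D c v (I.χ i) = ∑ j ∈ range (stb E.subtype d), ξ d hd i j v := fun d hd v hv i => by
    rw [zls_rr (zls_cu hv) (hf d) (b3 d hd) (b1 d hd) (b2 d hd), x2 d hd i v hv,
      (b3 d hd).coord (b1 d hd)]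
  obtain ⟨d₀, hd₀, e₀⟩ := hr
  refine ⟨Fact.out, hodd, hp, ms0 hp h he E h1 h2 h3 h4, ?_, fun e => hd₀ (e ▸ trivial), hM,
    fun g d hd => funext fun i => ?_, fun d hd => (rank_orb hp h d.2 he).trans (hl d hd),
    fun d hd => ⟨ξ d hd, m' d hd, b1 d hd, x1 d hd, hs d hd, fun v hv i j => ?_⟩, hg, ?_⟩
  · rw [← Nat.card_eq_fintype_card]
    exact not_dvd_card hp h h1
  · obtain ⟨n, hn, e⟩ := h2 g
    have e' : ((E.subtype g d : D) : G) = n * d * n⁻¹ := e d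
    rw [e']
    refine rr_conj hp h d.2 hn (isCF_chi I i) (y := ∑ j ∈ range (stb E.subtype d), φ d hd j) ?_
    rw [hf]
    exact (b3 d hd).can_iff (b1 d hd) Nat.card_pos.ne' (b2 d hd)
  · rw [mat_eq_pr hp h he v.2, zls_cu hv, x2 d hd i v hv, x2 d hd j v hv,
      ← Nat.card_eq_fintype_card, (b3 d hd).form, hs d hd v hv, hs d hd v hv]
  · obtain ⟨a, a1, a2, a3⟩ := exists_xi_fun hp h I
    refine ⟨fun i => a i, fun i => a1 i, fun d hd => ?_, d₀, hd₀, fun hn => a3 d₀ d₀.2 ?_⟩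
    · rw [zls_sum hp h he d.2, zls_sum hp h he d⁻¹.2,
        zls_rr (zls_cu (Subgroup.zpowers_inv (g := d))) (hf d) (b3 d hd) (b1 d hd) (b2 d hd),
        zls_rr rfl (hf d) (b3 d hd) (b1 d hd) (b2 d hd), ← a2 d d.2]
      rfl
    · obtain ⟨z, hz, ez⟩ := (b3 d₀ hd₀).exc
      have e1 : gam p (d₀ : G) (bk D c (Cu (d₀ : G))) (∑ i, a i • I.χ i) =
          (∑ i : {i // I.Bl V i₀ i}, a i * rr p D c d₀ (I.χ i)) • Reg p z := by
        rw [zls_gam hp h he d₀.2, sum_smul, ez]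
        refine sum_congr rfl fun i _ => ?_
        rw [x2 d₀ hd₀ i d₀ rfl, hs d₀ hd₀ d₀ rfl, e₀]
        simp only [range_one, sum_singleton, mul_smul]
      have e2 : Reg p z 1 = z 1 := if_neg (by
        rw [orderOf_one, Nat.dvd_one]
        exact (Fact.out : p.Prime).ne_one)
      rw [e1, Pi.smul_apply, smul_eq_mul, e2, mul_assoc, mul_div_assoc,
        ValuationSubring.mem_nonunits_iff, map_mul]
      exact mul_lt_one_of_lt_of_le (V.mem_nonunits_iff.1 hn)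
        ((V.valuation_le_one_iff _).2 (hz.height hp (h.cu_top hp d₀.2)))

end Pool.Agent.Lib.MP_b6945b_al.Kx
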