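import Pool.Agent.Lib.MP_b6945b_al.Kx.VRed
import Pool.Agent.Lib.MP_b6945b_al.Kx.VFinA

set_option autoImplicit false

/-!
Local subgroups for defect groups of rank at most two.
-/

namespace Pool.Agent.Lib.MP_b6945b_al.Kx

open St Bi Finset

variable {G : Type} [Group G] [Fintype G] {V : ValuationSubring ℂ} {p : ℕ} [Fact p.Prime]
  {m N : ℕ} {H D P Q : Subgroup G} {c : MonoidAlgebra V G} {M : Ideal (integralClosure ℤ ℂ)}
  {u : G}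

lemma vred_step2 (hp : (p : ℂ) ∈ V.nonunits) [Q.Normal]
    [Fintype (G ⧸ Q)] [Fintype (Finset (Subgroup (G ⧸ Q)))] (h : Rt p m ⊤ D c) (hQD : Q ≤ D)
    (hQ : ∀ R : Subgroup G, R.Normal → R ≤ D → R ≤ Q)
    (h0 : D ⊓ Cz (stabT ⊤ D c ⊓ Cz Q) = Q → D.map (qm Q) ≠ ⊥ →
      ∀ γ ∈ rts (D.map (qm Q)) (inc V (qm Q) (bk D c ⊤)), Rt p m ⊤ (D.map (qm Q)) γ →
        ∑ σ ∈ chs p (D.map (qm Q)), sgn σ * (wl p (stab σ) (D.map (qm Q)) γ : ℤ) = 0)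
    (ih : ∀ (K : Subgroup G), K ≠ ⊤ → ∀ g ∈ Nz D, Rt p m K D (cjRep V G g c) →
      lL p K (bk D (cjRep V G g c) K) = lL p (K ⊓ Nz D) (bk D (cjRep V G g c) (K ⊓ Nz D))) :
    lL p ⊤ (bk D c ⊤) = lL p (Nz D) (bk D c (Nz D)) := by
  have h1 : lL p ⊤ (bk D c ⊤) = lL p (Nz (D ⊓ Cz (stabT ⊤ D c ⊓ Cz Q)))
      (bk D c (Nz (D ⊓ Cz (stabT ⊤ D c ⊓ Cz Q)))) :=
    lL_wat hp h (le_cl hQD) inf_le_left (same_cl hQD).cz
      fun _ ht => nz_cl ht ((Subgroup.normalizer_eq_top Q).ge trivial)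
  have hT : stabT ⊤ D c ≤ Nz D := fun t ht => ht.2.1
  have h3 : stabT ⊤ D c ≤ Nz (D ⊓ Cz (stabT ⊤ D c ⊓ Cz Q)) := fun t ht =>
    pu_Nz_inf (hT ht) (Nz_le_Nz_Cz _ (pu_Nz_inf (Subgroup.le_normalizer ht)
      (Nz_le_Nz_Cz Q (Subgroup.le_normalizer_of_normal (Subgroup.mem_top t)))))
  have h4 : Q ≤ D ⊓ Cz (stabT ⊤ D c ⊓ Cz Q) :=
    le_inf hQD fun x hx => mem_Cz.2 fun s hs => (mem_Cz.1 hs.2 x hx).symm
  have h5 : D ⊓ Cz (stabT ⊤ D c ⊓ Cz Q) ≤ D := inf_le_left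
  generalize D ⊓ Cz (stabT ⊤ D c ⊓ Cz Q) = R at h0 h1 h3 h4 h5
  by_cases hR : Nz R = ⊤
  swap
  · have h6 := ih _ hR 1 (one_mem _)
    rw [map_one, Module.End.one_apply] at h6
    rw [h1, h6 (h.local hp h5 (inf_le_right.trans (Cz_le_Nz R)) le_top le_rfl),
      vred_nz hp h (le_inf h3 hT) inf_le_right, vred_nz hp h hT le_rfl]
  obtain rfl := le_antisymm h4 (hQ R (Subgroup.normalizer_eq_top_iff.1 hR) h5)
  by_cases hD : D.map (qm Q) = ⊥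
  · rw [Subgroup.map_eq_bot_iff, QuotientGroup.ker_mk'] at hD
    rw [← le_antisymm hQD hD, hR]
  exact step_auxw hp h hQD hQ hD (h0 rfl hD) ih

lemma vred_frob (hM : CoefB p M V) [Q.Normal]
    [Fintype (G ⧸ Q)] [Fintype (Finset (Subgroup (G ⧸ Q)))] (h : Rt p m ⊤ D c) (hQD : Q ≤ D)
    (hD : D.map (qm Q) ≠ ⊥)
    (h2 : ∀ t ∈ stabT ⊤ D c, (∀ d ∈ D, t * d * t⁻¹ * d⁻¹ ∈ Q) ∨
      ∀ d ∈ D, t * d * t⁻¹ * d⁻¹ ∈ Q → d ∈ Q)
    {γ : MonoidAlgebra V (G ⧸ Q)} (hγ : γ ∈ rts (D.map (qm Q)) (inc V (qm Q) (bk D c ⊤)))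
    (hγ' : Rt p m ⊤ (D.map (qm Q)) γ) :
    ∑ σ ∈ chs p (D.map (qm Q)), sgn σ * (wl p (stab σ) (D.map (qm Q)) γ : ℤ) = 0 := by
  obtain ⟨g, hg, h7⟩ := dom_stab hM.nonunit h hQD hγ
  refine sum_wl_free hM hγ' hD fun s hs => ?_
  obtain ⟨a, ha, t, ht, rfl⟩ := h7 s hs
  have h8 : ∀ x d : G, x * d * x⁻¹ * d⁻¹ ∈ Q ↔ qm Q x * qm Q d = qm Q d * qm Q x := fun x d => by
    rw [← QuotientGroup.eq_one_iff, ← QuotientGroup.mk'_apply, map_mul, map_mul, map_mul, map_inv,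
      map_inv, mul_inv_eq_one, mul_inv_eq_iff_eq_mul]
  refine vred_free (g := qm Q g) ha (Nz_map_qm hQD ▸ ⟨g, hg, rfl⟩) ?_
  rw [← map_inv, ← map_mul, ← map_mul]
  refine (h2 _ ((mem_stabT_cj hg).1 ht)).imp (fun e => mem_Cz.2 ?_) fun e => ?_
  · rintro _ ⟨d, hd, rfl⟩
    exact (h8 _ d).1 (e d hd)
  · rintro _ ⟨d, hd, rfl⟩ e'
    exact (QuotientGroup.eq_one_iff d).2 (e d hd ((h8 _ d).2 e'))

lemma dich_two (hp : (p : ℂ) ∈ V.nonunits) (h : Rt p m ⊤ D c) (h2 : om1 p D ≤ p ^ 2)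
    {A : Subgroup G} (hA : A ≤ stabT ⊤ D c) (h0 : D ⊓ Cz A ≠ ⊥) {t : G} (ht : t ∈ Nz (D ⊓ Cz A))
    (hT : t ∈ stabT ⊤ D c) : (∀ d ∈ D, t * d * t⁻¹ * d⁻¹ ∈ D ⊓ Cz A) ∨
      ∀ d ∈ D, t * d * t⁻¹ * d⁻¹ ∈ D ⊓ Cz A → d ∈ D ⊓ Cz A := by
  have hq : p.Prime := Fact.out
  obtain ⟨E, h1, -, h3, -⟩ := exists_inertial (D := D) (T := stabT ⊤ D c)
    (fun n hn => hn.2.1) h.Cz_le_stab
  have h4 : ¬ p ∣ Nat.card E := fun hE => not_dvd_inert hp h (by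
    have h5 := Subgroup.index_mul_card ((Cz D).subgroupOf (stabT ⊤ D c))
    rw [Nat.card_congr (Subgroup.subgroupOfEquivOfLe h.Cz_le_stab).toEquiv, ← h1] at h5
    exact hE.trans (Nat.eq_of_mul_eq_mul_right Nat.card_pos h5).symm.dvd)
  obtain ⟨g, hg⟩ := h3 t hT
  have h5 : ∀ d : D, (g : MulAut D) d * d⁻¹ ∈ (D ⊓ Cz A).subgroupOf D ↔
      t * d * t⁻¹ * (d : G)⁻¹ ∈ D ⊓ Cz A := fun d => by
    rw [Subgroup.mem_subgroupOf, Subgroup.coe_mul, hg, Subgroup.coe_inv]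
  refine (vfin_dich hq (fun a b => Subtype.ext (h.comm _ a.2 _ b.2)) h.pD
    h2 E h4 ((D ⊓ Cz A).subgroupOf D) (fun d hd => ?_)
    (fun e => h0 ?_) g.2 fun z => ?_).imp (fun a d hd => (h5 ⟨d, hd⟩).1 (a _))
      fun a d hd e => a ⟨d, hd⟩ ((h5 _).2 e)
  · refine ⟨d.2, mem_Cz.2 fun a ha => ?_⟩
    obtain ⟨k, hk⟩ := h3 a (hA ha)
    have h6 := hd k k.2 fun z hz => Subtype.ext
      ((hk z).trans (mul_inv_eq_iff_eq_mul.2 (mem_Cz.1 hz.2 a ha).symm))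
    exact (mul_inv_eq_iff_eq_mul.1 ((hk d).symm.trans (congrArg Subtype.val h6))).symm
  · rw [← Subgroup.map_subgroupOf_eq_of_le (inf_le_left : D ⊓ Cz A ≤ D), e, Subgroup.map_bot]
  · rw [Subgroup.mem_subgroupOf, Subgroup.mem_subgroupOf, hg]
    exact (Subgroup.mem_normalizer_iff.1 ht _).symm

theorem lL_loc_two (hM : CoefB p M V) (h : Rt p m H D c) (h2 : om1 p D ≤ p ^ 2) (hP : P ≤ D)
    (h0 : P ≠ ⊥) (hH : H ≤ Nz P) :
    lL p H (bk D c H) = lL p (H ⊓ Nz D) (bk D c (H ⊓ Nz D)) := by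
  have hp := hM.nonunit
  have key : ∀ (n : ℕ) (G : Type) [Group G] [Fintype G] (H D P : Subgroup G)
      (c : MonoidAlgebra V G), Nat.card H < n → Rt p m H D c → om1 p D ≤ p ^ 2 → P ≤ D → P ≠ ⊥ →
      H ≤ Nz P → lL p H (bk D c H) = lL p (H ⊓ Nz D) (bk D c (H ⊓ Nz D)) := by
    intro n
    induction n with
    | zero => exact fun _ _ _ _ _ _ _ h => absurd h (Nat.not_lt_zero _)
    | succ n ih =>
      intro G _ _ H D P c hH h hb hP h0 hN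
      let _ : Fintype H := Fintype.ofFinite H
      have h1 := h.pull hp
      have hb' := (lind_om1 h).trans_le hb
      have h2 := h.lL_map hp (K := ⊤) le_top
      have h3 := h.lL_map hp (K := Nz (D.subgroupOf H)) (Cz_le_Nz _)
      rw [map_top_sub] at h2
      rw [h.map_Nz] at h3
      rw [h2, h3]
      have h4 := (D.subgroupOf H).normalCore_le
      have h5 : (P.subgroupOf H).Normal := Subgroup.normal_subgroupOf_of_le_normalizer hN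
      have h6 : P.subgroupOf H ≤ D.subgroupOf H := Subgroup.comap_mono hP
      have h7 : P.subgroupOf H ≠ ⊥ := fun e => h0 (by
        rw [← Subgroup.map_subgroupOf_eq_of_le (hP.trans (h.le_Cz.trans h.le)), e, Subgroup.map_bot])
      have h8 : (D.subgroupOf H).normalCore ≠ ⊥ := fun e =>
        h7 (le_bot_iff.1 ((Subgroup.normal_le_normalCore.2 h6).trans e.le))
      let _ : Fintype (H ⧸ (D.subgroupOf H).normalCore) := Fintype.ofFinite _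
      let _ : Fintype (Finset (Subgroup (H ⧸ (D.subgroupOf H).normalCore))) := Fintype.ofFinite _
      refine vred_step2 hp h1 h4 (fun R _ hR => Subgroup.normal_le_normalCore.2 hR)
        (fun e hD γ hγ hγ' => vred_frob hM h1 h4 hD (fun t ht => ?_) hγ hγ')
        fun K hK g hg hK' => ih H K _ _ _ ((bind_card_lt hK).trans_le (Nat.lt_succ_iff.1 hH))
          hK' hb' h6 h7 Subgroup.le_normalizer_of_normal
      have h9 := dich_two hp h1 hb' (inf_le_left (b := Cz (D.subgroupOf H).normalCore))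
        (by rwa [e]) (t := t)
        (by rw [e]; exact Subgroup.le_normalizer_of_normal (Subgroup.mem_top t)) ht
      rwa [e] at h9
  exact key _ G H D P c (Nat.lt_succ_self _) h h2 hP h0 hH

theorem sum_wl_eq_two [Fintype (Finset (Subgroup G))] (hM : CoefB p M V) (h : Rt p m ⊤ D c)
    (h2 : om1 p D ≤ p ^ 2) (h0 : D ≠ ⊥) :
    ∑ σ ∈ chs p D, sgn σ * (wl p (stab σ) D c : ℤ) = Nat.card (stabT ⊤ D c) *
      ((lL p ⊤ (bk D c ⊤) : ℤ) - lL p (Nz D) (bk D c (Nz D))) := by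
  classical
  have e2 := sum_chs_nz h.pD h.comm h0 fun K => (wl p K D c : ℤ)
  have h1 : ∅ ∈ chs p D := mem_chs.2 ⟨⟨by simp, by simp⟩, by simp⟩
  have e3 : ∀ σ ∈ (chs p D).erase ∅, sgn σ * (wl p (stab σ) D c : ℤ) =
      sgn σ * (wl p (stab σ ⊓ Nz D) D c : ℤ) := fun σ hσ => by
    obtain ⟨h3, h4⟩ := mem_erase.1 hσ
    obtain ⟨R, hR⟩ := Finset.nonempty_iff_ne_empty.2 h3
    rw [wl, wl, stabT_inf, lL_loc_two hM (rt_chs hM.nonunit h h4) h2 ((mem_chs.1 h4).2 R hR)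
      ((mem_chs.1 h4).1.2 R hR).2 fun g hg => mem_stab.1 hg R hR]
  rw [← Finset.add_sum_erase _ _ h1] at e2 ⊢
  rw [Finset.sum_congr rfl e3, eq_neg_of_add_eq_zero_right e2, stab_empty, wl, wl, stabT_inf,
    top_inf_eq, sgn, card_empty]
  push_cast
  ring

end Pool.Agent.Lib.MP_b6945b_al.Kx
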