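import Pool.Agent.Lib.MP_b6945b_al.Kx.ZGrp
import Pool.Agent.Lib.MP_b6945b_al.Kx.YDual

set_option autoImplicit false

/-!
The choice of the exceptional subgroup.
-/

namespace Pool.Agent.Lib.MP_b6945b_al.Kx

open St Bi Finset

section comm
variable {p : ℕ} {D : Type} [CommGroup D] [Fintype D]

lemma zm_base {E : Type} [Group E] [Fintype E] {φ : E →* MulAut D} (hp : p.Prime)
    (hD : IsPGroup p D) (hE : ¬ p ∣ Fintype.card E) {M : Subgroup D}
    (hs : ∀ g d, φ g d ∈ M ↔ d ∈ M) (hne : M ≠ ⊤) :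
    ∃ w, w ∉ M ∧ ∀ g, φ g w * w⁻¹ ∈ M → φ g w = w := by
  obtain ⟨u, -, hu⟩ := SetLike.exists_of_lt (lt_top_iff_ne_top.2 hne)
  let A : Subgroup E :=
    { carrier := {g | φ g u * u⁻¹ ∈ M}
      one_mem' := by simp
      mul_mem' := fun {a b} ha hb => by
        have h1 := M.mul_mem ((hs a _).2 hb) ha
        rwa [map_mul, map_inv, mul_assoc, inv_mul_cancel_left, ← MulAut.mul_apply,
          ← map_mul] at h1
      inv_mem' := fun {a} ha => by
        refine (hs a _).1 ?_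
        have h1 := M.inv_mem ha
        rw [mul_inv_rev, inv_inv] at h1
        rwa [map_mul, ← MulAut.mul_apply, ← map_mul, mul_inv_cancel, map_one, MulAut.one_apply,
          map_inv] }
  obtain ⟨π, h1, -, -, -, h2⟩ := exists_proj (φ := φ) hp hD hE A
  have h3 := h2 M u fun g hg => hg
  refine ⟨π u, fun e => hu ?_, fun g hg => h1 g ?_ u⟩
  · simpa using M.mul_mem (M.inv_mem e) h3
  · have h4 := M.mul_mem (M.mul_mem hg h3) (M.inv_mem ((hs g _).2 h3))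
    rw [mul_assoc (φ g (π u)), inv_mul_cancel_left, map_mul, mul_inv_rev, ← map_inv, inv_inv,
      mul_comm (φ g u), ← mul_assoc, mul_right_comm (φ g (π u)), mul_inv_cancel, one_mul,
      mul_comm] at h4
    exact h4

lemma zm_reg {E : Type} [Group E] {φ : E →* MulAut D} {M : Subgroup D}
    (hs : ∀ g d, φ g d ∈ M ↔ d ∈ M) (hi : M.index ≤ p ^ 2) {w : D} (hw : w ∉ M)
    (hF : ∀ g, φ g w * w⁻¹ ∈ M → φ g w = w)
    (h1 : stb φ w = 1 ∨ (p ^ 2 ≤ (Subgroup.zpowers w).index ∧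
      ∀ g, φ g w = w → g = 1 ∨ ∀ d, φ g d = d → d ∈ Subgroup.zpowers w)) :
    ∃ z ∈ M, stb φ (w * z) = 1 := by
  rcases h1 with h1 | ⟨h1, h2⟩
  · exact ⟨1, M.one_mem, by rwa [mul_one]⟩
  have h3 : ¬ M ≤ Subgroup.zpowers w := fun e => by
    have h4 := Subgroup.relIndex_mul_index e
    have h5 : M.relIndex (Subgroup.zpowers w) ≠ 1 := fun k =>
      hw (Subgroup.relIndex_eq_one.1 k (Subgroup.mem_zpowers w))
    have h6 : M.index ≠ 0 := Subgroup.index_ne_zero_of_finite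
    have h7 : 2 ≤ M.relIndex (Subgroup.zpowers w) := by
      rcases Nat.eq_zero_or_pos (M.relIndex (Subgroup.zpowers w)) with k | k
      · exact absurd (by rw [← h4, k, zero_mul]) h6
      · omega
    have h8 := Nat.mul_le_mul h7 h1
    omega
  obtain ⟨z, hz, hz'⟩ := SetLike.not_le_iff_exists.1 h3
  refine ⟨z, hz, Nat.card_eq_one_iff_exists.2 ⟨⟨1, by rw [map_one, MulAut.one_apply]⟩, ?_⟩⟩
  rintro ⟨g, hg⟩
  rw [map_mul] at hg
  have h4 : φ g w = w := hF g (by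
    rw [eq_mul_inv_of_mul_eq hg, mul_right_comm, mul_right_comm w, mul_inv_cancel, one_mul]
    exact M.mul_mem hz (M.inv_mem ((hs g z).2 hz)))
  rw [h4, mul_left_cancel_iff] at hg
  exact Subtype.ext ((h2 g h4).resolve_right fun k => hz' (k z hg))

/-- The stabiliser of a nontrivial element. -/
lemma zm_stab (hp : p.Prime) (hD : IsPGroup p D) (h2 : om1 p D ≤ p ^ 2)
    (E : Subgroup (MulAut D)) (hE : ¬ p ∣ Nat.card E) {u : D} (hu : u ≠ 1) :
    stb E.subtype u ∣ p - 1 ∧ ∀ g ∈ E, ∀ k ∈ E, g u = u → k u = u → g ≠ 1 →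
      ∀ d, g d = d → k d = d := by
  let F : Subgroup (MulAut D) := E ⊓ MulAction.stabilizer (MulAut D) u
  have hF : ¬ p ∣ Nat.card F := fun h => hE (h.trans (Subgroup.card_dvd_of_le inf_le_left))
  obtain ⟨-, h3, h4⟩ := wall_spec hp mul_comm hD h2 F hF hu fun g hg => hg.2
  have h5 : stb E.subtype u = Nat.card F := Nat.card_congr
    { toFun := fun g => ⟨g.1.1, g.1.2, g.2⟩
      invFun := fun g => ⟨⟨g.1, g.2.1⟩, g.2.2⟩
      left_inv := fun _ => rfl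
      right_inv := fun _ => rfl }
  exact ⟨h5 ▸ h3, fun g hg k hk e1 e2 e3 d e4 => h4 g ⟨hg, e1⟩ e3 d e4 k ⟨hk, e2⟩⟩

omit [Fintype D] in
lemma zm_gen (hp : p.Prime) (hD : IsPGroup p D) {M : Subgroup D} (hM : ∀ d, d ^ p ∈ M) (u : D) :
    ∀ v ∈ Subgroup.zpowers u, v ∉ M → Subgroup.zpowers v = Subgroup.zpowers u := by
  rintro _ ⟨k, rfl⟩ hv
  have h1 : ¬ (p : ℤ) ∣ k := by
    rintro ⟨j, rfl⟩
    exact hv (by
      change u ^ ((p : ℤ) * j) ∈ M
      rw [mul_comm, zpow_mul, zpow_natCast]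
      exact hM _)
  obtain ⟨n, hn⟩ := hD u
  have h2 : IsCoprime ((p : ℤ) ^ n) k :=
    IsCoprime.pow_left ((Nat.prime_iff_prime_int.1 hp).coprime_iff_not_dvd.2 h1)
  obtain ⟨a, b, hab⟩ := h2
  refine le_antisymm (Subgroup.zpowers_le.2 ⟨k, rfl⟩) (Subgroup.zpowers_le.2 ⟨b, ?_⟩)
  have h3 : u ^ (a * (p : ℤ) ^ n + b * k) = u := by rw [hab, zpow_one]
  rwa [zpow_add, mul_comm a, zpow_mul, ← Nat.cast_pow, zpow_natCast, hn, one_zpow, one_mul,
    mul_comm b, zpow_mul] at h3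

lemma zm_wall (hp : p.Prime) (hD : IsPGroup p D) (h2 : om1 p D ≤ p ^ 2)
    (E : Subgroup (MulAut D)) (hE : ¬ p ∣ Nat.card E) {g : MulAut D} (hg : g ∈ E) (h1 : g ≠ 1) :
    ∃ w : D, ∀ d, g d = d ↔ d ∈ Subgroup.zpowers w :=
  wall_cyc hp mul_comm hD h2 (fun h => hE (h.trans (E.orderOf_dvd_natCard hg))) h1

/-- All properties follow from four of them. -/
lemma zm_fin (hp : p.Prime) (hD : IsPGroup p D) (h2 : om1 p D ≤ p ^ 2)
    (E : Subgroup (MulAut D)) (hE : ¬ p ∣ Nat.card E) (M : Subgroup D)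
    (a1 : ∀ (g : E) (d : D), (g : MulAut D) d ∈ M ↔ d ∈ M) (a2 : ∀ d, d ^ p ∈ M)
    (a3 : M.index ≤ p ^ 2) (a4 : M ≠ ⊤)
    (a5 : ∀ u, u ∉ M → ∀ g ∈ E, g ≠ 1 → (∀ d, g d = d ↔ d ∈ Subgroup.zpowers u) →
      p ^ 2 ≤ (Subgroup.zpowers u).index) :
    (∀ u, u ∉ M → stb E.subtype u < p) ∧
      (∀ u, u ∉ M → stb E.subtype u = 1 ∨ (p ^ 2 ≤ (Subgroup.zpowers u).index ∧
        ∀ g : E, (g : MulAut D) u = u → g = 1 ∨
          ∀ d, (g : MulAut D) d = d → d ∈ Subgroup.zpowers u)) ∧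
      (∀ u, u ∉ M → ∃ m', m' * stb E.subtype u + 1 = (Subgroup.zpowers u).index ∧
        (stb E.subtype u = 1 ∨ 2 ≤ m')) ∧
      (∀ u, ∀ v ∈ Subgroup.zpowers u, v ∉ M → Subgroup.zpowers v = Subgroup.zpowers u) ∧
      ∃ u, u ∉ M ∧ stb E.subtype u = 1 := by
  classical
  have := Fact.mk hp
  have p2 := hp.two_le
  have n1 : ∀ u, u ∉ M → u ≠ 1 := fun u hu e => hu (e ▸ M.one_mem)
  have b1 : ∀ u, u ∉ M → stb E.subtype u ≤ p - 1 := fun u hu =>
    Nat.le_of_dvd (by omega) (zm_stab hp hD h2 E hE (n1 u hu)).1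
  have b0 : ∀ u, u ∉ M → ∀ g ∈ E, g ≠ 1 → g u = u →
      ∀ d, g d = d ↔ d ∈ Subgroup.zpowers u := fun u hu g hg e1 e2 => by
    obtain ⟨w, hw⟩ := zm_wall hp hD h2 E hE hg e1
    rw [zm_gen hp hD a2 w u ((hw u).1 e2) hu]
    exact hw
  have b2 : ∀ u, u ∉ M → stb E.subtype u = 1 ∨ (p ^ 2 ≤ (Subgroup.zpowers u).index ∧
      ∀ g : E, (g : MulAut D) u = u → g = 1 ∨
        ∀ d, (g : MulAut D) d = d → d ∈ Subgroup.zpowers u) := fun u hu => by
    by_cases h : ∃ g ∈ E, g ≠ 1 ∧ g u = u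
    · obtain ⟨g, hg, e1, e2⟩ := h
      refine Or.inr ⟨a5 u hu g hg e1 (b0 u hu g hg e1 e2), fun k hk => ?_⟩
      by_cases e : k = 1
      · exact Or.inl e
      · exact Or.inr fun d hd =>
          (b0 u hu k k.2 (fun e' => e (Subtype.ext e')) hk d).1 hd
    · refine Or.inl (Nat.card_eq_one_iff_exists.2 ⟨⟨1, rfl⟩, ?_⟩)
      rintro ⟨g, hg⟩
      by_contra e
      exact h ⟨g, g.2, fun e' => e (Subtype.ext (Subtype.ext e')), hg⟩
  refine ⟨fun u hu => by have := b1 u hu; omega, b2, fun u hu => ?_, zm_gen hp hD a2, ?_⟩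
  · obtain ⟨k, hk⟩ := hD.index (Subgroup.zpowers u)
    have h3 : p - 1 ∣ p ^ k - 1 := by simpa using Nat.sub_dvd_pow_sub_pow p 1 k
    obtain ⟨m, hm⟩ := (zm_stab hp hD h2 E hE (n1 u hu)).1.trans h3
    have h4 : 0 < p ^ k := pow_pos hp.pos k
    refine ⟨m, by rw [mul_comm, ← hm, hk]; omega, (b2 u hu).imp_right fun h => ?_⟩
    by_contra e
    have h5 := Nat.mul_le_mul (b1 u hu) (show m ≤ 1 by omega)
    have h6 := h.1
    rw [hk, sq] at h6
    have h7 := Nat.mul_le_mul_right p p2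
    omega
  · have : Fintype E := Fintype.ofFinite _
    obtain ⟨w, h3, h4⟩ := zm_base (φ := E.subtype) hp hD
      (by rwa [← Nat.card_eq_fintype_card]) a1 a4
    obtain ⟨z, hz, h5⟩ := zm_reg (φ := E.subtype) a1 a3 h3 h4 (b2 w h3)
    exact ⟨w * z, fun e => h3 ((M.mul_mem_cancel_right hz).1 e), h5⟩

lemma zm_choice (hp : p.Prime) (hD : IsPGroup p D) (h2 : om1 p D ≤ p ^ 2)
    (h3 : ¬ Nat.card D ∣ p ^ 2) (E : Subgroup (MulAut D)) (hE : ¬ p ∣ Nat.card E) :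
    ∃ M : Subgroup D, (∀ (g : E) (d : D), (g : MulAut D) d ∈ M ↔ d ∈ M) ∧ (∀ d, d ^ p ∈ M) ∧
      M.index ≤ p ^ 2 ∧ M ≠ ⊤ ∧
      ∀ u, u ∉ M → ∀ g ∈ E, g ≠ 1 → (∀ d, g d = d ↔ d ∈ Subgroup.zpowers u) →
        p ^ 2 ≤ (Subgroup.zpowers u).index := by
  have := Fact.mk hp
  have p2 := hp.two_le
  obtain ⟨n, hn⟩ := IsPGroup.iff_card.1 hD
  have n3 : 3 ≤ n := by
    by_contra e
    exact h3 (hn ▸ pow_dvd_pow p (by omega))
  have c1 : ∀ u : D, u ^ p = 1 → p ^ 2 ≤ (Subgroup.zpowers u).index := fun u hu => by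
    have h4 := (Subgroup.zpowers u).card_mul_index
    rw [Nat.card_zpowers, hn] at h4
    have h5 : orderOf u ≤ p := orderOf_le_of_pow_eq_one hp.pos hu
    have h6 : p * p ^ 2 ≤ p ^ n := by
      rw [← pow_succ']
      exact Nat.pow_le_pow_right hp.pos n3
    exact Nat.le_of_mul_le_mul_left (h6.trans (h4 ▸ Nat.mul_le_mul_right _ h5)) hp.pos
  by_cases h : ∃ w : D, ∃ g ∈ E, g ≠ 1 ∧ (∀ d, g d = d ↔ d ∈ Subgroup.zpowers w) ∧
      (Subgroup.zpowers w).index < p ^ 2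
  · obtain ⟨w, g0, hg0, e0, hw, hi⟩ := h
    have c2 : Subgroup.zpowers w ≠ ⊤ := fun e =>
      e0 (MulEquiv.ext fun d => (hw d).2 (e ▸ Subgroup.mem_top d))
    have c3 : (Subgroup.zpowers w).index = p := by
      obtain ⟨k, hk⟩ := hD.index (Subgroup.zpowers w)
      have k0 : k ≠ 0 := fun e => c2 (Subgroup.index_eq_one.1 (by rw [hk, e, pow_zero]))
      have k2 : k < 2 := (Nat.pow_lt_pow_iff_right hp.one_lt).1 (hk ▸ hi)
      rw [hk, show k = 1 by omega, pow_one]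
    have c4 : ∀ d : D, d ^ p ∈ Subgroup.zpowers w := fun d =>
      c3 ▸ (Subgroup.zpowers w).pow_index_mem d
    have c5 : w ^ p ≠ 1 := fun e => absurd (c1 w e) (not_le.2 hi)
    refine ⟨Subgroup.zpowers w, fun g d => ?_, c4, hi.le, c2, fun u hu g hg e1 e2 => ?_⟩
    · have u1 : (g : MulAut D) w ^ p ≠ 1 := fun e =>
        c5 ((g : MulAut D).injective (by rw [map_pow, e, map_one]))
      have m1 : (g : MulAut D) * g0 * (g : MulAut D)⁻¹ ∈ E :=
        E.mul_mem (E.mul_mem g.2 hg0) (E.inv_mem g.2)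
      have m2 : (g : MulAut D) * g0 * (g : MulAut D)⁻¹ ≠ 1 := fun e =>
        e0 (by rwa [mul_inv_eq_one, mul_eq_left] at e)
      have m3 : ∀ x, ((g : MulAut D) * g0 * (g : MulAut D)⁻¹) ((g : MulAut D) x) =
          (g : MulAut D) (g0 x) := fun x => by
        rw [← MulAut.mul_apply, inv_mul_cancel_right, MulAut.mul_apply]
      have f0 : g0 ((g : MulAut D) w ^ p) = (g : MulAut D) w ^ p := (hw _).2 (c4 _)
      have f1 : ((g : MulAut D) * g0 * (g : MulAut D)⁻¹) ((g : MulAut D) w ^ p) =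
          (g : MulAut D) w ^ p := by
        rw [← map_pow, m3, (hw _).2 (c4 w)]
      have s := (zm_stab hp hD h2 E hE u1).2
      rw [← hw, ← hw]
      refine ⟨fun k => ?_, fun k => s _ m1 _ hg0 f1 f0 m2 _ (by rw [m3, k])⟩
      have k1 := s _ hg0 _ m1 f0 f1 e0 _ k
      rw [m3] at k1
      exact (g : MulAut D).injective k1
    · refine c1 u (by_contra fun e => hu ?_)
      have f1 : g (u ^ p) = u ^ p := (e2 _).2 (Subgroup.npow_mem_zpowers u p)
      exact (hw u).1 ((zm_stab hp hD h2 E hE e).2 g hg g0 hg0 f1 ((hw _).2 (c4 u)) e1 u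
        ((e2 u).2 (Subgroup.mem_zpowers u)))
  · refine ⟨(powMonoidHom p : D →* D).range, fun g d => ⟨?_, ?_⟩, fun d => ⟨d, rfl⟩, ?_,
      fun e => ?_, fun u _ g hg e1 e2 => not_lt.1 fun k => h ⟨u, g, hg, e1, e2, k⟩⟩
    · rintro ⟨x, hx⟩
      refine ⟨(g : MulAut D).symm x, (g : MulAut D).injective ?_⟩
      rw [← hx, powMonoidHom_apply, powMonoidHom_apply, map_pow, MulEquiv.apply_symm_apply]
    · rintro ⟨x, rfl⟩
      exact ⟨(g : MulAut D) x, (map_pow _ _ _).symm⟩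
    · rw [Subgroup.index_range]
      exact h2
    · have h4 : ∀ (k : ℕ) (d : D), ∃ x : D, x ^ p ^ k = d := fun k => by
        induction k with
        | zero => exact fun d => ⟨d, by rw [pow_zero, pow_one]⟩
        | succ k ih =>
          intro d
          obtain ⟨x, rfl⟩ := ih d
          obtain ⟨y, rfl⟩ : x ∈ (powMonoidHom p : D →* D).range := e ▸ Subgroup.mem_top x
          exact ⟨y, by rw [powMonoidHom_apply, ← pow_mul, pow_succ']⟩
      have h5 : Subsingleton D := ⟨fun a b => by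
        obtain ⟨x, rfl⟩ := h4 n a
        obtain ⟨y, rfl⟩ := h4 n b
        rw [← hn, pow_card_eq_one', pow_card_eq_one']⟩
      exact h3 (by rw [Nat.card_of_subsingleton (1 : D)]; exact one_dvd _)

end comm

variable {p : ℕ} {D : Type} [Group D] [Fintype D]

/-- The choice of the subgroup `M`. -/
theorem exists_M (hp : p.Prime) (hc : ∀ a b : D, a * b = b * a) (hD : IsPGroup p D)
    (h2 : om1 p D ≤ p ^ 2) (h3 : ¬ Nat.card D ∣ p ^ 2) (E : Subgroup (MulAut D))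
    (hE : ¬ p ∣ Nat.card E) :
    ∃ M : Subgroup D, (∀ (g : E) (d : D), (g : MulAut D) d ∈ M ↔ d ∈ M) ∧ (∀ d, d ^ p ∈ M) ∧
      M.index ≤ p ^ 2 ∧ (∀ u, u ∉ M → stb E.subtype u < p) ∧
      (∀ u, u ∉ M → stb E.subtype u = 1 ∨ (p ^ 2 ≤ (Subgroup.zpowers u).index ∧
        ∀ g : E, (g : MulAut D) u = u → g = 1 ∨
          ∀ d, (g : MulAut D) d = d → d ∈ Subgroup.zpowers u)) ∧
      (∀ u, u ∉ M → ∃ m', m' * stb E.subtype u + 1 = (Subgroup.zpowers u).index ∧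
        (stb E.subtype u = 1 ∨ 2 ≤ m')) ∧
      (∀ u, ∀ v ∈ Subgroup.zpowers u, v ∉ M → Subgroup.zpowers v = Subgroup.zpowers u) ∧
      ∃ u, u ∉ M ∧ stb E.subtype u = 1 := by
  let : CommGroup D := { ‹Group D› with mul_comm := hc }
  obtain ⟨M, a1, a2, a3, a4, a5⟩ := zm_choice hp hD h2 h3 E hE
  exact ⟨M, a1, a2, a3, zm_fin hp hD h2 E hE M a1 a2 a3 a4 a5⟩

end Pool.Agent.Lib.MP_b6945b_al.Kx
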