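import Pool.Agent.Lib.MP_b6945b_al.Kx.ZLS
import Pool.Agent.Lib.MP_b6945b_al.Kx.YRig
import Pool.Agent.Lib.MP_b6945b_al.Kx.POne

set_option autoImplicit false

/-!
Basic sets for the blocks of centralisers.
-/

namespace Pool.Agent.Lib.MP_b6945b_al.Kx

open St Bi Finset
open MonoidAlgebra (single)
open scoped ComplexConjugate

variable {G : Type} [Group G] [Fintype G] {V : ValuationSubring ℂ} {p : ℕ} [Fact p.Prime]
  {m : ℕ} {H D : Subgroup G} {c β : MonoidAlgebra V G} {x y z : G → ℂ} {u n s : G}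
  {I : IrrData G} {i₀ : Fin I.n}

omit [Fact p.Prime] in
lemma zreg_stab (h : Rt p m H D c) [Fintype H] :
    stabT ⊤ (D.subgroupOf H) (St.pull V H.subtype c) = (stabT H D c).subgroupOf H := by
  rw [← h.stab_map]
  exact (Subgroup.comap_map_eq_self_of_injective H.subtype_injective _).symm

omit [Fact p.Prime] in
lemma zreg_cz (h : Rt p m H D c) [Fintype H] : Cz (D.subgroupOf H) = (Cz D).subgroupOf H := by
  conv_rhs => rw [← h.map_Cz]
  exact (Subgroup.comap_map_eq_self_of_injective H.subtype_injective _).symm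

lemma zreg_up (hp : (p : ℂ) ∈ V.nonunits) (h : Rt p m H D c) [Fintype H] {k m' f : ℕ}
    (hb : ∃ φ, BSC p ⊤ (bk (D.subgroupOf H) (St.pull V H.subtype c) ⊤)
      (Nat.card (D.subgroupOf H)) k m' f φ) :
    ∃ φ, BSC p H (bk D c H) (Nat.card D) k m' f φ := by
  obtain ⟨φ, hφ⟩ := hb
  have h1 := h.bk_map hp (K := ⊤) le_top
  rw [map_top_sub] at h1
  rw [h1, ← Nat.card_congr (Subgroup.subgroupOfEquivOfLe h.le_H).toEquiv]
  exact ⟨_, hφ.ex0⟩

theorem bsc_nilp_top (hp : (p : ℂ) ∈ V.nonunits) (h : Rt p m ⊤ D c)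
    (hT : stabT ⊤ D c ≤ Cz D) {k m' : ℕ} (hm : m' + 1 = k) :
    ∃ φ, BSC p ⊤ (bk D c ⊤) (Nat.card D) k m' 1 φ := by
  classical
  let _ : Fintype D := Fintype.ofFinite _
  obtain ⟨I⟩ := exists_irrData G
  obtain ⟨i₀, he⟩ := (h.spec hp le_top).1.exists_blockIdem I
  obtain ⟨E, h1, h2, h3, h4⟩ := exists_inertial (D := D) (T := stabT ⊤ D c)
    (fun n hn => hn.2.1) h.Cz_le_stab
  let _ : Fintype E := Fintype.ofFinite _
  have : Nonempty {i // I.Bl V i₀ i} := ⟨⟨i₀, blkE_bl_self I i₀⟩⟩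
  have hb := (ms0 hp h he E h1 h2 h3 h4).bsa_reg (fun g d => by
    obtain ⟨n, hn, e⟩ := h2 g
    refine Subtype.ext ((e d).trans ?_)
    rw [mem_Cz.1 (hT hn) d d.2, mul_inv_cancel_right]) (fun d => (rank_orb hp h d.2 he).trans_le
      (lL_nilp hp h (Subgroup.zpowers_le_of_mem d.2) (inf_le_left.trans hT))) hm
  rw [Nat.card_eq_fintype_card]
  exact bsc_of_bsa hp h he hb

theorem bsc_nilp (hp : (p : ℂ) ∈ V.nonunits) (h : Rt p m H D c)
    (hT : stabT H D c ≤ Cz D) {k m' : ℕ} (hm : m' + 1 = k) :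
    ∃ φ, BSC p H (bk D c H) (Nat.card D) k m' 1 φ := by
  let _ : Fintype H := Fintype.ofFinite _
  refine zreg_up hp h (bsc_nilp_top hp (h.pull hp) ?_ hm)
  rw [zreg_stab h, zreg_cz h]
  exact Subgroup.comap_mono hT

theorem lL_nilp_eq (hp : (p : ℂ) ∈ V.nonunits) (h : Rt p m H D c)
    (hT : stabT H D c ≤ Cz D) : lL p H (bk D c H) = 1 := by
  let _ : Fintype H := Fintype.ofFinite _
  have h1 : Rt p 1 H D c := lind_inert h (by
    rw [one_mul]
    exact Subgroup.card_le_of_le hT)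
  refine le_antisymm ?_ (one_le_lL Fact.out (h.spec hp h.le).1)
  rw [lind_pull hp h1]
  exact lL_le_one hp _ _ (Nat.lt_succ_self _) _ _ (h1.pull hp)

theorem bsc_wall_top (hp : (p : ℂ) ∈ V.nonunits) (hodd : p ≠ 2) (h : Rt p m ⊤ D c)
    {W : Subgroup G} (hW : W ≤ D) (hc : ⊤ ≤ Cz W)
    (hF : ∀ t ∈ stabT ⊤ D c, ∀ u ∈ D, t * u = u * t → u ∈ W ∨ t ∈ Cz D) {m' f : ℕ}
    (hf : f = (Cz D).relIndex (stabT ⊤ D c)) (hm : m' * f + 1 = W.relIndex D) (h2 : 2 ≤ m')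
    (hl : f ≤ lL p ⊤ (bk D c ⊤)) :
    ∃ φ, BSC p ⊤ (bk D c ⊤) (Nat.card D) (W.relIndex D) m' f φ := by
  classical
  let _ : Fintype D := Fintype.ofFinite _
  obtain ⟨I⟩ := exists_irrData G
  obtain ⟨i₀, he⟩ := (h.spec hp le_top).1.exists_blockIdem I
  obtain ⟨E, h1, k2, h3, h4⟩ := exists_inertial (D := D) (T := stabT ⊤ D c)
    (fun n hn => hn.2.1) h.Cz_le_stab
  let _ : Fintype E := Fintype.ofFinite _
  have hE : f = Fintype.card E := by
    have h5 := Subgroup.index_mul_card ((Cz D).subgroupOf (stabT ⊤ D c))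
    rw [Nat.card_congr (Subgroup.subgroupOfEquivOfLe h.Cz_le_stab).toEquiv, ← h1] at h5
    rw [hf, ← Nat.card_eq_fintype_card]
    exact Nat.eq_of_mul_eq_mul_right Nat.card_pos h5
  have hz : ∀ n : G, ∀ w ∈ W, n * w * n⁻¹ = w := fun n w hw => by
    rw [mem_Cz.1 (hc (Subgroup.mem_top n)) w hw, mul_inv_cancel_right]
  have hfix : ∀ g : E, ∀ d ∈ W.subgroupOf D, E.subtype g d = d := fun g d hd => by
    obtain ⟨n, -, e⟩ := k2 g
    exact Subtype.ext ((e d).trans (hz n d hd))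
  have hT : ∀ d : D, d ∉ W.subgroupOf D → stabT (Cu (d : G)) D c ≤ Cz D := fun d hd t ht =>
    (hF t ⟨trivial, ht.2⟩ d d.2 (mem_Cu.1 ht.1).symm).resolve_left hd
  have hs : ∀ d : D, d ∉ W.subgroupOf D → stb E.subtype d = 1 := fun d hd => by
    have h5 := h4 d
    rw [show stabT ⊤ D c ⊓ Cu (d : G) = Cz D from le_antisymm
      (fun t ht => hT d hd ⟨ht.2, ht.1.2⟩) (le_inf h.Cz_le_stab (Cz_le_Cu d.2))] at h5
    exact Nat.eq_of_mul_eq_mul_right Nat.card_pos (h5.trans (one_mul _).symm)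
  have hx : ∃ d : D, d ∉ W.subgroupOf D := by
    by_contra h5
    have h6 : W.subgroupOf D = ⊤ := eq_top_iff.2 fun d _ => by_contra fun e => h5 ⟨d, e⟩
    have h7 : W.relIndex D = 1 := by rw [Subgroup.relIndex, h6, Subgroup.index_top]
    have h8 : 0 < m' * f := Nat.mul_pos (by omega) (hE ▸ Fintype.card_pos)
    omega
  obtain ⟨d₀, hd₀⟩ := hx
  have hL := ls_of_bsc hp hodd h he E h1 k2 h3 h4 (W.subgroupOf D) (fun g d => by
      refine ⟨fun hd => ?_, fun hd => (hfix g d hd).symm ▸ hd⟩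
      have h5 := hfix g⁻¹ _ hd
      have h6 : E.subtype g⁻¹ ((g : MulAut D) d) = d := by
        change ((g : MulAut D)⁻¹ * (g : MulAut D)) d = d
        rw [inv_mul_cancel, MulAut.one_apply]
      rw [← h6, h5]
      exact hd)
    (fun d hd => (lL_nilp_eq hp (h.cu_top hp d.2) (hT d hd)).trans (hs d hd).symm)
    (fun d hd => by
      have h5 : (Subgroup.zpowers d).index - 1 + 1 = (Subgroup.zpowers d).index :=
        Nat.sub_add_cancel (Nat.pos_of_ne_zero Subgroup.index_ne_zero_of_finite)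
      obtain ⟨φ, hφ⟩ := bsc_nilp hp (h.cu_top hp d.2) (hT d hd) h5
      rw [hs d hd]
      exact ⟨_, φ, by rw [mul_one, h5], Or.inl rfl, hφ⟩)
    (fun d hd => Or.inl (hs d hd)) ⟨d₀, hd₀, hs d₀ hd₀⟩
  have hb := hL.rigid hfix hs (m := m') (hE ▸ hm) h2 fun w hw => by
    refine le_of_le_of_eq ?_ (rank_orb hp h w.2 he).symm
    rw [show Cu (w : G) = ⊤ from eq_top_iff.2 (hc.trans (Cz_le_Cu hw)), ← hE]
    exact hl
  rw [Nat.card_eq_fintype_card, hE]
  exact bsc_of_bsa hp h he hb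

theorem bsc_wall (hp : (p : ℂ) ∈ V.nonunits) (hodd : p ≠ 2) (h : Rt p m H D c)
    {W : Subgroup G} (hW : W ≤ D) (hc : H ≤ Cz W)
    (hF : ∀ t ∈ stabT H D c, ∀ u ∈ D, t * u = u * t → u ∈ W ∨ t ∈ Cz D) {m' f : ℕ}
    (hf : f = (Cz D).relIndex (stabT H D c)) (hm : m' * f + 1 = W.relIndex D) (h2 : 2 ≤ m')
    (hl : f ≤ lL p H (bk D c H)) :
    ∃ φ, BSC p H (bk D c H) (Nat.card D) (W.relIndex D) m' f φ := by
  let _ : Fintype H := Fintype.ofFinite _
  have h1 : (W.subgroupOf H).relIndex (D.subgroupOf H) = W.relIndex D :=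
    Subgroup.relIndex_subgroupOf h.le_H
  refine zreg_up hp h ?_
  rw [← h1]
  refine bsc_wall_top hp hodd (h.pull hp) (Subgroup.comap_mono hW)
    (fun t _ => mem_Cz.2 fun w hw => Subtype.ext (mem_Cz.1 (hc t.2) w hw))
    (fun t ht u hu e => ?_) ?_ (hm.trans h1.symm) h2 (hl.trans_eq (lind_pull hp h))
  · rw [zreg_stab h] at ht
    rw [zreg_cz h]
    exact hF t ht u hu (congrArg Subtype.val e)
  · rw [zreg_stab h, zreg_cz h, Subgroup.relIndex_subgroupOf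
      (show stabT H D c ≤ H from fun t ht => ht.1)]
    exact hf

end Pool.Agent.Lib.MP_b6945b_al.Kx
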