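import Pool.Agent.Lib.MP_b6945b_al.Kx.ZFin
import Pool.Agent.Lib.MP_b6945b_al.Rl.GKR
import Pool.Agent.Lib.MP_b6945b_al.FactorDefs3

set_option autoImplicit false

/-!
The weight conjecture under the third form of the condition on the moved factors.
-/

namespace Pool.Agent.Lib.MP_b6945b_al.Kx

open St Bi IsLocalRing Finset

/-- `t` maps `T` into `T`, and centralises `D` or no nontrivial element of `T`. -/
def FrOn {G : Type} [Group G] (D T : Subgroup G) (t : G) : Prop :=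
  ∀ u ∈ T, t * u * t⁻¹ ∈ T ∧ (t * u = u * t → u = 1 ∨ t ∈ Cz D)

lemma FrOn.cj {G : Type} [Group G] {D T : Subgroup G} {a g t : G} (hT : T ≤ D) (ha : a ∈ Cz D)
    (hg : g ∈ Nz D) (h : FrOn D T (g⁻¹ * t * g)) : FrOn D (cg g T) (a * t) := by
  intro u hu
  obtain ⟨h1, h2⟩ := h _ (mem_cg.1 hu)
  have h3 : t * u * t⁻¹ ∈ cg g T := mem_cg.2 (by convert h1 using 1; group)
  have h4 : cg g T ≤ D := (Subgroup.map_mono hT).trans (cg_eq_iff.2 hg).le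
  refine ⟨?_, fun e => ?_⟩
  · have h5 := mem_Cz.1 ha _ (h4 h3)
    have h6 : a * t * u * (a * t)⁻¹ = t * u * t⁻¹ := by
      calc _ = a * (t * u * t⁻¹) * a⁻¹ := by group
        _ = _ := by rw [h5, mul_inv_cancel_right]
    rwa [h6]
  · have h5 : t * u = u * t := by
      rw [← mul_assoc, ← mem_Cz.1 ha u (h4 hu), mul_assoc, mul_assoc] at e
      exact mul_left_cancel e
    refine (h2 ?_).imp (fun e' => ?_) fun e' => mul_mem ha ?_
    · calc _ = g⁻¹ * (t * u) * g := by group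
        _ = _ := by rw [h5]; group
    · calc u = g * (g⁻¹ * u * g) * g⁻¹ := by group
        _ = 1 := by rw [e']; group
    · rw [← cg_eq_iff.2 (Nz_le_Nz_Cz D hg), mem_cg]
      exact e'

lemma zrel_cg_ne {G : Type} [Group G] {T : Subgroup G} (h : T ≠ ⊥) (g : G) : cg g T ≠ ⊥ :=
  fun e => h ((Subgroup.map_eq_bot_iff_of_injective T (MulAut.conj g).injective).1 e)

variable {G : Type} [Group G] [Fintype G] {V : ValuationSubring ℂ} {p : ℕ} [Fact p.Prime]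
  {m N : ℕ} {H D T Q : Subgroup G} {c : MonoidAlgebra V G} {M : Ideal (integralClosure ℤ ℂ)}

lemma relB_of_rt (hp : (p : ℂ) ∈ V.nonunits) (h : Rt p m ⊤ D c) (hT : T ≤ D) (hT0 : T ≠ ⊥)
    (hF : ∀ t ∈ stabT ⊤ D c, FrOn D T t) : RelB (bk D c ⊤) D := by
  intro j hj h0 hs hb
  have he := (h.spec hp h.le).1
  have hs' : Supp (Cz D) j := supp_Cz_iff.2 hs
  have hl : Le D (bk D c ⊤) j := (le_iff_inMax hs').2 hb
  obtain ⟨f, hf, h1⟩ : ∃ f ∈ blk V (Cz D), f * j ≠ 0 := by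
    refine Finset.exists_ne_zero_of_sum_ne_zero ?_
    rwa [← Finset.sum_mul, sum_blk, one_mul]
  have hf' := mem_blk.1 hf
  have h2 : f * j * (f * j) = f * j := by
    rw [mul_assoc, ← mul_assoc j, ← hf'.fix.comm hs', mul_assoc, hj, ← mul_assoc, hf'.idem]
  have h3 : Le D (bk D c ⊤) f := by
    refine (le_dich hp h.pD le_top he.idem he.supp he.fix hf' inf_le_right le_top
      (Cz_le_Nz D)).resolve_left fun e => res_ne_of_idem h2 h1 ?_
    unfold Le at hl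
    rw [map_mul, ← hl, ← mul_assoc, hf'.fix.toRes.comm (supp_bb _ _), e, zero_mul]
  have h4 : ∀ n ∈ Nz D, (∀ z, SuppCent (D : Set G) z →
      FixedBy (cjRep V G) (Subgroup.centralizer (D : Set G)) z →
        NilR V ((z - cjRep V G n z) * j)) → cjRep V G n f = f := fun n hn hz => by
    by_contra e
    have h5 := hf'.conj_norm (Nz_le_Nz_Cz D hn)
    have h6 := (hf'.fix.comm ((hf'.supp.sub h5.supp).mul hs')).symm
    have h7 := (hz f (supp_Cz_iff.1 hf'.supp) hf'.fix).mul_right h6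
    rw [h6, ← mul_assoc, mul_sub, hf'.idem, hf'.orth h5 (Ne.symm e), sub_zero] at h7
    exact h1 (h7.eq_zero h2)
  obtain ⟨g, -, hg, rfl⟩ := h.root_conj' hp hf' h3
  refine ⟨cg g T, (Subgroup.map_mono hT).trans (cg_eq_iff.2 hg).le, zrel_cg_ne hT0 g,
    fun n hn hz u hu => ?_⟩
  have h5 := (hF _ ((mem_stabT_cj hg).1 ⟨trivial, hn, h4 n hn hz⟩)).cj hT (one_mem _) hg u hu
  rw [one_mul] at h5
  exact ⟨h5.1, fun e => (h5.2 e).imp_right fun e' => mem_Cz.1 e'⟩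

theorem sum_wl_rel (hM : CoefB p M V) [Fintype (Finset (Subgroup G))] (h : Rt p m ⊤ D c)
    (hT : T ≤ D) (hT0 : T ≠ ⊥) (hF : ∀ t ∈ stabT ⊤ D c, FrOn D T t) :
    ∑ σ ∈ chs p D, sgn σ * (wl p (stab σ) D c : ℤ) = 0 := by
  classical
  let _ : Fintype (Subgroup G) := Fintype.ofFinite _
  have h0 : D ≠ ⊥ := fun e => hT0 (le_bot_iff.1 (hT.trans e.le))
  have hp := hM.nonunit
  have hb := (h.spec hp h.le).1
  obtain ⟨I⟩ := exists_irrData G
  obtain ⟨i, he⟩ := hb.exists_blockIdem I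
  have hD := defect_of_rt hM h he
  have hχ : IsIrrChar (I.χ i) := (isIrrChar_iff I).2 ⟨i, rfl⟩
  have hC : Coef p M V := ⟨hM.prime, hM.max, hM.mem, hM.iff⟩
  have hE := (Subsingleton.elim · (inferInstance : Fintype G))
  have hfree : RelC p M V (I.χ i) D := ⟨hχ, hD, h0, h.comm, fun F I' i' e' hi he' => by
    cases hE F
    have h2 : e' = bk D c ⊤ := by
      refine (hb_of_blockIdem he').eq_of_mul_ne hb fun e0 => I'.d_ne i' ?_
      have h3 := ev_chi_central I i e' hb.fix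
      rw [e0, ev_zero, blkF_om_self he, one_mul, hi, ev_chi_eq_om, blkF_om_self he', mul_one] at h3
      exact h3.symm
    exact h2 ▸ relB_of_rt hp h hT hT0 hF⟩
  refine sum_wl_of_KS hM h he ?_
  rw [KS_eq]
  exact chain_sum_zero hM.prime (wf M (I.χ i)) (d := Nat.card D) (bchain_hd hM.prime hD h0)
    (fun T L h1 h2 h3 h4 => wf_card_dvd hC hχ hD h1 h2 h3 h4)
    fun P L h1 h2 h3 h4 => hfree.wf_local hC h1 h2 h3 h4

lemma vred_rel (hM : CoefB p M V) [Q.Normal]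
    [Fintype (G ⧸ Q)] [Fintype (Finset (Subgroup (G ⧸ Q)))] (h : Rt p m ⊤ D c) (hQD : Q ≤ D)
    (hQT : Q < T) (hT : T ≤ D)
    (h2 : ∀ t ∈ stabT ⊤ D c, (∀ u ∈ T, t * u * t⁻¹ ∈ T) ∧
      ((∀ d ∈ D, t * d * t⁻¹ * d⁻¹ ∈ Q) ∨ ∀ u ∈ T, t * u * t⁻¹ * u⁻¹ ∈ Q → u ∈ Q))
    {γ : MonoidAlgebra V (G ⧸ Q)} (hγ : γ ∈ rts (D.map (qm Q)) (inc V (qm Q) (bk D c ⊤)))
    (hγ' : Rt p m ⊤ (D.map (qm Q)) γ) :
    ∑ σ ∈ chs p (D.map (qm Q)), sgn σ * (wl p (stab σ) (D.map (qm Q)) γ : ℤ) = 0 := by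
  obtain ⟨g, hg, h7⟩ := dom_stab hM.nonunit h hQD hγ
  have hg' : qm Q g ∈ Nz (D.map (qm Q)) := Nz_map_qm hQD ▸ ⟨g, hg, rfl⟩
  have h0 : T.map (qm Q) ≠ ⊥ := fun e => by
    rw [Subgroup.map_eq_bot_iff, QuotientGroup.ker_mk'] at e
    exact hQT.not_ge e
  refine sum_wl_rel hM hγ' (T := cg (qm Q g) (T.map (qm Q)))
    ((Subgroup.map_mono (Subgroup.map_mono hT)).trans (cg_eq_iff.2 hg').le) (zrel_cg_ne h0 _)
    fun s hs => ?_
  obtain ⟨a, ha, t, ht, rfl⟩ := h7 s hs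
  have h8 : ∀ x d : G, x * d * x⁻¹ * d⁻¹ ∈ Q ↔ qm Q x * qm Q d = qm Q d * qm Q x := fun x d => by
    rw [← QuotientGroup.eq_one_iff, ← QuotientGroup.mk'_apply, map_mul, map_mul, map_mul, map_inv,
      map_inv, mul_inv_eq_one, mul_inv_eq_iff_eq_mul]
  refine FrOn.cj (Subgroup.map_mono hT) ha hg' ?_
  rw [← map_inv, ← map_mul, ← map_mul]
  obtain ⟨h3, h4⟩ := h2 _ ((mem_stabT_cj hg).1 ht)
  rintro _ ⟨u, hu, rfl⟩
  refine ⟨⟨_, h3 u hu, by rw [map_mul, map_mul, map_inv (qm Q) (g⁻¹ * t * g)]⟩, fun e => ?_⟩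
  rcases h4 with h4 | h4
  · refine Or.inr (mem_Cz.2 ?_)
    rintro _ ⟨d, hd, rfl⟩
    exact (h8 _ d).1 (h4 d hd)
  · exact Or.inl ((QuotientGroup.eq_one_iff u).2 (h4 u hu ((h8 _ u).2 e)))

omit [Fintype G] [Fact p.Prime] in
/-- The condition on the moved factors of `D`. -/
def Gf3 (N : ℕ) (H D : Subgroup G) (c : MonoidAlgebra V G) : Prop :=
  ∀ A : Subgroup G, A ≤ stabT H D c →
    N < (D ⊓ Cz A).relIndex D ∨
      (∃ a ∈ D, ∃ b ∈ D, (D ⊓ Cz A) ⊔ Subgroup.closure {a, b} = D) ∨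
      ∃ T : Subgroup G, D ⊓ Cz A < T ∧ T ≤ D ∧ ∀ t ∈ Nz (D ⊓ Cz A), t ∈ stabT H D c →
        (∀ u ∈ T, t * u * t⁻¹ ∈ T) ∧ ((∀ d ∈ D, t * d * t⁻¹ * d⁻¹ ∈ D ⊓ Cz A) ∨
          ∀ u ∈ T, t * u * t⁻¹ * u⁻¹ ∈ D ⊓ Cz A → u ∈ D ⊓ Cz A)

omit [Fintype G] [Fact p.Prime] in
lemma zrel_top {Z : Subgroup G} (h : Z = D) :
    ∃ a ∈ D, ∃ b ∈ D, Z ⊔ Subgroup.closure {a, b} = D :=
  ⟨1, D.one_mem, 1, D.one_mem, by simp [h]⟩

omit [Fintype G] [Fact p.Prime] in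
lemma Gf2.gf3 (h : Gf2 N H D c) : Gf3 N H D c := by
  intro A hA
  by_cases e : D ⊓ Cz A = D
  · exact Or.inr (Or.inl (zrel_top e))
  exact (h A hA).imp_right (Or.imp_right fun h1 => ⟨D, lt_of_le_of_ne inf_le_left e, le_rfl,
    fun t ht ht' => ⟨fun u hu => (Subgroup.mem_normalizer_iff.1 ht'.2.1 u).1 hu, h1 t ht ht'⟩⟩)

omit [Fintype G] [Fact p.Prime] in
lemma Gf3.of_map {G' : Type} [Group G'] {H' D' : Subgroup G'} {c' : MonoidAlgebra V G'}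
    (h : Gf3 N H D c) (f : G' →* G) (hf : Function.Injective f) (hD : D'.map f = D)
    (hT : (stabT H' D' c').map f ≤ stabT H D c) : Gf3 N H' D' c' := by
  intro A hA
  have hZ : D ⊓ Cz (A.map f) = (D' ⊓ Cz A).map f := by
    subst hD
    refine le_antisymm ?_ ?_
    · rintro _ ⟨⟨x, hx, rfl⟩, h1⟩
      exact ⟨x, ⟨hx, mem_Cz.2 fun a ha => hf (by
        rw [map_mul, map_mul, mem_Cz.1 h1 _ ⟨a, ha, rfl⟩])⟩, rfl⟩
    · rintro _ ⟨x, hx, rfl⟩
      refine ⟨⟨x, hx.1, rfl⟩, mem_Cz.2 ?_⟩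
      rintro _ ⟨a, ha, rfl⟩
      rw [← map_mul, ← map_mul, mem_Cz.1 hx.2 a ha]
  have h1 := h (A.map f) ((Subgroup.map_mono hA).trans hT)
  rw [hZ, ← hD, Subgroup.relIndex_map_map_of_injective _ _ hf] at h1
  refine h1.imp id (Or.imp ?_ ?_)
  · rintro ⟨_, ⟨a, ha, rfl⟩, _, ⟨b, hb, rfl⟩, e⟩
    refine ⟨a, ha, b, hb, Subgroup.map_injective hf ?_⟩
    rw [Subgroup.map_sup, MonoidHom.map_closure, Set.image_pair, e]
  rintro ⟨T, t1, t2, h2⟩
  obtain ⟨T', rfl⟩ : ∃ T' : Subgroup G', T'.map f = T :=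
    ⟨T.comap f, Subgroup.map_comap_eq_self (t2.trans (Subgroup.map_le_range f D'))⟩
  refine ⟨T', (Subgroup.map_lt_map_iff_of_injective hf).1 t1,
    (Subgroup.map_le_map_iff_of_injective hf).1 t2, fun t ht ht' => ?_⟩
  have h3 : ∀ d, f t * f d * (f t)⁻¹ * (f d)⁻¹ ∈ (D' ⊓ Cz A).map f ↔
      t * d * t⁻¹ * d⁻¹ ∈ D' ⊓ Cz A := fun d => by
    rw [← map_inv, ← map_inv, ← map_mul, ← map_mul, ← map_mul, Subgroup.mem_map_iff_mem hf]
  obtain ⟨h4, h5⟩ := h2 (f t) (Subgroup.le_normalizer_map f ⟨t, ht, rfl⟩) (hD ▸ hT ⟨t, ht', rfl⟩)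
  refine ⟨fun u hu => ?_, h5.imp (fun e d hd => (h3 d).1 (e _ ⟨d, hd, rfl⟩))
    fun e d hd e' => (Subgroup.mem_map_iff_mem hf).1 (e _ ⟨d, hd, rfl⟩ ((h3 d).2 e'))⟩
  have h6 := h4 _ ⟨u, hu, rfl⟩
  rwa [← map_inv, ← map_mul, ← map_mul, Subgroup.mem_map_iff_mem hf] at h6

omit [Fintype G] [Fact p.Prime] in
lemma zrel_cj (h : Gf3 N ⊤ D c) {g : G} (hg : g ∈ Nz D) (K : Subgroup G) :
    Gf3 N K D (cjRep V G g c) := by
  refine h.of_map (MulAut.conj g⁻¹).toMonoidHom (MulAut.conj g⁻¹).injective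
    (cg_eq_iff.2 (inv_mem hg)) ?_
  rintro _ ⟨t, ht, rfl⟩
  have h1 := (mem_stabT_cj hg).1 (stabT_mono le_top _ _ ht)
  rwa [← inv_inv g, inv_inv g⁻¹] at h1

lemma zrel_step (hM : CoefB p M V) [Q.Normal]
    [Fintype (G ⧸ Q)] [Fintype (Finset (Subgroup (G ⧸ Q)))] (h : Rt p m ⊤ D c) (hQD : Q ≤ D)
    (hQ : ∀ R : Subgroup G, R.Normal → R ≤ D → R ≤ Q) (hG : Gf3 N ⊤ D c)
    (h0 : ∀ γ : MonoidAlgebra V (G ⧸ Q), Rt p m ⊤ (D.map (qm Q)) γ →
      N < Nat.card (D.map (qm Q)) →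
      ∑ σ ∈ chs p (D.map (qm Q)), sgn σ * (wl p (stab σ) (D.map (qm Q)) γ : ℤ) = 0)
    (ih : ∀ (K : Subgroup G), K ≠ ⊤ → ∀ g ∈ Nz D, Rt p m K D (cjRep V G g c) →
      lL p K (bk D (cjRep V G g c) K) = lL p (K ⊓ Nz D) (bk D (cjRep V G g c) (K ⊓ Nz D))) :
    lL p ⊤ (bk D c ⊤) = lL p (Nz D) (bk D c (Nz D)) := by
  refine vred_step2 hM.nonunit h hQD hQ (fun e hD γ hγ hγ' => ?_) ih
  have h2 := hG _ (inf_le_left (b := Cz Q))
  have h6 : Q.relIndex D = Nat.card (D.map (qm Q)) := by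
    rw [← Subgroup.relIndex_ker, QuotientGroup.ker_mk']
  rw [e, h6] at h2
  rcases h2 with h2 | ⟨a, -, b, -, h2⟩ | ⟨T, t1, t2, h2⟩
  · exact h0 γ hγ' h2
  · refine sum_wl_two hM hγ' (om1_le_of_rank hM.prime.pos _ hγ'.comm
      (zfin_rank (a := qm Q a) (b := qm Q b) ?_)) hD
    rw [← h2, Subgroup.map_sup, map_self_qm, bot_sup_eq, MonoidHom.map_closure, Set.image_pair]
  · exact vred_rel hM h hQD t1 t2
      (fun t => h2 t (Subgroup.le_normalizer_of_normal (Subgroup.mem_top t))) hγ hγ'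

theorem lL_reduce3 (p b : ℕ) [Fact p.Prime] : ∃ N : ℕ, ∀ (M : Ideal (integralClosure ℤ ℂ))
    (V : ValuationSubring ℂ), CoefB p M V →
    ∀ (G : Type) [Group G] [Fintype G] (m : ℕ) (H D : Subgroup G) (c : MonoidAlgebra V G),
      Rt p m H D c → om1 p D ≤ b → Gf3 N H D c →
      lL p H (bk D c H) = lL p (H ⊓ Nz D) (bk D c (H ⊓ Nz D)) := by
  obtain ⟨N, hN⟩ := sum_wl_zero p b
  refine ⟨N, fun M V hM => ?_⟩
  have hp := hM.nonunit
  have key : ∀ (n : ℕ) (G : Type) [Group G] [Fintype G] (m : ℕ) (H D : Subgroup G)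
      (c : MonoidAlgebra V G), Nat.card H < n → Rt p m H D c → om1 p D ≤ b → Gf3 N H D c →
      lL p H (bk D c H) = lL p (H ⊓ Nz D) (bk D c (H ⊓ Nz D)) := by
    intro n
    induction n with
    | zero => exact fun _ _ _ _ _ _ _ h => absurd h (Nat.not_lt_zero _)
    | succ n ih =>
      intro G _ _ m H D c hH h hb hm
      let _ : Fintype H := Fintype.ofFinite H
      have h1 := h.pull hp
      have hb' := (lind_om1 h).trans_le hb
      have hm' := hm.of_map H.subtype H.subtype_injective h.map_sub h.stab_map.le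
      have h2 := h.lL_map hp (K := ⊤) le_top
      have h3 := h.lL_map hp (K := Nz (D.subgroupOf H)) (Cz_le_Nz _)
      rw [map_top_sub] at h2
      rw [h.map_Nz] at h3
      rw [h2, h3]
      have h4 := (D.subgroupOf H).normalCore_le
      let _ : Fintype (H ⧸ (D.subgroupOf H).normalCore) := Fintype.ofFinite _
      let _ : Fintype (Finset (Subgroup (H ⧸ (D.subgroupOf H).normalCore))) := Fintype.ofFinite _
      exact zrel_step hM h1 h4 (fun R _ hR => Subgroup.normal_le_normalCore.2 hR) hm'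
        (fun γ hγ => hN M V hM _ m _ γ hγ ((om1_map_le p h1.comm h4).trans hb'))
        fun K hK g hg hK' => ih H m K _ _ ((bind_card_lt hK).trans_le (Nat.lt_succ_iff.1 hH))
          hK' hb' (zrel_cj hm' hg K)
  exact fun G _ _ m H D c => key _ G m H D c (Nat.lt_succ_self _)

theorem gf3_of_rel (hM : CoefB p M V) (h : Rt p m ⊤ D c) {I : IrrData G} {i : Fin I.n}
    (he : IsBlockIdem I i (bk D c ⊤)) (hl : RelFactors M (I.χ i) D N) : Gf3 N ⊤ D c := by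
  intro A hA
  have hp := hM.nonunit
  have hj := h.root
  have hs := supp_Cz_iff.1 hj.supp
  let _ : Fintype (Cz D) := Fintype.ofFinite _
  obtain ⟨I'⟩ := exists_irrData (Cz D)
  obtain ⟨l, h1⟩ := exists_om_of_idemB I' (j := St.pull V (Cz D).subtype c) hj.pull.idem hj.pull.ne
  have h2 := indV_of_belowB hp he h.pD rfl hs ((le_iff_inMax hj.supp).1 (h.spec hp h.le).2) h1
  have h3 : ∀ t ∈ stabT ⊤ D c, Inert M D (I'.χ l) t := fun t ht =>
    ⟨ht.2.1, bcls_stab hM.iff hj h1 ht.2.1 ht.2.2⟩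
  exact (hl (I'.χ l) ((isIrrChar_iff I').2 ⟨l, rfl⟩) ((kr1b_indTo_iff hM.iff I i I' l).2 h2)
    A _ (fun t ht => h3 t (hA ht)) rfl).imp_right (Or.imp_right fun ⟨T, t1, t2, a⟩ =>
      ⟨T, t1, t2, fun t ht ht' => a t ht (h3 t ht')⟩)

omit [Fintype G] [Fact p.Prime] in
/-- A free action on an invariant subgroup gives the condition on the moved factors. -/
theorem relFactors_of_relInertia {χ : G → ℂ} (hc : ∀ x ∈ D, ∀ y ∈ D, x * y = y * x)
    (h : RelInertia M χ D) : RelFactors M χ D N := by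
  intro ψ hψ hi A Z hA hZ
  obtain ⟨T, t1, t2, h1⟩ := h ψ hψ hi
  by_cases e : Z = D
  · exact Or.inr (Or.inl (zrel_top e))
  have hZD : Z ≤ D := hZ ▸ inf_le_left
  obtain ⟨a, ha, ha'⟩ : ∃ a ∈ A, a ∉ Subgroup.centralizer (D : Set G) := by
    by_contra h2
    push Not at h2
    exact e (hZ.trans (inf_eq_left.2 fun d hd a ha => (h2 a ha d hd).symm))
  have h2 : ∀ u ∈ T, u ∈ Z → u = 1 := fun u hu hz =>
    ((h1 a (hA a ha).1 (hA a ha).2 u hu).2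
      (Subgroup.mem_centralizer_iff.1 (Subgroup.mem_inf.1 (hZ.le hz)).2 a ha)).resolve_right ha'
  have h3 : ∀ x ∈ Z ⊔ T, ∃ z ∈ Z, ∃ u ∈ T, x = z * u := fun x hx => by
    have h4 : (x : G) ∈ ((Z ⊔ T : Subgroup G) : Set G) := hx
    rw [Subgroup.coe_mul_of_left_le_normalizer_right Z T fun z hz =>
      Subgroup.centralizer_le_normalizer _ fun u hu => hc u (t1 hu) z (hZD hz)] at h4
    obtain ⟨z, hz, u, hu, rfl⟩ := h4
    exact ⟨z, hz, u, hu, rfl⟩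
  refine Or.inr (Or.inr ⟨Z ⊔ T, lt_of_le_of_ne le_sup_left fun e' => t2 ?_, sup_le hZD t1,
    fun t ht ht' => ⟨fun x hx => ?_, ?_⟩⟩)
  · exact (Subgroup.eq_bot_iff_forall _).2 fun u hu => h2 u hu (e' ▸ Subgroup.mem_sup_right hu)
  · obtain ⟨z, hz, u, hu, rfl⟩ := h3 x hx
    have h4 : t * (z * u) * t⁻¹ = t * z * t⁻¹ * (t * u * t⁻¹) := by group
    rw [h4]
    exact Subgroup.mul_mem_sup ((Subgroup.mem_normalizer_iff.1 ht z).1 hz)
      (h1 t ht'.1 ht'.2 u hu).1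
  · by_cases h5 : t ∈ Subgroup.centralizer (D : Set G)
    · refine Or.inl fun d hd => ?_
      rw [← h5 d hd, mul_inv_cancel_right, mul_inv_cancel]
      exact Z.one_mem
    refine Or.inr fun x hx hx' => ?_
    obtain ⟨z, hz, u, hu, rfl⟩ := h3 x hx
    obtain ⟨h6, h7⟩ := h1 t ht'.1 ht'.2 u hu
    have h8 : t * u * t⁻¹ * u⁻¹ ∈ Z := by
      have h9 := Z.mul_mem (Z.mul_mem (Z.inv_mem ((Subgroup.mem_normalizer_iff.1 ht z).1 hz)) hx') hz
      convert h9 using 1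
      group
    have h9 := h2 _ (T.mul_mem h6 (T.inv_mem hu)) h8
    rw [mul_inv_eq_one, mul_inv_eq_iff_eq_mul] at h9
    rw [(h7 h9).resolve_right h5, mul_one]
    exact hz

theorem awc_of_gf3 (p : ℕ) (hp : p.Prime) (n : ℕ) : ∃ N : ℕ, ∀ (G : Type) [Group G] [Finite G]
      (M : Ideal (integralClosure ℤ ℂ)), M.IsMaximal → (p : integralClosure ℤ ℂ) ∈ M →
      ∀ (χ : G → ℂ), IsIrrChar χ →
      ∀ (D : Subgroup G), IsDefectGroup p M χ D → (∀ x ∈ D, ∀ y ∈ D, x * y = y * x) →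
      Group.rank D ≤ n → RelFactors M χ D N →
      ∑ᶠ (P : Subgroup G) (_ : IsPGroup p P),
        Nat.card (Subgroup.normalizer (P : Set G)) * wInd p M χ P =
          Nat.card G * lInd p M χ ⊤ := by
  have : Fact p.Prime := ⟨hp⟩
  obtain ⟨N, hN⟩ := lL_reduce3 p (p ^ n)
  refine ⟨N, fun G _ _ M hM hpM χ hχ D hD hc hn hl => ?_⟩
  rw [sum_wInd p hp G M hM hpM χ hχ D hD hc]
  let _ : Fintype G := Fintype.ofFinite G
  obtain ⟨V, hV⟩ := exists_val_of_maximal M hM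
  have hB : CoefB p M V := ⟨hp, hM, hpM, hV⟩
  obtain ⟨I⟩ := exists_irrData G
  obtain ⟨i, rfl⟩ := (isIrrChar_iff I).1 hχ
  obtain ⟨c, h, he⟩ := exists_rt hB I i hD hc
  have h1 := hN M V hB G _ ⊤ D c h (om1_le_of_rank hp.pos D hc hn) (gf3_of_rel hB h he hl)
  obtain ⟨h4, h5⟩ := lInd_eq_lL hB h he
  rw [top_inf_eq] at h1
  rw [h4, h5, h1]

end Pool.Agent.Lib.MP_b6945b_al.Kx
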