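import Pool.Agent.Lib.MP_b6945b_al.Kx.ZReg
import Pool.Agent.Lib.MP_b6945b_al.Kx.ZCyc
import Pool.Agent.Lib.MP_b6945b_al.Kx.YBd
import Pool.Agent.Lib.MP_b6945b_al.Kx.ZM

set_option autoImplicit false

/-!
The bound for the number of Brauer characters.
-/

namespace Pool.Agent.Lib.MP_b6945b_al.Kx

open St Bi Finset

variable {G : Type} [Group G] [Fintype G] {V : ValuationSubring ℂ} {p : ℕ} [Fact p.Prime]
  {m N : ℕ} {H D P Q : Subgroup G} {c : MonoidAlgebra V G} {M : Ideal (integralClosure ℤ ℂ)}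
  {u : G}

omit [Fintype G] [Fact p.Prime] in
lemma ztop_stab (D : Subgroup G) (c : MonoidAlgebra V G) (u : G) :
    stabT ⊤ D c ⊓ Cu u = stabT (Cu u) D c := by
  ext n
  exact ⟨fun hn => ⟨hn.2, hn.1.2⟩, fun hn => ⟨⟨trivial, hn.2⟩, hn.1⟩⟩

omit [Fintype G] in
lemma ztop_index (d : D) : (Subgroup.zpowers (d : G)).relIndex D = (Subgroup.zpowers d).index := by
  rw [Subgroup.relIndex]
  congr 1
  ext x
  rw [Subgroup.mem_subgroupOf, Subgroup.mem_zpowers_iff, Subgroup.mem_zpowers_iff]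
  exact ⟨fun ⟨k, hk⟩ => ⟨k, Subtype.ext (by simpa using hk)⟩,
    fun ⟨k, hk⟩ => ⟨k, by rw [← hk]; simp⟩⟩

theorem lL_le_sq_top (hM : CoefB p M V) (hodd : p ≠ 2) (h : Rt p m ⊤ D c)
    (h2 : om1 p D ≤ p ^ 2) (h3 : ¬ Nat.card D ∣ p ^ 2) : lL p ⊤ (bk D c ⊤) ≤ p ^ 2 := by
  classical
  have hp := hM.nonunit
  let _ : Fintype D := Fintype.ofFinite _
  obtain ⟨I⟩ := exists_irrData G
  obtain ⟨i₀, he⟩ := (h.spec hp le_top).1.exists_blockIdem I
  obtain ⟨E, e1, e2, e3, e4⟩ := exists_inertial (D := D) (T := stabT ⊤ D c)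
    (fun n hn => hn.2.1) h.Cz_le_stab
  let _ : Fintype E := Fintype.ofFinite _
  obtain ⟨W, a1, a2, a3, a4, a5, a6, a7, a8⟩ := exists_M hM.prime
    (fun a b : D => Subtype.ext (h.comm _ a.2 _ b.2)) h.pD h2 h3 E (not_dvd_card hp h e1)
  have hl : ∀ d : D, d ≠ 1 → lL p (Cu (d : G)) (bk D c (Cu (d : G))) = stb E.subtype d :=
    fun d hd => (lL_cu_two hM h h2 d.2 fun e => hd (Subtype.ext e)).trans (fu_eq h d.2 (e4 d))
  have hne : ∀ d : D, d ∉ W → d ≠ 1 := fun d hd e => hd (e ▸ W.one_mem)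
  have hb : ∀ d : D, d ∉ W → ∃ m' φ, m' * stb E.subtype d + 1 = (Subgroup.zpowers d).index ∧
      (stb E.subtype d = 1 ∨ 2 ≤ m') ∧ BSC p (Cu (d : G)) (bk D c (Cu (d : G))) (Nat.card D)
        (Subgroup.zpowers d).index m' (stb E.subtype d) φ := fun d hd => by
    obtain ⟨m', b1, b2⟩ := a6 d hd
    have hu := h.cu_top hp d.2
    have hf : stb E.subtype d = (Cz D).relIndex (stabT (Cu (d : G)) D c) := (fu_eq h d.2 (e4 d)).symm
    by_cases h1 : stb E.subtype d = 1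
    · have hT : stabT (Cu (d : G)) D c ≤ Cz D := Subgroup.relIndex_eq_one.1 (hf.symm.trans h1)
      rw [h1, mul_one] at b1
      obtain ⟨φ, hφ⟩ := bsc_nilp hp hu hT b1
      exact ⟨m', φ, by rw [h1, mul_one, b1], Or.inl h1, by rw [h1]; exact hφ⟩
    · obtain ⟨φ, hφ⟩ := bsc_wall hp hodd hu (W := Subgroup.zpowers (d : G))
        (Subgroup.zpowers_le_of_mem d.2) le_rfl (fun t ht x hx e => by
          obtain ⟨g, hg⟩ := e3 t ⟨trivial, ht.2⟩
          have h5 : t * d = d * t := mem_Cz.1 ht.1 _ (Subgroup.mem_zpowers _)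
          rcases ((a5 d hd).resolve_left h1).2 g
            (Subtype.ext ((hg d).trans (mul_inv_eq_iff_eq_mul.2 h5))) with h6 | h6
          · refine Or.inr (mem_Cz.2 fun y hy => ?_)
            have h7 := hg ⟨y, hy⟩
            rw [h6] at h7
            exact mul_inv_eq_iff_eq_mul.1 h7.symm
          · obtain ⟨k, hk⟩ := Subgroup.mem_zpowers_iff.1 (h6 ⟨x, hx⟩
              (Subtype.ext ((hg ⟨x, hx⟩).trans (mul_inv_eq_iff_eq_mul.2 e))))
            exact Or.inl (Subgroup.mem_zpowers_iff.2 ⟨k, by simpa using congrArg Subtype.val hk⟩))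
        hf (b1.trans (ztop_index d).symm) (b2.resolve_left h1) (hl d (hne d hd)).ge
      rw [ztop_index] at hφ
      exact ⟨m', φ, b1, b2, hφ⟩
  have hS := ls_of_bsc hp hodd h he E e1 e2 e3 e4 W a1 (fun d hd => hl d (hne d hd)) hb
    (fun d _ => Or.inr (a7 d)) a8
  have h7 := rank_orb hp h D.one_mem he
  rw [Cu_one] at h7
  rw [← h7]
  exact hS.bound a2 a3 (fun d hd => ((rank_orb hp h d.2 he).trans (hl d hd)).ge) a4 a5

theorem lL_le_sq (hM : CoefB p M V) (hodd : p ≠ 2) (h : Rt p m H D c)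
    (h2 : om1 p D ≤ p ^ 2) (h3 : ¬ Nat.card D ∣ p ^ 2) : lL p H (bk D c H) ≤ p ^ 2 := by
  let _ : Fintype H := Fintype.ofFinite H
  rw [lind_pull hM.nonunit h]
  refine lL_le_sq_top hM hodd (h.pull hM.nonunit) ((lind_om1 h).trans_le h2) ?_
  rwa [Nat.card_congr (Subgroup.subgroupOfEquivOfLe (h.le_Cz.trans h.le)).toEquiv]

end Pool.Agent.Lib.MP_b6945b_al.Kx
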